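import Mathlib

/-! Galois facts for big algebraically closed fields (module 7.1 and 7.2 of the blueprint). -/

set_option autoImplicit false

open Cardinal

namespace SF

section Ext

variable {A B K L κ : Type*} [CommRing A] [CommRing B] [Field K] [Field L]
  [Algebra A K] [Algebra B L]

/-- Extension of an isomorphism to algebraically closed fields along transcendence bases. -/
theorem exists_ringEquiv_of_basis [IsAlgClosed K] [IsAlgClosed L] (e : A ≃+* B)
    (v : κ → K) (w : κ → L) (hv : IsTranscendenceBasis A v) (hw : IsTranscendenceBasis B w) :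
    ∃ σ : K ≃+* L, (∀ a, σ (algebraMap A K a) = algebraMap B L (e a)) ∧ ∀ i, σ (v i) = w i := by
  let _ := IsAlgClosed.isAlgClosure_of_transcendence_basis v hv
  let _ := IsAlgClosed.isAlgClosure_of_transcendence_basis w hw
  let f : Algebra.adjoin A (Set.range v) ≃+* Algebra.adjoin B (Set.range w) :=
    (hv.1.aevalEquiv.symm.toRingEquiv.trans (MvPolynomial.mapEquiv κ e)).trans
      hw.1.aevalEquiv.toRingEquiv
  have hfa : ∀ a : A, algebraMap (Algebra.adjoin B (Set.range w)) L
      (f (algebraMap A (Algebra.adjoin A (Set.range v)) a)) = algebraMap B L (e a) := by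
    intro a
    have h1 : hv.1.aevalEquiv.symm (algebraMap A (Algebra.adjoin A (Set.range v)) a)
        = MvPolynomial.C a := by
      rw [AlgEquiv.symm_apply_eq]
      rw [← MvPolynomial.algebraMap_eq, AlgEquiv.commutes]
    show algebraMap (Algebra.adjoin B (Set.range w)) L
      (hw.1.aevalEquiv (MvPolynomial.map (e : A →+* B)
      (hv.1.aevalEquiv.symm (algebraMap A (Algebra.adjoin A (Set.range v)) a)))) = _
    rw [h1, MvPolynomial.map_C, AlgebraicIndependent.algebraMap_aevalEquiv]
    simp
  have hfv : ∀ (i : κ) (hi : v i ∈ Algebra.adjoin A (Set.range v)),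
      algebraMap (Algebra.adjoin B (Set.range w)) L (f ⟨v i, hi⟩) = w i := by
    intro i hi
    have h1 : hv.1.aevalEquiv.symm ⟨v i, hi⟩ = MvPolynomial.X i := by
      rw [AlgEquiv.symm_apply_eq]
      apply Subtype.ext
      simp
    show algebraMap (Algebra.adjoin B (Set.range w)) L
      (hw.1.aevalEquiv (MvPolynomial.map (e : A →+* B)
      (hv.1.aevalEquiv.symm ⟨v i, hi⟩))) = _
    rw [h1, MvPolynomial.map_X, AlgebraicIndependent.algebraMap_aevalEquiv]
    simp
  refine ⟨IsAlgClosure.equivOfEquiv K L f, ?_, ?_⟩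
  · intro a
    rw [← hfa a, ← IsAlgClosure.equivOfEquiv_algebraMap K L f]
    rfl
  · intro i
    have hi : v i ∈ Algebra.adjoin A (Set.range v) := Algebra.subset_adjoin ⟨i, rfl⟩
    rw [← hfv i hi, ← IsAlgClosure.equivOfEquiv_algebraMap K L f]
    rfl

end Ext

section Fixed

variable {T Ω : Type*} [Field T] [Field Ω] [Algebra T Ω] [IsAlgClosed Ω]

/-- An automorphism of an intermediate ring extends to `Ω`. -/
theorem exists_extend_algEquiv (A : Subalgebra T Ω) (e : A ≃ₐ[T] A) :
    ∃ σ : Ω ≃ₐ[T] Ω, ∀ a : A, σ (a : Ω) = e a := by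
  obtain ⟨s, hs⟩ := exists_isTranscendenceBasis A Ω
  obtain ⟨σ, h1, -⟩ := exists_ringEquiv_of_basis (e : A ≃+* A) _ _ hs hs
  refine ⟨AlgEquiv.ofRingEquiv (f := σ) ?_, ?_⟩
  · intro r
    have := h1 (algebraMap T A r)
    have h2 : (e : A ≃+* A) (algebraMap T A r) = algebraMap T A r := e.commutes r
    rw [h2] at this
    exact this
  · intro a
    exact h1 a

theorem exists_shift {x : Ω} (hx : Transcendental T x) (c : T) :
    ∃ σ : Ω ≃ₐ[T] Ω, σ x = x + algebraMap T Ω c := by
  have hinj : Function.Injective (Polynomial.aeval (R := T) x) :=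
    transcendental_iff_injective.1 hx
  let f : Polynomial T ≃ₐ[T] (Polynomial.aeval (R := T) x).range :=
    AlgEquiv.ofInjective _ hinj
  let e : (Polynomial.aeval (R := T) x).range ≃ₐ[T] (Polynomial.aeval (R := T) x).range :=
    (f.symm.trans (Polynomial.algEquivAevalXAddC c)).trans f
  obtain ⟨σ, hσ⟩ := exists_extend_algEquiv _ e
  refine ⟨σ, ?_⟩
  have hfX : ((f Polynomial.X : (Polynomial.aeval (R := T) x).range) : Ω) = x := by
    show Polynomial.aeval x Polynomial.X = x
    simp
  have h1 := hσ (f Polynomial.X)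
  rw [hfX] at h1
  rw [h1]
  show ((f (Polynomial.algEquivAevalXAddC c (f.symm (f Polynomial.X))) :
    (Polynomial.aeval (R := T) x).range) : Ω) = _
  rw [AlgEquiv.symm_apply_apply]
  show Polynomial.aeval x (Polynomial.algEquivAevalXAddC c Polynomial.X) = _
  simp

theorem exists_conj {x y : Ω} (hx : IsAlgebraic T x)
    (h : Polynomial.aeval y (minpoly T x) = 0) : ∃ σ : Ω ≃ₐ[T] Ω, σ x = y := by
  have hy : IsAlgebraic T y := ⟨minpoly T x, minpoly.ne_zero hx.isIntegral, h⟩
  have : IsAlgClosure T (algebraicClosure T Ω) := inferInstance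
  have : Normal T (algebraicClosure T Ω) := inferInstance
  let x' : algebraicClosure T Ω := ⟨x, mem_algebraicClosure_iff.2 hx⟩
  let y' : algebraicClosure T Ω := ⟨y, mem_algebraicClosure_iff.2 hy⟩
  have hx' : IsAlgebraic T x' := Algebra.IsAlgebraic.isAlgebraic _
  have hmin : minpoly T x' = minpoly T x := by
    exact (minpoly.algebraMap_eq (algebraMap (algebraicClosure T Ω) Ω).injective x').symm
  have h2 : Polynomial.aeval y' (minpoly T x') = 0 := by
    rw [hmin]
    have h3 := Polynomial.aeval_algebraMap_apply Ω y' (minpoly T x)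
    have h4 : algebraMap (algebraicClosure T Ω) Ω y' = y := rfl
    rw [h4, h] at h3
    exact (map_eq_zero (algebraMap (algebraicClosure T Ω) Ω)).1 h3.symm
  obtain ⟨σ0, hσ0⟩ := minpoly.exists_algEquiv_of_root hx' h2
  obtain ⟨σ, hσ⟩ := exists_extend_algEquiv (algebraicClosure T Ω).toSubalgebra σ0
  refine ⟨σ.symm, ?_⟩
  rw [AlgEquiv.symm_apply_eq]
  have h3 : σ y = _ := hσ y'
  rw [h3]
  exact (congrArg Subtype.val hσ0).symm

theorem mem_range_of_fixed [CharZero T] {x : Ω} (h : ∀ σ : Ω ≃ₐ[T] Ω, σ x = x) :
    x ∈ (algebraMap T Ω).range := by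
  by_cases hx : IsAlgebraic T x
  · have hsep : (minpoly T x).Separable := (minpoly.irreducible hx.isIntegral).separable
    have hdeg : (minpoly T x).natDegree = 1 := by
      have hsp : ((minpoly T x).map (algebraMap T Ω)).Splits := IsAlgClosed.splits _
      have hcard : Fintype.card ((minpoly T x).rootSet Ω) = (minpoly T x).natDegree :=
        Polynomial.card_rootSet_eq_natDegree hsep hsp
      rw [← hcard, Fintype.card_eq_one_iff]
      refine ⟨⟨x, ?_⟩, ?_⟩
      · rw [Polynomial.mem_rootSet]
        exact ⟨minpoly.ne_zero hx.isIntegral, minpoly.aeval T x⟩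
      · rintro ⟨y, hy⟩
        rw [Polynomial.mem_rootSet] at hy
        obtain ⟨σ, hσ⟩ := exists_conj hx hy.2
        apply Subtype.ext
        show y = x
        rw [← hσ, h σ]
    have := minpoly.mem_range_of_degree_eq_one T x (by
      rw [Polynomial.degree_eq_natDegree (minpoly.ne_zero hx.isIntegral), hdeg]; rfl)
    exact this
  · obtain ⟨σ, hσ⟩ := exists_shift (T := T) hx 1
    rw [h σ] at hσ
    simp at hσ

theorem finite_orbit_iff [CharZero T] {x : Ω} :
    (Set.range fun σ : Ω ≃ₐ[T] Ω => σ x).Finite ↔ IsAlgebraic T x := by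
  constructor
  · intro hfin
    by_contra hx
    have hinf : Set.Infinite (Set.range fun c : T => x + algebraMap T Ω c) := by
      apply Set.infinite_range_of_injective
      intro c d hcd
      exact (algebraMap T Ω).injective (add_left_cancel hcd)
    apply hinf
    apply hfin.subset
    rintro _ ⟨c, rfl⟩
    obtain ⟨σ, hσ⟩ := exists_shift (T := T) hx c
    exact ⟨σ, hσ⟩
  · intro hx
    apply ((minpoly T x).rootSet_finite Ω).subset
    rintro _ ⟨σ, rfl⟩
    rw [Polynomial.mem_rootSet]
    refine ⟨minpoly.ne_zero hx.isIntegral, ?_⟩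
    have := Polynomial.aeval_algHom_apply (σ : Ω →ₐ[T] Ω) x (minpoly T x)
    simpa using this

end Fixed

section Countable

variable {T Ω ι : Type*} [Field T] [Field Ω] [Algebra T Ω] [IsAlgClosed Ω]

/-- Two countable tuples with the same type over a countable field are conjugate. -/
theorem exists_algEquiv_of_same_type [Countable T] [Uncountable Ω] [Countable ι]
    (s t : ι → Ω)
    (h : ∀ p : MvPolynomial ι T, MvPolynomial.aeval s p = 0 ↔ MvPolynomial.aeval t p = 0) :
    ∃ σ : Ω ≃ₐ[T] Ω, ∀ i, σ (s i) = t i := by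
  classical
  let A := (MvPolynomial.aeval (R := T) s).range
  let B := (MvPolynomial.aeval (R := T) t).range
  have hker : RingHom.ker (MvPolynomial.aeval (R := T) s) =
      RingHom.ker (MvPolynomial.aeval (R := T) t) := by
    ext p
    rw [RingHom.mem_ker, RingHom.mem_ker]
    exact h p
  let e : A ≃ₐ[T] B :=
    ((Ideal.quotientKerAlgEquivOfSurjective
      (f := (MvPolynomial.aeval (R := T) s).rangeRestrict)
      (AlgHom.rangeRestrict_surjective _)).symm.trans
      (Ideal.quotientEquivAlgOfEq T (by
        rw [AlgHom.ker_rangeRestrict, AlgHom.ker_rangeRestrict]; exact hker))).trans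
      (Ideal.quotientKerAlgEquivOfSurjective
      (f := (MvPolynomial.aeval (R := T) t).rangeRestrict)
      (AlgHom.rangeRestrict_surjective _))
  have he : ∀ p : MvPolynomial ι T, ((e ((MvPolynomial.aeval (R := T) s).rangeRestrict p) : B) : Ω)
      = MvPolynomial.aeval t p := by
    intro p
    have h1 : (Ideal.quotientKerAlgEquivOfSurjective
      (f := (MvPolynomial.aeval (R := T) s).rangeRestrict)
      (AlgHom.rangeRestrict_surjective _)).symm
      ((MvPolynomial.aeval (R := T) s).rangeRestrict p) = Ideal.Quotient.mk _ p := by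
      rw [AlgEquiv.symm_apply_eq]
      rfl
    show (((Ideal.quotientKerAlgEquivOfSurjective
      (f := (MvPolynomial.aeval (R := T) t).rangeRestrict)
      (AlgHom.rangeRestrict_surjective _)) ((Ideal.quotientEquivAlgOfEq T (by
        rw [AlgHom.ker_rangeRestrict, AlgHom.ker_rangeRestrict]; exact hker))
      ((Ideal.quotientKerAlgEquivOfSurjective
      (f := (MvPolynomial.aeval (R := T) s).rangeRestrict)
      (AlgHom.rangeRestrict_surjective _)).symm
      ((MvPolynomial.aeval (R := T) s).rangeRestrict p)))) : Ω) = _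
    rw [h1]
    rfl
  have hcM : Countable (MvPolynomial ι T) := by
    rw [← Cardinal.mk_le_aleph0_iff]
    refine MvPolynomial.cardinalMk_le_max_lift.trans ?_
    simp [Cardinal.mk_le_aleph0]
  have hcA : Countable A := by
    have : Function.Surjective (MvPolynomial.aeval (R := T) s).rangeRestrict :=
      AlgHom.rangeRestrict_surjective _
    exact this.countable
  have hcB : Countable B := by
    have : Function.Surjective (MvPolynomial.aeval (R := T) t).rangeRestrict :=
      AlgHom.rangeRestrict_surjective _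
    exact this.countable
  obtain ⟨u, hu⟩ := exists_isTranscendenceBasis A Ω
  obtain ⟨v, hv⟩ := exists_isTranscendenceBasis B Ω
  have hΩ : ℵ₀ < #Ω := Cardinal.aleph0_lt_mk
  have h1 : #Ω = #u := by
    have := IsAlgClosed.cardinal_eq_cardinal_transcendence_basis_of_aleph0_lt _ hu
      (Cardinal.mk_le_aleph0) hΩ
    simpa using this
  have h2 : #Ω = #v := by
    have := IsAlgClosed.cardinal_eq_cardinal_transcendence_basis_of_aleph0_lt _ hv
      (Cardinal.mk_le_aleph0) hΩ
    simpa using this
  obtain ⟨f⟩ := Cardinal.eq.1 (h1.symm.trans h2)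
  have hv' : IsTranscendenceBasis B (fun i : u => ((f i : v) : Ω)) := by
    have := hv.comp_equiv f
    exact this
  obtain ⟨σ, hσ, -⟩ := exists_ringEquiv_of_basis (e : A ≃+* B) _ _ hu hv'
  refine ⟨AlgEquiv.ofRingEquiv (f := σ) ?_, ?_⟩
  · intro r
    have := hσ (algebraMap T A r)
    have h2 : (e : A ≃+* B) (algebraMap T A r) = algebraMap T B r := e.commutes r
    rw [h2] at this
    exact this
  · intro i
    have h3 := hσ ((MvPolynomial.aeval (R := T) s).rangeRestrict (MvPolynomial.X i))
    have h4 := he (MvPolynomial.X i)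
    rw [MvPolynomial.aeval_X] at h4
    have h5 : algebraMap A Ω ((MvPolynomial.aeval (R := T) s).rangeRestrict
      (MvPolynomial.X i)) = s i := by
      show MvPolynomial.aeval (R := T) s (MvPolynomial.X i) = s i
      simp
    rw [h5] at h3
    show σ (s i) = t i
    rw [h3]
    exact h4

end Countable

section Descent

variable {Ω V H ι : Type*} [Field Ω] [AddCommGroup V] [Module Ω V]

/-- Descent: a finite dimensional stable subspace has a basis of invariant vectors. -/
theorem descent (ρ : H → Ω →+* Ω) (act : H → V → V)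
    (lam : ι → V →ₗ[Ω] Ω) (hlam : ∀ i h v, lam i (act h v) = ρ h (lam i v))
    (hsep : ∀ v, (∀ i, lam i v = 0) → v = 0)
    (W : Submodule Ω V) [FiniteDimensional Ω W] (hW : ∀ h, ∀ v ∈ W, act h v ∈ W) :
    ∃ b : Module.Basis (Fin (Module.finrank Ω W)) Ω W, ∀ k h, act h (b k : V) = b k := by
  classical
  let L : Set (Module.Dual Ω W) := Set.range fun i => (lam i).comp W.subtype
  have hL : Submodule.span Ω L = ⊤ := by
    by_contra hne
    obtain ⟨x, hx0, hx⟩ : ∃ x : W, x ≠ 0 ∧ ∀ f ∈ Submodule.span Ω L, f x = 0 := by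
      by_contra hcon
      push Not at hcon
      apply hne
      have h1 : (Submodule.span Ω L).dualCoannihilator = ⊥ := by
        rw [eq_bot_iff]
        intro x hx
        rw [Submodule.mem_dualCoannihilator] at hx
        by_contra hx0
        obtain ⟨f, hf, hf0⟩ := hcon x hx0
        exact hf0 (hx f hf)
      have h2 := Subspace.dualCoannihilator_dualAnnihilator_eq (W := Submodule.span Ω L)
      rw [h1, Submodule.dualAnnihilator_bot] at h2
      exact h2.symm
    apply hx0
    apply Subtype.ext
    apply hsep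
    intro i
    exact hx _ (Submodule.subset_span ⟨i, rfl⟩)
  obtain ⟨b, hbL, hbs, hbi⟩ := exists_linearIndependent Ω L
  let β : Module.Basis b Ω (Module.Dual Ω W) := Module.Basis.mk hbi (by
    rw [Subtype.range_coe, hbs, hL])
  have hfb : Fintype b := FiniteDimensional.fintypeBasisIndex β
  let w : Module.Basis b Ω W := β.dualBasis.map (Module.evalEquiv Ω W).symm
  have hw : ∀ i j, β i (w j) = if i = j then 1 else 0 := by
    intro i j
    have h1 : Module.evalEquiv Ω W (w j) = β.dualBasis j := by
      simp [w]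
    have h2 : Module.evalEquiv Ω W (w j) (β i) = β i (w j) := rfl
    rw [← h2, h1, Module.Basis.dualBasis_apply_self]
  have hcard : Fintype.card b = Module.finrank Ω W := by
    rw [Module.finrank_eq_card_basis w]
  let e : b ≃ Fin (Module.finrank Ω W) := Fintype.equivFinOfCardEq hcard
  refine ⟨w.reindex e, ?_⟩
  intro k h
  rw [Module.Basis.reindex_apply]
  set j := e.symm k
  have hmem : act h (w j : V) ∈ W := hW h _ (w j).2
  let u : W := ⟨act h (w j : V), hmem⟩
  have hu : u = w j := by
    apply (Module.evalEquiv Ω W).injective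
    apply β.ext
    intro i
    show β i u = β i (w j)
    obtain ⟨i', hi'⟩ := hbL i.2
    have hβ : β i = (lam i').comp W.subtype := by
      have h5 : β i = (i : Module.Dual Ω W) := by simp [β]
      rw [h5]
      exact hi'.symm
    have h3 : β i u = ρ h (β i (w j)) := by
      rw [hβ]
      exact hlam i' h _
    rw [h3, hw]
    split_ifs <;> simp
  exact congrArg Subtype.val hu

end Descent

end SF
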