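import Mathlib

set_option autoImplicit false

namespace EpsReg

open Finset

/-- Total weight between two finite sets. -/
def E {V : Type} (w : V → V → ℝ) (X Y : Finset V) : ℝ := ∑ x ∈ X, ∑ y ∈ Y, w x y

/-- Density of a pair of finite sets. -/
noncomputable def Dn {V : Type} (w : V → V → ℝ) (X Y : Finset V) : ℝ := E w X Y / ((#X : ℝ) * #Y)

/-- Symmetric weights in `[0,1]` with zero diagonal. -/
def Wt {V : Type} (w : V → V → ℝ) : Prop :=
  (∀ x y, 0 ≤ w x y) ∧ (∀ x y, w x y ≤ 1) ∧ (∀ x y, w x y = w y x) ∧ ∀ x, w x x = 0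

/-- `U` is `ε`-regular (with itself). -/
def Reg {V : Type} (w : V → V → ℝ) (ε : ℝ) (U : Finset V) : Prop :=
  ∀ X Y : Finset V, X ⊆ U → Y ⊆ U → ε * #U ≤ #X → ε * #U ≤ #Y → |Dn w X Y - Dn w U U| ≤ ε

theorem Dn_bounds {V : Type} (w : V → V → ℝ) (hw : Wt w) (X Y : Finset V) :
    0 ≤ Dn w X Y ∧ Dn w X Y ≤ 1 := by
  have h0 : 0 ≤ E w X Y := Finset.sum_nonneg fun x _ => Finset.sum_nonneg fun y _ => hw.1 x y
  have h1 : E w X Y ≤ (#X : ℝ) * #Y := by
    unfold E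
    calc ∑ x ∈ X, ∑ y ∈ Y, w x y ≤ ∑ x ∈ X, ∑ y ∈ Y, (1 : ℝ) :=
          Finset.sum_le_sum fun x _ => Finset.sum_le_sum fun y _ => hw.2.1 x y
      _ = (#X : ℝ) * #Y := by simp
  unfold Dn
  exact ⟨div_nonneg h0 (by positivity), div_le_one_of_le₀ h1 (by positivity)⟩

theorem subsample_nonneg {V : Type} (w : V → V → ℝ) (hw : Wt w) (A : Finset V) : 0 ≤ E w A A :=
  Finset.sum_nonneg fun x _ => Finset.sum_nonneg fun y _ => hw.1 x y

theorem subsample_erase {V : Type} [DecidableEq V] (w : V → V → ℝ) (hw : Wt w) (A : Finset V)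
    (v : V) (hv : v ∈ A) : E w A A = E w (A.erase v) (A.erase v) + 2 * ∑ y ∈ A, w v y := by
  unfold E
  rw [← Finset.add_sum_erase A _ hv]
  have h1 : ∀ x ∈ A.erase v, ∑ y ∈ A, w x y = w v x + ∑ y ∈ A.erase v, w x y := by
    intro x _
    rw [← Finset.add_sum_erase A _ hv, hw.2.2.1 x v]
  rw [Finset.sum_congr rfl h1, Finset.sum_add_distrib]
  have h2 : ∑ x ∈ A.erase v, w v x = ∑ y ∈ A, w v y := by
    rw [← Finset.add_sum_erase A (fun y => w v y) hv, hw.2.2.2 v, zero_add]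
  rw [h2]
  ring

theorem subsample_aux {V : Type} [DecidableEq V] (w : V → V → ℝ) (hw : Wt w) (s : ℕ) (hs : 1 ≤ s) :
    ∀ k : ℕ, ∀ A : Finset V, #A = s + k →
    ∃ A' ⊆ A, #A' = s ∧
      E w A A * ((s : ℝ) * (s - 1)) ≤ E w A' A' * ((#A : ℝ) * (#A - 1)) := by
  intro k
  induction k with
  | zero =>
    intro A hA
    refine ⟨A, Finset.Subset.refl _, by omega, ?_⟩
    have : (#A : ℝ) = s := by rw [hA]; simp
    rw [this]
  | succ k ih =>
    intro A hA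
    have hne : A.Nonempty := by
      rw [← Finset.card_pos]; omega
    obtain ⟨v, hv, hmin⟩ := Finset.exists_min_image A (fun x => ∑ y ∈ A, w x y) hne
    have hdeg : (#A : ℝ) * ∑ y ∈ A, w v y ≤ E w A A := by
      unfold E
      rw [← nsmul_eq_mul, ← Finset.sum_const]
      exact Finset.sum_le_sum fun x hx => hmin x hx
    have hcard : #(A.erase v) = s + k := by
      rw [Finset.card_erase_of_mem hv]; omega
    obtain ⟨A', hA', hc, hE⟩ := ih (A.erase v) hcard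
    refine ⟨A', hA'.trans (Finset.erase_subset _ _), hc, ?_⟩
    have he := subsample_erase w hw A v hv
    set N : ℝ := (#A : ℝ) with hN
    have hB : ((#(A.erase v) : ℕ) : ℝ) = N - 1 := by
      rw [Finset.card_erase_of_mem hv, Nat.cast_sub (by omega)]
      simp [hN]
    rw [hB] at hE
    have hnA := subsample_nonneg w hw A
    have hnA' := subsample_nonneg w hw A'
    have hs1 : (1 : ℝ) ≤ s := by exact_mod_cast hs
    have hNs : N = s + k + 1 := by rw [hN, hA]; push_cast; ring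
    have hk0 : (0 : ℝ) ≤ k := Nat.cast_nonneg k
    by_cases h2 : N = 2
    · have hs' : (s : ℝ) = 1 := by linarith
      rw [hs', h2]
      simp only [sub_self, mul_zero]
      have : (0 : ℝ) ≤ E w A' A' * (2 * (2 - 1)) := by
        apply mul_nonneg hnA'; norm_num
      exact this
    · have hN2 : 2 < N := by
        rcases lt_or_eq_of_le (show (2 : ℝ) ≤ N by linarith) with h | h
        · exact h
        · exact absurd h.symm h2
      have hss : (0 : ℝ) ≤ s * (s - 1) := by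
        apply mul_nonneg <;> linarith
      have h3 : (N - 2) * E w A A ≤ N * E w (A.erase v) (A.erase v) := by
        nlinarith [hdeg, he]
      have h4 : (N - 2) * (E w A A * (s * (s - 1))) ≤ (N - 2) * (E w A' A' * (N * (N - 1))) := by
        calc (N - 2) * (E w A A * (s * (s - 1))) = ((N - 2) * E w A A) * (s * (s - 1)) := by ring
          _ ≤ (N * E w (A.erase v) (A.erase v)) * (s * (s - 1)) :=
            mul_le_mul_of_nonneg_right h3 hss
          _ = N * (E w (A.erase v) (A.erase v) * (s * (s - 1))) := by ring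
          _ ≤ N * (E w A' A' * ((N - 1) * (N - 1 - 1))) :=
            mul_le_mul_of_nonneg_left hE (by linarith)
          _ = _ := by ring
      exact le_of_mul_le_mul_left h4 (by linarith)

theorem subsample {V : Type} [DecidableEq V] (w : V → V → ℝ) (hw : Wt w) (A : Finset V) (s : ℕ)
    (hs : 1 ≤ s) (hsA : s ≤ #A) :
    ∃ A' ⊆ A, #A' = s ∧ Dn w A A - 1 / s ≤ Dn w A' A' := by
  obtain ⟨A', hA', hc, hE⟩ := subsample_aux w hw s hs (#A - s) A (by omega)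
  refine ⟨A', hA', hc, ?_⟩
  have hnA := subsample_nonneg w hw A
  have hnA' := subsample_nonneg w hw A'
  have hs1 : (1 : ℝ) ≤ s := by exact_mod_cast hs
  have hNs : (s : ℝ) ≤ #A := by exact_mod_cast hsA
  set N : ℝ := (#A : ℝ) with hN
  have hD1 : Dn w A A ≤ 1 := by
    unfold Dn
    have hNpos : (0 : ℝ) < (#A : ℝ) := by linarith
    rw [div_le_one (mul_pos hNpos hNpos)]
    calc E w A A ≤ ∑ x ∈ A, ∑ y ∈ A, (1 : ℝ) :=
          Finset.sum_le_sum fun x _ => Finset.sum_le_sum fun y _ => hw.2.1 x y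
      _ = (#A : ℝ) * #A := by simp
  have hD0 : 0 ≤ Dn w A A := by
    unfold Dn; positivity
  have hD0' : 0 ≤ Dn w A' A' := by
    unfold Dn; positivity
  rcases Nat.eq_or_lt_of_le hs with h1 | h1
  · rw [← h1]
    simp only [Nat.cast_one, div_one]
    linarith
  · have hs2 : (2 : ℝ) ≤ s := by exact_mod_cast h1
    have hN1 : 0 < N - 1 := by linarith
    have hN0 : 0 < N := by linarith
    have hs0 : (0 : ℝ) < s := by linarith
    have h5 : Dn w A A * (1 - 1 / s) ≤ Dn w A' A' := by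
      unfold Dn
      rw [hc, ← hN, le_div_iff₀ (by positivity)]
      have e : E w A A / (N * N) * (1 - 1 / s) * ((s : ℝ) * s) =
          E w A A * (s * (s - 1)) / (N * N) := by
        field_simp
      rw [e, div_le_iff₀ (by positivity)]
      calc E w A A * (s * (s - 1)) ≤ E w A' A' * (N * (N - 1)) := hE
        _ ≤ E w A' A' * (N * N) := by
          apply mul_le_mul_of_nonneg_left _ hnA'
          nlinarith
    have h6 : 0 ≤ 1 / (s : ℝ) := by positivity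
    nlinarith

theorem packing {V : Type} [DecidableEq V] (P : Finset V) (hP : P.Nonempty)
    (pr : Finset V → Prop) (s : ℕ) (hs : 1 ≤ s) (γ : ℝ) (hγ : 0 < γ)
    (h : ∀ R ⊆ P, γ * #P ≤ #R → ∃ A ⊆ R, #A = s ∧ pr A) :
    ∃ F : Finset (Finset V), (∀ A ∈ F, A ⊆ P ∧ #A = s ∧ pr A) ∧
      (∀ A ∈ F, ∀ B ∈ F, A ≠ B → Disjoint A B) ∧ (#(P \ F.biUnion id) : ℝ) < γ * #P := by
  classical
  obtain ⟨S, hS⟩ : ∃ S : Finset (Finset (Finset V)), ∀ F, F ∈ S ↔
      ((∀ A ∈ F, A ⊆ P ∧ #A = s ∧ pr A) ∧ (∀ A ∈ F, ∀ B ∈ F, A ≠ B → Disjoint A B)) := by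
    refine ⟨P.powerset.powerset.filter (fun F => (∀ A ∈ F, A ⊆ P ∧ #A = s ∧ pr A) ∧
      (∀ A ∈ F, ∀ B ∈ F, A ≠ B → Disjoint A B)), fun F => ?_⟩
    rw [Finset.mem_filter]
    constructor
    · exact fun h => h.2
    · intro h
      refine ⟨?_, h⟩
      rw [Finset.mem_powerset]
      intro A hA
      rw [Finset.mem_powerset]
      exact (h.1 A hA).1
  have hne : S.Nonempty := ⟨∅, (hS ∅).2 ⟨by simp, by simp⟩⟩
  obtain ⟨F, hF, hmax⟩ := Finset.exists_max_image S (fun F => #F) hne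
  obtain ⟨h1, h2⟩ := (hS F).1 hF
  refine ⟨F, h1, h2, ?_⟩
  by_contra hcon
  have hcon' := not_lt.1 hcon
  obtain ⟨A, hA, hAs, hApr⟩ := h (P \ F.biUnion id) Finset.sdiff_subset hcon'
  have hdisj : ∀ B ∈ F, Disjoint A B := by
    intro B hB
    rw [Finset.disjoint_left]
    intro x hxA hxB
    have h3 := (Finset.mem_sdiff.1 (hA hxA)).2
    exact h3 (Finset.mem_biUnion.2 ⟨B, hB, hxB⟩)
  have hAF : A ∉ F := by
    intro hAF
    have h3 := hdisj A hAF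
    rw [disjoint_self] at h3
    have h4 : A = ∅ := h3
    rw [h4, Finset.card_empty] at hAs
    omega
  have hmem : insert A F ∈ S := by
    rw [hS]
    constructor
    · intro B hB
      rcases Finset.mem_insert.1 hB with rfl | hB
      · exact ⟨hA.trans Finset.sdiff_subset, hAs, hApr⟩
      · exact h1 B hB
    · intro B hB C hC hBC
      rcases Finset.mem_insert.1 hB with hB1 | hB1
      · rcases Finset.mem_insert.1 hC with hC1 | hC1
        · exact absurd (hB1.trans hC1.symm) hBC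
        · rw [hB1]; exact hdisj C hC1
      · rcases Finset.mem_insert.1 hC with hC1 | hC1
        · rw [hC1]; exact (hdisj B hB1).symm
        · exact h2 B hB1 C hC1 hBC
  have h5 := hmax _ hmem
  simp only [Finset.card_insert_of_notMem hAF] at h5
  omega

theorem E_le {V : Type} (w : V → V → ℝ) (hw : Wt w) (X Y : Finset V) :
    E w X Y ≤ (#X : ℝ) * #Y := by
  unfold E
  calc ∑ x ∈ X, ∑ y ∈ Y, w x y ≤ ∑ x ∈ X, ∑ y ∈ Y, (1 : ℝ) :=
        Finset.sum_le_sum fun x _ => Finset.sum_le_sum fun y _ => hw.2.1 x y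
    _ = (#X : ℝ) * #Y := by simp

theorem E_nonneg {V : Type} (w : V → V → ℝ) (hw : Wt w) (X Y : Finset V) :
    0 ≤ E w X Y := by
  unfold E
  exact Finset.sum_nonneg fun x _ => Finset.sum_nonneg fun y _ => hw.1 x y

theorem E_split_left {V : Type} [DecidableEq V] (w : V → V → ℝ) (P U Y : Finset V) (h : U ⊆ P) :
    E w P Y = E w U Y + E w (P \ U) Y := by
  unfold E
  rw [add_comm, Finset.sum_sdiff h]

theorem E_split_right {V : Type} [DecidableEq V] (w : V → V → ℝ) (X P U : Finset V) (h : U ⊆ P) :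
    E w X P = E w X U + E w X (P \ U) := by
  unfold E
  rw [← Finset.sum_add_distrib]
  apply Finset.sum_congr rfl
  intro x _
  rw [add_comm, Finset.sum_sdiff h]

theorem sum_bU {V : Type} [DecidableEq V] (F : Finset (Finset V)) (g : V → ℝ)
    (hFd : ∀ A ∈ F, ∀ B ∈ F, A ≠ B → Disjoint A B) :
    ∑ x ∈ F.biUnion id, g x = ∑ A ∈ F, ∑ x ∈ A, g x :=
  Finset.sum_biUnion (fun A hA B hB hAB => hFd A hA B hB hAB)

theorem E_biUnion {V : Type} [DecidableEq V] (w : V → V → ℝ) (F F' : Finset (Finset V))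
    (hFd : ∀ A ∈ F, ∀ B ∈ F, A ≠ B → Disjoint A B)
    (hFd' : ∀ A ∈ F', ∀ B ∈ F', A ≠ B → Disjoint A B) :
    E w (F.biUnion id) (F'.biUnion id) = ∑ A ∈ F, ∑ B ∈ F', E w A B := by
  unfold E
  rw [sum_bU F _ hFd]
  apply Finset.sum_congr rfl
  intro A _
  rw [Finset.sum_comm]
  rw [sum_bU F' _ hFd']
  apply Finset.sum_congr rfl
  intro B _
  rw [Finset.sum_comm]

theorem card_bU {V : Type} [DecidableEq V] (F : Finset (Finset V)) (s : ℕ)
    (hFs : ∀ A ∈ F, #A = s) (hFd : ∀ A ∈ F, ∀ B ∈ F, A ≠ B → Disjoint A B) :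
    #(F.biUnion id) = s * #F := by
  have h : #(F.biUnion id) = ∑ A ∈ F, #A :=
    Finset.card_biUnion (fun A hA B hB hAB => hFd A hA B hB hAB)
  rw [h, Finset.sum_congr rfl hFs]
  simp [mul_comm]

theorem averaging {V : Type} [DecidableEq V] (w : V → V → ℝ) (hw : Wt w) (P P' : Finset V)
    (hP : P.Nonempty) (hP' : P'.Nonempty) (s : ℕ) (hs : 1 ≤ s) (γ : ℝ) (hγ : 0 < γ) (hγ1 : γ < 1)
    (F F' : Finset (Finset V))
    (hF : ∀ A ∈ F, A ⊆ P ∧ #A = s) (hFd : ∀ A ∈ F, ∀ B ∈ F, A ≠ B → Disjoint A B)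
    (hFl : (#(P \ F.biUnion id) : ℝ) < γ * #P)
    (hF' : ∀ A ∈ F', A ⊆ P' ∧ #A = s) (hFd' : ∀ A ∈ F', ∀ B ∈ F', A ≠ B → Disjoint A B)
    (hFl' : (#(P' \ F'.biUnion id) : ℝ) < γ * #P') :
    ∃ A ∈ F, ∃ B ∈ F', Dn w P P' - 2 * γ ≤ Dn w A B := by
  classical
  by_contra hcon
  push Not at hcon
  set U := F.biUnion id with hU
  set U' := F'.biUnion id with hU'
  have hUP : U ⊆ P := by
    intro x hx
    rw [hU, Finset.mem_biUnion] at hx
    obtain ⟨A, hA, hx⟩ := hx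
    exact (hF A hA).1 hx
  have hUP' : U' ⊆ P' := by
    intro x hx
    rw [hU', Finset.mem_biUnion] at hx
    obtain ⟨A, hA, hx⟩ := hx
    exact (hF' A hA).1 hx
  have hcU : #U = s * #F := card_bU F s (fun A hA => (hF A hA).2) hFd
  have hcU' : #U' = s * #F' := card_bU F' s (fun A hA => (hF' A hA).2) hFd'
  have hPc : (0 : ℝ) < #P := by exact_mod_cast hP.card_pos
  have hPc' : (0 : ℝ) < #P' := by exact_mod_cast hP'.card_pos
  have hs1 : #(P \ U) + #U = #P := Finset.card_sdiff_add_card_eq_card hUP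
  have hs1' : #(P' \ U') + #U' = #P' := Finset.card_sdiff_add_card_eq_card hUP'
  have hFne : F.Nonempty := by
    by_contra hne
    rw [Finset.not_nonempty_iff_eq_empty] at hne
    have : U = ∅ := by rw [hU, hne]; simp
    rw [this, Finset.sdiff_empty] at hFl
    nlinarith
  have hFne' : F'.Nonempty := by
    by_contra hne
    rw [Finset.not_nonempty_iff_eq_empty] at hne
    have : U' = ∅ := by rw [hU', hne]; simp
    rw [this, Finset.sdiff_empty] at hFl'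
    nlinarith
  have hsr : (1 : ℝ) ≤ s := by exact_mod_cast hs
  set d := Dn w P P' with hd
  have hdpos : 0 < d - 2 * γ := by
    obtain ⟨A, hA⟩ := hFne
    obtain ⟨B, hB⟩ := hFne'
    refine lt_of_le_of_lt ?_ (hcon A hA B hB)
    unfold Dn
    exact div_nonneg (E_nonneg w hw A B) (by positivity)
  have hEAB : ∀ A ∈ F, ∀ B ∈ F', E w A B ≤ (d - 2 * γ) * (s * s) := by
    intro A hA B hB
    have h := hcon A hA B hB
    unfold Dn at h
    rw [(hF A hA).2, (hF' B hB).2, div_lt_iff₀ (by positivity)] at h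
    exact h.le
  have hEU : E w U U' ≤ (d - 2 * γ) * (#P * #P') := by
    rw [hU, hU', E_biUnion w F F' hFd hFd']
    calc ∑ A ∈ F, ∑ B ∈ F', E w A B ≤ ∑ A ∈ F, ∑ B ∈ F', (d - 2 * γ) * (s * s) :=
          Finset.sum_le_sum fun A hA => Finset.sum_le_sum fun B hB => hEAB A hA B hB
      _ = (d - 2 * γ) * (((s * #F : ℕ) : ℝ) * ((s * #F' : ℕ) : ℝ)) := by
          simp only [Finset.sum_const, nsmul_eq_mul]
          push_cast
          ring
      _ ≤ (d - 2 * γ) * (#P * #P') := by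
          rw [← hcU, ← hcU']
          have h1 : (#U : ℝ) ≤ #P := by exact_mod_cast Finset.card_le_card hUP
          have h2 : (#U' : ℝ) ≤ #P' := by exact_mod_cast Finset.card_le_card hUP'
          gcongr
  have hE1 : E w P P' = d * (#P * #P') := by
    rw [hd]
    unfold Dn
    field_simp
  have hE2 := E_split_left w P U P' hUP
  have hE3 := E_split_right w U P' U' hUP'
  have hE4 := E_le w hw (P \ U) P'
  have hE5 := E_le w hw U (P' \ U')
  have hE6 : (#U : ℝ) * #(P' \ U') ≤ #P * #(P' \ U') := by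
    have h1 : (#U : ℝ) ≤ #P := by exact_mod_cast Finset.card_le_card hUP
    gcongr
  have hE7 : (#(P \ U) : ℝ) * #P' < γ * #P * #P' := by
    exact mul_lt_mul_of_pos_right hFl hPc'
  have hE8 : (#P : ℝ) * #(P' \ U') < #P * (γ * #P') := by
    exact mul_lt_mul_of_pos_left hFl' hPc
  nlinarith

theorem glue {V : Type} [DecidableEq V] (w : V → V → ℝ) (hw : Wt w) (A B : Finset V) (s : ℕ)
    (hs : 1 ≤ s) (hA : #A = s) (hB : #B = s) (hAB : Disjoint A B) :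
    Dn w (A ∪ B) (A ∪ B) = (Dn w A A + Dn w B B + 2 * Dn w A B) / 4 ∧ #(A ∪ B) = 2 * s := by
  have hc : #(A ∪ B) = 2 * s := by
    rw [Finset.card_union_of_disjoint hAB, hA, hB]; ring
  refine ⟨?_, hc⟩
  have hE : E w (A ∪ B) (A ∪ B) = E w A A + E w A B + (E w A B + E w B B) := by
    have h1 : E w B A = E w A B := by
      unfold E
      rw [Finset.sum_comm]
      apply Finset.sum_congr rfl; intro x _
      apply Finset.sum_congr rfl; intro y _
      exact hw.2.2.1 y x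
    have h2 : E w (A ∪ B) (A ∪ B) = E w A A + E w A B + (E w B A + E w B B) := by
      unfold E
      rw [Finset.sum_union hAB]
      simp only [Finset.sum_union hAB, Finset.sum_add_distrib]
    rw [h2, h1]
  have hs0 : (s : ℝ) ≠ 0 := by
    have : 0 < s := hs
    positivity
  unfold Dn
  rw [hE, hc, hA, hB]
  push_cast
  field_simp
  ring

theorem cross_glue {V : Type} [DecidableEq V] (w : V → V → ℝ) (hw : Wt w) (P P' : Finset V)
    (hP : P.Nonempty) (hP' : P'.Nonempty) (hd : Disjoint P P') (s : ℕ) (hs : 1 ≤ s) (γ a : ℝ)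
    (hγ : 0 < γ) (hγ1 : γ < 1)
    (h1 : ∀ R ⊆ P, γ * #P ≤ #R → ∃ A ⊆ R, s ≤ #A ∧ a ≤ Dn w A A)
    (h2 : ∀ R ⊆ P', γ * #P' ≤ #R → ∃ A ⊆ R, s ≤ #A ∧ a ≤ Dn w A A) :
    ∃ C ⊆ P ∪ P', #C = 2 * s ∧
      (2 * (a - 1 / s) + 2 * (Dn w P P' - 2 * γ)) / 4 ≤ Dn w C C := by
  have key : ∀ Q : Finset V, (∀ R ⊆ Q, γ * #Q ≤ #R → ∃ A ⊆ R, s ≤ #A ∧ a ≤ Dn w A A) →
      ∀ R ⊆ Q, γ * #Q ≤ #R → ∃ A ⊆ R, #A = s ∧ a - 1 / s ≤ Dn w A A := by
    intro Q hQ R hR hR'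
    obtain ⟨A, hA, hsA, ha⟩ := hQ R hR hR'
    obtain ⟨A', hA'A, hcard, hle⟩ := subsample w hw A s hs hsA
    exact ⟨A', hA'A.trans hA, hcard, by linarith⟩
  obtain ⟨F, hF, hFd, hFl⟩ := packing P hP (fun A => a - 1 / s ≤ Dn w A A) s hs γ hγ (key P h1)
  obtain ⟨F', hF', hFd', hFl'⟩ := packing P' hP' (fun A => a - 1 / s ≤ Dn w A A) s hs γ hγ (key P' h2)
  obtain ⟨A, hA, B, hB, hAB⟩ := averaging w hw P P' hP hP' s hs γ hγ hγ1 F F'
    (fun A hA => ⟨(hF A hA).1, (hF A hA).2.1⟩) hFd hFl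
    (fun A hA => ⟨(hF' A hA).1, (hF' A hA).2.1⟩) hFd' hFl'
  obtain ⟨hAP, hAs, hAd⟩ := hF A hA
  obtain ⟨hBP, hBs, hBd⟩ := hF' B hB
  obtain ⟨hg, hc⟩ := glue w hw A B s hs hAs hBs (Finset.disjoint_of_subset_left hAP
    (Finset.disjoint_of_subset_right hBP hd))
  refine ⟨A ∪ B, Finset.union_subset_union hAP hBP, hc, ?_⟩
  rw [hg]
  linarith

theorem min_degree {V : Type} [DecidableEq V] (w : V → V → ℝ) (hw : Wt w) (X : Finset V)
    (hX : 2 ≤ #X) (lam : ℝ) (hlam : 0 ≤ lam) (v : V) (hv : v ∈ X)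
    (h : Dn w (X.erase v) (X.erase v) ≤ Dn w X X + lam * Real.logb 2 ((#X : ℝ) / (#X - 1))) :
    (Dn w X X - lam) * #X - 1 / 2 ≤ ∑ y ∈ X, w v y := by
  obtain ⟨hw0, hw1, hws, hwd⟩ := hw
  have hb := Dn_bounds w ⟨hw0, hw1, hws, hwd⟩ X X
  have hN : (2 : ℝ) ≤ (#X : ℝ) := by exact_mod_cast hX
  have hcard : ((#(X.erase v) : ℕ) : ℝ) = (#X : ℝ) - 1 := by
    rw [Finset.card_erase_of_mem hv, Nat.cast_sub (by omega)]
    simp
  set g : ℝ := ∑ y ∈ X, w v y with hg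
  have hcol : ∑ x ∈ X.erase v, w x v = g := by
    have h1 := Finset.sum_erase_add X (fun x => w x v) hv
    have h2 : ∑ x ∈ X, w x v = g := Finset.sum_congr rfl fun x _ => hws x v
    simp only [hwd v, add_zero] at h1
    rw [h1, h2]
  have hE : E w X X = E w (X.erase v) (X.erase v) + 2 * g := by
    unfold E
    rw [← Finset.sum_erase_add X _ hv]
    have h3 : ∀ x ∈ X.erase v, ∑ y ∈ X, w x y = (∑ y ∈ X.erase v, w x y) + w x v :=
      fun x _ => (Finset.sum_erase_add X (fun y => w x y) hv).symm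
    rw [Finset.sum_congr rfl h3, Finset.sum_add_distrib, hcol, ← hg]
    ring
  have hD : E w X X = Dn w X X * (#X : ℝ) ^ 2 := by
    unfold Dn
    field_simp
  have hDe : Dn w (X.erase v) (X.erase v) =
      (Dn w X X * (#X : ℝ) ^ 2 - 2 * g) / ((#X : ℝ) - 1) ^ 2 := by
    rw [← hD, hE]
    unfold Dn
    rw [hcard]
    congr 1 <;> ring
  set D := Dn w X X with hDdef
  set N : ℝ := (#X : ℝ) with hNdef
  have hN1 : 0 < N - 1 := by linarith
  have hlog : Real.logb 2 (N / (N - 1)) ≤ 2 / (N - 1) := by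
    unfold Real.logb
    have hl2 : (1 : ℝ) / 2 < Real.log 2 := by
      have := Real.log_two_gt_d9
      linarith
    have h4 : Real.log (N / (N - 1)) ≤ 1 / (N - 1) := by
      have h5 := Real.log_le_sub_one_of_pos (x := N / (N - 1)) (by positivity)
      have h6 : N / (N - 1) - 1 = 1 / (N - 1) := by
        field_simp
        ring
      linarith
    rw [div_le_iff₀ (by linarith)]
    have h7 : (0 : ℝ) < 1 / (N - 1) := by positivity
    have h8 : 2 / (N - 1) * Real.log 2 = (1 / (N - 1)) * (2 * Real.log 2) := by ring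
    rw [h8]
    nlinarith
  have h9 : (D * N ^ 2 - 2 * g) / (N - 1) ^ 2 ≤ D + lam * (2 / (N - 1)) := by
    rw [← hDe]
    exact h.trans (by linarith [mul_le_mul_of_nonneg_left hlog hlam])
  rw [div_le_iff₀ (by positivity)] at h9
  have h10 : (D + lam * (2 / (N - 1))) * (N - 1) ^ 2 = D * (N - 1) ^ 2 + 2 * lam * (N - 1) := by
    field_simp
  rw [h10] at h9
  nlinarith [hb.2, hlam]

theorem upperU_triv {V : Type} (w : V → V → ℝ) (hw : Wt w) (P Q : Finset V) :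
    E w P Q ≤ (#P : ℝ) * #Q := by
  unfold E
  calc ∑ x ∈ P, ∑ y ∈ Q, w x y ≤ ∑ x ∈ P, ∑ y ∈ Q, (1 : ℝ) :=
        Finset.sum_le_sum fun x _ => Finset.sum_le_sum fun y _ => hw.2.1 x y
    _ = (#P : ℝ) * #Q := by simp

theorem upperU_dn {V : Type} (w : V → V → ℝ) (P Q : Finset V) (K : ℝ)
    (h : Dn w P Q ≤ K) : E w P Q ≤ K * ((#P : ℝ) * #Q) := by
  unfold Dn at h
  rcases (show (0 : ℝ) ≤ (#P : ℝ) * #Q by positivity).eq_or_lt with h0 | h0
  · rw [← h0, mul_zero]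
    have h3 : (#P : ℝ) = 0 ∨ (#Q : ℝ) = 0 := mul_eq_zero.mp h0.symm
    rcases h3 with h3 | h3
    · have : P = ∅ := Finset.card_eq_zero.mp (by exact_mod_cast h3)
      subst this
      simp [E]
    · have : Q = ∅ := Finset.card_eq_zero.mp (by exact_mod_cast h3)
      subst this
      simp [E]
  · exact (div_le_iff₀ h0).mp h

theorem upperU {V : Type} [DecidableEq V] (w : V → V → ℝ) (hw : Wt w) (X : Finset V)
    (D κ ζ : ℝ) (hD : 0 ≤ D) (hκ : 0 ≤ κ) (hζ : 0 < ζ)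
    (h1 : ∀ Y ⊆ X, ζ * #X ≤ #Y → Dn w Y Y ≤ D + κ)
    (h2 : ∀ P ⊆ X, ∀ P' ⊆ X, Disjoint P P' → ζ * #X ≤ #P → ζ * #X ≤ #P' → Dn w P P' ≤ D + κ)
    (Y1 Y2 : Finset V) (hY1 : Y1 ⊆ X) (hY2 : Y2 ⊆ X) :
    E w Y1 Y2 ≤ (D + κ) * (#Y1 * #Y2) + 4 * ζ * (#X : ℝ) ^ 2 := by
  have hK : 0 ≤ D + κ := add_nonneg hD hκ
  have hN : (0 : ℝ) ≤ #X := Nat.cast_nonneg _
  have hsub : ∀ P : Finset V, P ⊆ X → (#P : ℝ) ≤ #X := fun P hP => by
    exact_mod_cast Finset.card_le_card hP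
  -- error of a small set
  let er : Finset V → ℝ := fun P => if (#P : ℝ) < ζ * #X then (#P : ℝ) else 0
  have her0 : ∀ P, 0 ≤ er P := fun P => by
    show 0 ≤ (if (#P : ℝ) < ζ * #X then (#P : ℝ) else 0)
    split_ifs
    · positivity
    · exact le_rfl
  have her1 : ∀ P, er P ≤ ζ * #X := fun P => by
    show (if (#P : ℝ) < ζ * #X then (#P : ℝ) else 0) ≤ _
    split_ifs with h
    · exact h.le
    · positivity
  have hdis : ∀ P Q : Finset V, P ⊆ X → Q ⊆ X → Disjoint P Q →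
      E w P Q ≤ (D + κ) * ((#P : ℝ) * #Q) + er P * #Q + er Q * #P := by
    intro P Q hP hQ hPQ
    have hp : (0 : ℝ) ≤ #P := Nat.cast_nonneg _
    have hq : (0 : ℝ) ≤ #Q := Nat.cast_nonneg _
    have e1 : 0 ≤ er P * #Q := mul_nonneg (her0 P) hq
    have e2 : 0 ≤ er Q * #P := mul_nonneg (her0 Q) hp
    have e3 : 0 ≤ (D + κ) * ((#P : ℝ) * #Q) := mul_nonneg hK (mul_nonneg hp hq)
    by_cases hs : (#P : ℝ) < ζ * #X
    · have : er P = #P := if_pos hs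
      have := upperU_triv w hw P Q
      nlinarith
    · by_cases ht : (#Q : ℝ) < ζ * #X
      · have : er Q = #Q := if_pos ht
        have := upperU_triv w hw P Q
        nlinarith
      · have := upperU_dn w P Q _ (h2 P hP Q hQ hPQ (not_lt.mp hs) (not_lt.mp ht))
        linarith
  have hself : ∀ P : Finset V, P ⊆ X →
      E w P P ≤ (D + κ) * ((#P : ℝ) * #P) + er P * #P := by
    intro P hP
    have hp : (0 : ℝ) ≤ #P := Nat.cast_nonneg _
    have e1 : 0 ≤ er P * #P := mul_nonneg (her0 P) hp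
    have e3 : 0 ≤ (D + κ) * ((#P : ℝ) * #P) := mul_nonneg hK (mul_nonneg hp hp)
    by_cases hs : (#P : ℝ) < ζ * #X
    · have h4 : er P = #P := if_pos hs
      have h5 := upperU_triv w hw P P
      rw [h4]
      linarith
    · have := upperU_dn w P P _ (h1 P hP (not_lt.mp hs))
      linarith
  set I := Y1 ∩ Y2 with hI
  set A := Y1 \ Y2 with hA
  set B := Y2 \ Y1 with hB
  have hIX : I ⊆ X := Finset.inter_subset_left.trans hY1
  have hAX : A ⊆ X := Finset.sdiff_subset.trans hY1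
  have hBX : B ⊆ X := Finset.sdiff_subset.trans hY2
  have hsplit1 : ∀ f : V → ℝ, ∑ x ∈ Y1, f x = ∑ x ∈ I, f x + ∑ x ∈ A, f x := fun f =>
    (Finset.sum_inter_add_sum_sdiff Y1 Y2 f).symm
  have hsplit2 : ∀ f : V → ℝ, ∑ x ∈ Y2, f x = ∑ x ∈ I, f x + ∑ x ∈ B, f x := fun f => by
    rw [hI, Finset.inter_comm]
    exact (Finset.sum_inter_add_sum_sdiff Y2 Y1 f).symm
  have hE : E w Y1 Y2 = E w I I + E w I B + E w A I + E w A B := by
    unfold E
    rw [hsplit1]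
    simp only [hsplit2, Finset.sum_add_distrib]
    ring
  have hc1 : (#Y1 : ℝ) = #I + #A := by
    have := hsplit1 (fun _ => 1)
    simpa using this
  have hc2 : (#Y2 : ℝ) = #I + #B := by
    have := hsplit2 (fun _ => 1)
    simpa using this
  have hIB : Disjoint I B := by
    rw [Finset.disjoint_left]
    intro x hx hx'
    exact (Finset.mem_sdiff.mp hx').2 (Finset.mem_inter.mp hx).1
  have hAI : Disjoint A I := by
    rw [Finset.disjoint_left]
    intro x hx hx'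
    exact (Finset.mem_sdiff.mp hx).2 (Finset.mem_inter.mp hx').2
  have hAB : Disjoint A B := by
    rw [Finset.disjoint_left]
    intro x hx hx'
    exact (Finset.mem_sdiff.mp hx).2 (Finset.mem_sdiff.mp hx').1
  have b1 := hself I hIX
  have b2 := hdis I B hIX hBX hIB
  have b3 := hdis A I hAX hIX hAI
  have b4 := hdis A B hAX hBX hAB
  have i0 : (0 : ℝ) ≤ #I := Nat.cast_nonneg _
  have a0 : (0 : ℝ) ≤ #A := Nat.cast_nonneg _
  have b0 : (0 : ℝ) ≤ #B := Nat.cast_nonneg _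
  have y1 := hsub Y1 hY1
  have y2 := hsub Y2 hY2
  have m1 : er I * (#I + #B) ≤ ζ * #X * #X :=
    mul_le_mul (her1 I) (by linarith) (by linarith) (by positivity)
  have m2 : er I * (#A : ℝ) ≤ ζ * #X * #X :=
    mul_le_mul (her1 I) (by linarith) (by linarith) (by positivity)
  have m3 : er A * (#I + #B) ≤ ζ * #X * #X :=
    mul_le_mul (her1 A) (by linarith) (by linarith) (by positivity)
  have m4 : er B * (#I + #A) ≤ ζ * #X * #X :=
    mul_le_mul (her1 B) (by linarith) (by linarith) (by positivity)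
  rw [hE, hc1, hc2]
  nlinarith

theorem regA_prod (ε N y1 y2 : ℝ) (hε : 0 < ε) (hN : 0 < N) (h1 : ε * N ≤ y1) (h2 : ε * N ≤ y2) :
    ε ^ 2 * N ^ 2 ≤ y1 * y2 := by
  have h0 : 0 ≤ ε * N := by positivity
  calc ε ^ 2 * N ^ 2 = (ε * N) * (ε * N) := by ring
    _ ≤ y1 * y2 := mul_le_mul h1 h2 h0 (h0.trans h1)

theorem regA_up (ε N y1 y2 D : ℝ) (hε : 0 < ε) (hε2 : ε < 1 / 2) (hN : 0 < N) (h1 : ε * N ≤ y1)
    (h2 : ε * N ≤ y2) :
    (D + ε ^ 2 / 6) * (y1 * y2) + 4 * (ε ^ 3 / 8) * N ^ 2 ≤ (D + ε) * (y1 * y2) := by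
  have hp := regA_prod ε N y1 y2 hε hN h1 h2
  have hp0 : 0 ≤ y1 * y2 := le_trans (by positivity) hp
  have a1 : ε / 2 * (ε ^ 2 * N ^ 2) ≤ ε / 2 * (y1 * y2) := mul_le_mul_of_nonneg_left hp (by linarith)
  have a2 : ε ^ 2 / 6 ≤ ε / 2 := by nlinarith
  have a3 : ε ^ 2 / 6 * (y1 * y2) ≤ ε / 2 * (y1 * y2) := mul_le_mul_of_nonneg_right a2 hp0
  have e1 : (D + ε ^ 2 / 6) * (y1 * y2) + 4 * (ε ^ 3 / 8) * N ^ 2
      = D * (y1 * y2) + ε ^ 2 / 6 * (y1 * y2) + ε / 2 * (ε ^ 2 * N ^ 2) := by ring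
  rw [e1]
  have e2 : (D + ε) * (y1 * y2) = D * (y1 * y2) + ε / 2 * (y1 * y2) + ε / 2 * (y1 * y2) := by ring
  rw [e2]
  linarith

theorem regA_low (ε N y1 y2 D lam : ℝ) (hε : 0 < ε) (hN : 0 < N)
    (hN2 : 3 / ε ^ 2 ≤ N) (h1 : ε * N ≤ y1) (h2 : ε * N ≤ y2) (hlam2 : lam ≤ ε ^ 2 / 6) :
    (D - ε) * (y1 * y2) ≤ y1 * ((D - lam) * N - 1 / 2)
      - ((D + ε ^ 2 / 6) * (y1 * (N - y2)) + 4 * (ε ^ 3 / 8) * N ^ 2) := by
  have hp := regA_prod ε N y1 y2 hε hN h1 h2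
  have hy1 : 0 ≤ y1 := le_trans (by positivity) h1
  have hy2 : 0 ≤ y2 := le_trans (by positivity) h2
  have hε2 : 0 < ε ^ 2 := by positivity
  have b0 : 3 ≤ N * ε ^ 2 := (div_le_iff₀ hε2).mp hN2
  have b1 : 1 / 2 ≤ ε ^ 2 / 6 * N := by linarith
  have b2 : y1 * (1 / 2) ≤ y1 * (ε ^ 2 / 6 * N) := mul_le_mul_of_nonneg_left b1 hy1
  have b3 : lam * (y1 * N) ≤ ε ^ 2 / 6 * (y1 * N) :=
    mul_le_mul_of_nonneg_right hlam2 (mul_nonneg hy1 hN.le)
  have b4 : 0 ≤ ε ^ 2 / 6 * (y1 * y2) := by positivity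
  have b5 : (ε / 2 * y1) * (ε * N) ≤ (ε / 2 * y1) * y2 :=
    mul_le_mul_of_nonneg_left h2 (by positivity)
  have b6 : ε / 2 * (ε ^ 2 * N ^ 2) ≤ ε / 2 * (y1 * y2) := mul_le_mul_of_nonneg_left hp (by linarith)
  have e1 : y1 * ((D - lam) * N - 1 / 2)
      - ((D + ε ^ 2 / 6) * (y1 * (N - y2)) + 4 * (ε ^ 3 / 8) * N ^ 2)
      = D * (y1 * y2) - lam * (y1 * N) - y1 * (1 / 2) - ε ^ 2 / 6 * (y1 * N)
        + ε ^ 2 / 6 * (y1 * y2) - ε / 2 * (ε ^ 2 * N ^ 2) := by ring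
  rw [e1]
  have e2 : (D - ε) * (y1 * y2) = D * (y1 * y2) - (ε / 2 * y1) * y2 - ε / 2 * (y1 * y2) := by ring
  rw [e2]
  have e3 : (ε / 2 * y1) * (ε * N) = ε ^ 2 / 6 * (y1 * N) + ε ^ 2 / 6 * (y1 * N)
      + y1 * (ε ^ 2 / 6 * N) := by ring
  rw [e3] at b5
  linarith

theorem regA_split {V : Type} [DecidableEq V] (w : V → V → ℝ) (X Y1 Y2 : Finset V) (h : Y2 ⊆ X) :
    E w Y1 Y2 + E w Y1 (X \ Y2) = E w Y1 X := by
  unfold E
  rw [← Finset.sum_add_distrib]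
  refine Finset.sum_congr rfl fun x _ => ?_
  rw [add_comm]
  exact Finset.sum_sdiff h

theorem regular_of {V : Type} [DecidableEq V] (w : V → V → ℝ) (hw : Wt w) (ε : ℝ) (hε : 0 < ε)
    (hε2 : ε < 1 / 2) (X : Finset V) (hX : 3 / ε ^ 2 ≤ #X) (lam : ℝ) (hlam : 0 ≤ lam)
    (hlam2 : lam ≤ ε ^ 2 / 6)
    (hdeg : ∀ v ∈ X, (Dn w X X - lam) * #X - 1 / 2 ≤ ∑ y ∈ X, w v y)
    (h1 : ∀ Y ⊆ X, ε ^ 3 / 8 * #X ≤ #Y → Dn w Y Y ≤ Dn w X X + ε ^ 2 / 6)
    (h2 : ∀ P ⊆ X, ∀ P' ⊆ X, Disjoint P P' → ε ^ 3 / 8 * #X ≤ #P → ε ^ 3 / 8 * #X ≤ #P' →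
      Dn w P P' ≤ Dn w X X + ε ^ 2 / 6) : Reg w ε X := by
  intro Y1 Y2 hY1 hY2 hc1 hc2
  have hN : (0 : ℝ) < #X := lt_of_lt_of_le (by positivity) hX
  have hD := Dn_bounds w hw X X
  have hy1 : (0 : ℝ) < #Y1 := lt_of_lt_of_le (by positivity) hc1
  have hy2 : (0 : ℝ) < #Y2 := lt_of_lt_of_le (by positivity) hc2
  have hy12 : (0 : ℝ) < (#Y1 : ℝ) * #Y2 := mul_pos hy1 hy2
  have u1 := upperU w hw X (Dn w X X) (ε ^ 2 / 6) (ε ^ 3 / 8) hD.1 (by positivity) (by positivity)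
    h1 h2 Y1 Y2 hY1 hY2
  have u2 := upperU w hw X (Dn w X X) (ε ^ 2 / 6) (ε ^ 3 / 8) hD.1 (by positivity) (by positivity)
    h1 h2 Y1 (X \ Y2) hY1 Finset.sdiff_subset
  have hcard : ((#(X \ Y2) : ℕ) : ℝ) = (#X : ℝ) - #Y2 := by
    rw [Finset.card_sdiff_of_subset hY2, Nat.cast_sub (Finset.card_le_card hY2)]
  rw [hcard] at u2
  have hsplit := regA_split w X Y1 Y2 hY2
  have hlow : (#Y1 : ℝ) * ((Dn w X X - lam) * #X - 1 / 2) ≤ E w Y1 X := by
    unfold E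
    rw [← nsmul_eq_mul]
    exact Finset.card_nsmul_le_sum Y1 _ _ fun v hv => hdeg v (hY1 hv)
  have r1 := regA_up ε #X #Y1 #Y2 (Dn w X X) hε hε2 hN hc1 hc2
  have r2 := regA_low ε #X #Y1 #Y2 (Dn w X X) lam hε hN hX hc1 hc2 hlam2
  have k1 : Dn w Y1 Y2 ≤ Dn w X X + ε := by
    rw [show Dn w Y1 Y2 = E w Y1 Y2 / ((#Y1 : ℝ) * #Y2) from rfl, div_le_iff₀ hy12]
    exact u1.trans r1
  have k2 : Dn w X X - ε ≤ Dn w Y1 Y2 := by
    rw [show Dn w Y1 Y2 = E w Y1 Y2 / ((#Y1 : ℝ) * #Y2) from rfl, le_div_iff₀ hy12]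
    linarith
  rw [abs_le]
  constructor <;> linarith

theorem argmax {V : Type} [DecidableEq V] (w : V → V → ℝ) (q : Finset V) (hq : q.Nonempty)
    (lam : ℝ) :
    ∃ X ⊆ q, X.Nonempty ∧ ∀ Y ⊆ q, Y.Nonempty →
      Dn w Y Y - lam * Real.logb 2 ((#q : ℝ) / #Y) ≤ Dn w X X - lam * Real.logb 2 ((#q : ℝ) / #X) := by
  obtain ⟨X, hX, hmax⟩ := Finset.exists_max_image (q.powerset.erase ∅)
    (fun Y => Dn w Y Y - lam * Real.logb 2 ((#q : ℝ) / #Y))
    ⟨q, Finset.mem_erase.2 ⟨hq.ne_empty, Finset.mem_powerset_self q⟩⟩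
  obtain ⟨h1, h2⟩ := Finset.mem_erase.1 hX
  refine ⟨X, Finset.mem_powerset.1 h2, Finset.nonempty_iff_ne_empty.2 h1, fun Y hY hYn => ?_⟩
  exact hmax Y (Finset.mem_erase.2 ⟨hYn.ne_empty, Finset.mem_powerset.2 hY⟩)

/-- Every large set contains a subset of density at least `a` with relative size at least `2^(-l)`. -/
def Claim {V : Type} (w : V → V → ℝ) (m l a : ℝ) : Prop :=
  ∀ q : Finset V, m * (2 : ℝ) ^ l ≤ #q →
    ∃ A ⊆ q, A.Nonempty ∧ (2 : ℝ) ^ (-l) * #q ≤ #A ∧ a ≤ Dn w A A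

/-- The extremal set: nearly as dense as the level, not too small, and either regular or with a dense
disjoint pair. -/
theorem extremal {V : Type} [DecidableEq V] (w : V → V → ℝ) (hw : Wt w) (ε : ℝ) (hε : 0 < ε)
    (hε2 : ε < 1 / 2) (m l a : ℝ) (hm : 1 ≤ m) (hl : 1 ≤ l) (hl2 : Real.logb 2 (8 / ε ^ 3) ≤ l)
    (ha : 0 ≤ a) (hc : Claim w m l a) (q : Finset V) (hq1 : m * (2 : ℝ) ^ l ≤ #q)
    (hq2 : 3 / ε ^ 2 ≤ (2 : ℝ) ^ (-(2 * l / (ε ^ 2 / 48))) * #q) :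
    ∃ X ⊆ q, X.Nonempty ∧ (2 : ℝ) ^ (-(2 * l / (ε ^ 2 / 48))) * #q ≤ #X ∧
      a - ε ^ 2 / 48 ≤ Dn w X X ∧
      (Reg w ε X ∨ ∃ P ⊆ X, ∃ P' ⊆ X, Disjoint P P' ∧ ε ^ 3 / 8 * #X ≤ #P ∧
        ε ^ 3 / 8 * #X ≤ #P' ∧ Dn w X X + ε ^ 2 / 6 < Dn w P P') := by
  obtain ⟨δ, hδ⟩ : ∃ δ : ℝ, δ = ε ^ 2 / 48 := ⟨_, rfl⟩
  have hδ0 : 0 < δ := by rw [hδ]; positivity
  have hδ1 : δ ≤ 1 := by rw [hδ]; nlinarith
  obtain ⟨lam, hlam⟩ : ∃ lam : ℝ, lam = δ / l := ⟨_, rfl⟩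
  have hl0 : 0 < l := by linarith
  have hlam0 : 0 < lam := by rw [hlam]; positivity
  have hlaml : lam * l = δ := by rw [hlam]; field_simp
  have hQ0 : (0:ℝ) < #q := by
    have : 0 < m * (2 : ℝ) ^ l := by positivity
    linarith
  have hqne : q.Nonempty := by
    rw [← Finset.card_pos]
    exact_mod_cast hQ0
  obtain ⟨X, hXq, hXne, hmax⟩ := argmax w q hqne lam
  obtain ⟨A, hAq, hAne, hA1, hA2⟩ := hc q hq1
  have hN0 : (0:ℝ) < #X := by exact_mod_cast Finset.card_pos.mpr hXne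
  have hA0 : (0:ℝ) < #A := by exact_mod_cast Finset.card_pos.mpr hAne
  have hlogA : Real.logb 2 ((#q : ℝ) / #A) ≤ l := by
    rw [Real.logb_le_iff_le_rpow (by norm_num) (by positivity)]
    rw [div_le_iff₀ hA0]
    rw [Real.rpow_neg (by norm_num)] at hA1
    have h2l : (0:ℝ) < (2:ℝ) ^ l := by positivity
    have := mul_le_mul_of_nonneg_left hA1 h2l.le
    rw [← mul_assoc, mul_inv_cancel₀ h2l.ne', one_mul] at this
    exact this
  have hNQ : (#X : ℝ) ≤ #q := by exact_mod_cast Finset.card_le_card hXq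
  have hlogX : 0 ≤ Real.logb 2 ((#q : ℝ) / #X) := by
    apply Real.logb_nonneg (by norm_num)
    rw [le_div_iff₀ hN0]
    linarith
  have hstar : a - δ + lam * Real.logb 2 ((#q : ℝ) / #X) ≤ Dn w X X := by
    have h1 := hmax A hAq hAne
    have h2 := mul_le_mul_of_nonneg_left hlogA hlam0.le
    rw [hlaml] at h2
    linarith
  have hDX := Dn_bounds w hw X X
  have hdens : a - δ ≤ Dn w X X := by
    have := mul_nonneg hlam0.le hlogX
    linarith
  have hbig : (2 : ℝ) ^ (-(2 * l / δ)) * #q ≤ #X := by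
    have h1 : lam * Real.logb 2 ((#q : ℝ) / #X) ≤ 2 := by linarith [hDX.2]
    have h2 : Real.logb 2 ((#q : ℝ) / #X) ≤ 2 * l / δ := by
      have h3 : δ * Real.logb 2 ((#q : ℝ) / #X) ≤ 2 * l := by
        rw [← hlaml]
        nlinarith
      rw [le_div_iff₀ hδ0]
      linarith
    rw [Real.logb_le_iff_le_rpow (by norm_num) (by positivity), div_le_iff₀ hN0] at h2
    have h4 : (0:ℝ) < (2:ℝ) ^ (2 * l / δ) := by positivity
    rw [Real.rpow_neg (by norm_num)]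
    rw [inv_mul_le_iff₀ h4]
    exact h2
  rw [← hδ] at hq2 ⊢
  have hN3 : 3 / ε ^ 2 ≤ #X := le_trans hq2 hbig
  have hN12 : (12:ℝ) ≤ #X := by
    refine le_trans ?_ hN3
    rw [le_div_iff₀ (by positivity)]
    nlinarith
  have hN2 : 2 ≤ #X := by
    have : (2:ℝ) ≤ #X := by linarith
    exact_mod_cast this
  have hcmp : ∀ Y ⊆ q, Y.Nonempty → Dn w Y Y ≤ Dn w X X + lam * Real.logb 2 ((#X : ℝ) / #Y) := by
    intro Y hY hYne
    have hY0 : (0:ℝ) < #Y := by exact_mod_cast Finset.card_pos.mpr hYne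
    have h1 := hmax Y hY hYne
    have h2 : Real.logb 2 ((#X : ℝ) / #Y) = Real.logb 2 ((#q : ℝ) / #Y) - Real.logb 2 ((#q : ℝ) / #X) := by
      rw [Real.logb_div hN0.ne' hY0.ne', Real.logb_div hQ0.ne' hY0.ne', Real.logb_div hQ0.ne' hN0.ne']
      ring
    rw [h2]
    linarith
  refine ⟨X, hXq, hXne, hbig, hdens, ?_⟩
  by_cases hP : ∀ P ⊆ X, ∀ P' ⊆ X, Disjoint P P' → ε ^ 3 / 8 * #X ≤ #P → ε ^ 3 / 8 * #X ≤ #P' →
      Dn w P P' ≤ Dn w X X + ε ^ 2 / 6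
  · left
    apply regular_of w hw ε hε hε2 X hN3 lam hlam0.le ?_ ?_ ?_ hP
    · rw [hlam]
      have : δ / l ≤ δ := div_le_self hδ0.le hl
      have h2 : δ ≤ ε ^ 2 / 6 := by rw [hδ]; nlinarith [sq_nonneg ε]
      linarith
    · intro v hv
      apply min_degree w hw X hN2 lam hlam0.le v hv
      have hne : (X.erase v).Nonempty := by
        rw [← Finset.card_pos, Finset.card_erase_of_mem hv]
        omega
      have h1 := hcmp (X.erase v) ((Finset.erase_subset _ _).trans hXq) hne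
      have h2 : ((#(X.erase v) : ℕ) : ℝ) = (#X : ℝ) - 1 := by
        rw [Finset.card_erase_of_mem hv]
        push_cast [Nat.cast_sub (by omega : 1 ≤ #X)]
        ring
      rw [h2] at h1
      exact h1
    · intro Y hY hYc
      have hY0 : (0:ℝ) < #Y := lt_of_lt_of_le (by positivity) hYc
      have hYne : Y.Nonempty := by
        rw [← Finset.card_pos]
        exact_mod_cast hY0
      have h1 := hcmp Y (hY.trans hXq) hYne
      have h2 : Real.logb 2 ((#X : ℝ) / #Y) ≤ l := by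
        refine le_trans ?_ hl2
        apply Real.logb_le_logb_of_le (by norm_num) (by positivity)
        rw [div_le_div_iff₀ hY0 (by positivity)]
        linarith
      have h3 := mul_le_mul_of_nonneg_left h2 hlam0.le
      rw [hlaml] at h3
      have h4 : δ ≤ ε ^ 2 / 6 := by rw [hδ]; nlinarith [sq_nonneg ε]
      linarith
  · right
    push Not at hP
    obtain ⟨P, h1, P', h2, h3, h4, h5, h6⟩ := hP
    exact ⟨P, h1, P', h2, h3, h4, h5, h6⟩

theorem step {V : Type} [DecidableEq V] (w : V → V → ℝ) (hw : Wt w) (ε : ℝ) (hε : 0 < ε)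
    (hε2 : ε < 1 / 2) (m l l' a : ℝ) (hm : 1 ≤ m) (hl : 1 ≤ l) (hl2 : Real.logb 2 (8 / ε ^ 3) ≤ l)
    (hll : Real.logb 2 (18432 / ε ^ 7) ≤ l' - 2 * l / (ε ^ 2 / 48) - l) (ha : 0 ≤ a)
    (hreg : ∀ U : Finset V, U.Nonempty → m ≤ #U → ¬ Reg w ε U)
    (hc : Claim w m l a) : Claim w m l' (a + ε ^ 2 / 48) := by
  intro q hq
  obtain ⟨δ, hδ⟩ : ∃ δ : ℝ, δ = ε ^ 2 / 48 := ⟨_, rfl⟩
  obtain ⟨W, hW⟩ : ∃ W : ℝ, W = (2 : ℝ) ^ (l' - 2 * l / (ε ^ 2 / 48) - l) := ⟨_, rfl⟩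
  obtain ⟨T, hT⟩ : ∃ T : ℝ, T = (2 : ℝ) ^ (2 * l / (ε ^ 2 / 48)) := ⟨_, rfl⟩
  obtain ⟨tl, htl⟩ : ∃ tl : ℝ, tl = (2 : ℝ) ^ l := ⟨_, rfl⟩
  have hWpos : 0 < W := by rw [hW]; positivity
  have hTpos : 0 < T := by rw [hT]; positivity
  have htlpos : 0 < tl := by rw [htl]; positivity
  have h2l' : (2 : ℝ) ^ l' = W * T * tl := by
    rw [hW, hT, htl, ← Real.rpow_add (by norm_num), ← Real.rpow_add (by norm_num)]
    congr 1; ring
  have h2nl' : (2 : ℝ) ^ (-l') = (W * T * tl)⁻¹ := by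
    rw [Real.rpow_neg (by norm_num), h2l']
  have h2nl : (2 : ℝ) ^ (-l) = tl⁻¹ := by
    rw [Real.rpow_neg (by norm_num), ← htl]
  have hr1 : (2 : ℝ) ^ (-(2 * l / (ε ^ 2 / 48))) = T⁻¹ := by
    rw [Real.rpow_neg (by norm_num), ← hT]
  have hlpos : 0 < l := by linarith
  have hT1 : 1 ≤ T := by
    rw [hT]; exact Real.one_le_rpow (by norm_num) (by positivity)
  have htl1 : 1 ≤ tl := by
    rw [htl]; exact Real.one_le_rpow (by norm_num) hlpos.le
  have hWge : 18432 / ε ^ 7 ≤ W := by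
    rw [hW]
    exact (Real.logb_le_iff_le_rpow (by norm_num) (by positivity)).mp hll
  have hWe : 18432 ≤ W * ε ^ 7 := (div_le_iff₀ (by positivity)).mp hWge
  have he1 : ε < 1 := by linarith
  have hp2 : ε ^ 2 ≤ 1 := pow_le_one₀ hε.le he1.le
  have hp5 : ε ^ 7 = ε ^ 5 * ε ^ 2 := by ring
  have hp5' : ε ^ 7 ≤ ε ^ 5 := by
    rw [hp5]; exact mul_le_of_le_one_right (by positivity) hp2
  have hp7 : ε ^ 7 ≤ ε ^ 2 := by
    have : ε ^ 7 = ε ^ 2 * ε ^ 5 := by ring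
    rw [this]
    exact mul_le_of_le_one_right (by positivity) (pow_le_one₀ hε.le he1.le)
  have hp7' : ε ^ 7 ≤ 1 := pow_le_one₀ hε.le he1.le
  have hW5 : 384 ≤ W * ε ^ 5 := by
    have := mul_le_mul_of_nonneg_left hp5' hWpos.le
    linarith
  have hW2 : 3 ≤ W * ε ^ 2 := by
    have := mul_le_mul_of_nonneg_left hp7 hWpos.le
    linarith
  have hW1 : 1 ≤ W := by
    have := mul_le_mul_of_nonneg_left hp7' hWpos.le
    linarith
  rw [h2l'] at hq
  have hmpos : 0 < m := by linarith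
  have hTq : m * W * tl ≤ T⁻¹ * #q := by
    rw [← div_eq_inv_mul, le_div_iff₀ hTpos]
    calc m * W * tl * T = m * (W * T * tl) := by ring
      _ ≤ _ := hq
  have hq1 : m * (2 : ℝ) ^ l ≤ #q := by
    rw [← htl]
    refine le_trans ?_ hq
    have : m * tl ≤ m * tl * (W * T) := le_mul_of_one_le_right (by positivity) (one_le_mul_of_one_le_of_one_le hW1 hT1)
    linarith
  have hmW : W ≤ m * W * tl := by
    have h1 : W ≤ W * (m * tl) := le_mul_of_one_le_right hWpos.le (one_le_mul_of_one_le_of_one_le hm htl1)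
    linarith
  have hq2 : 3 / ε ^ 2 ≤ (2 : ℝ) ^ (-(2 * l / (ε ^ 2 / 48))) * #q := by
    rw [hr1]
    have h1 : 3 / ε ^ 2 ≤ W := by rw [div_le_iff₀ (by positivity)]; exact hW2
    linarith
  obtain ⟨X, hXq, hXne, hXc, hXd, hX⟩ := extremal w hw ε hε hε2 m l a hm hl hl2 ha hc q hq1 hq2
  rw [hr1] at hXc
  have hXbig : m * W * tl ≤ #X := hTq.trans hXc
  have hmX : m ≤ #X := by
    have h1 : m ≤ m * (W * tl) := le_mul_of_one_le_right hmpos.le (one_le_mul_of_one_le_of_one_le hW1 htl1)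
    linarith
  rcases hX with hR | ⟨P, hPX, P', hPX', hd, hPc, hPc', hdens⟩
  · exact absurd hR (hreg X hXne hmX)
  have hXpos : (0 : ℝ) < #X := by linarith
  have hδpos : 0 < δ := by rw [hδ]; positivity
  have hδ1 : δ < 1 := by
    rw [hδ]
    linarith
  obtain ⟨s0, hs0⟩ : ∃ s0 : ℝ, s0 = tl⁻¹ * (δ * (ε ^ 3 / 8) * #X) := ⟨_, rfl⟩
  have hkey : tl * (m * δ⁻¹) ≤ δ * (ε ^ 3 / 8) * #X := by
    have h1 : δ * (ε ^ 3 / 8) * (m * W * tl) ≤ δ * (ε ^ 3 / 8) * #X :=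
      mul_le_mul_of_nonneg_left hXbig (by positivity)
    refine le_trans ?_ h1
    have h2 : δ⁻¹ ≤ δ * (ε ^ 3 / 8) * W := by
      rw [inv_le_iff_one_le_mul₀ hδpos, hδ]
      have : ε ^ 2 / 48 * (ε ^ 3 / 8) * W * (ε ^ 2 / 48) = (W * ε ^ 7) / 18432 := by ring
      rw [this]; linarith
    calc tl * (m * δ⁻¹) ≤ tl * (m * (δ * (ε ^ 3 / 8) * W)) := by gcongr
      _ = δ * (ε ^ 3 / 8) * (m * W * tl) := by ring
  have hs0ge : δ⁻¹ ≤ s0 := by
    rw [hs0, ← div_eq_inv_mul, le_div_iff₀ htlpos]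
    refine le_trans ?_ hkey
    have : δ⁻¹ ≤ m * δ⁻¹ := le_mul_of_one_le_left (by positivity) hm
    have := mul_le_mul_of_nonneg_left this htlpos.le
    linarith
  have hs0pos : 0 < s0 := lt_of_lt_of_le (by positivity) hs0ge
  obtain ⟨s, hs⟩ : ∃ s : ℕ, s = ⌈s0⌉₊ := ⟨_, rfl⟩
  have hss0 : s0 ≤ s := by rw [hs]; exact Nat.le_ceil _
  have hs1 : 1 ≤ s := by rw [hs]; exact Nat.ceil_pos.mpr hs0pos
  have hspos : (0 : ℝ) < s := by exact_mod_cast hs1
  have h1s : 1 / (s : ℝ) ≤ δ := by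
    rw [div_le_iff₀ hspos]
    have h1 : δ⁻¹ ≤ s := hs0ge.trans hss0
    have h2 : δ * δ⁻¹ ≤ δ * s := mul_le_mul_of_nonneg_left h1 hδpos.le
    rwa [mul_inv_cancel₀ hδpos.ne'] at h2
  have hsub : ∀ Q : Finset V, ε ^ 3 / 8 * #X ≤ #Q → ∀ R ⊆ Q, δ * #Q ≤ #R →
      ∃ A ⊆ R, s ≤ #A ∧ a ≤ Dn w A A := by
    intro Q hQ R hRQ hR
    have hRX : δ * (ε ^ 3 / 8) * #X ≤ #R := by
      refine le_trans ?_ hR
      have := mul_le_mul_of_nonneg_left hQ hδpos.le
      linarith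
    have hR1 : m * (2 : ℝ) ^ l ≤ #R := by
      rw [← htl]
      refine le_trans ?_ (hkey.trans hRX)
      have h1 : 1 ≤ δ⁻¹ := (one_le_inv₀ hδpos).mpr hδ1.le
      have h2 : m ≤ m * δ⁻¹ := le_mul_of_one_le_right hmpos.le h1
      have := mul_le_mul_of_nonneg_left h2 htlpos.le
      linarith
    obtain ⟨A, hAR, _, hAc, hAd⟩ := hc R hR1
    refine ⟨A, hAR, ?_, hAd⟩
    rw [hs, Nat.ceil_le, hs0]
    rw [h2nl] at hAc
    exact le_trans (mul_le_mul_of_nonneg_left hRX (by positivity)) hAc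
  have hPne : P.Nonempty := by
    rw [← Finset.card_pos]
    have : (0 : ℝ) < #P := lt_of_lt_of_le (by positivity) hPc
    exact_mod_cast this
  have hPne' : P'.Nonempty := by
    rw [← Finset.card_pos]
    have : (0 : ℝ) < #P' := lt_of_lt_of_le (by positivity) hPc'
    exact_mod_cast this
  obtain ⟨C, hCP, hCc, hCd⟩ := cross_glue w hw P P' hPne hPne' hd s hs1 δ a hδpos hδ1
    (hsub P hPc) (hsub P' hPc')
  have hCR : (#C : ℝ) = 2 * s := by rw [hCc]; push_cast; ring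
  refine ⟨C, (hCP.trans (Finset.union_subset hPX hPX')).trans hXq, ?_, ?_, ?_⟩
  · rw [← Finset.card_pos, hCc]; omega
  · rw [h2nl', hCR]
    have h1 : (W * T * tl)⁻¹ * #q = W⁻¹ * (tl⁻¹ * (T⁻¹ * #q)) := by
      rw [mul_inv, mul_inv]; ring
    rw [h1]
    have h2 : W⁻¹ * (tl⁻¹ * (T⁻¹ * #q)) ≤ W⁻¹ * (tl⁻¹ * #X) := by gcongr
    have h3 : W⁻¹ ≤ δ * (ε ^ 3 / 8) := by
      rw [inv_le_iff_one_le_mul₀ hWpos, hδ]
      have : ε ^ 2 / 48 * (ε ^ 3 / 8) * W = (W * ε ^ 5) / 384 := by ring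
      rw [this]; linarith
    have h4 : W⁻¹ * (tl⁻¹ * #X) ≤ s0 := by
      rw [hs0]
      calc W⁻¹ * (tl⁻¹ * #X) ≤ (δ * (ε ^ 3 / 8)) * (tl⁻¹ * #X) := by gcongr
        _ = _ := by ring
    linarith
  · have h5 : a + ε ^ 2 / 48 ≤ (2 * (a - 1 / s) + 2 * (Dn w P P' - 2 * δ)) / 4 := by
      rw [← hδ] at hXd ⊢
      have h6 : ε ^ 2 / 6 = 8 * δ := by rw [hδ]; ring
      rw [h6] at hdens
      linarith
    exact h5.trans hCd

theorem num1 (ε : ℝ) (hε : 0 < ε) (hε2 : ε < 1 / 2) (l : ℝ) (hl : 200 / ε ^ 2 ≤ l) :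
    1 ≤ l ∧ Real.logb 2 (8 / ε ^ 3) ≤ l ∧
      Real.logb 2 (18432 / ε ^ 7) ≤ 200 / ε ^ 2 * l - 2 * l / (ε ^ 2 / 48) - l := by
  obtain ⟨t, ht⟩ : ∃ t : ℝ, t = ε⁻¹ := ⟨_, rfl⟩
  have hεt : ε = t⁻¹ := by rw [ht, inv_inv]
  have ht0 : 0 < t := by rw [ht]; positivity
  have ht2 : 2 < t := by
    rw [ht, lt_inv_comm₀ (by norm_num) hε]
    linarith
  have hlog : Real.logb 2 t ≤ 2 * t := by
    unfold Real.logb
    rw [div_le_iff₀ (Real.log_pos (by norm_num))]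
    have h1 := Real.log_le_sub_one_of_pos ht0
    have h2 := Real.log_two_gt_d9
    nlinarith
  have e1 : 200 / ε ^ 2 = 200 * t ^ 2 := by rw [hεt, inv_pow, div_inv_eq_mul]
  have e2 : 8 / ε ^ 3 = 2 ^ 3 * t ^ 3 := by rw [hεt, inv_pow, div_inv_eq_mul]; norm_num
  have e3 : 18432 / ε ^ 7 = 18432 * t ^ 7 := by rw [hεt, inv_pow, div_inv_eq_mul]
  have e4 : 2 * l / (ε ^ 2 / 48) = 96 * t ^ 2 * l := by
    rw [hεt, inv_pow]; field_simp; ring
  have l1 : Real.logb 2 (2 ^ 3 * t ^ 3) = 3 + 3 * Real.logb 2 t := by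
    rw [Real.logb_mul (by norm_num) (by positivity), Real.logb_pow, Real.logb_pow,
      Real.logb_self_eq_one (by norm_num)]
    norm_num
  have l2 : Real.logb 2 (18432 * t ^ 7) ≤ 15 + 7 * Real.logb 2 t := by
    rw [Real.logb_mul (by norm_num) (by positivity), Real.logb_pow]
    have : Real.logb 2 18432 ≤ 15 := by
      rw [Real.logb_le_iff_le_rpow (by norm_num) (by norm_num)]
      norm_num
    push_cast
    linarith
  rw [e1] at hl
  rw [e1, e2, e3, e4, l1]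
  have ht4 : 4 < t ^ 2 := by nlinarith
  have htt : 2 * t < t ^ 2 := by nlinarith
  refine ⟨by linarith, by linarith, ?_⟩
  have h5 : 200 * t ^ 2 * (104 * t ^ 2 - 1) ≤ l * (104 * t ^ 2 - 1) :=
    mul_le_mul_of_nonneg_right hl (by linarith)
  have h6 : 200 * t ^ 2 * 1 ≤ 200 * t ^ 2 * (104 * t ^ 2 - 1) :=
    mul_le_mul_of_nonneg_left (by linarith) (by positivity)
  have h7 : 200 * t ^ 2 * l - 96 * t ^ 2 * l - l = l * (104 * t ^ 2 - 1) := by ring
  rw [h7]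
  linarith

theorem num2 (ε : ℝ) (hε : 0 < ε) (hε2 : ε < 1 / 2) (T : ℕ) (hT : (T : ℝ) ≤ 48 / ε ^ 2 + 1) :
    (200 / ε ^ 2) ^ (T + 1) ≤ (1 / ε) ^ (490 / ε ^ 2) := by
  obtain ⟨x, hx⟩ : ∃ x : ℝ, x = 1 / ε := ⟨_, rfl⟩
  have hx2 : 2 < x := by
    rw [hx, lt_div_iff₀ hε]
    linarith
  have hx0 : 0 < x := by linarith
  have e1 : 200 / ε ^ 2 = 200 * x ^ 2 := by
    rw [hx, one_div_pow]
    ring
  have e2 : 490 / ε ^ 2 = 490 * x ^ 2 := by
    rw [hx, one_div_pow]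
    ring
  have e3 : 48 / ε ^ 2 = 48 * x ^ 2 := by
    rw [hx, one_div_pow]
    ring
  rw [e3] at hT
  rw [e1, e2, ← hx]
  have h4 : (4 : ℝ) ≤ x ^ 2 := by nlinarith
  have h8 : (200 : ℝ) ≤ x ^ 8 := by
    have : (4 : ℝ) ^ 4 ≤ (x ^ 2) ^ 4 := pow_le_pow_left₀ (by norm_num) h4 4
    rw [← pow_mul] at this
    norm_num at this
    linarith
  have h10 : 200 * x ^ 2 ≤ x ^ 10 := by
    have : x ^ 10 = x ^ 8 * x ^ 2 := by ring
    rw [this]
    exact mul_le_mul_of_nonneg_right h8 (by positivity)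
  calc (200 * x ^ 2) ^ (T + 1) ≤ (x ^ 10) ^ (T + 1) :=
        pow_le_pow_left₀ (by positivity) h10 _
    _ = x ^ (((10 * (T + 1) : ℕ)) : ℝ) := by
        rw [← pow_mul, Real.rpow_natCast]
    _ ≤ x ^ (490 * x ^ 2) := by
        apply Real.rpow_le_rpow_of_exponent_le (by linarith)
        push_cast
        nlinarith

theorem claim_all {V : Type} [DecidableEq V] (w : V → V → ℝ) (hw : Wt w) (ε : ℝ) (hε : 0 < ε)
    (hε2 : ε < 1 / 2) (m : ℝ) (hm : 1 ≤ m)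
    (hreg : ∀ U : Finset V, U.Nonempty → m ≤ #U → ¬ Reg w ε U) (t : ℕ) :
    Claim w m ((200 / ε ^ 2) ^ (t + 1)) (t * (ε ^ 2 / 48)) := by
  have hε2pos : 0 < ε ^ 2 := by positivity
  have hbase : 1 ≤ 200 / ε ^ 2 := by
    rw [le_div_iff₀ hε2pos]
    nlinarith
  induction t with
  | zero =>
    intro q hq
    have hl0 : (0 : ℝ) ≤ (200 / ε ^ 2) ^ (0 + 1) := by positivity
    refine ⟨q, Finset.Subset.refl _, ?_, ?_, ?_⟩
    · rw [← Finset.card_pos]
      have h1 : (0 : ℝ) < m * (2 : ℝ) ^ ((200 / ε ^ 2) ^ (0 + 1) : ℝ) := by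
        have : (0 : ℝ) < (2 : ℝ) ^ ((200 / ε ^ 2) ^ (0 + 1) : ℝ) := Real.rpow_pos_of_pos (by norm_num) _
        have hm0 : 0 < m := by linarith
        positivity
      have h2 : (0 : ℝ) < #q := lt_of_lt_of_le h1 hq
      exact_mod_cast h2
    · have h1 : (2 : ℝ) ^ (-((200 / ε ^ 2) ^ (0 + 1)) : ℝ) ≤ 1 :=
        Real.rpow_le_one_of_one_le_of_nonpos (by norm_num) (by linarith)
      have h2 : (0 : ℝ) ≤ #q := by positivity
      calc (2 : ℝ) ^ (-((200 / ε ^ 2) ^ (0 + 1)) : ℝ) * #q ≤ 1 * #q :=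
            mul_le_mul_of_nonneg_right h1 h2
        _ = #q := one_mul _
    · have := (Dn_bounds w hw q q).1
      simpa using this
  | succ t ih =>
    have hlge : 200 / ε ^ 2 ≤ (200 / ε ^ 2) ^ (t + 1) := by
      calc 200 / ε ^ 2 = (200 / ε ^ 2) ^ 1 := (pow_one _).symm
        _ ≤ (200 / ε ^ 2) ^ (t + 1) := pow_le_pow_right₀ hbase (by omega)
    obtain ⟨h1, h2, h3⟩ := num1 ε hε hε2 _ hlge
    have h4 : (200 / ε ^ 2) ^ (t + 1 + 1) = 200 / ε ^ 2 * (200 / ε ^ 2) ^ (t + 1) := pow_succ' _ _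
    have h5 : ((t + 1 : ℕ) : ℝ) * (ε ^ 2 / 48) = t * (ε ^ 2 / 48) + ε ^ 2 / 48 := by
      push_cast; ring
    rw [h5, h4]
    exact step w hw ε hε hε2 m _ _ _ hm h1 h2 h3 (by positivity) hreg ih

theorem main_w {V : Type} [Fintype V] [Nonempty V] [DecidableEq V] (w : V → V → ℝ) (hw : Wt w)
    (ε : ℝ) (hε : 0 < ε) (hε2 : ε < 1 / 2) :
    ∃ U : Finset V, U.Nonempty ∧ Reg w ε U ∧
      (2 : ℝ) ^ (-((1 / ε) ^ (490 / ε ^ 2))) * Fintype.card V ≤ #U := by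
  have he2 : 0 < ε ^ 2 := by positivity
  obtain ⟨T, hTd⟩ : ∃ T : ℕ, T = ⌊48 / ε ^ 2⌋₊ + 1 := ⟨_, rfl⟩
  have hT1 : (T : ℝ) ≤ 48 / ε ^ 2 + 1 := by
    rw [hTd]
    push_cast
    have := Nat.floor_le (show 0 ≤ 48 / ε ^ 2 by positivity)
    linarith
  have hT2 : 48 / ε ^ 2 < T := by
    rw [hTd]
    push_cast
    exact Nat.lt_floor_add_one _
  obtain ⟨L, hL⟩ : ∃ L : ℝ, L = (200 / ε ^ 2) ^ (T + 1) := ⟨_, rfl⟩
  have hL1 : L ≤ (1 / ε) ^ (490 / ε ^ 2) := by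
    rw [hL]
    exact num2 ε hε hε2 T hT1
  obtain ⟨n, hn⟩ : ∃ n : ℝ, n = (Fintype.card V : ℝ) := ⟨_, rfl⟩
  have hn0 : 0 ≤ n := by rw [hn]; positivity
  rw [← hn]
  have hle : (2 : ℝ) ^ (-((1 / ε) ^ (490 / ε ^ 2))) * n ≤ (2 : ℝ) ^ (-L) * n := by
    refine mul_le_mul_of_nonneg_right ?_ hn0
    exact Real.rpow_le_rpow_of_exponent_le (by norm_num) (by linarith)
  have h2L : (0 : ℝ) < (2 : ℝ) ^ L := by positivity
  have hinv : (2 : ℝ) ^ (-L) * (2 : ℝ) ^ L = 1 := by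
    rw [← Real.rpow_add (by norm_num)]
    simp
  have h2nL : (0 : ℝ) < (2 : ℝ) ^ (-L) := by positivity
  rcases le_or_gt ((2 : ℝ) ^ L) n with h | h
  · have hm : 1 ≤ (2 : ℝ) ^ (-L) * n := by
      rw [← hinv]
      exact mul_le_mul_of_nonneg_left h h2nL.le
    by_cases hU : ∃ U : Finset V, U.Nonempty ∧ (2 : ℝ) ^ (-L) * n ≤ #U ∧ Reg w ε U
    · obtain ⟨U, hU1, hU2, hU3⟩ := hU
      exact ⟨U, hU1, hU3, hle.trans hU2⟩
    · exfalso
      have hreg : ∀ U : Finset V, U.Nonempty → (2 : ℝ) ^ (-L) * n ≤ #U → ¬ Reg w ε U :=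
        fun U h1 h2 h3 => hU ⟨U, h1, h2, h3⟩
      have hc := claim_all w hw ε hε hε2 _ hm hreg T
      rw [← hL] at hc
      obtain ⟨A, _, _, _, hA⟩ := hc Finset.univ (by
        rw [Finset.card_univ, ← hn, mul_right_comm, hinv, one_mul])
      have h1 := (Dn_bounds w hw A A).2
      have h2 : 1 < (T : ℝ) * (ε ^ 2 / 48) := by
        rw [div_lt_iff₀ he2] at hT2
        linarith
      linarith
  · obtain ⟨v⟩ := ‹Nonempty V›
    refine ⟨{v}, Finset.singleton_nonempty v, ?_, ?_⟩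
    · intro X Y hX hY hX1 hY1
      have hs : ∀ Z : Finset V, Z ⊆ {v} → ε * #({v} : Finset V) ≤ #Z → Z = {v} := by
        intro Z hZ hZ1
        rcases Finset.subset_singleton_iff.1 hZ with h1 | h1
        · exfalso
          rw [h1, Finset.card_singleton, Finset.card_empty] at hZ1
          push_cast at hZ1
          linarith
        · exact h1
      rw [hs X hX hX1, hs Y hY hY1, sub_self, abs_zero]
      exact hε.le
    · refine hle.trans ?_
      rw [Finset.card_singleton]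
      have := mul_lt_mul_of_pos_left h h2nL
      rw [hinv] at this
      push_cast
      exact this.le

end EpsReg
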