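import Mathlib

/-!
Coalescence of words in the three maps `2x`, `3x+2`, `6x+3`.
-/

set_option autoImplicit false

namespace Pool.Agent.Helper379.Klarner

/-- The three operations. -/
inductive Op
  | f
  | g
  | h
  deriving DecidableEq

/-- multiplier -/
def Op.mul : Op → ℕ
  | .f => 2
  | .g => 3
  | .h => 6

/-- constant -/
def Op.cst : Op → ℕ
  | .f => 0
  | .g => 2
  | .h => 3

/-- application of an operation -/
def Op.app (o : Op) (x : ℕ) : ℕ := o.mul * x + o.cst

/-- evaluation of a word (first letter outermost) -/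
def ev : List Op → ℕ → ℕ
  | [], x => x
  | o :: w, x => o.app (ev w x)

/-- multiplier of a word -/
def mulW : List Op → ℕ
  | [] => 1
  | o :: w => o.mul * mulW w

theorem ev_append (w u : List Op) (x : ℕ) : ev (w ++ u) x = ev w (ev u x) := by
  induction w with
  | nil => rfl
  | cons o w ih => simp [ev, ih]

theorem mulW_append (w u : List Op) : mulW (w ++ u) = mulW w * mulW u := by
  induction w with
  | nil => simp [mulW]
  | cons o w ih => simp [mulW, ih, mul_assoc]

/-- Two words which make any pair `(x, x')` with `3^q x - 2^p x' = s` meet. -/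
def Coal (p q : ℕ) (s : ℤ) : Prop :=
  ∃ w w' : List Op, mulW w * 2 ^ p = mulW w' * 3 ^ q ∧
    ∀ x x' : ℕ, (3 : ℤ) ^ q * x - 2 ^ p * x' = s → ev w x = ev w' x'

theorem coal_zero : Coal 0 0 0 := by
  refine ⟨[], [], rfl, ?_⟩
  intro x x' h
  simp at h
  simp only [ev]
  omega

theorem coal_vf {p q : ℕ} {s : ℤ} (h : Coal (p + 1) q (2 * s)) : Coal p q s := by
  obtain ⟨w, w', h1, h2⟩ := h
  refine ⟨w ++ [.f], w', ?_, ?_⟩
  · rw [mulW_append, ← h1]
    simp only [mulW, Op.mul]
    ring
  · intro x x' hx
    rw [ev_append]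
    apply h2
    simp only [ev, Op.app, Op.mul, Op.cst]
    push_cast
    rw [← hx]
    ring

theorem coal_vg {p q : ℕ} {s : ℤ} (h : Coal p q (s + 2 * 3 ^ q)) : Coal p (q + 1) s := by
  obtain ⟨w, w', h1, h2⟩ := h
  refine ⟨w ++ [.g], w', ?_, ?_⟩
  · rw [mulW_append, pow_succ, ← mul_assoc, ← h1]
    simp only [mulW, Op.mul]
    ring
  · intro x x' hx
    rw [ev_append]
    apply h2
    simp only [ev, Op.app, Op.mul, Op.cst]
    push_cast
    rw [← hx]
    ring

theorem coal_vh {p q : ℕ} {s : ℤ} (h : Coal (p + 1) q (2 * s + 3 ^ (q + 1))) :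
    Coal p (q + 1) s := by
  obtain ⟨w, w', h1, h2⟩ := h
  refine ⟨w ++ [.h], w', ?_, ?_⟩
  · rw [mulW_append, pow_succ, ← mul_assoc, ← h1]
    simp only [mulW, Op.mul]
    ring
  · intro x x' hx
    rw [ev_append]
    apply h2
    simp only [ev, Op.app, Op.mul, Op.cst]
    push_cast
    rw [← hx]
    ring

theorem coal_vf' {p q : ℕ} {s : ℤ} (h : Coal p q s) : Coal (p + 1) q s := by
  obtain ⟨w, w', h1, h2⟩ := h
  refine ⟨w, w' ++ [.f], ?_, ?_⟩
  · rw [mulW_append, pow_succ, ← mul_assoc, h1]
    simp only [mulW, Op.mul]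
    ring
  · intro x x' hx
    rw [ev_append]
    apply h2
    simp only [ev, Op.app, Op.mul, Op.cst]
    push_cast
    rw [← hx]
    ring

theorem coal_vg' {p q : ℕ} {s : ℤ} (h : Coal p (q + 1) (3 * s - 2 ^ (p + 1))) : Coal p q s := by
  obtain ⟨w, w', h1, h2⟩ := h
  refine ⟨w, w' ++ [.g], ?_, ?_⟩
  · rw [mulW_append, h1]
    simp only [mulW, Op.mul]
    ring
  · intro x x' hx
    rw [ev_append]
    apply h2
    simp only [ev, Op.app, Op.mul, Op.cst]
    push_cast
    rw [← hx]
    ring

theorem coal_vh' {p q : ℕ} {s : ℤ} (h : Coal p (q + 1) (3 * s - 3 * 2 ^ p)) :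
    Coal (p + 1) q s := by
  obtain ⟨w, w', h1, h2⟩ := h
  refine ⟨w, w' ++ [.h], ?_, ?_⟩
  · rw [mulW_append, pow_succ, ← mul_assoc, h1]
    simp only [mulW, Op.mul]
    ring
  · intro x x' hx
    rw [ev_append]
    apply h2
    simp only [ev, Op.app, Op.mul, Op.cst]
    push_cast
    rw [← hx]
    ring

theorem coal_p00 (p : ℕ) : Coal p 0 0 := by
  induction p with
  | zero => exact coal_zero
  | succ p ih => exact coal_vf' ih

/-- First criterion: `s ≤ 0`, `3 ∤ s`. -/
theorem coal_c1 (q : ℕ) : ∀ (p : ℕ) (s : ℤ), -3 ^ q < s → s ≤ 0 → (q = 0 ∨ ¬ (3 : ℤ) ∣ s) →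
    Coal p q s := by
  induction q with
  | zero =>
    intro p s h1 h2 _
    have : s = 0 := by
      simp at h1
      omega
    rw [this]
    exact coal_p00 p
  | succ q ih =>
    have key : ∀ (n : ℕ) (p : ℕ) (s : ℤ), ((3 : ℤ) ^ (q + 1) + s).toNat ≤ n →
        -3 ^ (q + 1) < s → s ≤ 0 → ¬ (3 : ℤ) ∣ s → Coal p (q + 1) s := by
      intro n
      induction n with
      | zero =>
        intro p s hn h1 h2 h3
        exfalso
        omega
      | succ n ihn =>
        intro p s hn h1 h2 h3
        have hpow : (3 : ℤ) ^ (q + 1) = 3 * 3 ^ q := by ring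
        by_cases c1 : -3 ^ (q + 1) < 2 * s
        · apply coal_vf
          apply ihn _ _ _ c1 (by omega) (by omega)
          have : s ≠ 0 := by
            rintro rfl
            exact h3 (dvd_zero _)
          omega
        · by_cases c2 : -(2 * 3 ^ q) < s
          · apply coal_vh
            apply ih
            · omega
            · omega
            · rcases Nat.eq_zero_or_pos q with hq | hq
              · left; exact hq
              · right
                intro hd
                apply h3
                have h3q : (3 : ℤ) ∣ 3 ^ (q + 1) := dvd_pow_self 3 (by omega)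
                omega
          · apply coal_vg
            apply ih
            · omega
            · omega
            · rcases Nat.eq_zero_or_pos q with hq | hq
              · left; exact hq
              · right
                intro hd
                apply h3
                have h3q : (3 : ℤ) ∣ 3 ^ q := dvd_pow_self 3 (by omega)
                omega
    intro p s h1 h2 h3
    rcases h3 with h3 | h3
    · omega
    · exact key _ p s le_rfl h1 h2 h3

theorem coal_0q (q : ℕ) : Coal 0 q (1 - 3 ^ q) := by
  induction q with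
  | zero => simpa using coal_zero
  | succ q ih =>
    apply coal_vg
    have : (1 - 3 ^ (q + 1) + 2 * 3 ^ q : ℤ) = 1 - 3 ^ q := by ring
    rw [this]
    exact ih

/-- Second criterion: `k = 3^q + s` is odd and in `(0, 2^p]`. -/
theorem coal_c2 (p : ℕ) : ∀ (q : ℕ) (s : ℤ), 0 < 3 ^ q + s → 3 ^ q + s ≤ 2 ^ p →
    ¬ (2 : ℤ) ∣ (3 ^ q + s) → Coal p q s := by
  induction p with
  | zero =>
    intro q s h1 h2 _
    have : s = 1 - 3 ^ q := by
      simp at h2
      omega
    rw [this]
    exact coal_0q q
  | succ p ih =>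
    have key : ∀ (n : ℕ) (q : ℕ) (s : ℤ), ((3 : ℤ) ^ q + s).toNat ≤ n →
        0 < 3 ^ q + s → 3 ^ q + s ≤ 2 ^ (p + 1) → ¬ (2 : ℤ) ∣ (3 ^ q + s) →
        Coal (p + 1) q s := by
      intro n
      induction n with
      | zero =>
        intro q s hn h1 h2 h3
        exfalso
        omega
      | succ n ihn =>
        intro q s hn h1 h2 h3
        have hpow : (2 : ℤ) ^ (p + 1) = 2 * 2 ^ p := by ring
        have hpow3 : (3 : ℤ) ^ (q + 1) = 3 * 3 ^ q := by ring
        by_cases c1 : 3 ^ q + s ≤ 2 ^ p
        · apply coal_vf'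
          exact ih q s h1 c1 h3
        · by_cases c2 : 3 * (3 ^ q + s) ≤ 4 * 2 ^ p
          · apply coal_vh'
            apply ih
            · omega
            · omega
            · rcases Nat.eq_zero_or_pos p with hp | hp
              · subst hp
                simp at c1 c2
                omega
              · have h2p : (2 : ℤ) ∣ 2 ^ p := dvd_pow_self 2 (by omega)
                omega
          · apply coal_vg'
            have hpow2 : (2 : ℤ) ^ (p + 1 + 1) = 4 * 2 ^ p := by ring
            apply ihn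
            · omega
            · omega
            · omega
            · omega
    intro q s h1 h2 h3
    exact key _ q s le_rfl h1 h2 h3

/-- Positive `s` with `3^q + s ≥ 2^p`. -/
theorem coal_c3 (n : ℕ) : ∀ (p q : ℕ) (s : ℤ), s.toNat ≤ n → 1 ≤ p → 0 < s → s < 2 ^ p →
    2 ^ p ≤ 3 ^ q + s → Coal p q s := by
  induction n with
  | zero =>
    intro p q s hn _ h1 _ _
    exfalso
    omega
  | succ n ih =>
    intro p q s hn hp h1 h2 h3
    apply coal_vg'
    have hpow : (2 : ℤ) ^ (p + 1) = 2 * 2 ^ p := by ring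
    have hpow3 : (3 : ℤ) ^ (q + 1) = 3 * 3 ^ q := by ring
    by_cases c : 3 * s - 2 ^ (p + 1) ≤ 0
    · apply coal_c1
      · have : (0 : ℤ) < 2 ^ p := by positivity
        omega
      · exact c
      · right
        intro hd
        have h4 : (3 : ℤ) ∣ 2 ^ (p + 1) := by omega
        have h5 : (3 : ℤ) ∣ 2 := Int.prime_three.dvd_of_dvd_pow h4
        omega
    · apply ih
      · omega
      · exact hp
      · omega
      · omega
      · omega

/-- `s ≤ 0`, and a `g` step of the second point leads to the first criterion. -/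
theorem coal_c1' (p q : ℕ) (s : ℤ) (h0 : s ≤ 0)
    (h : 2 * 2 ^ p < 3 * (3 ^ q + s)) : Coal p q s := by
  apply coal_vg'
  have hpow : (2 : ℤ) ^ (p + 1) = 2 * 2 ^ p := by ring
  have hpow3 : (3 : ℤ) ^ (q + 1) = 3 * 3 ^ q := by ring
  have hpos : (0 : ℤ) < 2 ^ p := by positivity
  apply coal_c1
  · omega
  · omega
  · right
    intro hd
    have h4 : (3 : ℤ) ∣ 2 ^ (p + 1) := by omega
    have h5 : (3 : ℤ) ∣ 2 := Int.prime_three.dvd_of_dvd_pow h4
    omega

theorem three_pow_odd (q : ℕ) : ¬ (2 : ℤ) ∣ 3 ^ q := by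
  intro h
  have := Int.prime_two.dvd_of_dvd_pow h
  omega

/-- `s ≤ 0` odd and divisible by three. -/
theorem coal_c4 (q : ℕ) : ∀ (p : ℕ) (s : ℤ), 1 ≤ q → -3 ^ q < s → s ≤ 0 →
    (3 : ℤ) ∣ s → ¬ (2 : ℤ) ∣ s → Coal p q s := by
  induction q with
  | zero =>
    intro p s h
    omega
  | succ q ih =>
    intro p s _ h1 h2 h3 h4
    have hpow : (2 : ℤ) ^ (p + 1) = 2 * 2 ^ p := by ring
    have hpow3 : (3 : ℤ) ^ (q + 1) = 3 * 3 ^ q := by ring
    have hodd := three_pow_odd (q + 1)
    have hoddq := three_pow_odd q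
    have hpos : (0 : ℤ) < 2 ^ p := by positivity
    by_cases c0 : 2 * 2 ^ p < 3 * (3 ^ (q + 1) + s)
    · exact coal_c1' _ _ _ h2 c0
    · by_cases c1 : -3 ^ (q + 1) < 2 * s
      · apply coal_vf
        apply coal_c2
        · omega
        · omega
        · omega
      · rcases Nat.eq_zero_or_pos q with hq | hq
        · subst hq
          simp at h1
          omega
        · have h3q : (3 : ℤ) ∣ 3 ^ q := dvd_pow_self 3 (by omega)
          by_cases c2 : -(2 * 3 ^ q) < s
          · apply coal_vh
            apply ih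
            · omega
            · omega
            · omega
            · omega
            · omega
          · apply coal_vg
            apply ih
            · omega
            · omega
            · omega
            · omega
            · omega

/-- Every state coalesces. -/
theorem coal_all (p q : ℕ) (s : ℤ) (hp : 1 ≤ p) (hq : 1 ≤ q) (h1 : -3 ^ q < s)
    (h2 : s < 2 ^ p) : Coal p q s := by
  have hpow : (2 : ℤ) ^ (p + 1) = 2 * 2 ^ p := by ring
  have hodd := three_pow_odd q
  have hpos : (0 : ℤ) < 2 ^ p := by positivity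
  have hpos3 : (0 : ℤ) < 3 ^ q := by positivity
  by_cases hs : 0 < s
  · by_cases c : 2 ^ p ≤ 3 ^ q + s
    · exact coal_c3 _ p q s le_rfl hp hs h2 c
    · by_cases ev : (2 : ℤ) ∣ s
      · apply coal_c2
        · omega
        · omega
        · omega
      · apply coal_vf
        apply coal_c2
        · omega
        · omega
        · omega
  · push Not at hs
    by_cases d3 : (3 : ℤ) ∣ s
    · by_cases ev : (2 : ℤ) ∣ s
      · by_cases c : 3 ^ q + s ≤ 2 ^ p
        · apply coal_c2
          · omega
          · omega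
          · omega
        · apply coal_c1' _ _ _ hs
          omega
      · exact coal_c4 q p s hq h1 hs d3 ev
    · exact coal_c1 q p s h1 hs (Or.inr d3)

end Pool.Agent.Helper379.Klarner
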