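import Mathlib

/-!
A finitely additive mean on sets of naturals attached to an ultrafilter.
-/

set_option autoImplicit false

open Filter Topology

namespace Pool.Agent.Helper379.Klarner

open Classical in
/-- number of elements of `A` below `N` -/
noncomputable def ct (A : Set ℕ) (N : ℕ) : ℕ := ((Finset.range N).filter (· ∈ A)).card

theorem ct_le (A : Set ℕ) (N : ℕ) : ct A N ≤ N := by
  classical
  unfold ct
  calc _ ≤ (Finset.range N).card := Finset.card_filter_le _ _
    _ = N := Finset.card_range N

theorem ct_mono {A B : Set ℕ} (h : A ⊆ B) (N : ℕ) : ct A N ≤ ct B N := by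
  classical
  unfold ct
  apply Finset.card_le_card
  intro x hx
  simp only [Finset.mem_filter] at hx ⊢
  exact ⟨hx.1, h hx.2⟩

theorem ct_union_inter (A B : Set ℕ) (N : ℕ) :
    ct (A ∪ B) N + ct (A ∩ B) N = ct A N + ct B N := by
  classical
  unfold ct
  rw [← Finset.card_union_add_card_inter ((Finset.range N).filter (· ∈ A))
    ((Finset.range N).filter (· ∈ B))]
  congr 2
  · ext x
    simp only [Finset.mem_filter, Finset.mem_union, Set.mem_union]
    tauto
  · ext x
    simp only [Finset.mem_filter, Finset.mem_inter, Set.mem_inter_iff]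
    tauto

theorem ct_univ (N : ℕ) : ct Set.univ N = N := by
  classical
  unfold ct
  simp

theorem ct_finite {A : Set ℕ} (hA : A.Finite) (N : ℕ) : ct A N ≤ hA.toFinset.card := by
  classical
  unfold ct
  apply Finset.card_le_card
  intro x hx
  simp only [Finset.mem_filter] at hx
  simpa using hx.2

/-- shift by `k`: upper bound -/
theorem ct_shift_le (A : Set ℕ) (k N : ℕ) : ct ((· + k) '' A) N ≤ ct A N := by
  classical
  unfold ct
  apply Finset.card_le_card_of_surjOn (· + k)
  intro y hy
  simp only [Finset.coe_filter, Finset.mem_range, Set.mem_ofPred_eq, Set.mem_image] at hy ⊢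
  obtain ⟨hyN, x, hx, rfl⟩ := hy
  exact ⟨x, ⟨by omega, hx⟩, rfl⟩

/-- shift by `k`: lower bound -/
theorem ct_le_shift (A : Set ℕ) (k N : ℕ) : ct A N ≤ ct ((· + k) '' A) N + k := by
  classical
  unfold ct
  have h1 : ((Finset.range N).filter (· ∈ A)) ⊆
      ((Finset.range (N - k)).filter (· ∈ A)) ∪ (Finset.Ico (N - k) N) := by
    intro x hx
    simp only [Finset.mem_filter, Finset.mem_range, Finset.mem_union, Finset.mem_Ico] at hx ⊢
    by_cases c : x < N - k
    · left; exact ⟨c, hx.2⟩
    · right; omega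
  have h2 : ((Finset.range (N - k)).filter (· ∈ A)).card ≤
      ((Finset.range N).filter (· ∈ (· + k) '' A)).card := by
    apply Finset.card_le_card_of_injOn (· + k)
    · intro x hx
      simp only [Finset.coe_filter, Finset.mem_range, Set.mem_ofPred_eq, Set.mem_image] at hx ⊢
      exact ⟨by omega, x, hx.2, rfl⟩
    · intro a _ b _ hab
      simpa using hab
  calc ((Finset.range N).filter (· ∈ A)).card
      ≤ (((Finset.range (N - k)).filter (· ∈ A)) ∪ (Finset.Ico (N - k) N)).card :=
        Finset.card_le_card h1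
    _ ≤ ((Finset.range (N - k)).filter (· ∈ A)).card + (Finset.Ico (N - k) N).card :=
        Finset.card_union_le _ _
    _ ≤ ((Finset.range N).filter (· ∈ (· + k) '' A)).card + k := by
        rw [Nat.card_Ico]
        omega

/-- the density quotient -/
noncomputable def qt (A : Set ℕ) (N : ℕ) : ℝ := (ct A N : ℝ) / N

theorem qt_nonneg (A : Set ℕ) (N : ℕ) : 0 ≤ qt A N := by
  unfold qt; positivity

theorem qt_le_one (A : Set ℕ) (N : ℕ) : qt A N ≤ 1 := by
  unfold qt
  apply div_le_one_of_le₀
  · exact_mod_cast ct_le A N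
  · positivity

theorem exists_lim (U : Ultrafilter ℕ) (A : Set ℕ) :
    ∃ x : ℝ, Tendsto (qt A) U (𝓝 x) := by
  have h : ((U.map (qt A) : Ultrafilter ℝ) : Filter ℝ) ≤ 𝓟 (Set.Icc 0 1) := by
    rw [Filter.le_principal_iff]
    apply Filter.Eventually.of_forall (f := (U : Filter ℕ))
    intro N
    exact ⟨qt_nonneg A N, qt_le_one A N⟩
  obtain ⟨x, _, hx⟩ := isCompact_Icc.ultrafilter_le_nhds _ h
  exact ⟨x, hx⟩

/-- the finitely additive mean attached to the ultrafilter `U` -/
noncomputable def mu (U : Ultrafilter ℕ) (A : Set ℕ) : ℝ := Classical.choose (exists_lim U A)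

theorem tendsto_mu (U : Ultrafilter ℕ) (A : Set ℕ) : Tendsto (qt A) U (𝓝 (mu U A)) :=
  Classical.choose_spec (exists_lim U A)

theorem mu_nonneg (U : Ultrafilter ℕ) (A : Set ℕ) : 0 ≤ mu U A :=
  ge_of_tendsto' (tendsto_mu U A) (fun N => qt_nonneg A N)

theorem mu_mono (U : Ultrafilter ℕ) {A B : Set ℕ} (h : A ⊆ B) : mu U A ≤ mu U B := by
  apply le_of_tendsto_of_tendsto' (tendsto_mu U A) (tendsto_mu U B)
  intro N
  unfold qt
  gcongr
  exact ct_mono h N

theorem mu_union_inter (U : Ultrafilter ℕ) (A B : Set ℕ) :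
    mu U (A ∪ B) + mu U (A ∩ B) = mu U A + mu U B := by
  have h1 := (tendsto_mu U (A ∪ B)).add (tendsto_mu U (A ∩ B))
  have h2 := (tendsto_mu U A).add (tendsto_mu U B)
  refine tendsto_nhds_unique h1 ?_
  refine h2.congr ?_
  intro N
  unfold qt
  rw [← add_div, ← add_div]
  congr 1
  exact_mod_cast (ct_union_inter A B N).symm

theorem mu_union_le (U : Ultrafilter ℕ) (A B : Set ℕ) :
    mu U (A ∪ B) ≤ mu U A + mu U B := by
  have := mu_union_inter U A B
  have := mu_nonneg U (A ∩ B)
  linarith

theorem mu_empty (U : Ultrafilter ℕ) : mu U ∅ = 0 := by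
  refine tendsto_nhds_unique (tendsto_mu U ∅) ?_
  have : qt ∅ = fun _ => 0 := by
    funext N
    unfold qt ct
    simp
  rw [this]
  exact tendsto_const_nhds

theorem mu_union_disj (U : Ultrafilter ℕ) {A B : Set ℕ} (h : Disjoint A B) :
    mu U (A ∪ B) = mu U A + mu U B := by
  have h1 := mu_union_inter U A B
  rw [Set.disjoint_iff_inter_eq_empty.mp h, mu_empty] at h1
  linarith

/-- sets whose counting functions differ by a bounded amount have the same mean -/
theorem mu_congr {U : Ultrafilter ℕ} (hU : (U : Filter ℕ) ≤ atTop) {A B : Set ℕ} (C : ℕ)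
    (h1 : ∀ N, ct A N ≤ ct B N + C) (h2 : ∀ N, ct B N ≤ ct A N + C) : mu U A = mu U B := by
  have h3 : Tendsto (fun N => qt A N - qt B N) U (𝓝 0) := by
    have h4 : Tendsto (fun N : ℕ => (C : ℝ) / N) U (𝓝 0) :=
      (tendsto_const_div_atTop_nhds_zero_nat (C : ℝ)).mono_left hU
    apply squeeze_zero_norm _ h4
    intro N
    unfold qt
    rw [← sub_div, norm_div, Real.norm_eq_abs, Real.norm_natCast]
    gcongr
    rw [abs_le]
    have e1 : (ct A N : ℝ) ≤ ct B N + C := by exact_mod_cast h1 N
    have e2 : (ct B N : ℝ) ≤ ct A N + C := by exact_mod_cast h2 N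
    constructor <;> linarith
  have h5 := tendsto_nhds_unique ((tendsto_mu U A).sub (tendsto_mu U B)) h3
  linarith

theorem mu_univ {U : Ultrafilter ℕ} (hU : (U : Filter ℕ) ≤ atTop) : mu U Set.univ = 1 := by
  refine tendsto_nhds_unique (tendsto_mu U _) ?_
  apply Tendsto.mono_left _ hU
  apply tendsto_const_nhds.congr'
  filter_upwards [eventually_gt_atTop 0] with N hN
  unfold qt
  rw [ct_univ]
  field_simp

theorem mu_finite {U : Ultrafilter ℕ} (hU : (U : Filter ℕ) ≤ atTop) {A : Set ℕ}
    (hA : A.Finite) : mu U A = 0 := by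
  rw [← mu_empty U]
  apply mu_congr hU (hA.toFinset.card)
  · intro N
    have := ct_finite hA N
    omega
  · intro N
    have := ct_mono (Set.empty_subset A) N
    omega

theorem mu_biUnion_le (U : Ultrafilter ℕ) {ι : Type*} (t : Finset ι) (A : ι → Set ℕ) :
    mu U (⋃ i ∈ t, A i) ≤ ∑ i ∈ t, mu U (A i) := by
  classical
  induction t using Finset.induction_on with
  | empty => simp [mu_empty]
  | insert a t ha ih =>
    rw [Finset.set_biUnion_insert, Finset.sum_insert ha]
    calc _ ≤ mu U (A a) + mu U (⋃ i ∈ t, A i) := mu_union_le U _ _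
      _ ≤ _ := by linarith

theorem mu_biUnion_disj (U : Ultrafilter ℕ) {ι : Type*} (t : Finset ι) (A : ι → Set ℕ)
    (h : ∀ i ∈ t, ∀ j ∈ t, i ≠ j → Disjoint (A i) (A j)) :
    mu U (⋃ i ∈ t, A i) = ∑ i ∈ t, mu U (A i) := by
  classical
  induction t using Finset.induction_on with
  | empty => simp [mu_empty]
  | insert a t ha ih =>
    rw [Finset.set_biUnion_insert, Finset.sum_insert ha, mu_union_disj, ih]
    · intro i hi j hj hij
      exact h i (Finset.mem_insert_of_mem hi) j (Finset.mem_insert_of_mem hj) hij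
    · rw [Set.disjoint_iUnion₂_right]
      intro i hi
      apply h a (Finset.mem_insert_self _ _) i (Finset.mem_insert_of_mem hi)
      rintro rfl
      exact ha hi

/-- almost disjoint families -/
theorem mu_sum_le_one {U : Ultrafilter ℕ} (hU : (U : Filter ℕ) ≤ atTop) {ι : Type*}
    (t : Finset ι) (A : ι → Set ℕ)
    (h : ∀ i ∈ t, ∀ j ∈ t, i ≠ j → mu U (A i ∩ A j) = 0) :
    ∑ i ∈ t, mu U (A i) ≤ 1 := by
  classical
  have key : mu U (⋃ i ∈ t, A i) = ∑ i ∈ t, mu U (A i) := by
    induction t using Finset.induction_on with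
    | empty => simp [mu_empty]
    | insert a t ha ih =>
      have ih' := ih (fun i hi j hj hij =>
        h i (Finset.mem_insert_of_mem hi) j (Finset.mem_insert_of_mem hj) hij)
      have h0 : mu U (A a ∩ ⋃ i ∈ t, A i) = 0 := by
        apply le_antisymm _ (mu_nonneg U _)
        rw [Set.inter_iUnion₂]
        refine (mu_biUnion_le U t (fun i => A a ∩ A i)).trans ?_
        apply le_of_eq
        apply Finset.sum_eq_zero
        intro i hi
        apply h a (Finset.mem_insert_self _ _) i (Finset.mem_insert_of_mem hi)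
        rintro rfl
        exact ha hi
      have h1 := mu_union_inter U (A a) (⋃ i ∈ t, A i)
      rw [Finset.set_biUnion_insert, Finset.sum_insert ha, ← ih']
      linarith
  rw [← key, ← mu_univ hU]
  exact mu_mono U (Set.subset_univ _)

/-- the set of `X` with `X / m ∈ A` -/
def E (m : ℕ) (A : Set ℕ) : Set ℕ := {X | X / m ∈ A}

/-- equidistribution of a digit -/
theorem mu_digit {U : Ultrafilter ℕ} (hU : (U : Filter ℕ) ≤ atTop) (m M c : ℕ) (hm : 0 < m)
    (hc : c < M) (A : Set ℕ) :
    mu U {X | X / m % M = c ∧ X / m / M ∈ A} = mu U (E (m * M) A) / M := by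
  have hM : 0 < M := by omega
  set D : ℕ → Set ℕ := fun c => {X | X / m % M = c ∧ X / m / M ∈ A} with hD
  have h1 : ∀ c < M, mu U (D c) = mu U (D 0) := by
    intro c hc
    have himg : D c = (· + m * c) '' (D 0) := by
      ext X
      simp only [hD, Set.mem_ofPred_eq, Set.mem_image]
      constructor
      · rintro ⟨h1, h2⟩
        have hle : m * c ≤ X := by
          have : c ≤ X / m := by rw [← h1]; exact Nat.mod_le _ _
          calc m * c ≤ m * (X / m) := Nat.mul_le_mul_left _ this
            _ ≤ X := Nat.mul_div_le X m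
        refine ⟨X - m * c, ?_, by omega⟩
        have e1 : (X - m * c) / m = X / m - c := Nat.sub_mul_div X m c
        rw [e1]
        have e2 : X / m = M * (X / m / M) + c := by
          conv_lhs => rw [← Nat.div_add_mod (X / m) M, h1]
        have e3 : X / m - c = M * (X / m / M) := by omega
        rw [e3]
        refine ⟨Nat.mul_mod_right _ _, ?_⟩
        rw [Nat.mul_div_cancel_left _ hM]
        exact h2
      · rintro ⟨Y, ⟨h1, h2⟩, rfl⟩
        have e1 : (Y + m * c) / m = Y / m + c := Nat.add_mul_div_left Y c hm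
        rw [e1]
        have e2 : Y / m = M * (Y / m / M) := by
          conv_lhs => rw [← Nat.div_add_mod (Y / m) M, h1]
          simp
        constructor
        · rw [e2, Nat.mul_add_mod, Nat.mod_eq_of_lt hc]
        · rw [e2, Nat.mul_add_div hM, Nat.div_eq_of_lt hc]
          simpa using h2
    rw [himg]
    apply mu_congr hU (m * c)
    · intro N
      have := ct_shift_le (D 0) (m * c) N
      omega
    · intro N
      exact ct_le_shift (D 0) (m * c) N
  have h2 : E (m * M) A = ⋃ c ∈ Finset.range M, D c := by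
    ext X
    simp only [E, hD, Set.mem_ofPred_eq, Set.mem_iUnion, Finset.mem_range, exists_prop]
    rw [← Nat.div_div_eq_div_mul]
    constructor
    · intro h
      exact ⟨X / m % M, Nat.mod_lt _ hM, rfl, h⟩
    · rintro ⟨_, _, _, h⟩
      exact h
  have h3 : mu U (E (m * M) A) = ∑ c ∈ Finset.range M, mu U (D c) := by
    rw [h2]
    apply mu_biUnion_disj
    intro i _ j _ hij
    rw [Set.disjoint_left]
    rintro X ⟨hi, _⟩ ⟨hj, _⟩
    exact hij (hi.symm.trans hj)
  have h4 : mu U (E (m * M) A) = M * mu U (D 0) := by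
    rw [h3, Finset.sum_congr rfl (fun c hc => h1 c (Finset.mem_range.mp hc))]
    simp
  have h5 : mu U (D c) = mu U (E (m * M) A) / M := by
    rw [h1 c hc, h4]
    field_simp
  exact h5

end Pool.Agent.Helper379.Klarner
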