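import Mathlib
import Pool.Agent.Helper379.KlarnerCoal
import Pool.Agent.Helper379.KlarnerMean

/-!
Klarner's set generated from `1` by `2x`, `3x+2`, `6x+3` has density zero.
-/

set_option autoImplicit false

open Filter Topology

namespace Pool.Agent.Helper379.Klarner

/-- Klarner's set -/
def KS : Set ℕ := {x : ℕ | ∀ T : Set ℕ, 1 ∈ T →
  (∀ y ∈ T, 2 * y ∈ T ∧ 3 * y + 2 ∈ T ∧ 6 * y + 3 ∈ T) → x ∈ T}

theorem one_mem : 1 ∈ KS := fun _ h _ => h

theorem app_mem (o : Op) {x : ℕ} (hx : x ∈ KS) : o.app x ∈ KS := by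
  intro T h1 h2
  have h3 := h2 x (hx T h1 h2)
  cases o
  · simpa [Op.app, Op.mul, Op.cst] using h3.1
  · simpa [Op.app, Op.mul, Op.cst] using h3.2.1
  · simpa [Op.app, Op.mul, Op.cst] using h3.2.2

theorem ev_mem (w : List Op) {x : ℕ} (hx : x ∈ KS) : ev w x ∈ KS := by
  induction w with
  | nil => exact hx
  | cons o w ih => exact app_mem o ih

theorem KS_cases {x : ℕ} (hx : x ∈ KS) : x = 1 ∨ ∃ o : Op, x ∈ o.app '' KS := by
  apply hx {x | x = 1 ∨ ∃ o : Op, x ∈ o.app '' KS}
  · left; rfl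
  · intro y hy
    have hyK : y ∈ KS := by
      rcases hy with rfl | ⟨o, z, hz, rfl⟩
      · exact one_mem
      · exact app_mem o hz
    refine ⟨Or.inr ⟨.f, y, hyK, ?_⟩, Or.inr ⟨.g, y, hyK, ?_⟩, Or.inr ⟨.h, y, hyK, ?_⟩⟩ <;>
      simp [Op.app, Op.mul, Op.cst]

theorem Op.mul_pos' (o : Op) : 0 < o.mul := by cases o <;> simp [Op.mul]

theorem Op.cst_lt (o : Op) : o.cst < o.mul := by cases o <;> simp [Op.mul, Op.cst]

theorem app_inj (o : Op) : Function.Injective o.app := by
  intro x y h
  unfold Op.app at h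
  have := o.mul_pos'
  have h2 : o.mul * x = o.mul * y := by omega
  exact Nat.eq_of_mul_eq_mul_left this h2

theorem mulW_pos (w : List Op) : 0 < mulW w := by
  induction w with
  | nil => simp [mulW]
  | cons o w ih => exact Nat.mul_pos o.mul_pos' ih

theorem E_app (o : Op) (m : ℕ) (A : Set ℕ) :
    E m (o.app '' A) = {X | X / m % o.mul = o.cst ∧ X / m / o.mul ∈ A} := by
  ext X
  simp only [E, Set.mem_ofPred_eq, Set.mem_image]
  constructor
  · rintro ⟨y, hy, h⟩
    rw [← h]
    unfold Op.app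
    constructor
    · rw [Nat.mul_add_mod, Nat.mod_eq_of_lt o.cst_lt]
    · rw [Nat.mul_add_div o.mul_pos', Nat.div_eq_of_lt o.cst_lt]
      simpa using hy
  · rintro ⟨h1, h2⟩
    refine ⟨X / m / o.mul, h2, ?_⟩
    unfold Op.app
    rw [← h1]
    exact Nat.div_add_mod _ _

theorem mu_app {U : Ultrafilter ℕ} (hU : (U : Filter ℕ) ≤ atTop) (o : Op) (m : ℕ) (hm : 0 < m)
    (A : Set ℕ) : mu U (E m (o.app '' A)) = mu U (E (m * o.mul) A) / o.mul := by
  rw [E_app]
  exact mu_digit hU m o.mul o.cst hm o.cst_lt A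

theorem mu_ev {U : Ultrafilter ℕ} (hU : (U : Filter ℕ) ≤ atTop) (w : List Op) :
    ∀ (m : ℕ), 0 < m → ∀ A : Set ℕ,
    mu U (E m (ev w '' A)) = mu U (E (m * mulW w) A) / mulW w := by
  induction w with
  | nil =>
    intro m _ A
    simp [ev, mulW]
  | cons o w ih =>
    intro m hm A
    have h1 : ev (o :: w) '' A = o.app '' (ev w '' A) := by
      rw [Set.image_image]
      rfl
    rw [h1, mu_app hU o m hm, ih (m * o.mul) (Nat.mul_pos hm o.mul_pos') A]
    simp only [mulW]
    rw [mul_assoc]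
    push_cast
    rw [div_div, mul_comm (mulW w : ℝ)]

section crit

variable {U : Ultrafilter ℕ} (hU : (U : Filter ℕ) ≤ atTop) {δ : ℝ}
  (H : ∀ m, 0 < m → mu U (E m KS) ≤ δ)

include hU

theorem E_finite_one (m : ℕ) (hm : 0 < m) : mu U (E m {1}) = 0 := by
  apply mu_finite hU
  apply Set.Finite.subset (Set.finite_Iio (2 * m))
  intro X hX
  simp only [E, Set.mem_ofPred_eq, Set.mem_singleton_iff] at hX
  rw [Set.mem_Iio]
  have := (Nat.div_eq_iff hm).mp hX
  omega

include H

theorem crit_bound (m : ℕ) (hm : 0 < m) (h : mu U (E m KS) = δ) :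
    (∀ o : Op, mu U (E (m * o.mul) KS) = δ) ∧
    (∀ o o' : Op, o ≠ o' → mu U (E m (o.app '' KS ∩ o'.app '' KS)) = 0) := by
  set F := E m (Op.f.app '' KS) with hF
  set G := E m (Op.g.app '' KS) with hG
  set K := E m (Op.h.app '' KS) with hK
  have h1 : mu U F = mu U (E (m * 2) KS) / 2 := mu_app hU Op.f m hm KS
  have h2 : mu U G = mu U (E (m * 3) KS) / 3 := mu_app hU Op.g m hm KS
  have h3 : mu U K = mu U (E (m * 6) KS) / 6 := mu_app hU Op.h m hm KS
  have b1 := H (m * 2) (by omega)
  have b2 := H (m * 3) (by omega)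
  have b3 := H (m * 6) (by omega)
  have hsub : E m KS ⊆ E m {1} ∪ (F ∪ G ∪ K) := by
    intro X hX
    rcases KS_cases (hX : X / m ∈ KS) with h | ⟨o, ho⟩
    · left; exact h
    · right
      cases o
      · left; left; exact ho
      · left; right; exact ho
      · right; exact ho
  have t0 : mu U (E m KS) ≤ mu U (F ∪ G ∪ K) := by
    have := (mu_mono U hsub).trans (mu_union_le U _ _)
    rw [E_finite_one hU m hm] at this
    linarith
  have i1 := mu_union_inter U F G
  have i2 := mu_union_inter U F K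
  have i3 := mu_union_inter U G K
  have u1 := mu_union_le U (F ∪ G) K
  have u2 := mu_union_le U (F ∪ K) G
  have u3 := mu_union_le U (G ∪ K) F
  have e2 : F ∪ K ∪ G = F ∪ G ∪ K := by ext x; simp only [Set.mem_union]; tauto
  have e3 : G ∪ K ∪ F = F ∪ G ∪ K := by ext x; simp only [Set.mem_union]; tauto
  rw [e2] at u2
  rw [e3] at u3
  have n1 := mu_nonneg U (F ∩ G)
  have n2 := mu_nonneg U (F ∩ K)
  have n3 := mu_nonneg U (G ∩ K)
  constructor
  · intro o
    cases o
    · change mu U (E (m * 2) KS) = δ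
      linarith
    · change mu U (E (m * 3) KS) = δ
      linarith
    · change mu U (E (m * 6) KS) = δ
      linarith
  · have z1 : mu U (F ∩ G) = 0 := by linarith
    have z2 : mu U (F ∩ K) = 0 := by linarith
    have z3 : mu U (G ∩ K) = 0 := by linarith
    have z1' : mu U (G ∩ F) = 0 := by rw [Set.inter_comm]; exact z1
    have z2' : mu U (K ∩ F) = 0 := by rw [Set.inter_comm]; exact z2
    have z3' : mu U (K ∩ G) = 0 := by rw [Set.inter_comm]; exact z3
    intro o o' hne
    cases o <;> cases o' <;> first | exact absurd rfl hne | assumption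

/-- the smooth moduli keep the critical value -/
theorem crit_all (h : mu U KS = δ) (a b : ℕ) : mu U (E (2 ^ a * 3 ^ b) KS) = δ := by
  induction b with
  | zero =>
    induction a with
    | zero =>
      have : E (2 ^ 0 * 3 ^ 0) KS = KS := by
        ext x
        simp [E]
      rw [this, h]
    | succ a ih =>
      have := (crit_bound hU H _ (by positivity) ih).1 Op.f
      have e : 2 ^ a * 3 ^ 0 * Op.f.mul = 2 ^ (a + 1) * 3 ^ 0 := by
        simp only [Op.mul]
        ring
      rw [e] at this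
      exact this
  | succ b ih =>
    have := (crit_bound hU H _ (by positivity) ih).1 Op.g
    have e : 2 ^ a * 3 ^ b * Op.g.mul = 2 ^ a * 3 ^ (b + 1) := by
      simp only [Op.mul]
      ring
    rw [e] at this
    exact this

/-- incomparable words have almost disjoint images -/
theorem crit_words (h : mu U KS = δ) (p q : ℕ) (hp : 1 ≤ p) (hq : 1 ≤ q) (w : List Op) :
    ∀ (w' : List Op) (a b : ℕ), mulW w * 2 ^ p = mulW w' * 3 ^ q →
      mu U (E (2 ^ a * 3 ^ b) (ev w '' KS ∩ ev w' '' KS)) = 0 := by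
  induction w with
  | nil =>
    intro w' a b hw
    exfalso
    simp only [mulW, one_mul] at hw
    have h3 : 3 ∣ 2 ^ p := by
      rw [hw]
      exact Dvd.dvd.mul_left (dvd_pow_self 3 (by omega)) _
    have := Nat.prime_three.dvd_of_dvd_pow h3
    omega
  | cons o w ih =>
    intro w' a b hw
    cases w' with
    | nil =>
      exfalso
      simp only [mulW, one_mul] at hw
      have h3 : 2 ∣ 3 ^ q := by
        rw [← hw]
        exact Dvd.dvd.mul_left (dvd_pow_self 2 (by omega)) _
      have := Nat.prime_two.dvd_of_dvd_pow h3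
      omega
    | cons o' w' =>
      by_cases ho : o = o'
      · subst ho
        have h1 : ev (o :: w) '' KS ∩ ev (o :: w') '' KS = o.app '' (ev w '' KS ∩ ev w' '' KS) := by
          rw [Set.image_inter (app_inj o), Set.image_image, Set.image_image]
          rfl
        rw [h1, mu_app hU o _ (by positivity)]
        have h2 : mulW w * 2 ^ p = mulW w' * 3 ^ q := by
          simp only [mulW] at hw
          have := o.mul_pos'
          apply Nat.eq_of_mul_eq_mul_left this
          rw [← mul_assoc, ← mul_assoc]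
          exact hw
        have h3 : ∃ a' b', 2 ^ a * 3 ^ b * o.mul = 2 ^ a' * 3 ^ b' := by
          cases o
          · exact ⟨a + 1, b, by simp only [Op.mul]; ring⟩
          · exact ⟨a, b + 1, by simp only [Op.mul]; ring⟩
          · exact ⟨a + 1, b + 1, by simp only [Op.mul]; ring⟩
        obtain ⟨a', b', h4⟩ := h3
        rw [h4, ih w' a' b' h2, zero_div]
      · apply le_antisymm _ (mu_nonneg U _)
        rw [← (crit_bound hU H (2 ^ a * 3 ^ b) (by positivity)
          (crit_all hU H h a b)).2 o o' ho]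
        apply mu_mono
        rintro X ⟨⟨x, hx, h5⟩, ⟨y, hy, h6⟩⟩
        exact ⟨⟨ev w x, ev_mem w hx, h5⟩, ⟨ev w' y, ev_mem w' hy, h6⟩⟩

end crit

/-- multipliers divide a smooth number -/
theorem mulW_smooth (w : List Op) : ∃ B : ℕ, ∀ a b : ℕ, B ≤ a → B ≤ b →
    ∃ a' b', 2 ^ a * 3 ^ b = 2 ^ a' * 3 ^ b' * mulW w := by
  induction w with
  | nil => exact ⟨0, fun a b _ _ => ⟨a, b, by simp [mulW]⟩⟩
  | cons o w ih =>
    obtain ⟨B, hB⟩ := ih
    refine ⟨B + 1, fun a b ha hb => ?_⟩
    obtain ⟨a1, rfl⟩ : ∃ a1, a = a1 + 1 := ⟨a - 1, by omega⟩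
    obtain ⟨b1, rfl⟩ : ∃ b1, b = b1 + 1 := ⟨b - 1, by omega⟩
    cases o
    · obtain ⟨a', b', h⟩ := hB a1 (b1 + 1) (by omega) (by omega)
      refine ⟨a', b', ?_⟩
      simp only [mulW, Op.mul]
      rw [pow_succ 2 a1, mul_right_comm, h]
      ring
    · obtain ⟨a', b', h⟩ := hB (a1 + 1) b1 (by omega) (by omega)
      refine ⟨a', b', ?_⟩
      simp only [mulW, Op.mul]
      rw [pow_succ 3 b1, ← mul_assoc, h]
      ring
    · obtain ⟨a', b', h⟩ := hB a1 b1 (by omega) (by omega)
      refine ⟨a', b', ?_⟩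
      simp only [mulW, Op.mul]
      have : (2 : ℕ) ^ (a1 + 1) * 3 ^ (b1 + 1) = 6 * (2 ^ a1 * 3 ^ b1) := by ring
      rw [this, h]
      ring

end Pool.Agent.Helper379.Klarner
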