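import Mathlib
import Pool.Agent.Helper379.KlarnerMain

/-!
Klarner's set generated from `1` by `2x`, `3x+2`, `6x+3` has density zero: conclusion.
-/

set_option autoImplicit false

open Filter Topology

namespace Pool.Agent.Helper379.Klarner

/-- pairs in relation -/
def TS (p : ℕ) (s : ℤ) : Set ℕ :=
  {x | x ∈ KS ∧ ∃ x' ∈ KS, (3 : ℤ) ^ p * x - 2 ^ p * x' = s}

section crit

variable {U : Ultrafilter ℕ} (hU : (U : Filter ℕ) ≤ atTop) {δ : ℝ}
  (H : ∀ m, 0 < m → mu U (E m KS) ≤ δ)

include hU H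

theorem TS_zero (h : mu U KS = δ) (p : ℕ) (hp : 1 ≤ p) (s : ℤ) (h1 : -3 ^ p < s)
    (h2 : s < 2 ^ p) : ∃ B : ℕ, ∀ a b : ℕ, B ≤ a → B ≤ b →
      mu U (E (2 ^ a * 3 ^ b) (TS p s)) = 0 := by
  obtain ⟨w, w', hw, hww⟩ := coal_all p p s hp hp h1 h2
  obtain ⟨B, hB⟩ := mulW_smooth w
  refine ⟨B, fun a b ha hb => ?_⟩
  obtain ⟨a', b', hab⟩ := hB a b ha hb
  rw [hab]
  have h3 := mu_ev hU w (2 ^ a' * 3 ^ b') (by positivity) (TS p s)
  have h4 : mu U (E (2 ^ a' * 3 ^ b') (ev w '' TS p s)) = 0 := by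
    apply le_antisymm _ (mu_nonneg U _)
    rw [← crit_words hU H h p p hp hp w w' a' b' hw]
    apply mu_mono
    rintro X ⟨x, ⟨hx, x', hx', hs⟩, hX⟩
    refine ⟨⟨x, hx, hX⟩, ⟨x', hx', ?_⟩⟩
    rw [← hww x x' hs]
    exact hX
  rw [h4] at h3
  have h5 : (0 : ℝ) < mulW w := by exact_mod_cast mulW_pos w
  have h6 := div_eq_zero_iff.mp h3.symm
  rcases h6 with h6 | h6
  · exact h6
  · exact absurd h6 h5.ne'

theorem crit_le_zero (h : mu U KS = δ) : δ ≤ 0 := by
  by_contra hδ
  push Not at hδ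
  obtain ⟨L, hL⟩ := exists_nat_gt (1 / δ)
  rw [div_lt_iff₀ hδ] at hL
  -- a uniform threshold
  have hev : ∀ᶠ B in (atTop : Filter ℕ), ∀ p ∈ Finset.Icc 1 L,
      ∀ s ∈ Finset.Ioo (-3 ^ p : ℤ) (2 ^ p), ∀ a b : ℕ, B ≤ a → B ≤ b →
      mu U (E (2 ^ a * 3 ^ b) (TS p s)) = 0 := by
    rw [Filter.eventually_all_finset]
    intro p hp
    rw [Filter.eventually_all_finset]
    intro s hs
    rw [Finset.mem_Icc] at hp
    rw [Finset.mem_Ioo] at hs
    obtain ⟨B, hB⟩ := TS_zero hU H h p hp.1 s hs.1 hs.2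
    filter_upwards [eventually_ge_atTop B] with B' hB' a b ha hb
    exact hB a b (hB'.trans ha) (hB'.trans hb)
  obtain ⟨B, hB⟩ := hev.exists
  set A : ℕ → Set ℕ := fun i => E (2 ^ (B + L - i) * 3 ^ (B + i)) KS with hA
  have hpair : ∀ i j : ℕ, i < j → j < L → mu U (A i ∩ A j) = 0 := by
    intro i j hij hj
    obtain ⟨p, rfl⟩ : ∃ p, j = i + p := ⟨j - i, by omega⟩
    apply le_antisymm _ (mu_nonneg U _)
    have hsub : A i ∩ A (i + p) ⊆ ⋃ s ∈ Finset.Ioo (-3 ^ p : ℤ) (2 ^ p),
        E (2 ^ (B + L - (i + p)) * 3 ^ (B + (i + p))) (TS p s) := by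
      rintro X ⟨h1, h2⟩
      simp only [hA, E, Set.mem_ofPred_eq] at h1 h2
      simp only [Set.mem_iUnion, exists_prop, E, Set.mem_ofPred_eq]
      set r := 2 ^ (B + L - (i + p)) * 3 ^ (B + i) with hr
      have e1 : 2 ^ (B + L - i) * 3 ^ (B + i) = r * 2 ^ p := by
        have : B + L - i = (B + L - (i + p)) + p := by omega
        rw [hr, this, pow_add]
        ring
      have e2 : 2 ^ (B + L - (i + p)) * 3 ^ (B + (i + p)) = r * 3 ^ p := by
        rw [hr, ← add_assoc, pow_add 3 (B + i) p]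
        ring
      rw [e1, ← Nat.div_div_eq_div_mul] at h1
      rw [e2, ← Nat.div_div_eq_div_mul] at h2
      rw [e2, ← Nat.div_div_eq_div_mul]
      set Y := X / r with hY
      refine ⟨(3 : ℤ) ^ p * (Y / 3 ^ p : ℕ) - 2 ^ p * (Y / 2 ^ p : ℕ), ?_, h2, Y / 2 ^ p, h1, rfl⟩
      have d1 := Nat.div_add_mod Y (3 ^ p)
      have d2 := Nat.div_add_mod Y (2 ^ p)
      have m1 := Nat.mod_lt Y (show 0 < 3 ^ p by positivity)
      have m2 := Nat.mod_lt Y (show 0 < 2 ^ p by positivity)
      rw [Finset.mem_Ioo]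
      generalize Y / 3 ^ p = u at *
      generalize Y / 2 ^ p = v at *
      generalize Y % 3 ^ p = c at *
      generalize Y % 2 ^ p = d at *
      have f1 : (3 : ℤ) ^ p * u + c = Y := by exact_mod_cast d1
      have f2 : (2 : ℤ) ^ p * v + d = Y := by exact_mod_cast d2
      have g1 : (c : ℤ) < 3 ^ p := by exact_mod_cast m1
      have g2 : (d : ℤ) < 2 ^ p := by exact_mod_cast m2
      constructor
      · linarith [Int.natCast_nonneg d]
      · linarith [Int.natCast_nonneg c]
    refine (mu_mono U hsub).trans ((mu_biUnion_le U _ _).trans ?_)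
    apply le_of_eq
    apply Finset.sum_eq_zero
    intro s hs
    apply hB p (Finset.mem_Icc.mpr ⟨by omega, by omega⟩) s hs
    · omega
    · omega
  have hsum := mu_sum_le_one hU (Finset.range L) A (by
    intro i hi j hj hij
    rw [Finset.mem_range] at hi hj
    rcases lt_or_gt_of_ne hij with c | c
    · exact hpair i j c hj
    · rw [Set.inter_comm]
      exact hpair j i c hi)
  have hval : ∀ i ∈ Finset.range L, mu U (A i) = δ := by
    intro i _
    exact crit_all hU H h _ _
  rw [Finset.sum_congr rfl hval] at hsum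
  simp at hsum
  linarith

end crit

theorem ct_E_le (A : Set ℕ) (m : ℕ) (hm : 0 < m) (N : ℕ) :
    ct (E m A) N ≤ m * (ct A (N / m) + 1) := by
  classical
  unfold ct
  have h1 : ((Finset.range N).filter (· ∈ E m A)).card ≤
      m * ((Finset.range (N / m + 1)).filter (· ∈ A)).card := by
    apply Finset.card_le_mul_card_image_of_maps_to (f := fun X => X / m)
    · intro X hX
      simp only [Finset.mem_filter, Finset.mem_range] at hX ⊢
      refine ⟨?_, hX.2⟩
      have : X / m ≤ N / m := Nat.div_le_div_right hX.1.le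
      omega
    · intro b _
      calc _ ≤ (Finset.Ico (m * b) (m * b + m)).card := by
            apply Finset.card_le_card
            intro X hX
            simp only [Finset.mem_filter, Finset.mem_Ico] at hX ⊢
            obtain ⟨_, hX⟩ := hX
            rw [← hX]
            have d := Nat.div_add_mod X m
            have d2 := Nat.mod_lt X hm
            omega
        _ = m := by simp
  refine h1.trans (Nat.mul_le_mul_left _ ?_)
  rw [Finset.range_add_one, Finset.filter_insert]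
  split_ifs
  · exact Finset.card_insert_le _ _
  · omega

/-- density zero, for the counting function `ct` -/
theorem density_zero_ct : Tendsto (qt KS) atTop (𝓝 0) := by
  -- the upper density
  set T : Set ℝ := {c : ℝ | ∀ᶠ N in (atTop : Filter ℕ), qt KS N ≤ c} with hT
  have hT1 : (1 : ℝ) ∈ T := Eventually.of_forall (fun N => qt_le_one KS N)
  have hTb : ∀ c ∈ T, 0 ≤ c := by
    intro c hc
    obtain ⟨N, hN⟩ := (hc : ∀ᶠ N in (atTop : Filter ℕ), qt KS N ≤ c).exists
    exact (qt_nonneg KS N).trans hN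
  have hTbd : BddBelow T := ⟨0, hTb⟩
  set δ := sInf T with hδ
  have hδ0 : 0 ≤ δ := le_csInf ⟨1, hT1⟩ hTb
  have hup : ∀ ε > 0, ∀ᶠ N in (atTop : Filter ℕ), qt KS N < δ + ε := by
    intro ε hε
    obtain ⟨c, hc, hc2⟩ := exists_lt_of_csInf_lt ⟨1, hT1⟩ (show sInf T < δ + ε by linarith)
    filter_upwards [hc] with N hN
    linarith
  have hlow : ∀ ε > 0, ∃ᶠ N in (atTop : Filter ℕ), δ - ε < qt KS N := by
    intro ε hε hcon
    have : δ - ε ∈ T := by
      filter_upwards [hcon] with N hN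
      exact not_lt.mp hN
    have := csInf_le hTbd this
    linarith
  have hcl : MapClusterPt δ atTop (qt KS) := by
    rw [mapClusterPt_iff_frequently]
    intro s hs
    obtain ⟨ε, hε, hball⟩ := Metric.mem_nhds_iff.mp hs
    have := (hlow ε hε).and_eventually (hup ε hε)
    refine this.mono ?_
    rintro N ⟨h1, h2⟩
    apply hball
    rw [Metric.mem_ball, Real.dist_eq, abs_lt]
    constructor <;> linarith
  obtain ⟨U, hU, hlim⟩ := mapClusterPt_iff_ultrafilter.mp hcl
  have hmu : mu U KS = δ := tendsto_nhds_unique (tendsto_mu U KS) hlim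
  have H : ∀ m, 0 < m → mu U (E m KS) ≤ δ := by
    intro m hm
    apply le_of_forall_pos_le_add
    intro ε hε
    have h1 : Tendsto (fun N : ℕ => (δ + ε) + (m : ℝ) / N) U (𝓝 ((δ + ε) + 0)) :=
      (tendsto_const_nhds.add (tendsto_const_div_atTop_nhds_zero_nat (m : ℝ))).mono_left hU
    rw [add_zero] at h1
    apply le_of_tendsto_of_tendsto (tendsto_mu U (E m KS)) h1
    apply hU
    have h2 : Tendsto (fun N : ℕ => N / m) atTop atTop := by
      apply Nat.tendsto_div_const_atTop hm.ne'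
    filter_upwards [h2.eventually (hup ε hε), eventually_gt_atTop 0] with N hN hN0
    have hNr : (0 : ℝ) < N := by exact_mod_cast hN0
    have h3 : (ct (E m KS) N : ℝ) ≤ m * (ct KS (N / m) + 1) := by exact_mod_cast ct_E_le KS m hm N
    have hmr : (0 : ℝ) < m := by exact_mod_cast hm
    have h4 : (ct KS (N / m) : ℝ) ≤ (δ + ε) * (N / m) := by
      rcases Nat.eq_zero_or_pos (N / m) with h0 | h0
      · rw [h0]
        have : ct KS 0 = 0 := by simp [ct]
        rw [this]
        simp only [Nat.cast_zero]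
        positivity
      · have h5 : (0 : ℝ) < ((N / m : ℕ) : ℝ) := by exact_mod_cast h0
        have h6 : (ct KS (N / m) : ℝ) < (δ + ε) * ((N / m : ℕ) : ℝ) := by
          unfold qt at hN
          rwa [div_lt_iff₀ h5] at hN
        have h7 : ((N / m : ℕ) : ℝ) ≤ (N : ℝ) / m := Nat.cast_div_le
        have h8 : 0 ≤ δ + ε := by linarith
        calc _ ≤ _ := h6.le
          _ ≤ _ := by gcongr
    unfold qt
    rw [div_le_iff₀ hNr]
    calc (ct (E m KS) N : ℝ) ≤ m * (ct KS (N / m) + 1) := h3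
      _ ≤ m * ((δ + ε) * (N / m) + 1) := by gcongr
      _ = ((δ + ε) + (m : ℝ) / N) * N := by field_simp
  have hzero : δ ≤ 0 := crit_le_zero hU H hmu
  have hδz : δ = 0 := le_antisymm hzero hδ0
  rw [Metric.tendsto_nhds]
  intro ε hε
  filter_upwards [hup ε hε] with N hN
  rw [Real.dist_eq, sub_zero, abs_of_nonneg (qt_nonneg KS N)]
  linarith

end Pool.Agent.Helper379.Klarner
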