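import Mathlib

namespace Pool.Agent.Helper379.Lower1

open Finset Nat ArithmeticFunction
open scoped ArithmeticFunction.Omega ArithmeticFunction.zeta Classical

/-- the nontrivial character mod 4, as an arithmetic function -/
noncomputable def chi : ArithmeticFunction ℝ := ⟨fun n => ((ZMod.χ₄ (n : ZMod 4) : ℤ) : ℝ), by simp⟩

theorem chi_apply (n : ℕ) : chi n = ((ZMod.χ₄ (n : ZMod 4) : ℤ) : ℝ) := rfl

theorem chi_mult : chi.IsMultiplicative := by
  refine ⟨by simp [chi_apply], ?_⟩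
  intro m n _
  rw [chi_apply, chi_apply, chi_apply, Nat.cast_mul, map_mul, Int.cast_mul]

theorem chi_pow (p k : ℕ) : chi (p ^ k) = (chi p) ^ k := by
  rw [chi_apply, chi_apply, Nat.cast_pow, map_pow, Int.cast_pow]

/-- r(m) = sum of chi over divisors -/
noncomputable def r : ArithmeticFunction ℝ := chi * (ζ : ArithmeticFunction ℝ)

theorem r_apply (m : ℕ) : r m = ∑ d ∈ m.divisors, chi d := by
  unfold r
  rw [coe_mul_zeta_apply]

theorem r_mult : r.IsMultiplicative := by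
  unfold r
  exact chi_mult.mul (isMultiplicative_zeta.natCast)

theorem r_prime_pow (p k : ℕ) (hp : p.Prime) : r (p ^ k) = ∑ i ∈ range (k + 1), (chi p) ^ i := by
  rw [r_apply, Nat.divisors_prime_pow hp, sum_map]
  apply sum_congr rfl
  intro i _
  simp [chi_pow]

theorem chi_one {p : ℕ} (h : p % 4 = 1) : chi p = 1 := by
  rw [chi_apply, ZMod.χ₄_nat_one_mod_four h]; simp

theorem chi_three {p : ℕ} (h : p % 4 = 3) : chi p = -1 := by
  rw [chi_apply, ZMod.χ₄_nat_three_mod_four h]; simp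

theorem chi_even {p : ℕ} (h : p % 2 = 0) : chi p = 0 := by
  rw [chi_apply, ZMod.χ₄_nat_eq_if_mod_four, if_pos h]; simp

/-- the structure statement -/
def PP (m : ℕ) : Prop :=
  m = 0 ∨ (0 ≤ r m ∧ (r m = 0 ∨ ∃ a b : ℕ, m = a * b ∧ (∃ e t : ℕ, b = 2 ^ e * t ^ 2) ∧
    (∀ p, p.Prime → p ∣ a → p % 4 = 1) ∧ r m ≤ 2 ^ (Ω a)))

theorem PP_all : ∀ m, PP m := by
  apply Nat.recOnPosPrimePosCoprime
  · intro p n hp hn
    right
    rw [r_prime_pow p n hp]
    rcases Nat.even_or_odd p with hev | hodd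
    · have hp2 : p = 2 := (Nat.Prime.even_iff hp).mp hev
      subst hp2
      have h0 : chi 2 = 0 := chi_even rfl
      have hs : ∑ i ∈ range (n + 1), (chi 2) ^ i = 1 := by
        rw [h0, sum_range_succ']
        simp
      rw [hs]
      refine ⟨zero_le_one, Or.inr ⟨1, 2 ^ n, by simp, ⟨n, 1, by simp⟩, ?_, ?_⟩⟩
      · intro q hq hq1
        exact absurd (Nat.eq_one_of_dvd_one hq1) hq.ne_one
      · simp
    · have hp4 : p % 4 = 1 ∨ p % 4 = 3 := by
        have := Nat.odd_iff.mp hodd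
        omega
      rcases hp4 with h4 | h4
      · rw [chi_one h4]
        simp only [one_pow, sum_const, card_range, nsmul_eq_mul, mul_one]
        refine ⟨by positivity, Or.inr ⟨p ^ n, 1, by simp, ⟨0, 1, by simp⟩, ?_, ?_⟩⟩
        · intro q hq hqp
          rw [(Nat.prime_dvd_prime_iff_eq hq hp).mp (hq.dvd_of_dvd_pow hqp)]
          exact h4
        · rw [cardFactors_apply_prime_pow hp]
          have : n + 1 ≤ 2 ^ n := Nat.lt_two_pow_self
          exact_mod_cast this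
      · rw [chi_three h4]
        have hs : ∑ i ∈ range (n + 1), (-1 : ℝ) ^ i = if Even (n + 1) then 0 else 1 :=
          neg_one_geom_sum
        rw [hs]
        rcases Nat.even_or_odd n with he | ho
        · obtain ⟨t, ht⟩ := he
          have hne : ¬ Even (n + 1) := by
            rw [Nat.not_even_iff_odd]; exact ⟨t, by omega⟩
          rw [if_neg hne]
          refine ⟨zero_le_one, Or.inr ⟨1, p ^ n, by simp, ⟨0, p ^ t, ?_⟩, ?_, ?_⟩⟩
          · rw [ht]; ring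
          · intro q hq hq1
            exact absurd (Nat.eq_one_of_dvd_one hq1) hq.ne_one
          · simp
        · have hne : Even (n + 1) := ho.add_one
          rw [if_pos hne]
          exact ⟨le_refl _, Or.inl rfl⟩
  · left; rfl
  · right
    have : r 1 = 1 := r_mult.map_one
    rw [this]
    refine ⟨zero_le_one, Or.inr ⟨1, 1, by simp, ⟨0, 1, by simp⟩, ?_, by simp⟩⟩
    intro q hq hq1
    exact absurd (Nat.eq_one_of_dvd_one hq1) hq.ne_one
  · intro a b ha hb hab hPa hPb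
    right
    rcases hPa with h | ⟨ra0, hPa⟩
    · omega
    rcases hPb with h | ⟨rb0, hPb⟩
    · omega
    rw [r_mult.map_mul_of_coprime hab]
    refine ⟨mul_nonneg ra0 rb0, ?_⟩
    rcases hPa with h | ⟨a1, a2, ha12, ⟨e1, t1, he1⟩, hpa, hra⟩
    · left; rw [h, zero_mul]
    rcases hPb with h | ⟨b1, b2, hb12, ⟨e2, t2, he2⟩, hpb, hrb⟩
    · left; rw [h, mul_zero]
    right
    refine ⟨a1 * b1, a2 * b2, ?_, ⟨e1 + e2, t1 * t2, ?_⟩, ?_, ?_⟩
    · rw [ha12, hb12]; ring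
    · rw [he1, he2]; ring
    · intro p hp hpd
      rcases (Nat.Prime.dvd_mul hp).mp hpd with h | h
      · exact hpa p hp h
      · exact hpb p hp h
    · have ha1 : a1 ≠ 0 := by rintro rfl; simp at ha12; omega
      have hb1 : b1 ≠ 0 := by rintro rfl; simp at hb12; omega
      rw [cardFactors_mul ha1 hb1, pow_add]
      exact mul_le_mul hra hrb rb0 (by positivity)

/-- sum of 2^Omega(a)/a over a ≤ y composed of primes 1 mod 4 -/
noncomputable def FF (y : ℕ) : ℝ :=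
  ∑ a ∈ (Icc 1 y).filter (fun a => ∀ p, p.Prime → p ∣ a → p % 4 = 1), (2:ℝ) ^ (Ω a) / a

theorem sum_inv_sq_le (y : ℕ) : ∑ t ∈ Icc 1 y, (1:ℝ) / (t:ℝ) ^ 2 ≤ 2 := by
  have h : ∀ y : ℕ, 1 ≤ y → ∑ t ∈ Icc 1 y, (1:ℝ) / (t:ℝ) ^ 2 ≤ 2 - 1 / y := by
    intro y hy
    induction y, hy using Nat.le_induction with
    | base => norm_num
    | succ n hn ih =>
      rw [sum_Icc_succ_top (by omega)]
      have hn' : (0:ℝ) < n := by exact_mod_cast hn
      have h2 : (1:ℝ) / ((n + 1 : ℕ):ℝ) ^ 2 ≤ 1 / n - 1 / ((n + 1 : ℕ) : ℝ) := by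
        push_cast
        rw [div_sub_div _ _ hn'.ne' (by positivity), div_le_div_iff₀ (by positivity) (by positivity)]
        nlinarith
      linarith
  rcases Nat.eq_zero_or_pos y with rfl | hy
  · simp
  · have := h y hy
    have h3 : (0:ℝ) ≤ 1 / y := by positivity
    linarith

theorem sum_inv_two_pow_le (y : ℕ) : ∑ e ∈ range y, (1:ℝ) / (2:ℝ) ^ e ≤ 2 := by
  have h : ∑ e ∈ range y, (1:ℝ) / (2:ℝ) ^ e = 2 - 2 / 2 ^ y := by
    induction y with
    | zero => norm_num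
    | succ n ih =>
      rw [sum_range_succ, ih, pow_succ]
      field_simp
      ring
  rw [h]
  have : (0:ℝ) < 2 / 2 ^ y := by positivity
  linarith

theorem sum_J_le (y : ℕ) :
    ∑ b ∈ (Icc 1 y).filter (fun b => ∃ e t : ℕ, b = 2 ^ e * t ^ 2), (1:ℝ) / b ≤ 4 := by
  have hsub : (Icc 1 y).filter (fun b => ∃ e t : ℕ, b = 2 ^ e * t ^ 2) ⊆
      ((range (y + 1)) ×ˢ (Icc 1 y)).image (fun x => 2 ^ x.1 * x.2 ^ 2) := by
    intro b hb
    rw [mem_filter, mem_Icc] at hb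
    obtain ⟨⟨h1, h2⟩, e, t, rfl⟩ := hb
    rw [mem_image]
    have ht : t ≠ 0 := by rintro rfl; simp at h1
    have he : e < y + 1 := by
      have h3 : e < 2 ^ e := Nat.lt_two_pow_self
      have h4 : 2 ^ e ≤ 2 ^ e * t ^ 2 := Nat.le_mul_of_pos_right _ (by positivity)
      omega
    have ht2 : t ≤ y := by
      have h3 : t ≤ t ^ 2 := Nat.le_self_pow (by norm_num) t
      have h4 : t ^ 2 ≤ 2 ^ e * t ^ 2 := Nat.le_mul_of_pos_left _ (by positivity)
      omega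
    exact ⟨(e, t), mem_product.mpr ⟨mem_range.mpr he, mem_Icc.mpr ⟨by omega, ht2⟩⟩, rfl⟩
  refine (sum_le_sum_of_subset_of_nonneg hsub (fun i _ _ => by positivity)).trans ?_
  refine (sum_image_le_of_nonneg (fun i _ => by positivity)).trans ?_
  rw [sum_product]
  have h1 : ∀ e ∈ range (y + 1), ∑ t ∈ Icc 1 y, (1:ℝ) / ((2 ^ e * t ^ 2 : ℕ) : ℝ) ≤ (1 / 2 ^ e) * 2 := by
    intro e _
    have h2 : ∀ t ∈ Icc 1 y, (1:ℝ) / ((2 ^ e * t ^ 2 : ℕ) : ℝ) = (1 / 2 ^ e) * (1 / (t:ℝ) ^ 2) := by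
      intro t _
      push_cast
      rw [one_div_mul_one_div]
    rw [sum_congr rfl h2, ← mul_sum]
    apply mul_le_mul_of_nonneg_left (sum_inv_sq_le y) (by positivity)
  refine (sum_le_sum h1).trans ?_
  rw [← sum_mul]
  have := sum_inv_two_pow_le (y + 1)
  linarith

theorem sum_r_le (y : ℕ) : ∑ m ∈ Icc 1 y, r m / m ≤ FF y * 4 := by
  have hPP : ∀ m ∈ (Icc 1 y).filter (fun m => r m ≠ 0), ∃ ab : ℕ × ℕ, m = ab.1 * ab.2 ∧ (∃ e t : ℕ, ab.2 = 2 ^ e * t ^ 2) ∧
    (∀ p, p.Prime → p ∣ ab.1 → p % 4 = 1) ∧ r m ≤ 2 ^ (Ω ab.1) := by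
    intro m hm
    rw [mem_filter, mem_Icc] at hm
    rcases PP_all m with h | ⟨_, h | ⟨a, b, h1, h2, h3, h4⟩⟩
    · omega
    · exact absurd h hm.2
    · exact ⟨(a, b), h1, h2, h3, h4⟩
  choose! ph hph using hPP
  have h0 : ∑ m ∈ Icc 1 y, r m / m = ∑ m ∈ (Icc 1 y).filter (fun m => r m ≠ 0), r m / m := by
    rw [sum_filter_of_ne]
    intro x _ hx hc
    apply hx; rw [hc, zero_div]
  rw [h0]
  set A := (Icc 1 y).filter (fun a => ∀ p, p.Prime → p ∣ a → p % 4 = 1) with hA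
  set B := (Icc 1 y).filter (fun b => ∃ e t : ℕ, b = 2 ^ e * t ^ 2) with hB
  have h1 : ∑ m ∈ (Icc 1 y).filter (fun m => r m ≠ 0), r m / m ≤
      ∑ m ∈ (Icc 1 y).filter (fun m => r m ≠ 0), ((2:ℝ) ^ (Ω (ph m).1) / (ph m).1) * (1 / (ph m).2) := by
    apply sum_le_sum
    intro m hm
    obtain ⟨e1, _, _, e4⟩ := hph m hm
    have hm' : ((m:ℕ):ℝ) = ((ph m).1 : ℝ) * ((ph m).2 : ℝ) := by exact_mod_cast e1
    have : r m / (m:ℝ) ≤ 2 ^ (Ω (ph m).1) / (m:ℝ) := div_le_div_of_nonneg_right e4 (Nat.cast_nonneg m)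
    refine this.trans (le_of_eq ?_)
    rw [_root_.div_mul_div_comm, mul_one, ← hm']
  refine h1.trans ?_
  have h2 : ∑ m ∈ (Icc 1 y).filter (fun m => r m ≠ 0), ((2:ℝ) ^ (Ω (ph m).1) / (ph m).1) * (1 / (ph m).2) =
      ∑ x ∈ ((Icc 1 y).filter (fun m => r m ≠ 0)).image ph, ((2:ℝ) ^ (Ω x.1) / x.1) * (1 / x.2) := by
    rw [sum_image]
    intro m1 hm1 m2 hm2 h12
    rw [(hph m1 hm1).1, (hph m2 hm2).1, h12]
  rw [h2]
  have hsub : ((Icc 1 y).filter (fun m => r m ≠ 0)).image ph ⊆ A ×ˢ B := by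
    intro x hx
    rw [mem_image] at hx
    obtain ⟨m, hm, rfl⟩ := hx
    obtain ⟨e1, e2, e3, _⟩ := hph m hm
    rw [mem_filter, mem_Icc] at hm
    have h1 : (ph m).1 ≠ 0 := by intro hc; rw [hc, zero_mul] at e1; omega
    have h2 : (ph m).2 ≠ 0 := by intro hc; rw [hc, mul_zero] at e1; omega
    have h3 : (ph m).1 ≤ m := by
      conv_rhs => rw [e1]
      exact Nat.le_mul_of_pos_right _ (Nat.pos_of_ne_zero h2)
    have h4 : (ph m).2 ≤ m := by
      conv_rhs => rw [e1]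
      exact Nat.le_mul_of_pos_left _ (Nat.pos_of_ne_zero h1)
    rw [mem_product, hA, hB, mem_filter, mem_filter, mem_Icc, mem_Icc]
    exact ⟨⟨⟨Nat.pos_of_ne_zero h1, by omega⟩, e3⟩, ⟨⟨Nat.pos_of_ne_zero h2, by omega⟩, e2⟩⟩
  refine (sum_le_sum_of_subset_of_nonneg hsub (fun i _ _ => by positivity)).trans ?_
  rw [sum_product]
  simp_rw [← mul_sum]
  rw [← sum_mul]
  have hB4 := sum_J_le y
  have hA0 : 0 ≤ ∑ a ∈ A, (2:ℝ) ^ (Ω a) / a := sum_nonneg (fun i _ => by positivity)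
  exact mul_le_mul_of_nonneg_left hB4 hA0

end Pool.Agent.Helper379.Lower1
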