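import Mathlib
import Pool.Agent.Helper379.Lower1

namespace Pool.Agent.Helper379.Lower2

open Finset Nat ArithmeticFunction Pool.Agent.Helper379.Lower1
open scoped ArithmeticFunction.Omega ArithmeticFunction.zeta Classical

noncomputable def HH (k : ℕ) : ℝ := ∑ j ∈ Ioc 0 k, (1:ℝ) / j

theorem HH_mono {a b : ℕ} (h : a ≤ b) : HH a ≤ HH b := by
  unfold HH
  apply sum_le_sum_of_subset_of_nonneg
  · exact Ioc_subset_Ioc_right h
  · intro i _ _; positivity

theorem HH_zero : HH 0 = 0 := by simp [HH]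

theorem HH_nonneg (k : ℕ) : 0 ≤ HH k := sum_nonneg (fun i _ => by positivity)

theorem alt (A : ℕ → ℝ) (hA : ∀ d, 1 ≤ d → A (d + 2) ≤ A d) (k : ℕ) :
    A 1 - A 3 ≤ ∑ d ∈ range (4 * (k + 1)), chi d * A d := by
  induction k with
  | zero =>
    rw [show 4 * (0 + 1) = 4 from rfl]
    simp only [sum_range_succ, range_zero, sum_empty]
    rw [chi_even (p := 0) rfl, chi_one (p := 1) rfl, chi_even (p := 2) rfl, chi_three (p := 3) rfl]
    linarith
  | succ k ih =>
    rw [show 4 * (k + 1 + 1) = 4 * (k + 1) + 1 + 1 + 1 + 1 by ring]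
    rw [sum_range_succ, sum_range_succ, sum_range_succ, sum_range_succ]
    rw [chi_even (p := 4 * (k + 1)) (by omega), chi_one (p := 4 * (k + 1) + 1) (by omega),
      chi_even (p := 4 * (k + 1) + 1 + 1) (by omega), chi_three (p := 4 * (k + 1) + 1 + 1 + 1) (by omega)]
    have := hA (4 * (k + 1) + 1) (by omega)
    linarith

noncomputable def c1 : ArithmeticFunction ℝ := ⟨fun n => chi n / n, by simp⟩
noncomputable def g1 : ArithmeticFunction ℝ := ⟨fun n => 1 / n, by simp⟩

theorem c1_mul_g1 (n : ℕ) : (c1 * g1) n = r n / n := by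
  rw [mul_apply]
  unfold r
  rw [mul_apply, sum_div]
  apply sum_congr rfl
  rintro ⟨a, b⟩ hab
  rw [mem_divisorsAntidiagonal] at hab
  obtain ⟨h1, h2⟩ := hab
  have hb : b ≠ 0 := by rintro rfl; simp at h1; omega
  have hz : ((ζ : ArithmeticFunction ℝ)) b = 1 := by
    rw [natCoe_apply, zeta_apply_ne hb]; simp
  simp only at h1
  have hn : (n:ℝ) = (a:ℝ) * (b:ℝ) := by exact_mod_cast h1.symm
  change (chi a / a) * (1 / b) = chi a * (ζ : ArithmeticFunction ℝ) b / n
  rw [hz, hn, _root_.div_mul_div_comm, mul_one]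

theorem sum_r_ge (y : ℕ) : (2/3 : ℝ) * HH y ≤ ∑ m ∈ Icc 1 y, r m / m := by
  have h0 : ∑ m ∈ Icc 1 y, r m / m = ∑ m ∈ Ioc 0 y, (c1 * g1) m := by
    apply sum_congr rfl
    intro m _
    rw [c1_mul_g1]
  rw [h0, sum_Ioc_mul_eq_sum_sum]
  have h1 : ∀ n ∈ Ioc 0 y, c1 n * ∑ m ∈ Ioc 0 (y / n), g1 m = chi n * (HH (y / n) / n) := by
    intro n _
    change (chi n / n) * HH (y / n) = _
    ring
  rw [sum_congr rfl h1]
  have h2 : ∑ n ∈ Ioc 0 y, chi n * (HH (y / n) / n) = ∑ n ∈ range (4 * (y + 1)), chi n * (HH (y / n) / n) := by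
    apply sum_subset
    · intro x hx
      rw [mem_Ioc] at hx
      rw [mem_range]; omega
    · intro x _ hx2
      rw [mem_Ioc] at hx2
      rcases Nat.eq_zero_or_pos x with rfl | hx
      · simp
      · have : y / x = 0 := Nat.div_eq_of_lt (by omega)
        rw [this, HH_zero]; simp
  rw [h2]
  refine le_trans ?_ (alt (fun n => HH (y / n) / n) ?_ y)
  · simp only [Nat.div_one, Nat.cast_one, div_one]
    have := HH_mono (Nat.div_le_self y 3)
    push_cast
    linarith
  · intro d hd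
    have h3 : HH (y / (d + 2)) ≤ HH (y / d) := HH_mono (Nat.div_le_div_left (by omega) hd)
    have hd' : (0:ℝ) < d := by exact_mod_cast hd
    push_cast
    have h4 := HH_nonneg (y / (d + 2))
    calc HH (y / (d + 2)) / ((d:ℝ) + 2) ≤ HH (y / (d + 2)) / d := by
          apply div_le_div_of_nonneg_left h4 hd' (by linarith)
      _ ≤ HH (y / d) / d := by gcongr

theorem HH_ge_log (y : ℕ) : Real.log (y + 1) ≤ HH y := by
  have h := log_add_one_le_harmonic y
  push_cast at h
  refine h.trans (le_of_eq ?_)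
  unfold HH
  rw [harmonic_eq_sum_Icc]
  push_cast
  apply sum_congr rfl
  intro i _
  simp

theorem FF_ge (y : ℕ) : Real.log (y + 1) / 6 ≤ FF y := by
  have h1 := sum_r_le y
  have h2 := sum_r_ge y
  have h3 := HH_ge_log y
  linarith

/-- Selberg terms at primes 1 mod 4 -/
noncomputable def gg (l : ℕ) : ℝ := ∏ p ∈ l.primeFactors, ((2:ℝ) / p) / (1 - (2:ℝ) / p)

theorem pow_Omega_div (a : ℕ) (ha : a ≠ 0) :
    (2:ℝ) ^ (Ω a) / a = ∏ p ∈ a.primeFactors, ((2:ℝ) / p) ^ (a.factorization p) := by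
  have h1 : (a:ℝ) = ∏ p ∈ a.primeFactors, (p:ℝ) ^ (a.factorization p) := by
    have h := Nat.prod_factorization_pow_eq_self ha
    rw [Finsupp.prod, Nat.support_factorization] at h
    have h' : ((∏ p ∈ a.primeFactors, p ^ (a.factorization p) : ℕ) : ℝ) = a := by exact_mod_cast h
    rw [← h']
    push_cast
    rfl
  have h2 : (2:ℝ) ^ (Ω a) = ∏ p ∈ a.primeFactors, (2:ℝ) ^ (a.factorization p) := by
    rw [prod_pow_eq_pow_sum, cardFactors_eq_sum_factorization, Finsupp.sum, Nat.support_factorization]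
  rw [h2]
  conv_lhs => rw [h1]
  rw [← prod_div_distrib]
  apply prod_congr rfl
  intro p _
  rw [div_pow]

theorem geom_bound (x : ℝ) (hx0 : 0 ≤ x) (hx1 : x < 1) (K : ℕ) :
    ∑ k ∈ Icc 1 K, x ^ k ≤ x / (1 - x) := by
  have h : ∀ K : ℕ, ∑ k ∈ Icc 1 K, x ^ k ≤ x / (1 - x) - x ^ (K + 1) / (1 - x) := by
    intro K
    induction K with
    | zero => simp
    | succ n ih =>
      rw [sum_Icc_succ_top (by omega)]
      have h1 : (0:ℝ) < 1 - x := by linarith
      have h2 : x ^ (n + 1) / (1 - x) - x ^ (n + 1 + 1) / (1 - x) = x ^ (n + 1) := by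
        rw [← sub_div, div_eq_iff h1.ne']; ring
      linarith
  have h1 : 0 ≤ x ^ (K + 1) / (1 - x) := div_nonneg (by positivity) (by linarith)
  linarith [h K]

theorem fiber_le (y : ℕ) (S : Finset ℕ) (hS : ∀ p ∈ S, p.Prime ∧ 3 ≤ p) :
    ∑ a ∈ (Icc 1 y).filter (fun a => a.primeFactors = S), (2:ℝ) ^ (Ω a) / a ≤
      ∏ p ∈ S, ((2:ℝ) / p) / (1 - (2:ℝ) / p) := by
  have h1 : ∏ p ∈ S, (∑ k ∈ Icc 1 y, ((2:ℝ) / p) ^ k) ≤ ∏ p ∈ S, ((2:ℝ) / p) / (1 - (2:ℝ) / p) := by
    apply prod_le_prod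
    · intro p _; positivity
    · intro p hp
      have h3 : (3:ℝ) ≤ p := by exact_mod_cast (hS p hp).2
      apply geom_bound _ (by positivity)
      rw [div_lt_one (by linarith)]; linarith
  refine le_trans ?_ h1
  rw [prod_sum]
  set F := (Icc 1 y).filter (fun a => a.primeFactors = S) with hF
  let ph : ℕ → (∀ p ∈ S, ℕ) := fun a p _ => a.factorization p
  have h2 : ∀ a ∈ F, (2:ℝ) ^ (Ω a) / a = ∏ x ∈ S.attach, ((2:ℝ) / (x:ℕ)) ^ (ph a x.1 x.2) := by
    intro a ha
    rw [hF, mem_filter, mem_Icc] at ha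
    rw [pow_Omega_div a (by omega), ha.2]
    rw [← prod_attach]
  rw [sum_congr rfl h2]
  have hinj : ∀ a ∈ F, ∀ b ∈ F, ph a = ph b → a = b := by
    intro a ha b hb hab
    rw [hF, mem_filter, mem_Icc] at ha hb
    apply Nat.eq_of_factorization_eq (by omega) (by omega)
    intro p
    by_cases hp : p ∈ S
    · exact congrFun (congrFun hab p) hp
    · have h3 : p ∉ a.primeFactors := by rw [ha.2]; exact hp
      have h4 : p ∉ b.primeFactors := by rw [hb.2]; exact hp
      rw [← Nat.support_factorization, Finsupp.notMem_support_iff] at h3 h4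
      rw [h3, h4]
  have h3 : ∑ a ∈ F, ∏ x ∈ S.attach, ((2:ℝ) / (x:ℕ)) ^ (ph a x.1 x.2) =
      ∑ v ∈ F.image ph, ∏ x ∈ S.attach, ((2:ℝ) / (x:ℕ)) ^ (v x.1 x.2) := by
    rw [sum_image hinj]
  rw [h3]
  apply sum_le_sum_of_subset_of_nonneg
  · intro v hv
    rw [mem_image] at hv
    obtain ⟨a, ha, rfl⟩ := hv
    rw [hF, mem_filter, mem_Icc] at ha
    rw [mem_pi]
    intro p hp
    rw [mem_Icc]
    have hpa : p ∈ a.primeFactors := by rw [ha.2]; exact hp
    constructor
    · exact Nat.Prime.factorization_pos_of_dvd (Nat.prime_of_mem_primeFactors hpa) (by omega) (Nat.dvd_of_mem_primeFactors hpa)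
    · have := Nat.factorization_lt p (n := a) (by omega)
      change a.factorization p ≤ y
      omega
  · intro v _ _
    positivity

theorem sum_gg_ge (y : ℕ) :
    Real.log (y + 1) / 6 ≤ ∑ l ∈ (Icc 1 y).filter (fun l => Squarefree l ∧ ∀ p, p.Prime → p ∣ l → p % 4 = 1), gg l := by
  refine (FF_ge y).trans ?_
  unfold FF
  set A := (Icc 1 y).filter (fun a => ∀ p, p.Prime → p ∣ a → p % 4 = 1) with hA
  set L := (Icc 1 y).filter (fun l => Squarefree l ∧ ∀ p, p.Prime → p ∣ l → p % 4 = 1) with hL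
  -- group by radical
  have hmaps : ∀ a ∈ A, (∏ p ∈ a.primeFactors, p) ∈ L := by
    intro a ha
    rw [hA, mem_filter, mem_Icc] at ha
    have ha0 : a ≠ 0 := by omega
    have hdvd : (∏ p ∈ a.primeFactors, p) ∣ a := Nat.prod_primeFactors_dvd a
    have hpos : 0 < ∏ p ∈ a.primeFactors, p := Nat.pos_of_dvd_of_pos hdvd (by omega)
    rw [hL, mem_filter, mem_Icc]
    refine ⟨⟨hpos, ?_⟩, ?_, ?_⟩
    · have := Nat.le_of_dvd (by omega) hdvd
      omega
    · refine Finset.squarefree_prod_of_pairwise_isCoprime (fun p hp q hq hpq => ?_) (fun p hp => ?_)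
      · exact Nat.coprime_iff_isRelPrime.mp ((Nat.coprime_primes (Nat.prime_of_mem_primeFactors hp) (Nat.prime_of_mem_primeFactors hq)).mpr hpq)
      · exact (Nat.prime_of_mem_primeFactors hp).prime.squarefree
    · intro p hp hpd
      exact ha.2 p hp (hpd.trans hdvd)
  rw [← sum_fiberwise_of_maps_to hmaps]
  apply sum_le_sum
  intro l hl
  rw [hL, mem_filter, mem_Icc] at hl
  refine le_trans ?_ (fiber_le y l.primeFactors ?_)
  · apply sum_le_sum_of_subset_of_nonneg
    · intro a ha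
      rw [mem_filter, hA, mem_filter] at ha
      rw [mem_filter]
      refine ⟨ha.1.1, ?_⟩
      rw [← ha.2]
      rw [Nat.primeFactors_prod]
      intro p hp
      exact Nat.prime_of_mem_primeFactors hp
    · intro a _ _; positivity
  · intro p hp
    have hpp := Nat.prime_of_mem_primeFactors hp
    have := hl.2.2 p hpp (Nat.dvd_of_mem_primeFactors hp)
    refine ⟨hpp, ?_⟩
    have := hpp.two_le
    omega

end Pool.Agent.Helper379.Lower2
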