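import Mathlib

set_option autoImplicit false

namespace MahlerExp

open Finset Polynomial Filter Nat

/-- Hermite's auxiliary polynomial with distinguished node `j`. -/
noncomputable def HF (m N : ℕ) (k : Fin (m + 1) → ℤ) (j : Fin (m + 1)) : ℤ[X] :=
  (X - C (k j)) ^ (N - 1) * ∏ i ∈ univ.erase j, (X - C (k i)) ^ N

/-- The sum of all the derivatives of `F` at `x`. -/
noncomputable def SF (F : ℤ[X]) (x : ℤ) : ℤ := (sumIDeriv F).eval x

theorem off_dvd (m N : ℕ) (hN : 1 ≤ N) (k : Fin (m + 1) → ℤ) (i j : Fin (m + 1)) (hij : i ≠ j) :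
    ((N ! : ℕ) : ℤ) ∣ SF (HF m N k j) (k i) := by
  obtain ⟨gp, -, hgp⟩ := aeval_sumIDeriv ℤ (HF m N k j) N
  have hdvd : (X - C (k i)) ^ N ∣ (HF m N k j).map (algebraMap ℤ ℤ) := by
    have h1 : (HF m N k j).map (algebraMap ℤ ℤ) = HF m N k j := by
      rw [Algebra.algebraMap_self, Polynomial.map_id]
    rw [h1]
    unfold HF
    refine Dvd.dvd.mul_left ?_ _
    exact Finset.dvd_prod_of_mem (fun i => (X - C (k i)) ^ N) (Finset.mem_erase.2 ⟨hij, Finset.mem_univ _⟩)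
  have h := hgp (k i) hdvd
  unfold SF
  rw [← Polynomial.coe_aeval_eq_eval, h, nsmul_eq_mul]
  exact Dvd.intro _ rfl

theorem diag_eq (m N : ℕ) (hN : 1 ≤ N) (k : Fin (m + 1) → ℤ) (j : Fin (m + 1)) :
    ∃ z : ℤ, SF (HF m N k j) (k j)
      = (((N - 1)! : ℕ) : ℤ) * (∏ i ∈ univ.erase j, (k j - k i) ^ N + (N : ℤ) * z) := by
  obtain ⟨gp, -, h⟩ := aeval_sumIDeriv_of_pos (R := ℤ) (A := ℤ) (HF m N k j) (q := N) hN
    (by simpa using Function.injective_id)
  have h1 := h (k j) (p' := ∏ i ∈ univ.erase j, (X - C (k i)) ^ N) (by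
    rw [Algebra.algebraMap_self, Polynomial.map_id]
    rfl)
  refine ⟨gp.eval (k j), ?_⟩
  unfold SF
  simp only [Polynomial.coe_aeval_eq_eval, nsmul_eq_mul] at h1
  rw [h1, Polynomial.eval_prod]
  have h2 : (∏ i ∈ univ.erase j, ((X - C (k i)) ^ N : ℤ[X]).eval (k j)) =
      ∏ i ∈ univ.erase j, (k j - k i) ^ N := by
    apply Finset.prod_congr rfl
    intro i _
    simp
  rw [h2]
  have h3 : ((N ! : ℕ) : ℤ) = (N : ℤ) * ((N - 1)! : ℕ) := by
    have : N ! = N * (N - 1)! := (Nat.mul_factorial_pred (by omega)).symm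
    rw [this]
    push_cast
    ring
  rw [h3]
  ring

theorem det_ne_of_prime (m : ℕ) (A : Matrix (Fin (m + 1)) (Fin (m + 1)) ℤ) (l : ℕ) (hl : l.Prime)
    (hoff : ∀ i j, i ≠ j → (l : ℤ) ∣ A i j) (hd : ∀ i, ¬ (l : ℤ) ∣ A i i) : A.det ≠ 0 := by
  have : Fact l.Prime := ⟨hl⟩
  intro h0
  have h1 := RingHom.map_det (Int.castRingHom (ZMod l)) A
  rw [h0, map_zero] at h1
  have h2 : (Int.castRingHom (ZMod l)).mapMatrix A =
      Matrix.diagonal (fun i => ((A i i : ℤ) : ZMod l)) := by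
    ext i j
    by_cases h : i = j
    · subst h
      simp [RingHom.mapMatrix_apply]
    · rw [Matrix.diagonal_apply_ne _ h]
      have := (ZMod.intCast_zmod_eq_zero_iff_dvd (A i j) l).2 (hoff i j h)
      simpa [RingHom.mapMatrix_apply] using this
  rw [h2, Matrix.det_diagonal] at h1
  have h3 := Finset.prod_eq_zero_iff.1 h1.symm
  obtain ⟨i, -, hi⟩ := h3
  exact hd i ((ZMod.intCast_zmod_eq_zero_iff_dvd (A i i) l).1 hi)

theorem exists_matrix (m N K l : ℕ) (hN : 1 ≤ N) (hl : l.Prime) (hKl : K < l) (hlN : l ∣ N)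
    (k : Fin (m + 1) → ℤ) (hinj : Function.Injective k) (h0 : ∀ i, 0 ≤ k i) (hK : ∀ i, k i ≤ K) :
    ∃ A : Matrix (Fin (m + 1)) (Fin (m + 1)) ℤ, A.det ≠ 0 ∧
      ∀ j i, (((N - 1)! : ℕ) : ℤ) * A j i = SF (HF m N k j) (k i) := by
  have hlp : Prime (l:ℤ) := Nat.prime_iff_prime_int.mp hl
  have key : ∀ j i, ∃ a : ℤ, (((N - 1)! : ℕ) : ℤ) * a = SF (HF m N k j) (k i) ∧
      (j ≠ i → (l:ℤ) ∣ a) ∧ (j = i → ¬ (l:ℤ) ∣ a) := by
    intro j i
    by_cases hij : j = i
    · subst hij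
      obtain ⟨z, hz⟩ := diag_eq m N hN k j
      refine ⟨_, hz.symm, fun h => absurd rfl h, fun _ hdvd => ?_⟩
      have hlN' : (l:ℤ) ∣ (N:ℤ) * z := Dvd.dvd.mul_right (by exact_mod_cast hlN) z
      have h1 : (l:ℤ) ∣ ∏ i ∈ univ.erase j, (k j - k i) ^ N := (dvd_add_left hlN').mp hdvd
      obtain ⟨i, hi, hdi⟩ := (Prime.dvd_finset_prod_iff hlp _).mp h1
      have h2 := hlp.dvd_of_dvd_pow hdi
      have hne : k j - k i ≠ 0 :=
        sub_ne_zero.mpr (fun h => (Finset.ne_of_mem_erase hi) (hinj h).symm)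
      have h3 := Int.le_of_dvd (abs_pos.mpr hne) ((dvd_abs _ _).mpr h2)
      have h4 : |k j - k i| ≤ K := by
        rw [abs_le]
        constructor
        · linarith [h0 j, hK i]
        · linarith [hK j, h0 i]
      have h5 : (K:ℤ) < l := by exact_mod_cast hKl
      linarith
    · obtain ⟨c, hc⟩ := off_dvd m N hN k i j (Ne.symm hij)
      refine ⟨N * c, ?_, fun _ => ?_, fun h => absurd h hij⟩
      · have h6 : (N ! : ℕ) = N * (N - 1)! := (Nat.mul_factorial_pred (by omega)).symm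
        rw [hc, h6]
        push_cast
        ring
      · exact Dvd.dvd.mul_right (by exact_mod_cast hlN) c
  choose A hA using key
  refine ⟨A, det_ne_of_prime m A l hl (fun i j hij => (hA i j).2.1 hij)
    (fun i => (hA i i).2.2 rfl), fun j i => (hA j i).1⟩

theorem hermite_diff (F : ℤ[X]) (b : ℕ) (B : ℝ)
    (hB : ∀ x : ℝ, 0 ≤ x → x ≤ b → |(F.map (Int.castRingHom ℝ)).eval x| ≤ B) :
    |Real.exp b * (SF F 0 : ℝ) - (SF F (b : ℤ) : ℝ)| ≤ Real.exp b * B := by
  set G : ℝ[X] := (sumIDeriv F).map (Int.castRingHom ℝ) with hG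
  have hGF : G = F.map (Int.castRingHom ℝ) + derivative G := by
    have h1 := congrArg (Polynomial.map (Int.castRingHom ℝ)) (sumIDeriv_eq_self_add F)
    rw [Polynomial.map_add, ← Polynomial.derivative_map] at h1
    exact h1
  have hev : ∀ x : ℤ, G.eval (x : ℝ) = (SF F x : ℝ) := by
    intro x
    rw [hG, SF, Polynomial.eval_intCast_map]
    rfl
  have hb0 : (0 : ℝ) ≤ b := Nat.cast_nonneg b
  have hexp : ∀ x : ℝ, HasDerivAt (fun y : ℝ => Real.exp (-y)) (-Real.exp (-x)) x := by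
    intro x
    have := (hasDerivAt_neg x).exp
    simpa using this
  have hd : ∀ x : ℝ, HasDerivAt (fun y : ℝ => Real.exp (-y) * G.eval y)
      (-(Real.exp (-x) * (F.map (Int.castRingHom ℝ)).eval x)) x := by
    intro x
    have h1 := (hexp x).mul (G.hasDerivAt x)
    refine h1.congr_deriv ?_
    have h2 := congrArg (Polynomial.eval x) hGF
    rw [Polynomial.eval_add] at h2
    show -Real.exp (-x) * G.eval x + Real.exp (-x) * G.derivative.eval x = _
    linear_combination (-Real.exp (-x)) * h2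
  have hcont : Continuous (fun x : ℝ => -(Real.exp (-x) * (F.map (Int.castRingHom ℝ)).eval x)) :=
    ((Real.continuous_exp.comp continuous_neg).mul (Polynomial.continuous _)).neg
  have hcontB : Continuous (fun x : ℝ => B * Real.exp (-x)) :=
    continuous_const.mul (Real.continuous_exp.comp continuous_neg)
  have hI := intervalIntegral.integral_eq_sub_of_hasDerivAt (a := (0 : ℝ)) (b := (b : ℝ))
    (fun x _ => hd x) (hcont.intervalIntegrable _ _)
  have hJ := intervalIntegral.integral_eq_sub_of_hasDerivAt (a := (0 : ℝ)) (b := (b : ℝ))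
    (f := fun x => -(B * Real.exp (-x))) (f' := fun x => B * Real.exp (-x))
    (fun x _ => by
      have := ((hexp x).const_mul B).neg
      refine this.congr_deriv ?_
      ring) (hcontB.intervalIntegrable _ _)
  have hle : ‖∫ x in (0 : ℝ)..b, -(Real.exp (-x) * (F.map (Int.castRingHom ℝ)).eval x)‖ ≤
      ∫ x in (0 : ℝ)..b, B * Real.exp (-x) := by
    apply intervalIntegral.norm_integral_le_of_norm_le hb0 _ (hcontB.intervalIntegrable _ _)
    refine Filter.Eventually.of_forall fun x hx => ?_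
    rw [norm_neg, norm_mul, Real.norm_eq_abs, Real.norm_eq_abs, abs_of_pos (Real.exp_pos _),
      mul_comm]
    exact mul_le_mul_of_nonneg_right (hB x hx.1.le hx.2) (Real.exp_pos _).le
  rw [hI, hJ] at hle
  have hB0 : 0 ≤ B := (abs_nonneg _).trans (hB 0 le_rfl hb0)
  have h0 : G.eval 0 = (SF F 0 : ℝ) := by simpa using hev 0
  have hb : G.eval (b : ℝ) = (SF F (b : ℤ) : ℝ) := by simpa using hev (b : ℤ)
  rw [h0, hb, Real.norm_eq_abs, neg_zero, Real.exp_zero, one_mul] at hle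
  have hkey : Real.exp b * (SF F 0 : ℝ) - (SF F (b : ℤ) : ℝ) =
      -(Real.exp b * (Real.exp (-(b : ℝ)) * (SF F (b : ℤ) : ℝ) - (SF F 0 : ℝ))) := by
    have : Real.exp b * Real.exp (-(b : ℝ)) = 1 := by rw [← Real.exp_add]; simp
    linear_combination (SF F (b : ℤ) : ℝ) * this
  rw [hkey, abs_neg, abs_mul, abs_of_pos (Real.exp_pos _)]
  apply mul_le_mul_of_nonneg_left _ (Real.exp_pos _).le
  have h3 : 0 ≤ B * Real.exp (-(b : ℝ)) := mul_nonneg hB0 (Real.exp_pos _).le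
  linarith

theorem HF_bound (m N K : ℕ) (hK1 : 1 ≤ K) (hN : 1 ≤ N) (k : Fin (m + 1) → ℤ) (h0 : ∀ i, 0 ≤ k i)
    (hK : ∀ i, k i ≤ K) (j : Fin (m + 1)) (x : ℝ) (hx0 : 0 ≤ x) (hxK : x ≤ K) :
    |((HF m N k j).map (Int.castRingHom ℝ)).eval x| ≤ (K : ℝ) ^ ((m + 1) * N - 1) := by
  have hb : ∀ i, |x - (k i : ℝ)| ≤ (K : ℝ) := by
    intro i
    have h1 : (0 : ℝ) ≤ (k i : ℝ) := by exact_mod_cast h0 i
    have h2 : (k i : ℝ) ≤ (K : ℝ) := by exact_mod_cast hK i
    rw [abs_le]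
    constructor <;> linarith
  have he : ((HF m N k j).map (Int.castRingHom ℝ)).eval x =
      (x - (k j : ℝ)) ^ (N - 1) * ∏ i ∈ univ.erase j, (x - (k i : ℝ)) ^ N := by
    unfold HF
    simp only [Polynomial.map_mul, Polynomial.map_pow, Polynomial.map_prod, Polynomial.map_sub,
      Polynomial.map_X, Polynomial.map_C, Polynomial.eval_mul, Polynomial.eval_pow,
      Polynomial.eval_prod, Polynomial.eval_sub, Polynomial.eval_X, Polynomial.eval_C,
      Int.coe_castRingHom]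
  have hcard : (univ.erase j : Finset (Fin (m + 1))).card = m := by
    rw [Finset.card_erase_of_mem (Finset.mem_univ j), Finset.card_univ, Fintype.card_fin,
      Nat.add_sub_cancel]
  rw [he, abs_mul, abs_pow, Finset.abs_prod]
  have h1 : |x - (k j : ℝ)| ^ (N - 1) ≤ (K : ℝ) ^ (N - 1) :=
    pow_le_pow_left₀ (abs_nonneg _) (hb j) _
  have h2 : ∏ i ∈ univ.erase j, |(x - (k i : ℝ)) ^ N| ≤ (K : ℝ) ^ (N * m) := by
    have h3 : ∏ i ∈ univ.erase j, |(x - (k i : ℝ)) ^ N| ≤ ∏ i ∈ univ.erase j, (K : ℝ) ^ N := by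
      refine Finset.prod_le_prod (fun i _ => abs_nonneg _) (fun i _ => ?_)
      rw [abs_pow]
      exact pow_le_pow_left₀ (abs_nonneg _) (hb i) _
    rw [Finset.prod_const, hcard, ← pow_mul] at h3
    exact h3
  have h4 : (m + 1) * N - 1 = (N - 1) + N * m := by
    have : (m + 1) * N = N + N * m := by ring
    omega
  rw [h4, pow_add]
  exact mul_le_mul h1 h2 (Finset.prod_nonneg fun i _ => abs_nonneg _) (by positivity)

theorem HF_diff (m N K : ℕ) (hK1 : 1 ≤ K) (hN : 1 ≤ N) (k : Fin (m + 1) → ℤ) (h0 : ∀ i, 0 ≤ k i)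
    (hK : ∀ i, k i ≤ K) (i j : Fin (m + 1)) :
    |Real.exp (k i) * (SF (HF m N k j) 0 : ℝ) - (SF (HF m N k j) (k i) : ℝ)|
      ≤ Real.exp K * (K : ℝ) ^ ((m + 1) * N - 1) := by
  have hb : (((k i).toNat : ℕ) : ℤ) = k i := Int.toNat_of_nonneg (h0 i)
  have hbr : (((k i).toNat : ℕ) : ℝ) = (k i : ℝ) := by
    have := congrArg (fun z : ℤ => (z : ℝ)) hb
    rw [← this]
    exact (Int.cast_natCast _).symm
  have hle : ((k i : ℤ) : ℝ) ≤ (K : ℝ) := by
    have := hK i
    exact_mod_cast this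
  have h := hermite_diff (HF m N k j) (k i).toNat ((K : ℝ) ^ ((m + 1) * N - 1)) (by
    intro x hx0 hxb
    apply HF_bound m N K hK1 hN k h0 hK j x hx0
    rw [hbr] at hxb
    exact hxb.trans hle)
  rw [hb, hbr] at h
  refine h.trans ?_
  apply mul_le_mul_of_nonneg_right _ (by positivity)
  exact Real.exp_le_exp.2 hle

def SZDom (F G : ℤ[X]) : Prop := ∀ l, |F.coeff l| ≤ G.coeff l

theorem SZDom.mul {F1 G1 F2 G2 : ℤ[X]} (h1 : SZDom F1 G1) (h2 : SZDom F2 G2) :
    SZDom (F1 * F2) (G1 * G2) := by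
  intro l
  rw [coeff_mul, coeff_mul]
  refine (Finset.abs_sum_le_sum_abs _ _).trans (Finset.sum_le_sum fun x _ => ?_)
  rw [abs_mul]
  exact mul_le_mul (h1 _) (h2 _) (abs_nonneg _) ((abs_nonneg _).trans (h1 _))

theorem SZDom.one : SZDom 1 1 := by
  intro l
  rw [coeff_one]
  split_ifs <;> simp

theorem SZDom.pow {F G : ℤ[X]} (h : SZDom F G) (n : ℕ) : SZDom (F ^ n) (G ^ n) := by
  induction n with
  | zero => simpa using SZDom.one
  | succ n ih => rw [pow_succ, pow_succ]; exact ih.mul h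

theorem SZDom.prod {ι : Type*} (s : Finset ι) (F G : ι → ℤ[X]) (h : ∀ i ∈ s, SZDom (F i) (G i)) :
    SZDom (∏ i ∈ s, F i) (∏ i ∈ s, G i) := by
  classical
  induction s using Finset.induction_on with
  | empty => simpa using SZDom.one
  | insert a s ha ih =>
    rw [Finset.prod_insert ha, Finset.prod_insert ha]
    exact (h a (Finset.mem_insert_self _ _)).mul (ih fun i hi => h i (Finset.mem_insert_of_mem hi))

theorem SZDom.lin (k K : ℤ) (h0 : 0 ≤ k) (h1 : k ≤ K) : SZDom (X - C k) (X + C K) := by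
  intro l
  rcases l with _ | _ | l
  · simp [abs_of_nonneg h0, h1]
  · rw [coeff_sub, coeff_add, coeff_C_succ, coeff_C_succ]
    simp
  · rw [coeff_sub, coeff_add, coeff_C_succ, coeff_C_succ]
    simp [coeff_X]

theorem SF_zero_bound (m N K : ℕ) (hK1 : 1 ≤ K) (hN : 1 ≤ N) (k : Fin (m + 1) → ℤ)
    (h0 : ∀ i, 0 ≤ k i) (hK : ∀ i, k i ≤ K) (j : Fin (m + 1)) :
    |SF (HF m N k j) 0| ≤ (2 * (K : ℤ)) ^ ((m + 1) * N - 1) * ((((m + 1) * N - 1)! : ℕ) : ℤ) := by
  classical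
  have hMe : N - 1 + m * N = (m + 1) * N - 1 := by
    have : (m + 1) * N = m * N + N := by ring
    omega
  have hD : SZDom (HF m N k j) ((X + C (K : ℤ)) ^ ((m + 1) * N - 1)) := by
    have h2 := (((SZDom.lin (k j) K (h0 j) (hK j)).pow (N - 1))).mul
      (SZDom.prod (univ.erase j) (fun i => (X - C (k i)) ^ N) (fun _ => (X + C (K : ℤ)) ^ N)
        (fun i _ => (SZDom.lin (k i) K (h0 i) (hK i)).pow N))
    have h3 : (X + C (K : ℤ)) ^ (N - 1) * ∏ _i ∈ univ.erase j, (X + C (K : ℤ)) ^ N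
        = (X + C (K : ℤ)) ^ ((m + 1) * N - 1) := by
      rw [Finset.prod_const, Finset.card_erase_of_mem (Finset.mem_univ j), Finset.card_univ,
        Fintype.card_fin, ← pow_mul, ← pow_add]
      congr 1
      rw [← hMe]
      simp [mul_comm]
    rw [h3] at h2
    exact h2
  generalize hM : (m + 1) * N - 1 = M at hD ⊢
  generalize HF m N k j = F at hD ⊢
  have hGd : ((X + C (K : ℤ)) ^ M).natDegree ≤ M := by
    rw [natDegree_pow, natDegree_X_add_C, mul_one]
  have hFd : F.natDegree ≤ M := by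
    rw [natDegree_le_iff_coeff_eq_zero]
    intro l hl
    have h1 := hD l
    rw [coeff_eq_zero_of_natDegree_lt (lt_of_le_of_lt hGd hl)] at h1
    exact abs_nonpos_iff.1 h1
  have hS : SF F 0 = ∑ l ∈ range (M + 1), ((l ! : ℕ) : ℤ) * F.coeff l := by
    unfold SF
    rw [sumIDeriv_apply_of_le hFd, eval_finset_sum]
    refine Finset.sum_congr rfl fun l _ => ?_
    rw [← coeff_zero_eq_eval_zero, coeff_iterate_derivative, zero_add, Nat.descFactorial_self]
    simp
  rw [hS]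
  have hG1 : ∑ l ∈ range (M + 1), ((X + C (K : ℤ)) ^ M).coeff l = (1 + (K : ℤ)) ^ M := by
    have h1 := eval_eq_sum_range' (Nat.lt_succ_of_le hGd) (1 : ℤ)
    simp only [eval_pow, eval_add, eval_X, eval_C, one_pow, mul_one] at h1
    rw [h1]
  calc |∑ l ∈ range (M + 1), ((l ! : ℕ) : ℤ) * F.coeff l|
      ≤ ∑ l ∈ range (M + 1), |((l ! : ℕ) : ℤ) * F.coeff l| := Finset.abs_sum_le_sum_abs _ _
    _ ≤ ∑ l ∈ range (M + 1), ((M ! : ℕ) : ℤ) * ((X + C (K : ℤ)) ^ M).coeff l := by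
        refine Finset.sum_le_sum fun l hl => ?_
        rw [abs_mul]
        have hl' : l ≤ M := Nat.lt_succ_iff.1 (Finset.mem_range.1 hl)
        have h2 : |((l ! : ℕ) : ℤ)| ≤ ((M ! : ℕ) : ℤ) := by
          rw [abs_of_nonneg (by positivity)]
          exact_mod_cast Nat.factorial_le hl'
        exact mul_le_mul h2 (hD l) (abs_nonneg _) (by positivity)
    _ = ((M ! : ℕ) : ℤ) * (1 + (K : ℤ)) ^ M := by rw [← Finset.mul_sum, hG1]
    _ ≤ ((M ! : ℕ) : ℤ) * (2 * (K : ℤ)) ^ M := by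
        apply mul_le_mul_of_nonneg_left _ (by positivity)
        apply pow_le_pow_left₀ (by positivity)
        have : (1 : ℤ) ≤ K := by exact_mod_cast hK1
        linarith
    _ = (2 * (K : ℤ)) ^ M * ((M ! : ℕ) : ℤ) := mul_comm _ _

theorem exists_updateRow (m : ℕ) (A : Matrix (Fin (m + 1)) (Fin (m + 1)) ℤ) (hA : A.det ≠ 0)
    (v : Fin (m + 1) → ℤ) (hv : v ≠ 0) : ∃ j, (A.updateRow j v).det ≠ 0 := by
  by_contra hcon
  push Not at hcon
  have h1 : Matrix.cramer A.transpose v = 0 := by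
    funext i
    rw [Matrix.cramer_transpose_apply]
    exact hcon i
  have h2 := Matrix.mulVec_cramer A.transpose v
  rw [h1, Matrix.mulVec_zero, Matrix.det_transpose] at h2
  apply hv
  funext i
  have h3 := congrFun h2 i
  simp only [Pi.zero_apply, Pi.smul_apply, smul_eq_mul] at h3
  rcases mul_eq_zero.1 h3.symm with h | h
  · exact absurd h hA
  · simpa using h

theorem det_bound (m : ℕ) (hm : 1 ≤ m) (B : Matrix (Fin (m + 1)) (Fin (m + 1)) ℝ)
    (t : Fin (m + 1) → ℝ) (j0 : Fin (m + 1)) (q d Q E : ℝ) (hq : 0 ≤ q) (hd : 0 ≤ d) (hQ : 0 ≤ Q)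
    (hE : 0 ≤ E) (h1 : |B j0 0| ≤ q) (h2 : ∀ i, i ≠ 0 → |t i * B j0 0 - B j0 i| ≤ d)
    (h3 : ∀ j, j ≠ j0 → |B j 0| ≤ Q)
    (h4 : ∀ j, j ≠ j0 → ∀ i, i ≠ 0 → |t i * B j 0 - B j i| ≤ E) :
    |B.det| ≤ ((m + 1)! : ℝ) * (q * E ^ m + Q * d * E ^ (m - 1)) := by
  classical
  set M : Matrix (Fin (m + 1)) (Fin (m + 1)) ℝ :=
    fun i r => B r i + (if i = 0 then 0 else -t i) * B r 0 with hM
  have hdet : M.det = B.det := by
    rw [← Matrix.det_transpose B]
    apply Matrix.det_eq_of_forall_row_eq_smul_add_const (fun i => if i = 0 then 0 else -t i) 0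
      (by simp)
    intro i r
    simp [hM, Matrix.transpose_apply]
  have hM0 : ∀ r, M 0 r = B r 0 := by intro r; simp [hM]
  have hMi : ∀ i, i ≠ 0 → ∀ r, |M i r| = |t i * B r 0 - B r i| := by
    intro i hi r
    rw [abs_sub_comm]
    congr 1
    simp only [hM, if_neg hi]
    ring
  rw [← hdet, Matrix.det_apply]
  have key : ∀ σ : Equiv.Perm (Fin (m + 1)),
      |Equiv.Perm.sign σ • ∏ i, M (σ i) i| ≤ q * E ^ m + Q * d * E ^ (m - 1) := by
    intro σ
    have h0 : |Equiv.Perm.sign σ • ∏ i, M (σ i) i| = ∏ i, |M (σ i) i| := by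
      rcases Int.units_eq_one_or (Equiv.Perm.sign σ) with h | h <;> rw [h] <;>
        simp [Finset.abs_prod, Units.smul_def]
    rw [h0, ← Finset.mul_prod_erase Finset.univ _ (Finset.mem_univ j0)]
    have hqE : 0 ≤ q * E ^ m := by positivity
    have hQE : 0 ≤ Q * d * E ^ (m - 1) := by positivity
    by_cases hc : σ j0 = 0
    · have h5 : ∏ i ∈ Finset.univ.erase j0, |M (σ i) i| ≤ E ^ m := by
        calc ∏ i ∈ Finset.univ.erase j0, |M (σ i) i|
            ≤ ∏ _i ∈ Finset.univ.erase j0, E := by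
              apply Finset.prod_le_prod (fun i _ => abs_nonneg _)
              intro i hi
              have hi' : i ≠ j0 := (Finset.mem_erase.1 hi).1
              have hs : σ i ≠ 0 := fun h => hi' (σ.injective (h.trans hc.symm))
              rw [hMi _ hs]
              exact h4 i hi' _ hs
          _ = E ^ m := by
              rw [Finset.prod_const, Finset.card_erase_of_mem (Finset.mem_univ _)]
              simp
      have h6 : |M (σ j0) j0| ≤ q := by rw [hc, hM0]; exact h1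
      have : |M (σ j0) j0| * ∏ i ∈ Finset.univ.erase j0, |M (σ i) i| ≤ q * E ^ m :=
        mul_le_mul h6 h5 (Finset.prod_nonneg (fun i _ => abs_nonneg _)) hq
      linarith
    · have hj1 : σ.symm 0 ≠ j0 := by
        intro h
        exact hc (by rw [← h]; simp)
      have hmem : σ.symm 0 ∈ Finset.univ.erase j0 :=
        Finset.mem_erase.2 ⟨hj1, Finset.mem_univ _⟩
      rw [← Finset.mul_prod_erase (Finset.univ.erase j0) _ hmem]
      have h5 : ∏ i ∈ (Finset.univ.erase j0).erase (σ.symm 0), |M (σ i) i| ≤ E ^ (m - 1) := by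
        calc ∏ i ∈ (Finset.univ.erase j0).erase (σ.symm 0), |M (σ i) i|
            ≤ ∏ _i ∈ (Finset.univ.erase j0).erase (σ.symm 0), E := by
              apply Finset.prod_le_prod (fun i _ => abs_nonneg _)
              intro i hi
              have hi1 : i ≠ σ.symm 0 := (Finset.mem_erase.1 hi).1
              have hi' : i ≠ j0 := (Finset.mem_erase.1 (Finset.mem_erase.1 hi).2).1
              have hs : σ i ≠ 0 := fun h => hi1 (by rw [← h]; simp)
              rw [hMi _ hs]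
              exact h4 i hi' _ hs
          _ = E ^ (m - 1) := by
              rw [Finset.prod_const, Finset.card_erase_of_mem hmem,
                Finset.card_erase_of_mem (Finset.mem_univ _)]
              simp
      have h6 : |M (σ j0) j0| ≤ d := by rw [hMi _ hc]; exact h2 _ hc
      have h7 : |M (σ (σ.symm 0)) (σ.symm 0)| ≤ Q := by
        rw [Equiv.apply_symm_apply, hM0]; exact h3 _ hj1
      have h8 : |M (σ (σ.symm 0)) (σ.symm 0)| *
          ∏ i ∈ (Finset.univ.erase j0).erase (σ.symm 0), |M (σ i) i| ≤ Q * E ^ (m - 1) :=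
        mul_le_mul h7 h5 (Finset.prod_nonneg (fun i _ => abs_nonneg _)) hQ
      have h9 : |M (σ j0) j0| * (|M (σ (σ.symm 0)) (σ.symm 0)| *
          ∏ i ∈ (Finset.univ.erase j0).erase (σ.symm 0), |M (σ i) i|) ≤ d * (Q * E ^ (m - 1)) :=
        mul_le_mul h6 h8 (mul_nonneg (abs_nonneg _)
          (Finset.prod_nonneg (fun i _ => abs_nonneg _))) hd
      have h10 : d * (Q * E ^ (m - 1)) = Q * d * E ^ (m - 1) := by ring
      linarith
  calc |∑ σ : Equiv.Perm (Fin (m + 1)), Equiv.Perm.sign σ • ∏ i, M (σ i) i|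
      ≤ ∑ σ : Equiv.Perm (Fin (m + 1)), |Equiv.Perm.sign σ • ∏ i, M (σ i) i| :=
        Finset.abs_sum_le_sum_abs _ _
    _ ≤ ∑ _σ : Equiv.Perm (Fin (m + 1)), (q * E ^ m + Q * d * E ^ (m - 1)) :=
        Finset.sum_le_sum (fun σ _ => key σ)
    _ = ((m + 1)! : ℝ) * (q * E ^ m + Q * d * E ^ (m - 1)) := by
        rw [Finset.sum_const, Finset.card_univ, Fintype.card_perm, Fintype.card_fin, nsmul_eq_mul]

theorem key (m N K l : ℕ) (hm : 1 ≤ m) (hN : 1 ≤ N) (hK1 : 1 ≤ K) (hl : l.Prime) (hKl : K < l)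
    (hlN : l ∣ N) (k : Fin (m + 1) → ℤ) (hinj : Function.Injective k) (hk0 : k 0 = 0)
    (h0 : ∀ i, 0 ≤ k i) (hK : ∀ i, k i ≤ K) (p : Fin (m + 1) → ℤ) (hp : p 0 ≠ 0) (d : ℝ)
    (hd : ∀ i, |Real.exp (k i) * (p 0 : ℝ) - (p i : ℝ)| ≤ d) :
    1 ≤ ((m + 1)! : ℝ) *
      (|(p 0 : ℝ)| * (Real.exp K * (K : ℝ) ^ ((m + 1) * N - 1) / ((N - 1)! : ℝ)) ^ m
        + ((2 * (K : ℝ)) ^ ((m + 1) * N - 1) * (((m + 1) * N - 1)! : ℝ) / ((N - 1)! : ℝ)) * d
          * (Real.exp K * (K : ℝ) ^ ((m + 1) * N - 1) / ((N - 1)! : ℝ)) ^ (m - 1)) := by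
  obtain ⟨A, hA, hAe⟩ := exists_matrix m N K l hN hl hKl hlN k hinj h0 hK
  have hp0 : p ≠ 0 := by
    intro h
    apply hp
    rw [h]
    rfl
  obtain ⟨j0, hj0⟩ := exists_updateRow m A hA p hp0
  have hd0 : 0 ≤ d := (abs_nonneg _).trans (hd 0)
  have hf : (0 : ℝ) < ((N - 1)! : ℝ) := by exact_mod_cast Nat.factorial_pos _
  have hKr : (0 : ℝ) ≤ (K : ℝ) := Nat.cast_nonneg _
  have hE : 0 ≤ Real.exp K * (K : ℝ) ^ ((m + 1) * N - 1) / ((N - 1)! : ℝ) := by positivity
  have hQ : 0 ≤ (2 * (K : ℝ)) ^ ((m + 1) * N - 1) * (((m + 1) * N - 1)! : ℝ) / ((N - 1)! : ℝ) := by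
    positivity
  have hrow : ∀ i, ((A.updateRow j0 p).map (fun x : ℤ => (x : ℝ))) j0 i = (p i : ℝ) := by
    intro i
    rw [Matrix.map_apply, Matrix.updateRow_self]
  have hrow' : ∀ j, j ≠ j0 → ∀ i, ((A.updateRow j0 p).map (fun x : ℤ => (x : ℝ))) j i =
      (A j i : ℝ) := by
    intro j hj i
    rw [Matrix.map_apply, Matrix.updateRow_ne hj]
  have hAr : ∀ j i, ((N - 1)! : ℝ) * (A j i : ℝ) = (SF (HF m N k j) (k i) : ℝ) := by
    intro j i
    have := hAe j i
    rw [← this]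
    push_cast
    ring
  have h := det_bound m hm ((A.updateRow j0 p).map (fun x : ℤ => (x : ℝ)))
    (fun i => Real.exp (k i)) j0 |(p 0 : ℝ)| d
    ((2 * (K : ℝ)) ^ ((m + 1) * N - 1) * (((m + 1) * N - 1)! : ℝ) / ((N - 1)! : ℝ))
    (Real.exp K * (K : ℝ) ^ ((m + 1) * N - 1) / ((N - 1)! : ℝ)) (abs_nonneg _) hd0 hQ hE
    (by rw [hrow]) (by
      intro i _
      rw [hrow, hrow]
      exact hd i) (by
      intro j hj
      rw [hrow' j hj, le_div_iff₀ hf]
      have h1 := SF_zero_bound m N K hK1 hN k h0 hK j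
      have h2 : (|SF (HF m N k j) 0| : ℝ) ≤ (2 * (K : ℝ)) ^ ((m + 1) * N - 1) *
          (((m + 1) * N - 1)! : ℝ) := by
        have h3 : ((|SF (HF m N k j) 0| : ℤ) : ℝ) ≤
          (((2 * (K : ℤ)) ^ ((m + 1) * N - 1) * ((((m + 1) * N - 1)! : ℕ) : ℤ) : ℤ) : ℝ) := by
          exact_mod_cast h1
        push_cast at h3
        exact h3
      have h4 := hAr j 0
      rw [hk0] at h4
      rw [← h4, abs_mul, abs_of_pos hf] at h2
      linarith) (by
      intro j hj i _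
      rw [hrow' j hj, hrow' j hj, le_div_iff₀ hf]
      have h1 := HF_diff m N K hK1 hN k h0 hK i j
      have h4 := hAr j 0
      rw [hk0] at h4
      rw [← h4, ← hAr j i] at h1
      have h5 : Real.exp (k i) * (((N - 1)! : ℝ) * (A j 0 : ℝ)) - ((N - 1)! : ℝ) * (A j i : ℝ) =
          ((N - 1)! : ℝ) * (Real.exp (k i) * (A j 0 : ℝ) - (A j i : ℝ)) := by ring
      rw [h5, abs_mul, abs_of_pos hf] at h1
      show |Real.exp (k i) * (A j 0 : ℝ) - (A j i : ℝ)| * ((N - 1)! : ℝ) ≤ _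
      linarith)
  refine le_trans ?_ h
  have h1 : ((A.updateRow j0 p).map (fun x : ℤ => (x : ℝ))).det =
      (((A.updateRow j0 p).det : ℤ) : ℝ) := (Int.cast_det _).symm
  rw [h1, ← Int.cast_abs]
  exact_mod_cast Int.one_le_abs hj0

theorem asym_N (θ η κ : ℝ) (hθ : 0 < θ) (hη : 0 < η) (hκ0 : 0 < κ) (hκ1 : κ < 1) :
    ∀ᶠ n : ℕ in atTop, ∀ l : ℕ, 1 ≤ l → (l : ℝ) ≤ 2 * (n : ℝ) ^ κ →
      ∃ N : ℕ, 1 ≤ N ∧ l ∣ N ∧ θ * n ≤ N * Real.log n ∧ N * Real.log n ≤ (θ + η) * n := by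
  have h1 : ∀ᶠ x : ℝ in atTop, ‖Real.log x‖ ≤ (η / 2) * ‖x ^ (1 - κ)‖ :=
    (isLittleO_log_rpow_atTop (by linarith : 0 < 1 - κ)).bound (by positivity)
  have h2 := tendsto_natCast_atTop_atTop (R := ℝ) |>.eventually h1
  filter_upwards [h2, eventually_ge_atTop 3] with n hn hn3 l hl hl2
  have hn3' : (3 : ℝ) ≤ n := by exact_mod_cast hn3
  have hn0 : (0 : ℝ) < n := by linarith
  have hlog : 0 < Real.log n := Real.log_pos (by linarith)
  have hl' : (1 : ℝ) ≤ l := by exact_mod_cast hl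
  have hl0 : (0 : ℝ) < l := by linarith
  rw [Real.norm_of_nonneg hlog.le, Real.norm_of_nonneg (Real.rpow_nonneg hn0.le _)] at hn
  have hq : 0 < θ * n / (l * Real.log n) := by positivity
  refine ⟨l * ⌈θ * n / (l * Real.log n)⌉₊, ?_, Dvd.intro _ rfl, ?_, ?_⟩
  · have : 0 < ⌈θ * n / (l * Real.log n)⌉₊ := Nat.ceil_pos.2 hq
    exact Nat.mul_pos hl this
  · have h3 := Nat.le_ceil (θ * n / (l * Real.log n))
    rw [div_le_iff₀ (by positivity)] at h3
    push_cast
    linarith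
  · have h3 := (Nat.ceil_lt_add_one hq.le).le
    have h4 : (⌈θ * n / (l * Real.log n)⌉₊ : ℝ) * (l * Real.log n) ≤
        θ * n + l * Real.log n := by
      calc (⌈θ * n / (l * Real.log n)⌉₊ : ℝ) * (l * Real.log n)
          ≤ (θ * n / (l * Real.log n) + 1) * (l * Real.log n) := by
            apply mul_le_mul_of_nonneg_right h3 (by positivity)
        _ = θ * n + l * Real.log n := by
            field_simp
    have h5 : (l : ℝ) * Real.log n ≤ η * n := by
      calc (l : ℝ) * Real.log n ≤ (2 * (n : ℝ) ^ κ) * (η / 2 * (n : ℝ) ^ (1 - κ)) := by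
            apply mul_le_mul hl2 hn hlog.le (by positivity)
        _ = η * ((n : ℝ) ^ κ * (n : ℝ) ^ (1 - κ)) := by ring
        _ = η * n := by
            rw [← Real.rpow_add hn0, add_sub_cancel, Real.rpow_one]
    push_cast
    linarith

theorem fact_lower_h1 (y : ℕ) : (y : ℝ) * Real.log y - y ≤ Real.log ((y ! : ℕ) : ℝ) := by
  rcases Nat.eq_zero_or_pos y with rfl | hy
  · simp
  have hy' : (0 : ℝ) < y := by exact_mod_cast hy
  have hf : (0 : ℝ) < ((y ! : ℕ) : ℝ) := by exact_mod_cast Nat.factorial_pos y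
  have h1 := Real.pow_div_factorial_le_exp (y : ℝ) hy'.le y
  rw [div_le_iff₀ hf] at h1
  have h2 := Real.log_le_log (pow_pos hy' y) h1
  rw [Real.log_pow, Real.log_mul (Real.exp_pos _).ne' hf.ne', Real.log_exp] at h2
  linarith

theorem fact_lower (B η : ℝ) (hB : 0 < B) (hη : 0 < η) :
    ∀ᶠ n : ℕ in atTop, ∀ N : ℕ, 1 ≤ N → N * Real.log n ≤ B * n →
      N * Real.log n - η * n ≤ Real.log ((N - 1)! : ℝ) := by
  
  set A : ℝ := 2 / η + 1 with hA
  have hA1 : 1 ≤ A := by rw [hA]; have : 0 < 2 / η := by positivity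
                         linarith
  have hA0 : 0 < A := by linarith
  have hlogA : 0 ≤ Real.log A := Real.log_nonneg hA1
  have hAη : 1 / A ≤ η / 2 := by
    rw [div_le_iff₀ hA0, hA]
    have : η / 2 * (2 / η + 1) = 1 + η / 2 := by field_simp
    rw [this]; linarith
  have hlogt : Tendsto (fun n : ℕ => Real.log (n : ℝ)) atTop atTop :=
    Real.tendsto_log_atTop.comp tendsto_natCast_atTop_atTop
  have hlo : ∀ᶠ n : ℕ in atTop, Real.log (n : ℝ) ≤ η / 4 * n := by
    have h1 : ∀ᶠ x : ℝ in atTop, ‖Real.log x‖ ≤ η / 4 * ‖x‖ :=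
      Real.isLittleO_log_id_atTop.bound (by positivity)
    have h2 := tendsto_natCast_atTop_atTop (R := ℝ) |>.eventually h1
    filter_upwards [h2] with n hn
    rw [Real.norm_eq_abs, Real.norm_eq_abs, abs_of_nonneg (Nat.cast_nonneg n : (0:ℝ) ≤ n)] at hn
    exact (le_abs_self _).trans hn
  filter_upwards [hlogt.eventually_ge_atTop (4 * B * Real.log A / η + 1), hlo,
    eventually_ge_atTop 1] with n h1 h2 h3 N hN hNB
  have hn : (0 : ℝ) < n := by exact_mod_cast h3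
  have hlogn : 0 < Real.log n := by
    have : 0 ≤ 4 * B * Real.log A / η := by positivity
    linarith
  have h4 : 4 * B * Real.log A ≤ η * Real.log n := by
    have : 4 * B * Real.log A / η ≤ Real.log n := by linarith
    rw [div_le_iff₀ hη] at this
    linarith
  obtain ⟨y, rfl⟩ : ∃ y, N = y + 1 := ⟨N - 1, by omega⟩
  have hfl := fact_lower_h1 y
  simp only [Nat.add_sub_cancel]
  push_cast at hNB ⊢
  have hyA : (y : ℝ) * Real.log A ≤ η / 4 * n := by
    have h5 : (y : ℝ) * Real.log n ≤ B * n := by nlinarith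
    have h6 : ((y : ℝ) * Real.log A) * Real.log n ≤ (η / 4 * n) * Real.log n := by
      calc ((y : ℝ) * Real.log A) * Real.log n = Real.log A * ((y : ℝ) * Real.log n) := by ring
        _ ≤ Real.log A * (B * n) := mul_le_mul_of_nonneg_left h5 hlogA
        _ = (4 * B * Real.log A) * (n / 4) := by ring
        _ ≤ (η * Real.log n) * (n / 4) := mul_le_mul_of_nonneg_right h4 (by positivity)
        _ = (η / 4 * n) * Real.log n := by ring
    exact le_of_mul_le_mul_right h6 hlogn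
  have hylog : (y : ℝ) * Real.log n ≤ y * Real.log y + n / A + y * Real.log A - y := by
    rcases Nat.eq_zero_or_pos y with rfl | hy
    · simp only [Nat.cast_zero, zero_mul, zero_add, add_zero, sub_zero]
      positivity
    have hy' : (0 : ℝ) < y := by exact_mod_cast hy
    have h5 := Real.log_le_sub_one_of_pos (show (0 : ℝ) < n / (y * A) by positivity)
    rw [Real.log_div hn.ne' (by positivity), Real.log_mul hy'.ne' hA0.ne'] at h5
    have h6 := mul_le_mul_of_nonneg_left h5 hy'.le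
    have h7 : (y : ℝ) * (n / (y * A) - 1) = n / A - y := by field_simp
    rw [h7] at h6
    linarith
  have hnA : (n : ℝ) / A ≤ η / 2 * n := by
    rw [div_eq_mul_one_div, mul_comm]
    exact mul_le_mul_of_nonneg_right hAη hn.le
  have : ((y : ℝ) + 1) * Real.log n = y * Real.log n + Real.log n := by ring
  rw [this]
  linarith

theorem fact_upper (m : ℕ) (B η : ℝ) (hB : 0 < B) (hη : 0 < η) :
    ∀ᶠ n : ℕ in atTop, ∀ N : ℕ, 1 ≤ N → N * Real.log n ≤ B * n →
      Real.log (((m + 1) * N - 1)! : ℝ) ≤ (m + 1) * (N * Real.log n) + η * n := by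
  have hlog : Tendsto (fun n : ℕ => Real.log (n : ℝ)) atTop atTop :=
    Real.tendsto_log_atTop.comp tendsto_natCast_atTop_atTop
  filter_upwards [hlog.eventually_ge_atTop B, hlog.eventually_ge_atTop 1,
    hlog.eventually_ge_atTop (((m : ℝ) + 1) * Real.log ((m : ℝ) + 1) * B / η),
    eventually_ge_atTop 1] with n h1 h2 h3 h4
  intro N hN hNB
  have hL : 0 < Real.log (n : ℝ) := by linarith
  have hn : (0 : ℝ) < n := by exact_mod_cast h4
  have hN0 : (0 : ℝ) < N := by exact_mod_cast hN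
  have hNn : (N : ℝ) ≤ n := by
    by_contra h
    rw [not_le] at h
    have a1 : (n : ℝ) * Real.log n < N * Real.log n := mul_lt_mul_of_pos_right h hL
    have a2 : B * (n : ℝ) ≤ Real.log n * n := mul_le_mul_of_nonneg_right h1 hn.le
    linarith
  have hlogN : Real.log (N : ℝ) ≤ Real.log n := Real.log_le_log hN0 hNn
  have hm1 : (1 : ℝ) ≤ (m : ℝ) + 1 := by
    have : (0 : ℝ) ≤ (m : ℝ) := Nat.cast_nonneg m
    linarith
  have hm0 : (0 : ℝ) < (m : ℝ) + 1 := by linarith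
  have hlm : 0 ≤ Real.log ((m : ℝ) + 1) := Real.log_nonneg hm1
  have hfac : ((((m + 1) * N - 1)! : ℕ) : ℝ) ≤ (((m : ℝ) + 1) * N) ^ ((m + 1) * N) := by
    have b1 : ((m + 1) * N - 1)! ≤ ((m + 1) * N) ^ ((m + 1) * N) :=
      (Nat.factorial_le (Nat.sub_le _ _)).trans (Nat.factorial_le_pow _)
    have b2 : ((((m + 1) * N - 1)! : ℕ) : ℝ) ≤ ((((m + 1) * N) ^ ((m + 1) * N) : ℕ) : ℝ) := by
      exact_mod_cast b1
    refine b2.trans (le_of_eq ?_)
    push_cast
    rfl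
  have hpos : (0 : ℝ) < ((((m + 1) * N - 1)! : ℕ) : ℝ) := by
    exact_mod_cast Nat.factorial_pos _
  have hl := Real.log_le_log hpos hfac
  rw [Real.log_pow, Real.log_mul hm0.ne' hN0.ne'] at hl
  push_cast at hl
  have c1 : ((m : ℝ) + 1) * N * Real.log (N : ℝ) ≤ ((m : ℝ) + 1) * (N * Real.log n) := by
    rw [mul_assoc]
    exact mul_le_mul_of_nonneg_left (mul_le_mul_of_nonneg_left hlogN hN0.le) hm0.le
  have c2 : ((m : ℝ) + 1) * N * Real.log ((m : ℝ) + 1) ≤ η * n := by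
    rw [div_le_iff₀ hη] at h3
    have d1 : (m + 1 : ℝ) * Real.log ((m : ℝ) + 1) * (N * Real.log n) ≤
        (m + 1 : ℝ) * Real.log ((m : ℝ) + 1) * (B * n) :=
      mul_le_mul_of_nonneg_left hNB (mul_nonneg hm0.le hlm)
    have d2 : (m + 1 : ℝ) * Real.log ((m : ℝ) + 1) * B * n ≤ Real.log n * η * n :=
      mul_le_mul_of_nonneg_right h3 hn.le
    have d3 : Real.log (n : ℝ) * (((m : ℝ) + 1) * N * Real.log ((m : ℝ) + 1)) ≤
        Real.log n * (η * n) := by
      calc Real.log (n : ℝ) * (((m : ℝ) + 1) * N * Real.log ((m : ℝ) + 1))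
          = (m + 1 : ℝ) * Real.log ((m : ℝ) + 1) * (N * Real.log n) := by ring
        _ ≤ (m + 1 : ℝ) * Real.log ((m : ℝ) + 1) * (B * n) := d1
        _ = (m + 1 : ℝ) * Real.log ((m : ℝ) + 1) * B * n := by ring
        _ ≤ Real.log n * η * n := d2
        _ = Real.log n * (η * n) := by ring
    exact le_of_mul_le_mul_left d3 hL
  have e : ((m : ℝ) + 1) * N * (Real.log ((m : ℝ) + 1) + Real.log N) =
      ((m : ℝ) + 1) * N * Real.log N + ((m : ℝ) + 1) * N * Real.log ((m : ℝ) + 1) := by ring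
  rw [e] at hl
  linarith

theorem asym_log (m : ℕ) (c κ : ℝ) (hm : 1 ≤ m) (hc : 0 < c) (hκ0 : 0 < κ)
    (hκ : κ * (m * (m + 1) * (c + 1)) < m * c - 1) :
    ∀ᶠ n : ℕ in atTop, ∀ K l : ℕ, 1 ≤ K → (K : ℝ) ≤ (n : ℝ) ^ κ →
      1 ≤ l → l ≤ 2 * K → ∃ N : ℕ, 1 ≤ N ∧ l ∣ N ∧
        Real.log (8 * ((m + 1)! : ℝ)) + n
          + m * (K + (((m + 1) * N - 1 : ℕ) : ℝ) * Real.log K - Real.log ((N - 1)! : ℝ)) < 0 ∧
        Real.log (8 * ((m + 1)! : ℝ)) + (((m + 1) * N - 1 : ℕ) : ℝ) * Real.log (2 * K)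
          + Real.log (((m + 1) * N - 1)! : ℝ) + K - c * n
          + ((m : ℝ) - 1) * (K + (((m + 1) * N - 1 : ℕ) : ℝ) * Real.log K)
          - m * Real.log ((N - 1)! : ℝ) < 0 := by
  have hm0 : (1 : ℝ) ≤ m := by exact_mod_cast hm
  have hmpos : (0 : ℝ) < m := by linarith
  obtain ⟨x, hx⟩ : ∃ x : ℝ, x = m * (m + 1) * κ := ⟨_, rfl⟩
  have hx0 : 0 < x := by
    rw [hx]
    positivity
  have hxc : x * (c + 1) < m * c - 1 := by
    rw [hx]
    linarith
  have hmx : 0 < (m : ℝ) - x := by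
    by_contra hcon
    have h1 : ((m : ℝ) - x) * c ≤ 0 := mul_nonpos_of_nonpos_of_nonneg (by linarith) hc.le
    nlinarith
  have hκ1 : κ < 1 := by
    have h1 : κ * (m * (m + 1)) < m := by
      have : κ * (m * (m + 1)) = x := by rw [hx]; ring
      linarith
    by_contra hcon
    have h2 : (1 : ℝ) * (m * (m + 1)) ≤ κ * (m * (m + 1)) :=
      mul_le_mul_of_nonneg_right (by linarith) (by positivity)
    nlinarith
  have hlt : 1 / ((m : ℝ) - x) < c / (1 + x) := by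
    rw [div_lt_div_iff₀ hmx (by linarith)]
    nlinarith
  obtain ⟨θ, hθ1, hθ2⟩ := exists_between hlt
  have hθ0 : 0 < θ := lt_trans (by positivity) hθ1
  have hg1 : 0 < (m - x) * θ - 1 := by
    rw [div_lt_iff₀ hmx] at hθ1
    linarith
  have hg2 : 0 < c - (1 + x) * θ := by
    rw [lt_div_iff₀ (by linarith)] at hθ2
    linarith
  obtain ⟨g, hg0, hgA, hgB⟩ : ∃ g : ℝ, 0 < g ∧ g ≤ (m - x) * θ - 1 ∧ g ≤ c - (1 + x) * θ :=
    ⟨min ((m - x) * θ - 1) (c - (1 + x) * θ), lt_min hg1 hg2, min_le_left _ _, min_le_right _ _⟩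
  obtain ⟨η, hη0, hη1, hηg⟩ : ∃ η : ℝ, 0 < η ∧ η ≤ 1 ∧ (2 * m + 4 + x) * η ≤ g / 2 := by
    refine ⟨min 1 (g / 2 / (2 * m + 4 + x)), lt_min one_pos (by positivity), min_le_left _ _, ?_⟩
    have h : (0 : ℝ) < 2 * m + 4 + x := by positivity
    calc (2 * m + 4 + x) * min 1 (g / 2 / (2 * m + 4 + x))
          ≤ (2 * m + 4 + x) * (g / 2 / (2 * m + 4 + x)) :=
          mul_le_mul_of_nonneg_left (min_le_right _ _) h.le
      _ = g / 2 := mul_div_cancel₀ _ h.ne'
  have E1 : ∀ᶠ n : ℕ in atTop, Real.log (8 * ((m + 1)! : ℝ)) ≤ η * n :=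
    ((tendsto_natCast_atTop_atTop (R := ℝ)).const_mul_atTop hη0).eventually_ge_atTop _
  have E2 : ∀ᶠ n : ℕ in atTop, (n : ℝ) ^ κ ≤ η * n := by
    have h1 := (tendsto_rpow_neg_atTop (by linarith : 0 < 1 - κ)).comp
      (tendsto_natCast_atTop_atTop (R := ℝ))
    have h2 := h1.eventually_le_const hη0
    filter_upwards [h2, eventually_ge_atTop 1] with n hn hn1
    have hn0 : (0 : ℝ) < n := by exact_mod_cast hn1
    have h3 : (n : ℝ) ^ κ = n ^ (-(1 - κ)) * n := by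
      have h4 := Real.rpow_add hn0 (-(1 - κ)) 1
      rw [Real.rpow_one] at h4
      rw [← h4]
      congr 1
      ring
    rw [h3]
    exact mul_le_mul_of_nonneg_right hn hn0.le
  have E3 : ∀ᶠ n : ℕ in atTop, (m + 1) * (θ + η) * Real.log 2 / η ≤ Real.log n :=
    (Real.tendsto_log_atTop.comp (tendsto_natCast_atTop_atTop (R := ℝ))).eventually_ge_atTop _
  have E4 := asym_N θ η κ hθ0 hη0 hκ0 hκ1
  have E5 := fact_lower (θ + 1) η (by linarith) hη0
  have E6 := fact_upper m (θ + 1) η (by linarith) hη0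
  filter_upwards [E1, E2, E3, E4, E5, E6, eventually_ge_atTop 2] with n e1 e2 e3 e4 e5 e6 e7
  intro K l hK hKn hl hlK
  have hn0 : (0 : ℝ) < n := by
    have : 0 < n := by omega
    exact_mod_cast this
  have hKr : (1 : ℝ) ≤ K := by exact_mod_cast hK
  obtain ⟨N, hN1, hlN, hNl, hNu⟩ := e4 l hl (by
    have h1 : (l : ℝ) ≤ 2 * K := by exact_mod_cast hlK
    linarith)
  refine ⟨N, hN1, hlN, ?_⟩
  have hNr : (1 : ℝ) ≤ N := by exact_mod_cast hN1
  have hX : (N : ℝ) * Real.log n ≤ (θ + 1) * n := by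
    refine le_trans hNu ?_
    exact mul_le_mul_of_nonneg_right (by linarith) hn0.le
  have f5 := e5 N hN1 hX
  have f6 := e6 N hN1 hX
  have hM : (((m + 1) * N - 1 : ℕ) : ℝ) ≤ (m + 1) * N := by
    have h1 : (((m + 1) * N - 1 : ℕ) : ℝ) ≤ (((m + 1) * N : ℕ) : ℝ) := by
      exact_mod_cast Nat.sub_le _ _
    refine le_trans h1 ?_
    push_cast
    exact le_rfl
  have hM0 : (0 : ℝ) ≤ (((m + 1) * N - 1 : ℕ) : ℝ) := Nat.cast_nonneg _
  generalize (((m + 1) * N - 1 : ℕ) : ℝ) = M at hM hM0 ⊢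
  have hlK0 : 0 ≤ Real.log K := Real.log_nonneg hKr
  have hlogK : Real.log K ≤ κ * Real.log n := by
    have h1 := Real.log_le_log (by linarith) hKn
    rwa [Real.log_rpow hn0] at h1
  have hKη : (K : ℝ) ≤ η * n := le_trans hKn e2
  have hl2 : 0 < Real.log 2 := Real.log_pos (by norm_num)
  -- the product M log K
  have hMK : M * Real.log K ≤ (m + 1) * κ * ((θ + η) * n) := by
    calc M * Real.log K ≤ ((m + 1) * N) * (κ * Real.log n) :=
          mul_le_mul hM hlogK hlK0 (by positivity)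
      _ = (m + 1) * κ * (N * Real.log n) := by ring
      _ ≤ (m + 1) * κ * ((θ + η) * n) := mul_le_mul_of_nonneg_left hNu (by positivity)
  have hM2 : M * Real.log 2 ≤ η * n := by
    have h1 : (m + 1) * (θ + η) * Real.log 2 ≤ η * Real.log n := by
      rw [div_le_iff₀ hη0] at e3
      linarith
    have h2 : (m + 1) * (θ + η) * Real.log 2 * N ≤ η * ((θ + η) * n) := by
      calc (m + 1) * (θ + η) * Real.log 2 * N ≤ η * Real.log n * N :=
            mul_le_mul_of_nonneg_right h1 (by linarith)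
        _ = η * (N * Real.log n) := by ring
        _ ≤ η * ((θ + η) * n) := mul_le_mul_of_nonneg_left hNu hη0.le
    have h3 : (θ + η) * (((m + 1) * N) * Real.log 2) ≤ (θ + η) * (η * n) := by
      calc (θ + η) * (((m + 1) * N) * Real.log 2) = (m + 1) * (θ + η) * Real.log 2 * N := by ring
        _ ≤ η * ((θ + η) * n) := h2
        _ = (θ + η) * (η * n) := by ring
    have h4 := le_of_mul_le_mul_left h3 (by linarith)
    exact le_trans (mul_le_mul_of_nonneg_right hM hl2.le) h4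
  have hκn : m * ((m + 1) * κ * ((θ + η) * n)) = x * (θ * n) + x * (η * n) := by
    rw [hx]
    ring
  have hηn : (2 * m + 4 + x) * (η * n) ≤ g / 2 * n := by
    calc (2 * m + 4 + x) * (η * n) = ((2 * m + 4 + x) * η) * n := by ring
      _ ≤ g / 2 * n := mul_le_mul_of_nonneg_right hηg hn0.le
  have hgAn : g * n ≤ m * (θ * n) - x * (θ * n) - n := by
    have := mul_le_mul_of_nonneg_right hgA hn0.le
    linarith
  have hgBn : g * n ≤ c * n - θ * n - x * (θ * n) := by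
    have := mul_le_mul_of_nonneg_right hgB hn0.le
    linarith
  have hgn : 0 < g * n := mul_pos hg0 hn0
  have hηn0 : 0 < η * n := mul_pos hη0 hn0
  constructor
  · have h1 : m * (K + M * Real.log K - Real.log ((N - 1)! : ℝ)) ≤
        m * (η * n + (m + 1) * κ * ((θ + η) * n) - (θ * n - η * n)) := by
      refine mul_le_mul_of_nonneg_left ?_ hmpos.le
      linarith
    have h2 : (m : ℝ) * (η * n + (m + 1) * κ * ((θ + η) * n) - (θ * n - η * n)) =
        2 * m * (η * n) + m * ((m + 1) * κ * ((θ + η) * n)) - m * (θ * n) := by ring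
    have h3 : (2 * (m : ℝ) + 4 + x) * (η * n) = 2 * m * (η * n) + 4 * (η * n) + x * (η * n) := by ring
    have hxη : 0 < x * (η * n) := by positivity
    linarith
  · have hlog2K : Real.log (2 * K) = Real.log 2 + Real.log K :=
      Real.log_mul (by norm_num) (by linarith)
    rw [hlog2K]
    have h1 : ((m : ℝ) - 1) * (K + M * Real.log K) ≤
        (m - 1) * (η * n + (m + 1) * κ * ((θ + η) * n)) := by
      refine mul_le_mul_of_nonneg_left ?_ (by linarith)
      linarith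
    have h2 : (m : ℝ) * (N * Real.log n - η * n) ≤ m * Real.log ((N - 1)! : ℝ) :=
      mul_le_mul_of_nonneg_left f5 hmpos.le
    have h3 : (2 * (m : ℝ) + 4 + x) * (η * n) = 2 * m * (η * n) + 4 * (η * n) + x * (η * n) := by ring
    have hxη : 0 < x * (η * n) := by positivity
    have h4 : ((m : ℝ) - 1) * (η * n + (m + 1) * κ * ((θ + η) * n)) =
      m * (η * n) - η * n + m * ((m + 1) * κ * ((θ + η) * n)) - (m + 1) * κ * ((θ + η) * n) := by
      ring
    have h5 : (m : ℝ) * (N * Real.log n - η * n) = m * (N * Real.log n) - m * (η * n) := by ring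
    have h6 : ((m : ℝ) + 1) * (N * Real.log n) = m * (N * Real.log n) + N * Real.log n := by ring
    have h7 : (θ + η) * n = θ * n + η * n := by ring
    have h8 : M * (Real.log 2 + Real.log K) = M * Real.log 2 + M * Real.log K := by ring
    have h9 : 2 * (m : ℝ) * (η * n) = 2 * (m * (η * n)) := by ring
    linarith

theorem asym (m : ℕ) (c κ : ℝ) (hm : 1 ≤ m) (hc : 0 < c) (hκ0 : 0 < κ)
    (hκ : κ * (m * (m + 1) * (c + 1)) < m * c - 1) :
    ∀ᶠ n : ℕ in atTop, ∀ K l : ℕ, 1 ≤ K → (K : ℝ) ≤ (n : ℝ) ^ κ →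
      1 ≤ l → l ≤ 2 * K → ∃ N : ℕ, 1 ≤ N ∧ l ∣ N ∧
        ((m + 1)! : ℝ) *
          ((2 * Real.exp n) * (Real.exp K * (K : ℝ) ^ ((m + 1) * N - 1) / ((N - 1)! : ℝ)) ^ m
            + ((2 * (K : ℝ)) ^ ((m + 1) * N - 1) * (((m + 1) * N - 1)! : ℝ) / ((N - 1)! : ℝ))
              * (2 * Real.exp K * Real.exp (-(c * n)))
              * (Real.exp K * (K : ℝ) ^ ((m + 1) * N - 1) / ((N - 1)! : ℝ)) ^ (m - 1)) < 1 := by
  refine (asym_log m c κ hm hc hκ0 hκ).mono ?_
  intro n hn K l hK hKn hl hl2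
  obtain ⟨N, hN, hlN, ha, hb⟩ := hn K l hK hKn hl hl2
  refine ⟨N, hN, hlN, ?_⟩
  set M : ℕ := (m + 1) * N - 1 with hM
  have hK0 : (0:ℝ) < K := by exact_mod_cast hK
  have hf : (0:ℝ) < ((N - 1)! : ℝ) := by exact_mod_cast Nat.factorial_pos _
  have hD : (0:ℝ) < ((m + 1)! : ℝ) := by exact_mod_cast Nat.factorial_pos _
  have hMf : (0:ℝ) < (M ! : ℝ) := by exact_mod_cast Nat.factorial_pos _
  set f : ℝ := ((N - 1)! : ℝ) with hfdef
  set D : ℝ := ((m + 1)! : ℝ) with hDdef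
  set X : ℝ := Real.exp K * (K : ℝ) ^ M / f with hX
  have hXe : X = Real.exp (K + (M : ℝ) * Real.log K - Real.log f) := by
    rw [Real.exp_sub, Real.exp_add, Real.exp_log hf, Real.exp_nat_mul, Real.exp_log hK0]
  have e1 : 8 * D * Real.exp n * X ^ m < 1 := by
    have h3 : 8 * D * Real.exp n * X ^ m = Real.exp (Real.log (8 * D) + n
          + m * (K + (M : ℝ) * Real.log K - Real.log f)) := by
      rw [Real.exp_add, Real.exp_add, Real.exp_log (by positivity), Real.exp_nat_mul, ← hXe]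
    rw [h3, Real.exp_lt_one_iff]
    exact ha
  have hm1 : ((m - 1 : ℕ) : ℝ) = (m : ℝ) - 1 := by
    rw [Nat.cast_sub hm, Nat.cast_one]
  have e2 : 8 * D * ((2 * (K : ℝ)) ^ M * (M ! : ℝ) / f) * (Real.exp K * Real.exp (-(c * n))) * X ^ (m - 1) < 1 := by
    have h3 : 8 * D * ((2 * (K : ℝ)) ^ M * (M ! : ℝ) / f) * (Real.exp K * Real.exp (-(c * n))) * X ^ (m - 1)
        = Real.exp (Real.log (8 * D) + (((M : ℝ) * Real.log (2 * K) + Real.log (M ! : ℝ)) - Real.log f)
          + (K + (-(c * n))) + ((m - 1 : ℕ) : ℝ) * (K + (M : ℝ) * Real.log K - Real.log f)) := by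
      rw [Real.exp_add, Real.exp_add, Real.exp_add, Real.exp_log (by positivity), Real.exp_sub,
        Real.exp_add, Real.exp_add, Real.exp_log hf, Real.exp_log hMf, Real.exp_nat_mul,
        Real.exp_nat_mul, ← hXe, Real.exp_log (by positivity)]
    rw [h3, Real.exp_lt_one_iff]
    rw [hm1]
    refine lt_of_eq_of_lt ?_ hb
    ring
  have h4 : D * ((2 * Real.exp n) * X ^ m + ((2 * (K : ℝ)) ^ M * (M ! : ℝ) / f)
      * (2 * Real.exp K * Real.exp (-(c * n))) * X ^ (m - 1)) =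
      (1 / 4) * (8 * D * Real.exp n * X ^ m) + (1 / 4) * (8 * D * ((2 * (K : ℝ)) ^ M * (M ! : ℝ) / f) * (Real.exp K * Real.exp (-(c * n))) * X ^ (m - 1)) := by
    ring
  rw [h4]
  linarith

theorem exc_vector (c : ℝ) (hc : 0 < c) (n K k : ℕ) (hn : 1 ≤ n) (hk : k ≤ K)
    (h1 : |Real.exp n - round (Real.exp n)| ≤ Real.exp (-(c * n)))
    (h2 : |Real.exp ((n + k : ℕ) : ℝ) - round (Real.exp ((n + k : ℕ) : ℝ))|
      ≤ Real.exp (-(c * ((n + k : ℕ) : ℝ)))) :
    |Real.exp k * (round (Real.exp n) : ℝ) - (round (Real.exp ((n + k : ℕ) : ℝ)) : ℝ)|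
      ≤ 2 * Real.exp K * Real.exp (-(c * n)) := by
  have e1 : Real.exp ((n + k : ℕ) : ℝ) = Real.exp k * Real.exp n := by
    rw [← Real.exp_add]
    congr 1
    push_cast
    ring
  have hE : 0 < Real.exp (-(c * n)) := Real.exp_pos _
  have e2 : Real.exp (-(c * ((n + k : ℕ) : ℝ))) ≤ Real.exp (-(c * n)) := by
    apply Real.exp_le_exp.2
    push_cast
    have : 0 ≤ c * (k : ℝ) := by positivity
    nlinarith
  have e3 : Real.exp (k : ℝ) ≤ Real.exp (K : ℝ) := Real.exp_le_exp.2 (by exact_mod_cast hk)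
  have e4 : (1 : ℝ) ≤ Real.exp (K : ℝ) := Real.one_le_exp (by positivity)
  have hk0 : 0 < Real.exp (k : ℝ) := Real.exp_pos _
  set a : ℝ := (round (Real.exp n) : ℝ) with ha
  set b : ℝ := (round (Real.exp ((n + k : ℕ) : ℝ)) : ℝ) with hb
  have h3 : Real.exp k * a - b = -(Real.exp k * (Real.exp n - a)) + (Real.exp ((n + k : ℕ) : ℝ) - b) := by
    rw [e1]
    ring
  rw [h3]
  calc |-(Real.exp k * (Real.exp n - a)) + (Real.exp ((n + k : ℕ) : ℝ) - b)|
      ≤ |-(Real.exp k * (Real.exp n - a))| + |Real.exp ((n + k : ℕ) : ℝ) - b| := abs_add_le _ _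
    _ = Real.exp k * |Real.exp n - a| + |Real.exp ((n + k : ℕ) : ℝ) - b| := by
        rw [abs_neg, abs_mul, abs_of_pos hk0]
    _ ≤ Real.exp K * Real.exp (-(c * n)) + Real.exp K * Real.exp (-(c * n)) := by
        apply _root_.add_le_add
        · exact mul_le_mul e3 h1 (abs_nonneg _) (by positivity)
        · refine (h2.trans e2).trans ?_
          exact le_mul_of_one_le_left hE.le e4
    _ = 2 * Real.exp K * Real.exp (-(c * n)) := by ring

theorem round_bounds (n : ℕ) (hn : 1 ≤ n) :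
    round (Real.exp n) ≠ 0 ∧ |((round (Real.exp n) : ℤ) : ℝ)| ≤ 2 * Real.exp n := by
  have h1 : (2:ℝ) ≤ Real.exp n := by
    have h2 : (n:ℝ) + 1 ≤ Real.exp n := Real.add_one_le_exp _
    have h3 : (1:ℝ) ≤ n := by exact_mod_cast hn
    linarith
  have h4 := abs_sub_round (Real.exp n)
  have h5 := abs_le.mp h4
  constructor
  · intro h0
    rw [h0] at h5
    push_cast at h5
    linarith [h5.2]
  · rw [abs_le]
    constructor <;> linarith [h5.1, h5.2]

theorem window (m : ℕ) (c κ : ℝ) (hm : 1 ≤ m) (hc0 : 0 < c) (hκ0 : 0 < κ)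
    (hκ : κ * (m * (m + 1) * (c + 1)) < m * c - 1) :
    ∃ n₀ : ℕ, ∀ n : ℕ, n₀ ≤ n →
      ((Icc n (n + ⌊(n : ℝ) ^ κ⌋₊)).filter
        (fun x : ℕ => |Real.exp x - round (Real.exp x)| ≤ Real.exp (-(c * x)))).card ≤ m := by
  have hev := asym m c κ hm hc0 hκ0 hκ
  obtain ⟨n1, hn1⟩ := eventually_atTop.1 hev
  refine ⟨max n1 1, fun n hn => ?_⟩
  have hn1' : n1 ≤ n := (le_max_left _ _).trans hn
  have hn1'' : 1 ≤ n := (le_max_right _ _).trans hn
  by_contra hcon
  push Not at hcon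
  set K := ⌊(n : ℝ) ^ κ⌋₊ with hKdef
  obtain ⟨T, hTS, hT⟩ := Finset.exists_subset_card_eq (Nat.succ_le_of_lt hcon)
  let x : Fin (m + 1) ↪o ℕ := T.orderEmbOfFin hT
  have hx : ∀ i, (n ≤ x i ∧ x i ≤ n + K) ∧
      |Real.exp (x i) - round (Real.exp (x i))| ≤ Real.exp (-(c * (x i : ℕ))) := by
    intro i
    have h1 := hTS (T.orderEmbOfFin_mem hT i)
    rw [Finset.mem_filter, Finset.mem_Icc] at h1
    exact h1
  have hnr : (1 : ℝ) ≤ n := by exact_mod_cast hn1''
  have hpow1 : (1 : ℝ) ≤ (n : ℝ) ^ κ := Real.one_le_rpow hnr hκ0.le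
  have hK1 : 1 ≤ K := Nat.le_floor (by exact_mod_cast hpow1)
  have hKle : (K : ℝ) ≤ (n : ℝ) ^ κ := Nat.floor_le (by linarith)
  set b := x 0 with hb
  have hbn : n ≤ b := (hx 0).1.1
  have hb1 : 1 ≤ b := hn1''.trans hbn
  have hbr : (n : ℝ) ≤ b := by exact_mod_cast hbn
  have hKb : (K : ℝ) ≤ (b : ℝ) ^ κ :=
    hKle.trans (Real.rpow_le_rpow (by positivity) hbr hκ0.le)
  obtain ⟨l, hl, hKl, hl2⟩ := Nat.exists_prime_lt_and_le_two_mul K (by omega)
  obtain ⟨N, hN, hlN, hlt⟩ := hn1 b (hn1'.trans hbn) K l hK1 hKb hl.one_lt.le hl2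
  have hmono : ∀ i, b ≤ x i := fun i => x.monotone (Fin.zero_le i)
  have hkK : ∀ i, x i - b ≤ K := by
    intro i
    have := (hx i).1.2
    omega
  have hkey := key m N K l hm hN hK1 hl hKl hlN (fun i => ((x i - b : ℕ) : ℤ)) (by
      intro i j hij
      have h1 : x i - b = x j - b := Int.ofNat.inj hij
      have h2 := hmono i
      have h3 := hmono j
      have h4 : x i = x j := by omega
      exact x.injective h4) (by simp [hb]) (fun i => Int.natCast_nonneg _)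
    (fun i => by exact_mod_cast hkK i) (fun i => round (Real.exp (x i)))
    (round_bounds b hb1).1 (2 * Real.exp K * Real.exp (-(c * b))) (by
      intro i
      have h1 := exc_vector c hc0 b K (x i - b) hb1 (hkK i) (hx 0).2 (by
        have e : b + (x i - b) = x i := Nat.add_sub_of_le (hmono i)
        rw [e]
        exact (hx i).2)
      have e : b + (x i - b) = x i := Nat.add_sub_of_le (hmono i)
      rw [e] at h1
      rw [Int.cast_natCast]
      exact h1)
  have hp0 := (round_bounds b hb1).2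
  have hA : 0 ≤ (Real.exp K * (K : ℝ) ^ ((m + 1) * N - 1) / ((N - 1)! : ℝ)) ^ m := by positivity
  have hf : (0 : ℝ) ≤ ((m + 1)! : ℝ) := by positivity
  have h5 := mul_le_mul_of_nonneg_left (add_le_add_left (mul_le_mul_of_nonneg_right hp0 hA)
    (((2 * (K : ℝ)) ^ ((m + 1) * N - 1) * (((m + 1) * N - 1)! : ℝ) / ((N - 1)! : ℝ))
              * (2 * Real.exp K * Real.exp (-(c * b)))
              * (Real.exp K * (K : ℝ) ^ ((m + 1) * N - 1) / ((N - 1)! : ℝ)) ^ (m - 1))) hf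
  have h6 := lt_of_le_of_lt (hkey.trans h5) hlt
  exact lt_irrefl _ h6

theorem cow_half (E : ℕ → Prop) [DecidablePred E] (m n₀ : ℕ) (κ : ℝ) (hκ0 : 0 < κ)
    (hκ1 : κ < 1)
    (h : ∀ n : ℕ, n₀ ≤ n → ((Icc n (n + ⌊(n : ℝ) ^ κ⌋₊)).filter E).card ≤ m) (X : ℕ) (hX : 1 ≤ X)
    (hn0 : n₀ ≤ X / 2 + 1) :
    (((Icc 1 X).filter E).card : ℝ) ≤ (((Icc 1 (X / 2)).filter E).card : ℝ) + ((X : ℝ) ^ (1 - κ) + 1) * m := by
  obtain ⟨s, hs⟩ : ∃ s : ℕ, s = X / 2 + 1 := ⟨_, rfl⟩
  obtain ⟨L, hL⟩ : ∃ L : ℕ, L = ⌊(s : ℝ) ^ κ⌋₊ + 1 := ⟨_, rfl⟩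
  have hLpos : 0 < L := by omega
  have hcov : (Icc 1 X).filter E ⊆ (Icc 1 (X / 2)).filter E ∪ (range ((X - s) / L + 1)).biUnion
      (fun t => (Icc (s + t * L) (s + t * L + ⌊((s + t * L : ℕ) : ℝ) ^ κ⌋₊)).filter E) := by
    intro x hx
    rw [mem_filter, mem_Icc] at hx
    rw [mem_union]
    by_cases hxs : x < s
    · left
      rw [mem_filter, mem_Icc]
      exact ⟨⟨hx.1.1, by omega⟩, hx.2⟩
    · right
      push Not at hxs
      rw [mem_biUnion]
      refine ⟨(x - s) / L, ?_, ?_⟩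
      · rw [mem_range]
        exact Nat.lt_succ_of_le (Nat.div_le_div_right (by omega))
      · rw [mem_filter, mem_Icc]
        have h1 := Nat.div_add_mod (x - s) L
        have h2 := Nat.mod_lt (x - s) hLpos
        rw [mul_comm] at h1
        have h3 : ⌊(s : ℝ) ^ κ⌋₊ ≤ ⌊((s + (x - s) / L * L : ℕ) : ℝ) ^ κ⌋₊ := by
          apply Nat.floor_le_floor
          apply Real.rpow_le_rpow (by positivity) _ hκ0.le
          exact_mod_cast Nat.le_add_right _ _
        refine ⟨⟨?_, ?_⟩, hx.2⟩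
        · omega
        · omega
  have hcard : ((Icc 1 X).filter E).card ≤ ((Icc 1 (X / 2)).filter E).card + ((X - s) / L + 1) * m := by
    refine (card_le_card hcov).trans ((card_union_le _ _).trans ?_)
    apply Nat.add_le_add_left
    refine (card_biUnion_le).trans ?_
    calc _ ≤ ∑ t ∈ range ((X - s) / L + 1), m :=
          sum_le_sum fun t _ => h (s + t * L) (le_trans (by omega) (Nat.le_add_right _ _))
      _ = _ := by simp
  have hX1 : (1 : ℝ) ≤ X := by exact_mod_cast hX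
  have hX0 : (0 : ℝ) < X := by linarith
  have hLr : ((X : ℝ) / 2) ^ κ ≤ L := by
    have e1 : (X : ℝ) / 2 ≤ s := by
      have : X ≤ 2 * s := by omega
      have : (X : ℝ) ≤ 2 * s := by exact_mod_cast this
      linarith
    refine (Real.rpow_le_rpow (by positivity) e1 hκ0.le).trans ?_
    rw [hL]
    push_cast
    exact (Nat.lt_floor_add_one _).le
  have hdiv : (((X - s) / L : ℕ) : ℝ) ≤ (X : ℝ) ^ (1 - κ) := by
    have h1 : (((X - s) / L : ℕ) : ℝ) ≤ ((X - s : ℕ) : ℝ) / L := Nat.cast_div_le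
    have h2 : ((X - s : ℕ) : ℝ) ≤ (X : ℝ) / 2 := by
      have : 2 * (X - s) ≤ X := by omega
      have : 2 * ((X - s : ℕ) : ℝ) ≤ X := by exact_mod_cast this
      linarith
    have h3 : ((X - s : ℕ) : ℝ) / L ≤ ((X : ℝ) / 2) / ((X : ℝ) / 2) ^ κ := by
      apply div_le_div₀ (by positivity) h2 (Real.rpow_pos_of_pos (by positivity) _) hLr
    have h4 : ((X : ℝ) / 2) / ((X : ℝ) / 2) ^ κ = ((X : ℝ) / 2) ^ (1 - κ) := by
      rw [Real.rpow_sub (by positivity), Real.rpow_one]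
    have h5 : ((X : ℝ) / 2) ^ (1 - κ) ≤ (X : ℝ) ^ (1 - κ) :=
      Real.rpow_le_rpow (by positivity) (by linarith) (by linarith)
    linarith
  have hcr : (((Icc 1 X).filter E).card : ℝ) ≤ (((Icc 1 (X / 2)).filter E).card : ℝ) + ((((X - s) / L : ℕ) : ℝ) + 1) * m := by
    exact_mod_cast hcard
  refine hcr.trans ?_
  have hm : (0:ℝ) ≤ m := Nat.cast_nonneg _
  have := mul_le_mul_of_nonneg_right (add_le_add_left hdiv 1) hm
  linarith

theorem count_of_window (E : ℕ → Prop) [DecidablePred E] (m n₀ : ℕ) (κ : ℝ) (hκ0 : 0 < κ)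
    (hκ1 : κ < 1)
    (h : ∀ n : ℕ, n₀ ≤ n → ((Icc n (n + ⌊(n : ℝ) ^ κ⌋₊)).filter E).card ≤ m) :
    ∃ D : ℝ, ∀ X : ℕ, 1 ≤ X → (((Icc 1 X).filter E).card : ℝ) ≤ D * (X : ℝ) ^ (1 - κ) := by
  obtain ⟨q, hq⟩ : ∃ q : ℝ, q = (1 / 2 : ℝ) ^ (1 - κ) := ⟨_, rfl⟩
  have hq0 : 0 < q := by rw [hq]; positivity
  have hq1 : q < 1 := by
    rw [hq]
    exact Real.rpow_lt_one (by norm_num) (by norm_num) (by linarith)
  have hm : (0:ℝ) ≤ m := Nat.cast_nonneg _
  have hn : (0:ℝ) ≤ n₀ := Nat.cast_nonneg _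
  obtain ⟨D, hD⟩ : ∃ D : ℝ, D = 2 * n₀ + 2 + 2 * m / (1 - q) := ⟨_, rfl⟩
  have h1q : 0 < 1 - q := by linarith
  have hfr : 0 ≤ 2 * (m:ℝ) / (1 - q) := by positivity
  have hD1 : 2 * (n₀:ℝ) + 2 ≤ D := by rw [hD]; linarith
  have hD2 : D * q + 2 * m ≤ D := by
    have e : 2 * (m:ℝ) / (1 - q) * (1 - q) = 2 * m := div_mul_cancel₀ _ h1q.ne'
    have e2 : D * (1 - q) = (2 * n₀ + 2) * (1 - q) + 2 * m := by rw [hD, add_mul, e]
    have e3 : 0 ≤ (2 * (n₀:ℝ) + 2) * (1 - q) := by positivity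
    nlinarith
  have hD0 : 0 ≤ D := by linarith
  refine ⟨D, ?_⟩
  intro X
  induction X using Nat.strong_induction_on with
  | _ X ih =>
    intro hX
    have hX1 : (1 : ℝ) ≤ X := by exact_mod_cast hX
    have hP1 : (1 : ℝ) ≤ (X : ℝ) ^ (1 - κ) := Real.one_le_rpow hX1 (by linarith)
    by_cases hb : X < 2 * n₀ + 2
    · have hc : ((Icc 1 X).filter E).card ≤ X := by
        refine (card_filter_le _ _).trans ?_
        simp
      have hc' : (((Icc 1 X).filter E).card : ℝ) ≤ X := by exact_mod_cast hc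
      have hb' : (X : ℝ) ≤ 2 * n₀ + 2 := by exact_mod_cast hb.le
      have := mul_le_mul_of_nonneg_left hP1 hD0
      linarith
    · push Not at hb
      have hhalf := cow_half E m n₀ κ hκ0 hκ1 h X hX (by omega)
      have hi := ih (X / 2) (by omega) (by omega)
      have h2 : ((X / 2 : ℕ) : ℝ) ^ (1 - κ) ≤ (X : ℝ) ^ (1 - κ) * q := by
        have h3 : ((X / 2 : ℕ) : ℝ) ≤ (X : ℝ) * (1 / 2) := by
          have : 2 * (X / 2) ≤ X := by omega
          have : 2 * ((X / 2 : ℕ) : ℝ) ≤ X := by exact_mod_cast this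
          linarith
        refine (Real.rpow_le_rpow (by positivity) h3 (by linarith)).trans ?_
        rw [Real.mul_rpow (by positivity) (by norm_num), hq]
      have h4 := mul_le_mul_of_nonneg_left h2 hD0
      have h5 : ((X : ℝ) ^ (1 - κ) + 1) * m ≤ (X : ℝ) ^ (1 - κ) * (2 * m) := by
        nlinarith
      have h6 : (X : ℝ) ^ (1 - κ) * (D * q + 2 * m) ≤ (X : ℝ) ^ (1 - κ) * D :=
        mul_le_mul_of_nonneg_left hD2 (by positivity)
      nlinarith

theorem count (m : ℕ) (c κ : ℝ) (hm : 1 ≤ m) (hc : 0 < c) (hκ0 : 0 < κ)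
    (hκ : κ * (m * (m + 1) * (c + 1)) < m * c - 1) :
    ∃ D : ℝ, ∀ X : ℕ, 1 ≤ X →
      (((Icc 1 X).filter
        (fun x : ℕ => |Real.exp x - round (Real.exp x)| ≤ Real.exp (-(c * x)))).card : ℝ)
        ≤ D * (X : ℝ) ^ (1 - κ) := by
  classical
  obtain ⟨n₀, hn⟩ := window m c κ hm hc hκ0 hκ
  have hmpos : (1 : ℝ) ≤ m := by exact_mod_cast hm
  have hκ1 : κ < 1 := by
    by_contra hcon
    have h2 : (1 : ℝ) * (m * (m + 1) * (c + 1)) ≤ κ * (m * (m + 1) * (c + 1)) :=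
      mul_le_mul_of_nonneg_right (by linarith) (by positivity)
    have h3 : (m : ℝ) * c ≤ m * (m + 1) * (c + 1) := by
      have h4 : (0 : ℝ) ≤ m * (m * c + m + 1) := by positivity
      nlinarith
    linarith
  exact count_of_window _ m n₀ κ hκ0 hκ1 hn

theorem count_power (c : ℝ) (hc : 0 < c) :
    ∃ δ : ℝ, 0 < δ ∧ ∃ D : ℝ, ∀ X : ℕ, 1 ≤ X →
      (((Icc 1 X).filter
        (fun x : ℕ => |Real.exp x - round (Real.exp x)| ≤ Real.exp (-(c * x)))).card : ℝ)
        ≤ D * (X : ℝ) ^ (1 - δ) := by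
  obtain ⟨m, hm⟩ := exists_nat_gt (1 / c)
  have hmc : 1 < (m : ℝ) * c := by
    rwa [div_lt_iff₀ hc] at hm
  have hm1 : 1 ≤ m := by
    rcases Nat.eq_zero_or_pos m with h | h
    · rw [h] at hmc
      norm_num at hmc
    · exact h
  have hmpos : (1 : ℝ) ≤ m := by exact_mod_cast hm1
  have hA : (0 : ℝ) < m * (m + 1) * (c + 1) := by positivity
  refine ⟨(m * c - 1) / 2 / (m * (m + 1) * (c + 1)), div_pos (by linarith) hA, ?_⟩
  refine count m c _ hm1 hc (div_pos (by linarith) hA) ?_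
  rw [div_mul_cancel₀ _ hA.ne']
  linarith

theorem count_half (ε : ℝ) (hε : 0 < ε) :
    ∃ c : ℝ, 0 < c ∧ ∃ D : ℝ, ∀ X : ℕ, 1 ≤ X →
      (((Icc 1 X).filter
        (fun x : ℕ => |Real.exp x - round (Real.exp x)| ≤ Real.exp (-(c * x)))).card : ℝ)
        ≤ D * (X : ℝ) ^ (1 / 2 + ε) := by
  by_cases hε2 : ε < 1 / 2
  · refine ⟨1 / ε, by positivity, ?_⟩
    have h1 : 1 - (1 / 2 - ε) = 1 / 2 + ε := by ring
    rw [← h1]
    refine count 1 (1 / ε) (1 / 2 - ε) le_rfl (by positivity) (by linarith) ?_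
    push_cast
    have h2 : ε * (1 / ε) = 1 := by
      field_simp
    have h3 : 0 < 1 / ε := by positivity
    nlinarith
  · refine ⟨1, one_pos, 1, fun X hX => ?_⟩
    have hXr : (1 : ℝ) ≤ X := by exact_mod_cast hX
    have h1 : (((Icc 1 X).filter
        (fun x : ℕ => |Real.exp x - round (Real.exp x)| ≤ Real.exp (-(1 * x)))).card : ℝ) ≤ X := by
      have h2 := Finset.card_filter_le (Icc 1 X)
        (fun x : ℕ => |Real.exp x - round (Real.exp x)| ≤ Real.exp (-(1 * x)))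
      rw [Nat.card_Icc, Nat.add_sub_cancel] at h2
      exact_mod_cast h2
    refine h1.trans ?_
    rw [one_mul]
    calc (X : ℝ) = (X : ℝ) ^ (1 : ℝ) := (Real.rpow_one _).symm
      _ ≤ (X : ℝ) ^ (1 / 2 + ε) := Real.rpow_le_rpow_of_exponent_le hXr (by linarith)

end MahlerExp
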