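import Mathlib

namespace Pool.Agent.Helper379.Roots

open Finset Nat

/-- number of roots of x^2 + n^2 modulo d -/
noncomputable def NR (n d : ℕ) : ℕ := Nat.card {x : ZMod d // (n : ZMod d) ^ 2 + x ^ 2 = 0}

theorem count_eq_NR (n d : ℕ) (hd : 0 < d) :
    Nat.count (fun x => d ∣ n ^ 2 + x ^ 2) d = NR n d := by
  have : NeZero d := ⟨hd.ne'⟩
  unfold NR
  rw [Nat.count_eq_card_filter_range, Nat.card_eq_fintype_card, Fintype.card_subtype]
  refine card_nbij' (fun x => (x : ZMod d)) (fun y => y.val) ?_ ?_ ?_ ?_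
  · intro x hx
    simp only [coe_filter, Set.mem_ofPred_eq, Finset.mem_range, mem_univ, true_and] at hx ⊢
    have := (ZMod.natCast_eq_zero_iff (n ^ 2 + x ^ 2) d).mpr hx.2
    push_cast at this
    exact this
  · intro y hy
    simp only [coe_filter, Set.mem_ofPred_eq, Finset.mem_range, mem_univ, true_and] at hy ⊢
    refine ⟨ZMod.val_lt y, ?_⟩
    rw [← ZMod.natCast_eq_zero_iff]
    push_cast
    rw [ZMod.natCast_zmod_val]
    exact hy
  · intro x hx
    simp only [coe_filter, Set.mem_ofPred_eq, Finset.mem_range] at hx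
    exact ZMod.val_cast_of_lt hx.1
  · intro y _
    exact ZMod.natCast_zmod_val y

theorem NR_one (n : ℕ) : NR n 1 = 1 := by
  unfold NR
  rw [Nat.card_eq_one_iff_unique]
  refine ⟨⟨?_⟩, ⟨⟨0, Subsingleton.elim _ _⟩⟩⟩
  rintro ⟨a, _⟩ ⟨b, _⟩
  simp only [Subtype.mk.injEq]
  exact Subsingleton.elim _ _

theorem NR_mul (n a b : ℕ) (hab : Nat.Coprime a b) : NR n (a * b) = NR n a * NR n b := by
  unfold NR
  rw [← Nat.card_prod]
  refine Nat.card_congr ?_
  let e := ZMod.chineseRemainder hab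
  have h1 : ∀ x : ZMod (a * b), ((n : ZMod (a * b)) ^ 2 + x ^ 2 = 0) ↔
      (((n : ZMod a) ^ 2 + (e x).1 ^ 2 = 0) ∧ ((n : ZMod b) ^ 2 + (e x).2 ^ 2 = 0)) := by
    intro x
    rw [← map_eq_zero_iff e e.injective, map_add, map_pow, map_pow, map_natCast, Prod.ext_iff]
    simp
  exact (e.toEquiv.subtypeEquiv (p := fun x => (n : ZMod (a * b)) ^ 2 + x ^ 2 = 0)
    (q := fun y : ZMod a × ZMod b => ((n : ZMod a) ^ 2 + y.1 ^ 2 = 0) ∧ ((n : ZMod b) ^ 2 + y.2 ^ 2 = 0)) h1).trans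
    (Equiv.subtypeProdEquivProd (p := fun y : ZMod a => (n : ZMod a) ^ 2 + y ^ 2 = 0)
      (q := fun y : ZMod b => (n : ZMod b) ^ 2 + y ^ 2 = 0))

theorem NR_dvd (n p : ℕ) (hp : p.Prime) (h : p ∣ n) : NR n p = 1 := by
  have : Fact p.Prime := ⟨hp⟩
  unfold NR
  have hn : (n : ZMod p) = 0 := (ZMod.natCast_eq_zero_iff n p).mpr h
  rw [Nat.card_eq_fintype_card, Fintype.card_eq_one_iff]
  refine ⟨⟨0, by simp [hn]⟩, ?_⟩
  rintro ⟨y, hy⟩
  rw [hn] at hy
  simp only [Subtype.mk.injEq]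
  simpa using hy

theorem NR_one_mod_four (n p : ℕ) (hp : p.Prime) (h4 : p % 4 = 1) (h : ¬ p ∣ n) : NR n p = 2 := by
  have : Fact p.Prime := ⟨hp⟩
  unfold NR
  have hn : (n : ZMod p) ≠ 0 := fun hc => h ((ZMod.natCast_eq_zero_iff n p).mp hc)
  obtain ⟨i, hi⟩ := (ZMod.exists_sq_eq_neg_one_iff (p := p)).mpr (by omega)
  have hi2 : i ^ 2 = -1 := by rw [sq]; exact hi.symm
  have hi0 : i ≠ 0 := by
    rintro rfl
    simp at hi
  have h2 : (2 : ZMod p) ≠ 0 := by
    intro hc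
    have : ((2:ℕ) : ZMod p) = 0 := by exact_mod_cast hc
    rw [ZMod.natCast_eq_zero_iff] at this
    have := Nat.le_of_dvd (by norm_num) this
    have := hp.two_le
    have : p = 2 := by omega
    omega
  have hset : ∀ x : ZMod p, ((n : ZMod p) ^ 2 + x ^ 2 = 0) ↔ x ∈ ({i * n, -(i * n)} : Finset (ZMod p)) := by
    intro x
    rw [mem_insert, mem_singleton]
    have : (n : ZMod p) ^ 2 + x ^ 2 = (x - i * n) * (x + i * n) := by
      have : (x - i * n) * (x + i * n) = x ^ 2 - i ^ 2 * n ^ 2 := by ring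
      rw [this, hi2]; ring
    rw [this, _root_.mul_eq_zero, _root_.sub_eq_zero, add_eq_zero_iff_eq_neg]
  rw [Nat.card_congr (Equiv.subtypeEquivRight hset), Nat.card_eq_fintype_card, Fintype.card_coe]
  apply card_pair
  intro hc
  have : 2 * (i * (n : ZMod p)) = 0 := by
    have h3 : i * (n : ZMod p) + i * n = 0 := by nth_rewrite 1 [hc]; ring
    rw [two_mul]; exact h3
  rcases _root_.mul_eq_zero.mp this with h | h
  · exact h2 h
  · rcases _root_.mul_eq_zero.mp h with h | h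
    · exact hi0 h
    · exact hn h

theorem periodic_dvd (n d : ℕ) : Function.Periodic (fun x => d ∣ n ^ 2 + x ^ 2) d := by
  intro x
  simp only [eq_iff_iff]
  have : n ^ 2 + (x + d) ^ 2 = n ^ 2 + x ^ 2 + d * (2 * x + d) := by ring
  rw [this]
  exact (Nat.dvd_add_iff_left (Dvd.intro _ rfl)).symm

theorem count_add_mul (p : ℕ → Prop) [DecidablePred p] (d : ℕ) (hp : Function.Periodic p d) (q r : ℕ) :
    Nat.count p (q * d + r) = q * Nat.count p d + Nat.count p r := by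
  induction q with
  | zero => simp
  | succ q ih =>
    have h1 : (q + 1) * d + r = d + (q * d + r) := by ring
    rw [h1, Nat.count_add]
    have h2 : (fun k => p (d + k)) = p := by
      funext k
      rw [add_comm d k]
      exact hp k
    simp only [h2]
    rw [ih]; ring

theorem abs_count_sub (n d N : ℕ) (hd : 0 < d) :
    |(Nat.count (fun x => d ∣ n ^ 2 + x ^ 2) N : ℝ) - N * (NR n d : ℝ) / d| ≤ NR n d := by
  have h1 := count_add_mul (fun x => d ∣ n ^ 2 + x ^ 2) d (periodic_dvd n d) (N / d) (N % d)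
  have h2 : N / d * d + N % d = N := Nat.div_add_mod' N d
  rw [h2, count_eq_NR n d hd] at h1
  have h3 : Nat.count (fun x => d ∣ n ^ 2 + x ^ 2) (N % d) ≤ NR n d := by
    rw [← count_eq_NR n d hd]
    exact Nat.count_monotone _ (Nat.mod_lt N hd).le
  have h4 : ((N % d : ℕ) : ℝ) < d := by exact_mod_cast Nat.mod_lt N hd
  have h5 : (0:ℝ) ≤ ((N % d : ℕ) : ℝ) := Nat.cast_nonneg _
  have hd' : (0:ℝ) < d := by exact_mod_cast hd
  have h6 : (N : ℝ) = ((N / d : ℕ) : ℝ) * d + ((N % d : ℕ) : ℝ) := by exact_mod_cast h2.symm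
  rw [h1]
  have h7 : (N : ℝ) * (NR n d : ℝ) / d = ((N / d : ℕ) : ℝ) * NR n d + ((N % d : ℕ) : ℝ) * NR n d / d := by
    rw [h6]
    have : (((N / d : ℕ) : ℝ) * d + ((N % d : ℕ) : ℝ)) / (d:ℝ) = ((N / d : ℕ) : ℝ) + ((N % d : ℕ) : ℝ) / d := by
      field_simp
    field_simp
  rw [h7]
  push_cast
  set c : ℝ := (Nat.count (fun x => d ∣ n ^ 2 + x ^ 2) (N % d) : ℝ) with hc
  have h8 : c ≤ NR n d := by rw [hc]; exact_mod_cast h3
  have h9 : 0 ≤ c := Nat.cast_nonneg _
  have h10 : ((N % d : ℕ) : ℝ) * NR n d / d ≤ NR n d := by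
    rw [div_le_iff₀ hd']
    have : (0:ℝ) ≤ NR n d := Nat.cast_nonneg _
    nlinarith
  have h11 : 0 ≤ ((N % d : ℕ) : ℝ) * NR n d / d := by positivity
  rw [abs_le]
  constructor <;> linarith

end Pool.Agent.Helper379.Roots
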