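import Mathlib

namespace Pool.Agent.Helper379.Sel

open Finset Nat ArithmeticFunction BoundingSieve
open scoped ArithmeticFunction.Moebius ArithmeticFunction.zeta

theorem sum_moebius_divisors (m : ℕ) :
    ∑ e ∈ m.divisors, μ e = if m = 1 then 1 else 0 := by
  have h : (μ * (ζ : ArithmeticFunction ℤ)) m = (1 : ArithmeticFunction ℤ) m := by
    rw [moebius_mul_coe_zeta]
  rw [coe_mul_zeta_apply] at h
  rw [h, ArithmeticFunction.one_apply]

theorem sum_moebius_between {P l0 l : ℕ} (hl0 : l0 ≠ 0) (hl : Squarefree l) (hlP : l ∣ P) (hP : P ≠ 0) :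
    ∑ d ∈ P.divisors with (l0 ∣ d ∧ d ∣ l), (μ d : ℝ) = if l0 = l then (μ l0 : ℝ) else 0 := by
  by_cases h : l0 ∣ l
  · obtain ⟨m, rfl⟩ := h
    have hm : m ≠ 0 := by rintro rfl; simp at hl
    have hset : (P.divisors.filter (fun d => l0 ∣ d ∧ d ∣ l0 * m)) = m.divisors.image (fun e => l0 * e) := by
      ext d
      simp only [mem_filter, mem_divisors, mem_image]
      constructor
      · rintro ⟨⟨hdP, _⟩, ⟨e, rfl⟩, hdl⟩
        refine ⟨e, ⟨?_, hm⟩, rfl⟩
        exact (Nat.mul_dvd_mul_iff_left (Nat.pos_of_ne_zero hl0)).mp hdl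
      · rintro ⟨e, ⟨hem, _⟩, rfl⟩
        have : l0 * e ∣ l0 * m := Nat.mul_dvd_mul_left l0 hem
        exact ⟨⟨this.trans hlP, hP⟩, Dvd.intro e rfl, this⟩
    rw [hset, sum_image (fun a _ b _ hab => Nat.eq_of_mul_eq_mul_left (Nat.pos_of_ne_zero hl0) hab)]
    have hcop : Nat.Coprime l0 m := Nat.coprime_of_squarefree_mul hl
    have h1 : ∀ e ∈ m.divisors, ((μ (l0 * e) : ℤ) : ℝ) = (μ l0 : ℝ) * (μ e : ℝ) := by
      intro e he
      have : Nat.Coprime l0 e := hcop.coprime_dvd_right (dvd_of_mem_divisors he)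
      rw [isMultiplicative_moebius.map_mul_of_coprime this]
      push_cast; ring
    rw [sum_congr rfl h1, ← mul_sum]
    have h2 : ∑ e ∈ m.divisors, (μ e : ℝ) = if m = 1 then 1 else 0 := by
      have := sum_moebius_divisors m
      have h3 : ((∑ e ∈ m.divisors, μ e : ℤ) : ℝ) = ((if m = 1 then 1 else 0 : ℤ) : ℝ) := by rw [this]
      push_cast at h3
      exact h3
    rw [h2]
    by_cases hm1 : m = 1
    · subst hm1; simp
    · rw [if_neg hm1, mul_zero, if_neg]
      intro hc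
      apply hm1
      have : l0 * 1 = l0 * m := by rw [mul_one]; exact hc
      exact (Nat.eq_of_mul_eq_mul_left (Nat.pos_of_ne_zero hl0) this).symm
  · have hne : l0 ≠ l := fun hc => h (hc ▸ dvd_rfl)
    rw [if_neg hne, filter_eq_empty_iff.mpr, sum_empty]
    rintro d _ ⟨h1, h2⟩
    exact h (h1.trans h2)

variable (s : BoundingSieve) (z : ℕ)

/-- sum of Selberg terms up to level -/
noncomputable def GS : ℝ := ∑ l ∈ divisors s.prodPrimes with l ≤ z, s.selbergTerms l

/-- partial sum of Selberg terms over multiples of d -/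
noncomputable def SS (d : ℕ) : ℝ := ∑ l ∈ divisors s.prodPrimes with (d ∣ l ∧ l ≤ z), s.selbergTerms l

/-- Selberg weights -/
noncomputable def wt (d : ℕ) : ℝ :=
  (s.nu d)⁻¹ * (μ d : ℝ) * SS s z d / GS s z

variable {s z}

theorem GS_pos (hz : 1 ≤ z) : 0 < GS s z := by
  unfold GS
  apply sum_pos
  · intro l hl
    exact selbergTerms_pos (dvd_of_mem_divisors (mem_filter.mp hl).1)
  · exact ⟨1, mem_filter.mpr ⟨mem_divisors.mpr ⟨one_dvd _, prodPrimes_ne_zero⟩, hz⟩⟩

theorem SS_one : SS s z 1 = GS s z := by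
  unfold SS GS
  simp

theorem SS_nonneg (d : ℕ) : 0 ≤ SS s z d := by
  unfold SS
  apply sum_nonneg
  intro l hl
  exact (selbergTerms_pos (dvd_of_mem_divisors (mem_filter.mp hl).1)).le

theorem SS_le (d : ℕ) : SS s z d ≤ GS s z := by
  unfold SS GS
  apply sum_le_sum_of_subset_of_nonneg
  · intro l hl
    rw [mem_filter] at hl ⊢
    exact ⟨hl.1, hl.2.2⟩
  · intro l hl _
    exact (selbergTerms_pos (dvd_of_mem_divisors (mem_filter.mp hl).1)).le

theorem SS_eq_zero {d : ℕ} (hd : z < d) : SS s z d = 0 := by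
  unfold SS
  rw [filter_eq_empty_iff.mpr, sum_empty]
  rintro l hl ⟨h1, h2⟩
  have : 0 < l := Nat.pos_of_mem_divisors hl
  have := Nat.le_of_dvd this h1
  omega

theorem wt_one (hz : 1 ≤ z) : wt s z 1 = 1 := by
  unfold wt
  rw [SS_one, s.nu_mult.map_one]
  have := GS_pos (s := s) hz
  rw [inv_one, moebius_apply_one, Int.cast_one, one_mul, one_mul, div_self this.ne']

theorem wt_zero_of_gt {d : ℕ} (hd : z < d) : wt s z d = 0 := by
  unfold wt
  rw [SS_eq_zero hd]; simp

theorem abs_wt_le (hz : 1 ≤ z) {d : ℕ} (hd : d ∣ s.prodPrimes) : |wt s z d| ≤ (s.nu d)⁻¹ := by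
  unfold wt
  have hG := GS_pos (s := s) hz
  have hnu := nu_pos_of_dvd_prodPrimes hd
  rw [abs_div, abs_mul, abs_mul, abs_of_pos (inv_pos.mpr hnu), abs_of_nonneg (SS_nonneg d), abs_of_pos hG]
  rw [div_le_iff₀ hG]
  have h1 : |(μ d : ℝ)| ≤ 1 := by
    have := abs_moebius_le_one (n := d)
    exact_mod_cast this
  have h2 := SS_le (s := s) (z := z) d
  have h3 := SS_nonneg (s := s) (z := z) d
  have h4 := inv_pos.mpr hnu
  calc (s.nu d)⁻¹ * |(μ d : ℝ)| * SS s z d ≤ (s.nu d)⁻¹ * 1 * SS s z d := by gcongr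
    _ = (s.nu d)⁻¹ * SS s z d := by ring
    _ ≤ (s.nu d)⁻¹ * GS s z := by gcongr

theorem diag (hz : 1 ≤ z) {l0 : ℕ} (hl0 : l0 ∈ divisors s.prodPrimes) :
    (∑ d ∈ divisors s.prodPrimes, if l0 ∣ d then s.nu d * wt s z d else 0) =
      if l0 ≤ z then (μ l0 : ℝ) * s.selbergTerms l0 / GS s z else 0 := by
  have hG := GS_pos (s := s) hz
  have hl0' : l0 ≠ 0 := (Nat.pos_of_mem_divisors hl0).ne'
  have h1 : ∀ d ∈ divisors s.prodPrimes, (if l0 ∣ d then s.nu d * wt s z d else 0) =
      ∑ l ∈ divisors s.prodPrimes with l ≤ z, (if l0 ∣ d ∧ d ∣ l then (μ d : ℝ) * (s.selbergTerms l / GS s z) else 0) := by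
    intro d hd
    have hnu := nu_pos_of_dvd_prodPrimes (dvd_of_mem_divisors hd)
    by_cases h : l0 ∣ d
    · simp only [h, if_true, true_and]
      unfold wt SS
      rw [← sum_filter, filter_filter]
      rw [show s.nu d * ((s.nu d)⁻¹ * (μ d : ℝ) * (∑ l ∈ divisors s.prodPrimes with (d ∣ l ∧ l ≤ z), s.selbergTerms l) / GS s z) =
        (s.nu d * (s.nu d)⁻¹) * ((μ d : ℝ) * ((∑ l ∈ divisors s.prodPrimes with (d ∣ l ∧ l ≤ z), s.selbergTerms l) / GS s z)) by ring]
      rw [mul_inv_cancel₀ hnu.ne', one_mul, sum_div, mul_sum]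
      apply sum_congr
      · ext l
        simp only [mem_filter]
        tauto
      · intro l _; rfl
    · simp [h]
  rw [sum_congr rfl h1, sum_comm]
  have h2 : ∀ l ∈ (divisors s.prodPrimes).filter (fun l => l ≤ z),
      (∑ d ∈ divisors s.prodPrimes, (if l0 ∣ d ∧ d ∣ l then (μ d : ℝ) * (s.selbergTerms l / GS s z) else 0)) =
      if l0 = l then (μ l0 : ℝ) * s.selbergTerms l0 / GS s z else 0 := by
    intro l hl
    have hl' := mem_filter.mp hl
    have hld := dvd_of_mem_divisors hl'.1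
    rw [← sum_filter, ← sum_mul, sum_moebius_between hl0' (squarefree_of_dvd_prodPrimes hld) hld prodPrimes_ne_zero]
    split_ifs with h
    · subst h; ring
    · ring
  rw [sum_congr rfl h2, sum_ite_eq]
  by_cases h : l0 ≤ z
  · rw [if_pos (mem_filter.mpr ⟨hl0, h⟩), if_pos h]
  · have : l0 ∉ {l ∈ s.prodPrimes.divisors | l ≤ z} := fun hc => h (mem_filter.mp hc).2
    rw [if_neg this, if_neg h]

theorem mainSum_eq (hz : 1 ≤ z) : s.mainSum (lambdaSquared (wt s z)) = (GS s z)⁻¹ := by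
  have hG := GS_pos (s := s) hz
  rw [mainSum_lambdaSquared_eq_sum_mul_sum_sq]
  have h1 : ∀ l ∈ divisors s.prodPrimes, (s.selbergTerms l)⁻¹ *
        (∑ d ∈ divisors s.prodPrimes, if l ∣ d then s.nu d * wt s z d else 0) ^ 2 =
        if l ≤ z then s.selbergTerms l / (GS s z) ^ 2 else 0 := by
    intro l hl
    rw [diag hz hl]
    have hpos := selbergTerms_pos (s := s) (dvd_of_mem_divisors hl)
    split_ifs
    · have hmu : ((μ l : ℝ)) ^ 2 = 1 := by
        have := moebius_sq_eq_one_of_squarefree (squarefree_of_dvd_prodPrimes (s := s) (dvd_of_mem_divisors hl))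
        exact_mod_cast this
      rw [div_pow, mul_pow, hmu]
      field_simp
    · simp
  rw [sum_congr rfl h1, ← sum_filter, ← sum_div]
  change GS s z / (GS s z) ^ 2 = _
  field_simp

/-- error bound -/
theorem errSum_le (hz : 1 ≤ z) (hnu : ∀ d, d ∣ s.prodPrimes → (s.nu d)⁻¹ ≤ d)
    (hrem : ∀ d, d ∣ s.prodPrimes → |s.rem d| ≤ d) :
    s.errSum (lambdaSquared (wt s z)) ≤ (z : ℝ) ^ 6 := by
  unfold errSum
  set D := divisors s.prodPrimes with hD
  set E := D.filter (fun d => d ≤ z) with hE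
  have h1 : ∀ d ∈ D, |lambdaSquared (wt s z) d| * |s.rem d| ≤
      ∑ d1 ∈ E, ∑ d2 ∈ E, if d = Nat.lcm d1 d2 then |wt s z d1| * |wt s z d2| * |s.rem d| else 0 := by
    intro d hd
    have hdd := dvd_of_mem_divisors hd
    have hd0 : d ≠ 0 := (Nat.pos_of_mem_divisors hd).ne'
    have : |lambdaSquared (wt s z) d| ≤ ∑ d1 ∈ E, ∑ d2 ∈ E, if d = Nat.lcm d1 d2 then |wt s z d1| * |wt s z d2| else 0 := by
      unfold lambdaSquared
      refine (abs_sum_le_sum_abs _ _).trans ?_
      have step1 : ∀ d1 ∈ d.divisors, |∑ d2 ∈ d.divisors, if d = Nat.lcm d1 d2 then wt s z d1 * wt s z d2 else 0| ≤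
          ∑ d2 ∈ E, if d = Nat.lcm d1 d2 then |wt s z d1| * |wt s z d2| else 0 := by
        intro d1 _
        refine (abs_sum_le_sum_abs _ _).trans ?_
        have : ∀ d2 ∈ d.divisors, |if d = Nat.lcm d1 d2 then wt s z d1 * wt s z d2 else 0| ≤
          if d2 ∈ E then (if d = Nat.lcm d1 d2 then |wt s z d1| * |wt s z d2| else 0) else 0 := by
          intro d2 hd2
          by_cases h2 : d2 ∈ E
          · rw [if_pos h2]
            split_ifs
            · rw [abs_mul]
            · simp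
          · rw [if_neg h2]
            have hz2 : z < d2 := by
              by_contra hcon
              apply h2
              rw [hE, mem_filter, hD, mem_divisors]
              exact ⟨⟨(dvd_of_mem_divisors hd2).trans hdd, prodPrimes_ne_zero⟩, by omega⟩
            rw [wt_zero_of_gt hz2]
            simp
        refine (sum_le_sum this).trans ?_
        rw [← sum_filter]
        apply sum_le_sum_of_subset_of_nonneg
        · intro x hx; exact (mem_filter.mp hx).2
        · intro x _ _; split_ifs <;> positivity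
      refine (sum_le_sum step1).trans ?_
      have step2 : ∀ d1 ∈ d.divisors, (∑ d2 ∈ E, if d = Nat.lcm d1 d2 then |wt s z d1| * |wt s z d2| else 0) ≤
          if d1 ∈ E then (∑ d2 ∈ E, if d = Nat.lcm d1 d2 then |wt s z d1| * |wt s z d2| else 0) else 0 := by
        intro d1 hd1
        by_cases h2 : d1 ∈ E
        · rw [if_pos h2]
        · rw [if_neg h2]
          have hz2 : z < d1 := by
            by_contra hcon
            apply h2
            rw [hE, mem_filter, hD, mem_divisors]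
            exact ⟨⟨(dvd_of_mem_divisors hd1).trans hdd, prodPrimes_ne_zero⟩, by omega⟩
          rw [wt_zero_of_gt hz2]
          simp
      refine (sum_le_sum step2).trans ?_
      rw [← sum_filter]
      apply sum_le_sum_of_subset_of_nonneg
      · intro x hx; exact (mem_filter.mp hx).2
      · intro x _ _
        apply sum_nonneg
        intro y _; split_ifs <;> positivity
    calc |lambdaSquared (wt s z) d| * |s.rem d| ≤
        (∑ d1 ∈ E, ∑ d2 ∈ E, if d = Nat.lcm d1 d2 then |wt s z d1| * |wt s z d2| else 0) * |s.rem d| := by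
          gcongr
      _ = _ := by
        rw [sum_mul]
        apply sum_congr rfl; intro d1 _
        rw [sum_mul]
        apply sum_congr rfl; intro d2 _
        split_ifs <;> simp
  refine (sum_le_sum h1).trans ?_
  rw [sum_comm]
  have h2 : ∀ d1 ∈ E, (∑ d ∈ D, ∑ d2 ∈ E, if d = Nat.lcm d1 d2 then |wt s z d1| * |wt s z d2| * |s.rem d| else 0) ≤
      (z:ℝ)^5 := by
    intro d1 hd1
    rw [sum_comm]
    have h3 : ∀ d2 ∈ E, (∑ d ∈ D, if d = Nat.lcm d1 d2 then |wt s z d1| * |wt s z d2| * |s.rem d| else 0) ≤ (z:ℝ)^4 := by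
      intro d2 hd2
      rw [hE, mem_filter] at hd1 hd2
      have hd1P := dvd_of_mem_divisors hd1.1
      have hd2P := dvd_of_mem_divisors hd2.1
      have hlcm : Nat.lcm d1 d2 ∣ s.prodPrimes := Nat.lcm_dvd hd1P hd2P
      rw [sum_ite_eq' D (Nat.lcm d1 d2), if_pos (mem_divisors.mpr ⟨hlcm, prodPrimes_ne_zero⟩)]
      have e1 : |wt s z d1| ≤ z := (abs_wt_le hz hd1P).trans ((hnu d1 hd1P).trans (by exact_mod_cast hd1.2))
      have e2 : |wt s z d2| ≤ z := (abs_wt_le hz hd2P).trans ((hnu d2 hd2P).trans (by exact_mod_cast hd2.2))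
      have e3 : |s.rem (Nat.lcm d1 d2)| ≤ (z:ℝ)^2 := by
        refine (hrem _ hlcm).trans ?_
        have : Nat.lcm d1 d2 ≤ z ^ 2 := by
          have h0 : 0 < d1 * d2 := Nat.mul_pos (Nat.pos_of_mem_divisors hd1.1) (Nat.pos_of_mem_divisors hd2.1)
          calc Nat.lcm d1 d2 ≤ d1 * d2 := Nat.le_of_dvd h0 (Nat.lcm_dvd_mul d1 d2)
            _ ≤ z * z := Nat.mul_le_mul hd1.2 hd2.2
            _ = z ^ 2 := by ring
        exact_mod_cast this
      calc |wt s z d1| * |wt s z d2| * |s.rem (Nat.lcm d1 d2)| ≤ z * z * (z:ℝ)^2 := by gcongr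
        _ = (z:ℝ)^4 := by ring
    refine (sum_le_sum h3).trans ?_
    rw [sum_const, nsmul_eq_mul]
    have hcard : (#E : ℝ) ≤ z := by
      have : #E ≤ #(Icc 1 z) := by
        apply card_le_card
        intro x hx
        rw [hE, mem_filter] at hx
        exact mem_Icc.mpr ⟨Nat.pos_of_mem_divisors hx.1, hx.2⟩
      rw [Nat.card_Icc] at this
      exact_mod_cast this
    calc (#E : ℝ) * (z:ℝ)^4 ≤ z * (z:ℝ)^4 := by gcongr
      _ = (z:ℝ)^5 := by ring
  have h2' : (∑ y ∈ E, ∑ x ∈ D, ∑ d2 ∈ E, if x = Nat.lcm y d2 then |wt s z y| * |wt s z d2| * |s.rem x| else 0) ≤ ∑ y ∈ E, (z:ℝ)^5 := sum_le_sum h2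
  refine h2'.trans ?_
  rw [sum_const, nsmul_eq_mul]
  have hcard : (#E : ℝ) ≤ z := by
    have : #E ≤ #(Icc 1 z) := by
      apply card_le_card
      intro x hx
      rw [hE, mem_filter] at hx
      exact mem_Icc.mpr ⟨Nat.pos_of_mem_divisors hx.1, hx.2⟩
    rw [Nat.card_Icc] at this
    exact_mod_cast this
  calc (#E : ℝ) * (z:ℝ)^5 ≤ z * (z:ℝ)^5 := by gcongr
    _ = (z:ℝ)^6 := by ring

theorem selberg_bound (hz : 1 ≤ z) (hnu : ∀ d, d ∣ s.prodPrimes → (s.nu d)⁻¹ ≤ d)
    (hrem : ∀ d, d ∣ s.prodPrimes → |s.rem d| ≤ d) :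
    s.siftedSum ≤ s.totalMass / GS s z + (z:ℝ)^6 := by
  have h := siftedSum_le_mainSum_errSum_of_upperMoebius (s := s) (lambdaSquared (wt s z))
    (upperMoebius_lambdaSquared (wt s z) (wt_one hz))
  rw [mainSum_eq hz] at h
  have h2 := errSum_le hz hnu hrem
  rw [div_eq_mul_inv]
  linarith

end Pool.Agent.Helper379.Sel
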