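import Mathlib
import Pool.Agent.Helper379.Div3
import Pool.Agent.Helper379.Sel
import Pool.Agent.Helper379.Roots
import Pool.Agent.Helper379.Lower2

namespace Pool.Agent.Helper379.Main1

open Finset Nat ArithmeticFunction BoundingSieve
open Pool.Agent.Helper379
open scoped Classical

/-- number of excluded classes -/
def cc (p : ℕ) : ℕ := if p % 4 = 1 then 2 else 1

/-- density -/
noncomputable def nuf : ArithmeticFunction ℝ := ArithmeticFunction.prodPrimeFactors (fun p => (cc p : ℝ) / p)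

theorem nuf_mult : nuf.IsMultiplicative := ArithmeticFunction.IsMultiplicative.prodPrimeFactors _

theorem nuf_prime {p : ℕ} (hp : p.Prime) : nuf p = (cc p : ℝ) / p := by
  unfold nuf
  rw [prodPrimeFactors_apply hp.ne_zero, hp.primeFactors, prod_singleton]

/-- the sifting primes -/
noncomputable def PS (T : Finset ℕ) (z : ℕ) : Finset ℕ :=
  ((Icc 1 z).filter (fun p => p.Prime ∧ p % 4 = 1)) ∪ T

variable {T : Finset ℕ} {z : ℕ}

theorem PS_prime (hT : ∀ p ∈ T, p.Prime ∧ p % 4 = 3) : ∀ p ∈ PS T z, p.Prime ∧ (p % 4 = 1 ∨ p % 4 = 3) := by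
  intro p hp
  unfold PS at hp
  rw [mem_union, mem_filter] at hp
  rcases hp with h | h
  · exact ⟨h.2.1, Or.inl h.2.2⟩
  · exact ⟨(hT p h).1, Or.inr (hT p h).2⟩

theorem PS_squarefree (hT : ∀ p ∈ T, p.Prime ∧ p % 4 = 3) : Squarefree (∏ p ∈ PS T z, p) := by
  refine Finset.squarefree_prod_of_pairwise_isCoprime (fun p hp q hq hpq => ?_) (fun p hp => ?_)
  · exact Nat.coprime_iff_isRelPrime.mp ((Nat.coprime_primes (PS_prime hT p hp).1 (PS_prime hT q hq).1).mpr hpq)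
  · exact (PS_prime hT p hp).1.prime.squarefree

theorem mem_PS_of_dvd (hT : ∀ p ∈ T, p.Prime ∧ p % 4 = 3) {p : ℕ} (hp : p.Prime) (h : p ∣ ∏ p ∈ PS T z, p) :
    p ∈ PS T z := by
  rw [Prime.dvd_finsetProd_iff hp.prime] at h
  obtain ⟨q, hq, hpq⟩ := h
  rw [(Nat.prime_dvd_prime_iff_eq hp (PS_prime hT q hq).1).mp hpq]
  exact hq

theorem cc_pos (p : ℕ) : 0 < cc p := by unfold cc; split_ifs <;> norm_num

theorem cc_lt {p : ℕ} (hp : p.Prime) (h : p % 4 = 1 ∨ p % 4 = 3) : cc p < p := by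
  unfold cc
  have := hp.two_le
  split_ifs <;> omega

/-- the sieve instance -/
noncomputable def sv (n : ℕ) (T : Finset ℕ) (z : ℕ) (hT : ∀ p ∈ T, p.Prime ∧ p % 4 = 3) : BoundingSieve where
  support := (range n).image (fun s => n ^ 2 + s ^ 2)
  prodPrimes := ∏ p ∈ PS T z, p
  prodPrimes_squarefree := PS_squarefree hT
  weights := fun _ => 1
  weights_nonneg := fun _ => zero_le_one
  totalMass := n
  nu := nuf
  nu_mult := nuf_mult
  nu_pos_of_prime := by
    intro p hp _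
    rw [nuf_prime hp]
    have h1 : (0:ℝ) < cc p := by exact_mod_cast cc_pos p
    have h2 : (0:ℝ) < p := by exact_mod_cast hp.pos
    positivity
  nu_lt_one_of_prime := by
    intro p hp hpd
    rw [nuf_prime hp]
    have h2 : (0:ℝ) < p := by exact_mod_cast hp.pos
    rw [div_lt_one h2]
    exact_mod_cast cc_lt hp (PS_prime hT p (mem_PS_of_dvd hT hp hpd)).2

theorem NR_eq {n : ℕ} (hT : ∀ p ∈ T, p.Prime ∧ p % 4 = 3)
    (hn1 : ∀ p ∈ T, p ∣ n) (hn2 : ∀ p, p.Prime → p % 4 = 1 → ¬ p ∣ n) :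
    ∀ d, d ∣ (∏ p ∈ PS T z, p) → Roots.NR n d = ∏ p ∈ d.primeFactors, cc p := by
  have hsq := PS_squarefree (z := z) hT
  intro d
  refine Nat.recOnPosPrimePosCoprime (motive := fun d => d ∣ (∏ p ∈ PS T z, p) → Roots.NR n d = ∏ p ∈ d.primeFactors, cc p)
    ?_ ?_ ?_ ?_ d
  · intro p k hp hk hd
    have hk1 : k = 1 := by
      have h1 := hsq.squarefree_of_dvd hd
      rcases (Nat.squarefree_pow_iff hp.ne_one hk.ne').mp h1 with ⟨_, h⟩
      exact h
    subst hk1
    rw [pow_one] at hd ⊢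
    rw [hp.primeFactors, prod_singleton]
    have hmem := mem_PS_of_dvd hT hp hd
    unfold cc
    unfold PS at hmem
    rw [mem_union, mem_filter] at hmem
    rcases hmem with h | h
    · rw [if_pos h.2.2]
      exact Roots.NR_one_mod_four n p hp h.2.2 (hn2 p hp h.2.2)
    · have h3 := (hT p h).2
      rw [if_neg (by omega)]
      exact Roots.NR_dvd n p hp (hn1 p h)
  · intro h
    exact absurd (zero_dvd_iff.mp h) hsq.ne_zero
  · intro _
    simp [Roots.NR_one]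
  · intro a b _ _ hab ha hb hd
    rw [Roots.NR_mul n a b hab, ha ((Nat.dvd_mul_right a b).trans hd), hb ((Nat.dvd_mul_left b a).trans hd),
      hab.primeFactors_mul, prod_union hab.disjoint_primeFactors]

theorem NR_le {n : ℕ} (hT : ∀ p ∈ T, p.Prime ∧ p % 4 = 3)
    (hn1 : ∀ p ∈ T, p ∣ n) (hn2 : ∀ p, p.Prime → p % 4 = 1 → ¬ p ∣ n)
    (d : ℕ) (hd : d ∣ (∏ p ∈ PS T z, p)) : Roots.NR n d ≤ d := by
  have hsq := PS_squarefree (z := z) hT
  rw [NR_eq hT hn1 hn2 d hd]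
  conv_rhs => rw [← Nat.prod_primeFactors_of_squarefree (hsq.squarefree_of_dvd hd)]
  apply prod_le_prod'
  intro p hp
  have hpp := Nat.prime_of_mem_primeFactors hp
  exact (cc_lt hpp (PS_prime hT p (mem_PS_of_dvd hT hpp ((Nat.dvd_of_mem_primeFactors hp).trans hd))).2).le

theorem nuf_eq {n : ℕ} (hT : ∀ p ∈ T, p.Prime ∧ p % 4 = 3)
    (hn1 : ∀ p ∈ T, p ∣ n) (hn2 : ∀ p, p.Prime → p % 4 = 1 → ¬ p ∣ n)
    (d : ℕ) (hd : d ∣ (∏ p ∈ PS T z, p)) : nuf d = (Roots.NR n d : ℝ) / d := by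
  have hsq := PS_squarefree (z := z) hT
  have hd0 : d ≠ 0 := fun hc => hsq.ne_zero (by rw [hc] at hd; exact zero_dvd_iff.mp hd)
  rw [NR_eq hT hn1 hn2 d hd]
  have hdd : (d:ℝ) = ∏ p ∈ d.primeFactors, (p:ℝ) := by
    have h0 := Nat.prod_primeFactors_of_squarefree (hsq.squarefree_of_dvd hd)
    have h00 : ((∏ p ∈ d.primeFactors, p : ℕ) : ℝ) = (d : ℝ) := by rw [h0]
    rw [← h00]
    push_cast
    rfl
  have h1 : nuf d = ∏ p ∈ d.primeFactors, (cc p : ℝ) / p := by
    unfold nuf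
    rw [prodPrimeFactors_apply hd0]
  rw [h1, prod_div_distrib, ← hdd]
  push_cast
  rfl

theorem multSum_eq {n : ℕ} (hT : ∀ p ∈ T, p.Prime ∧ p % 4 = 3) (d : ℕ) :
    (sv n T z hT).multSum d = (Nat.count (fun x => d ∣ n ^ 2 + x ^ 2) n : ℝ) := by
  unfold multSum
  change ∑ m ∈ (range n).image (fun s => n ^ 2 + s ^ 2), (if d ∣ m then (1:ℝ) else 0) = _
  rw [sum_image]
  · rw [Nat.count_eq_card_filter_range, card_eq_sum_ones, sum_filter]
    push_cast
    rfl
  · intro a _ b _ hab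
    have : a ^ 2 = b ^ 2 := by simpa using hab
    exact (Nat.pow_left_injective (n := 2) (by norm_num)) this

theorem rem_le {n : ℕ} (hT : ∀ p ∈ T, p.Prime ∧ p % 4 = 3)
    (hn1 : ∀ p ∈ T, p ∣ n) (hn2 : ∀ p, p.Prime → p % 4 = 1 → ¬ p ∣ n)
    (d : ℕ) (hd : d ∣ (sv n T z hT).prodPrimes) : |(sv n T z hT).rem d| ≤ d := by
  have hd' : d ∣ (∏ p ∈ PS T z, p) := hd
  have hsq := PS_squarefree (z := z) hT
  have hd0 : d ≠ 0 := fun hc => hsq.ne_zero (by rw [hc] at hd'; exact zero_dvd_iff.mp hd')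
  unfold rem
  rw [multSum_eq]
  change |(Nat.count (fun x => d ∣ n ^ 2 + x ^ 2) n : ℝ) - nuf d * n| ≤ d
  rw [nuf_eq hT hn1 hn2 d hd']
  have h1 := Roots.abs_count_sub n d n (Nat.pos_of_ne_zero hd0)
  have h2 : (Roots.NR n d : ℝ) / d * n = n * (Roots.NR n d : ℝ) / d := by ring
  rw [h2]
  refine h1.trans ?_
  exact_mod_cast NR_le hT hn1 hn2 d hd'

theorem nu_inv_le (n : ℕ) (hT : ∀ p ∈ T, p.Prime ∧ p % 4 = 3)
    (d : ℕ) (hd : d ∣ (sv n T z hT).prodPrimes) : ((sv n T z hT).nu d)⁻¹ ≤ d := by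
  have hd' : d ∣ (∏ p ∈ PS T z, p) := hd
  have hsq := PS_squarefree (z := z) hT
  have hd0 : d ≠ 0 := fun hc => hsq.ne_zero (by rw [hc] at hd'; exact zero_dvd_iff.mp hd')
  change (nuf d)⁻¹ ≤ d
  conv_rhs => rw [← Nat.prod_primeFactors_of_squarefree (hsq.squarefree_of_dvd hd')]
  unfold nuf
  rw [prodPrimeFactors_apply hd0, ← prod_inv_distrib]
  push_cast
  apply prod_le_prod
  · intro p _; positivity
  · intro p hp
    rw [inv_div]
    have h1 : (1:ℝ) ≤ cc p := by exact_mod_cast cc_pos p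
    exact div_le_self (Nat.cast_nonneg p) h1

theorem sifted_ge {n : ℕ} (hT : ∀ p ∈ T, p.Prime ∧ p % 4 = 3)
    (hTz : ∀ p ∈ T, p ≤ z) (hz : z < n ^ 2) :
    ((∑ s ∈ Ico 1 n, if (n ^ 2 + s ^ 2).Prime then 1 else 0 : ℕ) : ℝ) ≤ (sv n T z hT).siftedSum := by
  unfold siftedSum
  change _ ≤ ∑ m ∈ (range n).image (fun s => n ^ 2 + s ^ 2), (if Nat.Coprime (∏ p ∈ PS T z, p) m then (1:ℝ) else 0)
  rw [sum_image]
  · push_cast
    have hsub : Ico 1 n ⊆ range n := by
      intro x hx; rw [mem_Ico] at hx; rw [mem_range]; exact hx.2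
    refine le_trans ?_ (sum_le_sum_of_subset_of_nonneg hsub (fun i _ _ => by split_ifs <;> norm_num))
    apply sum_le_sum
    intro s _
    by_cases hp : (n ^ 2 + s ^ 2).Prime
    · rw [if_pos hp, if_pos]
      by_contra hcon
      have hdvd : n ^ 2 + s ^ 2 ∣ ∏ p ∈ PS T z, p := by
        rw [Nat.coprime_comm, Nat.Prime.coprime_iff_not_dvd hp] at hcon
        exact not_not.mp hcon
      have hmem := mem_PS_of_dvd hT hp hdvd
      unfold PS at hmem
      rw [mem_union, mem_filter, mem_Icc] at hmem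
      rcases hmem with h | h
      · have := h.1.2; omega
      · have := hTz _ h; omega
    · rw [if_neg hp]; split_ifs <;> norm_num
  · intro a _ b _ hab
    have : a ^ 2 = b ^ 2 := by simpa using hab
    exact (Nat.pow_left_injective (n := 2) (by norm_num)) this

theorem st_eq_gg (n : ℕ) (hT : ∀ p ∈ T, p.Prime ∧ p % 4 = 3) (l : ℕ) (hl0 : l ≠ 0)
    (h : ∀ p, p.Prime → p ∣ l → p % 4 = 1) : (sv n T z hT).selbergTerms l = Lower2.gg l := by
  rw [selbergTerms_apply]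
  change nuf l * ∏ p ∈ l.primeFactors, (1 - nuf p)⁻¹ = _
  unfold Lower2.gg
  have h1 : nuf l = ∏ p ∈ l.primeFactors, (cc p : ℝ) / p := by
    unfold nuf; rw [prodPrimeFactors_apply hl0]
  rw [h1, ← prod_mul_distrib]
  apply prod_congr rfl
  intro p hp
  have hpp := Nat.prime_of_mem_primeFactors hp
  rw [nuf_prime hpp]
  have h4 := h p hpp (Nat.dvd_of_mem_primeFactors hp)
  unfold cc
  rw [if_pos h4]
  push_cast
  rw [div_eq_mul_inv ((2:ℝ)/p)]

theorem GS_ge (n : ℕ) (hT : ∀ p ∈ T, p.Prime ∧ p % 4 = 3) (y : ℕ) (hy : ∀ q ∈ T, q * y ≤ z) (hyz : y ≤ z) :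
    (∑ q ∈ T, (1:ℝ) / q) * (Real.log (y + 1) / 6) ≤ Sel.GS (sv n T z hT) z := by
  set L := (Icc 1 y).filter (fun l => Squarefree l ∧ ∀ p, p.Prime → p ∣ l → p % 4 = 1) with hL
  set s := sv n T z hT with hs
  have h0 := Lower2.sum_gg_ge y
  rw [← hL] at h0
  have hT0 : 0 ≤ ∑ q ∈ T, (1:ℝ) / q := sum_nonneg (fun i _ => by positivity)
  refine (mul_le_mul_of_nonneg_left h0 hT0).trans ?_
  have hcop : ∀ q ∈ T, ∀ l ∈ L, Nat.Coprime q l := by
    intro q hq l hl
    rw [Nat.Prime.coprime_iff_not_dvd (hT q hq).1]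
    intro hc
    rw [hL, mem_filter] at hl
    have h1 := hl.2.2 q (hT q hq).1 hc
    have h2 := (hT q hq).2
    omega
  rw [sum_mul_sum, ← sum_product']
  have hterm : ∀ x ∈ T ×ˢ L, (1:ℝ) / x.1 * Lower2.gg x.2 ≤ s.selbergTerms (x.1 * x.2) := by
    rintro ⟨q, l⟩ hx
    rw [mem_product] at hx
    obtain ⟨hq, hl⟩ := hx
    simp only at hq hl ⊢
    rw [selbergTerms_isMultiplicative.map_mul_of_coprime (hcop q hq l hl)]
    have hl' := hl
    rw [hL, mem_filter, mem_Icc] at hl'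
    rw [hs, st_eq_gg n hT l (by omega) hl'.2.2]
    have hg : 0 ≤ Lower2.gg l := by
      unfold Lower2.gg
      apply prod_nonneg
      intro p hp
      have hpp := Nat.prime_of_mem_primeFactors hp
      have h4 := hl'.2.2 p hpp (Nat.dvd_of_mem_primeFactors hp)
      have h5 : (3:ℝ) ≤ p := by
        have := hpp.two_le
        have : 3 ≤ p := by omega
        exact_mod_cast this
      have h6 : (2:ℝ) / p ≤ 1 := by rw [div_le_one (by linarith)]; linarith
      apply div_nonneg (by positivity) (by linarith)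
    apply mul_le_mul_of_nonneg_right _ hg
    rw [selbergTerms_apply]
    change _ ≤ nuf q * ∏ p ∈ q.primeFactors, (1 - nuf p)⁻¹
    rw [(hT q hq).1.primeFactors, prod_singleton, nuf_prime (hT q hq).1]
    have h4 := (hT q hq).2
    have hc : cc q = 1 := by unfold cc; rw [if_neg (by omega)]
    rw [hc, Nat.cast_one]
    have hq0 : (1:ℝ) < q := by exact_mod_cast (hT q hq).1.one_lt
    have h5 : (1:ℝ) / q < 1 := by rw [div_lt_one (by linarith)]; exact hq0
    have h6 : (1:ℝ) ≤ (1 - 1 / (q:ℝ))⁻¹ := by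
      rw [one_le_inv₀ (by linarith)]
      have : (0:ℝ) < 1 / q := by positivity
      linarith
    calc (1:ℝ) / q = 1 / q * 1 := by ring
      _ ≤ 1 / q * (1 - 1 / (q:ℝ))⁻¹ := by gcongr
  refine (sum_le_sum hterm).trans ?_
  have hinj : ∀ x ∈ T ×ˢ L, ∀ x' ∈ T ×ˢ L, x.1 * x.2 = x'.1 * x'.2 → x = x' := by
    rintro ⟨q, l⟩ hx ⟨q', l'⟩ hx' heq
    rw [mem_product] at hx hx'
    simp only at hx hx' heq
    have h1 : q ∣ q' * l' := ⟨l, heq.symm⟩
    have h2 : q ∣ q' := (hcop q hx.1 l' hx'.2).dvd_of_dvd_mul_right h1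
    have h3 : q = q' := (Nat.prime_dvd_prime_iff_eq (hT q hx.1).1 (hT q' hx'.1).1).mp h2
    subst h3
    have h4 := Nat.eq_of_mul_eq_mul_left (hT q hx.1).1.pos heq
    rw [h4]
  have heq : ∑ x ∈ T ×ˢ L, s.selbergTerms (x.1 * x.2) = ∑ m ∈ (T ×ˢ L).image (fun x => x.1 * x.2), s.selbergTerms m := by
    rw [sum_image hinj]
  rw [heq]
  unfold Sel.GS
  apply sum_le_sum_of_subset_of_nonneg
  · intro m hm
    rw [mem_image] at hm
    obtain ⟨⟨q, l⟩, hx, rfl⟩ := hm
    rw [mem_product] at hx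
    obtain ⟨hq, hl⟩ := hx
    simp only at hq hl ⊢
    have hl' := hl
    rw [hL, mem_filter, mem_Icc] at hl'
    rw [mem_filter, mem_divisors]
    refine ⟨⟨?_, prodPrimes_ne_zero⟩, ?_⟩
    · change q * l ∣ ∏ p ∈ PS T z, p
      apply Nat.Coprime.mul_dvd_of_dvd_of_dvd (hcop q hq l hl)
      · exact dvd_prod_of_mem _ (by unfold PS; exact mem_union_right _ hq)
      · rw [← Nat.prod_primeFactors_of_squarefree hl'.2.1]
        apply prod_dvd_prod_of_subset
        intro p hp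
        have hpp := Nat.prime_of_mem_primeFactors hp
        have hpl := Nat.dvd_of_mem_primeFactors hp
        unfold PS
        apply mem_union_left
        rw [mem_filter, mem_Icc]
        have := Nat.le_of_dvd (by omega) hpl
        exact ⟨⟨hpp.pos, by omega⟩, hpp, hl'.2.2 p hpp hpl⟩
    · exact (Nat.mul_le_mul_left q hl'.1.2).trans (hy q hq)
  · intro m hm _
    exact (selbergTerms_pos (dvd_of_mem_divisors (mem_filter.mp hm).1)).le

end Pool.Agent.Helper379.Main1
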