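import Mathlib

set_option autoImplicit false

namespace QH

open Finset MvPolynomial

/-- Functions on the finite set of branches. -/
abbrev K (M : ℕ) := Fin M → ℂ

/-- The values of the `j`-th coordinate at the base points of the branches. -/
def Xv {n M : ℕ} (c : Fin M → Fin n → ℂ) (j : Fin n) : K M := fun m => c m j

/-- Value of a polynomial at the base points of the branches. -/
noncomputable def ev {n M : ℕ} (c : Fin M → Fin n → ℂ) (f : MvPolynomial (Fin n) ℂ) : K M :=
  fun m => eval (c m) f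

/-- The space of values of the weighted homogeneous polynomials of degree `k`. -/
noncomputable def V {n M : ℕ} (w : Fin n → ℕ) (c : Fin M → Fin n → ℂ) (k : ℕ) :
    Submodule ℂ (K M) :=
  Submodule.span ℂ {v | ∃ f : MvPolynomial (Fin n) ℂ, f.IsWeightedHomogeneous w k ∧ v = ev c f}

/-- The same, with `0` in negative degrees. -/
noncomputable def Av {n M : ℕ} (w : Fin n → ℕ) (c : Fin M → Fin n → ℂ) (i : ℤ) :
    Submodule ℂ (K M) := if 0 ≤ i then V w c i.toNat else ⊥

/-- The localisation `B` of `A` and its top degree `a` in which `A` and `B` differ. -/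
structure Data {n M : ℕ} (w : Fin n → ℕ) (c : Fin M → Fin n → ℂ) where
  B : ℤ → Submodule ℂ (K M)
  a : ℤ
  hAB : ∀ i, Av w c i ≤ B i
  hBB : ∀ i j u v, u ∈ B i → v ∈ B j → u * v ∈ B (i + j)
  htop : ∀ i, a < i → B i ≤ Av w c i
  hne : ¬ (B a ≤ Av w c a)
  hdiv : ∀ (ν : ℤ) (β : K M), (∀ j, β * Xv c j ∈ B (ν + w j)) → β ∈ B ν

theorem V_mem_iff {n M : ℕ} (w : Fin n → ℕ) (c : Fin M → Fin n → ℂ) (k : ℕ) (v : K M) :
    v ∈ V w c k ↔ ∃ f : MvPolynomial (Fin n) ℂ, f.IsWeightedHomogeneous w k ∧ v = ev c f := by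
  constructor
  · intro hv
    unfold V at hv
    induction hv using Submodule.span_induction with
    | mem x hx => exact hx
    | zero =>
      refine ⟨0, isWeightedHomogeneous_zero ℂ w k, ?_⟩
      funext m
      simp [ev]
    | add x y _ _ hx hy =>
      obtain ⟨f, hf, rfl⟩ := hx
      obtain ⟨g, hg, rfl⟩ := hy
      refine ⟨f + g, hf.add hg, ?_⟩
      funext m
      simp [ev]
    | smul a x _ hx =>
      obtain ⟨f, hf, rfl⟩ := hx
      refine ⟨a • f, ?_, ?_⟩
      · exact (weightedHomogeneousSubmodule ℂ w k).smul_mem a hf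
      · funext m
        simp [ev, smul_eval]
  · intro hv
    exact Submodule.subset_span hv

theorem V_mul {n M : ℕ} (w : Fin n → ℕ) (c : Fin M → Fin n → ℂ) (i j : ℕ) (u v : K M)
    (hu : u ∈ V w c i) (hv : v ∈ V w c j) : u * v ∈ V w c (i + j) := by
  rw [V_mem_iff] at hu hv ⊢
  obtain ⟨f, hf, rfl⟩ := hu
  obtain ⟨g, hg, rfl⟩ := hv
  refine ⟨f * g, hf.mul hg, ?_⟩
  funext m
  simp [ev]

theorem V_base {n M : ℕ} (w : Fin n → ℕ) (c : Fin M → Fin n → ℂ) :
    (1 : K M) ∈ V w c 0 ∧ ∀ j, Xv c j ∈ V w c (w j) := by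
  constructor
  · rw [V_mem_iff]
    refine ⟨1, isWeightedHomogeneous_one ℂ w, ?_⟩
    funext m
    simp [ev]
  · intro j
    rw [V_mem_iff]
    refine ⟨X j, isWeightedHomogeneous_X ℂ w j, ?_⟩
    funext m
    simp [ev, Xv]

theorem pow_mem_34676 {n M : ℕ} (w : Fin n → ℕ) (c : Fin M → Fin n → ℂ) (j : Fin n) (k : ℕ) :
    (Xv c j) ^ k ∈ V w c (k * w j) := by
  induction k with
  | zero =>
    rw [pow_zero, Nat.zero_mul]
    exact (V_base w c).1
  | succ k ih =>
    rw [pow_succ, Nat.succ_mul]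
    exact V_mul w c _ _ _ _ ih ((V_base w c).2 j)

theorem exists_unit {n M : ℕ} (w : Fin n → ℕ) (hw : ∀ i, 0 < w i) (c : Fin M → Fin n → ℂ)
    (hc : ∀ m, c m ≠ 0) : ∃ L : ℕ, 0 < L ∧ ∃ x ∈ V w c L, ∀ m, x m ≠ 0 := by
  classical
  set N : ℕ := ∏ i, w i with hN
  have hN0 : 0 < N := Finset.prod_pos (fun i _ => hw i)
  have hdvd : ∀ j, w j ∣ N := fun j => Finset.dvd_prod_of_mem w (Finset.mem_univ j)
  let p : Fin M → Polynomial ℂ := fun m =>
    ∑ j : Fin n, Polynomial.monomial (j : ℕ) ((c m j) ^ (N / w j))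
  have hp : ∀ m, p m ≠ 0 := by
    intro m h0
    obtain ⟨j, hj⟩ : ∃ j, c m j ≠ 0 := by
      by_contra hcon
      push Not at hcon
      exact hc m (funext hcon)
    have h1 : (p m).coeff (j : ℕ) = (c m j) ^ (N / w j) := by
      show (∑ j : Fin n, Polynomial.monomial (j : ℕ) ((c m j) ^ (N / w j))).coeff (j : ℕ) = _
      rw [Polynomial.finset_sum_coeff, Finset.sum_eq_single j]
      · rw [Polynomial.coeff_monomial, if_pos rfl]
      · intro b _ hb
        rw [Polynomial.coeff_monomial, if_neg (fun h => hb (Fin.ext h))]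
      · intro h
        exact absurd (Finset.mem_univ _) h
    rw [h0, Polynomial.coeff_zero] at h1
    exact pow_ne_zero _ hj h1.symm
  have hP : (∏ m, p m) ≠ 0 := Finset.prod_ne_zero_iff.2 (fun m _ => hp m)
  obtain ⟨t, ht⟩ : ∃ t : ℂ, (∏ m, p m).eval t ≠ 0 := by
    by_contra hcon
    push Not at hcon
    exact hP (Polynomial.funext (fun t => by rw [hcon t, Polynomial.eval_zero]))
  refine ⟨N, hN0, ∑ j : Fin n, (t ^ (j : ℕ)) • (Xv c j) ^ (N / w j), ?_, ?_⟩
  · apply Submodule.sum_mem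
    intro j _
    apply Submodule.smul_mem
    have := pow_mem_34676 w c j (N / w j)
    rwa [Nat.div_mul_cancel (hdvd j)] at this
  · intro m
    rw [Polynomial.eval_prod] at ht
    have h1 := Finset.prod_ne_zero_iff.1 ht m (Finset.mem_univ m)
    have h2 : (p m).eval t = (∑ j : Fin n, (t ^ (j : ℕ)) • (Xv c j) ^ (N / w j)) m := by
      show (∑ j : Fin n, Polynomial.monomial (j : ℕ) ((c m j) ^ (N / w j))).eval t = _
      rw [Polynomial.eval_finset_sum, Finset.sum_apply]
      refine Finset.sum_congr rfl (fun j _ => ?_)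
      rw [Polynomial.eval_monomial, Pi.smul_apply, Pi.pow_apply, smul_eq_mul, mul_comm]
      rfl
    rw [← h2]
    exact h1

theorem mono_bdd_stab (h : ℕ → ℕ) (hm : Monotone h) (M : ℕ) (hb : ∀ i, h i ≤ M) :
    ∃ N, ∀ i, N ≤ i → h i = h N := by
  classical
  by_contra hcon
  push Not at hcon
  have key : ∀ j : ℕ, ∃ i, j ≤ h i := by
    intro j
    induction j with
    | zero => exact ⟨0, Nat.zero_le _⟩
    | succ j ih =>
      obtain ⟨i, hi⟩ := ih
      obtain ⟨i', h1, h2⟩ := hcon i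
      exact ⟨i', by have := hm h1; omega⟩
  obtain ⟨i, hi⟩ := key (M + 1)
  have := hb i
  omega

theorem map_mul_le {n M : ℕ} (w : Fin n → ℕ) (c : Fin M → Fin n → ℂ) (L : ℕ)
    (x : K M) (hx : x ∈ V w c L) (k : ℕ) :
    (V w c k).map (LinearMap.mulLeft ℂ x) ≤ V w c (k + L) := by
  rintro _ ⟨u, hu, rfl⟩
  have := V_mul w c L k x u hx hu
  rw [add_comm] at this
  simpa using this

theorem mul_inj {M : ℕ} (x : K M) (hx0 : ∀ m, x m ≠ 0) :
    Function.Injective (LinearMap.mulLeft ℂ x) := by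
  intro a b hab
  funext m
  have := congrFun hab m
  simp only [LinearMap.mulLeft_apply, Pi.mul_apply] at this
  exact mul_left_cancel₀ (hx0 m) this

theorem V_stab {n M : ℕ} (w : Fin n → ℕ) (c : Fin M → Fin n → ℂ) (L : ℕ) (hL : 0 < L)
    (x : K M) (hx : x ∈ V w c L) (hx0 : ∀ m, x m ≠ 0) :
    ∃ k₀ : ℕ, ∀ k, k₀ ≤ k → ∀ v ∈ V w c (k + L), v * x⁻¹ ∈ V w c k := by
  classical
  have hinj := mul_inj x hx0
  have hfr : ∀ k, Module.finrank ℂ ((V w c k).map (LinearMap.mulLeft ℂ x))
      = Module.finrank ℂ (V w c k) := fun k =>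
    (LinearEquiv.finrank_eq (Submodule.equivMapOfInjective _ hinj (V w c k))).symm
  have hstep : ∀ k, Module.finrank ℂ (V w c k) ≤ Module.finrank ℂ (V w c (k + L)) := by
    intro k
    rw [← hfr k]
    exact Submodule.finrank_mono (map_mul_le w c L x hx k)
  have hst : ∀ r : ℕ, ∃ N, ∀ i, N ≤ i →
      Module.finrank ℂ (V w c (r + i * L)) = Module.finrank ℂ (V w c (r + N * L)) := by
    intro r
    apply mono_bdd_stab (fun i => Module.finrank ℂ (V w c (r + i * L))) ?_ M ?_
    · apply monotone_nat_of_le_succ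
      intro i
      have := hstep (r + i * L)
      have e : r + i * L + L = r + (i + 1) * L := by ring
      rw [e] at this
      exact this
    · intro i
      have := Submodule.finrank_le (V w c (r + i * L))
      simpa using this
  choose N hN using hst
  refine ⟨L * ((Finset.range L).sup N + 1), fun k hk v hv => ?_⟩
  have hkr : k % L < L := Nat.mod_lt _ hL
  have hNr : N (k % L) ≤ k / L := by
    have h1 : N (k % L) ≤ (Finset.range L).sup N :=
      Finset.le_sup (f := N) (Finset.mem_range.2 hkr)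
    have h2 : (Finset.range L).sup N + 1 ≤ k / L := by
      rw [Nat.le_div_iff_mul_le hL]
      rw [mul_comm]; exact hk
    omega
  have e1 : k % L + (k / L) * L = k := by
    rw [mul_comm]; exact Nat.mod_add_div k L
  have e2 : k % L + (k / L + 1) * L = k + L := by
    rw [add_mul, one_mul, ← add_assoc, e1]
  have hA := hN (k % L) (k / L) hNr
  have hB := hN (k % L) (k / L + 1) (by omega)
  rw [e1] at hA
  rw [e2] at hB
  have heq : (V w c k).map (LinearMap.mulLeft ℂ x) = V w c (k + L) := by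
    apply Submodule.eq_of_le_of_finrank_eq (map_mul_le w c L x hx k)
    rw [hfr k, hA, hB]
  rw [← heq] at hv
  obtain ⟨u, hu, huv⟩ := hv
  have : v * x⁻¹ = u := by
    funext m
    rw [← huv]
    simp only [LinearMap.mulLeft_apply, Pi.mul_apply, Pi.inv_apply]
    field_simp [hx0 m]
  rw [this]
  exact hu

def Sp {n M : ℕ} (w : Fin n → ℕ) (c : Fin M → Fin n → ℂ) (x : K M) (L : ℕ) (i : ℤ) (k : ℕ)
    (β : K M) : Prop := 0 ≤ i + k * L ∧ β * x ^ k ∈ V w c (i + k * L).toNat

theorem Sp_step {n M : ℕ} (w : Fin n → ℕ) (c : Fin M → Fin n → ℂ) (x : K M) (L : ℕ)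
    (hx : x ∈ V w c L) (i : ℤ) (k : ℕ) (β : K M) (h : Sp w c x L i k β) :
    Sp w c x L i (k + 1) β := by
  obtain ⟨h1, h2⟩ := h
  have e1 : i + ((k + 1 : ℕ) : ℤ) * L = (i + k * L) + L := by push_cast; ring
  have hL0 : (0 : ℤ) ≤ L := Int.natCast_nonneg L
  refine ⟨by rw [e1]; linarith, ?_⟩
  have e2 : (i + ((k + 1 : ℕ) : ℤ) * L).toNat = (i + k * L).toNat + L := by
    rw [e1, Int.toNat_add h1 hL0, Int.toNat_natCast]
  rw [e2, pow_succ, ← mul_assoc]
  exact V_mul w c _ _ _ _ h2 hx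

theorem Sp_mono {n M : ℕ} (w : Fin n → ℕ) (c : Fin M → Fin n → ℂ) (x : K M) (L : ℕ)
    (hx : x ∈ V w c L) (i : ℤ) (k k' : ℕ) (hk : k ≤ k') (β : K M) (h : Sp w c x L i k β) :
    Sp w c x L i k' β := by
  induction k', hk using Nat.le_induction with
  | base => exact h
  | succ m _ ih => exact Sp_step w c x L hx i m β ih

def BB {n M : ℕ} (w : Fin n → ℕ) (c : Fin M → Fin n → ℂ) (x : K M) (L : ℕ) (hL : 0 < L)
    (hx : x ∈ V w c L) (i : ℤ) : Submodule ℂ (K M) where
  carrier := {β | ∃ k : ℕ, Sp w c x L i k β}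
  zero_mem' := by
    refine ⟨i.natAbs, ?_, ?_⟩
    · have h1 : (1 : ℤ) ≤ L := by exact_mod_cast hL
      have h2 : -i ≤ (i.natAbs : ℤ) := by omega
      have h3 : (0 : ℤ) ≤ i.natAbs := Int.natCast_nonneg _
      nlinarith
    · rw [zero_mul]
      exact Submodule.zero_mem _
  add_mem' := by
    rintro u v ⟨k, hk⟩ ⟨k', hk'⟩
    have h1 := Sp_mono w c x L hx i k (max k k') (le_max_left _ _) u hk
    have h2 := Sp_mono w c x L hx i k' (max k k') (le_max_right _ _) v hk'
    refine ⟨max k k', h1.1, ?_⟩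
    rw [add_mul]
    exact Submodule.add_mem _ h1.2 h2.2
  smul_mem' := by
    rintro a u ⟨k, hk⟩
    refine ⟨k, hk.1, ?_⟩
    rw [smul_mul_assoc]
    exact Submodule.smul_mem _ _ hk.2

theorem mem_BB {n M : ℕ} (w : Fin n → ℕ) (c : Fin M → Fin n → ℂ) (x : K M) (L : ℕ) (hL : 0 < L)
    (hx : x ∈ V w c L) (i : ℤ) (β : K M) :
    β ∈ BB w c x L hL hx i ↔ ∃ k : ℕ, Sp w c x L i k β := Iff.rfl

theorem V_le_BB {n M : ℕ} (w : Fin n → ℕ) (c : Fin M → Fin n → ℂ) (x : K M) (L : ℕ) (hL : 0 < L)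
    (hx : x ∈ V w c L) (i : ℕ) (β : K M) (h : β ∈ V w c i) : β ∈ BB w c x L hL hx (i : ℤ) := by
  refine ⟨0, by simp, ?_⟩
  simpa using h

theorem BB_mul {n M : ℕ} (w : Fin n → ℕ) (c : Fin M → Fin n → ℂ) (x : K M) (L : ℕ) (hL : 0 < L)
    (hx : x ∈ V w c L) (i j : ℤ) (u v : K M) (hu : u ∈ BB w c x L hL hx i)
    (hv : v ∈ BB w c x L hL hx j) : u * v ∈ BB w c x L hL hx (i + j) := by
  obtain ⟨k, h1, h2⟩ := hu
  obtain ⟨k', h3, h4⟩ := hv
  have e1 : i + j + ((k + k' : ℕ) : ℤ) * L = (i + k * L) + (j + k' * L) := by push_cast; ring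
  refine ⟨k + k', by rw [e1]; linarith, ?_⟩
  rw [e1, Int.toNat_add h1 h3]
  have e2 : u * v * x ^ (k + k') = (u * x ^ k) * (v * x ^ k') := by rw [pow_add]; ring
  rw [e2]
  exact V_mul w c _ _ _ _ h2 h4

theorem BB_stab {n M : ℕ} (w : Fin n → ℕ) (c : Fin M → Fin n → ℂ) (x : K M) (L : ℕ) (hL : 0 < L)
    (hx : x ∈ V w c L) (hx0 : ∀ m, x m ≠ 0) (k₀ : ℕ)
    (hk₀ : ∀ k, k₀ ≤ k → ∀ v ∈ V w c (k + L), v * x⁻¹ ∈ V w c k) (i : ℤ) (hi : (k₀ : ℤ) ≤ i)
    (k : ℕ) (β : K M) (h : Sp w c x L i k β) : β ∈ V w c i.toNat := by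
  have hxx : x * x⁻¹ = 1 := by
    funext m
    exact mul_inv_cancel₀ (hx0 m)
  induction k with
  | zero => simpa [Sp] using h.2
  | succ k ih =>
    apply ih
    obtain ⟨h1, h2⟩ := h
    have hL0 : (0 : ℤ) ≤ L := Int.natCast_nonneg L
    have hk0 : (0 : ℤ) ≤ k * L := by positivity
    have hi0 : (0 : ℤ) ≤ i := le_trans (Int.natCast_nonneg k₀) hi
    have h3 : (0 : ℤ) ≤ i + k * L := by linarith
    refine ⟨h3, ?_⟩
    have e1 : i + ((k + 1 : ℕ) : ℤ) * L = (i + k * L) + L := by push_cast; ring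
    have e2 : (i + ((k + 1 : ℕ) : ℤ) * L).toNat = (i + k * L).toNat + L := by
      rw [e1, Int.toNat_add h3 hL0, Int.toNat_natCast]
    rw [e2] at h2
    have h4 := hk₀ (i + k * L).toNat (by omega) _ h2
    have e3 : β * x ^ (k + 1) * x⁻¹ = β * x ^ k := by
      rw [pow_succ]
      calc β * (x ^ k * x) * x⁻¹ = β * x ^ k * (x * x⁻¹) := by ring
        _ = β * x ^ k := by rw [hxx, mul_one]
    rw [e3] at h4
    exact h4

theorem ev_sum {n M : ℕ} (c : Fin M → Fin n → ℂ) (f : MvPolynomial (Fin n) ℂ) :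
    ev c f = ∑ d ∈ f.support, ev c (monomial d (coeff d f)) := by
  funext m
  rw [Finset.sum_apply]
  show eval (c m) f = ∑ d ∈ f.support, eval (c m) (monomial d (coeff d f))
  conv_lhs => rw [f.as_sum]
  rw [map_sum]

theorem exists_data {n M : ℕ} (w : Fin n → ℕ) (hw : ∀ i, 0 < w i) (c : Fin M → Fin n → ℂ)
    (hc : ∀ m, c m ≠ 0) (hM : 0 < M) : Nonempty (Data w c) := by
  obtain ⟨L, hL, x, hx, hx0⟩ := exists_unit w hw c hc
  obtain ⟨k₀, hk₀⟩ := V_stab w c L hL x hx hx0
  have hxx : x * x⁻¹ = 1 := by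
    funext m
    exact mul_inv_cancel₀ (hx0 m)
  have hle : ∀ i : ℤ, (k₀ : ℤ) ≤ i → BB w c x L hL hx i ≤ Av w c i := by
    intro i hi β hβ
    obtain ⟨k, hk⟩ := hβ
    have h1 := BB_stab w c x L hL hx hx0 k₀ hk₀ i hi k β hk
    have hi0 : (0 : ℤ) ≤ i := le_trans (Int.natCast_nonneg k₀) hi
    unfold Av
    rw [if_pos hi0]
    exact h1
  have hex : ∃ z : ℤ, ¬ (BB w c x L hL hx z ≤ Av w c z) := by
    refine ⟨-(L : ℤ), fun h => ?_⟩
    have h1 : x⁻¹ ∈ BB w c x L hL hx (-(L : ℤ)) := by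
      refine ⟨1, by simp, ?_⟩
      have e1 : (-(L : ℤ) + ((1 : ℕ) : ℤ) * L).toNat = 0 := by simp
      rw [e1, pow_one, mul_comm, hxx]
      exact (V_base w c).1
    have h2 := h h1
    unfold Av at h2
    have hLpos : (0 : ℤ) < L := by exact_mod_cast hL
    rw [if_neg (by linarith), Submodule.mem_bot] at h2
    have h3 := congrFun h2 ⟨0, hM⟩
    simp only [Pi.inv_apply, Pi.zero_apply, inv_eq_zero] at h3
    exact hx0 _ h3
  obtain ⟨a, ha1, ha2⟩ := Int.exists_greatest_of_bdd
    (P := fun z : ℤ => ¬ (BB w c x L hL hx z ≤ Av w c z))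
    ⟨(k₀ : ℤ), fun z hz => by
      by_contra hcon
      exact hz (hle z (by linarith))⟩ hex
  refine ⟨{ B := BB w c x L hL hx, a := a, hAB := ?_, hBB := ?_, htop := ?_, hne := ha1,
            hdiv := ?_ }⟩
  · intro i β hβ
    unfold Av at hβ
    split_ifs at hβ with hi
    · have h1 := V_le_BB w c x L hL hx i.toNat β hβ
      rwa [Int.toNat_of_nonneg hi] at h1
    · rw [Submodule.mem_bot] at hβ
      rw [hβ]
      exact Submodule.zero_mem _
  · intro i j u v hu hv
    exact BB_mul w c x L hL hx i j u v hu hv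
  · intro i hi
    by_contra hcon
    have := ha2 i hcon
    linarith
  · intro ν β hβ
    obtain ⟨f, hf, hxf⟩ := (V_mem_iff w c L x).1 hx
    have h1 : β * x ∈ BB w c x L hL hx (ν + L) := by
      have e1 : β * x = ∑ d ∈ f.support, β * ev c (monomial d (coeff d f)) := by
        rw [← Finset.mul_sum, ← ev_sum, ← hxf]
      rw [e1]
      refine Submodule.sum_mem _ fun d hd => ?_
      have hd' : coeff d f ≠ 0 := mem_support_iff.1 hd
      have hwd : Finsupp.weight w d = L := hf hd'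
      have hd0 : d ≠ 0 := by
        intro h
        rw [h, map_zero] at hwd
        omega
      obtain ⟨j, hj⟩ : ∃ j, d j ≠ 0 := by
        by_contra hcon
        push Not at hcon
        exact hd0 (Finsupp.ext hcon)
      have hle' : Finsupp.single j 1 ≤ d := by
        rw [Finsupp.single_le_iff]
        omega
      set d' := d - Finsupp.single j 1 with hd'def
      have e2 : d = Finsupp.single j 1 + d' := (add_tsub_cancel_of_le hle').symm
      have e3 : Finsupp.weight w d = w j + Finsupp.weight w d' := by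
        conv_lhs => rw [e2]
        rw [map_add, Finsupp.weight_single]
        simp
      have e4 : ev c (monomial d (coeff d f)) = Xv c j * ev c (monomial d' (coeff d f)) := by
        funext m
        show eval (c m) (monomial d (coeff d f)) = c m j * eval (c m) (monomial d' (coeff d f))
        conv_lhs => rw [e2]
        rw [monomial_single_add, pow_one, map_mul, eval_X]
        rw [← e2]
      have h2 : ev c (monomial d' (coeff d f)) ∈ V w c (Finsupp.weight w d') := by
        rw [V_mem_iff]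
        exact ⟨_, isWeightedHomogeneous_monomial w d' _ rfl, rfl⟩
      have h3 := V_le_BB w c x L hL hx _ _ h2
      have h4 := BB_mul w c x L hL hx _ _ _ _ (hβ j) h3
      rw [e4, ← mul_assoc]
      have e5 : ν + (w j : ℤ) + ((Finsupp.weight w d' : ℕ) : ℤ) = ν + L := by
        rw [← hwd, e3]
        push_cast
        ring
      rw [e5] at h4
      exact h4
    obtain ⟨k, h2, h3⟩ := h1
    have e6 : ν + (L : ℤ) + k * L = ν + ((k + 1 : ℕ) : ℤ) * L := by push_cast; ring
    refine ⟨k + 1, by rw [← e6]; exact h2, ?_⟩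
    rw [← e6, pow_succ', ← mul_assoc]
    exact h3

/-- Weighted homogeneous polynomials of degree `e` vanishing on all the branches. -/
def Ie {n M : ℕ} (w : Fin n → ℕ) (c : Fin M → Fin n → ℂ) (e : ℕ)
    (f : MvPolynomial (Fin n) ℂ) : Prop := f.IsWeightedHomogeneous w e ∧ ev c f = 0

/-- The vector field `∑ b_j ∂_j` applied to a polynomial. -/
noncomputable def Dop {n M : ℕ} (c : Fin M → Fin n → ℂ) (b : Fin n → K M)
    (f : MvPolynomial (Fin n) ℂ) : K M := ∑ j, b j * ev c (pderiv j f)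

theorem pderiv_zero_of_lt {n : ℕ} {w : Fin n → ℕ} {e : ℕ} {f : MvPolynomial (Fin n) ℂ}
    (hf : f.IsWeightedHomogeneous w e) (j : Fin n) (h : e < w j) : pderiv j f = 0 := by
  ext m
  rw [coeff_pderiv, coeff_zero]
  by_cases hc : coeff (m + Finsupp.single j 1) f = 0
  · rw [hc, zero_mul]
  · exfalso
    have h1 := hf hc
    rw [map_add, Finsupp.weight_apply w (Finsupp.single j 1), Finsupp.sum_single_index (by simp), one_smul] at h1
    omega

theorem Dop_mem {n M : ℕ} {w : Fin n → ℕ} {c : Fin M → Fin n → ℂ} (D : Data w c) (ν : ℤ)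
    (b : Fin n → K M) (hb : ∀ j, b j ∈ D.B (ν + w j)) (e : ℕ) (f : MvPolynomial (Fin n) ℂ)
    (hf : f.IsWeightedHomogeneous w e) : Dop c b f ∈ D.B (ν + e) := by
  unfold Dop
  refine Submodule.sum_mem _ fun j _ => ?_
  by_cases h : e < w j
  · rw [pderiv_zero_of_lt hf j h]
    have : ev c (0 : MvPolynomial (Fin n) ℂ) = 0 := by
      funext m
      simp [ev]
    rw [this, mul_zero]
    exact Submodule.zero_mem _
  · push Not at h
    have hp : (pderiv j f).IsWeightedHomogeneous w (e - w j) := hf.pderiv (by omega)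
    have hv : ev c (pderiv j f) ∈ D.B ((e - w j : ℕ) : ℤ) := by
      apply D.hAB
      unfold Av
      rw [if_pos (by positivity), Int.toNat_natCast]
      exact Submodule.subset_span ⟨_, hp, rfl⟩
    have h2 := D.hBB _ _ _ _ (hb j) hv
    have h3 : ν + (w j : ℤ) + ((e - w j : ℕ) : ℤ) = ν + e := by
      push_cast [Nat.cast_sub h]
      ring
    rw [h3] at h2
    exact h2

/-- Every vector field of degree `ν` which maps the ideal to `A` is the sum of one with coefficients
in `A` and a multiple of the Euler field. -/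
def Good {n M : ℕ} {w : Fin n → ℕ} {c : Fin M → Fin n → ℂ} (D : Data w c) (ν : ℤ) : Prop :=
  ∀ b : Fin n → K M, (∀ j, b j ∈ D.B (ν + w j)) →
    (∀ (e : ℕ) (f : MvPolynomial (Fin n) ℂ), Ie w c e f → Dop c b f ∈ Av w c (ν + e)) →
    ∃ (a : Fin n → K M) (β : K M), (∀ j, a j ∈ Av w c (ν + w j)) ∧ β ∈ D.B ν ∧
      ∀ j, b j = a j + (w j : ℂ) • (β * Xv c j)

/-- The embedding is minimal: no linear terms. -/
def Hmin {n M : ℕ} (w : Fin n → ℕ) (c : Fin M → Fin n → ℂ) : Prop :=
  ∀ (e : ℕ) (f : MvPolynomial (Fin n) ℂ), Ie w c e f → ∀ j, coeff (Finsupp.single j 1) f = 0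

theorem low {n M : ℕ} (w : Fin n → ℕ) (hw : ∀ i, 0 < w i) (c : Fin M → Fin n → ℂ)
    (hmin : Hmin w c) (j1 j2 : Fin n) (h12 : j1 ≠ j2) (hle : w j1 ≤ w j2)
    (h2 : ∀ j, j ≠ j1 → w j2 ≤ w j) (e : ℕ) (he : e < w j1 + w j2)
    (f : MvPolynomial (Fin n) ℂ) (hf : Ie w c e f) : f = 0 := by
  classical
  -- some branch has nonzero coordinate `j1`
  have hm : ∃ m, c m j1 ≠ 0 := by
    by_contra h
    push Not at h
    have h1 : Ie w c (w j1) (X j1 : MvPolynomial (Fin n) ℂ) := by
      refine ⟨isWeightedHomogeneous_X ℂ w j1, ?_⟩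
      funext m
      simp [ev, h m]
    have h3 := hmin _ _ h1 j1
    rw [coeff_X] at h3
    rw [if_pos rfl] at h3
    exact one_ne_zero h3
  obtain ⟨m, hm⟩ := hm
  have hall : ∀ i, w j1 ≤ w i := by
    intro i
    by_cases hi : i = j1
    · rw [hi]
    · exact hle.trans (h2 i hi)
  have hwt : ∀ s : Fin n →₀ ℕ, coeff s f ≠ 0 → ∑ i, s i * w i = e := by
    intro s hs
    have h3 := hf.1 hs
    rw [Finsupp.weight_apply, Finsupp.sum_fintype _ _ (by intro i; simp)] at h3
    simpa using h3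
  have hsup : ∀ s : Fin n →₀ ℕ, coeff s f ≠ 0 → s = Finsupp.single j1 (s j1) := by
    intro s hs
    ext i
    by_cases hi : i = j1
    · rw [hi]; simp
    · rw [Finsupp.single_eq_of_ne hi]
      by_contra hsi
      have hpos : 1 ≤ s i := Nat.one_le_iff_ne_zero.2 hsi
      have h3 := hwt s hs
      by_cases hone : s = Finsupp.single i 1
      · apply hs
        rw [hone]
        exact hmin e f hf i
      · -- another unit
        have hk : ∃ k, (k = i ∧ 2 ≤ s i) ∨ (k ≠ i ∧ 1 ≤ s k) := by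
          by_contra hcon
          push Not at hcon
          apply hone
          ext k
          by_cases hki : k = i
          · rw [hki, Finsupp.single_eq_same]
            have := (hcon i).1 rfl
            omega
          · rw [Finsupp.single_eq_of_ne hki]
            have := (hcon k).2 hki
            omega
        obtain ⟨k, hk⟩ := hk
        rcases hk with ⟨_, hk2⟩ | ⟨hki, hk2⟩
        · have h4 : s i * w i ≤ ∑ i, s i * w i :=
            Finset.single_le_sum (f := fun i => s i * w i) (fun _ _ => Nat.zero_le _)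
              (Finset.mem_univ i)
          have h5 : 2 * w i ≤ s i * w i := Nat.mul_le_mul_right _ hk2
          have h6 := h2 i hi
          omega
        · have h4 : s i * w i + s k * w k ≤ ∑ i, s i * w i := by
            have := Finset.sum_le_sum_of_subset (f := fun i => s i * w i)
              (Finset.subset_univ ({i, k} : Finset (Fin n)))
            rw [Finset.sum_pair (Ne.symm hki)] at this
            exact this
          have h5 : 1 * w i ≤ s i * w i := Nat.mul_le_mul_right _ hpos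
          have h6 : 1 * w k ≤ s k * w k := Nat.mul_le_mul_right _ hk2
          have h7 := h2 i hi
          have h8 := hall k
          omega
  by_contra hf0
  obtain ⟨s, hs⟩ := MvPolynomial.ne_zero_iff.1 hf0
  have hs1 := hsup s hs
  have huniq : ∀ s', coeff s' f ≠ 0 → s' = s := by
    intro s' hs'
    have h3 := hsup s' hs'
    have h4 := hwt s' hs'
    have h5 := hwt s hs
    have key : ∀ r : ℕ, ∑ i, (Finsupp.single j1 r : Fin n →₀ ℕ) i * w i = r * w j1 := by
      intro r
      rw [Finset.sum_eq_single j1]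
      · simp
      · intro b _ hb
        rw [Finsupp.single_eq_of_ne hb, zero_mul]
      · intro h; exact absurd (Finset.mem_univ _) h
    rw [h3, key] at h4
    rw [hs1, key] at h5
    have h6 : s' j1 = s j1 := Nat.eq_of_mul_eq_mul_right (hw j1) (h4.trans h5.symm)
    rw [h3, hs1, h6]
  have hev : eval (c m) f = 0 := congrFun hf.2 m
  rw [MvPolynomial.eval_eq'] at hev
  have hsupp : f.support = {s} := by
    ext t
    rw [MvPolynomial.mem_support_iff, Finset.mem_singleton]
    constructor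
    · exact huniq t
    · intro h; rw [h]; exact hs
  rw [hsupp, Finset.sum_singleton, Finset.prod_eq_single j1] at hev
  · rcases mul_eq_zero.1 hev with h | h
    · exact hs h
    · exact pow_ne_zero _ hm h
  · intro b _ hb
    rw [hs1, Finsupp.single_eq_of_ne hb, pow_zero]
  · intro h; exact absurd (Finset.mem_univ _) h

theorem split_one {n : ℕ} (s : Fin n →₀ ℕ) (i : Fin n) (h : s i ≠ 0) :
    ∃ t : Fin n →₀ ℕ, s = t + Finsupp.single i 1 :=
  ⟨s - Finsupp.single i 1, (Finsupp.sub_add_single_one_cancel h).symm⟩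

theorem ex_ne {n : ℕ} (t : Fin n →₀ ℕ) (h : t ≠ 0) : ∃ i, t i ≠ 0 := by
  by_contra hcon
  push Not at hcon
  exact h (Finsupp.ext hcon)

theorem classify {n : ℕ} (w : Fin n → ℕ) (hw : ∀ i, 0 < w i) (j1 j2 : Fin n) (hlt : w j1 < w j2)
    (h2 : ∀ j, j ≠ j1 → w j2 ≤ w j) (s : Fin n →₀ ℕ) (hs : Finsupp.weight w s = w j1 + w j2)
    (hlin : ∀ j, s ≠ Finsupp.single j 1) :
    (∃ j, j ≠ j1 ∧ w j = w j2 ∧ s = Finsupp.single j1 1 + Finsupp.single j 1) ∨
    (s = Finsupp.single j1 ((w j1 + w j2) / w j1) ∧ (w j1 + w j2) / w j1 * w j1 = w j1 + w j2) := by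
  by_cases h : ∃ j, j ≠ j1 ∧ s j ≠ 0
  · obtain ⟨j, hj, hsj⟩ := h
    obtain ⟨t, ht⟩ := split_one s j hsj
    have ht0 : t ≠ 0 := by
      intro h0
      exact hlin j (by rw [ht, h0, zero_add])
    obtain ⟨i, hi⟩ := ex_ne t ht0
    obtain ⟨u, hu⟩ := split_one t i hi
    have hwt : Finsupp.weight w u + w i + w j = w j1 + w j2 := by
      rw [← hs, ht, hu, map_add, map_add, Finsupp.weight_single, Finsupp.weight_single]
      simp
    have hj2 := h2 j hj
    have hij : i = j1 := by
      by_contra hne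
      have := h2 i hne
      omega
    rw [hij] at hwt hu
    have hu0 : u = 0 := by
      by_contra hne
      obtain ⟨k, hk⟩ := ex_ne u hne
      obtain ⟨v, hv⟩ := split_one u k hk
      rw [hv, map_add, Finsupp.weight_single] at hwt
      have := hw k
      simp only [one_smul] at hwt
      omega
    left
    refine ⟨j, hj, ?_, ?_⟩
    · rw [hu0, map_zero] at hwt; omega
    · rw [ht, hu, hu0, zero_add]
  · push Not at h
    right
    have hs1 : s = Finsupp.single j1 (s j1) := by
      ext k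
      by_cases hk : k = j1
      · subst hk; simp
      · rw [h k hk]; simp [Ne.symm hk, hk]
    have hw1 : s j1 * w j1 = w j1 + w j2 := by
      rw [← hs]
      conv_rhs => rw [hs1]
      rw [Finsupp.weight_single]; simp
    have hr : (w j1 + w j2) / w j1 = s j1 := by
      rw [← hw1]; exact Nat.mul_div_cancel _ (hw j1)
    rw [hr]
    exact ⟨hs1, hw1⟩

theorem struct_lt {n M : ℕ} (w : Fin n → ℕ) (hw : ∀ i, 0 < w i) (c : Fin M → Fin n → ℂ)
    (hmin : Hmin w c) (j1 j2 : Fin n) (h12 : j1 ≠ j2) (hlt : w j1 < w j2)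
    (h2 : ∀ j, j ≠ j1 → w j2 ≤ w j)
    (f : MvPolynomial (Fin n) ℂ) (hf : Ie w c (w j1 + w j2) f) :
    ∃ (l : Fin n → ℂ) (r : ℕ) (c0 : ℂ), (∀ j, w j ≠ w j2 → l j = 0) ∧
      r = (w j1 + w j2) / w j1 ∧ (c0 ≠ 0 → r * w j1 = w j1 + w j2) ∧
      (∀ j, j ≠ j1 → ev c (pderiv j f) = l j • Xv c j1) ∧
      ev c (pderiv j1 f) = ∑ j, l j • Xv c j + (c0 * r) • (Xv c j1) ^ (r - 1) := by
  classical
  have hw1 := hw j1
  set r := (w j1 + w j2) / w j1 with hr
  set l : Fin n → ℂ := fun j => if w j = w j2 then coeff (Finsupp.single j1 1 + Finsupp.single j 1) f else 0 with hl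
  set c0 : ℂ := if r * w j1 = w j1 + w j2 then coeff (Finsupp.single j1 r) f else 0 with hc0
  have hl1 : l j1 = 0 := by
    simp only [hl]; rw [if_neg]; omega
  have hcl : ∀ s : Fin n →₀ ℕ, coeff s f ≠ 0 →
      (∃ j, j ≠ j1 ∧ w j = w j2 ∧ s = Finsupp.single j1 1 + Finsupp.single j 1) ∨
      (s = Finsupp.single j1 r ∧ r * w j1 = w j1 + w j2) := by
    intro s hs
    refine classify w hw j1 j2 hlt h2 s (hf.1 hs) ?_
    rintro j rfl
    exact hs (hmin _ f hf j)
  have hne : ∀ j, j ≠ j1 → Finsupp.single j1 1 + Finsupp.single j 1 ≠ (Finsupp.single j1 r : Fin n →₀ ℕ) := by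
    intro j hj he
    have := DFunLike.congr_fun he j
    simp [Ne.symm hj, hj] at this
  have hinj : ∀ i j : Fin n, (Finsupp.single j1 1 + Finsupp.single i 1 : Fin n →₀ ℕ) = Finsupp.single j1 1 + Finsupp.single j 1 → i = j := by
    intro i j he
    have h3 := add_left_cancel he
    exact Finsupp.single_left_injective one_ne_zero h3
  have hfeq : f = ∑ j, monomial (Finsupp.single j1 1 + Finsupp.single j 1) (l j) + monomial (Finsupp.single j1 r) c0 := by
    ext s
    rw [coeff_add, coeff_sum]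
    simp only [coeff_monomial]
    by_cases hA : ∃ j, j ≠ j1 ∧ w j = w j2 ∧ s = Finsupp.single j1 1 + Finsupp.single j 1
    · obtain ⟨j, hj, hwj, rfl⟩ := hA
      rw [Finset.sum_eq_single j, if_pos rfl, if_neg (fun h => hne j hj h.symm), add_zero]
      · simp only [hl]; rw [if_pos hwj]
      · intro i _ hij
        rw [if_neg]
        intro he
        exact hij (hinj i j he)
      · intro h; exact absurd (Finset.mem_univ _) h
    · have hz : ∀ j, (if Finsupp.single j1 1 + Finsupp.single j 1 = s then l j else 0) = 0 := by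
        intro j
        split_ifs with h
        · by_cases hj : j = j1
          · rw [hj]; exact hl1
          · simp only [hl]
            rw [if_neg]
            intro hwj
            exact hA ⟨j, hj, hwj, h.symm⟩
        · rfl
      rw [Finset.sum_eq_zero (fun j _ => hz j), zero_add]
      by_cases hB : s = Finsupp.single j1 r ∧ r * w j1 = w j1 + w j2
      · rw [if_pos hB.1.symm, hc0, if_pos hB.2, hB.1]
      · by_cases hs : coeff s f = 0
        · rw [hs]
          split_ifs with h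
          · rw [hc0]
            rw [if_neg]
            intro h'
            exact hB ⟨h.symm, h'⟩
          · rfl
        · rcases hcl s hs with h | h
          · exact absurd h hA
          · exact absurd h hB
  have hfeq' : f = ∑ j, C (l j) * (X j1 * X j) + C c0 * X j1 ^ r := by
    rw [hfeq]
    congr 1
    · refine Finset.sum_congr rfl fun j _ => ?_
      rw [X, X, monomial_mul, C_mul_monomial, one_mul, mul_one]
    · rw [X_pow_eq_monomial, C_mul_monomial, mul_one]
  refine ⟨l, r, c0, ?_, rfl, ?_, ?_, ?_⟩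
  · intro j hj
    simp only [hl]; rw [if_neg hj]
  · intro h
    by_contra hcon
    exact h (by rw [hc0, if_neg hcon])
  · intro j hj
    clear_value l c0 r
    rw [hfeq']
    funext m
    simp only [ev, Xv, map_add, map_sum, Derivation.leibniz, Derivation.leibniz_pow, pderiv_C, pderiv_X, Pi.smul_apply]
    simp [Pi.single_apply, Ne.symm hj, hj]
    try (rw [Finset.sum_eq_single j] <;> simp +contextual [mul_comm, eq_comm])
  · clear_value l c0 r
    rw [hfeq']
    funext m
    simp only [ev, Xv, map_add, map_sum, Derivation.leibniz, Derivation.leibniz_pow, pderiv_C, pderiv_X, Pi.smul_apply, Pi.add_apply, Finset.sum_apply]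
    simp [Pi.single_apply, mul_add, Finset.sum_add_distrib]
    have hz : ∑ x, (eval (c m)) (if x = j1 then C (l x) * X j1 else 0) = 0 := by
      refine Finset.sum_eq_zero fun x _ => ?_
      split_ifs with h
      · rw [h, hl1]; simp
      · simp
    rw [hz, zero_add, ← mul_assoc]
    rfl

theorem struct_eq {n M : ℕ} (w : Fin n → ℕ) (hw : ∀ i, 0 < w i) (c : Fin M → Fin n → ℂ)
    (hmin : Hmin w c) (j1 j2 : Fin n) (h12 : j1 ≠ j2) (heq : w j1 = w j2)
    (h2 : ∀ j, w j1 ≤ w j)
    (f : MvPolynomial (Fin n) ℂ) (hf : Ie w c (w j1 + w j2) f) :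
    ∃ H : Fin n → Fin n → ℂ, (∀ j l, H j l = H l j) ∧ (∀ j l, w j ≠ w j1 → H j l = 0) ∧
      ∀ j, ev c (pderiv j f) = ∑ l, H j l • Xv c l := by
  classical
  have hws : ∀ i, Finsupp.weight w (Finsupp.single i 1) = w i := by
    intro i
    simp [Finsupp.weight_apply]
  have hsup : ∀ s, coeff s f ≠ 0 → Finsupp.weight w s = 2 * w j1 := by
    intro s hs
    have := hf.1 hs
    rw [this]
    omega
  have hH : ∀ j l, coeff (Finsupp.single l 1) (pderiv j f) =
      coeff (Finsupp.single l 1 + Finsupp.single j 1) f * (((Finsupp.single l 1 : Fin n →₀ ℕ) j : ℂ) + 1) :=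
    fun j l => by rw [coeff_pderiv]
  have hform : ∀ j, pderiv j f = ∑ l, C (coeff (Finsupp.single l 1) (pderiv j f)) * X l := by
    intro j
    ext s
    rw [coeff_sum]
    simp only [coeff_C_mul, coeff_X']
    by_cases hs : ∃ i, (Finsupp.single i 1 : Fin n →₀ ℕ) = s
    · obtain ⟨i, rfl⟩ := hs
      rw [Finset.sum_eq_single i]
      · simp
      · intro l _ hli
        rw [if_neg, mul_zero]
        intro h
        exact hli (Finsupp.single_left_injective one_ne_zero h)
      · simp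
    · push Not at hs
      rw [Finset.sum_eq_zero (fun l _ => by rw [if_neg (hs l), mul_zero]), coeff_pderiv]
      by_contra hne
      have hc : coeff (s + Finsupp.single j 1) f ≠ 0 := left_ne_zero_of_mul hne
      have hw2 := hsup _ hc
      rw [map_add, hws] at hw2
      by_cases hs0 : s = 0
      · rw [hs0, zero_add] at hc
        exact hc (hmin _ f hf j)
      · obtain ⟨i, hi⟩ := Finsupp.ne_iff.1 hs0
        have hsi : (Finsupp.single i 1 : Fin n →₀ ℕ) ≤ s :=
          Finsupp.single_le_iff.2 (Nat.one_le_iff_ne_zero.2 (by simpa using hi))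
        obtain ⟨s', rfl⟩ := exists_add_of_le hsi
        rw [map_add, hws] at hw2
        have h3 := h2 i
        have h4 := h2 j
        have h5 : Finsupp.weight w s' = 0 := by omega
        have h6 : s' = 0 := by
          by_contra h7
          obtain ⟨i', hi'⟩ := Finsupp.ne_iff.1 h7
          have h8 := Finsupp.le_weight_of_ne_zero' w (s := i') (f := s') (by simpa using hi')
          have h9 := hw i'
          omega
        exact hs i (by rw [h6, add_zero])
  refine ⟨fun j l => coeff (Finsupp.single l 1) (pderiv j f), ?_, ?_, ?_⟩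
  · intro j l
    simp only [hH]
    rw [add_comm (Finsupp.single l 1) (Finsupp.single j 1)]
    congr 2
    rw [Finsupp.single_apply, Finsupp.single_apply]
    by_cases hjl : j = l
    · rw [if_pos hjl, if_pos hjl.symm]
    · rw [if_neg hjl, if_neg (Ne.symm hjl)]
  · intro j l hj
    simp only [hH]
    by_contra hne
    have hc := left_ne_zero_of_mul hne
    have := hsup _ hc
    rw [map_add, hws, hws] at this
    have h3 := h2 j
    have h4 := h2 l
    omega
  · intro j
    funext m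
    conv_lhs => rw [hform j]
    simp [ev, Xv, Finset.sum_apply]

theorem inj1 {n M : ℕ} {w : Fin n → ℕ} (hw : ∀ i, 0 < w i) {c : Fin M → Fin n → ℂ}
    (D : Data w c) (hmin : Hmin w c) (j1 j2 : Fin n) (h12 : j1 ≠ j2) (hle : w j1 ≤ w j2)
    (h2 : ∀ j, j ≠ j1 → w j2 ≤ w j) (hg : Good D (D.a - w j1))
    (μ : Fin n → (K M →ₗ[ℂ] ℂ)) (hμ : ∀ j, ∀ v ∈ Av w c D.a, μ j v = 0)
    (hμ0 : ∀ j, w j ≠ w j1 → μ j = 0)
    (hrel : ∀ β ∈ D.B (D.a - w j1), ∑ j, μ j (Xv c j * β) = 0) :
    ∀ j, ∀ v ∈ D.B D.a, μ j v = 0 := by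
  classical
  intro j v hv
  by_cases hj : w j = w j1
  · have hw2 := hw j2
    obtain ⟨a1, β, ha1, hβ, hb⟩ := hg (Pi.single j v) (by
        intro l
        by_cases hl : l = j
        · subst hl
          rw [Pi.single_eq_same]
          have e : D.a - (w j1 : ℤ) + (w l : ℤ) = D.a := by rw [hj]; ring
          rw [e]
          exact hv
        · rw [Pi.single_eq_of_ne hl]
          exact (D.B _).zero_mem) (by
        intro e f hf
        by_cases he : e ≤ w j1
        · have h0 := low w hw c hmin j1 j2 h12 hle h2 e (by omega) f hf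
          rw [h0]
          have : Dop c (Pi.single j v) (0 : MvPolynomial (Fin n) ℂ) = 0 := by
            unfold Dop
            apply Finset.sum_eq_zero
            intro l _
            rw [map_zero]
            have : ev c (0 : MvPolynomial (Fin n) ℂ) = 0 := by
              funext m
              simp [ev]
            rw [this, mul_zero]
          rw [this]
          exact (Av w c _).zero_mem
        · apply D.htop _ (by omega)
          apply Dop_mem D (D.a - w j1) _ _ e f hf.1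
          intro l
          by_cases hl : l = j
          · subst hl
            rw [Pi.single_eq_same]
            have e : D.a - (w j1 : ℤ) + (w l : ℤ) = D.a := by rw [hj]; ring
            rw [e]
            exact hv
          · rw [Pi.single_eq_of_ne hl]
            exact (D.B _).zero_mem)
    have h1 : ∑ l, μ l ((Pi.single j v : Fin n → K M) l) = μ j v := by
      rw [Finset.sum_eq_single j]
      · rw [Pi.single_eq_same]
      · intro l _ hl
        rw [Pi.single_eq_of_ne hl, map_zero]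
      · intro h
        exact absurd (Finset.mem_univ j) h
    have h3 : ∀ l, μ l ((Pi.single j v : Fin n → K M) l) = (w j1 : ℂ) * μ l (Xv c l * β) := by
      intro l
      by_cases hl : w l = w j1
      · rw [hb l, map_add, map_smul]
        have e : D.a - (w j1 : ℤ) + (w l : ℤ) = D.a := by rw [hl]; ring
        have h4 : μ l (a1 l) = 0 := by
          apply hμ
          have := ha1 l
          rwa [e] at this
        rw [h4, zero_add, hl, smul_eq_mul, mul_comm β]
      · rw [hμ0 l hl]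
        simp
    rw [← h1, Finset.sum_congr rfl (fun l _ => h3 l), ← Finset.mul_sum, hrel β hβ, mul_zero]
  · rw [hμ0 j hj]
    simp

theorem inj2 {n M : ℕ} {w : Fin n → ℕ} (hw : ∀ i, 0 < w i) {c : Fin M → Fin n → ℂ}
    (D : Data w c) (hmin : Hmin w c) (j1 j2 : Fin n) (h12 : j1 ≠ j2) (hlt : w j1 < w j2)
    (h2 : ∀ j, j ≠ j1 → w j2 ≤ w j) (hg : Good D (D.a - w j2))
    (μ : Fin n → (K M →ₗ[ℂ] ℂ)) (hμ : ∀ j, ∀ v ∈ Av w c D.a, μ j v = 0)
    (hμ0 : ∀ j, w j ≠ w j2 → μ j = 0) (μ0 : K M →ₗ[ℂ] ℂ)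
    (hμ1 : ∀ v ∈ Av w c (D.a - w j2 + w j1), μ0 v = 0)
    (hrel : ∀ β ∈ D.B (D.a - w j2), ∑ j, μ j (Xv c j * β) + μ0 (Xv c j1 * β) = 0) :
    ∀ j, ∀ v ∈ D.B D.a, μ j v = 0 := by
  intro j v hv
  by_cases hj : w j = w j2
  swap
  · rw [hμ0 j hj]; rfl
  have hjj1 : j ≠ j1 := by
    rintro rfl
    exact (ne_of_lt hlt) hj
  set ν : ℤ := D.a - w j2 with hν
  set b : Fin n → K M := Pi.single j v with hb
  have hbj : b j = v := by rw [hb, Pi.single_eq_same]
  have hbl : ∀ l, l ≠ j → b l = 0 := fun l hl => by rw [hb, Pi.single_eq_of_ne hl]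
  have hbm : ∀ l, b l ∈ D.B (ν + w l) := by
    intro l
    by_cases hl : l = j
    · subst hl
      have e1 : ν + (w l : ℤ) = D.a := by rw [hν, hj]; ring
      rw [hbj, e1]
      exact hv
    · rw [hbl l hl]
      exact Submodule.zero_mem _
  have hcond : ∀ (e : ℕ) (f : MvPolynomial (Fin n) ℂ), Ie w c e f →
      Dop c b f ∈ Av w c (ν + e) := by
    intro e f hf
    by_cases he : e ≤ w j2
    · have h0 : f = 0 := low w hw c hmin j1 j2 h12 hlt.le h2 e (by have := hw j1; omega) f hf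
      rw [h0]
      have : Dop c b (0 : MvPolynomial (Fin n) ℂ) = 0 := by
        unfold Dop
        refine Finset.sum_eq_zero ?_
        intro l _
        have h3 : ev c (0 : MvPolynomial (Fin n) ℂ) = 0 := by
          funext m
          simp [ev]
        rw [map_zero, h3, mul_zero]
      rw [this]
      exact Submodule.zero_mem _
    · have h4 := Dop_mem D ν b hbm e f hf.1
      refine D.htop (ν + e) ?_ h4
      push Not at he
      have : (w j2 : ℤ) < e := by exact_mod_cast he
      rw [hν]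
      linarith
  obtain ⟨a1, β, ha1, hβ, hdec⟩ := hg b hbm hcond
  have hw1 : ((w j1 : ℕ) : ℂ) ≠ 0 := by
    have := hw j1
    exact_mod_cast (Nat.pos_iff_ne_zero.1 this)
  have hrel' := hrel β hβ
  -- the value of μ0
  have hμ0X : μ0 (Xv c j1 * β) = 0 := by
    have h5 := hdec j1
    rw [hbl j1 (fun h => hjj1 h.symm)] at h5
    have h6 : μ0 (a1 j1) = 0 := hμ1 _ (ha1 j1)
    have h7 : μ0 (a1 j1 + (w j1 : ℂ) • (β * Xv c j1)) = 0 := by
      rw [← h5, map_zero]
    rw [map_add, h6, zero_add, map_smul, smul_eq_mul] at h7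
    rw [mul_comm]
    exact (mul_eq_zero.1 h7).resolve_left hw1
  rw [hμ0X, add_zero] at hrel'
  have hμl : ∀ l, μ l (b l) = (w j2 : ℂ) * μ l (Xv c l * β) := by
    intro l
    by_cases hl : w l = w j2
    · rw [hdec l, map_add, map_smul, smul_eq_mul]
      have e1 : ν + (w l : ℤ) = D.a := by rw [hν, hl]; ring
      have h8 := ha1 l
      rw [e1] at h8
      rw [hμ l _ h8, zero_add, hl, mul_comm β]
    · rw [hμ0 l hl]
      simp
  have hsum : ∑ l, μ l (b l) = μ j v := by
    rw [Finset.sum_eq_single j]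
    · rw [hbj]
    · intro l _ hl
      rw [hbl l hl, map_zero]
    · intro h
      exact absurd (Finset.mem_univ j) h
  rw [← hsum]
  simp only [hμl]
  rw [← Finset.mul_sum, hrel', mul_zero]

theorem dual_lin {E : Type} [AddCommGroup E] [Module ℂ E] [FiniteDimensional ℂ E]
    (S : Set (E →ₗ[ℂ] ℂ)) (N : Submodule ℂ E) (z : E →ₗ[ℂ] ℂ)
    (h : ∀ v ∈ N, (∀ s ∈ S, s v = 0) → z v = 0) :
    ∃ s ∈ Submodule.span ℂ S, ∀ v ∈ N, z v = s v := by
  let L : S → (N →ₗ[ℂ] ℂ) := fun s => (s : E →ₗ[ℂ] ℂ).comp N.subtype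
  have h1 : z.comp N.subtype ∈ Submodule.span ℂ (Set.range L) := by
    apply FiniteDimensional.mem_span_of_iInf_ker_le_ker
    intro v hv
    rw [Submodule.mem_iInf] at hv
    rw [LinearMap.mem_ker]
    exact h v v.2 fun s hs => by
      have := hv ⟨s, hs⟩
      rw [LinearMap.mem_ker] at this
      exact this
  let ρ : (E →ₗ[ℂ] ℂ) →ₗ[ℂ] (N →ₗ[ℂ] ℂ) := LinearMap.lcomp ℂ ℂ N.subtype
  have h2 : Set.range L = ρ '' S := by
    ext y
    constructor
    · rintro ⟨s, rfl⟩
      exact ⟨s, s.2, rfl⟩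
    · rintro ⟨s, hs, rfl⟩
      exact ⟨⟨s, hs⟩, rfl⟩
  rw [h2, ← Submodule.map_span, Submodule.mem_map] at h1
  obtain ⟨s, hs, hsz⟩ := h1
  refine ⟨s, hs, fun v hv => ?_⟩
  have := LinearMap.congr_fun hsz ⟨v, hv⟩
  exact this.symm

theorem Av_mul_aux {n M : ℕ} (w : Fin n → ℕ) (c : Fin M → Fin n → ℂ) (i j : ℤ) (u v : K M)
    (hu : u ∈ Av w c i) (hv : v ∈ Av w c j) : u * v ∈ Av w c (i + j) := by
  unfold Av at hu hv ⊢
  by_cases hi : 0 ≤ i
  · by_cases hj : 0 ≤ j
    · rw [if_pos hi] at hu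
      rw [if_pos hj] at hv
      rw [if_pos (by omega), Int.toNat_add hi hj]
      exact V_mul w c _ _ u v hu hv
    · rw [if_neg hj, Submodule.mem_bot] at hv
      rw [hv, mul_zero]
      exact Submodule.zero_mem _
  · rw [if_neg hi, Submodule.mem_bot] at hu
    rw [hu, zero_mul]
    exact Submodule.zero_mem _

theorem Xv_mem_aux {n M : ℕ} (w : Fin n → ℕ) (c : Fin M → Fin n → ℂ) (j : Fin n) :
    Xv c j ∈ Av w c (w j) := by
  unfold Av
  rw [if_pos (by omega), Int.toNat_natCast]
  exact (V_base w c).2 j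

/-- `Dop` as a linear map in the vector field. -/
noncomputable def DopL {n M : ℕ} (c : Fin M → Fin n → ℂ) (f : MvPolynomial (Fin n) ℂ) :
    (Fin n → K M) →ₗ[ℂ] K M where
  toFun b := Dop c b f
  map_add' b b' := by
    simp only [Dop, Pi.add_apply, add_mul, Finset.sum_add_distrib]
  map_smul' r b := by
    simp only [Dop, Pi.smul_apply, smul_mul_assoc, Finset.smul_sum, RingHom.id_apply]

/-- The functional on vector fields. -/
noncomputable def zL {n M : ℕ} (w : Fin n → ℕ) (c : Fin M → Fin n → ℂ) (j1 j2 : Fin n)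
    (z : K M →ₗ[ℂ] ℂ) : (Fin n → K M) →ₗ[ℂ] ℂ where
  toFun b := z ((w j1 : ℂ) • (Xv c j1 * b j2) - (w j2 : ℂ) • (Xv c j2 * b j1))
  map_add' b b' := by
    rw [← map_add]
    congr 1
    simp only [Pi.add_apply, mul_add, smul_add]
    abel
  map_smul' r b := by
    simp only [RingHom.id_apply]
    rw [← map_smul]
    congr 1
    simp only [Pi.smul_apply, mul_smul_comm, smul_sub]
    rw [smul_comm r, smul_comm r]

theorem dual_aux {n M : ℕ} {w : Fin n → ℕ} (hw : ∀ i, 0 < w i) {c : Fin M → Fin n → ℂ}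
    (D : Data w c) (hmin : Hmin w c) (j1 j2 : Fin n) (h12 : j1 ≠ j2) (hle : w j1 ≤ w j2)
    (h2 : ∀ j, j ≠ j1 → w j2 ≤ w j) (hg : Good D (D.a - w j1 - w j2))
    (z : K M →ₗ[ℂ] ℂ) (hz : ∀ v ∈ Av w c D.a, z v = 0)
    (b : Fin n → K M) (hb : ∀ j, b j ∈ D.B (D.a - w j1 - w j2 + w j))
    (hS : ∀ (f : MvPolynomial (Fin n) ℂ) (lam : K M →ₗ[ℂ] ℂ), Ie w c (w j1 + w j2) f →
      (∀ v ∈ Av w c D.a, lam v = 0) → lam (Dop c b f) = 0) :
    z ((w j1 : ℂ) • (Xv c j1 * b j2) - (w j2 : ℂ) • (Xv c j2 * b j1)) = 0 := by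
  obtain ⟨a1, β, ha1, hβ, hba⟩ := hg b hb (by
    intro e f hf
    rcases lt_trichotomy e (w j1 + w j2) with he | he | he
    · have hf0 := low w hw c hmin j1 j2 h12 hle h2 e he f hf
      have : Dop c b f = 0 := by
        rw [hf0]
        unfold Dop ev
        apply Finset.sum_eq_zero
        intro j _
        ext m
        simp
      rw [this]
      exact Submodule.zero_mem _
    · subst he
      have hidx : D.a - (w j1 : ℤ) - (w j2 : ℤ) + ((w j1 + w j2 : ℕ) : ℤ) = D.a := by
        push_cast; ring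
      rw [hidx]
      by_contra hcon
      obtain ⟨lam, hlam, hle'⟩ := Submodule.exists_le_ker_of_notMem hcon
      exact hlam (hS f lam hf (fun v hv => LinearMap.mem_ker.1 (hle' hv)))
    · apply D.htop _ _ 
      · exact Dop_mem D _ b hb e f hf.1
      · push_cast
        omega)
  have hkey : (w j1 : ℂ) • (Xv c j1 * b j2) - (w j2 : ℂ) • (Xv c j2 * b j1)
      = (w j1 : ℂ) • (Xv c j1 * a1 j2) - (w j2 : ℂ) • (Xv c j2 * a1 j1) := by
    rw [hba j1, hba j2]
    ext m
    simp only [Pi.sub_apply, Pi.smul_apply, Pi.mul_apply, Pi.add_apply, smul_eq_mul]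
    ring
  rw [hkey]
  apply hz
  apply Submodule.sub_mem
  · apply Submodule.smul_mem
    have h := Av_mul_aux w c _ _ _ _ (Xv_mem_aux w c j1) (ha1 j2)
    have hidx : (w j1 : ℤ) + (D.a - (w j1 : ℤ) - (w j2 : ℤ) + (w j2 : ℤ)) = D.a := by ring
    rwa [hidx] at h
  · apply Submodule.smul_mem
    have h := Av_mul_aux w c _ _ _ _ (Xv_mem_aux w c j2) (ha1 j1)
    have hidx : (w j2 : ℤ) + (D.a - (w j1 : ℤ) - (w j2 : ℤ) + (w j1 : ℤ)) = D.a := by ring
    rwa [hidx] at h

theorem dual {n M : ℕ} {w : Fin n → ℕ} (hw : ∀ i, 0 < w i) {c : Fin M → Fin n → ℂ}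
    (D : Data w c) (hmin : Hmin w c) (j1 j2 : Fin n) (h12 : j1 ≠ j2) (hle : w j1 ≤ w j2)
    (h2 : ∀ j, j ≠ j1 → w j2 ≤ w j) (hg : Good D (D.a - w j1 - w j2))
    (z : K M →ₗ[ℂ] ℂ) (hz : ∀ v ∈ Av w c D.a, z v = 0) :
    ∃ (N : ℕ) (f : Fin N → MvPolynomial (Fin n) ℂ) (lam : Fin N → (K M →ₗ[ℂ] ℂ)),
      (∀ k, Ie w c (w j1 + w j2) (f k)) ∧ (∀ k, ∀ v ∈ Av w c D.a, lam k v = 0) ∧
      ∀ b : Fin n → K M, (∀ j, b j ∈ D.B (D.a - w j1 - w j2 + w j)) →
        z ((w j1 : ℂ) • (Xv c j1 * b j2) - (w j2 : ℂ) • (Xv c j2 * b j1))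
          = ∑ k, lam k (Dop c b (f k)) := by
  classical
  set ν : ℤ := D.a - w j1 - w j2 with hν
  let N : Submodule ℂ (Fin n → K M) := Submodule.pi Set.univ (fun j => D.B (ν + w j))
  have hN : ∀ b : Fin n → K M, b ∈ N ↔ ∀ j, b j ∈ D.B (ν + w j) := by
    intro b
    simp [N, Submodule.mem_pi]
  let S : Set ((Fin n → K M) →ₗ[ℂ] ℂ) := {s | ∃ (f : MvPolynomial (Fin n) ℂ)
    (lam : K M →ₗ[ℂ] ℂ), Ie w c (w j1 + w j2) f ∧ (∀ v ∈ Av w c D.a, lam v = 0) ∧
      s = lam ∘ₗ DopL c f}
  obtain ⟨s, hs, hs2⟩ := dual_lin S N (zL w c j1 j2 z) (by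
    intro b hb hSb
    exact dual_aux hw D hmin j1 j2 h12 hle h2 hg z hz b ((hN b).1 hb) (by
      intro f lam hf hlam
      exact hSb (lam ∘ₗ DopL c f) ⟨f, lam, hf, hlam, rfl⟩))
  obtain ⟨k, r, g, hg2⟩ := Submodule.mem_span_set'.1 hs
  choose f lam hf hlam hgeq using fun i => (g i).2
  refine ⟨k, f, fun i => r i • lam i, hf, ?_, ?_⟩
  · intro i v hv
    simp [hlam i v hv]
  · intro b hb
    have h1 := hs2 b ((hN b).2 hb)
    have h2 : zL w c j1 j2 z b
      = z ((w j1 : ℂ) • (Xv c j1 * b j2) - (w j2 : ℂ) • (Xv c j2 * b j1)) := rfl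
    rw [← h2, h1, ← hg2, LinearMap.sum_apply]
    apply Finset.sum_congr rfl
    intro i _
    rw [hgeq i]
    rfl

theorem contra_eq_aux {n M : ℕ} {w : Fin n → ℕ} (hw : ∀ i, 0 < w i) {c : Fin M → Fin n → ℂ}
    (D : Data w c) (hmin : Hmin w c) (j1 j2 : Fin n) (h12 : j1 ≠ j2) (heq : w j1 = w j2)
    (h2 : ∀ j, j ≠ j1 → w j2 ≤ w j) (hg : ∀ ν, Good D ν)
    (z : K M →ₗ[ℂ] ℂ) (hz : ∀ v ∈ Av w c D.a, z v = 0)
    (N : ℕ) (f : Fin N → MvPolynomial (Fin n) ℂ) (lam : Fin N → (K M →ₗ[ℂ] ℂ))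
    (hlam : ∀ k, ∀ v ∈ Av w c D.a, lam k v = 0)
    (H : Fin N → Fin n → Fin n → ℂ) (hsymm : ∀ k j l, H k j l = H k l j)
    (hH0 : ∀ k j l, w j ≠ w j1 → H k j l = 0)
    (hHev : ∀ k j, ev c (pderiv j (f k)) = ∑ l, H k j l • Xv c l)
    (j0 l0 : Fin n) (hl0 : w l0 = w j1) (s : ℂ)
    (hkey : ∀ β ∈ D.B (D.a - w j1),
      ∑ k, lam k (β * ev c (pderiv j0 (f k))) + s * z (Xv c l0 * β) = 0) :
    ∀ u ∈ D.B D.a, ∑ k, H k j0 l0 * lam k u + s * z u = 0 := by
  classical
  have hmain := inj1 hw D hmin j1 j2 h12 heq.le h2 (hg _)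
    (fun l => (∑ k, H k j0 l • lam k) + (if l = l0 then s • z else 0)) ?_ ?_ ?_
  · intro u hu
    have h := hmain l0 u hu
    simp only [if_true, LinearMap.add_apply, LinearMap.sum_apply, LinearMap.smul_apply,
      smul_eq_mul] at h
    exact h
  · intro l u hu
    simp only [LinearMap.add_apply, LinearMap.sum_apply, LinearMap.smul_apply, smul_eq_mul]
    have h1 : ∑ k, H k j0 l * lam k u = 0 :=
      Finset.sum_eq_zero (fun k _ => by rw [hlam k u hu, mul_zero])
    rw [h1]
    split_ifs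
    · rw [LinearMap.smul_apply, hz u hu, smul_zero, add_zero]
    · simp
  · intro l hl
    have h1 : ∑ k, H k j0 l • lam k = 0 :=
      Finset.sum_eq_zero (fun k _ => by rw [hsymm, hH0 k l j0 hl, zero_smul])
    have h3 : l ≠ l0 := by
      rintro rfl; exact hl hl0
    simp only [h1, if_neg h3, add_zero]
  · intro β hβ
    have hk := hkey β hβ
    rw [← hk]
    simp only [LinearMap.add_apply, LinearMap.sum_apply, LinearMap.smul_apply, smul_eq_mul]
    rw [Finset.sum_add_distrib]
    congr 1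
    · rw [Finset.sum_comm]
      refine Finset.sum_congr rfl (fun k _ => ?_)
      rw [hHev, Finset.mul_sum, map_sum]
      refine Finset.sum_congr rfl (fun l _ => ?_)
      have e : β * H k j0 l • Xv c l = H k j0 l • (Xv c l * β) := by
        rw [mul_smul_comm, mul_comm]
      rw [e, map_smul, smul_eq_mul]
    · have h4 : ∀ l : Fin n, (if l = l0 then s • z else (0 : K M →ₗ[ℂ] ℂ)) (Xv c l * β)
          = if l = l0 then s * z (Xv c l * β) else 0 := by
        intro l
        split_ifs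
        · simp
        · simp
      simp only [h4]
      rw [Finset.sum_ite_eq' Finset.univ l0]
      simp

theorem contra_eq {n M : ℕ} {w : Fin n → ℕ} (hw : ∀ i, 0 < w i) {c : Fin M → Fin n → ℂ}
    (D : Data w c) (hmin : Hmin w c) (j1 j2 : Fin n) (h12 : j1 ≠ j2) (heq : w j1 = w j2)
    (h2 : ∀ j, j ≠ j1 → w j2 ≤ w j) (hg : ∀ ν, Good D ν) : False := by
  classical
  have h2' : ∀ j, w j1 ≤ w j := by
    intro j
    by_cases hj : j = j1
    · rw [hj]
    · rw [heq]; exact h2 j hj
  obtain ⟨v, hvB, hvA⟩ := SetLike.not_le_iff_exists.mp D.hne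
  obtain ⟨z, hzv, hzA⟩ : ∃ z : K M →ₗ[ℂ] ℂ, z v ≠ 0 ∧ ∀ u ∈ Av w c D.a, z u = 0 := by
    obtain ⟨z, h1, h3⟩ := Submodule.exists_le_ker_of_notMem hvA
    exact ⟨z, h1, fun u hu => h3 hu⟩
  obtain ⟨N, f, lam, hf, hlam, hdual⟩ := dual hw D hmin j1 j2 h12 heq.le h2 (hg _) z hzA
  have hst := fun k => struct_eq w hw c hmin j1 j2 h12 heq h2' (f k) (hf k)
  choose H hsymm hH0 hHev using hst
  have hDop : ∀ (j0 : Fin n) (β : K M) (k : Fin N),
      Dop c (Pi.single j0 β) (f k) = β * ev c (pderiv j0 (f k)) := by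
    intro j0 β k
    unfold Dop
    rw [Finset.sum_eq_single j0]
    · rw [Pi.single_eq_same]
    · intro j _ hj
      rw [Pi.single_eq_of_ne hj, zero_mul]
    · intro h; exact absurd (Finset.mem_univ _) h
  have hmem : ∀ (j0 : Fin n) (β : K M), w j0 = w j1 → β ∈ D.B (D.a - w j1) →
      ∀ j, (Pi.single j0 β : Fin n → K M) j ∈ D.B (D.a - w j1 - w j2 + w j) := by
    intro j0 β h0 hβ j
    by_cases hj : j = j0
    · subst hj
      rw [Pi.single_eq_same]
      have e : D.a - (w j1 : ℤ) - (w j2 : ℤ) + (w j : ℤ) = D.a - (w j1 : ℤ) := by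
        rw [h0, heq]; ring
      rw [e]; exact hβ
    · rw [Pi.single_eq_of_ne hj]
      exact Submodule.zero_mem _
  have k1 : ∀ β ∈ D.B (D.a - w j1),
      ∑ k, lam k (β * ev c (pderiv j1 (f k))) + (w j1 : ℂ) * z (Xv c j2 * β) = 0 := by
    intro β hβ
    have h := hdual (Pi.single j1 β) (hmem j1 β rfl hβ)
    rw [Pi.single_eq_same, Pi.single_eq_of_ne h12.symm, mul_zero, smul_zero, zero_sub, map_neg,
      map_smul, smul_eq_mul, ← heq] at h
    simp only [hDop] at h
    rw [← h]; ring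
  have k2 : ∀ β ∈ D.B (D.a - w j1),
      ∑ k, lam k (β * ev c (pderiv j2 (f k))) + (-(w j1 : ℂ)) * z (Xv c j1 * β) = 0 := by
    intro β hβ
    have h := hdual (Pi.single j2 β) (hmem j2 β heq.symm hβ)
    rw [Pi.single_eq_same, Pi.single_eq_of_ne h12, mul_zero, smul_zero, sub_zero,
      map_smul, smul_eq_mul] at h
    simp only [hDop] at h
    rw [← h]; ring
  have r1 := contra_eq_aux hw D hmin j1 j2 h12 heq h2 hg z hzA N f lam hlam H hsymm hH0 hHev
    j1 j2 heq.symm (w j1 : ℂ) k1 v hvB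
  have r2 := contra_eq_aux hw D hmin j1 j2 h12 heq h2 hg z hzA N f lam hlam H hsymm hH0 hHev
    j2 j1 rfl (-(w j1 : ℂ)) k2 v hvB
  have r3 : ∑ k, H k j2 j1 * lam k v = ∑ k, H k j1 j2 * lam k v :=
    Finset.sum_congr rfl (fun k _ => by rw [hsymm k j2 j1])
  rw [r3] at r2
  have hd : (w j1 : ℂ) ≠ 0 := by
    exact_mod_cast (hw j1).ne'
  have h5 : (w j1 : ℂ) * z v = 0 := by
    have h6 : 2 * ((w j1 : ℂ) * z v) = 0 := by linear_combination r1 - r2
    simpa using h6
  rcases mul_eq_zero.mp h5 with h | h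
  · exact hd h
  · exact hzv h

theorem Xv_pow_mem {n M : ℕ} (w : Fin n → ℕ) (c : Fin M → Fin n → ℂ) (j : Fin n) (m : ℕ) :
    (Xv c j) ^ m ∈ V w c (m * w j) := by
  induction m with
  | zero =>
    rw [pow_zero, Nat.zero_mul]
    exact (V_base w c).1
  | succ m ih =>
    rw [pow_succ, Nat.succ_mul]
    exact V_mul w c _ _ _ _ ih ((V_base w c).2 j)

theorem Av_nat {n M : ℕ} (w : Fin n → ℕ) (c : Fin M → Fin n → ℂ) (k : ℕ) :
    Av w c (k : ℤ) = V w c k := by
  unfold Av
  rw [if_pos (Int.natCast_nonneg k), Int.toNat_natCast]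

theorem Av_pow_mul {n M : ℕ} (w : Fin n → ℕ) (c : Fin M → Fin n → ℂ) (j : Fin n) (m : ℕ)
    (i : ℤ) (v : K M) (hv : v ∈ Av w c i) : (Xv c j) ^ m * v ∈ Av w c (i + (m * w j : ℕ)) := by
  by_cases hi : 0 ≤ i
  · obtain ⟨k, rfl⟩ := Int.eq_ofNat_of_zero_le hi
    rw [Av_nat] at hv
    have h1 : ((k : ℤ) + ((m * w j : ℕ) : ℤ)) = ((m * w j + k : ℕ) : ℤ) := by
      push_cast
      ring
    rw [h1, Av_nat]
    exact V_mul w c _ _ _ _ (Xv_pow_mem w c j m) hv
  · have h0 : v = 0 := by
      unfold Av at hv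
      rw [if_neg hi] at hv
      exact (Submodule.mem_bot ℂ).1 hv
    rw [h0, mul_zero]
    exact Submodule.zero_mem _

theorem Dop_single {n M : ℕ} (c : Fin M → Fin n → ℂ) (j : Fin n) (β : K M)
    (f : MvPolynomial (Fin n) ℂ) :
    Dop c (Pi.single j β : Fin n → K M) f = β * ev c (pderiv j f) := by
  unfold Dop
  rw [Finset.sum_eq_single j]
  · rw [Pi.single_eq_same]
  · intro b _ hb
    rw [Pi.single_eq_of_ne hb, zero_mul]
  · intro h
    exact absurd (Finset.mem_univ j) h

theorem sum_single {n M : ℕ} (c : Fin M → Fin n → ℂ) (j : Fin n) (ν : K M →ₗ[ℂ] ℂ) (β : K M) :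
    ∑ j', (Pi.single j ν : Fin n → (K M →ₗ[ℂ] ℂ)) j' (Xv c j' * β) = ν (Xv c j * β) := by
  rw [Finset.sum_eq_single j]
  · rw [Pi.single_eq_same]
  · intro b _ hb
    rw [Pi.single_eq_of_ne hb, LinearMap.zero_apply]
  · intro h
    exact absurd (Finset.mem_univ j) h

theorem single_kill {n M : ℕ} (j : Fin n) (ν : K M →ₗ[ℂ] ℂ) (S : Submodule ℂ (K M))
    (hν : ∀ v ∈ S, ν v = 0) :
    ∀ j', ∀ v ∈ S, (Pi.single j ν : Fin n → (K M →ₗ[ℂ] ℂ)) j' v = 0 := by
  intro j' v hv
  by_cases h : j' = j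
  · subst h
    rw [Pi.single_eq_same]
    exact hν v hv
  · rw [Pi.single_eq_of_ne h, LinearMap.zero_apply]

theorem contra_lt {n M : ℕ} {w : Fin n → ℕ} (hw : ∀ i, 0 < w i) {c : Fin M → Fin n → ℂ}
    (D : Data w c) (hmin : Hmin w c) (j1 j2 : Fin n) (h12 : j1 ≠ j2) (hlt : w j1 < w j2)
    (h2 : ∀ j, j ≠ j1 → w j2 ≤ w j) (hg : ∀ ν, Good D ν) : False := by
  classical
  obtain ⟨v, hvB, hvA⟩ : ∃ v ∈ D.B D.a, v ∉ Av w c D.a := by
    by_contra h
    push Not at h
    exact D.hne h
  obtain ⟨z, hzv, hz⟩ := Submodule.exists_le_ker_of_notMem hvA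
  have hzA : ∀ v ∈ Av w c D.a, z v = 0 := fun v hv => hz hv
  obtain ⟨N, f, lam, hf, hlam, hdual⟩ := dual hw D hmin j1 j2 h12 hlt.le h2 (hg _) z hzA
  choose l r c0 hl hr hc0 hp1 hp2 using fun k => struct_lt w hw c hmin j1 j2 h12 hlt h2 (f k) (hf k)
  have hw1 : 0 < w j1 := hw j1
  -- step 1
  have star : ∀ j, w j = w j2 → ∀ u ∈ D.B D.a,
      ∑ k, l k j * lam k u = (if j = j2 then (w j1 : ℂ) else 0) * z u := by
    intro j hj
    have hjne : j ≠ j1 := by
      rintro rfl
      omega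
    let ν : K M →ₗ[ℂ] ℂ := ∑ k, l k j • lam k - (if j = j2 then (w j1 : ℂ) else 0) • z
    have hν : ∀ u, ν u = ∑ k, l k j * lam k u - (if j = j2 then (w j1 : ℂ) else 0) * z u := by
      intro u
      simp only [ν, LinearMap.sub_apply, LinearMap.sum_apply, LinearMap.smul_apply, smul_eq_mul]
    have h3 := inj1 hw D hmin j1 j2 h12 hlt.le h2 (hg _) (Pi.single j1 ν)
      (single_kill j1 ν _ (fun u hu => by
        rw [hν, hzA u hu, mul_zero, sub_zero]
        apply Finset.sum_eq_zero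
        intro k _
        rw [hlam k u hu, mul_zero]))
      (fun j' hj' => Pi.single_eq_of_ne (fun h => hj' (by rw [h])) _)
      (fun β hβ => by
        rw [sum_single, hν]
        have h4 := hdual (Pi.single j β) (by
          intro j'
          by_cases h : j' = j
          · subst h
            rw [Pi.single_eq_same]
            have : D.a - (w j1 : ℤ) - (w j2 : ℤ) + (w j' : ℤ) = D.a - w j1 := by
              rw [hj]
              ring
            rw [this]
            exact hβ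
          · rw [Pi.single_eq_of_ne h]
            exact Submodule.zero_mem _)
        rw [Pi.single_eq_of_ne (Ne.symm hjne), mul_zero, smul_zero, sub_zero] at h4
        have h5 : ∀ k, lam k (Dop c (Pi.single j β) (f k)) = l k j * lam k (Xv c j1 * β) := by
          intro k
          rw [Dop_single, hp1 k j hjne, mul_smul_comm, map_smul, smul_eq_mul, mul_comm β]
        simp only [h5] at h4
        rw [← h4]
        by_cases h : j = j2
        · subst h
          rw [Pi.single_eq_same, if_pos rfl, map_smul, smul_eq_mul, sub_self]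
        · rw [Pi.single_eq_of_ne (Ne.symm h), mul_zero, smul_zero, map_zero, if_neg h, zero_mul,
            sub_zero])
      j1
    intro u hu
    have h6 := h3 u hu
    rw [Pi.single_eq_same, hν] at h6
    exact sub_eq_zero.1 h6
  -- step 2
  have hXB : ∀ j, w j = w j2 → ∀ β ∈ D.B (D.a - w j2), Xv c j * β ∈ D.B D.a := by
    intro j hj β hβ
    have h3 : Xv c j ∈ D.B (w j : ℤ) := D.hAB _ (by
      rw [Av_nat]
      exact (V_base w c).2 j)
    have h4 := D.hBB _ _ _ _ h3 hβ
    have : (w j : ℤ) + (D.a - w j2) = D.a := by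
      rw [hj]
      ring
    rwa [this] at h4
  have h7 : ∀ β ∈ D.B (D.a - w j2),
      ((w j1 : ℂ) + w j2) * z (Xv c j2 * β) + ∑ k, (c0 k * r k) * lam k ((Xv c j1) ^ (r k - 1) * β) = 0 := by
    intro β hβ
    have h4 := hdual (Pi.single j1 β) (by
          intro j'
          by_cases h : j' = j1
          · subst h
            rw [Pi.single_eq_same]
            have : D.a - (w j' : ℤ) - (w j2 : ℤ) + (w j' : ℤ) = D.a - w j2 := by ring
            rw [this]
            exact hβ
          · rw [Pi.single_eq_of_ne h]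
            exact Submodule.zero_mem _)
    rw [Pi.single_eq_of_ne (Ne.symm h12), mul_zero, smul_zero, zero_sub, Pi.single_eq_same, map_neg,
      map_smul, smul_eq_mul] at h4
    have h5 : ∀ k, lam k (Dop c (Pi.single j1 β) (f k)) =
        ∑ j, l k j * lam k (Xv c j * β) + (c0 k * r k) * lam k ((Xv c j1) ^ (r k - 1) * β) := by
      intro k
      rw [Dop_single, hp2 k, mul_add, map_add, mul_smul_comm, map_smul, smul_eq_mul, Finset.mul_sum,
        map_sum, mul_comm β]
      congr 1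
      refine Finset.sum_congr rfl fun j _ => ?_
      rw [mul_smul_comm, map_smul, smul_eq_mul, mul_comm β]
    simp only [h5] at h4
    rw [Finset.sum_add_distrib, Finset.sum_comm] at h4
    have h8 : ∑ j, ∑ k, l k j * lam k (Xv c j * β) = (w j1 : ℂ) * z (Xv c j2 * β) := by
      rw [Finset.sum_eq_single j2]
      · have := star j2 rfl (Xv c j2 * β) (hXB j2 rfl β hβ)
        rw [this, if_pos rfl]
      · intro j _ hj
        by_cases hwj : w j = w j2
        · have := star j hwj (Xv c j * β) (hXB j hwj β hβ)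
          rw [this, if_neg hj, zero_mul]
        · apply Finset.sum_eq_zero
          intro k _
          rw [hl k j hwj, zero_mul]
      · intro h
        exact absurd (Finset.mem_univ j2) h
    rw [h8] at h4
    linear_combination -h4
  -- step 3
  let mulp : ℕ → (K M →ₗ[ℂ] K M) := fun m => LinearMap.mulLeft ℂ ((Xv c j1) ^ m)
  let μ0 : K M →ₗ[ℂ] ℂ := ∑ k, (c0 k * r k) • (lam k).comp (mulp (r k - 2))
  have hμ0 : ∀ u, μ0 u = ∑ k, (c0 k * r k) * lam k ((Xv c j1) ^ (r k - 2) * u) := by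
    intro u
    simp only [μ0, mulp, LinearMap.sum_apply, LinearMap.smul_apply, LinearMap.comp_apply,
      LinearMap.mulLeft_apply, smul_eq_mul]
  have hrk : ∀ k, c0 k ≠ 0 → 2 ≤ r k ∧ (r k - 2) * w j1 + w j1 = w j2 := by
    intro k hk
    have h9 := hc0 k hk
    have h10 : 2 ≤ r k := by
      by_contra h
      have h11 : r k ≤ 1 := by omega
      have h12' : r k * w j1 ≤ 1 * w j1 := Nat.mul_le_mul_right _ h11
      omega
    obtain ⟨s, hs⟩ := Nat.exists_eq_add_of_le h10
    refine ⟨h10, ?_⟩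
    rw [hs] at h9 ⊢
    have h13 : 2 + s - 2 = s := by omega
    rw [h13]
    have h14 : (2 + s) * w j1 = 2 * w j1 + s * w j1 := by ring
    omega
  have hfin := inj2 hw D hmin j1 j2 h12 hlt h2 (hg _) (Pi.single j2 (((w j1 : ℂ) + w j2) • z))
    (single_kill j2 _ _ (fun u hu => by
      rw [LinearMap.smul_apply, hzA u hu, smul_zero]))
    (fun j' hj' => Pi.single_eq_of_ne (fun h => hj' (by rw [h])) _) μ0
    (fun u hu => by
      rw [hμ0]
      apply Finset.sum_eq_zero
      intro k _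
      by_cases hk : c0 k = 0
      · rw [hk, zero_mul, zero_mul]
      · obtain ⟨h10, h11⟩ := hrk k hk
        have h12' := Av_pow_mul w c j1 (r k - 2) _ u hu
        have h13 : D.a - (w j2 : ℤ) + (w j1 : ℤ) + (((r k - 2) * w j1 : ℕ) : ℤ) = D.a := by
          have h14 : (((r k - 2) * w j1 : ℕ) : ℤ) + (w j1 : ℤ) = (w j2 : ℤ) := by exact_mod_cast h11
          linarith
        rw [h13] at h12'
        rw [hlam k _ h12', mul_zero])
    (fun β hβ => by
      rw [sum_single, LinearMap.smul_apply, smul_eq_mul, hμ0, ← h7 β hβ]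
      congr 1
      refine Finset.sum_congr rfl fun k _ => ?_
      by_cases hk : c0 k = 0
      · rw [hk, zero_mul, zero_mul, zero_mul]
      · obtain ⟨h10, _⟩ := hrk k hk
        obtain ⟨s, hs⟩ := Nat.exists_eq_add_of_le h10
        have h13 : r k - 2 = s := by omega
        have h14 : r k - 1 = s + 1 := by omega
        rw [h13, h14, pow_succ, mul_assoc (Xv c j1 ^ s)])
    j2 v hvB
  rw [Pi.single_eq_same, LinearMap.smul_apply, smul_eq_mul] at hfin
  rcases mul_eq_zero.1 hfin with h | h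
  · have h15 : ((w j1 + w j2 : ℕ) : ℂ) = 0 := by
      push_cast
      exact h
    have h16 : w j1 + w j2 = 0 := by exact_mod_cast h15
    omega
  · exact hzv h

theorem not_all_good {n M : ℕ} {w : Fin n → ℕ} (hw : ∀ i, 0 < w i) {c : Fin M → Fin n → ℂ}
    (D : Data w c) (hmin : Hmin w c) (hn : 2 ≤ n) : ∃ ν, ¬ Good D ν := by
  by_contra hcon
  push Not at hcon
  have hnt : Nontrivial (Fin n) := Fin.nontrivial_iff_two_le.2 hn
  obtain ⟨j1, hj1⟩ := Finite.exists_min w
  obtain ⟨j0, hj0⟩ := exists_ne j1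
  have hne : Nonempty {j : Fin n // j ≠ j1} := ⟨⟨j0, hj0⟩⟩
  obtain ⟨⟨j2, hj2⟩, hmin2⟩ := Finite.exists_min (fun j : {j : Fin n // j ≠ j1} => w j.1)
  have h2 : ∀ j, j ≠ j1 → w j2 ≤ w j := fun j hj => hmin2 ⟨j, hj⟩
  rcases (hj1 j2).eq_or_lt with h | h
  · exact contra_eq hw D hmin j1 j2 hj2.symm h h2 hcon
  · exact contra_lt hw D hmin j1 j2 hj2.symm h h2 hcon

/-- Irredundant family of branches. -/
def Irr {n M : ℕ} (w : Fin n → ℕ) (c : Fin M → Fin n → ℂ) : Prop :=
  ∀ m, ∃ (e : ℕ) (g : MvPolynomial (Fin n) ℂ), g.IsWeightedHomogeneous w e ∧ eval (c m) g ≠ 0 ∧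
    ∀ m', m' ≠ m → eval (c m') g = 0

theorem dop_mul_apply {n M : ℕ} (c : Fin M → Fin n → ℂ) (b : Fin n → K M) (m : Fin M)
    (h g : MvPolynomial (Fin n) ℂ) (hh : eval (c m) h = 0) :
    Dop c b (h * g) m = (∑ i, b i m * eval (c m) (pderiv i h)) * eval (c m) g := by
  unfold Dop ev
  simp only [Finset.sum_apply, Pi.mul_apply, pderiv_mul, map_add, map_mul, hh, zero_mul, add_zero]
  rw [Finset.sum_mul]
  exact Finset.sum_congr rfl fun i _ => by ring

theorem euler_mult {n M : ℕ} (w : Fin n → ℕ) (hw : ∀ i, 0 < w i) (c : Fin M → Fin n → ℂ)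
    (hc : ∀ m, c m ≠ 0) (hirr : Irr w c) (b : Fin n → K M)
    (hb : ∀ (e : ℕ) (f : MvPolynomial (Fin n) ℂ), Ie w c e f → Dop c b f = 0) :
    ∃ β : K M, ∀ j, b j = (w j : ℂ) • (β * Xv c j) := by
  have key : ∀ m : Fin M, ∃ t : ℂ, ∀ j, b j m = (w j : ℂ) * (t * c m j) := by
    intro m
    obtain ⟨eg, g, hgh, hgm, hg0⟩ := hirr m
    obtain ⟨l, hl⟩ : ∃ l, c m l ≠ 0 := by
      by_contra hcon
      push Not at hcon
      exact hc m (funext hcon)
    -- general consequence
    have main : ∀ (d : ℕ) (h : MvPolynomial (Fin n) ℂ), h.IsWeightedHomogeneous w d →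
        eval (c m) h = 0 → ∑ i, b i m * eval (c m) (pderiv i h) = 0 := by
      intro d h hh h0
      have hI : Ie w c (d + eg) (h * g) := by
        refine ⟨hh.mul hgh, ?_⟩
        funext m'
        show eval (c m') (h * g) = 0
        by_cases hm : m' = m
        · rw [hm, map_mul, h0, zero_mul]
        · rw [map_mul, hg0 m' hm, mul_zero]
      have := congrFun (hb _ _ hI) m
      rw [dop_mul_apply c b m h g h0] at this
      exact (mul_eq_zero.1 this).resolve_right hgm
    refine ⟨b l m / (w l * c m l), ?_⟩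
    have hwl : (w l : ℂ) ≠ 0 := by exact_mod_cast (hw l).ne'
    intro j
    by_cases hj : c m j = 0
    · have h1 := main (w j) (X j) (isWeightedHomogeneous_X ℂ w j) (by simp [hj])
      rw [Finset.sum_eq_single j] at h1
      · simp only [pderiv_X_self, map_one, mul_one] at h1
        rw [h1, hj, mul_zero, mul_zero]
      · intro i _ hi
        rw [pderiv_X_of_ne (Ne.symm hi), map_zero, mul_zero]
      · intro h; exact absurd (Finset.mem_univ j) h
    · have hhom : (C ((c m l) ^ (w j)) * X j ^ (w l) + C (-((c m j) ^ (w l))) * X l ^ (w j) :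
          MvPolynomial (Fin n) ℂ).IsWeightedHomogeneous w (w l * w j) := by
        refine (weightedHomogeneousSubmodule ℂ w _).add_mem ?_ ?_
        · have h1 := (isWeightedHomogeneous_C w ((c m l) ^ (w j))).mul
            ((isWeightedHomogeneous_X ℂ w j).pow (w l))
          have e : 0 + w l • w j = w l * w j := by rw [zero_add, smul_eq_mul]
          rw [e] at h1
          exact h1
        · have h1 := (isWeightedHomogeneous_C w (-((c m j) ^ (w l)))).mul
            ((isWeightedHomogeneous_X ℂ w l).pow (w j))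
          have e : 0 + w j • w l = w l * w j := by rw [zero_add, smul_eq_mul, mul_comm]
          rw [e] at h1
          exact h1
      have h1 := main _ _ hhom (by
        simp only [map_add, map_mul, eval_C, map_pow, eval_X]
        ring)
      have h2 : ∀ i, eval (c m) (pderiv i (C ((c m l) ^ (w j)) * X j ^ (w l) +
          C (-((c m j) ^ (w l))) * X l ^ (w j) : MvPolynomial (Fin n) ℂ)) =
          (c m l) ^ (w j) * ((w l : ℂ) * (c m j) ^ (w l - 1)) * (if i = j then 1 else 0) -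
          (c m j) ^ (w l) * ((w j : ℂ) * (c m l) ^ (w j - 1)) * (if i = l then 1 else 0) := by
        intro i
        have e1 : ∀ k : Fin n, eval (c m) (pderiv i (X k : MvPolynomial (Fin n) ℂ)) =
            if i = k then 1 else 0 := by
          intro k
          by_cases hk : i = k
          · rw [hk, pderiv_X_self, map_one, if_pos rfl]
          · rw [pderiv_X_of_ne (Ne.symm hk), map_zero, if_neg hk]
        rw [map_add, pderiv_C_mul, pderiv_C_mul, pderiv_pow, pderiv_pow]
        simp only [map_add, smul_eq_mul, nsmul_eq_mul,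
          map_mul, eval_C, map_pow, eval_X, map_natCast, e1, smul_eval]
        ring
      simp only [h2] at h1
      have h3 : ∑ i, b i m * ((c m l) ^ (w j) * ((w l : ℂ) * (c m j) ^ (w l - 1)) *
          (if i = j then 1 else 0) - (c m j) ^ (w l) * ((w j : ℂ) * (c m l) ^ (w j - 1)) *
          (if i = l then 1 else 0)) =
          b j m * ((c m l) ^ (w j) * ((w l : ℂ) * (c m j) ^ (w l - 1))) -
          b l m * ((c m j) ^ (w l) * ((w j : ℂ) * (c m l) ^ (w j - 1))) := by
        simp only [mul_sub, Finset.sum_sub_distrib, mul_ite, mul_one, mul_zero,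
          Finset.sum_ite_eq', Finset.mem_univ, if_true]
      rw [h3] at h1
      obtain ⟨p, hp⟩ : ∃ p, w l = p + 1 := ⟨w l - 1, by have := hw l; omega⟩
      obtain ⟨q, hq⟩ : ∃ q, w j = q + 1 := ⟨w j - 1, by have := hw j; omega⟩
      have h4 : (c m l) ^ q * (c m j) ^ p * (b j m * (w l : ℂ) * c m l -
          b l m * (w j : ℂ) * c m j) = 0 := by
        rw [← h1, hp, hq]
        simp only [Nat.add_sub_cancel]
        ring
      have h5 : b j m * (w l : ℂ) * c m l - b l m * (w j : ℂ) * c m j = 0 :=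
        (mul_eq_zero.1 h4).resolve_left
          (mul_ne_zero (pow_ne_zero _ hl) (pow_ne_zero _ hj))
      field_simp
      linear_combination h5
  choose t ht using key
  refine ⟨t, fun j => ?_⟩
  funext m
  simp only [Pi.smul_apply, Pi.mul_apply, Xv, smul_eq_mul]
  exact ht m j

/-- The weight `k` part of a power series. -/
noncomputable def comp {n : ℕ} (w : Fin n → ℕ) (k : ℕ) (f : MvPowerSeries (Fin n) ℂ) :
    MvPolynomial (Fin n) ℂ :=
  ∑ s ∈ (Fintype.piFinset fun _ : Fin n => range (k + 1)).filter (fun s => ∑ i, w i * s i = k),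
    monomial (Finsupp.equivFunOnFinite.symm s)
      (MvPowerSeries.coeff (Finsupp.equivFunOnFinite.symm s) f)

theorem comp_coeff {n : ℕ} (w : Fin n → ℕ) (hw : ∀ i, 0 < w i) (k : ℕ)
    (f : MvPowerSeries (Fin n) ℂ) (s : Fin n →₀ ℕ) :
    coeff s (comp w k f) = if ∑ i, w i * s i = k then MvPowerSeries.coeff s f else 0 := by
  unfold comp
  rw [coeff_sum]
  simp only [coeff_monomial]
  split_ifs with h
  · have hs : (s : Fin n → ℕ) ∈ (Fintype.piFinset fun _ : Fin n => range (k + 1)).filter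
        (fun s => ∑ i, w i * s i = k) := by
      rw [Finset.mem_filter, Fintype.mem_piFinset]
      refine ⟨fun i => ?_, h⟩
      rw [Finset.mem_range]
      have h1 : w i * s i ≤ ∑ i, w i * s i :=
        Finset.single_le_sum (f := fun i => w i * s i) (fun _ _ => Nat.zero_le _) (Finset.mem_univ i)
      have h2 : s i ≤ w i * s i := Nat.le_mul_of_pos_left _ (hw i)
      omega
    have hss : (Finsupp.equivFunOnFinite.symm (s : Fin n → ℕ)) = s := by
      ext i; simp
    rw [Finset.sum_eq_single_of_mem (s : Fin n → ℕ) hs]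
    · rw [hss, if_pos rfl]
    · intro t _ hts
      rw [if_neg]
      intro he
      apply hts
      rw [← he]
      ext i; simp
  · apply Finset.sum_eq_zero
    intro t ht
    rw [if_neg]
    intro he
    apply h
    rw [← he]
    exact (Finset.mem_filter.1 ht).2

theorem comp_hom {n : ℕ} (w : Fin n → ℕ) (hw : ∀ i, 0 < w i) (k : ℕ)
    (f : MvPowerSeries (Fin n) ℂ) : (comp w k f).IsWeightedHomogeneous w k := by
  intro d hd
  rw [comp_coeff w hw] at hd
  have h : ∑ i, w i * d i = k := by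
    by_contra hne
    rw [if_neg hne] at hd
    exact hd rfl
  rw [Finsupp.weight_apply, Finsupp.sum_fintype _ _ (fun i => by simp)]
  rw [← h]
  apply Finset.sum_congr rfl
  intro i _
  rw [smul_eq_mul, mul_comm]

theorem comp_mul {n : ℕ} (w : Fin n → ℕ) (hw : ∀ i, 0 < w i) (k : ℕ)
    (f g : MvPowerSeries (Fin n) ℂ) :
    comp w k (f * g) = ∑ p ∈ antidiagonal k, comp w p.1 f * comp w p.2 g := by
  classical
  have wadd : ∀ u v : Fin n →₀ ℕ,
      ∑ i, w i * (u + v) i = ∑ i, w i * u i + ∑ i, w i * v i := by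
    intro u v
    rw [← sum_add_distrib]
    apply sum_congr rfl
    intro i _
    rw [Finsupp.add_apply, mul_add]
  ext s
  rw [comp_coeff w hw, MvPolynomial.coeff_sum]
  have h1 : ∀ p ∈ antidiagonal k, coeff s (comp w p.1 f * comp w p.2 g) =
      ∑ uv ∈ antidiagonal s,
        (if ∑ i, w i * uv.1 i = p.1 then MvPowerSeries.coeff uv.1 f else 0) *
        (if ∑ i, w i * uv.2 i = p.2 then MvPowerSeries.coeff uv.2 g else 0) := by
    intro p _
    rw [MvPolynomial.coeff_mul]
    apply sum_congr rfl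
    intro uv _
    rw [comp_coeff w hw, comp_coeff w hw]
  rw [sum_congr rfl h1, sum_comm]
  have h2 : ∀ uv ∈ antidiagonal s, ∑ p ∈ antidiagonal k,
        (if ∑ i, w i * uv.1 i = p.1 then MvPowerSeries.coeff uv.1 f else 0) *
        (if ∑ i, w i * uv.2 i = p.2 then MvPowerSeries.coeff uv.2 g else 0) =
      if ∑ i, w i * s i = k then MvPowerSeries.coeff uv.1 f * MvPowerSeries.coeff uv.2 g
        else 0 := by
    intro uv huv
    rw [HasAntidiagonal.mem_antidiagonal] at huv
    have hw2 : ∑ i, w i * s i = ∑ i, w i * uv.1 i + ∑ i, w i * uv.2 i := by rw [← huv, wadd]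
    split_ifs with h
    · rw [sum_eq_single (∑ i, w i * uv.1 i, ∑ i, w i * uv.2 i)]
      · simp
      · intro p hp hne
        by_cases h3 : ∑ i, w i * uv.1 i = p.1
        · have h4 : ¬ ∑ i, w i * uv.2 i = p.2 := fun h4 => hne (Prod.ext h3.symm h4.symm)
          rw [if_neg h4, mul_zero]
        · rw [if_neg h3, zero_mul]
      · intro hnot
        exact absurd (HasAntidiagonal.mem_antidiagonal.2 (by rw [← hw2, h])) hnot
    · apply sum_eq_zero
      intro p hp
      rw [HasAntidiagonal.mem_antidiagonal] at hp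
      by_cases h3 : ∑ i, w i * uv.1 i = p.1
      · rw [if_neg (show ¬ ∑ i, w i * uv.2 i = p.2 by
          intro h4
          apply h
          rw [hw2, h3, h4, hp]), mul_zero]
      · rw [if_neg h3, zero_mul]
  rw [sum_congr rfl h2]
  split_ifs with h
  · rw [MvPowerSeries.coeff_mul]
  · simp

theorem comp_coe {n : ℕ} (w : Fin n → ℕ) (hw : ∀ i, 0 < w i) (k e : ℕ)
    (f : MvPolynomial (Fin n) ℂ) (hf : f.IsWeightedHomogeneous w e) :
    comp w k (f : MvPowerSeries (Fin n) ℂ) = if k = e then f else 0 := by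
  have hwt : ∀ d : Fin n →₀ ℕ, coeff d f ≠ 0 → ∑ i, w i * d i = e := by
    intro d hd
    have h := hf hd
    rw [Finsupp.weight_apply, Finsupp.sum_fintype _ _ (fun i => by simp)] at h
    rw [← h]
    apply Finset.sum_congr rfl
    intro i _
    rw [smul_eq_mul, mul_comm]
  ext s
  rw [comp_coeff w hw, MvPolynomial.coeff_coe]
  by_cases hs : coeff s f = 0
  · by_cases hke : k = e
    · simp [hke, hs]
    · simp [hke, hs]
  · have h1 := hwt s hs
    by_cases hke : k = e
    · rw [if_pos hke, if_pos (by rw [h1, hke])]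
    · rw [if_neg hke, if_neg (by rw [h1]; exact fun h => hke h.symm)]
      simp

theorem deriv_coe {n : ℕ} (D : Derivation ℂ (MvPowerSeries (Fin n) ℂ) (MvPowerSeries (Fin n) ℂ))
    (f : MvPolynomial (Fin n) ℂ) :
    D (f : MvPowerSeries (Fin n) ℂ)
      = ∑ j, D (MvPowerSeries.X j) * ((pderiv j f : MvPolynomial (Fin n) ℂ) : MvPowerSeries (Fin n) ℂ) := by
  induction f using MvPolynomial.induction_on with
  | C a =>
    have h1 : ((C a : MvPolynomial (Fin n) ℂ) : MvPowerSeries (Fin n) ℂ) =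
        algebraMap ℂ (MvPowerSeries (Fin n) ℂ) a := by
      rw [MvPolynomial.coe_C]; rfl
    rw [h1, Derivation.map_algebraMap]
    symm
    apply Finset.sum_eq_zero
    intro j _
    simp
  | add p q hp hq =>
    rw [MvPolynomial.coe_add, map_add, hp, hq, ← Finset.sum_add_distrib]
    refine Finset.sum_congr rfl fun j _ => ?_
    rw [map_add, MvPolynomial.coe_add, mul_add]
  | mul_X p i hp =>
    rw [MvPolynomial.coe_mul, MvPolynomial.coe_X, Derivation.leibniz, hp]
    have h2 : ∀ j, D (MvPowerSeries.X j) *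
        ((pderiv j (p * X i) : MvPolynomial (Fin n) ℂ) : MvPowerSeries (Fin n) ℂ) =
        (p : MvPowerSeries (Fin n) ℂ) * (D (MvPowerSeries.X j) * (if j = i then 1 else 0)) +
        MvPowerSeries.X i * (D (MvPowerSeries.X j) *
          ((pderiv j p : MvPolynomial (Fin n) ℂ) : MvPowerSeries (Fin n) ℂ)) := by
      intro j
      rw [pderiv_mul, MvPolynomial.coe_add, MvPolynomial.coe_mul, MvPolynomial.coe_mul,
        MvPolynomial.coe_X, pderiv_X]
      by_cases hji : j = i
      · subst hji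
        simp only [Pi.single_eq_same, MvPolynomial.coe_one, if_true]
        ring
      · rw [Pi.single_eq_of_ne' hji, if_neg hji, MvPolynomial.coe_zero]
        ring
    rw [Finset.sum_congr rfl fun j _ => h2 j, Finset.sum_add_distrib, ← Finset.mul_sum,
      ← Finset.mul_sum]
    simp [smul_eq_mul]

/-- evaluation as a linear map -/
noncomputable def exists_G_ev {n M : ℕ} (c : Fin M → Fin n → ℂ) :
    MvPolynomial (Fin n) ℂ →ₗ[ℂ] K M where
  toFun f := ev c f
  map_add' f g := by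
    funext m
    exact map_add (eval (c m)) f g
  map_smul' r f := by
    funext m
    exact MvPolynomial.smul_eval (c m) f r

theorem exists_G_ev_apply {n M : ℕ} (c : Fin M → Fin n → ℂ) (f : MvPolynomial (Fin n) ℂ) :
    exists_G_ev c f = ev c f := rfl

/-- the vector field as a linear map -/
noncomputable def exists_G_D {n M : ℕ} (c : Fin M → Fin n → ℂ) (b : Fin n → K M) :
    MvPolynomial (Fin n) ℂ →ₗ[ℂ] K M where
  toFun f := Dop c b f
  map_add' f g := by
    unfold Dop
    rw [← Finset.sum_add_distrib]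
    refine Finset.sum_congr rfl fun j _ => ?_
    rw [map_add, ← exists_G_ev_apply, ← exists_G_ev_apply, ← exists_G_ev_apply, map_add, mul_add]
  map_smul' r f := by
    unfold Dop
    rw [RingHom.id_apply, Finset.smul_sum]
    refine Finset.sum_congr rfl fun j _ => ?_
    rw [Derivation.map_smul, ← exists_G_ev_apply, ← exists_G_ev_apply, map_smul,
      mul_smul_comm]

/-- weight part as a linear map -/
noncomputable def exists_G_comp {n : ℕ} (w : Fin n → ℕ) (k : ℕ) :
    MvPowerSeries (Fin n) ℂ →ₗ[ℂ] MvPolynomial (Fin n) ℂ where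
  toFun f := comp w k f
  map_add' f g := by
    unfold comp
    rw [← Finset.sum_add_distrib]
    refine Finset.sum_congr rfl fun s _ => ?_
    rw [map_add, map_add]
  map_smul' r f := by
    unfold comp
    rw [RingHom.id_apply, Finset.smul_sum]
    refine Finset.sum_congr rfl fun s _ => ?_
    rw [map_smul, map_smul]

theorem exists_G_sigma {n M : ℕ} (w : Fin n → ℕ) (c : Fin M → Fin n → ℂ) (k : ℕ) :
    ∃ σ : K M →ₗ[ℂ] MvPolynomial (Fin n) ℂ, (∀ v, (σ v).IsWeightedHomogeneous w k) ∧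
      ∀ v ∈ V w c k, ev c (σ v) = v := by
  let W := weightedHomogeneousSubmodule ℂ w k
  let g : W →ₗ[ℂ] K M := (exists_G_ev c).comp W.subtype
  obtain ⟨r, hr⟩ := LinearMap.exists_rightInverse_of_surjective g.rangeRestrict
    (LinearMap.range_rangeRestrict g)
  obtain ⟨pr, hpr⟩ := LinearMap.exists_leftInverse_of_injective (LinearMap.range g).subtype
    (Submodule.ker_subtype _)
  refine ⟨W.subtype.comp (r.comp pr), fun v => (r (pr v)).2, fun v hv => ?_⟩
  obtain ⟨f, hf, hvf⟩ := (V_mem_iff w c k v).1 hv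
  have hvr : v ∈ LinearMap.range g := ⟨⟨f, hf⟩, hvf.symm⟩
  have h1 : pr v = ⟨v, hvr⟩ := LinearMap.congr_fun hpr ⟨v, hvr⟩
  have h2 : g.rangeRestrict (r (pr v)) = pr v := LinearMap.congr_fun hr (pr v)
  have h3 : g (r (pr v)) = (pr v : K M) := congrArg Subtype.val h2
  rw [h1] at h3
  show ev c ((r (pr v) : W) : MvPolynomial (Fin n) ℂ) = v
  rw [h1]
  exact h3

theorem exists_G {n M : ℕ} (w : Fin n → ℕ) (hw : ∀ i, 0 < w i) (c : Fin M → Fin n → ℂ) (ν : ℤ)
    (b : Fin n → K M) :
    ∃ G : MvPowerSeries (Fin n) ℂ →ₗ[ℂ] MvPowerSeries (Fin n) ℂ,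
      ∀ (f : MvPowerSeries (Fin n) ℂ) (k : ℕ),
        (∀ e : ℕ, ν + e = k → Dop c b (comp w e f) ∈ V w c k →
          ev c (comp w k (G f)) = Dop c b (comp w e f)) ∧
        ((∀ e : ℕ, ν + e ≠ k) → ev c (comp w k (G f)) = 0) := by
  classical
  choose σ hσ1 hσ2 using exists_G_sigma w c
  let L : ℕ → (MvPowerSeries (Fin n) ℂ →ₗ[ℂ] MvPolynomial (Fin n) ℂ) := fun k =>
    if (∃ e : ℕ, ν + e = k) then
      (σ k).comp ((exists_G_D c b).comp (exists_G_comp w ((k : ℤ) - ν).toNat)) else 0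
  have hLh : ∀ k f, (L k f).IsWeightedHomogeneous w k := by
    intro k f
    by_cases h : ∃ e : ℕ, ν + e = k
    · have h1 : L k = (σ k).comp ((exists_G_D c b).comp (exists_G_comp w ((k : ℤ) - ν).toNat)) :=
        if_pos h
      rw [h1]
      exact hσ1 k _
    · have h1 : L k = 0 := if_neg h
      rw [h1]
      exact isWeightedHomogeneous_zero ℂ w k
  let G : MvPowerSeries (Fin n) ℂ →ₗ[ℂ] MvPowerSeries (Fin n) ℂ :=
    { toFun := fun f s => coeff s (L (∑ i, w i * s i) f)
      map_add' := fun f g => by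
        funext s
        show coeff s (L (∑ i, w i * s i) (f + g)) =
          coeff s (L (∑ i, w i * s i) f) + coeff s (L (∑ i, w i * s i) g)
        rw [map_add, coeff_add]
      map_smul' := fun r f => by
        funext s
        show coeff s (L (∑ i, w i * s i) (r • f)) = r • coeff s (L (∑ i, w i * s i) f)
        rw [map_smul, coeff_smul] }
  have hG : ∀ f k, comp w k (G f) = L k f := by
    intro f k
    ext s
    rw [comp_coeff w hw]
    have h1 : MvPowerSeries.coeff s (G f) = coeff s (L (∑ i, w i * s i) f) := rfl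
    split_ifs with h
    · rw [h1, h]
    · by_contra hne
      apply h
      have h2 := hLh k f (Ne.symm hne)
      have h3 : (s.sum fun i c => c • w i) = ∑ i, s i • w i :=
        Finsupp.sum_fintype s (fun i c => c • w i) (fun i => zero_smul ℕ (w i))
      rw [← h2, Finsupp.weight_apply, h3]
      exact Finset.sum_congr rfl fun i _ => by rw [smul_eq_mul, mul_comm]
  refine ⟨G, fun f k => ⟨fun e he hV => ?_, fun hne => ?_⟩⟩
  · rw [hG]
    have h1 : L k = (σ k).comp ((exists_G_D c b).comp (exists_G_comp w ((k : ℤ) - ν).toNat)) :=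
      if_pos ⟨e, he⟩
    have h2 : ((k : ℤ) - ν).toNat = e := by omega
    rw [h1, h2]
    exact hσ2 k _ hV
  · rw [hG]
    have h1 : L k = 0 := if_neg (fun ⟨e, he⟩ => hne e he)
    rw [h1]
    exact map_zero (exists_G_ev c)

theorem comp_add' {n : ℕ} (w : Fin n → ℕ) (k : ℕ) (f g : MvPowerSeries (Fin n) ℂ) :
    comp w k (f + g) = comp w k f + comp w k g := by
  simp only [comp, map_add, Finset.sum_add_distrib]

theorem comp_sub' {n : ℕ} (w : Fin n → ℕ) (k : ℕ) (f g : MvPowerSeries (Fin n) ℂ) :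
    comp w k (f - g) = comp w k f - comp w k g := by
  simp only [comp, map_sub, Finset.sum_sub_distrib]

theorem ev_mul' {n M : ℕ} (c : Fin M → Fin n → ℂ) (f g : MvPolynomial (Fin n) ℂ) :
    ev c (f * g) = ev c f * ev c g := by
  funext m; simp [ev]

theorem ev_add' {n M : ℕ} (c : Fin M → Fin n → ℂ) (f g : MvPolynomial (Fin n) ℂ) :
    ev c (f + g) = ev c f + ev c g := by
  funext m; simp [ev]

theorem ev_sub' {n M : ℕ} (c : Fin M → Fin n → ℂ) (f g : MvPolynomial (Fin n) ℂ) :
    ev c (f - g) = ev c f - ev c g := by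
  funext m; simp [ev]

theorem ev_sum' {n M : ℕ} {ι : Type*} (c : Fin M → Fin n → ℂ) (s : Finset ι)
    (f : ι → MvPolynomial (Fin n) ℂ) :
    ev c (∑ i ∈ s, f i) = ∑ i ∈ s, ev c (f i) := by
  funext m; simp [ev]

theorem Dop_sum' {n M : ℕ} {ι : Type*} (c : Fin M → Fin n → ℂ) (b : Fin n → K M) (s : Finset ι)
    (f : ι → MvPolynomial (Fin n) ℂ) :
    Dop c b (∑ i ∈ s, f i) = ∑ i ∈ s, Dop c b (f i) := by
  unfold Dop
  rw [Finset.sum_comm]
  refine Finset.sum_congr rfl fun j _ => ?_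
  rw [map_sum, ev_sum', Finset.mul_sum]

theorem Dop_mul' {n M : ℕ} (c : Fin M → Fin n → ℂ) (b : Fin n → K M)
    (f g : MvPolynomial (Fin n) ℂ) :
    Dop c b (f * g) = ev c f * Dop c b g + ev c g * Dop c b f := by
  unfold Dop
  rw [Finset.mul_sum, Finset.mul_sum, ← Finset.sum_add_distrib]
  refine Finset.sum_congr rfl fun j _ => ?_
  rw [pderiv_mul, ev_add', ev_mul', ev_mul']
  ring

theorem exists_phi {n M : ℕ} (w : Fin n → ℕ) (hw : ∀ i, 0 < w i) (c : Fin M → Fin n → ℂ)
    (I : Ideal (MvPowerSeries (Fin n) ℂ)) (hI : ∀ f, f ∈ I ↔ ∀ k, ev c (comp w k f) = 0) (ν : ℤ)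
    (b : Fin n → K M)
    (hb : ∀ (e : ℕ) (f : MvPolynomial (Fin n) ℂ), Ie w c e f → Dop c b f ∈ Av w c (ν + e)) :
    ∃ φ : (↥I) →ₗ[MvPowerSeries (Fin n) ℂ] (MvPowerSeries (Fin n) ℂ ⧸ I),
      ∀ (f : ↥I) (g : MvPowerSeries (Fin n) ℂ), φ f = Ideal.Quotient.mk I g →
        ∀ (e k : ℕ), ν + e = k → ev c (comp w k g) = Dop c b (comp w e (f : MvPowerSeries (Fin n) ℂ)) := by
  obtain ⟨G, hG⟩ := exists_G w hw c ν b
  -- the value of `G f` for `f ∈ I`
  have hpos : ∀ f ∈ I, ∀ e k : ℕ, ν + e = k → ev c (comp w k (G f)) = Dop c b (comp w e f) := by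
    intro f hf e k hek
    refine (hG f k).1 e hek ?_
    have h1 := hb e (comp w e f) ⟨comp_hom w hw e f, (hI f).1 hf e⟩
    rw [hek] at h1
    unfold Av at h1
    rw [if_pos (Int.natCast_nonneg k), Int.toNat_natCast] at h1
    exact h1
  have hneg : ∀ f ∈ I, ∀ e : ℕ, ν + e < 0 → Dop c b (comp w e f) = 0 := by
    intro f hf e he
    have h1 := hb e (comp w e f) ⟨comp_hom w hw e f, (hI f).1 hf e⟩
    unfold Av at h1
    rw [if_neg (by omega)] at h1
    exact (Submodule.mem_bot ℂ).1 h1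
  have hmulI : ∀ (h f : MvPowerSeries (Fin n) ℂ), f ∈ I → ∀ k : ℕ,
      ev c (comp w k (G (h * f))) = ev c (comp w k (h * G f)) := by
    intro h f hf k
    have hhf : h * f ∈ I := I.mul_mem_left h hf
    have hR : ev c (comp w k (h * G f)) =
        ∑ i ∈ range (k + 1), ev c (comp w i h) * ev c (comp w (k - i) (G f)) := by
      rw [comp_mul w hw, ev_sum']
      rw [Finset.Nat.sum_antidiagonal_eq_sum_range_succ_mk]
      refine Finset.sum_congr rfl fun i _ => ?_
      rw [ev_mul']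
    rw [hR]
    by_cases hex : ∃ e : ℕ, ν + e = k
    · obtain ⟨e, he⟩ := hex
      rw [hpos _ hhf e k he]
      have hL : Dop c b (comp w e (h * f)) =
          ∑ i ∈ range (e + 1), ev c (comp w i h) * Dop c b (comp w (e - i) f) := by
        rw [comp_mul w hw, Dop_sum', Finset.Nat.sum_antidiagonal_eq_sum_range_succ_mk]
        refine Finset.sum_congr rfl fun i _ => ?_
        rw [Dop_mul', (hI f).1 hf]
        simp
      rw [hL]
      -- compare both with the sum over the common range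
      have e1 : ∑ i ∈ range (min e k + 1), ev c (comp w i h) * Dop c b (comp w (e - i) f) =
          ∑ i ∈ range (e + 1), ev c (comp w i h) * Dop c b (comp w (e - i) f) := by
        refine Finset.sum_subset (fun i hi => ?_) (fun i hi hi' => ?_)
        · rw [mem_range] at hi ⊢; omega
        · rw [mem_range] at hi hi'
          rw [hneg f hf (e - i) (by omega), mul_zero]
      have e2 : ∑ i ∈ range (min e k + 1), ev c (comp w i h) * ev c (comp w (k - i) (G f)) =
          ∑ i ∈ range (k + 1), ev c (comp w i h) * ev c (comp w (k - i) (G f)) := by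
        refine Finset.sum_subset (fun i hi => ?_) (fun i hi hi' => ?_)
        · rw [mem_range] at hi ⊢; omega
        · rw [mem_range] at hi hi'
          rw [(hG f (k - i)).2 (fun e' => by omega), mul_zero]
      rw [← e1, ← e2]
      refine Finset.sum_congr rfl fun i hi => ?_
      rw [mem_range] at hi
      rw [hpos f hf (e - i) (k - i) (by omega)]
    · rw [(hG (h * f) k).2 (fun e he => hex ⟨e, he⟩)]
      symm
      apply Finset.sum_eq_zero
      intro i hi
      rw [mem_range] at hi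
      rw [(hG f (k - i)).2 (fun e' he' => hex ⟨e' + i, by push_cast; omega⟩), mul_zero]
  refine ⟨{ toFun := fun f => Ideal.Quotient.mk I (G f)
            map_add' := fun f g => by simp
            map_smul' := fun h f => ?_ }, ?_⟩
  · change Ideal.Quotient.mk I (G (h * (f : MvPowerSeries (Fin n) ℂ))) =
      Ideal.Quotient.mk I (h * G (f : MvPowerSeries (Fin n) ℂ))
    rw [Ideal.Quotient.eq, hI]
    intro k
    rw [comp_sub', ev_sub', hmulI h f f.2 k, sub_self]
  · intro f g hfg e k hek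
    have h1 : Ideal.Quotient.mk I (G f) = Ideal.Quotient.mk I g := hfg
    rw [Ideal.Quotient.eq, hI] at h1
    have h2 := h1 k
    rw [comp_sub', ev_sub', sub_eq_zero] at h2
    rw [← h2]
    exact hpos f f.2 e k hek

theorem nd_pderiv_zero {n : ℕ} (w : Fin n → ℕ) (e : ℕ) (f : MvPolynomial (Fin n) ℂ)
    (hf : f.IsWeightedHomogeneous w e) (j : Fin n) (h : e < w j) : pderiv j f = 0 := by
  apply MvPolynomial.ext
  intro m
  rw [coeff_pderiv, coeff_zero]
  have h0 : coeff (m + Finsupp.single j 1) f = 0 := by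
    by_contra hne
    have h1 := hf hne
    rw [map_add, Finsupp.weight_single] at h1
    simp at h1
    omega
  rw [h0, zero_mul]

theorem nd_comp_sum {n : ℕ} (w : Fin n → ℕ) (hw : ∀ i, 0 < w i) (k : ℕ)
    (G : Fin n → MvPowerSeries (Fin n) ℂ) :
    comp w k (∑ j, G j) = ∑ j, comp w k (G j) := by
  apply MvPolynomial.ext
  intro s
  rw [comp_coeff w hw, coeff_sum]
  simp only [comp_coeff w hw, map_sum]
  split_ifs
  · rfl
  · simp

theorem nd_comp_zero {n : ℕ} (w : Fin n → ℕ) (hw : ∀ i, 0 < w i) (k : ℕ) :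
    comp w k (0 : MvPowerSeries (Fin n) ℂ) = 0 := by
  apply MvPolynomial.ext
  intro s
  rw [comp_coeff w hw]
  simp

theorem nd_ev_zero {n M : ℕ} (c : Fin M → Fin n → ℂ) : ev c 0 = 0 := by
  funext m; simp [ev]

theorem nd_ev_mul {n M : ℕ} (c : Fin M → Fin n → ℂ) (f g : MvPolynomial (Fin n) ℂ) :
    ev c (f * g) = ev c f * ev c g := by
  funext m; simp [ev]

theorem nd_ev_sum {n M : ℕ} (c : Fin M → Fin n → ℂ) (G : Fin n → MvPolynomial (Fin n) ℂ) :
    ev c (∑ j, G j) = ∑ j, ev c (G j) := by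
  funext m; simp [ev, Finset.sum_apply]

theorem nd_main {n M : ℕ} (w : Fin n → ℕ) (hw : ∀ i, 0 < w i) (c : Fin M → Fin n → ℂ)
    (D : Derivation ℂ (MvPowerSeries (Fin n) ℂ) (MvPowerSeries (Fin n) ℂ)) (e k : ℕ) (ν : ℤ)
    (hk : ν + e = k) (f : MvPolynomial (Fin n) ℂ) (hf : f.IsWeightedHomogeneous w e) :
    ev c (comp w k (D (f : MvPowerSeries (Fin n) ℂ))) =
      Dop c (fun j => if 0 ≤ ν + w j then
        ev c (comp w (ν + w j).toNat (D (MvPowerSeries.X j))) else 0) f := by
  rw [deriv_coe, nd_comp_sum w hw, nd_ev_sum]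
  unfold Dop
  apply Finset.sum_congr rfl
  intro j _
  beta_reduce
  by_cases hj : e < w j
  · rw [nd_pderiv_zero w e f hf j hj, MvPolynomial.coe_zero, mul_zero, nd_comp_zero w hw,
      nd_ev_zero, mul_zero]
  · have hp : (pderiv j f).IsWeightedHomogeneous w (e - w j) := hf.pderiv (by omega)
    rw [comp_mul w hw]
    have h1 : ∀ p ∈ antidiagonal k, comp w p.1 (D (MvPowerSeries.X j))
        * comp w p.2 ((pderiv j f : MvPolynomial (Fin n) ℂ) : MvPowerSeries (Fin n) ℂ)
        = if p.2 = e - w j then comp w p.1 (D (MvPowerSeries.X j)) * pderiv j f else 0 := by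
      intro p _
      rw [comp_coe w hw p.2 (e - w j) _ hp]
      split_ifs
      · rfl
      · rw [mul_zero]
    rw [Finset.sum_congr rfl h1]
    by_cases h2 : 0 ≤ ν + w j
    · rw [if_pos h2, Finset.sum_eq_single ((ν + w j).toNat, e - w j)]
      · rw [if_pos rfl, nd_ev_mul]
      · rintro ⟨p1, p2⟩ hp' hne
        rw [if_neg]
        intro h3
        apply hne
        rw [Finset.HasAntidiagonal.mem_antidiagonal] at hp'
        dsimp only at h3 hp'
        have h4 : p1 = (ν + w j).toNat := by omega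
        rw [h3, h4]
      · intro h3
        exfalso
        apply h3
        rw [Finset.HasAntidiagonal.mem_antidiagonal]
        dsimp only
        omega
    · rw [if_neg h2, zero_mul, Finset.sum_eq_zero]
      · exact nd_ev_zero c
      · rintro ⟨p1, p2⟩ hp'
        rw [if_neg]
        intro h3
        rw [Finset.HasAntidiagonal.mem_antidiagonal] at hp'
        dsimp only at h3 hp'
        omega

theorem not_deriv {n M : ℕ} (w : Fin n → ℕ) (hw : ∀ i, 0 < w i) (c : Fin M → Fin n → ℂ)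
    (hc : ∀ m, c m ≠ 0) (hirr : Irr w c)
    (I : Ideal (MvPowerSeries (Fin n) ℂ)) (hI : ∀ f, f ∈ I ↔ ∀ k, ev c (comp w k f) = 0) (ν : ℤ)
    (b : Fin n → K M)
    (hb : ∀ (e : ℕ) (f : MvPolynomial (Fin n) ℂ), Ie w c e f → Dop c b f ∈ Av w c (ν + e))
    (hno : ¬ ∃ (a : Fin n → K M) (β : K M), (∀ j, a j ∈ Av w c (ν + w j)) ∧
      ∀ j, b j = a j + (w j : ℂ) • (β * Xv c j)) :
    ∃ φ : (↥I) →ₗ[MvPowerSeries (Fin n) ℂ] (MvPowerSeries (Fin n) ℂ ⧸ I),
      ∀ D : Derivation ℂ (MvPowerSeries (Fin n) ℂ) (MvPowerSeries (Fin n) ℂ),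
        ∃ f : ↥I, φ f ≠ Ideal.Quotient.mk I (D (f : MvPowerSeries (Fin n) ℂ)) := by
  obtain ⟨φ, hφ⟩ := exists_phi w hw c I hI ν b hb
  refine ⟨φ, ?_⟩
  intro D
  by_contra hcon
  push Not at hcon
  apply hno
  obtain ⟨a, ha⟩ : ∃ a : Fin n → K M, a = fun j => if 0 ≤ ν + w j then
        ev c (comp w (ν + w j).toNat (D (MvPowerSeries.X j))) else 0 := ⟨_, rfl⟩
  have haA : ∀ j, a j ∈ Av w c (ν + w j) := by
    intro j
    rw [ha]
    dsimp only
    unfold Av
    by_cases h1 : 0 ≤ ν + w j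
    · rw [if_pos h1, if_pos h1, V_mem_iff]
      exact ⟨_, comp_hom w hw _ _, rfl⟩
    · rw [if_neg h1, if_neg h1]
      exact Submodule.zero_mem _
  have hzero : ∀ (e : ℕ) (f : MvPolynomial (Fin n) ℂ), Ie w c e f → Dop c (b - a) f = 0 := by
    intro e f hf
    have hsub : Dop c (b - a) f = Dop c b f - Dop c a f := by
      unfold Dop
      rw [← Finset.sum_sub_distrib]
      apply Finset.sum_congr rfl
      intro j _
      rw [Pi.sub_apply, sub_mul]
    rw [hsub, sub_eq_zero]
    have hfI : (f : MvPowerSeries (Fin n) ℂ) ∈ I := by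
      rw [hI]
      intro k
      rw [comp_coe w hw k e f hf.1]
      split_ifs
      · exact hf.2
      · exact nd_ev_zero c
    by_cases hνe : 0 ≤ ν + e
    · have hk : ν + e = ((ν + e).toNat : ℤ) := (Int.toNat_of_nonneg hνe).symm
      have h1 := hφ ⟨(f : MvPowerSeries (Fin n) ℂ), hfI⟩ (D (f : MvPowerSeries (Fin n) ℂ))
        (hcon _) e (ν + e).toNat hk
      have h2 := nd_main w hw c D e (ν + e).toNat ν hk f hf.1
      rw [h2] at h1
      change _ = Dop c b (comp w e (f : MvPowerSeries (Fin n) ℂ)) at h1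
      rw [comp_coe w hw e e f hf.1, if_pos rfl] at h1
      rw [← h1, ha]
    · have h1 := hb e f hf
      unfold Av at h1
      rw [if_neg hνe, Submodule.mem_bot] at h1
      rw [h1]
      unfold Dop
      symm
      apply Finset.sum_eq_zero
      intro j _
      by_cases hj : e < w j
      · rw [nd_pderiv_zero w e f hf.1 j hj, nd_ev_zero, mul_zero]
      · have h2 : a j = 0 := by
          rw [ha]
          dsimp only
          rw [if_neg]
          omega
        rw [h2, zero_mul]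
  obtain ⟨β, hβ⟩ := euler_mult w hw c hc hirr (b - a) hzero
  refine ⟨a, β, haA, ?_⟩
  intro j
  have := hβ j
  rw [Pi.sub_apply] at this
  rw [← this]
  abel

theorem main_irr {n M : ℕ} (w : Fin n → ℕ) (hw : ∀ i, 0 < w i) (c : Fin M → Fin n → ℂ)
    (hc : ∀ m, c m ≠ 0) (hM : 0 < M) (hirr : Irr w c) (hn : 2 ≤ n)
    (I : Ideal (MvPowerSeries (Fin n) ℂ)) (hI : ∀ f, f ∈ I ↔ ∀ k, ev c (comp w k f) = 0)
    (hlin : ∀ f ∈ I, ∀ j, MvPowerSeries.coeff (Finsupp.single j 1) f = 0) :
    ∃ φ : (↥I) →ₗ[MvPowerSeries (Fin n) ℂ] (MvPowerSeries (Fin n) ℂ ⧸ I),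
      ∀ D : Derivation ℂ (MvPowerSeries (Fin n) ℂ) (MvPowerSeries (Fin n) ℂ),
        ∃ f : ↥I, φ f ≠ Ideal.Quotient.mk I (D (f : MvPowerSeries (Fin n) ℂ)) := by
  have hmin : Hmin w c := by
    intro e f hf j
    have hmem : (f : MvPowerSeries (Fin n) ℂ) ∈ I := by
      rw [hI]
      intro k
      rw [comp_coe w hw k e f hf.1]
      split_ifs with h
      · exact hf.2
      · funext m
        simp [ev]
    have h1 := hlin _ hmem j
    rwa [MvPolynomial.coeff_coe] at h1
  obtain ⟨D⟩ := exists_data w hw c hc hM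
  obtain ⟨ν, hν⟩ := not_all_good hw D hmin hn
  unfold Good at hν
  push Not at hν
  obtain ⟨b, hb, hbd, hno⟩ := hν
  apply not_deriv w hw c hc hirr I hI ν b hbd
  rintro ⟨a, β, ha, hab⟩
  have hβ : β ∈ D.B ν := by
    apply D.hdiv
    intro j
    have hw0 : (w j : ℂ) ≠ 0 := by exact_mod_cast (hw j).ne'
    have h2 : β * Xv c j = (w j : ℂ)⁻¹ • (b j - a j) := by
      rw [hab j, add_sub_cancel_left, smul_smul, inv_mul_cancel₀ hw0, one_smul]
    rw [h2]
    exact (D.B _).smul_mem _ ((D.B _).sub_mem (hb j) (D.hAB _ (ha j)))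
  obtain ⟨j, hj⟩ := hno a β ha hβ
  exact hj (hab j)

theorem exists_irr {n M : ℕ} (w : Fin n → ℕ) (hw : ∀ i, 0 < w i) (c : Fin M → Fin n → ℂ)
    (hc : ∀ m, c m ≠ 0) (hM : 0 < M) :
    ∃ (M' : ℕ) (c' : Fin M' → Fin n → ℂ), 0 < M' ∧ (∀ m, c' m ≠ 0) ∧ Irr w c' ∧
      ∀ f : MvPowerSeries (Fin n) ℂ,
        (∀ k, ev c (comp w k f) = 0) ↔ (∀ k, ev c' (comp w k f) = 0) := by
  classical
  let Fam : Set (Finset (Fin M)) := {T | T.Nonempty ∧ ∀ f : MvPowerSeries (Fin n) ℂ,
    (∀ k, ∀ m ∈ T, eval (c m) (comp w k f) = 0) → ∀ k m, eval (c m) (comp w k f) = 0}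
  have hne : Fam.Nonempty := ⟨Finset.univ, ⟨⟨0, hM⟩, Finset.mem_univ _⟩,
    fun f h k m => h k m (Finset.mem_univ _)⟩
  obtain ⟨T, hT, hmin⟩ := Set.exists_min_image Fam Finset.card (Set.toFinite _) hne
  obtain ⟨hTne, hTf⟩ := hT
  let e := T.equivFin
  refine ⟨T.card, fun i => c (e.symm i).1, Finset.card_pos.2 hTne, fun m => hc _, ?_, ?_⟩
  · intro i
    set m0 : Fin M := (e.symm i).1 with hm0
    have hm0T : m0 ∈ T := (e.symm i).2
    have hother : ∀ i', i' ≠ i → (e.symm i').1 ≠ m0 := by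
      intro i' hi' h
      apply hi'
      have : e.symm i' = e.symm i := Subtype.ext h
      exact e.symm.injective this
    by_cases hE : (T.erase m0).Nonempty
    · have hcard : (T.erase m0).card < T.card := Finset.card_erase_lt_of_mem hm0T
      have hnot : T.erase m0 ∉ Fam := fun h => absurd (hmin _ h) (not_le.2 hcard)
      have hex : ∃ f : MvPowerSeries (Fin n) ℂ,
          (∀ k, ∀ m ∈ T.erase m0, eval (c m) (comp w k f) = 0) ∧
          ¬ ∀ k m, eval (c m) (comp w k f) = 0 := by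
        by_contra hcon
        push Not at hcon
        exact hnot ⟨hE, fun f hf => hcon f hf⟩
      obtain ⟨f, hf1, hf2⟩ := hex
      have hk : ∃ k, eval (c m0) (comp w k f) ≠ 0 := by
        by_contra hcon
        push Not at hcon
        apply hf2
        apply hTf f
        intro k m hm
        by_cases h : m = m0
        · rw [h]; exact hcon k
        · exact hf1 k m (Finset.mem_erase.2 ⟨h, hm⟩)
      obtain ⟨k, hk⟩ := hk
      refine ⟨k, comp w k f, comp_hom w hw k f, hk, fun i' hi' => ?_⟩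
      exact hf1 k _ (Finset.mem_erase.2 ⟨hother i' hi', (e.symm i').2⟩)
    · refine ⟨0, 1, isWeightedHomogeneous_one ℂ w, by simp, fun i' hi' => ?_⟩
      exact absurd ⟨(e.symm i').1, Finset.mem_erase.2 ⟨hother i' hi', (e.symm i').2⟩⟩ hE
  · intro f
    constructor
    · intro h k
      funext i
      exact congrFun (h k) (e.symm i).1
    · intro h k
      funext m
      refine hTf f (fun k m hm => ?_) k m
      have := congrFun (h k) (e ⟨m, hm⟩)
      simpa [ev] using this

theorem main {n M : ℕ} (w : Fin n → ℕ) (hw : ∀ i, 0 < w i) (c : Fin M → Fin n → ℂ)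
    (hc : ∀ m, c m ≠ 0) (hn : 2 ≤ n)
    (I : Ideal (MvPowerSeries (Fin n) ℂ)) (hI : ∀ f, f ∈ I ↔ ∀ k, ev c (comp w k f) = 0)
    (hlin : ∀ f ∈ I, ∀ j, MvPowerSeries.coeff (Finsupp.single j 1) f = 0) :
    ∃ φ : (↥I) →ₗ[MvPowerSeries (Fin n) ℂ] (MvPowerSeries (Fin n) ℂ ⧸ I),
      ∀ D : Derivation ℂ (MvPowerSeries (Fin n) ℂ) (MvPowerSeries (Fin n) ℂ),
        ∃ f : ↥I, φ f ≠ Ideal.Quotient.mk I (D (f : MvPowerSeries (Fin n) ℂ)) := by
  rcases Nat.eq_zero_or_pos M with hM | hM
  · exfalso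
    subst hM
    have hX : (MvPowerSeries.X (⟨0, by omega⟩ : Fin n) : MvPowerSeries (Fin n) ℂ) ∈ I := by
      rw [hI]
      intro k
      funext m
      exact m.elim0
    have h1 := hlin _ hX ⟨0, by omega⟩
    rw [MvPowerSeries.coeff_X, if_pos rfl] at h1
    exact one_ne_zero h1
  · obtain ⟨M', c', hM', hc', hirr, heq⟩ := exists_irr w hw c hc hM
    exact main_irr w hw c' hc' hM' hirr hn I (fun f => (hI f).trans (heq f)) hlin

end QH
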