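import Mathlib
import Pool.Agent.Helper379.SFC2

/-! Generic stable points on a curve over an algebraic extension of a Laurent series field
(7.6 of blueprint v2). -/

set_option autoImplicit false

open Polynomial Topology

namespace SF379

section IFT

variable {L : Type*} [NontriviallyNormedField L]

theorem eval_two_eq (G : Polynomial (Polynomial L)) (x y : L) :
    (G.map (evalRingHom x)).eval y =
      ∑ j ∈ Finset.range (G.natDegree + 1), (G.coeff j).eval x * y ^ j := by
  rw [eval_map, eval₂_eq_sum_range]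
  rfl

theorem eval_two_deriv (G : Polynomial (Polynomial L)) (x y : L) :
    (G.map (evalRingHom x)).derivative.eval y =
      ∑ j ∈ Finset.range (G.natDegree + 1), (G.coeff j).eval x * (j * y ^ (j - 1)) := by
  have h : (G.map (evalRingHom x)) =
      ∑ j ∈ Finset.range (G.natDegree + 1), C ((G.coeff j).eval x) * X ^ j := by
    conv_lhs => rw [G.as_sum_range_C_mul_X_pow]
    rw [Polynomial.map_sum]
    apply Finset.sum_congr rfl
    intro j _
    simp
  rw [h, derivative_sum, eval_finsetSum]
  apply Finset.sum_congr rfl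
  intro j _
  simp [derivative_X_pow]

theorem exists_root_near [CompleteSpace L] (G : Polynomial (Polynomial L)) (c c' : L)
    (h0 : (G.map (evalRingHom c)).eval c' = 0)
    (h1 : (G.map (evalRingHom c)).derivative.eval c' ≠ 0) :
    ∃ δ > 0, ∀ x, ‖x - c‖ < δ → ∃ y, (G.map (evalRingHom x)).eval y = 0 := by
  classical
  let g : L × L → L := fun p =>
    ∑ j ∈ Finset.range (G.natDegree + 1), (G.coeff j).eval p.1 * p.2 ^ j
  let A : L × L →L[L] L := ∑ j ∈ Finset.range (G.natDegree + 1),
    (((G.coeff j).eval c) • ((j * c' ^ (j - 1)) • ContinuousLinearMap.snd L L L) +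
      (c' ^ j) • (((G.coeff j).derivative.eval c) • ContinuousLinearMap.fst L L L))
  have hg : HasStrictFDerivAt g A (c, c') := by
    apply HasStrictFDerivAt.fun_sum
    intro j _
    have e1 : HasStrictFDerivAt (fun p : L × L => (G.coeff j).eval p.1)
        (((G.coeff j).derivative.eval c) • ContinuousLinearMap.fst L L L) (c, c') := by
      have := HasStrictDerivAt.comp_hasStrictFDerivAt (h₂ := fun x => (G.coeff j).eval x)
        (f := fun p : L × L => p.1) (c, c')
        (by simpa using (G.coeff j).hasStrictDerivAt c)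
        (ContinuousLinearMap.fst L L L).hasStrictFDerivAt
      exact this
    have e2 : HasStrictFDerivAt (fun p : L × L => p.2 ^ j)
        ((j * c' ^ (j - 1)) • ContinuousLinearMap.snd L L L) (c, c') := by
      have := HasStrictDerivAt.comp_hasStrictFDerivAt (h₂ := fun x : L => x ^ j)
        (f := fun p : L × L => p.2) (c, c')
        (by simpa using (hasStrictDerivAt_pow j c'))
        (ContinuousLinearMap.snd L L L).hasStrictFDerivAt
      exact this
    exact e1.mul e2
  set D := (G.map (evalRingHom c)).derivative.eval c' with hD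
  have hA : ∀ u v : L, A (u, v) = A (u, 0) + D * v := by
    intro u v
    have : A (u, v) = A (u, 0) + A (0, v) := by rw [← map_add]; simp
    rw [this]
    congr 1
    rw [hD, eval_two_deriv]
    simp only [A, sum_apply, Finset.sum_mul]
    apply Finset.sum_congr rfl
    intro j _
    simp
    ring
  let F' : (L × L) ≃L[L] (L × L) := ContinuousLinearEquiv.equivOfInverse
    ((ContinuousLinearMap.fst L L L).prod A)
    ((ContinuousLinearMap.fst L L L).prod
      (D⁻¹ • (ContinuousLinearMap.snd L L L - A.comp ((ContinuousLinearMap.fst L L L).prod 0))))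
    (by
      rintro ⟨u, v⟩
      simp [hA u v]
      field_simp)
    (by
      rintro ⟨u, w⟩
      simp only [ContinuousLinearMap.prod_apply, ContinuousLinearMap.coe_fst', Prod.mk.injEq,
        true_and]
      rw [hA]
      simp
      field_simp
      ring)
  have hF : HasStrictFDerivAt (fun p : L × L => (p.1, g p)) (F' : (L × L) →L[L] (L × L)) (c, c') :=
    (ContinuousLinearMap.fst L L L).hasStrictFDerivAt.prodMk hg
  have hmap := hF.map_nhds_eq_of_equiv
  have hg0 : g (c, c') = 0 := by
    have := eval_two_eq G c c'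
    rw [h0] at this
    exact this.symm
  simp only [hg0] at hmap
  have h2 : Set.range (fun p : L × L => (p.1, g p)) ∈ 𝓝 ((c, (0 : L))) := by
    rw [← hmap]
    exact Filter.mem_map.2 (Filter.Eventually.of_forall (fun p => Set.mem_range_self p))
  obtain ⟨δ, hδ, hsub⟩ := Metric.mem_nhds_iff.1 h2
  refine ⟨δ, hδ, fun x hx => ?_⟩
  have h3 : (x, (0 : L)) ∈ Metric.ball (c, (0 : L)) δ := by
    rw [Metric.mem_ball, Prod.dist_eq]
    simpa [dist_eq_norm, hδ] using hx
  obtain ⟨⟨x', y⟩, hp⟩ := hsub h3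
  simp only [Prod.mk.injEq] at hp
  obtain ⟨rfl, hp⟩ := hp
  exact ⟨y, by rw [eval_two_eq]; exact hp⟩

end IFT

section Finite

/-- In a finite extension `L` of a complete field `R`: a simple point persists under small
perturbations of the first coordinate by `R`-combinations of fixed elements. -/
theorem near_finite {R L : Type*} [NontriviallyNormedField R] [CompleteSpace R]
    [IsUltrametricDist R] [Field L] [Algebra R L] [FiniteDimensional R L]
    (G : Polynomial (Polynomial L)) (c c' : L)
    (h0 : (G.map (evalRingHom c)).eval c' = 0)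
    (h1 : (G.map (evalRingHom c)).derivative.eval c' ≠ 0) {ι : Type*} [Fintype ι] (θ : ι → L) :
    ∃ δ > (0 : ℝ), ∀ ε : ι → R, (∀ i, ‖ε i‖ < δ) →
      ∃ y, (G.map (evalRingHom (c + ∑ i, algebraMap R L (ε i) * θ i))).eval y = 0 := by
  let : NontriviallyNormedField L := spectralNorm.nontriviallyNormedField R L
  have : CompleteSpace L := spectralNorm.completeSpace R L
  have hnorm : ∀ r : R, ‖algebraMap R L r‖ = ‖r‖ := fun r => spectralNorm_extends r
  obtain ⟨δ0, hδ0, h⟩ := exists_root_near G c c' h0 h1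
  let B : ℝ := 1 + ∑ i, ‖θ i‖
  have hB : 0 < B := by
    have : 0 ≤ ∑ i, ‖θ i‖ := Finset.sum_nonneg (fun i _ => norm_nonneg _)
    simp only [B]; linarith
  refine ⟨δ0 / B, div_pos hδ0 hB, fun ε hε => h _ ?_⟩
  rw [add_sub_cancel_left]
  refine lt_of_le_of_lt (norm_sum_le _ _) ?_
  have h2 : ∑ i, ‖algebraMap R L (ε i) * θ i‖ ≤ δ0 / B * ∑ i, ‖θ i‖ := by
    rw [Finset.mul_sum]
    apply Finset.sum_le_sum
    intro i _
    rw [norm_mul, hnorm]
    exact mul_le_mul_of_nonneg_right (hε i).le (norm_nonneg _)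
  refine lt_of_le_of_lt h2 ?_
  have h3 : δ0 / B * ∑ i, ‖θ i‖ < δ0 / B * B :=
    mul_lt_mul_of_pos_left (by simp only [B]; linarith) (div_pos hδ0 hB)
  rwa [div_mul_cancel₀ _ hB.ne'] at h3

theorem exists_pt {R Ω : Type*} [NontriviallyNormedField R] [CompleteSpace R]
    [IsUltrametricDist R] [Field Ω] [Algebra R Ω] [Algebra.IsAlgebraic R Ω]
    (E' : Subfield Ω) (hE' : ∀ r, algebraMap R Ω r ∈ E') (G : Polynomial (Polynomial Ω))
    (hG : ∀ i j, (G.coeff i).coeff j ∈ E') (c c' : Ω) (hc : c ∈ E') (hc' : c' ∈ E')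
    (h0 : (G.map (evalRingHom c)).eval c' = 0)
    (h1 : (G.map (evalRingHom c)).derivative.eval c' ≠ 0)
    {ι : Type*} [Fintype ι] (θ : ι → Ω) (hθ : ∀ i, θ i ∈ E') :
    ∃ δ > (0 : ℝ), ∀ ε : ι → R, (∀ i, ‖ε i‖ < δ) →
      ∃ η ∈ E', (G.map (evalRingHom (c + ∑ i, algebraMap R Ω (ε i) * θ i))).eval η = 0 := by
  classical
  let s : Set Ω := {c, c'} ∪ (Set.range θ ∪
    ((G.support.biUnion fun i => (G.coeff i).support.image (fun j => (G.coeff i).coeff j) :
      Finset Ω) : Set Ω))
  have hsfin : s.Finite := by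
    refine Set.Finite.union (by simp) (Set.Finite.union (Set.finite_range _) (Finset.finite_toSet _))
  let L : IntermediateField R Ω := IntermediateField.adjoin R s
  have : Finite s := hsfin
  have : FiniteDimensional R L :=
    IntermediateField.finiteDimensional_adjoin
      (fun x _ => (Algebra.IsAlgebraic.isAlgebraic (R := R) x).isIntegral)
  have hLE : ∀ x ∈ L, x ∈ E' := by
    have hle : L ≤ (E'.toIntermediateField hE' : IntermediateField R Ω) := by
      refine IntermediateField.adjoin_le_iff.2 ?_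
      rintro x (hx | ⟨i, rfl⟩ | hx)
      · rcases hx with rfl | hx
        · exact hc
        · rw [Set.mem_singleton_iff] at hx; subst hx; exact hc'
      · exact hθ i
      · simp only [Finset.coe_biUnion, Finset.coe_image, Set.mem_iUnion, Set.mem_image] at hx
        obtain ⟨i, _, j, _, rfl⟩ := hx
        exact hG i j
    exact fun x hx => hle hx
  have hsL : s ⊆ L := IntermediateField.subset_adjoin R s
  have hcL : c ∈ L := hsL (Or.inl (Or.inl rfl))
  have hcL' : c' ∈ L := hsL (Or.inl (Or.inr rfl))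
  have hθL : ∀ i, θ i ∈ L := fun i => hsL (Or.inr (Or.inl ⟨i, rfl⟩))
  have hGL : ∀ i j, (G.coeff i).coeff j ∈ L := by
    intro i j
    by_cases hi : G.coeff i = 0
    · rw [hi]; simp
    by_cases hj : (G.coeff i).coeff j = 0
    · rw [hj]; exact zero_mem _
    apply hsL
    right; right
    simp only [Finset.coe_biUnion, Finset.coe_image, Set.mem_iUnion, Set.mem_image]
    exact ⟨i, by simpa using hi, j, by simpa using hj, rfl⟩
  obtain ⟨Gl, hGl'⟩ : ∃ Gl : Polynomial (Polynomial L),
      Gl.map (mapRingHom (algebraMap L Ω)) = G := by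
    have : G ∈ lifts (mapRingHom (algebraMap L Ω)) := by
      rw [lifts_iff_coeff_lifts]
      intro n
      have h2 : G.coeff n ∈ lifts (algebraMap L Ω) := by
        rw [lifts_iff_coeff_lifts]
        intro m
        exact ⟨⟨_, hGL n m⟩, rfl⟩
      obtain ⟨q, hq⟩ := (mem_lifts _).1 h2
      exact ⟨q, hq⟩
    exact (mem_lifts _).1 this
  have hcomp : ∀ x : L, (evalRingHom (x : Ω)).comp (mapRingHom (algebraMap L Ω)) =
      (algebraMap L Ω).comp (evalRingHom x) := by
    intro x
    apply Polynomial.ringHom_ext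
    · intro a; simp
    · simp
  have hmap : ∀ x : L, G.map (evalRingHom (x : Ω)) = (Gl.map (evalRingHom x)).map (algebraMap L Ω) := by
    intro x
    rw [← hGl', Polynomial.map_map, Polynomial.map_map, hcomp]
  have heval : ∀ x y : L, (G.map (evalRingHom (x : Ω))).eval (y : Ω) =
      algebraMap L Ω ((Gl.map (evalRingHom x)).eval y) := by
    intro x y
    rw [hmap]
    exact eval_map_apply (algebraMap L Ω) y
  have hderiv : ∀ x y : L, (G.map (evalRingHom (x : Ω))).derivative.eval (y : Ω) =
      algebraMap L Ω ((Gl.map (evalRingHom x)).derivative.eval y) := by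
    intro x y
    rw [hmap, derivative_map]
    exact eval_map_apply (algebraMap L Ω) y
  obtain ⟨δ, hδ, h⟩ := near_finite (R := R) Gl (⟨c, hcL⟩ : L) ⟨c', hcL'⟩
    (by
      have := heval ⟨c, hcL⟩ ⟨c', hcL'⟩
      rw [h0] at this
      exact (map_eq_zero_iff _ (algebraMap L Ω).injective).1 this.symm)
    (by
      intro h2
      have := hderiv ⟨c, hcL⟩ ⟨c', hcL'⟩
      rw [h2, map_zero] at this
      exact h1 this)
    (fun i => (⟨θ i, hθL i⟩ : L))
  refine ⟨δ, hδ, fun ε hε => ?_⟩
  obtain ⟨y, hy⟩ := h ε hε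
  refine ⟨y, hLE _ y.2, ?_⟩
  have h3 := heval ((⟨c, hcL⟩ : L) + ∑ i, algebraMap R L (ε i) * (⟨θ i, hθL i⟩ : L)) y
  rw [hy, map_zero] at h3
  rw [← h3]
  congr 4
  simp

end Finite

theorem eval_eval_map {A B : Type*} [CommRing A] [CommRing B] (f : A →+* B)
    (H : Polynomial (Polynomial A)) (x y : A) :
    ((H.map (mapRingHom f)).map (evalRingHom (f x))).eval (f y) =
      f ((H.map (evalRingHom x)).eval y) := by
  have hcomp : (evalRingHom (f x)).comp (mapRingHom f) = f.comp (evalRingHom x) := by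
    apply Polynomial.ringHom_ext
    · intro a; simp
    · simp
  rw [Polynomial.map_map, hcomp, ← Polynomial.map_map]
  exact eval_map_apply f y

theorem exists_lift₂ {A B : Type*} [CommRing A] [CommRing B] (f : A →+* B)
    (G : Polynomial (Polynomial B)) (h : ∀ i j, (G.coeff i).coeff j ∈ f.range) :
    ∃ H : Polynomial (Polynomial A), H.map (mapRingHom f) = G := by
  have : G ∈ lifts (mapRingHom f) := by
    rw [lifts_iff_coeff_lifts]
    intro n
    have h2 : G.coeff n ∈ lifts f := by
      rw [lifts_iff_coeff_lifts]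
      intro m
      exact h n m
    obtain ⟨q, hq⟩ := (mem_lifts _).1 h2
    exact ⟨q, hq⟩
  exact (mem_lifts _).1 this

section Gen

variable {Ω : Type} [Field Ω] [IsAlgClosed Ω] [CharZero Ω] [Uncountable Ω]

theorem gen_conj (E : Subfield Ω) (K : IntermediateField E Ω) [FiniteDimensional E K]
    (F0 : Subfield Ω) (hF0 : F0 ≤ E) (hF0alg : Algebra.IsAlgebraic F0 Ω)
    (Λ : Subfield Ω) [Countable Λ] (c : K) (y : E) (hy : y ≠ 0) :
    ∃ v : Fin (Module.finrank E K) → E, (∀ j, (v j : Ω) ∈ F0) ∧
      ∀ (n : ℕ), AlgebraicIndependent Λ (fun φ : K →ₐ[E] Ω =>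
        φ (c + ∑ j, (y ^ n * v j) • Module.finBasis E K j)) := by
  classical
  let Θ := Module.finBasis E K
  have hnd := traceForm_nondegenerate E K
  let D := (Algebra.traceForm E K).dualBasis hnd Θ
  let Fi : Fintype (K →ₐ[E] Ω) := inferInstance
  let s : Set Ω := (Λ : Set Ω) ∪ (Set.range (fun φ : K →ₐ[E] Ω => φ c) ∪
    (Set.range (fun p : (K →ₐ[E] Ω) × Fin (Module.finrank E K) => p.1 (D p.2)) ∪ {(y : Ω)}))
  have hs : s.Countable := by
    refine Set.Countable.union (Set.to_countable _) (Set.Countable.union ?_ (Set.Countable.union ?_ ?_))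
    · exact (Set.finite_range _).countable
    · exact (Set.finite_range _).countable
    · exact Set.countable_singleton _
  let K' := Subfield.closure s
  have : Countable K' := countable_subfieldClosure s hs
  obtain ⟨v, hv0, hv⟩ := exists_generic K' F0 hF0alg (Fin (Module.finrank E K))
  refine ⟨fun j => ⟨v j, hF0 (hv0 j)⟩, hv0, fun n => ?_⟩
  have hΛ : Λ ≤ K' := fun x hx => Subfield.subset_closure (Or.inl hx)
  have hcK : ∀ φ : K →ₐ[E] Ω, φ c ∈ K' := fun φ =>
    Subfield.subset_closure (Or.inr (Or.inl ⟨φ, rfl⟩))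
  have hDK : ∀ (φ : K →ₐ[E] Ω) j, φ (D j) ∈ K' := fun φ j =>
    Subfield.subset_closure (Or.inr (Or.inr (Or.inl ⟨(φ, j), rfl⟩)))
  have hyK : (y : Ω) ∈ K' := Subfield.subset_closure (Or.inr (Or.inr (Or.inr rfl)))
  set ξ : K := c + ∑ j, (y ^ n * (⟨v j, hF0 (hv0 j)⟩ : E)) • Θ j with hξ
  have key : AlgebraicIndependent K' (fun φ : K →ₐ[E] Ω => φ ξ) := by
    refine algInd_of_card_le (fun φ : K →ₐ[E] Ω => φ ξ) v hv ?_ ?_
    · rw [Nat.card_eq_fintype_card, Nat.card_eq_fintype_card, Fintype.card_fin]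
      exact (AlgHom.card E K Ω).le
    · intro i
      have h1 : algebraMap E Ω (Algebra.trace E K ((ξ - c) * D i)) =
          (y : Ω) ^ n * v i := by
        have h2 : (ξ - c) * D i =
            ∑ j, (y ^ n * (⟨v j, hF0 (hv0 j)⟩ : E)) • (D i * Θ j) := by
          rw [hξ, add_sub_cancel_left, Finset.sum_mul]
          apply Finset.sum_congr rfl
          intro j _
          rw [smul_mul_assoc, mul_comm (Θ j)]
        rw [h2, map_sum]
        have h3 : ∀ j, Algebra.trace E K (D i * Θ j) = if j = i then 1 else 0 := fun j =>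
          LinearMap.BilinForm.apply_dualBasis_left hnd Θ i j
        simp only [map_smul, h3]
        simp
        rfl
      have h4 := trace_eq_sum_embeddings (K := E) (L := K) Ω (x := (ξ - c) * D i)
      rw [h1] at h4
      have h5 : v i = ((y : Ω) ^ n)⁻¹ * ∑ σ : K →ₐ[E] Ω, (σ ξ - σ c) * σ (D i) := by
        have hy' : (y : Ω) ≠ 0 := by simpa using hy
        rw [eq_inv_mul_iff_mul_eq₀ (pow_ne_zero _ hy'), h4]
        apply Finset.sum_congr rfl
        intro σ _
        rw [map_mul, map_sub]
      rw [h5]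
      have hmem : ∀ x ∈ K', x ∈ Algebra.adjoin K' (Set.range fun φ : K →ₐ[E] Ω => φ ξ) :=
        fun x hx => Subalgebra.algebraMap_mem _ (⟨x, hx⟩ : K')
      refine mul_mem (hmem _ (inv_mem (pow_mem hyK n))) (sum_mem fun σ _ => ?_)
      exact mul_mem (sub_mem (Algebra.subset_adjoin ⟨σ, rfl⟩) (hmem _ (hcK σ))) (hmem _ (hDK σ i))
  exact AlgebraicIndependent.of_ringHom_of_comp_eq (Subfield.inclusion hΛ) (RingHom.id Ω) key
    (Subfield.inclusion hΛ).injective rfl

theorem stable_points_normed {R : Type} [NontriviallyNormedField R] [CompleteSpace R]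
    [IsUltrametricDist R] [Algebra R Ω] [Algebra.IsAlgebraic R Ω]
    (E : Subfield Ω) (hE : ∀ r, algebraMap R Ω r ∈ E) (G : Polynomial (Polynomial Ω))
    (hG : ∀ i j, (G.coeff i).coeff j ∈ E) (c c' : Ω)
    (h0 : (G.map (evalRingHom c)).eval c' = 0)
    (h1 : (G.map (evalRingHom c)).derivative.eval c' ≠ 0)
    (Λ : Subfield Ω) [Countable Λ] :
    ∃ S : Finset (Ω × Ω),
      S.card = Module.finrank E (IntermediateField.adjoin E ({c, c'} : Set Ω)) ∧
      (∀ σ : Ω ≃+* Ω, (∀ e ∈ E, σ e = e) → ∀ s ∈ S, (σ s.1, σ s.2) ∈ S) ∧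
      (∀ s ∈ S, (G.map (evalRingHom s.1)).eval s.2 = 0) ∧
      AlgebraicIndependent Λ (fun s : S => s.1.1) := by
  classical
  -- `E` is large
  let F0 : Subfield Ω := (algebraMap R Ω).fieldRange
  have hF0 : F0 ≤ E := by
    rintro _ ⟨r, rfl⟩
    exact hE r
  have hF0alg : Algebra.IsAlgebraic F0 Ω := by
    constructor
    intro x
    obtain ⟨p, hp0, hp⟩ := Algebra.IsAlgebraic.isAlgebraic (R := R) x
    refine ⟨p.map (algebraMap R Ω).rangeRestrictField,
      (Polynomial.map_ne_zero_iff (RingHom.injective _)).2 hp0, ?_⟩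
    rw [Polynomial.aeval_def, Polynomial.eval₂_map]
    exact hp
  have hEalg : Algebra.IsAlgebraic E Ω := by
    constructor
    intro x
    obtain ⟨p, hp0, hp⟩ := hF0alg.isAlgebraic x
    refine ⟨p.map (Subfield.inclusion hF0),
      (Polynomial.map_ne_zero_iff (RingHom.injective _)).2 hp0, ?_⟩
    rw [Polynomial.aeval_def, Polynomial.eval₂_map]
    exact hp
  let K : IntermediateField E Ω := IntermediateField.adjoin E ({c, c'} : Set Ω)
  have hKfin : FiniteDimensional E K := by
    have : Finite ({c, c'} : Set Ω) := (Set.toFinite _)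
    exact IntermediateField.finiteDimensional_adjoin
      (fun x _ => (Algebra.IsAlgebraic.isAlgebraic (R := E) x).isIntegral)
  have hcK : c ∈ K := IntermediateField.subset_adjoin E _ (Or.inl rfl)
  have hcK' : c' ∈ K := IntermediateField.subset_adjoin E _ (Or.inr rfl)
  obtain ⟨y0, hy0, hy1⟩ := NormedField.exists_norm_lt_one R
  have hy00 : y0 ≠ 0 := norm_pos_iff.1 hy0
  obtain ⟨v, hv0, hv⟩ := gen_conj E K F0 hF0 hF0alg Λ ⟨c, hcK⟩
    (⟨algebraMap R Ω y0, hE y0⟩ : E)
    (by
      intro h
      have := congrArg Subtype.val h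
      exact hy00 ((map_eq_zero_iff _ (algebraMap R Ω).injective).1 this))
  choose w hw using hv0
  -- the point
  have hEK : ∀ e ∈ E, e ∈ K.toSubfield := fun e he => K.algebraMap_mem (⟨e, he⟩ : E)
  obtain ⟨δ, hδ, hpt⟩ := exists_pt (R := R) K.toSubfield (fun r => hEK _ (hE r)) G
    (fun i j => hEK _ (hG i j)) c c' hcK hcK' h0 h1
    (fun j => ((Module.finBasis E K j : K) : Ω)) (fun j => (Module.finBasis E K j).2)
  obtain ⟨n, hn⟩ : ∃ n : ℕ, ∀ j, ‖y0 ^ n * w j‖ < δ := by
    have h2 : ∀ j, ∀ᶠ n : ℕ in Filter.atTop, ‖y0 ^ n * w j‖ < δ := by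
      intro j
      have h3 : Filter.Tendsto (fun n : ℕ => ‖y0 ^ n * w j‖) Filter.atTop (𝓝 0) := by
        simp only [norm_mul, norm_pow]
        simpa using (tendsto_pow_atTop_nhds_zero_of_lt_one (norm_nonneg _) hy1).mul_const ‖w j‖
      exact h3.eventually (gt_mem_nhds hδ)
    exact (Filter.eventually_all.2 h2).exists
  obtain ⟨η, hηK, hη⟩ := hpt (fun j => y0 ^ n * w j) hn
  set ξ : K := (⟨c, hcK⟩ : K) + ∑ j, ((⟨algebraMap R Ω y0, hE y0⟩ : E) ^ n * v j) •
    Module.finBasis E K j with hξ
  have hξval : (ξ : Ω) = c + ∑ i, algebraMap R Ω (y0 ^ n * w i) *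
      ((Module.finBasis E K i : K) : Ω) := by
    rw [hξ]
    simp only [IntermediateField.coe_add, IntermediateField.coe_sum]
    congr 1
    apply Finset.sum_congr rfl
    intro j _
    rw [map_mul, hw j, map_pow]
    rfl
  rw [← hξval] at hη
  let η' : K := ⟨η, hηK⟩
  have hind := hv n
  rw [← hξ] at hind
  -- conjugates
  let f : (K →ₐ[E] Ω) → Ω × Ω := fun φ => (φ ξ, φ η')
  have hfinj : Function.Injective f := by
    intro φ ψ h
    exact hind.injective (congrArg Prod.fst h)
  refine ⟨Finset.univ.image f, ?_, ?_, ?_, ?_⟩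
  · rw [Finset.card_image_of_injective _ hfinj, Finset.card_univ]
    exact AlgHom.card E K Ω
  · intro σ hσ s hs
    obtain ⟨φ, _, rfl⟩ := Finset.mem_image.1 hs
    let σ' : Ω →ₐ[E] Ω := { (σ : Ω →+* Ω) with commutes' := fun e => hσ _ e.2 }
    exact Finset.mem_image.2 ⟨σ'.comp φ, Finset.mem_univ _, rfl⟩
  · intro s hs
    obtain ⟨φ, _, rfl⟩ := Finset.mem_image.1 hs
    obtain ⟨GE, hGE⟩ := exists_lift₂ E.subtype G (fun i j => ⟨⟨_, hG i j⟩, rfl⟩)
    let GK : Polynomial (Polynomial K) := GE.map (mapRingHom (algebraMap E K))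
    have e1 : GK.map (mapRingHom (algebraMap K Ω)) = G := by
      rw [← hGE, Polynomial.map_map]
      congr 1
      rw [mapRingHom_comp]
      rfl
    have e2 : GK.map (mapRingHom (φ : K →+* Ω)) = G := by
      rw [← hGE, Polynomial.map_map]
      congr 1
      rw [mapRingHom_comp]
      congr 1
      exact φ.comp_algebraMap
    have e3 := eval_eval_map (algebraMap K Ω) GK ξ η'
    rw [e1] at e3
    have e4 : (GK.map (evalRingHom ξ)).eval η' = 0 := by
      refine (map_eq_zero_iff _ (algebraMap K Ω).injective).1 (e3.symm.trans hη)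
    have e5 := eval_eval_map (φ : K →+* Ω) GK ξ η'
    rw [e2, e4, map_zero] at e5
    exact e5
  · let g : (Finset.univ.image f) → (K →ₐ[E] Ω) := fun s => (Finset.mem_image.1 s.2).choose
    have hg : ∀ s, f (g s) = s.1 := fun s => (Finset.mem_image.1 s.2).choose_spec.2
    have hginj : Function.Injective g := by
      intro s t hst
      apply Subtype.ext
      rw [← hg s, ← hg t, hst]
    have h5 := hind.comp g hginj
    have h6 : ((fun φ : K →ₐ[E] Ω => φ ξ) ∘ g) = fun s : (Finset.univ.image f) => s.1.1 := by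
      funext s
      rw [← hg s]
      rfl
    rw [h6] at h5
    exact h5

end Gen

end SF379
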