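import Mathlib
import Pool.Agent.Helper379.SFPts

/-! Generic stable points on a curve over an algebraic extension of a Laurent series field
(7.6 of blueprint v2): Laurent series version and `t`-fold version. -/

set_option autoImplicit false

open Polynomial Topology
open scoped NNReal

namespace SF379

@[instance_reducible]
noncomputable def laurentRankOne (k : Type) [Field k] :
    (Valued.v : Valuation (LaurentSeries k) (WithZero (Multiplicative ℤ))).RankOne where
  hom' := (WithZeroMulInt.toNNReal (e := 2) (by norm_num)).comp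
    (MonoidWithZeroHom.ValueGroup₀.embedding)
  strictMono' := (WithZeroMulInt.toNNReal_strictMono (e := 2) (by norm_num)).comp
    (MonoidWithZeroHom.ValueGroup₀.embedding_strictMono)
  exists_val_nontrivial := by
    refine ⟨HahnSeries.single 1 1, ?_, ?_⟩
    · simp
    · intro h
      have h1 := LaurentSeries.valuation_single_zpow k 1
      rw [h, ← WithZero.exp_zero] at h1
      have := WithZero.exp_injective h1
      omega

theorem uncountable_laurentSeries (k : Type) [Field k] : Uncountable (LaurentSeries k) := by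
  let f : Set ℕ → LaurentSeries k := fun s =>
    HahnSeries.ofPowerSeries ℤ k (PowerSeries.mk (fun n => by classical exact if n ∈ s then 1 else 0))
  have hf : Function.Injective f := by
    intro s t hst
    have h1 := HahnSeries.ofPowerSeries_injective hst
    ext n
    have h2 := congrArg (PowerSeries.coeff n) h1
    rw [PowerSeries.coeff_mk, PowerSeries.coeff_mk] at h2
    by_cases h3 : n ∈ s <;> by_cases h4 : n ∈ t <;> simp_all
  have : Uncountable (Set ℕ) := by
    rw [← Cardinal.aleph0_lt_mk_iff, Cardinal.mk_set]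
    simpa using Cardinal.cantor (Cardinal.mk ℕ)
  exact hf.uncountable

section

variable {Ω : Type} [Field Ω]

theorem union_indep (Λ : Subfield Ω) (S : Finset (Ω × Ω))
    (hS : AlgebraicIndependent Λ (fun s : S => s.1.1)) (Λ' : Subfield Ω) (hΛ : Λ ≤ Λ')
    (hSΛ : ∀ s ∈ S, s.1 ∈ Λ') (T : Finset (Ω × Ω))
    (hT : AlgebraicIndependent Λ' (fun s : T => s.1.1)) [DecidableEq (Ω × Ω)] :
    Disjoint S T ∧ AlgebraicIndependent Λ (fun s : (S ∪ T : Finset (Ω × Ω)) => s.1.1) := by
  have hdis : Disjoint S T := by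
    rw [Finset.disjoint_left]
    intro s hs ht
    exact hT.transcendental ⟨s, ht⟩
      (isAlgebraic_algebraMap (R := Λ') (A := Ω) (⟨s.1, hSΛ s hs⟩ : Λ'))
  refine ⟨hdis, ?_⟩
  let _ : Algebra Λ Λ' := (Subfield.inclusion hΛ).toAlgebra
  have : IsScalarTower Λ Λ' Ω := IsScalarTower.of_algebraMap_eq (fun _ => rfl)
  have h1 : AlgebraicIndependent Λ (Sum.elim (fun s : T => s.1.1) (fun s : S => s.1.1)) := by
    refine hS.sumElim_of_tower ?_ hT
    rintro _ ⟨s, rfl⟩
    exact ⟨⟨_, hSΛ s.1 s.2⟩, rfl⟩
  let g : (S ∪ T : Finset (Ω × Ω)) → T ⊕ S := fun s =>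
    if h : s.1 ∈ T then Sum.inl ⟨s.1, h⟩ else
      Sum.inr ⟨s.1, (Finset.mem_union.1 s.2).resolve_right h⟩
  have hg : ∀ s, (Sum.elim (fun s : T => s.1) (fun s : S => s.1)) (g s) = s.1 := by
    intro s
    simp only [g]
    split_ifs with h <;> rfl
  have hginj : Function.Injective g := by
    intro s t hst
    apply Subtype.ext
    rw [← hg s, ← hg t, hst]
  have h2 := h1.comp g hginj
  have h3 : (Sum.elim (fun s : T => s.1.1) (fun s : S => s.1.1)) ∘ g =
      fun s : (S ∪ T : Finset (Ω × Ω)) => s.1.1 := by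
    funext s
    have := congrArg Prod.fst (hg s)
    rw [← this]
    simp only [Function.comp_apply]
    cases g s <;> rfl
  rw [h3] at h2
  exact h2

variable [IsAlgClosed Ω] [CharZero Ω]

theorem stable_points_one (k : Type) [Field k] [Algebra (LaurentSeries k) Ω]
    [Algebra.IsAlgebraic (LaurentSeries k) Ω]
    (E : Subfield Ω) (hE : ∀ r, algebraMap (LaurentSeries k) Ω r ∈ E)
    (G : Polynomial (Polynomial Ω))
    (hG : ∀ i j, (G.coeff i).coeff j ∈ E) (c c' : Ω)
    (h0 : (G.map (evalRingHom c)).eval c' = 0)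
    (h1 : (G.map (evalRingHom c)).derivative.eval c' ≠ 0)
    (Λ : Subfield Ω) (hΛ : Countable Λ) :
    ∃ S : Finset (Ω × Ω),
      S.card = Module.finrank E (IntermediateField.adjoin E ({c, c'} : Set Ω)) ∧
      (∀ σ : Ω ≃+* Ω, (∀ e ∈ E, σ e = e) → ∀ s ∈ S, (σ s.1, σ s.2) ∈ S) ∧
      (∀ s ∈ S, (G.map (evalRingHom s.1)).eval s.2 = 0) ∧
      AlgebraicIndependent Λ (fun s : S => s.1.1) := by
  have := uncountable_laurentSeries k
  have : Uncountable Ω := (algebraMap (LaurentSeries k) Ω).injective.uncountable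
  let _ := laurentRankOne k
  let _ : NontriviallyNormedField (LaurentSeries k) :=
    Valued.toNontriviallyNormedField (LaurentSeries k) (WithZero (Multiplicative ℤ))
  exact stable_points_normed (R := LaurentSeries k) E hE G hG c c' h0 h1 Λ

/-- 7.6: generic stable points. -/
theorem stable_points (k : Type) [Field k] [Algebra (LaurentSeries k) Ω]
    [Algebra.IsAlgebraic (LaurentSeries k) Ω]
    (E : Subfield Ω) (hE : ∀ r, algebraMap (LaurentSeries k) Ω r ∈ E)
    (G : Polynomial (Polynomial Ω))
    (hG : ∀ i j, (G.coeff i).coeff j ∈ E) (c c' : Ω)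
    (h0 : (G.map (evalRingHom c)).eval c' = 0)
    (h1 : (G.map (evalRingHom c)).derivative.eval c' ≠ 0)
    (Λ : Subfield Ω) (hΛ : Countable Λ) (t : ℕ) :
    ∃ S : Finset (Ω × Ω),
      S.card = t * Module.finrank E (IntermediateField.adjoin E ({c, c'} : Set Ω)) ∧
      (∀ σ : Ω ≃+* Ω, (∀ e ∈ E, σ e = e) → ∀ s ∈ S, (σ s.1, σ s.2) ∈ S) ∧
      (∀ s ∈ S, (G.map (evalRingHom s.1)).eval s.2 = 0) ∧
      AlgebraicIndependent Λ (fun s : S => s.1.1) := by
  classical
  induction t with
  | zero =>
    refine ⟨∅, by simp, by simp, by simp, ?_⟩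
    have : IsEmpty ((∅ : Finset (Ω × Ω)) : Type) := ⟨fun x => Finset.notMem_empty _ x.2⟩
    exact algebraicIndependent_empty_type
  | succ t ih =>
    obtain ⟨S, hS1, hS2, hS3, hS4⟩ := ih
    let s : Set Ω := (Λ : Set Ω) ∪ (S.image Prod.fst : Finset Ω)
    have hs : s.Countable := (Set.to_countable _).union (Finset.countable_toSet _)
    have hΛ' : Countable (Subfield.closure s) := countable_subfieldClosure s hs
    obtain ⟨T, hT1, hT2, hT3, hT4⟩ := stable_points_one k E hE G hG c c' h0 h1
      (Subfield.closure s) hΛ'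
    obtain ⟨h2, h3⟩ := union_indep Λ S hS4 (Subfield.closure s)
      (fun x hx => Subfield.subset_closure (Or.inl hx))
      (fun x hx => Subfield.subset_closure (Or.inr (by
        simp only [Finset.coe_image, Set.mem_image, SetLike.mem_coe]
        exact ⟨x, hx, rfl⟩))) T hT4
    refine ⟨S ∪ T, ?_, ?_, ?_, h3⟩
    · rw [Finset.card_union_of_disjoint h2, hS1, hT1]; ring
    · intro σ hσ x hx
      rcases Finset.mem_union.1 hx with h | h
      · exact Finset.mem_union_left _ (hS2 σ hσ x h)
      · exact Finset.mem_union_right _ (hT2 σ hσ x h)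
    · intro x hx
      rcases Finset.mem_union.1 hx with h | h
      · exact hS3 x h
      · exact hT3 x h

end

end SF379

/-- Public name. -/
alias SF.stable_points := SF379.stable_points
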