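import Mathlib
import Pool.Agent.SF.Model
import Pool.Agent.Helper379.SFPts2

/-! Points of a plane model and places. -/

set_option autoImplicit false

open Polynomial Module FF IntermediateField IsDedekindDomain SF

namespace SF379P

/-- evaluation of a bivariate polynomial -/
noncomputable def ev2 {F K : Type*} [CommRing F] [CommRing K] (f : F →+* K) (x y : K) :
    Polynomial (Polynomial F) →+* K :=
  eval₂RingHom (eval₂RingHom f x) y

theorem ev2_id {Ω : Type*} [CommRing Ω] (u v : Ω) (Q : Polynomial (Polynomial Ω)) :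
    ev2 (RingHom.id Ω) u v Q = (Q.map (evalRingHom u)).eval v := by
  rw [eval_map]
  rfl

theorem ev2_C_C {F K : Type*} [CommRing F] [CommRing K] (f : F →+* K) (x y : K) (c : F) :
    ev2 f x y (C (C c)) = f c := by
  simp [ev2]

theorem ev2_C_X {F K : Type*} [CommRing F] [CommRing K] (f : F →+* K) (x y : K) :
    ev2 f x y (C X) = x := by
  simp [ev2]

theorem ev2_X {F K : Type*} [CommRing F] [CommRing K] (f : F →+* K) (x y : K) :
    ev2 f x y X = y := by
  simp [ev2]

theorem ev2_C {F K : Type*} [CommRing F] [CommRing K] (f : F →+* K) (x y : K)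
    (p : Polynomial F) : ev2 f x y (C p) = p.eval₂ f x := by
  simp [ev2]

section

variable {Ω M : Type} [Field Ω] [Field M] [Algebra Ω M] [IsAlgClosed Ω] [CharZero Ω] [IsFF Ω M]

theorem exists_place_of_point {ξ η : M} (hξ : Transcendental Ω ξ)
    (hη : IsIntegral (Algebra.adjoin Ω ({ξ} : Set M)) η) (u v : Ω)
    (hker : ∀ Q : Polynomial (Polynomial Ω), ev2 (algebraMap Ω M) ξ η Q = 0 →
      ev2 (RingHom.id Ω) u v Q = 0) :
    ∃ P : Place Ω M, P.Reg ξ ∧ val P ξ = u ∧ P.Reg η ∧ val P η = v := by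
  open scoped algebraAdjoinAdjoin in
  let A := Algebra.adjoin Ω ({ξ} : Set M)
  let e := Polynomial.algEquivOfTranscendental Ω ξ hξ
  have hpid : IsPrincipalIdealRing A := IsPrincipalIdealRing.of_surjective e.toRingEquiv e.surjective
  have hded : IsDedekindDomain A := inferInstance
  have hfin := IsFF.finite hξ
  have hchar : CharZero Ω⟮ξ⟯ := charZero_of_injective_algebraMap (algebraMap Ω Ω⟮ξ⟯).injective
  have hsep : Algebra.IsSeparable Ω⟮ξ⟯ M := inferInstance
  let ξA : A := ⟨ξ, Algebra.self_mem_adjoin_singleton Ω ξ⟩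
  let B := integralClosure A M
  have : IsDedekindDomain B := integralClosure.isDedekindDomain A Ω⟮ξ⟯ M
  have : IsFractionRing B M := integralClosure.isFractionRing_of_finite_extension Ω⟮ξ⟯ M
  have hsc : IsScalarTower Ω B M := by
    refine IsScalarTower.of_algebraMap_eq fun c => ?_
    rw [IsScalarTower.algebraMap_apply Ω A B, ← IsScalarTower.algebraMap_apply A B M,
      ← IsScalarTower.algebraMap_apply Ω A M]
  let ξB : B := algebraMap A B ξA
  let ηB : B := ⟨η, hη⟩
  have hξB : algebraMap B M ξB = ξ := rfl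
  have hηB : algebraMap B M ηB = η := rfl
  let hom : Polynomial (Polynomial Ω) →+* B := ev2 (algebraMap Ω B) ξB ηB
  let _ : Algebra (Polynomial (Polynomial Ω)) B := hom.toAlgebra
  have hcompA : hom.comp ((C : Polynomial Ω →+* Polynomial (Polynomial Ω)).comp
      (e.symm : A →+* Polynomial Ω)) = algebraMap A B := by
    ext a
    obtain ⟨p, rfl⟩ := e.surjective a
    have h1 : (e.symm : A →+* Polynomial Ω) (e p) = p := e.symm_apply_apply p
    rw [RingHom.comp_apply, RingHom.comp_apply, h1]
    change algebraMap B M (ev2 (algebraMap Ω B) ξB ηB (C p)) = algebraMap A M (e p)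
    rw [ev2_C, hom_eval₂, hξB]
    have h2 : (algebraMap B M).comp (algebraMap Ω B) = algebraMap Ω M :=
      (IsScalarTower.algebraMap_eq Ω B M).symm
    rw [h2, ← aeval_def]
    exact aeval_algebraMap_apply M ξA p
  have hint : Algebra.IsIntegral (Polynomial (Polynomial Ω)) B := by
    constructor
    have h2 : hom.IsIntegral := by
      apply RingHom.IsIntegral.tower_top ((C : Polynomial Ω →+* Polynomial (Polynomial Ω)).comp
        (e.symm : A →+* Polynomial Ω))
      rw [hcompA]
      have h3 : Algebra.IsIntegral A B := inferInstance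
      exact fun b => h3.isIntegral b
    exact h2
  let χ : Polynomial (Polynomial Ω) →+* Ω := ev2 (RingHom.id Ω) u v
  have hcompM : (algebraMap B M).comp hom = ev2 (algebraMap Ω M) ξ η := by
    apply Polynomial.ringHom_ext'
    · apply Polynomial.ringHom_ext'
      · ext c
        change algebraMap B M (ev2 (algebraMap Ω B) ξB ηB (C (C c))) = ev2 _ _ _ (C (C c))
        rw [ev2_C_C, ev2_C_C, ← IsScalarTower.algebraMap_apply]
      · change algebraMap B M (ev2 (algebraMap Ω B) ξB ηB (C X)) = ev2 _ _ _ (C X)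
        rw [ev2_C_X, ev2_C_X, hξB]
    · change algebraMap B M (ev2 (algebraMap Ω B) ξB ηB X) = ev2 _ _ _ X
      rw [ev2_X, ev2_X, hηB]
  have hkerle : RingHom.ker (algebraMap (Polynomial (Polynomial Ω)) B) ≤ RingHom.ker χ := by
    intro Q hQ
    rw [RingHom.mem_ker] at hQ ⊢
    apply hker
    rw [← hcompM, RingHom.comp_apply]
    have : hom Q = 0 := hQ
    rw [this, map_zero]
  have hprime : (RingHom.ker χ).IsPrime := RingHom.ker_isPrime χ
  obtain ⟨Q, hQ1, hQ2⟩ := Ideal.exists_ideal_over_prime_of_isIntegral_of_isDomain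
    (RingHom.ker χ) hkerle
  have hmem : ∀ q : Polynomial (Polynomial Ω), χ q = 0 → hom q ∈ Q := by
    intro q hq
    have h3 : q ∈ RingHom.ker χ := hq
    rw [← hQ2] at h3
    exact h3
  have hξQ : ξB - algebraMap Ω B u ∈ Q := by
    have := hmem (C X - C (C u)) (by simp only [χ, map_sub, ev2_C_C, ev2_C_X]; simp)
    simpa only [hom, map_sub, ev2_C_C, ev2_C_X] using this
  have hηQ : ηB - algebraMap Ω B v ∈ Q := by
    have := hmem (X - C (C v)) (by simp only [χ, map_sub, ev2_C_C, ev2_X]; simp)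
    simpa only [hom, map_sub, ev2_C_C, ev2_X] using this
  have hQne : Q ≠ ⊥ := by
    rintro rfl
    rw [Ideal.mem_bot, sub_eq_zero] at hξQ
    apply hξ
    have : ξ = algebraMap Ω M u := by
      rw [← hξB, hξQ, ← IsScalarTower.algebraMap_apply]
    rw [this]
    exact isAlgebraic_algebraMap u
  let w : Place Ω M := placeOf (k := Ω) (L := M) (⟨Q, hQ1, hQne⟩ : HeightOneSpectrum B)
  have hreg : ∀ b : B, w.Reg (algebraMap B M b) := fun b => placeOf_reg _ b
  have hred : ∀ b : B, b ∈ Q → w.red (algebraMap B M b) = 0 := fun b hb =>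
    (placeOf_red_eq_zero (k := Ω) (L := M) (⟨Q, hQ1, hQne⟩ : HeightOneSpectrum B) b).2 hb
  have hval : ∀ (b : B) (c : Ω), b - algebraMap Ω B c ∈ Q → val w (algebraMap B M b) = c := by
    intro b c hb
    rw [val_eq_iff w (hreg b)]
    have h4 := (w.red_eq_zero_iff (hreg _)).1 (hred _ hb)
    rw [map_sub, ← IsScalarTower.algebraMap_apply, sub_eq_zero] at h4
    exact h4
  exact ⟨w, hreg ξB, hval ξB u hξQ, hreg ηB, hval ηB v hηQ⟩

theorem place_unique {ξ η : M} (hξ : Transcendental Ω ξ)
    (hη : IsIntegral (Algebra.adjoin Ω ({ξ} : Set M)) η) (u : Ω) (R : Finset Ω)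
    (hR : finrank Ω⟮ξ⟯ M ≤ R.card)
    (hker : ∀ v ∈ R, ∀ Q : Polynomial (Polynomial Ω), ev2 (algebraMap Ω M) ξ η Q = 0 →
      ev2 (RingHom.id Ω) u v Q = 0) (P P' : Place Ω M) (h1 : P.Reg ξ) (h2 : val P ξ = u)
    (h1' : P'.Reg ξ) (h2' : val P' ξ = u) (h : val P η = val P' η) : P = P' := by
  classical
  choose Pf hPf1 hPf2 hPf3 hPf4 using fun v : R =>
    exists_place_of_point hξ hη u v.1 (hker v.1 v.2)
  have hcon : Transcendental Ω (ξ - algebraMap Ω M u) := by
    intro hc
    apply hξ
    have := hc.add (isAlgebraic_algebraMap (R := Ω) (A := M) u)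
    rwa [sub_add_cancel] at this
  have hadj : Ω⟮ξ - algebraMap Ω M u⟯ = Ω⟮ξ⟯ := by
    apply le_antisymm
    · rw [IntermediateField.adjoin_simple_le_iff]
      exact sub_mem (IntermediateField.mem_adjoin_simple_self Ω ξ) (_root_.algebraMap_mem _ u)
    · rw [IntermediateField.adjoin_simple_le_iff]
      have := add_mem (IntermediateField.mem_adjoin_simple_self Ω (ξ - algebraMap Ω M u))
        (_root_.algebraMap_mem Ω⟮ξ - algebraMap Ω M u⟯ u)
      rwa [sub_add_cancel] at this
  obtain ⟨S, hS1, hS2, hS3⟩ := zeros hcon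
  rw [hadj] at hS3
  have hmemS : ∀ w : Place Ω M, w.Reg ξ → val w ξ = u → w ∈ S := by
    intro w hw1 hw2
    rw [hS1]
    rcases (val_eq_iff w hw1 u).1 hw2 with h3 | h3
    · exact absurd (by rw [h3]; exact isAlgebraic_algebraMap u) hξ
    · exact h3
  let T : Finset (Place Ω M) := Finset.univ.image Pf
  have hinj : Function.Injective Pf := by
    intro v v' hvv
    apply Subtype.ext
    rw [← hPf4 v, ← hPf4 v', hvv]
  have hTcard : T.card = R.card := by
    rw [Finset.card_image_of_injective _ hinj, Finset.card_univ, Fintype.card_coe]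
  have hTS : T ⊆ S := by
    intro w hw
    obtain ⟨v, _, rfl⟩ := Finset.mem_image.1 hw
    exact hmemS _ (hPf1 v) (hPf2 v)
  have hScard : S.card ≤ finrank Ω⟮ξ⟯ M := by
    rw [← hS3, Finset.card_eq_sum_ones]
    apply Finset.sum_le_sum
    intro w hw
    have h3 := (hS1 w).1 hw
    have h4 := hS2 w hw
    have h5 : 0 < (w.ord (ξ - algebraMap Ω M u)).toNat := by omega
    exact Nat.mul_pos h5 h4
  have hTS' : T = S := Finset.eq_of_subset_of_card_le hTS (by omega)
  have hP := hmemS P h1 h2
  have hP' := hmemS P' h1' h2'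
  rw [← hTS'] at hP hP'
  obtain ⟨v, _, rfl⟩ := Finset.mem_image.1 hP
  obtain ⟨v', _, rfl⟩ := Finset.mem_image.1 hP'
  rw [hPf4, hPf4] at h
  rw [Subtype.ext h]

end

section LinInd

variable {K A : Type*} [Field K] [CommRing A] [Algebra K A]

omit [Algebra K A] in
theorem ev2_monomial (f : K →+* A) (x y : A) (j i : ℕ) (a : K) :
    ev2 f x y (monomial j (monomial i a)) = f a * x ^ i * y ^ j := by
  simp [ev2, eval₂_monomial]

theorem linInd_of_ev2 (x y : A) (n : ℕ)
    (h : ∀ Q : Polynomial (Polynomial K), Q.degree < n → ev2 (algebraMap K A) x y Q = 0 → Q = 0) :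
    LinearIndependent K (fun p : ℕ × Fin n => x ^ p.1 * y ^ (p.2 : ℕ)) := by
  classical
  rw [linearIndependent_iff']
  intro s g hg p hp
  let Q : Polynomial (Polynomial K) := ∑ q ∈ s, monomial (q.2 : ℕ) (monomial q.1 (g q))
  have hdeg : Q.degree < n := by
    rw [← mem_degreeLT]
    refine Submodule.sum_mem _ fun q _ => ?_
    rw [mem_degreeLT]
    refine (degree_monomial_le _ _).trans_lt ?_
    exact_mod_cast q.2.2
  have hev : ev2 (algebraMap K A) x y Q = 0 := by
    rw [map_sum, ← hg]
    apply Finset.sum_congr rfl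
    intro q _
    rw [ev2_monomial, Algebra.smul_def, mul_assoc]
  have hQ := h Q hdeg hev
  have h1 := congrArg (fun r : Polynomial (Polynomial K) => (r.coeff (p.2 : ℕ)).coeff p.1) hQ
  simp only [Q, finsetSum_coeff, coeff_monomial, coeff_zero] at h1
  rw [Finset.sum_eq_single p] at h1
  · simpa using h1
  · intro q _ hqp
    by_cases h2 : (q.2 : ℕ) = (p.2 : ℕ)
    · rw [if_pos h2, coeff_monomial, if_neg]
      intro h3
      exact hqp (Prod.ext h3 (Fin.ext h2))
    · rw [if_neg h2, coeff_zero]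
  · intro hps
    exact absurd hp hps

theorem ev2_of_linInd (x y : A) (n : ℕ)
    (h : LinearIndependent K (fun p : ℕ × Fin n => x ^ p.1 * y ^ (p.2 : ℕ))) 
    (Q : Polynomial (Polynomial K)) (hQ : Q.degree < n) (hev : ev2 (algebraMap K A) x y Q = 0) :
    Q = 0 := by
  classical
  rw [linearIndependent_iff'] at h
  let N : ℕ := (Finset.range n).sup (fun j => (Q.coeff j).natDegree) + 1
  have hN : ∀ j < n, (Q.coeff j).natDegree < N := by
    intro j hj
    exact Nat.lt_succ_of_le (Finset.le_sup (f := fun j => (Q.coeff j).natDegree) (Finset.mem_range.2 hj))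
  have h1 := h (Finset.range N ×ˢ Finset.univ) (fun p => (Q.coeff p.2).coeff p.1) (by
    rw [Finset.sum_product_right, ← hev]
    have h2 : ev2 (algebraMap K A) x y Q =
        ∑ j ∈ Finset.range n, (Q.coeff j).eval₂ (algebraMap K A) x * y ^ j := by
      change eval₂ (eval₂RingHom (algebraMap K A) x) y Q = _
      by_cases hQ0 : Q = 0
      · simp [hQ0]
      · rw [eval₂_eq_sum_range' _ ((natDegree_lt_iff_degree_lt hQ0).2 hQ)]
        rfl
    rw [h2, Finset.sum_range]
    apply Finset.sum_congr rfl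
    intro j _
    rw [eval₂_eq_sum_range' _ (hN j j.2), Finset.sum_mul]
    apply Finset.sum_congr rfl
    intro i _
    rw [Algebra.smul_def, mul_assoc])
  ext j i
  rw [coeff_zero, coeff_zero]
  by_cases hj : j < n
  · by_cases hi : i < N
    · exact h1 (i, ⟨j, hj⟩) (by simp [hi])
    · exact coeff_eq_zero_of_natDegree_lt (lt_of_lt_of_le (hN j hj) (not_lt.1 hi))
  · rw [coeff_eq_zero_of_degree_lt (lt_of_lt_of_le hQ (by exact_mod_cast not_lt.1 hj)), coeff_zero]

end LinInd

end SF379P
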