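import Mathlib
import Pool.Agent.Helper379.SFPlace
import Pool.Agent.Helper18.Step.Coord

/-! Plane models and places: generic points of the plane model are the places of the model. -/

set_option autoImplicit false
set_option linter.unusedSectionVars false

open Polynomial Module FF IntermediateField IsDedekindDomain SF

namespace SF379P

theorem plane_model {F L : Type} [Field F] [CharZero F] [Field L] [Algebra F L] [IsFF F L]
    {ξ : L} (hξ : Transcendental F ξ) :
    ∃ (η : L) (H : Polynomial (Polynomial F)), H.Monic ∧ 0 < H.natDegree ∧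
      ev2 (algebraMap F L) ξ η H = 0 ∧
      (∀ Q : Polynomial (Polynomial F), Q.degree < H.natDegree →
        ev2 (algebraMap F L) ξ η Q = 0 → Q = 0) ∧
      IntermediateField.adjoin F⟮ξ⟯ {η} = ⊤ ∧
      IsIntegral (Algebra.adjoin F ({ξ} : Set L)) η ∧
      (H.map (eval₂RingHom (algebraMap F L) ξ)).Separable := by
  open scoped algebraAdjoinAdjoin in
  let A := Algebra.adjoin F ({ξ} : Set L)
  let e := Polynomial.algEquivOfTranscendental F ξ hξ
  have hpid : IsPrincipalIdealRing A := IsPrincipalIdealRing.of_surjective e.toRingEquiv e.surjective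
  have hded : IsDedekindDomain A := inferInstance
  have hfin := IsFF.finite hξ
  have hchar : CharZero F⟮ξ⟯ := charZero_of_injective_algebraMap (algebraMap F F⟮ξ⟯).injective
  have hsep : Algebra.IsSeparable F⟮ξ⟯ L := inferInstance
  obtain ⟨η0, hη0⟩ := Field.exists_primitive_element F⟮ξ⟯ L
  have halg : IsAlgebraic A η0 := by
    have h1 : IsAlgebraic F⟮ξ⟯ η0 := Algebra.IsAlgebraic.isAlgebraic η0
    exact (IsFractionRing.isAlgebraic_iff A F⟮ξ⟯ L).2 h1
  obtain ⟨a, ha0, ha⟩ := halg.exists_integral_multiple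
  let η : L := a • η0
  have hη : IsIntegral A η := ha
  let mA := minpoly A η
  have hmK : minpoly F⟮ξ⟯ η = mA.map (algebraMap A F⟮ξ⟯) :=
    minpoly.isIntegrallyClosed_eq_field_fractions' F⟮ξ⟯ hη
  let es : A →+* Polynomial F := (e.symm : A →+* Polynomial F)
  let ef : Polynomial F →+* A := (e : Polynomial F →+* A)
  have hes : (eval₂RingHom (algebraMap F L) ξ).comp es = algebraMap A L := by
    ext b
    obtain ⟨p, rfl⟩ := e.surjective b
    have h1 : es (e p) = p := e.symm_apply_apply p
    rw [RingHom.comp_apply, h1]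
    change eval₂ (algebraMap F L) ξ p = _
    rw [← aeval_def]
    exact aeval_algebraMap_apply L (⟨ξ, Algebra.self_mem_adjoin_singleton F ξ⟩ : A) p
  have hef : (algebraMap A L).comp ef = eval₂RingHom (algebraMap F L) ξ := by
    rw [← hes, RingHom.comp_assoc]
    have : es.comp ef = RingHom.id _ := by
      ext x <;> simp [es, ef]
    rw [this, RingHom.comp_id]
  have hesinj : Function.Injective es := e.symm.injective
  let H : Polynomial (Polynomial F) := mA.map es
  have hmonic : H.Monic := (minpoly.monic hη).map es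
  have hdeg : H.natDegree = mA.natDegree := natDegree_map_eq_of_injective hesinj _
  have hev : ∀ Q : Polynomial (Polynomial F), ev2 (algebraMap F L) ξ η Q =
      aeval η (Q.map ef) := by
    intro Q
    rw [aeval_def, eval₂_map, hef]
    rfl
  have hHev : ev2 (algebraMap F L) ξ η H = 0 := by
    change eval₂ (eval₂RingHom (algebraMap F L) ξ) η (mA.map es) = 0
    rw [eval₂_map, hes]
    exact minpoly.aeval A η
  refine ⟨η, H, hmonic, ?_, hHev, ?_, ?_, hη, ?_⟩
  · rw [hdeg]
    exact minpoly.natDegree_pos hη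
  · intro Q hQ hQev
    rw [hev] at hQev
    have h2 : (Q.map ef).degree < mA.degree := by
      refine (degree_map_le).trans_lt ?_
      rw [degree_eq_natDegree (minpoly.monic hη).ne_zero, ← hdeg]
      exact hQ
    have h3 : Q.map ef = 0 := by
      by_contra hne
      exact absurd (minpoly.IsIntegrallyClosed.degree_le_of_ne_zero hne hQev) (not_le.2 h2)
    exact (Polynomial.map_eq_zero_iff e.injective).1 h3
  · rw [eq_top_iff, ← hη0, IntermediateField.adjoin_simple_le_iff]
    have haL : algebraMap A L a ≠ 0 := by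
      intro h
      exact ha0 ((map_eq_zero_iff _ Subtype.val_injective).1 h)
    have h1 : η0 = (algebraMap A L a)⁻¹ * η := by
      simp only [η, Algebra.smul_def]
      rw [← mul_assoc, inv_mul_cancel₀ haL, one_mul]
    have h2 : algebraMap A L a ∈ IntermediateField.adjoin F⟮ξ⟯ {η} := by
      rw [IsScalarTower.algebraMap_apply A F⟮ξ⟯ L]
      exact _root_.algebraMap_mem _ _
    rw [h1]
    exact mul_mem (inv_mem h2) (IntermediateField.mem_adjoin_simple_self _ η)
  · have : H.map (eval₂RingHom (algebraMap F L) ξ) = (minpoly F⟮ξ⟯ η).map (algebraMap F⟮ξ⟯ L) := by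
      rw [Polynomial.map_map, hes, hmK, Polynomial.map_map]
      congr 1
    rw [this]
    have h5 : (minpoly F⟮ξ⟯ η).Separable := Algebra.IsSeparable.isSeparable F⟮ξ⟯ η
    exact h5.map

section Mod

theorem ev2_nat {F Ω L M : Type*} [CommRing F] [CommRing Ω] [CommRing L] [CommRing M]
    (f : F →+* L) (g : Ω →+* M) (h : L →+* M) (i : F →+* Ω) (hc : g.comp i = h.comp f)
    (x y : L) (Q : Polynomial (Polynomial F)) :
    ev2 g (h x) (h y) (Q.map (mapRingHom i)) = h (ev2 f x y Q) := by
  have : (ev2 g (h x) (h y)).comp (mapRingHom (mapRingHom i)) = h.comp (ev2 f x y) := by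
    apply Polynomial.ringHom_ext'
    · apply Polynomial.ringHom_ext'
      · ext c
        simp only [RingHom.comp_apply, coe_mapRingHom, Polynomial.map_C, ev2_C_C]
        exact congrArg (fun t : F →+* M => t c) hc
      · simp only [RingHom.comp_apply, coe_mapRingHom, Polynomial.map_C, Polynomial.map_X, ev2_C_X]
    · simp only [RingHom.comp_apply, coe_mapRingHom, Polynomial.map_X, ev2_X]
  exact congrArg (fun t : Polynomial (Polynomial F) →+* M => t Q) this

variable {F Ω L M : Type} [Field F] [CharZero F] [Field Ω] [Algebra F Ω] [Field L] [Algebra F L]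
    [Field M] [Algebra Ω M] [Algebra L M] [IsAlgClosed Ω] [CharZero Ω] [IsFF F L] [IsFF Ω M]

theorem model_indep (m : Model F Ω L M) (ξ η : L) (n : ℕ)
    (h : ∀ Q : Polynomial (Polynomial F), Q.degree < n → ev2 (algebraMap F L) ξ η Q = 0 → Q = 0)
    (Q : Polynomial (Polynomial Ω)) (hQ : Q.degree < n)
    (hev : ev2 (algebraMap Ω M) (algebraMap L M ξ) (algebraMap L M η) Q = 0) : Q = 0 := by
  refine ev2_of_linInd (algebraMap L M ξ) (algebraMap L M η) n ?_ Q hQ hev
  have h1 := m.indep _ (linInd_of_ev2 ξ η n h)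
  simpa only [map_mul, map_pow] using h1

theorem model_ker (m : Model F Ω L M) (ξ η : L) (H : Polynomial (Polynomial F)) (hH : H.Monic)
    (h0 : ev2 (algebraMap F L) ξ η H = 0)
    (h : ∀ Q : Polynomial (Polynomial F), Q.degree < H.natDegree →
      ev2 (algebraMap F L) ξ η Q = 0 → Q = 0)
    (u v : Ω) (huv : ev2 (RingHom.id Ω) u v (H.map (mapRingHom (algebraMap F Ω))) = 0)
    (Q : Polynomial (Polynomial Ω))
    (hQ : ev2 (algebraMap Ω M) (algebraMap L M ξ) (algebraMap L M η) Q = 0) :
    ev2 (RingHom.id Ω) u v Q = 0 := by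
  set HΩ := H.map (mapRingHom (algebraMap F Ω)) with hHΩ
  have hmon : HΩ.Monic := hH.map _
  have hdeg : HΩ.natDegree = H.natDegree := hH.natDegree_map _
  have e0 : ev2 (algebraMap Ω M) (algebraMap L M ξ) (algebraMap L M η) HΩ = 0 := by
    rw [hHΩ, ev2_nat (algebraMap F L) (algebraMap Ω M) (algebraMap L M) (algebraMap F Ω)
      (by ext c; exact m.compat c), h0, map_zero]
  have h1 := modByMonic_add_div Q HΩ
  have h2 : Q %ₘ HΩ = 0 := by
    refine model_indep m ξ η H.natDegree h _ ?_ ?_
    · have := degree_modByMonic_lt Q hmon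
      rwa [degree_eq_natDegree hmon.ne_zero, hdeg] at this
    · rw [← h1, map_add, map_mul, e0, zero_mul, add_zero] at hQ
      exact hQ
  rw [← h1, h2, zero_add, map_mul, huv, zero_mul]

theorem model_top (m : Model F Ω L M) {ξ : L} (η : L)
    (htop : IntermediateField.adjoin F⟮ξ⟯ {η} = ⊤) :
    IntermediateField.adjoin Ω⟮algebraMap L M ξ⟯ {algebraMap L M η} = ⊤ := by
  set N := IntermediateField.adjoin Ω⟮algebraMap L M ξ⟯ {algebraMap L M η} with hN
  have hΩN : ∀ c : Ω, algebraMap Ω M c ∈ N := by
    intro c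
    rw [IsScalarTower.algebraMap_apply Ω Ω⟮algebraMap L M ξ⟯ M]
    exact _root_.algebraMap_mem _ _
  have hξN : algebraMap L M ξ ∈ N := by
    exact _root_.algebraMap_mem N (⟨algebraMap L M ξ,
      IntermediateField.mem_adjoin_simple_self Ω _⟩ : Ω⟮algebraMap L M ξ⟯)
  have hηN : algebraMap L M η ∈ N := IntermediateField.mem_adjoin_simple_self _ _
  let T : Subfield L := N.toSubfield.comap (algebraMap L M)
  have hT : ∀ l, l ∈ T ↔ algebraMap L M l ∈ N := fun l => Iff.rfl
  have hF : ∀ c : F, algebraMap F L c ∈ T := by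
    intro c
    rw [hT, ← m.compat]
    exact hΩN _
  let T1 : IntermediateField F L := T.toIntermediateField hF
  have h1 : F⟮ξ⟯ ≤ T1 := by
    rw [IntermediateField.adjoin_simple_le_iff]
    exact (hT ξ).2 hξN
  let T2 : IntermediateField F⟮ξ⟯ L := T.toIntermediateField (fun c => h1 c.2)
  have h2 : (⊤ : IntermediateField F⟮ξ⟯ L) ≤ T2 := by
    rw [← htop, IntermediateField.adjoin_simple_le_iff]
    exact (hT η).2 hηN
  have hL : ∀ l : L, algebraMap L M l ∈ N := fun l => (hT l).1 (h2 (IntermediateField.mem_top))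
  have hspan : ∀ p ∈ Submodule.span Ω (Set.range (algebraMap L M)), p ∈ N := by
    intro p hp
    induction hp using Submodule.span_induction with
    | mem x hx => obtain ⟨l, rfl⟩ := hx; exact hL l
    | zero => exact zero_mem _
    | add x y _ _ hx hy => exact add_mem hx hy
    | smul c x _ hx =>
      rw [Algebra.smul_def]
      exact mul_mem (hΩN c) hx
  rw [eq_top_iff]
  intro f _
  obtain ⟨p, q, hp, hq, _, rfl⟩ := m.frac f
  exact div_mem (hspan p hp) (hspan q hq)

theorem model_finrank (m : Model F Ω L M) {ξ : L} (η : L)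
    (H : Polynomial (Polynomial F)) (hH : H.Monic)
    (h0 : ev2 (algebraMap F L) ξ η H = 0)
    (htop : IntermediateField.adjoin F⟮ξ⟯ {η} = ⊤) :
    finrank Ω⟮algebraMap L M ξ⟯ M ≤ H.natDegree := by
  set HΩ := H.map (mapRingHom (algebraMap F Ω)) with hHΩ
  have hmon : HΩ.Monic := hH.map _
  have hdeg : HΩ.natDegree = H.natDegree := hH.natDegree_map _
  have e0 : ev2 (algebraMap Ω M) (algebraMap L M ξ) (algebraMap L M η) HΩ = 0 := by
    rw [hHΩ, ev2_nat (algebraMap F L) (algebraMap Ω M) (algebraMap L M) (algebraMap F Ω)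
      (by ext c; exact m.compat c), h0, map_zero]
  let K0 := Ω⟮algebraMap L M ξ⟯
  let g : Polynomial Ω →+* K0 := eval₂RingHom (algebraMap Ω K0)
    ⟨algebraMap L M ξ, IntermediateField.mem_adjoin_simple_self Ω _⟩
  have hg : (algebraMap K0 M).comp g = eval₂RingHom (algebraMap Ω M) (algebraMap L M ξ) := by
    apply Polynomial.ringHom_ext
    · intro c
      simp only [g, RingHom.comp_apply, coe_eval₂RingHom, eval₂_C]
      exact (IsScalarTower.algebraMap_apply Ω K0 M c).symm
    · simp only [g, RingHom.comp_apply, coe_eval₂RingHom, eval₂_X]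
      rfl
  have e1 : aeval (algebraMap L M η) (HΩ.map g) = 0 := by
    rw [aeval_def, eval₂_map, hg]
    exact e0
  have hint : IsIntegral K0 (algebraMap L M η) := ⟨HΩ.map g, hmon.map g, by
    rw [← aeval_def]; exact e1⟩
  have h1 := IntermediateField.adjoin.finrank hint
  rw [model_top m η htop, IntermediateField.finrank_top'] at h1
  rw [h1]
  refine natDegree_le_of_degree_le ?_ |>.trans (le_of_eq hdeg)
  refine (minpoly.min K0 _ (hmon.map g) e1).trans ?_
  rw [degree_eq_natDegree (hmon.map g).ne_zero, hmon.natDegree_map]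

theorem model_integral (m : Model F Ω L M) {ξ : L} (η : L)
    (H : Polynomial (Polynomial F)) (hH : H.Monic)
    (h0 : ev2 (algebraMap F L) ξ η H = 0) :
    IsIntegral (Algebra.adjoin Ω ({algebraMap L M ξ} : Set M)) (algebraMap L M η) := by
  set HΩ := H.map (mapRingHom (algebraMap F Ω)) with hHΩ
  have hmon : HΩ.Monic := hH.map _
  have e0 : ev2 (algebraMap Ω M) (algebraMap L M ξ) (algebraMap L M η) HΩ = 0 := by
    rw [hHΩ, ev2_nat (algebraMap F L) (algebraMap Ω M) (algebraMap L M) (algebraMap F Ω)
      (by ext c; exact m.compat c), h0, map_zero]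
  let A := Algebra.adjoin Ω ({algebraMap L M ξ} : Set M)
  let g : Polynomial Ω →+* A := eval₂RingHom (algebraMap Ω A)
    ⟨algebraMap L M ξ, Algebra.self_mem_adjoin_singleton Ω _⟩
  have hg : (algebraMap A M).comp g = eval₂RingHom (algebraMap Ω M) (algebraMap L M ξ) := by
    apply Polynomial.ringHom_ext
    · intro c
      simp only [g, RingHom.comp_apply, coe_eval₂RingHom, eval₂_C]
      exact (IsScalarTower.algebraMap_apply Ω A M c).symm
    · simp only [g, RingHom.comp_apply, coe_eval₂RingHom, eval₂_X]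
      rfl
  refine ⟨HΩ.map g, hmon.map g, ?_⟩
  rw [eval₂_map, hg]
  exact e0

theorem sep_transfer {D K1 K2 : Type*} [CommRing D] [IsDomain D] [Field K1] [Field K2]
    (ψ1 : D →+* K1) (ψ2 : D →+* K2) (h1 : Function.Injective ψ1) (h2 : Function.Injective ψ2)
    (P : Polynomial D) (hP : (P.map ψ1).Separable) : (P.map ψ2).Separable := by
  let Q := FractionRing D
  let φ1 : Q →+* K1 := IsFractionRing.lift h1
  let φ2 : Q →+* K2 := IsFractionRing.lift h2
  have e1 : φ1.comp (algebraMap D Q) = ψ1 := by
    ext d; exact IsFractionRing.lift_algebraMap h1 d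
  have e2 : φ2.comp (algebraMap D Q) = ψ2 := by
    ext d; exact IsFractionRing.lift_algebraMap h2 d
  rw [← e1, ← Polynomial.map_map, Polynomial.separable_map] at hP
  rw [← e2, ← Polynomial.map_map, Polynomial.separable_map]
  exact hP

theorem generic_sep (m : Model F Ω L M) {ξ : L} (hξ : Transcendental F ξ)
    (H : Polynomial (Polynomial F))
    (hsep : (H.map (eval₂RingHom (algebraMap F L) ξ)).Separable)
    (Λ : Subfield Ω)
    (hΛ : ∀ i j, ((H.map (mapRingHom (algebraMap F Ω))).coeff i).coeff j ∈ Λ)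
    (u : Ω) (hu : Transcendental Λ u) :
    ((H.map (mapRingHom (algebraMap F Ω))).map (evalRingHom u)).Separable := by
  set HΩ := H.map (mapRingHom (algebraMap F Ω)) with hHΩ
  obtain ⟨H1, hH1⟩ := SF379.exists_lift₂ Λ.subtype HΩ (fun i j => ⟨⟨_, hΛ i j⟩, rfl⟩)
  have hξM := Step.transc m hξ
  let ψ1 : Polynomial Λ →+* M := (eval₂RingHom (algebraMap Ω M) (algebraMap L M ξ)).comp
    (mapRingHom Λ.subtype)
  let ψ2 : Polynomial Λ →+* Ω := (evalRingHom u).comp (mapRingHom Λ.subtype)
  have h1 : Function.Injective ψ1 := by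
    have h3 : Function.Injective (aeval (R := Ω) (algebraMap L M ξ)) :=
      transcendental_iff_injective.1 hξM
    exact Function.Injective.comp (g := aeval (R := Ω) (algebraMap L M ξ)) h3
      (Polynomial.map_injective _ Λ.subtype.injective)
  have h2 : Function.Injective ψ2 := by
    have h3 : Function.Injective (aeval (R := Λ) u) := transcendental_iff_injective.1 hu
    have h4 : ∀ p, ψ2 p = aeval (R := Λ) u p := by
      intro p
      change eval u (p.map Λ.subtype) = _
      rw [eval_map]
      rfl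
    intro a b hab
    rw [h4, h4] at hab
    exact h3 hab
  have e1 : H1.map ψ1 = (H.map (eval₂RingHom (algebraMap F L) ξ)).map (algebraMap L M) := by
    rw [← Polynomial.map_map, hH1, hHΩ, Polynomial.map_map, Polynomial.map_map]
    congr 1
    apply Polynomial.ringHom_ext
    · intro c
      simp only [RingHom.comp_apply, coe_mapRingHom, Polynomial.map_C, coe_eval₂RingHom, eval₂_C]
      exact m.compat c
    · simp only [RingHom.comp_apply, coe_mapRingHom, Polynomial.map_X, coe_eval₂RingHom, eval₂_X]
  have e2 : H1.map ψ2 = HΩ.map (evalRingHom u) := by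
    rw [← Polynomial.map_map, hH1]
  rw [← e2]
  refine sep_transfer ψ1 ψ2 h1 h2 H1 ?_
  rw [e1]
  exact hsep.map

theorem generic_place_unique (m : Model F Ω L M) {ξ : L} (hξ : Transcendental F ξ) (η : L)
    (H : Polynomial (Polynomial F)) (hH : H.Monic)
    (h0 : ev2 (algebraMap F L) ξ η H = 0)
    (h : ∀ Q : Polynomial (Polynomial F), Q.degree < H.natDegree →
      ev2 (algebraMap F L) ξ η Q = 0 → Q = 0)
    (htop : IntermediateField.adjoin F⟮ξ⟯ {η} = ⊤)
    (hsep : (H.map (eval₂RingHom (algebraMap F L) ξ)).Separable)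
    (Λ : Subfield Ω)
    (hΛ : ∀ i j, ((H.map (mapRingHom (algebraMap F Ω))).coeff i).coeff j ∈ Λ)
    (u : Ω) (hu : Transcendental Λ u) (P P' : Place Ω M) (h1 : P.Reg (algebraMap L M ξ))
    (h2 : val P (algebraMap L M ξ) = u) (h1' : P'.Reg (algebraMap L M ξ))
    (h2' : val P' (algebraMap L M ξ) = u)
    (h3 : val P (algebraMap L M η) = val P' (algebraMap L M η)) : P = P' := by
  classical
  have hs := generic_sep m hξ H hsep Λ hΛ u hu
  set HΩ := H.map (mapRingHom (algebraMap F Ω)) with hHΩ
  have hmon : (HΩ.map (evalRingHom u)).Monic := (hH.map _).map _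
  have hdeg : (HΩ.map (evalRingHom u)).natDegree = H.natDegree := by
    rw [(hH.map _).natDegree_map, hH.natDegree_map]
  refine place_unique (Step.transc m hξ) (model_integral m η H hH h0) u
    (HΩ.map (evalRingHom u)).roots.toFinset ?_ ?_ P P' h1 h2 h1' h2' h3
  · rw [Multiset.toFinset_card_of_nodup (nodup_roots hs),
      splits_iff_card_roots.1 (IsAlgClosed.splits (HΩ.map (evalRingHom u))), hdeg]
    exact model_finrank m η H hH h0 htop
  · intro v hv
    have hv' : (HΩ.map (evalRingHom u)).eval v = 0 :=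
      (mem_roots hmon.ne_zero).1 (Multiset.mem_toFinset.1 hv)
    exact model_ker m ξ η H hH h0 h u v (by rw [ev2_id]; exact hv')

end Mod

end SF379P
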