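import Mathlib
import Pool.Agent.Helper379.SFPlace2

/-! GP: generic stable divisors (theorem GP of the interface). -/

set_option autoImplicit false
set_option linter.unusedSectionVars false

open Polynomial Module FF IntermediateField IsDedekindDomain SF

namespace SF379P

/-- The finite set of coefficients of a bivariate polynomial. -/
theorem exists_countable_ext {Ω : Type} [Field Ω] (Λ : Subfield Ω) (hΛ : Countable Λ)
    (G : Polynomial (Polynomial Ω)) :
    ∃ Λ' : Subfield Ω, Countable Λ' ∧ Λ ≤ Λ' ∧ ∀ i j, (G.coeff i).coeff j ∈ Λ' := by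
  let s : Set Ω := (Λ : Set Ω) ∪ Set.range (fun p : ℕ × ℕ => (G.coeff p.1).coeff p.2)
  have hs : s.Countable := (Set.to_countable _).union (Set.countable_range _)
  refine ⟨Subfield.closure s, SF379.countable_subfieldClosure s hs,
    fun x hx => Subfield.subset_closure (Or.inl hx),
    fun i j => Subfield.subset_closure (Or.inr ⟨(i, j), rfl⟩)⟩

/-- The degree divides. -/
theorem finrank_dvd {E Ω : Type} [Field E] [Field Ω] [Algebra E Ω] (E' : Type) [Field E']
    [Algebra E E'] [FiniteDimensional E E'] (φ : E' →ₐ[E] Ω) (c c' : E') :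
    0 < finrank (algebraMap E Ω).fieldRange
      (IntermediateField.adjoin (algebraMap E Ω).fieldRange ({φ c, φ c'} : Set Ω)) ∧
    finrank (algebraMap E Ω).fieldRange
      (IntermediateField.adjoin (algebraMap E Ω).fieldRange ({φ c, φ c'} : Set Ω)) ∣
      finrank E E' := by
  set E0 := (algebraMap E Ω).fieldRange with hE0
  let T : IntermediateField E0 Ω := (φ : E' →+* Ω).fieldRange.toIntermediateField (by
    rintro ⟨_, e, rfl⟩
    exact ⟨algebraMap E E' e, φ.commutes e⟩)
  let i : E ≃+* E0 := RingEquiv.ofBijective (algebraMap E Ω).rangeRestrictField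
    ⟨RingHom.injective _, by rintro ⟨_, ⟨e, rfl⟩⟩; exact ⟨e, rfl⟩⟩
  let j : E' ≃+* T := RingEquiv.ofBijective (φ : E' →+* Ω).rangeRestrictField
    ⟨RingHom.injective _, by rintro ⟨_, ⟨e, rfl⟩⟩; exact ⟨e, rfl⟩⟩
  have h1 : finrank E E' = finrank E0 T := by
    refine Algebra.finrank_eq_of_equiv_equiv i j ?_
    ext e
    exact (φ.commutes e).symm
  have hpos : 0 < finrank E0 T := by rw [← h1]; exact finrank_pos
  have hT : FiniteDimensional E0 T := FiniteDimensional.of_finrank_pos hpos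
  have hle : IntermediateField.adjoin E0 ({φ c, φ c'} : Set Ω) ≤ T := by
    rw [IntermediateField.adjoin_le_iff]
    rintro x (rfl | hx)
    · exact ⟨c, rfl⟩
    · rw [Set.mem_singleton_iff] at hx
      subst hx
      exact ⟨c', rfl⟩
  have hdvd := IntermediateField.finrank_dvd_of_le_right hle
  refine ⟨Nat.pos_of_dvd_of_pos hdvd hpos, ?_⟩
  rw [h1]
  exact hdvd

theorem map_ev2 {F L M : Type*} [CommRing F] [CommRing L] [CommRing M]
    (f : F →+* L) (h : L →+* M) (x y : L) (Q : Polynomial (Polynomial F)) :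
    h (ev2 f x y Q) = ev2 (h.comp f) (h x) (h y) Q := by
  have : h.comp (ev2 f x y) = ev2 (h.comp f) (h x) (h y) := by
    apply Polynomial.ringHom_ext'
    · apply Polynomial.ringHom_ext'
      · ext c
        simp only [RingHom.comp_apply, ev2_C_C]
      · simp only [RingHom.comp_apply, ev2_C_X]
    · simp only [RingHom.comp_apply, ev2_X]
  exact congrArg (fun t : Polynomial (Polynomial F) →+* M => t Q) this

theorem GP' (k : Type) [Field k]
    (E : Type) [Field E] [CharZero E] [Algebra (LaurentSeries k) E]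
    [Algebra.IsAlgebraic (LaurentSeries k) E]
    (Ω L M : Type) [Field Ω] [Algebra E Ω] [Field L] [Algebra E L] [Field M] [Algebra Ω M]
    [Algebra L M] [IsAlgClosed Ω] [CharZero Ω] [Algebra.IsAlgebraic E Ω] [IsFF E L] [IsFF Ω M]
    (m : Model E Ω L M) (ξ : L) (hξ : Transcendental E ξ) (d : ℤ)
    (hLOC : ∀ s : Finset L, ∃ (E' : Type) (_ : Field E') (_ : Algebra E E'),
      FiniteDimensional E E' ∧ (finrank E E' : ℤ) ∣ d ∧
      Nonempty (Algebra.adjoin E (s : Set L) →ₐ[E] E')) :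
    ∃ I : ℕ, 0 < I ∧ (I : ℤ) ∣ d ∧ ∀ (Λ : Subfield Ω), Countable Λ → ∀ t : ℕ,
      ∃ Z : Finset (Place Ω M), Z.card = t * I ∧
        (∀ σ : Ω ≃ₐ[E] Ω, ∀ P ∈ Z, m.actP σ P ∈ Z) ∧
        (∀ P ∈ Z, P.Reg (algebraMap L M ξ)) ∧
        AlgebraicIndependent Λ (fun P : Z => val P.1 (algebraMap L M ξ)) := by
  classical
  let _ : Algebra (LaurentSeries k) Ω :=
    ((algebraMap E Ω).comp (algebraMap (LaurentSeries k) E)).toAlgebra
  have : IsScalarTower (LaurentSeries k) E Ω := IsScalarTower.of_algebraMap_eq (fun _ => rfl)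
  have : Algebra.IsAlgebraic (LaurentSeries k) Ω :=
    Algebra.IsAlgebraic.trans (LaurentSeries k) E Ω
  obtain ⟨η, H, hmon, hpos, h0, hind, htop, hint, hsep⟩ := plane_model (L := L) hξ
  have hder : ev2 (algebraMap E L) ξ η H.derivative ≠ 0 := by
    intro hd
    have h1 : H.derivative = 0 := by
      refine hind _ ?_ hd
      have := degree_derivative_lt hmon.ne_zero
      rwa [degree_eq_natDegree hmon.ne_zero] at this
    have := derivative_eq_zero.1 h1
    omega
  obtain ⟨E', _, _, hfin, hdvd, ⟨φ0⟩⟩ :=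
    hLOC {ξ, η, (ev2 (algebraMap E L) ξ η H.derivative)⁻¹}
  set w := ev2 (algebraMap E L) ξ η H.derivative with hw
  let S0 := Algebra.adjoin E ((({ξ, η, w⁻¹} : Finset L) : Set L))
  have hξS : ξ ∈ S0 := Algebra.subset_adjoin (by simp)
  have hηS : η ∈ S0 := Algebra.subset_adjoin (by simp)
  have hwS : w⁻¹ ∈ S0 := Algebra.subset_adjoin (by simp)
  let x' : E' := φ0 ⟨ξ, hξS⟩
  let y' : E' := φ0 ⟨η, hηS⟩
  have key : ∀ Q : Polynomial (Polynomial E),
      ∃ t : S0, (t : L) = ev2 (algebraMap E L) ξ η Q ∧ φ0 t = ev2 (algebraMap E E') x' y' Q := by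
    intro Q
    refine ⟨ev2 (algebraMap E S0) ⟨ξ, hξS⟩ ⟨η, hηS⟩ Q, ?_, ?_⟩
    · exact map_ev2 (algebraMap E S0) (S0.val : S0 →+* L) ⟨ξ, hξS⟩ ⟨η, hηS⟩ Q
    · have h1 := map_ev2 (algebraMap E S0) (φ0 : S0 →+* E') ⟨ξ, hξS⟩ ⟨η, hηS⟩ Q
      have h2 : (φ0 : S0 →+* E').comp (algebraMap E S0) = algebraMap E E' := φ0.comp_algebraMap
      rw [h2] at h1
      exact h1
  have hx0 : ev2 (algebraMap E E') x' y' H = 0 := by
    obtain ⟨t, ht1, ht2⟩ := key H
    rw [← ht2]
    have : t = 0 := Subtype.ext (by rw [ht1, h0]; rfl)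
    rw [this, map_zero]
  have hx1 : ev2 (algebraMap E E') x' y' H.derivative ≠ 0 := by
    obtain ⟨t, ht1, ht2⟩ := key H.derivative
    rw [← ht2]
    intro h1
    have h2 : t * ⟨w⁻¹, hwS⟩ = 1 := Subtype.ext (by
      change (t : L) * w⁻¹ = 1
      rw [ht1]
      exact mul_inv_cancel₀ hder)
    have h3 := congrArg φ0 h2
    rw [map_mul, h1, zero_mul, map_one] at h3
    exact zero_ne_one h3
  have : Algebra.IsAlgebraic E E' := inferInstance
  let ι : E' →ₐ[E] Ω := IsAlgClosed.lift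
  obtain ⟨hI0, hI1⟩ := finrank_dvd E' ι x' y'
  set E0 := (algebraMap E Ω).fieldRange with hE0
  set G := H.map (mapRingHom (algebraMap E Ω)) with hG
  have hev : ∀ Q : Polynomial (Polynomial E),
      ((Q.map (mapRingHom (algebraMap E Ω))).map (evalRingHom (ι x'))).eval (ι y') =
        ι (ev2 (algebraMap E E') x' y' Q) := by
    intro Q
    rw [← ev2_id]
    exact ev2_nat (algebraMap E E') (RingHom.id Ω) (ι : E' →+* Ω) (algebraMap E Ω)
      (by rw [RingHom.id_comp]; exact ι.comp_algebraMap.symm) x' y' Q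
  have hc0 : (G.map (evalRingHom (ι x'))).eval (ι y') = 0 := by
    rw [hG, hev, hx0, map_zero]
  have hc1 : (G.map (evalRingHom (ι x'))).derivative.eval (ι y') ≠ 0 := by
    rw [derivative_map, hG, derivative_map, hev]
    exact (map_ne_zero_iff _ ι.injective).2 hx1
  refine ⟨_, hI0, (Int.natCast_dvd_natCast.2 hI1).trans hdvd, fun Λ hΛ t => ?_⟩
  obtain ⟨Λ', hΛ'c, hle, hcoef⟩ := exists_countable_ext Λ hΛ G
  obtain ⟨S, hScard, hSstab, hS0, hSind⟩ := SF379.stable_points k E0
    (fun r => ⟨algebraMap _ E r, rfl⟩) G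
    (fun i j => by rw [hG, coeff_map, coe_mapRingHom, coeff_map]; exact ⟨_, rfl⟩)
    (ι x') (ι y') hc0 hc1 Λ' hΛ'c t
  have hξM := Step.transc m hξ
  choose Pf hP1 hP2 hP3 hP4 using fun s : S =>
    exists_place_of_point hξM (model_integral m η H hmon h0) s.1.1 s.1.2
      (model_ker m ξ η H hmon h0 hind s.1.1 s.1.2 (by rw [ev2_id]; exact hS0 s.1 s.2))
  have hinj : Function.Injective Pf := by
    intro s s' hss
    apply Subtype.ext
    apply Prod.ext
    · rw [← hP2 s, ← hP2 s', hss]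
    · rw [← hP4 s, ← hP4 s', hss]
  refine ⟨Finset.univ.image Pf, ?_, ?_, ?_, ?_⟩
  · rw [Finset.card_image_of_injective _ hinj, Finset.card_univ, Fintype.card_coe, hScard]
  · intro σ P hP
    obtain ⟨s, _, rfl⟩ := Finset.mem_image.1 hP
    have hs' : (σ s.1.1, σ s.1.2) ∈ S := by
      refine hSstab (σ : Ω ≃+* Ω) ?_ s.1 s.2
      rintro _ ⟨e, rfl⟩
      exact σ.commutes e
    let s' : S := ⟨(σ s.1.1, σ s.1.2), hs'⟩
    have hreg : (m.actP σ (Pf s)).Reg (algebraMap L M ξ) := by
      have := (m.reg_actP σ (Pf s) (algebraMap L M ξ)).2 (hP1 s)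
      rwa [m.act_L] at this
    have hv1 : val (m.actP σ (Pf s)) (algebraMap L M ξ) = σ s.1.1 := by
      have := m.val_actP σ (Pf s) (hP1 s)
      rwa [m.act_L, hP2] at this
    have hv2 : val (m.actP σ (Pf s)) (algebraMap L M η) = σ s.1.2 := by
      have := m.val_actP σ (Pf s) (hP3 s)
      rwa [m.act_L, hP4] at this
    have : m.actP σ (Pf s) = Pf s' :=
      generic_place_unique m hξ η H hmon h0 hind htop hsep Λ' hcoef (σ s.1.1)
        (hSind.transcendental s') _ _ hreg hv1 (hP1 s') (hP2 s') (by rw [hv2, hP4])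
    rw [this]
    exact Finset.mem_image_of_mem _ (Finset.mem_univ _)
  · intro P hP
    obtain ⟨s, _, rfl⟩ := Finset.mem_image.1 hP
    exact hP1 s
  · let g : (Finset.univ.image Pf) → S := fun P => (Finset.mem_image.1 P.2).choose
    have hg : ∀ P, Pf (g P) = P.1 := fun P => (Finset.mem_image.1 P.2).choose_spec.2
    have hginj : Function.Injective g := by
      intro s t hst
      apply Subtype.ext
      rw [← hg s, ← hg t, hst]
    have h5 := hSind.comp g hginj
    have h6 : ((fun s : S => s.1.1) ∘ g) =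
        fun P : (Finset.univ.image Pf) => val P.1 (algebraMap L M ξ) := by
      funext P
      rw [← hg P, hP2]
      rfl
    rw [h6] at h5
    exact AlgebraicIndependent.of_ringHom_of_comp_eq (Subfield.inclusion hle) (RingHom.id Ω) h5
      (Subfield.inclusion hle).injective rfl

end SF379P

namespace SF

theorem GP (k : Type) [Field k] [CharZero k] (z x : k) (hk : IsK k z x)
    (E : Type) [Field E] [CharZero E] [Algebra (LaurentSeries k) E] (hE : IsE k x E)
    (Ω L M : Type) [Field Ω] [Algebra E Ω] [Field L] [Algebra E L] [Field M] [Algebra Ω M] [Algebra L M]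
    [IsAlgClosed Ω] [CharZero Ω] [Algebra.IsAlgebraic E Ω] [IsFF E L] [IsFF Ω M] (m : Model E Ω L M)
    (ξ : L) (hξ : Transcendental E ξ) (d : ℤ)
    (hLOC : ∀ s : Finset L, ∃ (E' : Type) (_ : Field E') (_ : Algebra E E'), FiniteDimensional E E' ∧
      (finrank E E' : ℤ) ∣ d ∧ Nonempty (Algebra.adjoin E (s : Set L) →ₐ[E] E')) :
    ∃ I : ℕ, 0 < I ∧ (I : ℤ) ∣ d ∧ ∀ (Λ : Subfield Ω), Countable Λ → ∀ t : ℕ,
      ∃ Z : Finset (Place Ω M), Z.card = t * I ∧
        (∀ σ : Ω ≃ₐ[E] Ω, ∀ P ∈ Z, m.actP σ P ∈ Z) ∧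
        (∀ P ∈ Z, P.Reg (algebraMap L M ξ)) ∧
        AlgebraicIndependent Λ (fun P : Z => val P.1 (algebraMap L M ξ)) :=
  have := hE.alg
  SF379P.GP' k E Ω L M m ξ hξ d hLOC

end SF
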