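import Mathlib

set_option autoImplicit false

namespace SqDist

open MeasureTheory Set

/-- Euclidean three-space. -/
abbrev R3 := EuclideanSpace ℝ (Fin 3)

/-- `Q (r₁, …, rₙ) = ∏_{k < j} |r_j - r_k|²`. -/
noncomputable def Q {n : ℕ} (r : Fin n → R3) : ℝ := ∏ k : Fin n, ∏ j ∈ Finset.Ioi k, ‖r j - r k‖ ^ 2

/-- The surface measure of the unit sphere, as a measure on `ℝ³`. -/
noncomputable def sph : Measure R3 := ((volume : Measure R3).toSphere).map Subtype.val

/-- Lebesgue measure restricted to the closed unit ball. -/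
noncomputable def bal : Measure R3 := volume.restrict (Metric.closedBall (0 : R3) 1)

/-- Value of a polynomial at a point of `ℝ³`. -/
noncomputable def ev (P : MvPolynomial (Fin 3) ℝ) (x : R3) : ℝ := MvPolynomial.eval (fun i => x i) P

/-- The Laplacian of a polynomial. -/
noncomputable def lap (P : MvPolynomial (Fin 3) ℝ) : MvPolynomial (Fin 3) ℝ :=
  ∑ i, MvPolynomial.pderiv i (MvPolynomial.pderiv i P)

theorem sph_finite : IsFiniteMeasure sph := by
  unfold sph
  infer_instance

theorem sph_ae : ∀ᵐ w ∂sph, ‖w‖ = 1 := by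
  have hm : Measurable (Subtype.val : Metric.sphere (0 : R3) 1 → R3) := measurable_subtype_coe
  rw [sph, ae_map_iff hm.aemeasurable (measurableSet_eq_fun measurable_norm measurable_const)]
  refine Filter.Eventually.of_forall (fun x => ?_)
  have := x.2
  rwa [mem_sphere_zero_iff_norm] at this

theorem ev_continuous (P : MvPolynomial (Fin 3) ℝ) : Continuous (ev P) := by
  have h1 : Continuous (fun x : R3 => (fun i => x i : Fin 3 → ℝ)) := by fun_prop
  exact (MvPolynomial.continuous_eval P).comp h1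

theorem polar_lintegral (f : R3 → ENNReal) (hf : Measurable f) :
    ∫⁻ x, f x = ∫⁻ w, (∫⁻ t in Ioi (0 : ℝ), ENNReal.ofReal (t ^ 2) * f (t • w)) ∂sph := by
  have hfin : Module.finrank ℝ R3 - 1 = 2 := by
    rw [finrank_euclideanSpace_fin]
  have h0 : ∫⁻ x, f x = ∫⁻ x in ({0}ᶜ : Set R3), f x := by
    rw [restrict_compl_singleton]
  have h1 : ∫⁻ x in ({0}ᶜ : Set R3), f x =
      ∫⁻ x : ({0}ᶜ : Set R3), f x ∂((volume : Measure R3).comap Subtype.val) :=
    (lintegral_subtype_comap (measurableSet_singleton (0 : R3)).compl f).symm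
  have h2 : ∫⁻ x : ({0}ᶜ : Set R3), f x ∂((volume : Measure R3).comap Subtype.val) =
      ∫⁻ p : Metric.sphere (0 : R3) 1 × Ioi (0 : ℝ), f ((p.2 : ℝ) • (p.1 : R3))
        ∂((volume : Measure R3).toSphere.prod (Measure.volumeIoiPow (Module.finrank ℝ R3 - 1))) := by
    rw [← (volume : Measure R3).measurePreserving_homeomorphUnitSphereProd.lintegral_comp_emb
      (Homeomorph.measurableEmbedding _)
      (fun p : Metric.sphere (0 : R3) 1 × Ioi (0 : ℝ) => f ((p.2 : ℝ) • (p.1 : R3)))]
    refine lintegral_congr (fun x => ?_)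
    congr 1
    have hx : ‖(x : R3)‖ ≠ 0 := norm_ne_zero_iff.2 x.2
    rw [homeomorphUnitSphereProd_apply_snd_coe, homeomorphUnitSphereProd_apply_fst_coe, smul_smul,
      mul_inv_cancel₀ hx, one_smul]
  have hm : Measurable (fun p : Metric.sphere (0 : R3) 1 × Ioi (0 : ℝ) =>
      f ((p.2 : ℝ) • (p.1 : R3))) := by
    apply hf.comp
    exact (measurable_subtype_coe.comp measurable_snd).smul
      (measurable_subtype_coe.comp measurable_fst)
  rw [h0, h1, h2, hfin, lintegral_prod _ hm.aemeasurable]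
  unfold sph
  rw [(MeasurableEmbedding.subtype_coe Metric.isClosed_sphere.measurableSet).lintegral_map]
  refine lintegral_congr (fun w => ?_)
  unfold Measure.volumeIoiPow
  rw [lintegral_withDensity_eq_lintegral_mul]
  · rw [← lintegral_subtype_comap measurableSet_Ioi]
    rfl
  · fun_prop
  · exact hm.comp (measurable_const.prodMk measurable_id)

theorem polar_integral (f : R3 → ℝ) (hf : Continuous f) (hi : Integrable f) :
    ∫ x, f x = ∫ w, (∫ t in Ioi (0 : ℝ), t ^ 2 * f (t • w)) ∂sph := by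
  have hdim : Module.finrank ℝ R3 - 1 = 2 := by
    rw [finrank_euclideanSpace_fin]
  have hmp := (volume : Measure R3).measurePreserving_homeomorphUnitSphereProd
  rw [hdim] at hmp
  set G : Metric.sphere (0 : R3) 1 × Ioi (0 : ℝ) → ℝ := fun p => f (p.2.1 • p.1.1) with hG
  have hGf : ∀ x : ({(0 : R3)}ᶜ : Set R3), G (homeomorphUnitSphereProd R3 x) = f x.1 := by
    intro x
    have hx : ‖(x : R3)‖ ≠ 0 := norm_ne_zero_iff.2 x.2
    show f (((homeomorphUnitSphereProd R3 x).2 : ℝ) • ((homeomorphUnitSphereProd R3 x).1 : R3)) = _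
    rw [homeomorphUnitSphereProd_apply_snd_coe, homeomorphUnitSphereProd_apply_fst_coe,
      smul_smul, mul_inv_cancel₀ hx, one_smul]
  have hemb : MeasurableEmbedding (homeomorphUnitSphereProd R3) :=
    Homeomorph.measurableEmbedding _
  have hfi : Integrable (fun x : ({(0 : R3)}ᶜ : Set R3) => f x.1)
      ((volume : Measure R3).comap Subtype.val) := by
    have h1 : IntegrableOn f ({(0 : R3)}ᶜ) := hi.integrableOn
    rw [integrableOn_iff_comap_subtypeVal (measurableSet_singleton _).compl] at h1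
    exact h1
  have hGi : Integrable G ((volume : Measure R3).toSphere.prod (Measure.volumeIoiPow 2)) := by
    rw [← hmp.integrable_comp_emb hemb]
    refine hfi.congr (Filter.Eventually.of_forall fun x => ?_)
    exact (hGf x).symm
  have e1 : ∫ x, f x = ∫ p, G p ∂((volume : Measure R3).toSphere.prod (Measure.volumeIoiPow 2)) := by
    rw [← hmp.integral_comp hemb]
    simp only [hGf]
    rw [integral_subtype_comap (measurableSet_singleton _).compl f]
    rw [MeasureTheory.restrict_compl_singleton]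
  rw [e1, integral_prod G hGi]
  unfold sph
  rw [(MeasurableEmbedding.subtype_coe Metric.isClosed_sphere.measurableSet).integral_map]
  refine integral_congr_ae (Filter.Eventually.of_forall fun w => ?_)
  show ∫ t : Ioi (0 : ℝ), f (t.1 • w.1) ∂(Measure.volumeIoiPow 2) = _
  simp only [Measure.volumeIoiPow, ENNReal.ofReal]
  rw [integral_withDensity_eq_integral_smul]
  · rw [integral_subtype_comap measurableSet_Ioi
      (fun t : ℝ => Real.toNNReal (t ^ 2) • f (t • (w : R3)))]
    refine setIntegral_congr_fun measurableSet_Ioi fun t ht => ?_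
    show Real.toNNReal (t ^ 2) • f (t • (w : R3)) = t ^ 2 * f (t • (w : R3))
    rw [NNReal.smul_def, Real.coe_toNNReal _ (by positivity), smul_eq_mul]
  · exact (measurable_subtype_coe.pow_const _).real_toNNReal

theorem sph_norm_ae : ∀ᵐ w ∂sph, ‖w‖ = 1 := by
  have h : sph {w : R3 | ¬ ‖w‖ = 1} = 0 := by
    have hm : MeasurableSet {w : R3 | ¬ ‖w‖ = 1} :=
      (measurableSet_eq_fun measurable_norm measurable_const).compl
    unfold sph
    rw [Measure.map_apply measurable_subtype_coe hm]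
    have : (Subtype.val ⁻¹' {w : R3 | ¬ ‖w‖ = 1} : Set (Metric.sphere (0 : R3) 1)) = ∅ := by
      ext x
      simp
    rw [this]
    simp
  exact h

theorem polar_bal (f : R3 → ENNReal) (hf : Measurable f) :
    ∫⁻ x, f x ∂bal = ∫⁻ w, (∫⁻ t in Ioo (0 : ℝ) 1, ENNReal.ofReal (t ^ 2) * f (t • w)) ∂sph := by
  have hcb : MeasurableSet (Metric.closedBall (0 : R3) 1) := Metric.isClosed_closedBall.measurableSet
  unfold bal
  rw [← lintegral_indicator hcb, polar_lintegral _ (hf.indicator hcb)]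
  apply lintegral_congr_ae
  filter_upwards [sph_norm_ae] with w hw
  have h1 : ∫⁻ t in Ioo (0 : ℝ) 1, ENNReal.ofReal (t ^ 2) * f (t • w)
      = ∫⁻ t in Ioc (0 : ℝ) 1, ENNReal.ofReal (t ^ 2) * f (t • w) :=
    setLIntegral_congr Ioo_ae_eq_Ioc
  rw [h1, ← lintegral_indicator measurableSet_Ioi, ← lintegral_indicator measurableSet_Ioc]
  apply lintegral_congr
  intro t
  by_cases h0 : 0 < t
  · by_cases h2 : t ≤ 1
    · rw [indicator_of_mem (show t ∈ Ioi (0:ℝ) from h0), indicator_of_mem (show t ∈ Ioc (0:ℝ) 1 from ⟨h0, h2⟩)]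
      rw [indicator_of_mem]
      rw [Metric.mem_closedBall, dist_zero_right, norm_smul, hw, mul_one, Real.norm_eq_abs, abs_of_pos h0]
      exact h2
    · rw [indicator_of_mem (show t ∈ Ioi (0:ℝ) from h0), indicator_of_notMem (show t ∉ Ioc (0:ℝ) 1 from fun h => h2 h.2)]
      rw [indicator_of_notMem, mul_zero]
      rw [Metric.mem_closedBall, dist_zero_right, norm_smul, hw, mul_one, Real.norm_eq_abs, abs_of_pos h0]
      exact h2
  · rw [indicator_of_notMem (show t ∉ Ioi (0:ℝ) from h0), indicator_of_notMem (show t ∉ Ioc (0:ℝ) 1 from fun h => h0 h.1)]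

theorem bal_homog_aux (a : ℕ) :
    ∫⁻ t in Ioo (0 : ℝ) 1, ENNReal.ofReal (t ^ (a + 2)) = ENNReal.ofReal (1 / (a + 3)) := by
  have hint : IntegrableOn (fun t : ℝ => t ^ (a + 2)) (Ioo (0 : ℝ) 1) := by
    have h1 : IntervalIntegrable (fun t : ℝ => t ^ (a + 2)) volume 0 1 :=
      (continuous_pow (a + 2)).intervalIntegrable 0 1
    rw [intervalIntegrable_iff_integrableOn_Ioo_of_le zero_le_one] at h1
    exact h1
  rw [← ofReal_integral_eq_lintegral_ofReal hint]
  · congr 1
    rw [← integral_Ioc_eq_integral_Ioo, ← intervalIntegral.integral_of_le zero_le_one, integral_pow]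
    push_cast
    rw [one_pow, zero_pow (by omega), sub_zero]
    congr 1
    ring
  · refine (ae_restrict_iff' measurableSet_Ioo).2 (Filter.Eventually.of_forall fun t ht => ?_)
    exact pow_nonneg ht.1.le _

theorem bal_homog (a : ℕ) (f : R3 → ENNReal) (hf : Measurable f)
    (h : ∀ t : ℝ, 0 < t → t < 1 → ∀ w : R3, ‖w‖ = 1 → f (t • w) = ENNReal.ofReal (t ^ a) * f w) :
    ∫⁻ x, f x ∂bal = ENNReal.ofReal (1 / (a + 3)) * ∫⁻ w, f w ∂sph := by
  rw [polar_bal f hf, ← lintegral_const_mul _ hf]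
  apply lintegral_congr_ae
  filter_upwards [sph_ae] with w hw
  have h1 : ∫⁻ t in Ioo (0 : ℝ) 1, ENNReal.ofReal (t ^ 2) * f (t • w) =
      ∫⁻ t in Ioo (0 : ℝ) 1, ENNReal.ofReal (t ^ (a + 2)) * f w := by
    apply setLIntegral_congr_fun measurableSet_Ioo
    intro t ht
    show ENNReal.ofReal (t ^ 2) * f (t • w) = ENNReal.ofReal (t ^ (a + 2)) * f w
    rw [h t ht.1 ht.2 w hw, ← mul_assoc, ← ENNReal.ofReal_mul (by positivity)]
    congr 2
    ring
  rw [h1, lintegral_mul_const _ (by fun_prop), bal_homog_aux]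

theorem gauss_integrable_bound (P : MvPolynomial (Fin 3) ℝ) :
    ∃ C d : ℝ, 0 ≤ C ∧ 0 ≤ d ∧ ∀ x : R3, |ev P x| ≤ C * Real.exp (d * ‖x‖) := by
  induction P using MvPolynomial.induction_on with
  | C a =>
    refine ⟨|a|, 0, abs_nonneg a, le_rfl, fun x => ?_⟩
    unfold ev
    rw [MvPolynomial.eval_C]
    simp
  | add p q hp hq =>
    obtain ⟨C1, d1, hC1, hd1, h1⟩ := hp
    obtain ⟨C2, d2, hC2, hd2, h2⟩ := hq
    refine ⟨C1 + C2, d1 + d2, by positivity, by positivity, fun x => ?_⟩
    have e0 : ev (p + q) x = ev p x + ev q x := by unfold ev; rw [map_add]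
    have hx : 0 ≤ ‖x‖ := norm_nonneg x
    have e1 : Real.exp (d1 * ‖x‖) ≤ Real.exp ((d1 + d2) * ‖x‖) :=
      Real.exp_le_exp.2 (by nlinarith [mul_nonneg hd2 hx])
    have e2 : Real.exp (d2 * ‖x‖) ≤ Real.exp ((d1 + d2) * ‖x‖) :=
      Real.exp_le_exp.2 (by nlinarith [mul_nonneg hd1 hx])
    rw [e0]
    calc |ev p x + ev q x| ≤ |ev p x| + |ev q x| := abs_add_le _ _
      _ ≤ C1 * Real.exp (d1 * ‖x‖) + C2 * Real.exp (d2 * ‖x‖) := add_le_add (h1 x) (h2 x)
      _ ≤ C1 * Real.exp ((d1 + d2) * ‖x‖) + C2 * Real.exp ((d1 + d2) * ‖x‖) :=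
        add_le_add (mul_le_mul_of_nonneg_left e1 hC1) (mul_le_mul_of_nonneg_left e2 hC2)
      _ = (C1 + C2) * Real.exp ((d1 + d2) * ‖x‖) := by ring
  | mul_X p i hp =>
    obtain ⟨C1, d1, hC1, hd1, h1⟩ := hp
    refine ⟨C1, d1 + 1, hC1, by positivity, fun x => ?_⟩
    have e0 : ev (p * MvPolynomial.X i) x = ev p x * x i := by
      unfold ev; rw [map_mul, MvPolynomial.eval_X]
    have e1 : |x i| ≤ Real.exp ‖x‖ := by
      have h3 : |x i| ≤ ‖x‖ := by
        have := PiLp.norm_apply_le x i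
        rwa [Real.norm_eq_abs] at this
      have h4 := Real.add_one_le_exp ‖x‖
      linarith
    rw [e0, abs_mul]
    calc |ev p x| * |x i| ≤ (C1 * Real.exp (d1 * ‖x‖)) * Real.exp ‖x‖ :=
          mul_le_mul (h1 x) e1 (abs_nonneg _) (by positivity)
      _ = C1 * Real.exp ((d1 + 1) * ‖x‖) := by
        rw [mul_assoc, ← Real.exp_add]; congr 2; ring

theorem gauss_integrable (P : MvPolynomial (Fin 3) ℝ) :
    Integrable (fun x : R3 => ev P x * Real.exp (-‖x‖ ^ 2)) := by
  obtain ⟨C, d, hC, hd, h⟩ := gauss_integrable_bound P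
  have hG : Integrable (fun x : R3 => Real.exp (-(1 / 2) * ‖x‖ ^ 2)) := by
    have h1 := (GaussianFourier.integrable_cexp_neg_mul_sq_norm_add (V := R3)
      (b := (1 / 2 : ℂ)) (by norm_num) 0 0).norm
    refine h1.congr (Filter.Eventually.of_forall fun x => ?_)
    simp only [Complex.norm_exp]
    congr 1
    simp [← Complex.ofReal_pow]
  refine Integrable.mono' (hG.const_mul (C * Real.exp (d ^ 2 / 2))) ?_ ?_
  · exact ((ev_continuous P).mul (by fun_prop)).aestronglyMeasurable
  · refine Filter.Eventually.of_forall fun x => ?_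
    rw [norm_mul, Real.norm_eq_abs, Real.norm_eq_abs, abs_of_pos (Real.exp_pos _)]
    have hx : 0 ≤ ‖x‖ := norm_nonneg x
    calc |ev P x| * Real.exp (-‖x‖ ^ 2) ≤ (C * Real.exp (d * ‖x‖)) * Real.exp (-‖x‖ ^ 2) :=
          mul_le_mul_of_nonneg_right (h x) (Real.exp_pos _).le
      _ = C * Real.exp (d * ‖x‖ + -‖x‖ ^ 2) := by rw [mul_assoc, ← Real.exp_add]
      _ ≤ C * Real.exp (d ^ 2 / 2 + -(1 / 2) * ‖x‖ ^ 2) := by
        refine mul_le_mul_of_nonneg_left (Real.exp_le_exp.2 ?_) hC
        nlinarith [sq_nonneg (d - ‖x‖)]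
      _ = C * Real.exp (d ^ 2 / 2) * Real.exp (-(1 / 2) * ‖x‖ ^ 2) := by
        rw [Real.exp_add, mul_assoc]

theorem ev_smul_hom (P : MvPolynomial (Fin 3) ℝ) (d : ℕ) (hP : P.IsHomogeneous d) (t : ℝ) (w : R3) :
    ev P (t • w) = t ^ d * ev P w := by
  unfold ev
  rw [MvPolynomial.eval_eq', MvPolynomial.eval_eq', Finset.mul_sum]
  refine Finset.sum_congr rfl (fun s hs => ?_)
  have h1 : ∑ i, s i = d := by
    have := hP (MvPolynomial.mem_support_iff.1 hs)
    rw [← this, Finsupp.weight_apply, Finsupp.sum_fintype]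
    · simp
    · simp
  have h2 : (∏ i, ((t • w : R3) i) ^ s i) = t ^ d * ∏ i, (w i) ^ s i := by
    rw [← h1, ← Finset.prod_pow_eq_pow_sum, ← Finset.prod_mul_distrib]
    refine Finset.prod_congr rfl (fun i _ => ?_)
    show (t * w i) ^ s i = _
    rw [mul_pow]
  rw [h2]
  ring

theorem gauss_polar (P : MvPolynomial (Fin 3) ℝ) (d : ℕ) (hP : P.IsHomogeneous d) :
    ∫ x : R3, ev P x * Real.exp (-‖x‖ ^ 2)
      = (∫ t in Ioi (0 : ℝ), t ^ (d + 2) * Real.exp (-t ^ 2)) * ∫ w, ev P w ∂sph := by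
  have hc : Continuous (fun x : R3 => ev P x * Real.exp (-‖x‖ ^ 2)) :=
    (ev_continuous P).mul (by fun_prop)
  rw [polar_integral _ hc (gauss_integrable P), ← integral_const_mul]
  refine integral_congr_ae ?_
  filter_upwards [sph_ae] with w hw
  rw [← integral_mul_const]
  refine setIntegral_congr_fun measurableSet_Ioi ?_
  intro t ht
  have ht' : (0 : ℝ) < t := ht
  show t ^ 2 * (ev P (t • w) * Real.exp (-‖t • w‖ ^ 2)) = t ^ (d + 2) * Real.exp (-t ^ 2) * ev P w
  rw [ev_smul_hom P d hP, norm_smul, hw, mul_one, Real.norm_of_nonneg ht'.le]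
  ring

theorem gauss_ibp_lineDeriv (P : MvPolynomial (Fin 3) ℝ) (i : Fin 3) (x : R3) :
    HasLineDerivAt ℝ (ev P) (ev (MvPolynomial.pderiv i P) x) x (EuclideanSpace.single i (1 : ℝ)) := by
  unfold HasLineDerivAt
  induction P using MvPolynomial.induction_on with
  | C a =>
    have : (fun t : ℝ => ev (MvPolynomial.C a) (x + t • EuclideanSpace.single i (1 : ℝ))) =
        fun _ => a := by
      funext t; simp [ev]
    rw [this]
    have h2 : ev (MvPolynomial.pderiv i (MvPolynomial.C a)) x = 0 := by simp [ev]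
    rw [h2]
    exact hasDerivAt_const _ _
  | add p q hp hq =>
    have : (fun t : ℝ => ev (p + q) (x + t • EuclideanSpace.single i (1 : ℝ))) =
        fun t => ev p (x + t • EuclideanSpace.single i (1 : ℝ)) +
          ev q (x + t • EuclideanSpace.single i (1 : ℝ)) := by
      funext t; simp [ev]
    rw [this]
    have h2 : ev (MvPolynomial.pderiv i (p + q)) x =
        ev (MvPolynomial.pderiv i p) x + ev (MvPolynomial.pderiv i q) x := by simp [ev]
    rw [h2]
    exact hp.add hq
  | mul_X p j hp =>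
    have : (fun t : ℝ => ev (p * MvPolynomial.X j) (x + t • EuclideanSpace.single i (1 : ℝ))) =
        fun t => ev p (x + t • EuclideanSpace.single i (1 : ℝ)) *
          (x j + t * (EuclideanSpace.single i (1 : ℝ) : R3) j) := by
      funext t; simp [ev]
    rw [this]
    have h2 : ev (MvPolynomial.pderiv i (p * MvPolynomial.X j)) x =
        ev (MvPolynomial.pderiv i p) x * (x j + 0 * (EuclideanSpace.single i (1 : ℝ) : R3) j) +
          ev p (x + (0 : ℝ) • EuclideanSpace.single i (1 : ℝ)) *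
            ((EuclideanSpace.single i (1 : ℝ) : R3) j) := by
      rw [zero_smul, add_zero, zero_mul, add_zero]
      simp only [ev, Derivation.leibniz, smul_eq_mul, map_add, map_mul, MvPolynomial.eval_X,
        MvPolynomial.pderiv_X]
      rw [add_comm]
      congr 1
      · ring
      · rw [PiLp.single_apply]
        by_cases hij : j = i
        · subst hij; simp
        · rw [Pi.single_eq_of_ne hij, if_neg hij]
          simp
    rw [h2]
    have h3 : HasDerivAt (fun t : ℝ => x j + t * (EuclideanSpace.single i (1 : ℝ) : R3) j)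
        ((EuclideanSpace.single i (1 : ℝ) : R3) j) 0 := by
      simpa using ((hasDerivAt_id (0 : ℝ)).mul_const
        ((EuclideanSpace.single i (1 : ℝ) : R3) j)).const_add (x j)
    exact hp.mul h3

theorem gauss_ibp_gauss (i : Fin 3) (x : R3) :
    HasLineDerivAt ℝ (fun x : R3 => Real.exp (-‖x‖ ^ 2))
      (Real.exp (-‖x‖ ^ 2) * (-(2 * x i))) x (EuclideanSpace.single i (1 : ℝ)) := by
  unfold HasLineDerivAt
  have h1 : ∀ t : ℝ, -‖x + t • (EuclideanSpace.single i (1 : ℝ) : R3)‖ ^ 2 =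
      -(‖x‖ ^ 2 + t * (2 * x i) + t ^ 2) := by
    intro t
    rw [norm_add_sq_real, inner_smul_right, norm_smul]
    have : inner ℝ x (EuclideanSpace.single i (1 : ℝ) : R3) = x i := by
      simp [EuclideanSpace.inner_single_right]
    rw [this]
    simp
    ring
  have h2 : (fun t : ℝ => Real.exp (-‖x + t • (EuclideanSpace.single i (1 : ℝ) : R3)‖ ^ 2)) =
      fun t => Real.exp (-(‖x‖ ^ 2 + t * (2 * x i) + t ^ 2)) := by
    funext t; rw [h1]
  rw [h2]
  have h3 : HasDerivAt (fun t : ℝ => -(‖x‖ ^ 2 + t * (2 * x i) + t ^ 2)) (-(2 * x i)) 0 := by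
    have h4 : HasDerivAt (fun t : ℝ => ‖x‖ ^ 2 + t * (2 * x i) + t ^ 2) (2 * x i) 0 := by
      have h5 : HasDerivAt (fun t : ℝ => ‖x‖ ^ 2 + t * (2 * x i)) (2 * x i) 0 := by
        simpa using ((hasDerivAt_id (0 : ℝ)).mul_const (2 * x i)).const_add (‖x‖ ^ 2)
      have h6 : HasDerivAt (fun t : ℝ => t ^ 2) 0 0 := by
        simpa using hasDerivAt_pow 2 (0 : ℝ)
      have h7 := h5.add h6
      rw [add_zero] at h7
      exact h7
    exact h4.neg
  have h6 := h3.exp
  simpa using h6

theorem gauss_ibp (P : MvPolynomial (Fin 3) ℝ) (i : Fin 3) :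
    ∫ x : R3, ev (MvPolynomial.pderiv i P) x * Real.exp (-‖x‖ ^ 2)
      = 2 * ∫ x : R3, ev (MvPolynomial.X i * P) x * Real.exp (-‖x‖ ^ 2) := by
  have key := integral_bilinear_hasLineDerivAt_right_eq_neg_left_of_integrable
    (μ := (volume : Measure R3)) (B := ContinuousLinearMap.mul ℝ ℝ)
    (f := ev P) (f' := fun x => ev (MvPolynomial.pderiv i P) x)
    (g := fun x : R3 => Real.exp (-‖x‖ ^ 2))
    (g' := fun x : R3 => Real.exp (-‖x‖ ^ 2) * (-(2 * x i)))
    (v := EuclideanSpace.single i (1 : ℝ))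
    (by
      simpa using gauss_integrable (MvPolynomial.pderiv i P))
    (by
      have h := (gauss_integrable (MvPolynomial.X i * P)).const_mul (-2)
      refine h.congr (Filter.Eventually.of_forall fun x => ?_)
      simp [ev]
      ring)
    (by simpa using gauss_integrable P)
    (fun x _ => gauss_ibp_lineDeriv P i x)
    (fun x _ => gauss_ibp_gauss i x)
  simp only [ContinuousLinearMap.mul_apply'] at key
  have e : ∫ x : R3, ev P x * (Real.exp (-‖x‖ ^ 2) * (-(2 * x i))) =
      -(2 * ∫ x : R3, ev (MvPolynomial.X i * P) x * Real.exp (-‖x‖ ^ 2)) := by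
    rw [← integral_const_mul, ← integral_neg]
    refine integral_congr_ae (Filter.Eventually.of_forall fun x => ?_)
    simp [ev]
    ring
  rw [e] at key
  linarith

theorem moment_val (a : ℕ) : ∫ t in Ioi (0 : ℝ), t ^ a * Real.exp (-t ^ 2) =
    (1 / 2) * Real.Gamma (((a : ℝ) + 1) / 2) := by
  rw [← integral_rpow_mul_exp_neg_rpow (p := 2) (q := (a : ℝ)) (by norm_num)
    (by have : (0 : ℝ) ≤ a := Nat.cast_nonneg a
        linarith)]
  refine setIntegral_congr_fun measurableSet_Ioi fun t _ => ?_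
  simp only [Real.rpow_natCast]
  congr 3
  exact (Real.rpow_natCast t 2).symm

theorem moment_rec (a : ℕ) :
    ∫ t in Ioi (0 : ℝ), t ^ (a + 2) * Real.exp (-t ^ 2)
      = ((a : ℝ) + 1) / 2 * ∫ t in Ioi (0 : ℝ), t ^ a * Real.exp (-t ^ 2) := by
  rw [moment_val, moment_val]
  have h : ((a + 2 : ℕ) : ℝ) + 1 = ((a : ℝ) + 1) + 2 := by push_cast; ring
  rw [h]
  have h2 : (((a : ℝ) + 1) + 2) / 2 = ((a : ℝ) + 1) / 2 + 1 := by ring
  rw [h2, Real.Gamma_add_one (by positivity)]
  ring

theorem moment_pos (a : ℕ) : 0 < ∫ t in Ioi (0 : ℝ), t ^ a * Real.exp (-t ^ 2) := by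
  have h := integral_rpow_mul_exp_neg_rpow (p := 2) (q := (a : ℝ)) (by norm_num)
    (by have : (0 : ℝ) ≤ a := Nat.cast_nonneg a; linarith)
  have e : ∫ t in Ioi (0 : ℝ), t ^ a * Real.exp (-t ^ 2)
      = ∫ x in Ioi (0 : ℝ), x ^ (a : ℝ) * Real.exp (-x ^ (2 : ℝ)) := by
    congr 1
    ext t
    rw [Real.rpow_natCast]
    norm_num
  rw [e, h]
  have : (0 : ℝ) < ((a : ℝ) + 1) / 2 := by positivity
  have := Real.Gamma_pos_of_pos this
  positivity

theorem sph_X_mul (P : MvPolynomial (Fin 3) ℝ) (d : ℕ) (hP : P.IsHomogeneous d) (i : Fin 3) :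
    ((d : ℝ) + 2) * ∫ w, ev (MvPolynomial.X i * P) w ∂sph
      = ∫ w, ev (MvPolynomial.pderiv i P) w ∂sph := by
  have hX : (MvPolynomial.X i * P).IsHomogeneous (1 + d) :=
    (MvPolynomial.isHomogeneous_X ℝ i).mul hP
  have h1 := gauss_polar _ _ hX
  have h2 := gauss_ibp P i
  rcases Nat.eq_zero_or_pos d with hd | hd
  · subst hd
    have hc : MvPolynomial.pderiv i P = 0 := by
      have h3 : P.totalDegree = 0 := by
        have := hP.totalDegree_le
        omega
      rw [MvPolynomial.totalDegree_eq_zero_iff_eq_C] at h3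
      rw [h3, MvPolynomial.pderiv_C]
    have hz : ∀ w : R3, ev (0 : MvPolynomial (Fin 3) ℝ) w = 0 := fun w => by
      simp [ev]
    rw [hc] at h2 ⊢
    simp only [hz, zero_mul, integral_zero] at h2 ⊢
    have h4 := moment_pos (1 + 0 + 2)
    rw [h1] at h2
    have h5 : ∫ w, ev (MvPolynomial.X i * P) w ∂sph = 0 := by
      have h6 : (∫ t in Ioi (0 : ℝ), t ^ (1 + 0 + 2) * Real.exp (-t ^ 2)) *
          ∫ w, ev (MvPolynomial.X i * P) w ∂sph = 0 := by linarith
      rcases mul_eq_zero.1 h6 with h | h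
      · exact absurd h h4.ne'
      · exact h
    rw [h5, mul_zero]
  · obtain ⟨k, rfl⟩ : ∃ k, d = k + 1 := ⟨d - 1, by omega⟩
    have hp : (MvPolynomial.pderiv i P).IsHomogeneous k := by
      have := hP.pderiv (i := i)
      simpa using this
    have h3 := gauss_polar _ _ hp
    have h4 := moment_rec (k + 2)
    have h5 := moment_pos (k + 2)
    have e1 : 1 + (k + 1) + 2 = k + 2 + 2 := by ring
    rw [e1] at h1
    rw [h3, h1, h4] at h2
    push_cast at h2 ⊢
    have h6 : (∫ t in Ioi (0 : ℝ), t ^ (k + 2) * Real.exp (-t ^ 2)) *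
        (∫ w, ev (MvPolynomial.pderiv i P) w ∂sph) =
        (∫ t in Ioi (0 : ℝ), t ^ (k + 2) * Real.exp (-t ^ 2)) *
        (((k : ℝ) + 1 + 2) * ∫ w, ev (MvPolynomial.X i * P) w ∂sph) := by
      rw [h2]; ring
    exact (mul_left_cancel₀ h5.ne' h6).symm

theorem ev_integrable (P : MvPolynomial (Fin 3) ℝ) : Integrable (ev P) sph := by
  have := sph_finite
  obtain ⟨C, hC⟩ := (isCompact_closedBall (0 : R3) 1).exists_bound_of_continuousOn
    (ev_continuous P).continuousOn
  refine Integrable.of_bound (ev_continuous P).aestronglyMeasurable C ?_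
  filter_upwards [sph_ae] with w hw
  exact hC w (by rw [mem_closedBall_zero_iff]; exact hw.le)

theorem sph_lap (P : MvPolynomial (Fin 3) ℝ) (d : ℕ) (hP : P.IsHomogeneous d) :
    (d : ℝ) * ((d : ℝ) + 1) * ∫ w, ev P w ∂sph = ∫ w, ev (lap P) w ∂sph := by
  rcases Nat.eq_zero_or_pos d with rfl | hd
  · have h0 := hP
    rw [← MvPolynomial.totalDegree_zero_iff_isHomogeneous,
      MvPolynomial.totalDegree_eq_zero_iff_eq_C] at h0
    have h1 : lap P = 0 := by
      rw [h0]
      simp [lap]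
    rw [h1]
    simp [ev]
  · obtain ⟨m, rfl⟩ : ∃ m, d = m + 1 := ⟨d - 1, by omega⟩
    have h1 : ∀ i : Fin 3, (MvPolynomial.pderiv i P).IsHomogeneous m := fun i => by
      have := hP.pderiv (i := i)
      simpa using this
    have h2 : ∀ i : Fin 3, ((m : ℝ) + 2) * ∫ w, ev (MvPolynomial.X i * MvPolynomial.pderiv i P) w ∂sph
        = ∫ w, ev (MvPolynomial.pderiv i (MvPolynomial.pderiv i P)) w ∂sph :=
      fun i => sph_X_mul _ m (h1 i) i
    have h3 : ∫ w, ev (lap P) w ∂sph =
        ∑ i, ∫ w, ev (MvPolynomial.pderiv i (MvPolynomial.pderiv i P)) w ∂sph := by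
      rw [← integral_finsetSum _ fun i _ => ev_integrable _]
      refine integral_congr_ae (Filter.Eventually.of_forall fun w => ?_)
      simp [ev, lap]
    have h4 : ∑ i, ∫ w, ev (MvPolynomial.X i * MvPolynomial.pderiv i P) w ∂sph =
        ((m : ℝ) + 1) * ∫ w, ev P w ∂sph := by
      rw [← integral_finsetSum _ fun i _ => ev_integrable _, ← integral_const_mul]
      refine integral_congr_ae (Filter.Eventually.of_forall fun w => ?_)
      have h5 := congrArg (MvPolynomial.eval fun i => w i) hP.sum_X_mul_pderiv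
      rw [map_sum] at h5
      have h6 : ∑ i, ev (MvPolynomial.X i * MvPolynomial.pderiv i P) w =
          MvPolynomial.eval (fun i => w i) ((m + 1) • P) := h5
      show ∑ i, ev (MvPolynomial.X i * MvPolynomial.pderiv i P) w = ((m : ℝ) + 1) * ev P w
      rw [h6]
      simp [ev]
    rw [h3, ← Finset.sum_congr rfl fun i _ => h2 i, ← Finset.mul_sum, h4]
    push_cast
    ring

theorem sph_mono_hom (P : MvPolynomial (Fin 3) ℝ) (d : ℕ) (hP : P.IsHomogeneous d) (t : ℝ)
    (w : R3) : ev P (t • w) = t ^ d * ev P w := by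
  unfold ev
  rw [MvPolynomial.eval_eq', MvPolynomial.eval_eq', Finset.mul_sum]
  apply Finset.sum_congr rfl
  intro m hm
  have hdeg : ∑ i, m i = d := by
    have h1 := hP (MvPolynomial.mem_support_iff.1 hm)
    have h3 : Finsupp.degree m = d := by
      rw [Finsupp.degree_eq_weight_one]
      exact h1
    rw [← h3, Finsupp.degree_eq_sum]
  have h2 : ∀ i, (t • w) i = t * w i := fun i => rfl
  simp only [h2, mul_pow, Finset.prod_mul_distrib, Finset.prod_pow_eq_pow_sum, hdeg]
  ring

theorem sph_mono_int (P : MvPolynomial (Fin 3) ℝ) : Integrable (ev P) sph := by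
  have := sph_finite
  obtain ⟨C, hC⟩ := (isCompact_closedBall (0 : R3) 1).exists_bound_of_continuousOn
    (ev_continuous P).continuousOn
  refine Integrable.of_bound (ev_continuous P).aestronglyMeasurable C ?_
  filter_upwards [sph_ae] with w hw
  exact hC w (by simp [hw])

theorem sph_mono_evsum {ι : Type*} (s : Finset ι) (f : ι → MvPolynomial (Fin 3) ℝ) (x : R3) :
    ev (∑ i ∈ s, f i) x = ∑ i ∈ s, ev (f i) x := by
  unfold ev
  rw [map_sum]

theorem sph_mono_lapsum {ι : Type*} (s : Finset ι) (f : ι → MvPolynomial (Fin 3) ℝ) :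
    lap (∑ i ∈ s, f i) = ∑ i ∈ s, lap (f i) := by
  unfold lap
  simp only [map_sum]
  rw [Finset.sum_comm]

theorem sph_mono_lap2 (P : MvPolynomial (Fin 3) ℝ) (d : ℕ) (hP : P.IsHomogeneous d) (t : ℝ)
    (w : R3) : t ^ 2 * ev (lap P) (t • w) = t ^ d * ev (lap P) w := by
  have h1 : (lap P).IsHomogeneous (d - 1 - 1) := by
    unfold lap
    exact MvPolynomial.IsHomogeneous.sum _ _ _ (fun i _ => (hP.pderiv (i := i)).pderiv (i := i))
  by_cases hd : 2 ≤ d
  · rw [sph_mono_hom _ _ h1, ← mul_assoc, ← pow_add]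
    congr 2
    omega
  · have h0 : lap P = 0 := by
      unfold lap
      apply Finset.sum_eq_zero
      intro i _
      have h2 := hP.pderiv (i := i)
      have h3 : d - 1 = 0 := by omega
      rw [h3, ← MvPolynomial.totalDegree_zero_iff_isHomogeneous,
        MvPolynomial.totalDegree_eq_zero_iff_eq_C] at h2
      rw [h2, MvPolynomial.pderiv_C]
    rw [h0]
    simp [ev]

theorem sph_mono (P : MvPolynomial (Fin 3) ℝ) (hP : ∀ x, 0 ≤ ev (lap P) x) (t : ℝ) (ht0 : 0 ≤ t)
    (ht1 : t ≤ 1) : ∫ w, ev P (t • w) ∂sph ≤ ∫ w, ev P w ∂sph := by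
  set D := P.totalDegree + 1 with hD
  let Pd : ℕ → MvPolynomial (Fin 3) ℝ := fun d => MvPolynomial.homogeneousComponent d P
  have hsum : ∑ d ∈ Finset.range D, Pd d = P := MvPolynomial.sum_homogeneousComponent P
  have hhom : ∀ d, (Pd d).IsHomogeneous d :=
    fun d => MvPolynomial.homogeneousComponent_isHomogeneous d P
  let m : ℕ → ℝ := fun d => ∫ w, ev (Pd d) w ∂sph
  have hM : ∀ s : ℝ, ∫ w, ev P (s • w) ∂sph = ∑ d ∈ Finset.range D, m d * s ^ d := by
    intro s
    have h1 : ∀ w, ev P (s • w) = ∑ d ∈ Finset.range D, s ^ d * ev (Pd d) w := by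
      intro w
      conv_lhs => rw [← hsum]
      rw [sph_mono_evsum]
      exact Finset.sum_congr rfl fun d _ => sph_mono_hom _ _ (hhom d) s w
    simp_rw [h1]
    rw [integral_finsetSum _ (fun d _ => (sph_mono_int (Pd d)).const_mul _)]
    refine Finset.sum_congr rfl fun d _ => ?_
    rw [integral_const_mul, mul_comm]
  have hlap : ∀ s : ℝ, 0 ≤ ∑ d ∈ Finset.range D, (d : ℝ) * m d * (((d + 1 : ℕ) : ℝ) * s ^ d) := by
    intro s
    have h1 : ∀ w, s ^ 2 * ev (lap P) (s • w) =
        ∑ d ∈ Finset.range D, s ^ d * ev (lap (Pd d)) w := by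
      intro w
      conv_lhs => rw [← hsum]
      rw [sph_mono_lapsum, sph_mono_evsum, Finset.mul_sum]
      exact Finset.sum_congr rfl fun d _ => sph_mono_lap2 _ _ (hhom d) s w
    have h2 : ∫ w, s ^ 2 * ev (lap P) (s • w) ∂sph =
        ∑ d ∈ Finset.range D, (d : ℝ) * m d * (((d + 1 : ℕ) : ℝ) * s ^ d) := by
      simp_rw [h1]
      rw [integral_finsetSum _ (fun d _ => (sph_mono_int (lap (Pd d))).const_mul _)]
      refine Finset.sum_congr rfl fun d _ => ?_
      rw [integral_const_mul, ← sph_lap (Pd d) d (hhom d)]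
      push_cast
      ring
    rw [← h2]
    exact integral_nonneg fun w => mul_nonneg (sq_nonneg s) (hP _)
  -- the auxiliary function N
  let N : ℝ → ℝ := fun s => ∑ d ∈ Finset.range D, (d : ℝ) * m d * s ^ (d + 1)
  have hN : ∀ s, HasDerivAt N (∑ d ∈ Finset.range D, (d : ℝ) * m d * (((d + 1 : ℕ) : ℝ) * s ^ d))
      s := by
    intro s
    have h1 : ∀ d ∈ Finset.range D, HasDerivAt (fun s : ℝ => (d : ℝ) * m d * s ^ (d + 1))
        ((d : ℝ) * m d * (((d + 1 : ℕ) : ℝ) * s ^ d)) s := by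
      intro d _
      have := (hasDerivAt_pow (d + 1) s).const_mul ((d : ℝ) * m d)
      simpa using this
    exact HasDerivAt.fun_sum h1
  have hNmono : Monotone N := by
    apply monotone_of_deriv_nonneg
    · exact fun s => (hN s).differentiableAt
    · intro s
      rw [(hN s).deriv]
      exact hlap s
  have hN0 : N 0 = 0 := by
    simp [N]
  let M : ℝ → ℝ := fun s => ∑ d ∈ Finset.range D, m d * s ^ d
  have hMd : ∀ s, HasDerivAt M (∑ d ∈ Finset.range D, m d * ((d : ℝ) * s ^ (d - 1))) s := by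
    intro s
    have h1 : ∀ d ∈ Finset.range D, HasDerivAt (fun s : ℝ => m d * s ^ d)
        (m d * ((d : ℝ) * s ^ (d - 1))) s := by
      intro d _
      exact (hasDerivAt_pow d s).const_mul (m d)
    exact HasDerivAt.fun_sum h1
  have hMmono : MonotoneOn M (Icc 0 1) := by
    apply monotoneOn_of_deriv_nonneg (convex_Icc 0 1)
    · exact fun s _ => (hMd s).continuousAt.continuousWithinAt
    · exact fun s _ => (hMd s).differentiableAt.differentiableWithinAt
    · intro s hs
      rw [interior_Icc] at hs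
      rw [(hMd s).deriv]
      have h1 : s ^ 2 * ∑ d ∈ Finset.range D, m d * ((d : ℝ) * s ^ (d - 1)) = N s := by
        simp only [N]
        rw [Finset.mul_sum]
        refine Finset.sum_congr rfl fun d _ => ?_
        rcases d with _ | d
        · simp
        · simp only [Nat.add_sub_cancel]
          ring
      have h2 : 0 ≤ N s := by
        rw [← hN0]
        exact hNmono hs.1.le
      have h3 : 0 < s ^ 2 := pow_pos hs.1 2
      by_contra hcon
      push Not at hcon
      have h4 := mul_neg_of_pos_of_neg h3 hcon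
      rw [h1] at h4
      linarith
  have h1 := hMmono ⟨ht0, ht1⟩ ⟨zero_le_one, le_refl 1⟩ ht1
  have h2 := hM 1
  simp only [one_smul] at h2
  rw [hM t, h2]
  exact h1

/-- The polynomial `∏_k |x - y_k|²`. -/
noncomputable def PY {m : ℕ} (Y : Fin m → R3) : MvPolynomial (Fin 3) ℝ :=
  ∏ k, ∑ i, (MvPolynomial.X i - MvPolynomial.C (Y k i)) ^ 2

theorem ev_PY {m : ℕ} (Y : Fin m → R3) (x : R3) : ev (PY Y) x = ∏ k, ‖x - Y k‖ ^ 2 := by
  unfold ev PY
  rw [map_prod]
  refine Finset.prod_congr rfl fun k _ => ?_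
  rw [map_sum, EuclideanSpace.real_norm_sq_eq]
  refine Finset.sum_congr rfl fun i _ => ?_
  simp

theorem logsub_mul (f g : MvPolynomial (Fin 3) ℝ)
    (hf : ∀ x, ∑ i, (ev (MvPolynomial.pderiv i f) x) ^ 2 ≤ ev f x * ev (lap f) x)
    (hg : ∀ x, ∑ i, (ev (MvPolynomial.pderiv i g) x) ^ 2 ≤ ev g x * ev (lap g) x) (x : R3) :
    ∑ i, (ev (MvPolynomial.pderiv i (f * g)) x) ^ 2 ≤ ev (f * g) x * ev (lap (f * g)) x := by
  have h1 := hf x
  have h2 := hg x
  simp only [ev, lap, Fin.sum_univ_three, map_add, map_mul, Derivation.leibniz, smul_eq_mul] at h1 h2 ⊢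
  generalize MvPolynomial.eval (fun i => x i) f = F at *
  generalize MvPolynomial.eval (fun i => x i) g = G at *
  generalize MvPolynomial.eval (fun i => x i) (MvPolynomial.pderiv 0 f) = F0 at *
  generalize MvPolynomial.eval (fun i => x i) (MvPolynomial.pderiv 1 f) = F1 at *
  generalize MvPolynomial.eval (fun i => x i) (MvPolynomial.pderiv 2 f) = F2 at *
  generalize MvPolynomial.eval (fun i => x i) (MvPolynomial.pderiv 0 g) = G0 at *
  generalize MvPolynomial.eval (fun i => x i) (MvPolynomial.pderiv 1 g) = G1 at *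
  generalize MvPolynomial.eval (fun i => x i) (MvPolynomial.pderiv 2 g) = G2 at *
  generalize MvPolynomial.eval (fun i => x i) (MvPolynomial.pderiv 0 (MvPolynomial.pderiv 0 f)) = F00 at *
  generalize MvPolynomial.eval (fun i => x i) (MvPolynomial.pderiv 1 (MvPolynomial.pderiv 1 f)) = F11 at *
  generalize MvPolynomial.eval (fun i => x i) (MvPolynomial.pderiv 2 (MvPolynomial.pderiv 2 f)) = F22 at *
  generalize MvPolynomial.eval (fun i => x i) (MvPolynomial.pderiv 0 (MvPolynomial.pderiv 0 g)) = G00 at *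
  generalize MvPolynomial.eval (fun i => x i) (MvPolynomial.pderiv 1 (MvPolynomial.pderiv 1 g)) = G11 at *
  generalize MvPolynomial.eval (fun i => x i) (MvPolynomial.pderiv 2 (MvPolynomial.pderiv 2 g)) = G22 at *
  have h3 : 0 ≤ G ^ 2 * (F * (F00 + F11 + F22) - (F0 ^ 2 + F1 ^ 2 + F2 ^ 2)) :=
    mul_nonneg (sq_nonneg _) (by linarith)
  have h4 : 0 ≤ F ^ 2 * (G * (G00 + G11 + G22) - (G0 ^ 2 + G1 ^ 2 + G2 ^ 2)) :=
    mul_nonneg (sq_nonneg _) (by linarith)
  nlinarith [h3, h4]

theorem lpy_d1 (y : R3) (i : Fin 3) :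
    MvPolynomial.pderiv i (∑ j, (MvPolynomial.X j - MvPolynomial.C (y j)) ^ 2 : MvPolynomial (Fin 3) ℝ) =
      MvPolynomial.C 2 * (MvPolynomial.X i - MvPolynomial.C (y i)) := by
  rw [map_sum, Finset.sum_eq_single i]
  · rw [pow_two, Derivation.leibniz, map_sub, MvPolynomial.pderiv_X_self, MvPolynomial.pderiv_C]
    simp only [smul_eq_mul, sub_zero, mul_one]
    rw [show (MvPolynomial.C 2 : MvPolynomial (Fin 3) ℝ) = 2 from rfl]
    ring
  · intro j _ hj
    rw [pow_two, Derivation.leibniz, map_sub, MvPolynomial.pderiv_X_of_ne hj, MvPolynomial.pderiv_C]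
    simp
  · intro h
    exact absurd (Finset.mem_univ i) h

theorem lpy_d2 (y : R3) (i : Fin 3) :
    MvPolynomial.pderiv i (MvPolynomial.C 2 * (MvPolynomial.X i - MvPolynomial.C (y i)) : MvPolynomial (Fin 3) ℝ) =
      MvPolynomial.C 2 := by
  rw [Derivation.leibniz, map_sub, MvPolynomial.pderiv_X_self, MvPolynomial.pderiv_C, MvPolynomial.pderiv_C]
  simp

theorem lpy_one (y : R3) (x : R3) :
    ∑ i, (ev (MvPolynomial.pderiv i (∑ j, (MvPolynomial.X j - MvPolynomial.C (y j)) ^ 2)) x) ^ 2 ≤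
      ev (∑ j, (MvPolynomial.X j - MvPolynomial.C (y j)) ^ 2) x *
        ev (lap (∑ j, (MvPolynomial.X j - MvPolynomial.C (y j)) ^ 2)) x := by
  unfold lap
  simp only [lpy_d1, lpy_d2]
  unfold ev
  simp only [Fin.sum_univ_three, map_add, map_pow, map_sub, map_mul, MvPolynomial.eval_X, MvPolynomial.eval_C]
  nlinarith [sq_nonneg (x 0 - y 0), sq_nonneg (x 1 - y 1), sq_nonneg (x 2 - y 2)]

theorem logsub_PY {m : ℕ} (Y : Fin m → R3) (x : R3) :
    ∑ i, (ev (MvPolynomial.pderiv i (PY Y)) x) ^ 2 ≤ ev (PY Y) x * ev (lap (PY Y)) x := by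
  classical
  have key : ∀ s : Finset (Fin m), ∀ x : R3,
      ∑ i, (ev (MvPolynomial.pderiv i (∏ k ∈ s, ∑ i, (MvPolynomial.X i - MvPolynomial.C (Y k i)) ^ 2)) x) ^ 2 ≤
        ev (∏ k ∈ s, ∑ i, (MvPolynomial.X i - MvPolynomial.C (Y k i)) ^ 2) x *
          ev (lap (∏ k ∈ s, ∑ i, (MvPolynomial.X i - MvPolynomial.C (Y k i)) ^ 2)) x := by
    intro s
    induction s using Finset.induction_on with
    | empty =>
      intro x
      simp [lap, ev]
    | insert k s hk ih =>
      intro x
      rw [Finset.prod_insert hk]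
      exact logsub_mul _ _ (lpy_one (Y k)) ih x
  exact key Finset.univ x

theorem lap_PY_nonneg {m : ℕ} (Y : Fin m → R3) (x : R3) : 0 ≤ ev (lap (PY Y)) x := by
  have hd : Dense (Set.range Y)ᶜ := (Set.finite_range Y).countable.dense_compl ℝ
  have hcl : IsClosed {x : R3 | 0 ≤ ev (lap (PY Y)) x} :=
    isClosed_le continuous_const (ev_continuous _)
  have hsub : (Set.range Y)ᶜ ⊆ {x : R3 | 0 ≤ ev (lap (PY Y)) x} := by
    intro y hy
    have hpos : 0 < ev (PY Y) y := by
      rw [ev_PY]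
      apply Finset.prod_pos
      intro k _
      have : y - Y k ≠ 0 := by
        intro h
        exact hy ⟨k, (sub_eq_zero.1 h).symm⟩
      have := norm_pos_iff.2 this
      positivity
    have h1 := logsub_PY Y y
    have h2 : 0 ≤ ∑ i, (ev (MvPolynomial.pderiv i (PY Y)) y) ^ 2 :=
      Finset.sum_nonneg fun i _ => sq_nonneg _
    exact nonneg_of_mul_nonneg_right (h2.trans h1) hpos
  exact closure_minimal hsub hcl (hd x)

theorem cont_int899 {F : R3 → ℝ} (hF : Continuous F) (t : ℝ) :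
    Integrable (fun w => F (t • w)) sph := by
  haveI := sph_finite
  have hc : Continuous fun w : R3 => F (t • w) := hF.comp (continuous_const_smul t)
  obtain ⟨C, hC⟩ := (isCompact_closedBall (0 : R3) 1).exists_bound_of_continuousOn hc.continuousOn
  refine Integrable.of_bound hc.aestronglyMeasurable C ?_
  filter_upwards [sph_ae] with w hw
  exact hC w (by simp [hw])

theorem third899 : ∫⁻ t in Ioo (0 : ℝ) 1, ENNReal.ofReal (t ^ 2) = ENNReal.ofReal (1 / 3) := by
  have hint : Integrable (fun t : ℝ => t ^ 2) (volume.restrict (Ioo (0 : ℝ) 1)) :=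
    ((continuous_pow 2).integrableOn_Icc (a := 0) (b := 1)).mono_set Ioo_subset_Icc_self
  rw [← ofReal_integral_eq_lintegral_ofReal hint
    (Filter.Eventually.of_forall fun t => sq_nonneg t)]
  congr 1
  rw [← integral_Ioc_eq_integral_Ioo, ← intervalIntegral.integral_of_le zero_le_one, integral_pow]
  norm_num

theorem bal_le_sph {m : ℕ} (Y : Fin m → R3) :
    ∫⁻ x, ENNReal.ofReal (∏ k, ‖x - Y k‖ ^ 2) ∂bal
      ≤ ENNReal.ofReal (1 / 3) * ∫⁻ w, ENNReal.ofReal (∏ k, ‖w - Y k‖ ^ 2) ∂sph := by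
  haveI := sph_finite
  have hF : Continuous (ev (PY Y)) := ev_continuous _
  have hnn : ∀ x, 0 ≤ ev (PY Y) x := fun x => by
    rw [ev_PY]
    exact Finset.prod_nonneg fun k _ => sq_nonneg _
  simp only [← ev_PY]
  rw [polar_bal (fun x => ENNReal.ofReal (ev (PY Y) x))
    (ENNReal.measurable_ofReal.comp hF.measurable)]
  have hmeas : Measurable (Function.uncurry fun (w : R3) (t : ℝ) =>
      ENNReal.ofReal (t ^ 2) * ENNReal.ofReal (ev (PY Y) (t • w))) := by
    have h1 : Continuous fun z : R3 × ℝ => z.2 ^ 2 := by fun_prop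
    have h2 : Continuous fun z : R3 × ℝ => ev (PY Y) (z.2 • z.1) :=
      hF.comp (continuous_snd.smul continuous_fst)
    exact (ENNReal.measurable_ofReal.comp h1.measurable).mul
      (ENNReal.measurable_ofReal.comp h2.measurable)
  rw [lintegral_lintegral_swap hmeas.aemeasurable]
  have hle : ∀ t ∈ Ioo (0 : ℝ) 1,
      (∫⁻ w, ENNReal.ofReal (t ^ 2) * ENNReal.ofReal (ev (PY Y) (t • w)) ∂sph) ≤
      ENNReal.ofReal (t ^ 2) * ∫⁻ w, ENNReal.ofReal (ev (PY Y) w) ∂sph := by
    intro t ht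
    have h2 : Continuous fun w : R3 => ev (PY Y) (t • w) := hF.comp (continuous_const_smul t)
    rw [lintegral_const_mul _ (f := fun w => ENNReal.ofReal (ev (PY Y) (t • w)))
      (ENNReal.measurable_ofReal.comp h2.measurable)]
    refine mul_le_mul' le_rfl ?_
    have h3 := cont_int899 hF t
    have h4 : Integrable (fun w => ev (PY Y) w) sph := by
      simpa using cont_int899 hF 1
    rw [← ofReal_integral_eq_lintegral_ofReal h3 (Filter.Eventually.of_forall fun w => hnn _),
      ← ofReal_integral_eq_lintegral_ofReal h4 (Filter.Eventually.of_forall fun w => hnn _)]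
    exact ENNReal.ofReal_le_ofReal (sph_mono (PY Y) (lap_PY_nonneg Y) t ht.1.le ht.2.le)
  refine (setLIntegral_mono' measurableSet_Ioo hle).trans ?_
  rw [lintegral_mul_const _ (f := fun t : ℝ => ENNReal.ofReal (t ^ 2))
    (ENNReal.measurable_ofReal.comp (measurable_id.pow_const 2)), third899]

theorem pi_compare_cons {α : Type} [MeasurableSpace α] (n : ℕ) :
    Measurable (fun p : α × (Fin n → α) => (Fin.cons p.1 p.2 : Fin (n + 1) → α)) := by
  have h := (MeasurableEquiv.piFinSuccAbove (fun _ : Fin (n + 1) => α) 0).symm.measurable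
  have e : (fun p : α × (Fin n → α) => (Fin.cons p.1 p.2 : Fin (n + 1) → α)) =
      (MeasurableEquiv.piFinSuccAbove (fun _ : Fin (n + 1) => α) 0).symm := by
    funext p
    simp [MeasurableEquiv.piFinSuccAbove]
    rfl
  rw [e]
  exact h

theorem pi_compare_succ {α : Type} [MeasurableSpace α] (μ : Measure α) [SigmaFinite μ]
    (n : ℕ) (f : (Fin (n + 1) → α) → ENNReal) (hf : Measurable f) :
    ∫⁻ x, f x ∂(Measure.pi fun _ : Fin (n + 1) => μ) =
      ∫⁻ x, ∫⁻ t, f (Fin.cons t x) ∂μ ∂(Measure.pi fun _ : Fin n => μ) := by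
  have h := (measurePreserving_piFinSuccAbove (fun _ : Fin (n + 1) => μ) 0).symm
  have e1 := h.lintegral_comp hf
  rw [← e1]
  have e2 : ∀ p : α × (Fin n → α),
      f ((MeasurableEquiv.piFinSuccAbove (fun _ : Fin (n + 1) => α) 0).symm p) =
        f (Fin.cons p.1 p.2) := by
    intro p
    congr 1
    simp [MeasurableEquiv.piFinSuccAbove]
    rfl
  rw [lintegral_congr e2]
  exact lintegral_prod_symm (fun p : α × (Fin n → α) => f (Fin.cons p.1 p.2))
    ((hf.comp (pi_compare_cons n)).aemeasurable)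

theorem pi_compare {α : Type} [MeasurableSpace α] (μ ν : Measure α) [SigmaFinite μ] [SigmaFinite ν]
    (a : ENNReal) (n : ℕ) (f : (Fin n → α) → ENNReal) (hf : Measurable f)
    (h : ∀ (i : Fin n) (x : Fin n → α),
      ∫⁻ t, f (Function.update x i t) ∂μ ≤ a * ∫⁻ t, f (Function.update x i t) ∂ν) :
    ∫⁻ x, f x ∂(Measure.pi fun _ : Fin n => μ) ≤ a ^ n * ∫⁻ x, f x ∂(Measure.pi fun _ : Fin n => ν) := by
  rcases isEmpty_or_nonempty α with hα | ⟨⟨t0⟩⟩
  · cases n with
    | zero =>
      rw [Measure.pi_of_empty (fun _ : Fin 0 => μ), Measure.pi_of_empty (fun _ : Fin 0 => ν)]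
      simp
    | succ n =>
      have : IsEmpty (Fin (n + 1) → α) := ⟨fun x => hα.false (x 0)⟩
      rw [lintegral_of_isEmpty]
      exact zero_le
  · induction n with
    | zero =>
      rw [Measure.pi_of_empty (fun _ : Fin 0 => μ), Measure.pi_of_empty (fun _ : Fin 0 => ν)]
      simp
    | succ n ih =>
      rw [pi_compare_succ μ n f hf, pi_compare_succ ν n f hf]
      set g : (Fin n → α) → ENNReal := fun x => ∫⁻ t, f (Fin.cons t x) ∂ν with hg
      have hgm : Measurable g := by
        have : Measurable (fun p : (Fin n → α) × α => f (Fin.cons p.2 p.1)) :=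
          hf.comp ((pi_compare_cons n).comp measurable_swap)
        exact this.lintegral_prod_right'
      have h1 : ∀ x : Fin n → α, ∫⁻ t, f (Fin.cons t x) ∂μ ≤ a * g x := by
        intro x
        have := h 0 (Fin.cons t0 x)
        simp only [Fin.update_cons_zero] at this
        exact this
      have h2 : ∀ (i : Fin n) (x : Fin n → α),
          ∫⁻ s, g (Function.update x i s) ∂μ ≤ a * ∫⁻ s, g (Function.update x i s) ∂ν := by
        intro i x
        have hm : Measurable (Function.uncurry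
            (fun (s t : α) => f (Fin.cons t (Function.update x i s)))) := by
          have : Measurable (fun p : α × α => (p.2, Function.update x i p.1)) :=
            measurable_snd.prodMk ((measurable_update x).comp measurable_fst)
          exact hf.comp ((pi_compare_cons n).comp this)
        have e1 : ∫⁻ s, g (Function.update x i s) ∂μ =
            ∫⁻ t, ∫⁻ s, f (Fin.cons t (Function.update x i s)) ∂μ ∂ν :=
          lintegral_lintegral_swap hm.aemeasurable
        have e2 : ∫⁻ s, g (Function.update x i s) ∂ν =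
            ∫⁻ t, ∫⁻ s, f (Fin.cons t (Function.update x i s)) ∂ν ∂ν :=
          lintegral_lintegral_swap hm.aemeasurable
        rw [e1, e2, ← lintegral_const_mul a]
        · refine lintegral_mono fun t => ?_
          have := h i.succ (Fin.cons t x)
          simp only [← Fin.cons_update] at this
          exact this
        · exact Measurable.lintegral_prod_left hm
      have h3 := ih g hgm h2
      calc ∫⁻ x, ∫⁻ t, f (Fin.cons t x) ∂μ ∂(Measure.pi fun _ : Fin n => μ)
          ≤ ∫⁻ x, a * g x ∂(Measure.pi fun _ : Fin n => μ) := lintegral_mono h1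
        _ = a * ∫⁻ x, g x ∂(Measure.pi fun _ : Fin n => μ) := lintegral_const_mul a hgm
        _ ≤ a * (a ^ n * ∫⁻ x, g x ∂(Measure.pi fun _ : Fin n => ν)) := by gcongr
        _ = a ^ (n + 1) * ∫⁻ x, g x ∂(Measure.pi fun _ : Fin n => ν) := by
          rw [pow_succ', mul_assoc]

theorem Q_measurable (n : ℕ) : Measurable (fun r : Fin n → R3 => ENNReal.ofReal (Q r)) := by
  refine ENNReal.measurable_ofReal.comp ?_
  apply Continuous.measurable
  unfold Q
  refine continuous_finsetProd _ fun k _ => continuous_finsetProd _ fun j _ => ?_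
  exact (((continuous_apply j).sub (continuous_apply k)).norm).pow 2

theorem upper_aux {m : ℕ} (i : Fin (m + 1)) (x : Fin (m + 1) → R3) :
    ∃ C : ℝ, 0 ≤ C ∧ ∀ t : R3, Q (Function.update x i t) =
      C * ∏ k : Fin m, ‖t - x (i.succAbove k)‖ ^ 2 := by
  refine ⟨∏ k : Fin (m + 1), ∏ j ∈ Finset.Ioi k,
    (if k = i ∨ j = i then (1 : ℝ) else ‖x j - x k‖ ^ 2), ?_, ?_⟩
  · refine Finset.prod_nonneg fun k _ => Finset.prod_nonneg fun j _ => ?_
    split_ifs
    · exact zero_le_one
    · positivity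
  · intro t
    have hF : ∀ k : Fin (m + 1), ∀ j ∈ Finset.Ioi k,
        ‖Function.update x i t j - Function.update x i t k‖ ^ 2 =
          (if k = i ∨ j = i then (1 : ℝ) else ‖x j - x k‖ ^ 2) *
            ((if k = i then ‖t - x j‖ ^ 2 else 1) * (if j = i then ‖t - x k‖ ^ 2 else 1)) := by
      intro k j hj
      rw [Finset.mem_Ioi] at hj
      by_cases hk : k = i
      · subst hk
        have hjk : j ≠ k := ne_of_gt hj
        rw [Function.update_of_ne hjk, Function.update_self]
        simp [hjk, norm_sub_rev]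
      · by_cases hji : j = i
        · subst hji
          rw [Function.update_of_ne hk, Function.update_self]
          simp [hk]
        · rw [Function.update_of_ne hk, Function.update_of_ne hji]
          simp [hk, hji]
    unfold Q
    rw [Finset.prod_congr rfl fun k _ => Finset.prod_congr rfl (hF k)]
    simp_rw [Finset.prod_mul_distrib]
    congr 1
    have hA : (∏ k : Fin (m + 1), ∏ j ∈ Finset.Ioi k, (if k = i then ‖t - x j‖ ^ 2 else (1 : ℝ))) =
        ∏ j : Fin (m + 1), (if i < j then ‖t - x j‖ ^ 2 else (1 : ℝ)) := by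
      rw [Finset.prod_eq_single i]
      · have h1 : (Finset.univ.filter fun j : Fin (m + 1) => i < j) = Finset.Ioi i := by
          ext j
          simp
        simp only [if_true]
        rw [← h1, Finset.prod_filter]
      · intro b _ hb
        simp [hb]
      · intro hh
        exact absurd (Finset.mem_univ _) hh
    have hB : (∏ k : Fin (m + 1), ∏ j ∈ Finset.Ioi k, (if j = i then ‖t - x k‖ ^ 2 else (1 : ℝ))) =
        ∏ k : Fin (m + 1), (if k < i then ‖t - x k‖ ^ 2 else (1 : ℝ)) := by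
      refine Finset.prod_congr rfl fun k _ => ?_
      rw [Finset.prod_ite_eq']
      simp
    rw [hA, hB, ← Finset.prod_mul_distrib, Fin.prod_univ_succAbove _ i]
    simp only [lt_self_iff_false, if_false, mul_one, one_mul]
    refine Finset.prod_congr rfl fun k _ => ?_
    rcases lt_or_gt_of_ne (Fin.succAbove_ne i k) with h | h
    · have h2 : ¬ i < i.succAbove k := not_lt_of_gt h
      simp [h, h2]
    · have h2 : ¬ i.succAbove k < i := not_lt_of_gt h
      simp [h, h2]

theorem upper (n : ℕ) :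
    ∫⁻ r, ENNReal.ofReal (Q r) ∂(Measure.pi fun _ : Fin n => bal)
      ≤ ENNReal.ofReal (1 / 3) ^ n * ∫⁻ r, ENNReal.ofReal (Q r) ∂(Measure.pi fun _ : Fin n => sph) := by
  have : IsFiniteMeasure sph := sph_finite
  have : SigmaFinite bal := by
    unfold bal
    infer_instance
  refine pi_compare bal sph (ENNReal.ofReal (1 / 3)) n (fun r => ENNReal.ofReal (Q r))
    (Q_measurable n) ?_
  intro i x
  cases n with
  | zero => exact i.elim0
  | succ m =>
    obtain ⟨C, hC, hQ⟩ := upper_aux i x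
    simp_rw [hQ, ENNReal.ofReal_mul hC]
    rw [lintegral_const_mul' _ _ ENNReal.ofReal_ne_top,
      lintegral_const_mul' _ _ ENNReal.ofReal_ne_top, mul_left_comm]
    gcongr
    exact bal_le_sph (fun k => x (i.succAbove k))

theorem norm_sub_ge (x y : R3) :
    ‖x‖ * ‖y‖ * ‖(‖x‖⁻¹ • x) - (‖y‖⁻¹ • y)‖ ^ 2 ≤ ‖x - y‖ ^ 2 := by
  by_cases hx : x = 0
  · subst hx; simp
  by_cases hy : y = 0
  · subst hy; simp
  have hx' : ‖x‖ ≠ 0 := norm_ne_zero_iff.mpr hx
  have hy' : ‖y‖ ≠ 0 := norm_ne_zero_iff.mpr hy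
  rw [norm_sub_sq_real, norm_sub_sq_real x y, norm_smul, norm_smul, real_inner_smul_left,
    real_inner_smul_right, norm_inv, norm_inv, norm_norm, norm_norm, inv_mul_cancel₀ hx',
    inv_mul_cancel₀ hy']
  have e : ‖x‖ * ‖y‖ * (1 ^ 2 - 2 * (‖x‖⁻¹ * (‖y‖⁻¹ * inner ℝ x y)) + 1 ^ 2) =
      2 * (‖x‖ * ‖y‖) - 2 * inner ℝ x y := by
    field_simp
    ring
  rw [e]
  nlinarith [sq_nonneg (‖x‖ - ‖y‖)]

/-- The radial minorant of `Q`. -/
noncomputable def Q0 {n : ℕ} (r : Fin n → R3) : ℝ :=
  (∏ j, ‖r j‖ ^ (n - 1)) * Q (fun j => ‖r j‖⁻¹ • r j)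

theorem prod_pow_pairs {n : ℕ} (a : Fin n → ℝ) :
    (∏ j, a j ^ (n - 1)) = ∏ k : Fin n, ∏ j ∈ Finset.Ioi k, (a k * a j) := by
  have h1 : (∏ k : Fin n, ∏ j ∈ Finset.Ioi k, (a k * a j))
      = (∏ k : Fin n, a k ^ (Finset.Ioi k).card) * (∏ k : Fin n, ∏ j ∈ Finset.Ioi k, a j) := by
    rw [← Finset.prod_mul_distrib]
    refine Finset.prod_congr rfl (fun k _ => ?_)
    rw [Finset.prod_mul_distrib, Finset.prod_const]
  have h2 : (∏ k : Fin n, ∏ j ∈ Finset.Ioi k, a j) = ∏ j : Fin n, ∏ _k ∈ Finset.Iio j, a j := by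
    refine Finset.prod_comm' ?_
    intro x y
    simp
  rw [h1, h2, ← Finset.prod_mul_distrib]
  refine Finset.prod_congr rfl (fun k _ => ?_)
  rw [Finset.prod_const, ← pow_add, Fin.card_Ioi, Fin.card_Iio]
  congr 1
  have := k.isLt
  omega

theorem Q0_le {n : ℕ} (r : Fin n → R3) : Q0 r ≤ Q r := by
  unfold Q0
  rw [prod_pow_pairs]
  unfold Q
  rw [← Finset.prod_mul_distrib]
  refine Finset.prod_le_prod (fun k _ => ?_) (fun k _ => ?_)
  · exact mul_nonneg (Finset.prod_nonneg (fun j _ => by positivity))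
      (Finset.prod_nonneg (fun j _ => by positivity))
  · rw [← Finset.prod_mul_distrib]
    refine Finset.prod_le_prod (fun j _ => by positivity) (fun j _ => ?_)
    have := norm_sub_ge (r j) (r k)
    calc ‖r k‖ * ‖r j‖ * ‖‖r j‖⁻¹ • r j - ‖r k‖⁻¹ • r k‖ ^ 2
        = ‖r j‖ * ‖r k‖ * ‖(‖r j‖⁻¹ • r j) - (‖r k‖⁻¹ • r k)‖ ^ 2 := by ring
      _ ≤ _ := this

theorem Q0_measurable (n : ℕ) : Measurable (fun r : Fin n → R3 => ENNReal.ofReal (Q0 r)) := by
  apply ENNReal.measurable_ofReal.comp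
  unfold Q0 Q
  have h1 : ∀ j : Fin n, Measurable (fun r : Fin n → R3 => ‖r j‖) :=
    fun j => (measurable_pi_apply j).norm
  have h2 : ∀ j : Fin n, Measurable (fun r : Fin n → R3 => ‖r j‖⁻¹ • r j) :=
    fun j => (h1 j).inv.smul (measurable_pi_apply j)
  refine Measurable.mul ?_ ?_
  · exact Finset.measurable_fun_prod _ (fun j _ => (h1 j).pow_const _)
  · refine Finset.measurable_fun_prod _ (fun k _ => ?_)
    refine Finset.measurable_fun_prod _ (fun j _ => ?_)
    exact (((h2 j).sub (h2 k)).norm).pow_const _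

theorem Q0_update {n : ℕ} (r : Fin n → R3) (i : Fin n) (t : ℝ) (ht : 0 < t) (w : R3)
    (hw : ‖w‖ = 1) :
    Q0 (Function.update r i (t • w)) = t ^ (n - 1) * Q0 (Function.update r i w) := by
  have e : (fun j => ‖Function.update r i (t • w) j‖⁻¹ • Function.update r i (t • w) j)
      = (fun j => ‖Function.update r i w j‖⁻¹ • Function.update r i w j) := by
    funext j
    by_cases h : j = i
    · subst h
      simp only [Function.update_self]
      rw [norm_smul, hw, mul_one, Real.norm_eq_abs, abs_of_pos ht, smul_smul,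
        inv_mul_cancel₀ ht.ne', inv_one]
    · simp only [Function.update_of_ne h]
  have e2 : ∏ j, ‖Function.update r i (t • w) j‖ ^ (n - 1)
      = t ^ (n - 1) * ∏ j, ‖Function.update r i w j‖ ^ (n - 1) := by
    rw [← Finset.mul_prod_erase Finset.univ _ (Finset.mem_univ i),
      ← Finset.mul_prod_erase Finset.univ (fun j => ‖Function.update r i w j‖ ^ (n - 1))
        (Finset.mem_univ i)]
    simp only [Function.update_self]
    rw [norm_smul, hw, mul_one, Real.norm_eq_abs, abs_of_pos ht, one_pow, one_mul]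
    congr 1
    apply Finset.prod_congr rfl
    intro j hj
    rw [Function.update_of_ne (Finset.ne_of_mem_erase hj),
      Function.update_of_ne (Finset.ne_of_mem_erase hj)]
  unfold Q0
  rw [e, e2, mul_assoc]

theorem Q0_coord {n : ℕ} (i : Fin n) (r : Fin n → R3) :
    ∫⁻ t, ENNReal.ofReal (Q0 (Function.update r i t)) ∂sph
      ≤ ENNReal.ofReal ((n : ℝ) + 2) * ∫⁻ t, ENNReal.ofReal (Q0 (Function.update r i t)) ∂bal := by
  have hn : 1 ≤ n := by
    rcases n with _ | n
    · exact i.elim0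
    · omega
  have hmeas : Measurable (fun t : R3 => ENNReal.ofReal (Q0 (Function.update r i t))) :=
    (Q0_measurable n).comp (measurable_update r)
  have hh := bal_homog (n - 1) (fun t : R3 => ENNReal.ofReal (Q0 (Function.update r i t))) hmeas
    (by
      intro t ht _ w hw
      show ENNReal.ofReal (Q0 (Function.update r i (t • w))) = _
      rw [Q0_update r i t ht w hw, ENNReal.ofReal_mul (by positivity)])
  rw [hh, ← mul_assoc, ← ENNReal.ofReal_mul (by positivity)]
  have hc : ((n : ℝ) + 2) * (1 / (((n - 1 : ℕ) : ℝ) + 3)) = 1 := by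
    have h1 : ((n - 1 : ℕ) : ℝ) = (n : ℝ) - 1 := by
      rw [Nat.cast_sub hn]; simp
    rw [h1]
    have : (n : ℝ) + 2 ≠ 0 := by positivity
    rw [show (n : ℝ) - 1 + 3 = (n : ℝ) + 2 by ring]
    exact mul_one_div_cancel this
  rw [hc]
  simp

theorem lower (n : ℕ) :
    ∫⁻ r, ENNReal.ofReal (Q r) ∂(Measure.pi fun _ : Fin n => sph)
      ≤ ENNReal.ofReal ((n : ℝ) + 2) ^ n
        * ∫⁻ r, ENNReal.ofReal (Q r) ∂(Measure.pi fun _ : Fin n => bal) := by
  haveI := sph_finite
  haveI : SigmaFinite bal := by unfold bal; infer_instance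
  have hae : ∀ᵐ r ∂(Measure.pi fun _ : Fin n => sph), ∀ j, ‖r j‖ = 1 := by
    refine ae_all_iff.2 fun j => ?_
    exact (Measure.quasiMeasurePreserving_eval (fun _ : Fin n => sph) j).ae sph_ae
  have h1 : ∫⁻ r, ENNReal.ofReal (Q r) ∂(Measure.pi fun _ : Fin n => sph)
      = ∫⁻ r, ENNReal.ofReal (Q0 r) ∂(Measure.pi fun _ : Fin n => sph) := by
    refine lintegral_congr_ae ?_
    filter_upwards [hae] with r hr
    have : Q0 r = Q r := by
      unfold Q0
      simp [hr]
    rw [this]
  rw [h1]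
  refine (pi_compare sph bal (ENNReal.ofReal ((n : ℝ) + 2)) n
    (fun r => ENNReal.ofReal (Q0 r)) (Q0_measurable n) (fun i x => Q0_coord i x)).trans ?_
  gcongr with r
  exact Q0_le r

theorem Q_nonneg_aux {n : ℕ} (r : Fin n → R3) : 0 ≤ Q r := by
  unfold Q
  exact Finset.prod_nonneg (fun k _ => Finset.prod_nonneg (fun j _ => by positivity))

theorem Q_continuous_aux (n : ℕ) : Continuous (fun r : Fin n → R3 => Q r) := by
  unfold Q
  fun_prop

theorem F3_eq (n : ℕ) :
    ∫ r in {r : Fin n → R3 | ∀ i, ‖r i‖ ≤ 1}, Q r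
      = (∫⁻ r, ENNReal.ofReal (Q r) ∂(Measure.pi fun _ : Fin n => bal)).toReal := by
  have hset : {r : Fin n → R3 | ∀ i, ‖r i‖ ≤ 1}
      = Set.pi univ (fun _ : Fin n => Metric.closedBall (0 : R3) 1) := by
    ext r
    simp [Set.mem_pi]
  have hm : (volume : Measure (Fin n → R3)).restrict {r : Fin n → R3 | ∀ i, ‖r i‖ ≤ 1}
      = Measure.pi fun _ : Fin n => bal := by
    rw [hset, volume_pi, Measure.restrict_pi_pi]
    rfl
  rw [hm, integral_eq_lintegral_of_nonneg_ae]
  · exact Filter.Eventually.of_forall (fun r => Q_nonneg_aux r)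
  · exact (Q_continuous_aux n).measurable.aestronglyMeasurable

theorem F2_eq (n : ℕ) :
    ∫ w : Fin n → Metric.sphere (0 : R3) 1, Q (fun i => (w i : R3))
        ∂(Measure.pi fun _ => (volume : Measure R3).toSphere)
      = (∫⁻ r, ENNReal.ofReal (Q r) ∂(Measure.pi fun _ : Fin n => sph)).toReal := by
  have hval : Measurable (Subtype.val : Metric.sphere (0 : R3) 1 → R3) := measurable_subtype_coe
  have hfin : IsFiniteMeasure ((volume : Measure R3).toSphere) := inferInstance
  have hfin2 : IsFiniteMeasure (((volume : Measure R3).toSphere).map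
      (Subtype.val : Metric.sphere (0 : R3) 1 → R3)) :=
    Measure.isFiniteMeasure_map _ _
  have hpi : (Measure.pi fun _ : Fin n => sph) =
      (Measure.pi fun _ : Fin n => (volume : Measure R3).toSphere).map
        (fun w i => ((w i : Metric.sphere (0 : R3) 1) : R3)) := by
    unfold sph
    exact (Measure.pi_map_pi (μ := fun _ : Fin n => (volume : Measure R3).toSphere)
      (f := fun _ : Fin n => (Subtype.val : Metric.sphere (0 : R3) 1 → R3))
      (fun _ => hval.aemeasurable)).symm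
  have hmap : Measurable (fun (w : Fin n → Metric.sphere (0 : R3) 1) (i : Fin n) =>
      ((w i : Metric.sphere (0 : R3) 1) : R3)) :=
    measurable_pi_lambda _ fun i => hval.comp (measurable_pi_apply i)
  rw [hpi, lintegral_map (Q_measurable n) hmap, integral_eq_lintegral_of_nonneg_ae]
  · exact Filter.Eventually.of_forall fun w =>
      Finset.prod_nonneg fun k _ => Finset.prod_nonneg fun j _ => sq_nonneg _
  · apply Continuous.aestronglyMeasurable
    unfold Q
    fun_prop

theorem lint_aux (μ : Measure R3) [IsFiniteMeasure μ] (h : ∀ᵐ w ∂μ, ‖w‖ ≤ 1) (n : ℕ) :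
    ∫⁻ r, ENNReal.ofReal (Q r) ∂(Measure.pi fun _ : Fin n => μ) ≠ ⊤ := by
  have hall : ∀ᵐ r ∂(Measure.pi fun _ : Fin n => μ), ∀ j, ‖r j‖ ≤ 1 := by
    rw [ae_all_iff]
    intro j
    exact (Measure.tendsto_eval_ae_ae (μ := fun _ : Fin n => μ) (i := j)).eventually h
  have hle : ∀ᵐ r ∂(Measure.pi fun _ : Fin n => μ),
      ENNReal.ofReal (Q r) ≤ ENNReal.ofReal (∏ k : Fin n, ∏ j ∈ Finset.Ioi k, (4 : ℝ)) := by
    filter_upwards [hall] with r hr
    apply ENNReal.ofReal_le_ofReal
    unfold Q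
    apply Finset.prod_le_prod
    · intro k _
      exact Finset.prod_nonneg fun j _ => by positivity
    · intro k _
      apply Finset.prod_le_prod
      · intro j _
        positivity
      · intro j _
        have h1 : ‖r j - r k‖ ≤ 2 := by
          calc ‖r j - r k‖ ≤ ‖r j‖ + ‖r k‖ := norm_sub_le _ _
            _ ≤ 2 := by linarith [hr j, hr k]
        nlinarith [norm_nonneg (r j - r k)]
  refine ne_top_of_le_ne_top ?_ (lintegral_mono_ae hle)
  rw [lintegral_const]
  exact ENNReal.mul_ne_top ENNReal.ofReal_ne_top (measure_ne_top _ _)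

theorem lint_finite (n : ℕ) :
    ∫⁻ r, ENNReal.ofReal (Q r) ∂(Measure.pi fun _ : Fin n => bal) ≠ ⊤ ∧
      ∫⁻ r, ENNReal.ofReal (Q r) ∂(Measure.pi fun _ : Fin n => sph) ≠ ⊤ := by
  constructor
  · haveI : IsFiniteMeasure bal := by
      unfold bal
      exact ⟨by
        rw [Measure.restrict_apply_univ]
        exact (isCompact_closedBall (0 : R3) 1).measure_lt_top⟩
    apply lint_aux
    unfold bal
    filter_upwards [ae_restrict_mem (Metric.isClosed_closedBall (x := (0 : R3)) (ε := 1)).measurableSet] with w hw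
    simpa using hw
  · haveI := sph_finite
    apply lint_aux
    filter_upwards [sph_ae] with w hw
    exact hw.le

theorem main (n : ℕ) :
    (((n : ℝ) + 2) ^ n)⁻¹ * ∫ w : Fin n → Metric.sphere (0 : R3) 1, Q (fun i => (w i : R3))
        ∂(Measure.pi fun _ => (volume : Measure R3).toSphere)
      ≤ ∫ r in {r : Fin n → R3 | ∀ i, ‖r i‖ ≤ 1}, Q r ∧
    ∫ r in {r : Fin n → R3 | ∀ i, ‖r i‖ ≤ 1}, Q r
      ≤ (1 / 3) ^ n * ∫ w : Fin n → Metric.sphere (0 : R3) 1, Q (fun i => (w i : R3))
        ∂(Measure.pi fun _ => (volume : Measure R3).toSphere) := by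
  obtain ⟨hfb, hfs⟩ := lint_finite n
  rw [F3_eq, F2_eq]
  constructor
  · have h1 := lower n
    have hpow : ENNReal.ofReal ((n : ℝ) + 2) ^ n ≠ ⊤ := ENNReal.pow_ne_top ENNReal.ofReal_ne_top
    have h2 := ENNReal.toReal_mono (ENNReal.mul_ne_top hpow hfb) h1
    rw [ENNReal.toReal_mul, ENNReal.toReal_pow, ENNReal.toReal_ofReal (by positivity)] at h2
    have h3 : (0 : ℝ) < ((n : ℝ) + 2) ^ n := by positivity
    rw [inv_mul_le_iff₀ h3]
    exact h2
  · have h1 := upper n
    have hpow : ENNReal.ofReal (1 / 3) ^ n ≠ ⊤ := ENNReal.pow_ne_top ENNReal.ofReal_ne_top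
    have h2 := ENNReal.toReal_mono (ENNReal.mul_ne_top hpow hfs) h1
    rw [ENNReal.toReal_mul, ENNReal.toReal_pow, ENNReal.toReal_ofReal (by positivity)] at h2
    exact h2

end SqDist
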