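import Mathlib
import Pool.Agent.Helper379.SqDist

set_option autoImplicit false

namespace SqDist

open MeasureTheory Set

/-- First spinor coordinate. -/
noncomputable def uu (w : R3) : ℂ := ((Real.sqrt ((1 + w 2) / 2) : ℝ) : ℂ)

/-- Second spinor coordinate. -/
noncomputable def vv (w : R3) : ℂ :=
  (((w 0 : ℝ) : ℂ) + ((w 1 : ℝ) : ℂ) * Complex.I) / ((Real.sqrt (2 * (1 + w 2)) : ℝ) : ℂ)

/-- The orthogonal functions `u^(n-1-l) v^l`. -/
noncomputable def phi (n l : ℕ) (w : R3) : ℂ := uu w ^ (n - 1 - l) * vv w ^ l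

theorem sph_total : ∫ _w, (1 : ℝ) ∂sph = 4 * Real.pi := by
  rw [integral_const, smul_eq_mul, mul_one]
  have h1 : sph.real univ = ((volume : Measure R3).toSphere).real univ := by
    unfold sph Measure.real
    rw [Measure.map_apply measurable_subtype_coe MeasurableSet.univ, preimage_univ]
  rw [h1, Measure.toSphere_real_apply_univ]
  have h2 : (volume : Measure R3).real (Metric.ball 0 1) = Real.pi * 4 / 3 := by
    unfold Measure.real
    rw [EuclideanSpace.volume_ball_fin_three, ENNReal.ofReal_one, one_pow, one_mul,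
      ENNReal.toReal_ofReal (by positivity)]
  rw [h2]
  have h3 : Module.finrank ℝ R3 = 3 := by simp
  rw [h3]
  push_cast
  ring

theorem sph_z_moment (k : ℕ) :
    ∫ w : R3, (w 2) ^ k ∂sph = 2 * Real.pi * ∫ z in (-1 : ℝ)..1, z ^ k := by
  have hrec : ∀ k : ℕ, ((k : ℝ) + 3) * ∫ w : R3, (w 2) ^ (k + 2) ∂sph
      = ((k : ℝ) + 1) * ∫ w : R3, (w 2) ^ k ∂sph := by
    intro k
    have h := sph_X_mul (MvPolynomial.X 2 ^ (k + 1)) (k + 1)
      (by simpa using (MvPolynomial.isHomogeneous_X ℝ (2 : Fin 3)).pow (k + 1)) 2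
    have e1 : ∀ w : R3, ev (MvPolynomial.X 2 * MvPolynomial.X 2 ^ (k + 1)) w = (w 2) ^ (k + 2) := by
      intro w
      simp only [ev, map_mul, map_pow, MvPolynomial.eval_X]
      ring
    have e2 : ∀ w : R3, ev (MvPolynomial.pderiv 2 (MvPolynomial.X 2 ^ (k + 1))) w
        = ((k : ℝ) + 1) * (w 2) ^ k := by
      intro w
      simp only [ev, MvPolynomial.pderiv_pow, MvPolynomial.pderiv_X_self, map_mul, map_pow,
        MvPolynomial.eval_X, mul_one, map_natCast, Nat.add_sub_cancel]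
      push_cast
      ring
    simp only [e1, e2] at h
    rw [integral_const_mul] at h
    rw [← h]
    push_cast
    ring
  have h1 : ∫ w : R3, (w 2) ^ 1 ∂sph = 0 := by
    have h := sph_X_mul 1 0 (MvPolynomial.isHomogeneous_one _ _) 2
    have e1 : ∀ w : R3, ev (MvPolynomial.X 2 * 1) w = (w 2) ^ 1 := by
      intro w
      simp [ev]
    have e2 : ∀ w : R3, ev (MvPolynomial.pderiv 2 1) w = 0 := by
      intro w
      simp [ev]
    simp only [e1, e2] at h
    simp only [integral_zero] at h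
    push_cast at h
    linarith
  have key : ∀ k : ℕ, (∫ w : R3, (w 2) ^ k ∂sph = 2 * Real.pi * ∫ z in (-1 : ℝ)..1, z ^ k) ∧
      (∫ w : R3, (w 2) ^ (k + 1) ∂sph = 2 * Real.pi * ∫ z in (-1 : ℝ)..1, z ^ (k + 1)) := by
    intro k
    induction k with
    | zero =>
      refine ⟨?_, ?_⟩
      · simp only [pow_zero]
        rw [sph_total]
        simp
        ring
      · rw [zero_add, h1, integral_pow]
        norm_num
    | succ k ih =>
      refine ⟨ih.2, ?_⟩
      have h := hrec k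
      rw [ih.1] at h
      rw [integral_pow] at h ⊢
      have hk : ((k : ℝ) + 3) ≠ 0 := by positivity
      have hk1 : ((k : ℝ) + 1) ≠ 0 := by positivity
      have e3 : (((k + 1 + 1 : ℕ) : ℝ) + 1) = (k : ℝ) + 3 := by push_cast; ring
      apply mul_left_cancel₀ hk
      rw [h, e3]
      have e4 : ((-1 : ℝ)) ^ (k + 1 + 1 + 1) = (-1) ^ (k + 1) := by ring
      rw [e4]
      simp only [one_pow]
      field_simp
  exact (key k).1

theorem sph_z_pow_integrable (k : ℕ) : Integrable (fun w : R3 => (w 2) ^ k) sph := by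
  have := sph_finite
  refine Integrable.of_bound (C := 1) ?_ ?_
  · exact (by fun_prop : Continuous (fun w : R3 => (w 2) ^ k)).aestronglyMeasurable
  · filter_upwards [sph_ae] with w hw
    rw [norm_pow]
    refine pow_le_one₀ (norm_nonneg _) ?_
    rw [← hw]
    exact PiLp.norm_apply_le w 2

theorem sph_z_poly (g : Polynomial ℝ) :
    ∫ w : R3, g.eval (w 2) ∂sph = 2 * Real.pi * ∫ z in (-1 : ℝ)..1, g.eval z := by
  simp only [Polynomial.eval_eq_sum_range]
  rw [integral_finsetSum _ (fun k _ => (sph_z_pow_integrable k).const_mul _),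
    intervalIntegral.integral_finsetSum (fun k _ => by
      apply Continuous.intervalIntegrable; fun_prop), Finset.mul_sum]
  refine Finset.sum_congr rfl (fun k _ => ?_)
  rw [integral_const_mul, sph_z_moment, intervalIntegral.integral_const_mul]
  ring

theorem beta_int (a b : ℕ) :
    ∫ z in (-1 : ℝ)..1, ((1 + z) / 2) ^ a * ((1 - z) / 2) ^ b
      = 2 * ((a.factorial : ℝ) * b.factorial / (a + b + 1).factorial) := by
  induction b generalizing a with
  | zero =>
    have hd : ∀ z ∈ Set.uIcc (-1 : ℝ) 1, HasDerivAt (fun z : ℝ => 2 / ((a : ℝ) + 1) * ((1 + z) / 2) ^ (a + 1))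
        (((1 + z) / 2) ^ a * ((1 - z) / 2) ^ 0) z := by
      intro z _
      have h1 : HasDerivAt (fun z : ℝ => (1 + z) / 2) (1 / 2) z :=
        ((hasDerivAt_id z).const_add 1).div_const 2
      have h2 := (h1.pow (a + 1)).const_mul (2 / ((a : ℝ) + 1))
      refine h2.congr_deriv ?_
      have h3 : (a : ℝ) + 1 ≠ 0 := by positivity
      push_cast
      rw [pow_zero, mul_one]
      field_simp
    rw [intervalIntegral.integral_eq_sub_of_hasDerivAt hd
      (by apply Continuous.intervalIntegrable; fun_prop)]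
    have h4 : (a : ℝ) + 1 ≠ 0 := by positivity
    have h5 : ((a.factorial : ℕ) : ℝ) ≠ 0 := by positivity
    rw [Nat.add_zero, Nat.factorial_succ]
    push_cast
    norm_num
    field_simp
  | succ b ih =>
    have h1 : ∀ z : ℝ, ((1 + z) / 2) ^ a * ((1 - z) / 2) ^ (b + 1) =
        ((1 + z) / 2) ^ a * ((1 - z) / 2) ^ b - ((1 + z) / 2) ^ (a + 1) * ((1 - z) / 2) ^ b := by
      intro z
      ring
    simp only [h1]
    rw [intervalIntegral.integral_sub (by apply Continuous.intervalIntegrable; fun_prop)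
      (by apply Continuous.intervalIntegrable; fun_prop), ih a, ih (a + 1)]
    have e1 : a + 1 + b + 1 = (a + b + 1) + 1 := by ring
    have e2 : a + (b + 1) + 1 = (a + b + 1) + 1 := by ring
    rw [e1, e2, Nat.factorial_succ (a + b + 1), Nat.factorial_succ a, Nat.factorial_succ b]
    have h2 : (((a + b + 1).factorial : ℕ) : ℝ) ≠ 0 := by positivity
    have h3 : ((a : ℝ) + b + 1 + 1) ≠ 0 := by positivity
    push_cast
    field_simp
    ring

theorem sph_beta (a b : ℕ) :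
    ∫ w : R3, ((1 + w 2) / 2) ^ a * ((1 - w 2) / 2) ^ b ∂sph
      = 4 * Real.pi * ((a.factorial : ℝ) * b.factorial / (a + b + 1).factorial) := by
  have hg : ∀ z : ℝ, ((Polynomial.C (1 / 2 : ℝ) * (1 + Polynomial.X)) ^ a *
      (Polynomial.C (1 / 2 : ℝ) * (1 - Polynomial.X)) ^ b).eval z =
      ((1 + z) / 2) ^ a * ((1 - z) / 2) ^ b := by
    intro z
    rw [Polynomial.eval_mul, Polynomial.eval_pow, Polynomial.eval_pow, Polynomial.eval_mul,
      Polynomial.eval_mul, Polynomial.eval_C, Polynomial.eval_add, Polynomial.eval_sub,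
      Polynomial.eval_one, Polynomial.eval_X]
    congr 2 <;> ring
  have h := sph_z_poly ((Polynomial.C (1 / 2 : ℝ) * (1 + Polynomial.X)) ^ a *
      (Polynomial.C (1 / 2 : ℝ) * (1 - Polynomial.X)) ^ b)
  simp only [hg] at h
  rw [h, beta_int]
  ring

lemma sph_rot_aux (f : R3 → ENNReal) (hf : Measurable f) :
    ∫⁻ x, f (‖x‖⁻¹ • x) ∂bal = ENNReal.ofReal (1 / (((0 : ℕ) : ℝ) + 3)) * ∫⁻ w, f w ∂sph := by
  have hm : Measurable (fun x : R3 => ‖x‖⁻¹ • x) := (measurable_norm.inv).smul measurable_id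
  have h1 := bal_homog 0 (fun x => f (‖x‖⁻¹ • x)) (hf.comp hm) (by
    intro t ht _ w hw
    have h2 : ‖t • w‖⁻¹ • (t • w) = w := by
      rw [norm_smul, hw, mul_one, Real.norm_eq_abs, abs_of_pos ht, smul_smul,
        inv_mul_cancel₀ ht.ne', one_smul]
    have h3 : ‖w‖⁻¹ • w = w := by
      rw [hw, inv_one, one_smul]
    simp only [h2, h3, pow_zero, ENNReal.ofReal_one, one_mul])
  rw [h1]
  congr 1
  refine lintegral_congr_ae ?_
  filter_upwards [sph_ae] with w hw
  rw [hw, inv_one, one_smul]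

lemma sph_rot_bal (e : R3 ≃ₗᵢ[ℝ] R3) : MeasurePreserving e bal bal := by
  have h := (LinearIsometryEquiv.measurePreserving e).restrict_preimage
    (s := Metric.closedBall (0 : R3) 1) Metric.isClosed_closedBall.measurableSet
  have h2 : (e : R3 → R3) ⁻¹' Metric.closedBall (0 : R3) 1 = Metric.closedBall (0 : R3) 1 := by
    ext x
    simp
  rw [h2] at h
  exact h

theorem sph_rot (e : R3 ≃ₗᵢ[ℝ] R3) : sph.map e = sph := by
  have hem : Measurable (e : R3 → R3) := e.continuous.measurable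
  refine Measure.ext fun s hs => ?_
  rw [Measure.map_apply hem hs]
  set f : R3 → ENNReal := s.indicator 1 with hf
  have hfm : Measurable f := measurable_one.indicator hs
  have h1 := sph_rot_aux f hfm
  have h2 := sph_rot_aux (fun x => f (e x)) (hfm.comp hem)
  have h3 : ∫⁻ x, f (e (‖x‖⁻¹ • x)) ∂bal = ∫⁻ x, f (‖x‖⁻¹ • x) ∂bal := by
    have hm : Measurable (fun x : R3 => f (‖x‖⁻¹ • x)) :=
      hfm.comp ((measurable_norm.inv).smul measurable_id)
    rw [← (sph_rot_bal e).lintegral_comp hm]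
    refine lintegral_congr fun x => ?_
    rw [e.norm_map, map_smul]
  rw [h3, h1] at h2
  have h4 : ∫⁻ w, f w ∂sph = ∫⁻ w, f (e w) ∂sph := by
    refine (ENNReal.mul_right_inj ?_ ENNReal.ofReal_ne_top).1 h2
    rw [Ne, ENNReal.ofReal_eq_zero, not_le]
    norm_num
  have h5 : ∫⁻ w, f w ∂sph = sph s := by
    rw [hf, lintegral_indicator_one hs]
  have h6 : ∫⁻ w, f (e w) ∂sph = sph ((e : R3 → R3) ⁻¹' s) := by
    rw [← lintegral_indicator_one (hem hs)]
    rfl
  rw [← h6, ← h4, h5]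

theorem sph_ae2 : ∀ᵐ w : R3 ∂sph, ‖w‖ = 1 ∧ w 2 ≠ -1 := by
  have hcont : Continuous (fun x : R3 => x 0) := by fun_prop
  have hms : MeasurableSet {x : R3 | x 0 = 0} := (isClosed_eq hcont continuous_const).measurableSet
  have hvol : (volume : Measure R3) {x : R3 | x 0 = 0} = 0 := by
    have h1 := Measure.addHaar_submodule (volume : Measure R3)
      (LinearMap.ker ((EuclideanSpace.proj (0 : Fin 3) : R3 →L[ℝ] ℝ) : R3 →ₗ[ℝ] ℝ)) (by
        intro h
        have h2 : (EuclideanSpace.single (0 : Fin 3) (1 : ℝ) : R3) ∈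
          LinearMap.ker ((EuclideanSpace.proj (0 : Fin 3) : R3 →L[ℝ] ℝ) : R3 →ₗ[ℝ] ℝ) := by
          rw [h]; trivial
        rw [LinearMap.mem_ker] at h2
        simp at h2)
    have h5 : {x : R3 | x 0 = 0} = ((LinearMap.ker ((EuclideanSpace.proj (0 : Fin 3) :
        R3 →L[ℝ] ℝ) : R3 →ₗ[ℝ] ℝ) : Submodule ℝ R3) : Set R3) := by
      ext x
      rw [SetLike.mem_coe, LinearMap.mem_ker]
      rfl
    rw [h5]
    exact h1
  have hb := bal_homog 0 ({x : R3 | x 0 = 0}.indicator (fun _ => (1 : ENNReal)))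
    (measurable_const.indicator hms) (by
      intro t ht _ w _
      simp only [pow_zero, ENNReal.ofReal_one, one_mul, Set.indicator_apply, Set.mem_setOf_eq,
        PiLp.smul_apply, smul_eq_mul, mul_eq_zero, ht.ne', false_or])
  rw [lintegral_indicator hms, lintegral_indicator hms] at hb
  simp only [setLIntegral_one] at hb
  have hb0 : bal {x : R3 | x 0 = 0} = 0 := by
    apply le_antisymm _ bot_le
    calc bal {x : R3 | x 0 = 0} ≤ (volume : Measure R3) {x : R3 | x 0 = 0} :=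
          Measure.restrict_apply_le _ _
      _ = 0 := hvol
  rw [hb0] at hb
  have hs0 : sph {x : R3 | x 0 = 0} = 0 := by
    rcases mul_eq_zero.1 hb.symm with h | h
    · exfalso
      rw [ENNReal.ofReal_eq_zero] at h
      norm_num at h
    · exact h
  have hae : ∀ᵐ w : R3 ∂sph, w 0 ≠ 0 := by
    rw [ae_iff]
    simpa using hs0
  filter_upwards [sph_ae, hae] with w hw hw0
  refine ⟨hw, ?_⟩
  intro h2
  apply hw0
  have h3 : ‖w‖ ^ 2 = 1 := by rw [hw]; norm_num
  rw [EuclideanSpace.real_norm_sq_eq, Fin.sum_univ_three, h2] at h3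
  nlinarith [sq_nonneg (w 0), sq_nonneg (w 1)]

lemma hz_aux (w : R3) (hw : ‖w‖ = 1) (h : w 2 ≠ -1) :
    w 0 ^ 2 + w 1 ^ 2 + w 2 ^ 2 = 1 ∧ 0 < 1 + w 2 := by
  have h1 : ‖w‖ ^ 2 = w 0 ^ 2 + w 1 ^ 2 + w 2 ^ 2 := by
    rw [EuclideanSpace.real_norm_sq_eq, Fin.sum_univ_three]
  rw [hw] at h1
  refine ⟨by linarith, ?_⟩
  have h2 : -1 ≤ w 2 := by nlinarith [sq_nonneg (w 0), sq_nonneg (w 1), sq_nonneg (w 2 + 1)]
  have h3 : -1 < w 2 := lt_of_le_of_ne h2 (Ne.symm h)
  linarith

theorem chord (w w' : R3) (hw : ‖w‖ = 1) (hw' : ‖w'‖ = 1) (h : w 2 ≠ -1) (h' : w' 2 ≠ -1) :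
    ‖w - w'‖ ^ 2 = 4 * ‖uu w * vv w' - uu w' * vv w‖ ^ 2 := by
  obtain ⟨e1, p1⟩ := hz_aux w hw h
  obtain ⟨e2, p2⟩ := hz_aux w' hw' h'
  obtain ⟨a, ha⟩ : ∃ a, a = Real.sqrt (2 * (1 + w 2)) := ⟨_, rfl⟩
  obtain ⟨b, hb⟩ : ∃ b, b = Real.sqrt (2 * (1 + w' 2)) := ⟨_, rfl⟩
  have ha0 : 0 < a := by rw [ha]; exact Real.sqrt_pos.2 (by linarith)
  have hb0 : 0 < b := by rw [hb]; exact Real.sqrt_pos.2 (by linarith)
  have ha2 : a ^ 2 = 2 * (1 + w 2) := by rw [ha]; exact Real.sq_sqrt (by linarith)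
  have hb2 : b ^ 2 = 2 * (1 + w' 2) := by rw [hb]; exact Real.sq_sqrt (by linarith)
  have hu : uu w = ((a / 2 : ℝ) : ℂ) := by
    unfold uu
    congr 1
    rw [Real.sqrt_eq_iff_mul_self_eq (by linarith) (by positivity)]
    nlinarith
  have hu' : uu w' = ((b / 2 : ℝ) : ℂ) := by
    unfold uu
    congr 1
    rw [Real.sqrt_eq_iff_mul_self_eq (by linarith) (by positivity)]
    nlinarith
  have hv : vv w = (((w 0 / a : ℝ) : ℂ) + ((w 1 / a : ℝ) : ℂ) * Complex.I) := by
    unfold vv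
    rw [← ha]
    push_cast
    ring
  have hv' : vv w' = (((w' 0 / b : ℝ) : ℂ) + ((w' 1 / b : ℝ) : ℂ) * Complex.I) := by
    unfold vv
    rw [← hb]
    push_cast
    ring
  have hd : uu w * vv w' - uu w' * vv w =
      ((a / 2 * (w' 0 / b) - b / 2 * (w 0 / a) : ℝ) : ℂ)
        + ((a / 2 * (w' 1 / b) - b / 2 * (w 1 / a) : ℝ) : ℂ) * Complex.I := by
    rw [hu, hu', hv, hv']
    push_cast
    ring
  rw [hd, ← Complex.normSq_eq_norm_sq, Complex.normSq_add_mul_I,
    EuclideanSpace.real_norm_sq_eq, Fin.sum_univ_three]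
  simp only [PiLp.sub_apply]
  have k1 : w 0 ^ 2 + w 1 ^ 2 = (1 - w 2) * (a ^ 2 / 2) := by rw [ha2]; linear_combination e1
  have k2 : w' 0 ^ 2 + w' 1 ^ 2 = (1 - w' 2) * (b ^ 2 / 2) := by rw [hb2]; linear_combination e2
  have k3 : 4 * ((a / 2 * (w' 0 / b) - b / 2 * (w 0 / a)) ^ 2
      + (a / 2 * (w' 1 / b) - b / 2 * (w 1 / a)) ^ 2)
      = a ^ 2 / b ^ 2 * (w' 0 ^ 2 + w' 1 ^ 2) + b ^ 2 / a ^ 2 * (w 0 ^ 2 + w 1 ^ 2)
        - 2 * (w 0 * w' 0 + w 1 * w' 1) := by
    field_simp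
    ring
  rw [k3, k1, k2]
  have k4 : a ^ 2 / b ^ 2 * ((1 - w' 2) * (b ^ 2 / 2)) = a ^ 2 * (1 - w' 2) / 2 := by
    field_simp
  have k5 : b ^ 2 / a ^ 2 * ((1 - w 2) * (a ^ 2 / 2)) = b ^ 2 * (1 - w 2) / 2 := by
    field_simp
  rw [k4, k5, ha2, hb2]
  linear_combination e1 + e2

theorem Q_det (n : ℕ) (r : Fin n → R3) (h : ∀ j, ‖r j‖ = 1 ∧ r j 2 ≠ -1) :
    Q r = 4 ^ (n * (n - 1) / 2)
      * ‖(Matrix.of fun j l : Fin n => phi n l (r j)).det‖ ^ 2 := by
  have hM : (Matrix.of fun j l : Fin n => phi n l (r j)) =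
      Matrix.projVandermonde (fun j => vv (r j)) (fun j => uu (r j)) := by
    ext j l
    rw [Matrix.projVandermonde_apply, Matrix.of_apply]
    unfold phi
    have : (l.rev : ℕ) = n - 1 - (l : ℕ) := by
      rw [Fin.val_rev]; omega
    rw [this, mul_comm]
  have hcnt : ∑ k : Fin n, (Finset.Ioi k).card = n * (n - 1) / 2 := by
    have h1 : ∀ k : Fin n, (Finset.Ioi k).card = n - 1 - (k : ℕ) := fun k => Fin.card_Ioi k
    simp only [h1]
    rw [Fin.sum_univ_eq_sum_range (fun i => n - 1 - i) n, Finset.sum_range_reflect (fun i => i) n,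
      Finset.sum_range_id]
  rw [hM, Matrix.det_projVandermonde]
  unfold Q
  rw [norm_prod, ← Finset.prod_pow, ← hcnt, ← Finset.prod_pow_eq_pow_sum, ← Finset.prod_mul_distrib]
  refine Finset.prod_congr rfl fun k _ => ?_
  rw [norm_prod, ← Finset.prod_pow, ← Finset.prod_const, ← Finset.prod_mul_distrib]
  refine Finset.prod_congr rfl fun j _ => ?_
  rw [chord (r j) (r k) (h j).1 (h k).1 (h j).2 (h k).2]
  congr 2
  rw [← norm_neg]
  congr 1
  ring

theorem phi_norm (n l : ℕ) (w : R3) (hw : ‖w‖ = 1) (h : w 2 ≠ -1) :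
    ‖phi n l w‖ ^ 2 = ((1 + w 2) / 2) ^ (n - 1 - l) * ((1 - w 2) / 2) ^ l := by
  have h1 : w 0 ^ 2 + w 1 ^ 2 + w 2 ^ 2 = 1 := by
    have h2 := EuclideanSpace.norm_sq_eq w
    rw [hw, Fin.sum_univ_three] at h2
    simp only [Real.norm_eq_abs, sq_abs] at h2
    linarith
  have h2 : 0 < 1 + w 2 := by
    have h3 : -1 ≤ w 2 := by nlinarith [sq_nonneg (w 0), sq_nonneg (w 1)]
    have h4 : -1 < w 2 := lt_of_le_of_ne h3 (Ne.symm h)
    linarith
  have hu : ‖uu w‖ ^ 2 = (1 + w 2) / 2 := by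
    unfold uu
    rw [Complex.norm_real, Real.norm_of_nonneg (Real.sqrt_nonneg _), Real.sq_sqrt (by linarith)]
  have hv : ‖vv w‖ ^ 2 = (1 - w 2) / 2 := by
    unfold vv
    rw [norm_div, div_pow, Complex.norm_real, Real.norm_of_nonneg (Real.sqrt_nonneg _),
      Real.sq_sqrt (by linarith), ← Complex.normSq_eq_norm_sq, Complex.normSq_add_mul_I,
      div_eq_div_iff (by linarith) (by norm_num)]
    nlinarith
  unfold phi
  rw [norm_mul, norm_pow, norm_pow, mul_pow, ← pow_mul, ← pow_mul, mul_comm (n - 1 - l) 2, mul_comm l 2,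
    pow_mul, pow_mul, hu, hv]

theorem phi_integrable_meas (n l : ℕ) : Measurable (phi n l) := by
  have hc : ∀ i : Fin 3, Measurable (fun w : R3 => w i) := fun i => by
    have : Continuous (fun w : R3 => w i) := by fun_prop
    exact this.measurable
  have h0 := hc 0
  have h1 := hc 1
  have h2 := hc 2
  have hu : Measurable uu := by
    unfold uu
    exact Complex.measurable_ofReal.comp
      ((((measurable_const.add h2).div_const 2)).sqrt)
  have hv : Measurable vv := by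
    unfold vv
    refine Measurable.div ?_ ?_
    · exact (Complex.measurable_ofReal.comp h0).add
        ((Complex.measurable_ofReal.comp h1).mul_const Complex.I)
    · exact Complex.measurable_ofReal.comp
        (((measurable_const.add h2).const_mul 2).sqrt)
  exact (hu.pow_const _).mul (hv.pow_const _)

theorem phi_integrable_bd (n l : ℕ) (w : R3) (hw : ‖w‖ = 1) (h : w 2 ≠ -1) :
    ‖phi n l w‖ ≤ 1 := by
  have h1 := phi_norm n l w hw h
  have h2 : |w 2| ≤ 1 := by
    have := PiLp.norm_apply_le w 2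
    rw [hw, Real.norm_eq_abs] at this
    exact this
  obtain ⟨h3, h4⟩ := abs_le.1 h2
  have a1 : ((1 + w 2) / 2) ^ (n - 1 - l) ≤ 1 := pow_le_one₀ (by linarith) (by linarith)
  have a2 : ((1 - w 2) / 2) ^ l ≤ 1 := pow_le_one₀ (by linarith) (by linarith)
  have a3 : 0 ≤ ((1 - w 2) / 2) ^ l := pow_nonneg (by linarith) _
  have a4 : 0 ≤ ((1 + w 2) / 2) ^ (n - 1 - l) := pow_nonneg (by linarith) _
  have h5 : ‖phi n l w‖ ^ 2 ≤ 1 := by
    rw [h1]
    exact mul_le_one₀ a1 a3 a2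
  have h6 := norm_nonneg (phi n l w)
  nlinarith

theorem phi_integrable (n l l' : ℕ) :
    Integrable (fun w => phi n l w * (starRingEnd ℂ) (phi n l' w)) sph := by
  have := sph_finite
  refine Integrable.of_bound (C := 1) ?_ ?_
  · exact ((phi_integrable_meas n l).mul
      (Complex.continuous_conj.measurable.comp (phi_integrable_meas n l'))).aestronglyMeasurable
  · filter_upwards [sph_ae2] with w hw
    rw [norm_mul, RCLike.norm_conj]
    exact mul_le_one₀ (phi_integrable_bd n l w hw.1 hw.2) (norm_nonneg _)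
      (phi_integrable_bd n l' w hw.1 hw.2)

/-- rotation about the third axis -/
noncomputable def rotE (c s : ℝ) (h : c ^ 2 + s ^ 2 = 1) : R3 ≃ₗᵢ[ℝ] R3 where
  toFun w := !₂[c * w 0 - s * w 1, s * w 0 + c * w 1, w 2]
  invFun w := !₂[c * w 0 + s * w 1, -s * w 0 + c * w 1, w 2]
  left_inv w := by
    ext i
    fin_cases i
    · simp
      linear_combination (w 0) * h
    · simp
      linear_combination (w 1) * h
    · simp
  right_inv w := by
    ext i
    fin_cases i
    · simp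
      linear_combination (w 0) * h
    · simp
      linear_combination (w 1) * h
    · simp
  map_add' w z := by
    ext i
    fin_cases i
    · simp
      ring
    · simp
      ring
    · simp
  map_smul' a w := by
    ext i
    fin_cases i
    · simp
      ring
    · simp
      ring
    · simp
  norm_map' w := by
    rw [EuclideanSpace.norm_eq, EuclideanSpace.norm_eq]
    congr 1
    simp only [Fin.sum_univ_three, Real.norm_eq_abs, sq_abs]
    simp
    linear_combination ((w 0) ^ 2 + (w 1) ^ 2) * h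

theorem rotE_zero (c s : ℝ) (h : c ^ 2 + s ^ 2 = 1) (w : R3) :
    (rotE c s h w) 0 = c * w 0 - s * w 1 := rfl
theorem rotE_one (c s : ℝ) (h : c ^ 2 + s ^ 2 = 1) (w : R3) :
    (rotE c s h w) 1 = s * w 0 + c * w 1 := rfl
theorem rotE_two (c s : ℝ) (h : c ^ 2 + s ^ 2 = 1) (w : R3) :
    (rotE c s h w) 2 = w 2 := rfl

theorem uu_rotE (c s : ℝ) (h : c ^ 2 + s ^ 2 = 1) (w : R3) : uu (rotE c s h w) = uu w := by
  unfold uu
  rw [rotE_two]

theorem vv_rotE (c s : ℝ) (h : c ^ 2 + s ^ 2 = 1) (w : R3) :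
    vv (rotE c s h w) = ((c : ℂ) + (s : ℂ) * Complex.I) * vv w := by
  unfold vv
  rw [rotE_two, rotE_zero, rotE_one, ← mul_div_assoc]
  congr 1
  push_cast
  linear_combination (-(s : ℂ) * ((w 1 : ℝ) : ℂ)) * Complex.I_sq

theorem phi_rotE (n l : ℕ) (c s : ℝ) (h : c ^ 2 + s ^ 2 = 1) (w : R3) :
    phi n l (rotE c s h w) = ((c : ℂ) + (s : ℂ) * Complex.I) ^ l * phi n l w := by
  unfold phi
  rw [uu_rotE, vv_rotE, mul_pow]
  ring

theorem phi_orth (n l l' : ℕ) (hll : l ≠ l') :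
    ∫ w, phi n l w * (starRingEnd ℂ) (phi n l' w) ∂sph = 0 := by
  set t : ℝ := Real.pi / ((l : ℝ) - (l' : ℝ)) with ht
  have hd : ((l : ℝ) - (l' : ℝ)) ≠ 0 := by
    rw [sub_ne_zero]
    exact_mod_cast hll
  have h : Real.cos t ^ 2 + Real.sin t ^ 2 = 1 := Real.cos_sq_add_sin_sq t
  set e := rotE (Real.cos t) (Real.sin t) h with he
  have hz : ((Real.cos t : ℝ) : ℂ) + ((Real.sin t : ℝ) : ℂ) * Complex.I
      = Complex.exp ((t : ℂ) * Complex.I) := by
    rw [Complex.exp_mul_I, Complex.ofReal_cos, Complex.ofReal_sin]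
  have hfac : (Complex.exp ((t : ℂ) * Complex.I)) ^ l *
      (starRingEnd ℂ) ((Complex.exp ((t : ℂ) * Complex.I)) ^ l') = -1 := by
    rw [map_pow, ← Complex.exp_conj, ← Complex.exp_nat_mul, ← Complex.exp_nat_mul,
      ← Complex.exp_add, ← Complex.exp_pi_mul_I]
    congr 1
    rw [map_mul, Complex.conj_ofReal, Complex.conj_I]
    have : ((l : ℂ) - (l' : ℂ)) * (t : ℂ) = (Real.pi : ℂ) := by
      have h2 : ((l : ℝ) - (l' : ℝ)) * t = Real.pi := by
        rw [ht]
        field_simp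
      exact_mod_cast h2
    linear_combination Complex.I * this
  have hpt : ∀ w : R3, phi n l (e w) * (starRingEnd ℂ) (phi n l' (e w))
      = -1 * (phi n l w * (starRingEnd ℂ) (phi n l' w)) := by
    intro w
    rw [he, phi_rotE, phi_rotE, hz, map_mul, ← hfac]
    ring
  have hJ : ∫ w, phi n l w * (starRingEnd ℂ) (phi n l' w) ∂sph
      = ∫ w, phi n l (e w) * (starRingEnd ℂ) (phi n l' (e w)) ∂sph := by
    conv_lhs => rw [← sph_rot e]
    exact e.toHomeomorph.measurableEmbedding.integral_map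
      (fun w => phi n l w * (starRingEnd ℂ) (phi n l' w))
  have h3 : ∫ w, phi n l w * (starRingEnd ℂ) (phi n l' w) ∂sph
      = - ∫ w, phi n l w * (starRingEnd ℂ) (phi n l' w) ∂sph := by
    conv_lhs => rw [hJ]
    rw [integral_congr_ae (Filter.Eventually.of_forall hpt), integral_const_mul]
    ring
  have h4 : (2 : ℂ) * ∫ w, phi n l w * (starRingEnd ℂ) (phi n l' w) ∂sph = 0 := by
    linear_combination h3
  exact (mul_eq_zero.mp h4).resolve_left two_ne_zero

theorem phi_diag (n l : ℕ) (hl : l < n) :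
    ∫ w, phi n l w * (starRingEnd ℂ) (phi n l w) ∂sph
      = ((4 * Real.pi * (((n - 1 - l).factorial : ℝ) * l.factorial / n.factorial) : ℝ) : ℂ) := by
  have h1 : ∀ᵐ w ∂sph, phi n l w * (starRingEnd ℂ) (phi n l w)
      = ((((1 + w 2) / 2) ^ (n - 1 - l) * ((1 - w 2) / 2) ^ l : ℝ) : ℂ) := by
    filter_upwards [sph_ae2] with w hw
    rw [← phi_norm n l w hw.1 hw.2, Complex.mul_conj, Complex.normSq_eq_norm_sq]
  rw [integral_congr_ae h1]
  have h2 := sph_beta (n - 1 - l) l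
  have h3 : n - 1 - l + l + 1 = n := by omega
  rw [h3] at h2
  rw [← h2]
  exact integral_ofReal

theorem andreief {α : Type} [MeasurableSpace α] (μ : Measure α) [IsFiniteMeasure μ] (n : ℕ)
    (φ : Fin n → α → ℂ) (h : Fin n → ℝ)
    (hi : ∀ l l', Integrable (fun w => φ l w * (starRingEnd ℂ) (φ l' w)) μ)
    (ho : ∀ l l', l ≠ l' → ∫ w, φ l w * (starRingEnd ℂ) (φ l' w) ∂μ = 0)
    (hd : ∀ l, ∫ w, φ l w * (starRingEnd ℂ) (φ l w) ∂μ = ((h l : ℝ) : ℂ)) :
    ∫ r : Fin n → α, ‖(Matrix.of fun j l : Fin n => φ l (r j)).det‖ ^ 2 ∂(Measure.pi fun _ => μ)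
      = (n.factorial : ℝ) * ∏ l, h l := by
  classical
  have hdet : ∀ r : Fin n → α,
      ((‖(Matrix.of fun j l : Fin n => φ l (r j)).det‖ ^ 2 : ℝ) : ℂ) =
      ∑ s : Equiv.Perm (Fin n), ∑ t : Equiv.Perm (Fin n),
        ((((Equiv.Perm.sign s : ℤˣ) : ℤ) : ℂ) * (((Equiv.Perm.sign t : ℤˣ) : ℤ) : ℂ)) *
          ∏ j, (φ (s j) (r j) * (starRingEnd ℂ) (φ (t j) (r j))) := by
    intro r
    set M : Matrix (Fin n) (Fin n) ℂ := Matrix.of fun j l : Fin n => φ l (r j) with hM
    have h1 : ((‖M.det‖ ^ 2 : ℝ) : ℂ) = M.det * (starRingEnd ℂ) M.det := by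
      rw [Complex.mul_conj, Complex.normSq_eq_norm_sq]
    have h2 : M.det = ∑ s : Equiv.Perm (Fin n),
        (((Equiv.Perm.sign s : ℤˣ) : ℤ) : ℂ) * ∏ j, φ (s j) (r j) := by
      rw [← Matrix.det_transpose, Matrix.det_apply']
      rfl
    have h3 : (starRingEnd ℂ) M.det = ∑ t : Equiv.Perm (Fin n),
        (((Equiv.Perm.sign t : ℤˣ) : ℤ) : ℂ) * ∏ j, (starRingEnd ℂ) (φ (t j) (r j)) := by
      rw [h2, map_sum]
      refine Finset.sum_congr rfl fun t _ => ?_
      rw [map_mul, map_prod, map_intCast]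
    rw [h1, h3, h2, Finset.sum_mul_sum]
    refine Finset.sum_congr rfl fun s _ => Finset.sum_congr rfl fun t _ => ?_
    rw [Finset.prod_mul_distrib]
    ring
  have hI : ∀ s t : Equiv.Perm (Fin n), Integrable (fun r : Fin n → α =>
      ((((Equiv.Perm.sign s : ℤˣ) : ℤ) : ℂ) * (((Equiv.Perm.sign t : ℤˣ) : ℤ) : ℂ)) *
          ∏ j, (φ (s j) (r j) * (starRingEnd ℂ) (φ (t j) (r j)))) (Measure.pi fun _ => μ) := by
    intro s t
    have h1 : Integrable (fun r : Fin n → α =>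
        ∏ j, (φ (s j) (r j) * (starRingEnd ℂ) (φ (t j) (r j)))) (Measure.pi fun _ => μ) :=
      Integrable.fintype_prod (f := fun j w => φ (s j) w * (starRingEnd ℂ) (φ (t j) w))
        (fun j => hi (s j) (t j))
    exact h1.const_mul _
  have hval : ∀ s t : Equiv.Perm (Fin n), ∫ r : Fin n → α,
      ∏ j, (φ (s j) (r j) * (starRingEnd ℂ) (φ (t j) (r j))) ∂(Measure.pi fun _ => μ) =
      if s = t then ∏ l, ((h l : ℝ) : ℂ) else 0 := by
    intro s t
    rw [integral_fintype_prod_eq_prod (fun j w => φ (s j) w * (starRingEnd ℂ) (φ (t j) w))]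
    split_ifs with hst
    · subst hst
      simp_rw [hd]
      exact Equiv.prod_comp s (fun l => ((h l : ℝ) : ℂ))
    · have h1 : ∃ j, s j ≠ t j := by
        by_contra hc
        push Not at hc
        exact hst (Equiv.ext hc)
      obtain ⟨j, hj⟩ := h1
      exact Finset.prod_eq_zero (Finset.mem_univ j) (ho _ _ hj)
  have hC : ((∫ r : Fin n → α, ‖(Matrix.of fun j l : Fin n => φ l (r j)).det‖ ^ 2
      ∂(Measure.pi fun _ => μ) : ℝ) : ℂ) = (((n.factorial : ℝ) * ∏ l, h l : ℝ) : ℂ) := by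
    rw [← integral_complex_ofReal]
    simp_rw [hdet]
    rw [integral_finsetSum _ (fun s _ => integrable_finsetSum _ (fun t _ => hI s t))]
    have h1 : ∀ s : Equiv.Perm (Fin n), ∫ r : Fin n → α, ∑ t : Equiv.Perm (Fin n),
        ((((Equiv.Perm.sign s : ℤˣ) : ℤ) : ℂ) * (((Equiv.Perm.sign t : ℤˣ) : ℤ) : ℂ)) *
          ∏ j, (φ (s j) (r j) * (starRingEnd ℂ) (φ (t j) (r j))) ∂(Measure.pi fun _ => μ) =
          ∏ l, ((h l : ℝ) : ℂ) := by
      intro s
      rw [integral_finsetSum _ (fun t _ => hI s t)]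
      simp_rw [integral_const_mul, hval]
      simp only [mul_ite, mul_zero, Finset.sum_ite_eq, Finset.mem_univ, if_true]
      rw [← Int.cast_mul, Int.units_coe_mul_self, Int.cast_one, one_mul]
    simp_rw [h1]
    rw [Finset.sum_const, Finset.card_univ, Fintype.card_perm, Fintype.card_fin, nsmul_eq_mul]
    push_cast
    rfl
  exact_mod_cast hC

theorem Q_integral (n : ℕ) :
    ∫ r : Fin n → R3, Q r ∂(Measure.pi fun _ => sph)
      = 4 ^ (n * (n - 1) / 2) * ((n.factorial : ℝ)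
        * ∏ l : Fin n, (4 * Real.pi * (((n - 1 - (l : ℕ)).factorial : ℝ) * (l : ℕ).factorial / n.factorial))) := by
  haveI := sph_finite
  have hae : ∀ᵐ r : Fin n → R3 ∂(Measure.pi fun _ => sph), ∀ j, ‖r j‖ = 1 ∧ r j 2 ≠ -1 := by
    rw [Filter.eventually_all]
    intro j
    exact (Measure.tendsto_eval_ae_ae (μ := fun _ : Fin n => sph) (i := j)).eventually sph_ae2
  have h1 : ∫ r : Fin n → R3, Q r ∂(Measure.pi fun _ => sph) =
      ∫ r : Fin n → R3, 4 ^ (n * (n - 1) / 2)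
      * ‖(Matrix.of fun j l : Fin n => phi n l (r j)).det‖ ^ 2 ∂(Measure.pi fun _ => sph) := by
    apply integral_congr_ae
    filter_upwards [hae] with r hr
    exact Q_det n r hr
  rw [h1, integral_const_mul]
  congr 1
  exact andreief sph n (fun l => phi n l)
    (fun l : Fin n => 4 * Real.pi * (((n - 1 - (l : ℕ)).factorial : ℝ) * (l : ℕ).factorial / n.factorial))
    (fun l l' => phi_integrable n l l')
    (fun l l' hll => phi_orth n l l' (fun h => hll (Fin.ext h)))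
    (fun l => phi_diag n l l.2)

theorem closed_form (n : ℕ) (hn : 1 ≤ n) :
    4 ^ (n * (n - 1) / 2) * ((n.factorial : ℝ)
        * ∏ l : Fin n, (4 * Real.pi * (((n - 1 - (l : ℕ)).factorial : ℝ) * (l : ℕ).factorial / n.factorial)))
      = 2 ^ (n * (n + 1)) * Real.pi ^ n * (∏ k ∈ Finset.range n, (k.factorial : ℝ) ^ 2)
        / (n.factorial : ℝ) ^ (n - 1) := by
  obtain ⟨m, rfl⟩ : ∃ m, n = m + 1 := ⟨n - 1, by omega⟩
  have hfac : ((m + 1).factorial : ℝ) ≠ 0 := by
    exact_mod_cast Nat.factorial_ne_zero _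
  have h4 : (4 : ℝ) ^ ((m + 1) * (m + 1 - 1) / 2) = 2 ^ ((m + 1) * m) := by
    have e : Even ((m + 1) * (m + 1 - 1)) := Nat.even_mul_pred_self (m + 1)
    have e2 := Nat.two_mul_div_two_of_even e
    rw [show (4 : ℝ) = 2 ^ 2 by norm_num, ← pow_mul, e2]
    simp
  have hA : ∏ l ∈ Finset.range (m + 1), ((m - l).factorial : ℝ) =
      ∏ l ∈ Finset.range (m + 1), (l.factorial : ℝ) := by
    have := Finset.prod_range_reflect (fun l => (l.factorial : ℝ)) (m + 1)
    rw [← this]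
    apply Finset.prod_congr rfl
    intro l _
    simp
  have hP : ∏ l : Fin (m + 1), (4 * Real.pi * (((m + 1 - 1 - (l : ℕ)).factorial : ℝ) * (l : ℕ).factorial / (m + 1).factorial)) =
      (4 * Real.pi) ^ (m + 1) * ((∏ k ∈ Finset.range (m + 1), (k.factorial : ℝ)) *
        (∏ k ∈ Finset.range (m + 1), (k.factorial : ℝ))) / ((m + 1).factorial : ℝ) ^ (m + 1) := by
    rw [← Finset.prod_range (fun l : ℕ => 4 * Real.pi * (((m + 1 - 1 - l).factorial : ℝ) * l.factorial / (m + 1).factorial))]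
    simp only [Nat.add_sub_cancel]
    rw [Finset.prod_mul_distrib (f := fun _ : ℕ => 4 * Real.pi), Finset.prod_div_distrib,
      Finset.prod_mul_distrib (f := fun x : ℕ => ((m - x).factorial : ℝ)), Finset.prod_const,
      Finset.prod_const, Finset.card_range]
    rw [hA]
    ring
  have hsq : (∏ k ∈ Finset.range (m + 1), (k.factorial : ℝ) ^ 2) =
      (∏ k ∈ Finset.range (m + 1), (k.factorial : ℝ)) * (∏ k ∈ Finset.range (m + 1), (k.factorial : ℝ)) := by
    rw [Finset.prod_pow, sq]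
  rw [hP, h4, hsq]
  have h2 : (2 : ℝ) ^ ((m + 1) * (m + 1 + 1)) = 2 ^ ((m + 1) * m) * 4 ^ (m + 1) := by
    rw [show (4 : ℝ) = 2 ^ 2 by norm_num, ← pow_mul, ← pow_add]
    congr 1
    ring
  rw [h2]
  simp only [Nat.add_sub_cancel]
  rw [mul_pow, pow_succ ((m + 1).factorial : ℝ) m]
  have hfm : ((m + 1).factorial : ℝ) ^ m ≠ 0 := pow_ne_zero _ hfac
  field_simp

theorem F2_closed (n : ℕ) (hn : 1 ≤ n) :
    ∫ w : Fin n → Metric.sphere (0 : R3) 1, Q (fun i => (w i : R3))
        ∂(Measure.pi fun _ => (volume : Measure R3).toSphere)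
      = 2 ^ (n * (n + 1)) * Real.pi ^ n * (∏ k ∈ Finset.range n, (k.factorial : ℝ) ^ 2)
        / (n.factorial : ℝ) ^ (n - 1) := by

  have hc : Continuous (fun r : Fin n → R3 => Q r) := by
    unfold Q
    fun_prop
  have h0 : ∀ r : Fin n → R3, 0 ≤ Q r := fun r =>
    Finset.prod_nonneg fun k _ => Finset.prod_nonneg fun j _ => by positivity
  rw [F2_eq, ← integral_eq_lintegral_of_nonneg_ae (Filter.Eventually.of_forall h0)
    hc.aestronglyMeasurable, Q_integral, closed_form n hn]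

theorem fact_step (n : ℕ) (hn : 1 ≤ n) :
    -(n : ℝ) - 1 ≤ Real.log n.factorial - n * Real.log ((n : ℝ) + 1) ∧
      Real.log n.factorial - n * Real.log ((n : ℝ) + 1) ≤ -(n : ℝ) + 1 + Real.log n := by
  induction n, hn using Nat.le_induction with
  | base =>
    have h1 : Real.log 2 ≤ 2 - 1 := Real.log_le_sub_one_of_pos (by norm_num)
    have h2 : 0 ≤ Real.log 2 := Real.log_nonneg (by norm_num)
    have e : ((1 : ℕ) : ℝ) + 1 = 2 := by norm_num
    rw [e]
    simp only [Nat.factorial_one, Nat.cast_one, Real.log_one]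
    constructor <;> linarith
  | succ n hn ih =>
    obtain ⟨ih1, ih2⟩ := ih
    have hn1 : (1 : ℝ) ≤ n := by exact_mod_cast hn
    have e1 : (((n + 1 : ℕ) : ℝ)) = (n : ℝ) + 1 := by push_cast; ring
    have e2 : ((n : ℝ) + 1) + 1 = (n : ℝ) + 2 := by ring
    have hf : Real.log (((n + 1).factorial : ℕ) : ℝ) = Real.log ((n : ℝ) + 1) + Real.log (n.factorial : ℝ) := by
      rw [Nat.factorial_succ]
      push_cast
      rw [Real.log_mul (by positivity) (by positivity)]
    rw [hf, e1, e2]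
    have a1 : Real.log (((n : ℝ) + 2) / ((n : ℝ) + 1)) = Real.log ((n : ℝ) + 2) - Real.log ((n : ℝ) + 1) :=
      Real.log_div (by positivity) (by positivity)
    have a2 : Real.log (((n : ℝ) + 1) / (n : ℝ)) = Real.log ((n : ℝ) + 1) - Real.log (n : ℝ) :=
      Real.log_div (by positivity) (by positivity)
    have b1 : Real.log (((n : ℝ) + 2) / ((n : ℝ) + 1)) ≤ ((n : ℝ) + 2) / ((n : ℝ) + 1) - 1 :=
      Real.log_le_sub_one_of_pos (by positivity)
    have b2 : 1 - (((n : ℝ) + 2) / ((n : ℝ) + 1))⁻¹ ≤ Real.log (((n : ℝ) + 2) / ((n : ℝ) + 1)) :=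
      Real.one_sub_inv_le_log_of_pos (by positivity)
    have b3 : 1 - (((n : ℝ) + 1) / (n : ℝ))⁻¹ ≤ Real.log (((n : ℝ) + 1) / (n : ℝ)) :=
      Real.one_sub_inv_le_log_of_pos (by positivity)
    rw [a1] at b1 b2
    rw [a2] at b3
    have c1 : ((n : ℝ) + 1) * (((n : ℝ) + 2) / ((n : ℝ) + 1) - 1) = 1 := by
      field_simp
      ring
    have c2 : ((n : ℝ) + 1) * (1 - (((n : ℝ) + 2) / ((n : ℝ) + 1))⁻¹) = 1 - 1 / ((n : ℝ) + 2) := by
      field_simp
      ring
    have c3 : 1 - (((n : ℝ) + 1) / (n : ℝ))⁻¹ = 1 / ((n : ℝ) + 1) := by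
      field_simp
      ring
    have c4 : 1 / ((n : ℝ) + 2) ≤ 1 / ((n : ℝ) + 1) := one_div_le_one_div_of_le (by positivity) (by linarith)
    have hpos : (0 : ℝ) ≤ (n : ℝ) + 1 := by positivity
    have d1 := mul_le_mul_of_nonneg_left b1 hpos
    have d2 := mul_le_mul_of_nonneg_left b2 hpos
    rw [c1] at d1
    rw [c2] at d2
    rw [c3] at b3
    constructor <;> nlinarith

theorem asym_fact :
    Filter.Tendsto (fun n : ℕ => (2 * ∑ k ∈ Finset.range n, Real.log k.factorial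
      - ((n : ℝ) - 1) * Real.log n.factorial) / (n : ℝ) ^ 2) Filter.atTop (nhds (-1 / 2)) := by
  set a : ℕ → ℝ := fun n => 2 * ∑ k ∈ Finset.range n, Real.log k.factorial
      - ((n : ℝ) - 1) * Real.log n.factorial with ha
  have hstep : ∀ n : ℕ, a (n + 1) = a n + (Real.log n.factorial - n * Real.log ((n : ℝ) + 1)) := by
    intro n
    simp only [ha]
    rw [Finset.sum_range_succ, Nat.factorial_succ]
    push_cast
    rw [Real.log_mul (by positivity) (by positivity)]
    ring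
  have hb : ∀ n : ℕ, -((n : ℝ) + 1) ≤ a (n + 1) + ((n : ℝ) + 1) ^ 2 / 2 ∧
      a (n + 1) + ((n : ℝ) + 1) ^ 2 / 2 ≤ ((n : ℝ) + 1) * (2 + Real.log ((n : ℝ) + 1)) := by
    intro n
    induction n with
    | zero =>
      have h0 : a (0 + 1) = 0 := by
        simp [ha]
      rw [h0]
      norm_num
    | succ n ih =>
      have h1 := fact_step (n + 1) (by omega)
      rw [hstep (n + 1)]
      push_cast at h1 ih ⊢
      have h2 : Real.log ((n : ℝ) + 1) ≤ Real.log ((n : ℝ) + 1 + 1) :=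
        Real.log_le_log (by positivity) (by linarith)
      have h3 : 0 ≤ Real.log ((n : ℝ) + 1) := Real.log_nonneg (by
        have : (0:ℝ) ≤ n := Nat.cast_nonneg n
        linarith)
      have hn : (0:ℝ) ≤ n := Nat.cast_nonneg n
      constructor
      · nlinarith [h1.1, ih.1]
      · nlinarith [h1.2, ih.2, mul_le_mul_of_nonneg_left h2 (by linarith : (0:ℝ) ≤ (n:ℝ) + 1)]
  have hb' : ∀ n : ℕ, 1 ≤ n → -(n : ℝ) ≤ a n + (n : ℝ) ^ 2 / 2 ∧
      a n + (n : ℝ) ^ 2 / 2 ≤ (n : ℝ) * (2 + Real.log n) := by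
    intro n hn
    obtain ⟨m, rfl⟩ := Nat.exists_eq_add_of_le' hn
    have := hb m
    push_cast
    exact this
  have hinv : Filter.Tendsto (fun n : ℕ => 1 / (n : ℝ)) Filter.atTop (nhds 0) :=
    tendsto_one_div_atTop_nhds_zero_nat
  have hlog : Filter.Tendsto (fun n : ℕ => Real.log n / (n : ℝ)) Filter.atTop (nhds 0) :=
    (Real.isLittleO_log_id_atTop.tendsto_div_nhds_zero).comp tendsto_natCast_atTop_atTop
  have hlo : Filter.Tendsto (fun n : ℕ => (-1 / 2 : ℝ) - 1 / (n : ℝ)) Filter.atTop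
      (nhds (-1 / 2)) := by
    simpa using hinv.const_sub (-1 / 2 : ℝ)
  have hhi : Filter.Tendsto (fun n : ℕ => (-1 / 2 : ℝ) + (2 * (1 / (n : ℝ)) + Real.log n / (n : ℝ)))
      Filter.atTop (nhds (-1 / 2)) := by
    have h1 := ((hinv.const_mul 2).add hlog).const_add (-1 / 2 : ℝ)
    simpa using h1
  refine tendsto_of_tendsto_of_tendsto_of_le_of_le' hlo hhi ?_ ?_
  · filter_upwards [Filter.eventually_ge_atTop 1] with n hn
    have hn' : (0:ℝ) < n := by exact_mod_cast hn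
    have h1 := (hb' n hn).1
    show (-1 / 2 : ℝ) - 1 / (n : ℝ) ≤ a n / (n : ℝ) ^ 2
    rw [le_div_iff₀ (by positivity)]
    have e1 : ((-1 / 2 : ℝ) - 1 / (n : ℝ)) * (n : ℝ) ^ 2 = -(n : ℝ) ^ 2 / 2 - n := by
      field_simp
      try ring
    rw [e1]
    linarith
  · filter_upwards [Filter.eventually_ge_atTop 1] with n hn
    have hn' : (0:ℝ) < n := by exact_mod_cast hn
    have h1 := (hb' n hn).2
    show a n / (n : ℝ) ^ 2 ≤ (-1 / 2 : ℝ) + (2 * (1 / (n : ℝ)) + Real.log n / (n : ℝ))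
    rw [div_le_iff₀ (by positivity)]
    have e1 : ((-1 / 2 : ℝ) + (2 * (1 / (n : ℝ)) + Real.log n / (n : ℝ))) * (n : ℝ) ^ 2 =
        -(n : ℝ) ^ 2 / 2 + n * (2 + Real.log n) := by
      field_simp
      try ring
    rw [e1]
    linarith

theorem asym_closed_log (n : ℕ) (hn : 1 ≤ n) :
    Real.log (2 ^ (n * (n + 1)) * Real.pi ^ n
      * (∏ k ∈ Finset.range n, (k.factorial : ℝ) ^ 2) / (n.factorial : ℝ) ^ (n - 1)) =
    (n : ℝ) * ((n : ℝ) + 1) * Real.log 2 + (n : ℝ) * Real.log Real.pi +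
      (2 * ∑ k ∈ Finset.range n, Real.log k.factorial
      - ((n : ℝ) - 1) * Real.log n.factorial) := by
  have h2 : (2:ℝ) ^ (n * (n + 1)) ≠ 0 := by positivity
  have hpi : Real.pi ^ n ≠ 0 := by positivity
  have hprod : (∏ k ∈ Finset.range n, (k.factorial : ℝ) ^ 2) ≠ 0 := by
    apply Finset.prod_ne_zero_iff.2
    intro k _
    have : (k.factorial : ℝ) ≠ 0 := by exact_mod_cast k.factorial_ne_zero
    positivity
  have hfac : (n.factorial : ℝ) ≠ 0 := by exact_mod_cast n.factorial_ne_zero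
  have hfac' : (n.factorial : ℝ) ^ (n - 1) ≠ 0 := pow_ne_zero _ hfac
  rw [Real.log_div (mul_ne_zero (mul_ne_zero h2 hpi) hprod) hfac',
    Real.log_mul (mul_ne_zero h2 hpi) hprod, Real.log_mul h2 hpi, Real.log_pow, Real.log_pow,
    Real.log_pow, Real.log_prod (fun k _ => by
      have : (k.factorial : ℝ) ≠ 0 := by exact_mod_cast k.factorial_ne_zero
      positivity)]
  have h3 : ∑ k ∈ Finset.range n, Real.log ((k.factorial : ℝ) ^ 2) =
      2 * ∑ k ∈ Finset.range n, Real.log k.factorial := by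
    rw [Finset.mul_sum]
    refine Finset.sum_congr rfl (fun k _ => ?_)
    rw [Real.log_pow]
    norm_num
  rw [h3, Nat.cast_sub hn]
  push_cast
  ring

theorem asym_closed :
    Filter.Tendsto (fun n : ℕ => Real.log (2 ^ (n * (n + 1)) * Real.pi ^ n
      * (∏ k ∈ Finset.range n, (k.factorial : ℝ) ^ 2) / (n.factorial : ℝ) ^ (n - 1)) / (n : ℝ) ^ 2)
      Filter.atTop (nhds (Real.log 2 - 1 / 2)) := by
  have h0 : Filter.Tendsto (fun n : ℕ => (1 : ℝ) / (n : ℝ)) Filter.atTop (nhds 0) :=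
    tendsto_one_div_atTop_nhds_zero_nat
  have h1 : Filter.Tendsto (fun n : ℕ => (1 + 1 / (n : ℝ)) * Real.log 2 +
      (1 / (n : ℝ)) * Real.log Real.pi +
      (2 * ∑ k ∈ Finset.range n, Real.log k.factorial
      - ((n : ℝ) - 1) * Real.log n.factorial) / (n : ℝ) ^ 2) Filter.atTop
      (nhds ((1 + 0) * Real.log 2 + 0 * Real.log Real.pi + (-1 / 2))) :=
    (((tendsto_const_nhds.add h0).mul_const _).add (h0.mul_const _)).add asym_fact
  have h2 : (1 + 0) * Real.log 2 + 0 * Real.log Real.pi + (-1 / 2) = Real.log 2 - 1 / 2 := by ring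
  rw [h2] at h1
  refine Filter.Tendsto.congr' ?_ h1
  filter_upwards [Filter.eventually_ge_atTop 1] with n hn
  rw [asym_closed_log n hn]
  have hn0 : (n : ℝ) ≠ 0 := by
    have : (1:ℝ) ≤ n := by exact_mod_cast hn
    linarith
  field_simp
  try ring

theorem squeeze (A B : ℕ → ℝ) (L : ℝ) (hA : ∀ n, 1 ≤ n → 0 < A n)
    (h1 : ∀ n : ℕ, 1 ≤ n → (((n : ℝ) + 2) ^ n)⁻¹ * A n ≤ B n)
    (h2 : ∀ n : ℕ, 1 ≤ n → B n ≤ (1 / 3) ^ n * A n)
    (hL : Filter.Tendsto (fun n : ℕ => Real.log (A n) / (n : ℝ) ^ 2) Filter.atTop (nhds L)) :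
    Filter.Tendsto (fun n : ℕ => Real.log (B n) / (n : ℝ) ^ 2) Filter.atTop (nhds L) := by
  have h0 : Filter.Tendsto (fun n : ℕ => Real.log ((n : ℝ) + 2) / (n : ℝ)) Filter.atTop (nhds 0) := by
    have h := (Real.tendsto_pow_log_div_mul_add_atTop 1 (-2) 1 one_ne_zero).comp
      (Filter.tendsto_atTop_add_const_right _ (2 : ℝ) tendsto_natCast_atTop_atTop :
        Filter.Tendsto (fun n : ℕ => (n : ℝ) + 2) Filter.atTop Filter.atTop)
    refine h.congr fun n => ?_
    simp only [Function.comp, pow_one, one_mul]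
    congr 1
    ring
  have hlow : Filter.Tendsto (fun n : ℕ => Real.log (A n) / (n : ℝ) ^ 2
      - Real.log ((n : ℝ) + 2) / (n : ℝ)) Filter.atTop (nhds L) := by
    have := hL.sub h0
    rwa [sub_zero] at this
  refine tendsto_of_tendsto_of_tendsto_of_le_of_le' hlow hL ?_ ?_
  · filter_upwards [Filter.eventually_ge_atTop 1] with n hn
    have hn0 : (0 : ℝ) < n := by exact_mod_cast hn
    have hA' := hA n hn
    have hp : (0 : ℝ) < (((n : ℝ) + 2) ^ n)⁻¹ := by positivity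
    have hlog := Real.log_le_log (mul_pos hp hA') (h1 n hn)
    rw [Real.log_mul hp.ne' hA'.ne', Real.log_inv, Real.log_pow] at hlog
    have e : Real.log (A n) / (n : ℝ) ^ 2 - Real.log ((n : ℝ) + 2) / (n : ℝ)
        = (-((n : ℝ) * Real.log ((n : ℝ) + 2)) + Real.log (A n)) / (n : ℝ) ^ 2 := by
      field_simp
      ring
    rw [e]
    exact div_le_div_of_nonneg_right hlog (by positivity)
  · filter_upwards [Filter.eventually_ge_atTop 1] with n hn
    have hn0 : (0 : ℝ) < n := by exact_mod_cast hn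
    have hA' := hA n hn
    have hp : (0 : ℝ) < (((n : ℝ) + 2) ^ n)⁻¹ := by positivity
    have hB : 0 < B n := lt_of_lt_of_le (mul_pos hp hA') (h1 n hn)
    have h3 : ((1 : ℝ) / 3) ^ n * A n ≤ 1 * A n :=
      mul_le_mul_of_nonneg_right (pow_le_one₀ (by norm_num) (by norm_num)) hA'.le
    have hlog : Real.log (B n) ≤ Real.log (A n) :=
      Real.log_le_log hB (by linarith [h2 n hn])
    exact div_le_div_of_nonneg_right hlog (by positivity)

end SqDist
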