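import Mathlib

set_option autoImplicit false

namespace TC

open Finset

theorem galois_red {N : ℕ} (hN : 0 < N) {ζ : ℂ} (hζ : IsPrimitiveRoot ζ N) (a : ℤ) :
    ζ ^ a = ζ ^ (a % (N : ℤ)).toNat := by
  have hN' : (N : ℤ) ≠ 0 := by exact_mod_cast hN.ne'
  have h0 : ζ ≠ 0 := hζ.ne_zero hN.ne'
  have h1 : ((a % (N : ℤ)).toNat : ℤ) = a % (N : ℤ) := Int.toNat_of_nonneg (Int.emod_nonneg a hN')
  rw [← zpow_natCast, h1]
  conv_lhs => rw [← Int.mul_ediv_add_emod a (N : ℤ)]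
  rw [zpow_add₀ h0, zpow_mul, zpow_natCast, hζ.pow_eq_one, one_zpow, one_mul]

/-- Galois conjugation of a vanishing sum of roots of unity. -/
theorem galois {ι : Type} (I : Finset ι) (e : ι → ℤ) (N : ℕ) (hN : 0 < N) (ζ : ℂ)
    (hζ : IsPrimitiveRoot ζ N) (h : ∑ i ∈ I, ζ ^ e i = 0) (k : ℤ) (hk : IsCoprime k (N : ℤ)) :
    ∑ i ∈ I, ζ ^ (k * e i) = 0 := by
  classical
  have hN' : (N : ℤ) ≠ 0 := by exact_mod_cast hN.ne'
  obtain ⟨m, hm⟩ : ∃ m : ℕ, m = (k % (N : ℤ)).toNat := ⟨_, rfl⟩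
  have hmk : (m : ℤ) = k % (N : ℤ) := by
    rw [hm]
    exact Int.toNat_of_nonneg (Int.emod_nonneg k hN')
  have hcop : Nat.Coprime m N := by
    rw [← Nat.isCoprime_iff_coprime, hmk, Int.emod_def, sub_eq_add_neg, ← mul_neg]
    exact hk.add_mul_left_left _
  have hζk : ζ ^ k = ζ ^ m := by rw [galois_red hN hζ k, hm]
  let P : Polynomial ℤ := ∑ i ∈ I, Polynomial.X ^ (e i % (N : ℤ)).toNat
  have hP1 : Polynomial.aeval ζ P = 0 := by
    show Polynomial.aeval ζ (∑ i ∈ I, Polynomial.X ^ (e i % (N : ℤ)).toNat) = 0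
    rw [map_sum, ← h]
    refine Finset.sum_congr rfl fun i _ => ?_
    rw [map_pow, Polynomial.aeval_X, galois_red hN hζ (e i)]
  have hdvd : minpoly ℤ (ζ ^ m) ∣ P := by
    rw [← hζ.minpoly_eq_pow_coprime hcop]
    exact minpoly.isIntegrallyClosed_dvd (hζ.isIntegral hN) hP1
  have hP2 : Polynomial.aeval (ζ ^ m) P = 0 := by
    obtain ⟨Q, hQ⟩ := hdvd
    rw [hQ, map_mul, minpoly.aeval, zero_mul]
  rw [← hP2]
  show _ = Polynomial.aeval (ζ ^ m) (∑ i ∈ I, Polynomial.X ^ (e i % (N : ℤ)).toNat)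
  rw [map_sum]
  refine Finset.sum_congr rfl fun i _ => ?_
  rw [map_pow, Polynomial.aeval_X, zpow_mul, hζk, ← zpow_natCast ζ m, ← zpow_mul, mul_comm,
    zpow_mul, galois_red hN hζ (e i), zpow_natCast, zpow_natCast, ← pow_mul, ← pow_mul, mul_comm]

theorem geom_aux (N q N' : ℕ) (hN : N = q * N') (ζ : ℂ)
    (hζ : IsPrimitiveRoot ζ N) (A : ℤ) (hA1 : (q : ℤ) ∣ A - 1)
    (hA2 : (N' : ℤ) ∣ A) (z : ℤ) :
    ∑ j ∈ range q, ζ ^ ((j : ℤ) * A * z) = if (q : ℤ) ∣ z then (q : ℂ) else 0 := by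
  have h1 : ∀ j : ℕ, ζ ^ ((j : ℤ) * A * z) = (ζ ^ (A * z)) ^ j := by
    intro j
    rw [← zpow_natCast, ← zpow_mul]
    congr 1
    ring
  rw [Finset.sum_congr rfl (fun j _ => h1 j)]
  split_ifs with h
  · have h2 : ζ ^ (A * z) = 1 := by
      rw [hζ.zpow_eq_one_iff_dvd, hN]
      push_cast
      rw [mul_comm (q : ℤ)]
      exact mul_dvd_mul hA2 h
    rw [h2]
    simp
  · have h2 : ζ ^ (A * z) ≠ 1 := by
      intro h3
      rw [hζ.zpow_eq_one_iff_dvd, hN] at h3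
      push_cast at h3
      have h4 : (q : ℤ) ∣ A * z := dvd_trans (dvd_mul_right _ _) h3
      have h5 : (q : ℤ) ∣ (A - 1) * z := dvd_mul_of_dvd_left hA1 _
      have h6 := dvd_sub h4 h5
      apply h
      have : A * z - (A - 1) * z = z := by ring
      rwa [this] at h6
    rw [geom_sum_eq h2]
    have h3 : (ζ ^ (A * z)) ^ q = 1 := by
      rw [← zpow_natCast, ← zpow_mul, hζ.zpow_eq_one_iff_dvd, hN]
      push_cast
      obtain ⟨A', hA'⟩ := hA2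
      exact ⟨A' * z, by rw [hA']; ring⟩
    rw [h3]
    simp

theorem key_aux {ι : Type} (I : Finset ι) (e : ι → ℤ) (N q N' : ℕ) (hN : N = q * N')
    (hN0 : 0 < N) (ζ : ℂ)
    (hζ : IsPrimitiveRoot ζ N) (B : ℤ) (hB1 : (q : ℤ) ∣ B)
    (hB2 : (N' : ℤ) ∣ B - 1) (y : ℤ) :
    (q : ℂ) * ∑ i ∈ I.filter (fun i => (q : ℤ) ∣ e i - y), ζ ^ (B * e i) =
      ∑ j ∈ range q, ζ ^ (-((j : ℤ) * (1 - B) * y)) *
        ∑ i ∈ I, ζ ^ ((B + (j : ℤ) * (1 - B)) * e i) := by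
  have hζ0 : ζ ≠ 0 := hζ.ne_zero hN0.ne'
  have hA1 : (q : ℤ) ∣ (1 - B) - 1 := by
    have : (1 - B) - 1 = -B := by ring
    rw [this]
    exact (dvd_neg).2 hB1
  have hA2 : (N' : ℤ) ∣ 1 - B := by
    have : 1 - B = -(B - 1) := by ring
    rw [this]
    exact (dvd_neg).2 hB2
  simp_rw [Finset.mul_sum]
  rw [Finset.sum_comm, Finset.sum_filter]
  apply Finset.sum_congr rfl
  intro i _
  have h1 : ∀ j ∈ range q, ζ ^ (-((j : ℤ) * (1 - B) * y)) * ζ ^ ((B + (j : ℤ) * (1 - B)) * e i) =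
      ζ ^ (B * e i) * ζ ^ ((j : ℤ) * (1 - B) * (e i - y)) := by
    intro j _
    rw [← zpow_add₀ hζ0, ← zpow_add₀ hζ0]
    congr 1
    ring
  rw [Finset.sum_congr rfl h1, ← Finset.mul_sum,
    geom_aux N q N' hN ζ hζ (1 - B) hA1 hA2 (e i - y)]
  split_ifs
  · ring
  · simp

/-- Classes modulo a prime power. -/
theorem prime_step {ι : Type} (I : Finset ι) (e : ι → ℤ) (N p a N' : ℕ) (hN : N = p ^ a * N')
    (ha : 1 ≤ a) (hp : p.Prime) (hc : Nat.Coprime (p ^ a) N') (hN' : 0 < N') (ζ : ℂ)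
    (hζ : IsPrimitiveRoot ζ N) (h : ∑ i ∈ I, ζ ^ e i = 0) (B : ℤ) (hB1 : ((p ^ a : ℕ) : ℤ) ∣ B)
    (hB2 : (N' : ℤ) ∣ B - 1) (y c : ℤ) (hc0 : ((p ^ (a - 1) * N' : ℕ) : ℤ) ∣ c) :
    ∑ i ∈ I.filter (fun i => ((p ^ a : ℕ) : ℤ) ∣ e i - y), ζ ^ (B * e i) =
      ∑ i ∈ I.filter (fun i => ((p ^ a : ℕ) : ℤ) ∣ e i - (y + c)), ζ ^ (B * e i) := by
  have hq : 0 < p ^ a := pow_pos hp.pos _
  have hN0 : 0 < N := by rw [hN]; positivity
  have hqc : ((p ^ a : ℕ) : ℂ) ≠ 0 := by exact_mod_cast hq.ne'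
  have hζ0 : ζ ≠ 0 := hζ.ne_zero hN0.ne'
  apply mul_left_cancel₀ hqc
  rw [key_aux I e N (p ^ a) N' hN hN0 ζ hζ B hB1 hB2 y,
    key_aux I e N (p ^ a) N' hN hN0 ζ hζ B hB1 hB2 (y + c)]
  apply Finset.sum_congr rfl
  intro j _
  have hA2 : (N' : ℤ) ∣ 1 - B := by
    have : 1 - B = -(B - 1) := by ring
    rw [this]
    exact (dvd_neg).2 hB2
  by_cases hj : (p : ℤ) ∣ (j : ℤ)
  · congr 1
    have h1 : ζ ^ (-((j : ℤ) * (1 - B) * c)) = 1 := by
      rw [hζ.zpow_eq_one_iff_dvd, hN, dvd_neg]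
      obtain ⟨j', hj'⟩ := hj
      obtain ⟨A', hA'⟩ := hA2
      obtain ⟨c', hc'⟩ := hc0
      refine ⟨j' * A' * N' * c', ?_⟩
      rw [hj', hA', hc']
      push_cast
      have : (p : ℤ) ^ a = p ^ (a - 1) * p := by
        rw [← pow_succ, Nat.sub_add_cancel ha]
      rw [this]
      ring
    have h2 : -((j : ℤ) * (1 - B) * (y + c)) =
        -((j : ℤ) * (1 - B) * y) + -((j : ℤ) * (1 - B) * c) := by ring
    rw [h2, zpow_add₀ hζ0, h1, mul_one]
  · have hcop : IsCoprime (B + (j : ℤ) * (1 - B)) (N : ℤ) := by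
      rw [hN]
      push_cast
      apply IsCoprime.mul_right
      · apply IsCoprime.pow_right
        have hpj : IsCoprime (j : ℤ) (p : ℤ) := by
          have := (Nat.prime_iff_prime_int.1 hp).coprime_iff_not_dvd.2 hj
          exact this.symm
        have hpB : (p : ℤ) ∣ B := dvd_trans ⟨(p : ℤ) ^ (a - 1), by
          push_cast
          rw [← pow_succ', Nat.sub_add_cancel ha]⟩ hB1
        obtain ⟨b, hb⟩ := hpB
        have h3 : B + (j : ℤ) * (1 - B) = (j : ℤ) + (p : ℤ) * (b * (1 - j)) := by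
          rw [hb]; ring
        rw [h3]
        exact hpj.add_mul_left_left _
      · obtain ⟨b, hb⟩ := hB2
        have h3 : B + (j : ℤ) * (1 - B) = 1 + (N' : ℤ) * (b * (1 - j)) := by
          have : B = 1 + N' * b := by linarith
          rw [this]; ring
        rw [h3]
        exact isCoprime_one_left.add_mul_left_left _
    rw [galois I e N hN0 ζ hζ h _ hcop]
    simp

theorem class_sum {ι : Type} (I : Finset ι) (e : ι → ℤ) (N q N' : ℕ) (hN : N = q * N')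
    (ζ : ℂ) (hζ : IsPrimitiveRoot ζ N) (hpos : 0 < N) (B : ℤ)
    (hB2 : (N' : ℤ) ∣ B - 1) (y : ℤ) :
    ∑ i ∈ I.filter (fun i => ((q : ℕ) : ℤ) ∣ e i - y), ζ ^ e i =
      ζ ^ ((1 - B) * y) * ∑ i ∈ I.filter (fun i => ((q : ℕ) : ℤ) ∣ e i - y), ζ ^ (B * e i) := by
  have hz0 : ζ ≠ 0 := hζ.ne_zero hpos.ne'
  rw [Finset.mul_sum]
  apply Finset.sum_congr rfl
  intro i hi
  obtain ⟨c, hc⟩ := (Finset.mem_filter.1 hi).2
  obtain ⟨d, hd⟩ := hB2
  have h1 : ζ ^ (N : ℤ) = 1 := by rw [zpow_natCast]; exact hζ.pow_eq_one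
  have h2 : e i = (1 - B) * y + B * e i + (N : ℤ) * (-(d * c)) := by
    have h3 : (N : ℤ) * (-(d * c)) = (1 - B) * (e i - y) := by
      rw [hc, show (1 : ℤ) - B = -(B - 1) by ring, hd, hN]
      push_cast
      ring
    rw [h3]; ring
  calc ζ ^ e i = ζ ^ ((1 - B) * y + B * e i + (N : ℤ) * (-(d * c))) := by rw [← h2]
    _ = ζ ^ ((1 - B) * y) * ζ ^ (B * e i) := by
      rw [zpow_add₀ hz0, zpow_add₀ hz0, zpow_mul ζ (N : ℤ), h1, one_zpow, mul_one]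

/-- A vanishing sum with fewer than `p` terms splits into vanishing classes modulo `p ^ a`. -/
theorem small_class {ι : Type} (I : Finset ι) (e : ι → ℤ) (N p a N' : ℕ) (hN : N = p ^ a * N')
    (ha : 1 ≤ a) (hp : p.Prime) (hc : Nat.Coprime (p ^ a) N') (hN' : 0 < N') (ζ : ℂ)
    (hζ : IsPrimitiveRoot ζ N) (h : ∑ i ∈ I, ζ ^ e i = 0) (hI : I.card < p) (y : ℤ) :
    ∑ i ∈ I.filter (fun i => ((p ^ a : ℕ) : ℤ) ∣ e i - y), ζ ^ e i = 0 := by
  have hcop : IsCoprime ((p ^ a : ℕ) : ℤ) (N' : ℤ) := Nat.isCoprime_iff_coprime.2 hc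
  obtain ⟨u, v, huv⟩ := hcop
  obtain ⟨B, hB⟩ : ∃ B : ℤ, B = u * ((p ^ a : ℕ) : ℤ) := ⟨_, rfl⟩
  have hB1 : ((p ^ a : ℕ) : ℤ) ∣ B := ⟨u, by rw [hB]; ring⟩
  have hB2 : (N' : ℤ) ∣ B - 1 := ⟨-v, by rw [hB]; linear_combination huv⟩
  have hNpos : 0 < N := by
    rw [hN]; exact Nat.mul_pos (Nat.pow_pos hp.pos) hN'
  rw [class_sum I e N (p ^ a) N' hN ζ hζ hNpos B hB2 y]
  by_contra hcon
  have hβ : ∑ i ∈ I.filter (fun i => ((p ^ a : ℕ) : ℤ) ∣ e i - y), ζ ^ (B * e i) ≠ 0 := by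
    intro h0
    apply hcon
    rw [h0, mul_zero]
  have hex : ∀ j : ℕ, ∃ i ∈ I, ((p ^ a : ℕ) : ℤ) ∣ e i - (y + j * ((p ^ (a - 1) * N' : ℕ) : ℤ)) := by
    intro j
    have h1 := prime_step I e N p a N' hN ha hp hc hN' ζ hζ h B hB1 hB2 y
      (j * ((p ^ (a - 1) * N' : ℕ) : ℤ)) (Dvd.intro_left _ rfl)
    rw [h1] at hβ
    obtain ⟨i, hi, -⟩ := Finset.exists_ne_zero_of_sum_ne_zero hβ
    rw [Finset.mem_filter] at hi
    exact ⟨i, hi.1, hi.2⟩
  choose f hf1 hf2 using hex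
  have hcopp : Nat.Coprime p N' := Nat.Coprime.coprime_dvd_left (dvd_pow_self p (by omega)) hc
  have hcard : (Finset.range p).card ≤ I.card := by
    refine Finset.card_le_card_of_injOn f (fun j _ => hf1 j) ?_
    intro j hj j' hj' hjj
    have hj1 : j < p := Finset.mem_range.1 (Finset.mem_coe.1 hj)
    have hj2 : j' < p := Finset.mem_range.1 (Finset.mem_coe.1 hj')
    have h1 := hf2 j
    have h2 := hf2 j'
    rw [← hjj] at h2
    have h3 := dvd_sub h2 h1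
    have h4 : e (f j) - (y + j' * ((p ^ (a - 1) * N' : ℕ) : ℤ)) -
        (e (f j) - (y + j * ((p ^ (a - 1) * N' : ℕ) : ℤ))) =
        ((p ^ (a - 1) : ℕ) : ℤ) * (((j : ℤ) - j') * N') := by
      push_cast; ring
    rw [h4] at h3
    have h5 : ((p ^ a : ℕ) : ℤ) = ((p ^ (a - 1) : ℕ) : ℤ) * p := by
      have : p ^ a = p ^ (a - 1) * p := by
        rw [← pow_succ]; congr 1; omega
      rw [this]; push_cast; ring
    rw [h5] at h3
    have h6 : ((p ^ (a - 1) : ℕ) : ℤ) ≠ 0 := by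
      have := Nat.pow_pos (n := a - 1) hp.pos
      exact_mod_cast this.ne'
    have h7 : (p : ℤ) ∣ ((j : ℤ) - j') * N' := (mul_dvd_mul_iff_left h6).1 h3
    have h8 : (p : ℤ) ∣ (j : ℤ) - j' :=
      (Nat.isCoprime_iff_coprime.2 hcopp).dvd_of_dvd_mul_right h7
    have h9 := Int.eq_zero_of_abs_lt_dvd h8 (by
      rw [abs_lt]; constructor <;> omega)
    omega
  rw [Finset.card_range] at hcard
  omega

/-- the odd prime divisors of `N` -/
def op (N : ℕ) : Finset ℕ := N.primeFactors.erase 2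

/-- `e i ≡ y` modulo the full powers of the primes in `S` -/
def Cong (N : ℕ) (S : Finset ℕ) (x y : ℤ) : Prop := ∀ p ∈ S, ((p ^ N.factorization p : ℕ) : ℤ) ∣ x - y

theorem bc_cong (N : ℕ) (hN : 0 < N) (M : ℕ) (hM : N = 2 ^ N.factorization 2 * M)
    (h2 : 2 ∣ N) (hc : Nat.Coprime (2 ^ N.factorization 2) M) (x y : ℤ) :
    Cong N (op N) x y ↔ (M : ℤ) ∣ x - y := by
  have h2m : 2 ∈ N.primeFactors := Nat.mem_primeFactors.2 ⟨Nat.prime_two, h2, hN.ne'⟩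
  have hprod : ∏ p ∈ N.primeFactors, p ^ N.factorization p = N := by
    have := Nat.prod_factorization_pow_eq_self hN.ne'
    rw [Finsupp.prod, Nat.support_factorization] at this
    exact this
  rw [← Finset.mul_prod_erase _ _ h2m] at hprod
  have hMprod : ∏ p ∈ op N, p ^ N.factorization p = M := by
    have h3 : 2 ^ N.factorization 2 * ∏ p ∈ op N, p ^ N.factorization p =
        2 ^ N.factorization 2 * M := by
      rw [← hM]
      exact hprod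
    exact Nat.eq_of_mul_eq_mul_left (by positivity) h3
  constructor
  · intro h
    rw [← hMprod]
    push_cast
    refine Finset.prod_dvd_of_coprime ?_ ?_
    · intro p hp q hq hpq
      have hp' : p.Prime := (Nat.mem_primeFactors.1 (Finset.mem_of_mem_erase hp)).1
      have hq' : q.Prime := (Nat.mem_primeFactors.1 (Finset.mem_of_mem_erase hq)).1
      have hco : Nat.Coprime (p ^ N.factorization p) (q ^ N.factorization q) :=
        Nat.Coprime.pow _ _ ((Nat.coprime_primes hp' hq').2 hpq)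
      have := Nat.isCoprime_iff_coprime.2 hco
      push_cast at this
      exact this
    · intro p hp
      have := h p hp
      push_cast at this
      exact this
  · intro h p hp
    have h1 : p ^ N.factorization p ∣ M := by
      rw [← hMprod]
      exact Finset.dvd_prod_of_mem _ hp
    exact (Int.natCast_dvd_natCast.2 h1).trans h


/-- From vanishing classes modulo the odd part to counts. -/
theorem balanced_of_classes {ι : Type} [DecidableEq ι] (I : Finset ι) (e : ι → ℤ) (N : ℕ)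
    (hN : 0 < N) (h2 : 2 ∣ N) (ζ : ℂ) (hζ : IsPrimitiveRoot ζ N)
    (h : ∀ y : ℤ, ∀ J : Finset ι, (∀ i, i ∈ J ↔ i ∈ I ∧ Cong N (op N) (e i) y) →
      ∑ i ∈ J, ζ ^ e i = 0) (y : ℤ) :
    (I.filter (fun i => (N : ℤ) ∣ e i - y)).card =
      (I.filter (fun i => (N : ℤ) ∣ e i - (y + (N / 2 : ℕ)))).card := by
  classical
  set b := N.factorization 2 with hb
  obtain ⟨M, hM⟩ : ∃ M, N = 2 ^ b * M := Nat.ordProj_dvd N 2
  have hb1 : 1 ≤ b := by
    have := (Nat.Prime.factorization_pos_of_dvd Nat.prime_two hN.ne' h2)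
    exact this
  have hM0 : 0 < M := by
    rcases Nat.eq_zero_or_pos M with h0 | h0
    · rw [h0, mul_zero] at hM
      omega
    · exact h0
  have hcop : Nat.Coprime (2 ^ b) M := by
    apply Nat.Coprime.pow_left
    rw [Nat.Prime.coprime_iff_not_dvd Nat.prime_two]
    rintro ⟨k, hk⟩
    have h1 : 2 ^ (b + 1) ∣ N := ⟨k, by rw [hM, hk]; ring⟩
    have h3 := (Nat.Prime.pow_dvd_iff_le_factorization Nat.prime_two hN.ne').1 h1
    omega
  have hcopZ : IsCoprime (((2 ^ b : ℕ) : ℤ)) (M : ℤ) := Nat.isCoprime_iff_coprime.2 hcop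
  have hcg := bc_cong N hN M hM h2 hcop
  obtain ⟨u, w, huw⟩ := id hcopZ
  have hJ := h y (I.filter (fun i => (M : ℤ) ∣ e i - y)) (by
    intro i
    rw [Finset.mem_filter, hcg])
  have hps := prime_step (I.filter (fun i => (M : ℤ) ∣ e i - y)) e N 2 b M hM hb1 Nat.prime_two hcop
    hM0 ζ hζ hJ (u * ((2 ^ b : ℕ) : ℤ)) ⟨u, by ring⟩ ⟨-w, by linear_combination huw⟩ y
    (((2 ^ (b - 1) * M : ℕ)) : ℤ) (dvd_refl _)
  have hhalf : N / 2 = 2 ^ (b - 1) * M := by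
    have : N = 2 * (2 ^ (b - 1) * M) := by
      rw [hM]
      conv_lhs => rw [show b = (b - 1) + 1 by omega, pow_succ]
      ring
    omega
  have hconst : ∀ i, (M : ℤ) ∣ e i - y → ζ ^ ((u * ((2 ^ b : ℕ) : ℤ)) * e i) =
      ζ ^ ((u * ((2 ^ b : ℕ) : ℤ)) * y) := by
    intro i hi
    obtain ⟨k, hk⟩ := hi
    have h1 : (u * ((2 ^ b : ℕ) : ℤ)) * e i = (u * ((2 ^ b : ℕ) : ℤ)) * y + (N : ℤ) * (u * k) := by
      have h2 : e i = y + M * k := by linear_combination hk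
      have h3 : (N : ℤ) = ((2 ^ b : ℕ) : ℤ) * M := by
        conv_lhs => rw [hM]
        push_cast
        ring
      rw [h2, h3]
      ring
    have hζ0 : ζ ≠ 0 := hζ.ne_zero hN.ne'
    rw [h1, zpow_add₀ hζ0, zpow_mul ζ (N : ℤ), zpow_natCast, hζ.pow_eq_one, one_zpow, mul_one]
  rw [Finset.sum_congr rfl (fun i hi => hconst i (Finset.mem_filter.1 (Finset.mem_filter.1 hi).1).2),
    Finset.sum_congr rfl (fun i hi => hconst i (Finset.mem_filter.1 (Finset.mem_filter.1 hi).1).2),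
    Finset.sum_const, Finset.sum_const, nsmul_eq_mul, nsmul_eq_mul] at hps
  have hζ0 : ζ ≠ 0 := hζ.ne_zero hN.ne'
  have hcard := mul_right_cancel₀ (zpow_ne_zero _ hζ0) hps
  have hcard' := Nat.cast_injective (R := ℂ) hcard
  have hNz : (N : ℤ) = ((2 ^ b : ℕ) : ℤ) * M := by
    conv_lhs => rw [hM]
    push_cast
    ring
  have e1 : (I.filter (fun i => (M : ℤ) ∣ e i - y)).filter
      (fun i => ((2 ^ b : ℕ) : ℤ) ∣ e i - y) = I.filter (fun i => (N : ℤ) ∣ e i - y) := by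
    ext i
    simp only [Finset.mem_filter]
    constructor
    · rintro ⟨⟨h1, h2⟩, h3⟩
      refine ⟨h1, ?_⟩
      rw [hNz]
      exact hcopZ.mul_dvd h3 h2
    · rintro ⟨h1, h2⟩
      rw [hNz] at h2
      exact ⟨⟨h1, (Dvd.intro_left _ rfl).trans h2⟩, (Dvd.intro _ rfl).trans h2⟩
  have e2 : (I.filter (fun i => (M : ℤ) ∣ e i - y)).filter
      (fun i => ((2 ^ b : ℕ) : ℤ) ∣ e i - (y + ((2 ^ (b - 1) * M : ℕ) : ℤ))) =
      I.filter (fun i => (N : ℤ) ∣ e i - (y + (N / 2 : ℕ))) := by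
    ext i
    simp only [Finset.mem_filter]
    have hMc : (M : ℤ) ∣ ((2 ^ (b - 1) * M : ℕ) : ℤ) := ⟨((2 ^ (b - 1) : ℕ) : ℤ), by push_cast; ring⟩
    have hMiff : (M : ℤ) ∣ e i - y ↔ (M : ℤ) ∣ e i - (y + ((2 ^ (b - 1) * M : ℕ) : ℤ)) := by
      have : e i - (y + ((2 ^ (b - 1) * M : ℕ) : ℤ)) = (e i - y) - ((2 ^ (b - 1) * M : ℕ) : ℤ) := by ring
      rw [this]
      exact (dvd_sub_left hMc).symm
    rw [hMiff, hhalf]
    constructor
    · rintro ⟨⟨h1, h2⟩, h3⟩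
      refine ⟨h1, ?_⟩
      rw [hNz]
      exact hcopZ.mul_dvd h3 h2
    · rintro ⟨h1, h2⟩
      rw [hNz] at h2
      exact ⟨⟨h1, (Dvd.intro_left _ rfl).trans h2⟩, (Dvd.intro _ rfl).trans h2⟩
  rw [e1, e2] at hcard'
  exact hcard'

/-- induction over the odd primes -/
theorem classes_induct {ι : Type} [DecidableEq ι] (I : Finset ι) (e : ι → ℤ) (N : ℕ) (ζ : ℂ)
    (h : ∑ i ∈ I, ζ ^ e i = 0)
    (step : ∀ S ⊆ op N, ∀ p ∈ op N, p ∉ S → ∀ y : ℤ, ∀ J : Finset ι,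
      (∀ i, i ∈ J ↔ i ∈ I ∧ Cong N S (e i) y) → ∑ i ∈ J, ζ ^ e i = 0 →
      ∀ y' : ℤ, ∑ i ∈ J.filter (fun i => ((p ^ N.factorization p : ℕ) : ℤ) ∣ e i - y'), ζ ^ e i = 0)
    (y : ℤ) (J : Finset ι) (hJ : ∀ i, i ∈ J ↔ i ∈ I ∧ Cong N (op N) (e i) y) :
    ∑ i ∈ J, ζ ^ e i = 0 := by
  classical
  have key : ∀ S : Finset ℕ, S ⊆ op N → ∀ (y : ℤ) (J : Finset ι),
      (∀ i, i ∈ J ↔ i ∈ I ∧ Cong N S (e i) y) → ∑ i ∈ J, ζ ^ e i = 0 := by
    intro S
    induction S using Finset.induction_on with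
    | empty =>
      intro _ y J hJ
      have : J = I := by
        ext i
        rw [hJ i]
        constructor
        · exact fun h => h.1
        · intro h
          exact ⟨h, fun p hp => absurd hp (Finset.notMem_empty p)⟩
      rw [this, h]
    | insert p S hp ih =>
      intro hS y J hJ
      have hSo : S ⊆ op N := fun q hq => hS (Finset.mem_insert_of_mem hq)
      have hpo : p ∈ op N := hS (Finset.mem_insert_self p S)
      have h1 : ∀ i, i ∈ I.filter (fun i => Cong N S (e i) y) ↔ i ∈ I ∧ Cong N S (e i) y := by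
        intro i
        rw [Finset.mem_filter]
      have h2 := step S hSo p hpo hp y (I.filter (fun i => Cong N S (e i) y)) h1
        (ih hSo y _ h1) y
      have h3 : J = (I.filter (fun i => Cong N S (e i) y)).filter
          (fun i => ((p ^ N.factorization p : ℕ) : ℤ) ∣ e i - y) := by
        ext i
        rw [hJ i, Finset.mem_filter, h1 i]
        constructor
        · rintro ⟨hi, hc⟩
          exact ⟨⟨hi, fun q hq => hc q (Finset.mem_insert_of_mem hq)⟩,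
            hc p (Finset.mem_insert_self p S)⟩
        · rintro ⟨⟨hi, hc⟩, hd⟩
          refine ⟨hi, fun q hq => ?_⟩
          rcases Finset.mem_insert.1 hq with rfl | hq
          · exact hd
          · exact hc q hq
      rw [h3]
      exact h2
  exact key (op N) (Finset.Subset.refl _) y J hJ

/-- parity of balanced families -/
theorem even_of_balanced {ι : Type} (I : Finset ι) (e : ι → ℤ) (m : ℕ) (hm : 0 < m)
    (h : ∀ y : ℤ, (I.filter (fun i => ((2 * m : ℕ) : ℤ) ∣ e i - y)).card =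
      (I.filter (fun i => ((2 * m : ℕ) : ℤ) ∣ e i - (y + m))).card) : Even I.card := by
  have hM : (0 : ℤ) < ((2 * m : ℕ) : ℤ) := by
    exact_mod_cast Nat.mul_pos two_pos hm
  have h1 : I.card = ∑ b ∈ range (m + m),
      (I.filter (fun a => (e a % ((2 * m : ℕ) : ℤ)).toNat = b)).card := by
    apply Finset.card_eq_sum_card_fiberwise
    intro x _
    have hx1 := Int.emod_nonneg (e x) hM.ne'
    have hx2 := Int.emod_lt_of_pos (e x) hM
    simp only [Finset.coe_range, Set.mem_Iio]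
    omega
  have h2 : ∀ b ∈ range (m + m), (I.filter (fun a => (e a % ((2 * m : ℕ) : ℤ)).toNat = b)).card =
      (I.filter (fun i => ((2 * m : ℕ) : ℤ) ∣ e i - (b : ℤ))).card := by
    intro b hb
    rw [Finset.mem_range] at hb
    congr 1
    apply Finset.filter_congr
    intro a _
    have hx1 := Int.emod_nonneg (e a) hM.ne'
    have hx2 := Int.emod_lt_of_pos (e a) hM
    constructor
    · intro hab
      have h3 : e a % ((2 * m : ℕ) : ℤ) = (b : ℤ) := by omega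
      rw [← h3]
      exact Int.dvd_self_sub_emod
    · intro hab
      have h3 : e a % ((2 * m : ℕ) : ℤ) = (b : ℤ) % ((2 * m : ℕ) : ℤ) :=
        (Int.emod_emod_of_dvd _ (dvd_refl _)).symm.trans (by
          rw [Int.emod_emod_of_dvd _ (dvd_refl _)]
          exact Int.emod_eq_emod_iff_emod_sub_eq_zero.2 (Int.emod_eq_zero_of_dvd hab))
      have h5 : (b : ℤ) % ((2 * m : ℕ) : ℤ) = b :=
        Int.emod_eq_of_lt (by positivity) (by push_cast; omega)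
      rw [h5] at h3
      rw [h3]
      exact Int.toNat_natCast b
  rw [h1, Finset.sum_congr rfl h2, Finset.sum_range_add]
  have h4 : ∀ x ∈ range m, (I.filter (fun i => ((2 * m : ℕ) : ℤ) ∣ e i - ((m + x : ℕ) : ℤ))).card =
      (I.filter (fun i => ((2 * m : ℕ) : ℤ) ∣ e i - (x : ℤ))).card := by
    intro x _
    rw [h (x : ℤ)]
    congr 1
    apply Finset.filter_congr
    intro a _
    push_cast
    rw [add_comm (m : ℤ) (x : ℤ)]
  rw [Finset.sum_congr rfl h4]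
  exact ⟨_, rfl⟩

/-- vanishing sums with fewer terms than every odd prime divisor have an even number of terms -/
theorem small_even {ι : Type} [DecidableEq ι] (I : Finset ι) (e : ι → ℤ) (m : ℕ) (hm : 0 < m)
    (ζ : ℂ) (hζ : IsPrimitiveRoot ζ (2 * m)) (h : ∑ i ∈ I, ζ ^ e i = 0)
    (hI : ∀ p ∈ op (2 * m), I.card < p) : Even I.card := by
  apply even_of_balanced I e m hm
  intro y
  have hN0 : 2 * m ≠ 0 := by omega
  have hb := balanced_of_classes I e (2 * m) (by omega) (Nat.dvd_mul_right 2 m) ζ hζ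
    (fun y J hJ => classes_induct I e (2 * m) ζ h (by
      intro S hS p hp hpS y J hJ hsum y'
      have hp' := hp
      unfold op at hp'
      rw [Finset.mem_erase, Nat.mem_primeFactors] at hp'
      obtain ⟨_, hpp, hpd, _⟩ := hp'
      refine small_class J e (2 * m) p ((2 * m).factorization p)
        ((2 * m) / p ^ (2 * m).factorization p) ?_ ?_ hpp ?_ ?_ ζ hζ hsum ?_ y'
      · exact (Nat.ordProj_mul_ordCompl_eq_self (2 * m) p).symm
      · exact hpp.factorization_pos_of_dvd hN0 hpd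
      · exact Nat.Coprime.pow_left _ (Nat.coprime_ordCompl hpp hN0)
      · exact Nat.ordCompl_pos p hN0
      · exact lt_of_le_of_lt (Finset.card_le_card (fun i hi => ((hJ i).mp hi).1)) (hI p hp)) y J hJ) y
  rw [Nat.mul_div_cancel_left m (by norm_num)] at hb
  exact hb

/-- the symmetric family `± g j` -/
def ex (g : Fin 8 → ℤ) (i : Fin 8 × Bool) : ℤ := if i.2 then g i.1 else - g i.1

/-- the swap -/
def sym_step_sw (i : Fin 8 × Bool) : Fin 8 × Bool := (i.1, !i.2)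

theorem sym_step_ex (g : Fin 8 → ℤ) (i : Fin 8 × Bool) : ex g (sym_step_sw i) = - ex g i := by
  rcases i with ⟨j, b⟩
  cases b <;> simp [ex, sym_step_sw]

theorem sym_step_sw_sw (i : Fin 8 × Bool) : sym_step_sw (sym_step_sw i) = i := by
  rcases i with ⟨j, b⟩
  simp [sym_step_sw]

theorem sym_step_even (C : Finset (Fin 8 × Bool)) (hC : ∀ i ∈ C, sym_step_sw i ∈ C) :
    Even C.card := by
  have h1 := Finset.card_filter_add_card_filter_not (s := C) (fun i => i.2 = true)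
  have h2 : (C.filter (fun i => i.2 = true)).card = (C.filter (fun i => ¬ i.2 = true)).card := by
    refine Finset.card_nbij' sym_step_sw sym_step_sw ?_ ?_ ?_ ?_
    · intro i hi
      simp only [Finset.coe_filter, Set.mem_ofPred_eq] at hi ⊢
      exact ⟨hC i hi.1, by simp [sym_step_sw, hi.2]⟩
    · intro i hi
      simp only [Finset.coe_filter, Set.mem_ofPred_eq] at hi ⊢
      exact ⟨hC i hi.1, by simpa [sym_step_sw] using hi.2⟩
    · intro i _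
      exact sym_step_sw_sw i
    · intro i _
      exact sym_step_sw_sw i
  exact ⟨_, by rw [← h1, ← h2]⟩

theorem sym_step_sq (x : ℂ) (h : x ^ 2 = 1) : x = 1 ∨ x = -1 := by
  have h1 : (x - 1) * (x + 1) = 0 := by linear_combination h
  rcases mul_eq_zero.mp h1 with h2 | h2
  · left; linear_combination h2
  · right; linear_combination h2

theorem sym_step (g : Fin 8 → ℤ) (m : ℕ) (hm : 0 < m) (ζ : ℂ) (hζ : IsPrimitiveRoot ζ (2 * m))
    (h11 : ∀ p ∈ op (2 * m), 11 ≤ p) (S : Finset ℕ) (hS : S ⊆ op (2 * m)) (p : ℕ)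
    (hp : p ∈ op (2 * m)) (hpS : p ∉ S) (J : Finset (Fin 8 × Bool))
    (hJ : ∀ i, i ∈ J ↔ Cong (2 * m) S (ex g i) 0) (h : ∑ i ∈ J, ζ ^ ex g i = 0) (y' : ℤ) :
    ∑ i ∈ J.filter (fun i => ((p ^ (2 * m).factorization p : ℕ) : ℤ) ∣ ex g i - y'),
      ζ ^ ex g i = 0 := by
  classical
  have hp11 : 11 ≤ p := h11 p hp
  have hpp : p.Prime := by
    rw [op, Finset.mem_erase] at hp
    exact Nat.prime_of_mem_primeFactors hp.2
  have hpd : p ∣ 2 * m := by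
    rw [op, Finset.mem_erase] at hp
    exact Nat.dvd_of_mem_primeFactors hp.2
  have hm0 : 2 * m ≠ 0 := by omega
  have ha : 1 ≤ (2 * m).factorization p := hpp.factorization_pos_of_dvd hm0 hpd
  have hN : 2 * m = p ^ (2 * m).factorization p * (2 * m / p ^ (2 * m).factorization p) :=
    (Nat.ordProj_mul_ordCompl_eq_self (2 * m) p).symm
  have hcop : Nat.Coprime p (2 * m / p ^ (2 * m).factorization p) := Nat.coprime_ordCompl hpp hm0
  have hN'pos : 0 < 2 * m / p ^ (2 * m).factorization p := Nat.ordCompl_pos p hm0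
  generalize hN'def : 2 * m / p ^ (2 * m).factorization p = N' at hN hcop hN'pos
  generalize hadef : (2 * m).factorization p = a at ha hN ⊢
  have hcq : Nat.Coprime (p ^ a) N' := Nat.Coprime.pow_left a hcop
  have hpN : IsCoprime (p : ℤ) (N' : ℤ) := Nat.isCoprime_iff_coprime.mpr hcop
  obtain ⟨u, v, huv⟩ := Nat.isCoprime_iff_coprime.mpr hcq
  set q : ℤ := ((p ^ a : ℕ) : ℤ) with hq
  let B : ℤ := u * q
  have hB1 : q ∣ B := Dvd.intro_left u rfl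
  have hB2 : (N' : ℤ) ∣ B - 1 := ⟨-v, by
    show u * q - 1 = N' * -v
    linear_combination huv⟩
  rw [class_sum J (ex g) (2 * m) (p ^ a) N' hN ζ hζ (by omega) B hB2 y']
  by_cases hβ : ∑ i ∈ J.filter (fun i => q ∣ ex g i - y'), ζ ^ (B * ex g i) = 0
  · rw [hβ, mul_zero]
  exfalso
  let β : ℤ → ℂ := fun y => ∑ i ∈ J.filter (fun i => q ∣ ex g i - y), ζ ^ (B * ex g i)
  have hβ' : β y' ≠ 0 := hβ
  set c0 : ℤ := ((p ^ (a - 1) * N' : ℕ) : ℤ) with hc0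
  have hstep : ∀ (y k : ℤ), β y = β (y + k * c0) := fun y k =>
    prime_step J (ex g) (2 * m) p a N' hN ha hpp hcq hN'pos ζ hζ h B hB1 hB2 y (k * c0)
      (Dvd.intro_left k rfl)
  have hp0 : (p : ℤ) ≠ 0 := by exact_mod_cast hpp.ne_zero
  have hqp : q = (p : ℤ) ^ (a - 1) * p := by
    rw [hq]
    push_cast
    rw [← pow_succ]
    congr 1
    omega
  have hc0' : c0 = (p : ℤ) ^ (a - 1) * N' := by rw [hc0]; push_cast; ring
  have hdiv : ∀ k : ℤ, q ∣ k * c0 → (p : ℤ) ∣ k := by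
    intro k hk
    rw [hqp, hc0'] at hk
    have h1 : k * ((p : ℤ) ^ (a - 1) * N') = (p : ℤ) ^ (a - 1) * (k * N') := by ring
    rw [h1, mul_dvd_mul_iff_left (pow_ne_zero _ hp0)] at hk
    exact hpN.dvd_of_dvd_mul_right hk
  have hJsw : ∀ i ∈ J, sym_step_sw i ∈ J := by
    intro i hi
    rw [hJ] at hi ⊢
    intro r hr
    have h1 := hi r hr
    rw [sym_step_ex, sub_zero, dvd_neg]
    rwa [sub_zero] at h1
  have hne : ∀ y : ℤ, β y ≠ 0 → ∃ i ∈ J, q ∣ ex g i - y := by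
    intro y hy
    obtain ⟨i, hi, -⟩ := Finset.exists_ne_zero_of_sum_ne_zero hy
    rw [Finset.mem_filter] at hi
    exact ⟨i, hi.1, hi.2⟩
  have hzero_lt : ∀ j j' : ℕ, j < p → j' < p → (p : ℤ) ∣ (j : ℤ) - j' → j = j' := by
    intro j j' hj hj' hd
    obtain ⟨t, ht⟩ := hd
    have hpz : (0 : ℤ) < p := by exact_mod_cast hpp.pos
    have h1 : t < 1 := by
      by_contra hc
      push Not at hc
      have : (p : ℤ) * 1 ≤ p * t := mul_le_mul_of_nonneg_left hc hpz.le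
      omega
    have h2 : -1 < t := by
      by_contra hc
      push Not at hc
      have : (p : ℤ) * t ≤ p * (-1) := mul_le_mul_of_nonneg_left hc hpz.le
      omega
    have h3 : t = 0 := by omega
    rw [h3, mul_zero] at ht
    omega
  have hp2 : IsCoprime ((p : ℤ) ^ (a - 1)) 2 := by
    have h1 : Nat.Coprime p 2 := (Nat.coprime_primes hpp Nat.prime_two).mpr (by
      rw [op, Finset.mem_erase] at hp
      exact hp.1)
    have h2 : Nat.Coprime (p ^ (a - 1)) 2 := Nat.Coprime.pow_left _ h1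
    have h3 := Nat.isCoprime_iff_coprime.mpr h2
    push_cast at h3
    exact h3
  by_cases hy : (p : ℤ) ^ (a - 1) ∣ y'
  · -- case (ii)
    obtain ⟨y1, hy1⟩ := hy
    obtain ⟨s, t, hst⟩ := hpN
    have hq0 : q ∣ y' + (-(y1 * t)) * c0 := by
      rw [hy1, hc0', hqp]
      refine ⟨y1 * s, ?_⟩
      linear_combination (-(p : ℤ) ^ (a - 1) * y1) * hst
    have hβ0 : β 0 ≠ 0 := by
      have h1 : β (y' + (-(y1 * t)) * c0) = β 0 := by
        show ∑ i ∈ J.filter (fun i => q ∣ ex g i - (y' + (-(y1 * t)) * c0)), ζ ^ (B * ex g i) =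
          ∑ i ∈ J.filter (fun i => q ∣ ex g i - 0), ζ ^ (B * ex g i)
        congr 1
        refine Finset.filter_congr fun i _ => ?_
        constructor
        · intro hd
          have := dvd_add hd hq0
          have h2 : ex g i - (y' + (-(y1 * t)) * c0) + (y' + (-(y1 * t)) * c0) = ex g i - 0 := by ring
          rwa [h2] at this
        · intro hd
          have := dvd_sub hd hq0
          have h2 : ex g i - 0 - (y' + (-(y1 * t)) * c0) = ex g i - (y' + (-(y1 * t)) * c0) := by ring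
          rwa [h2] at this
      rw [← h1, ← hstep]
      exact hβ'
    have hβj : ∀ j : ℕ, β ((j : ℤ) * c0) = β 0 := by
      intro j
      have := hstep 0 j
      rw [zero_add] at this
      exact this.symm
    let C : ℕ → Finset (Fin 8 × Bool) := fun j => J.filter (fun i => q ∣ ex g i - (j : ℤ) * c0)
    have hCcard : ∀ j, 1 ≤ (C j).card := by
      intro j
      obtain ⟨i, hi, hd⟩ := hne ((j : ℤ) * c0) (by rw [hβj]; exact hβ0)
      exact Finset.card_pos.mpr ⟨i, Finset.mem_filter.mpr ⟨hi, hd⟩⟩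
    have hCdis : ∀ j ∈ Finset.range p, ∀ j' ∈ Finset.range p, j ≠ j' → Disjoint (C j) (C j') := by
      intro j hj j' hj' hjj
      rw [Finset.disjoint_left]
      intro i hi hi'
      rw [Finset.mem_filter] at hi hi'
      apply hjj
      rw [Finset.mem_range] at hj hj'
      refine hzero_lt j j' hj hj' (hdiv _ ?_)
      have := dvd_sub hi'.2 hi.2
      have h2 : ex g i - (j' : ℤ) * c0 - (ex g i - (j : ℤ) * c0) = ((j : ℤ) - j') * c0 := by ring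
      rwa [h2] at this
    have hsum : ∑ j ∈ Finset.range p, (C j).card ≤ 16 := by
      rw [← Finset.card_biUnion hCdis]
      refine (Finset.card_le_univ _).trans ?_
      simp
    have hps : p = (p - 1) + 1 := by omega
    rw [hps, Finset.sum_range_succ'] at hsum
    obtain ⟨j, hj1, hj2⟩ : ∃ j, 1 ≤ j ∧ j < p ∧ (C j).card = 1 := by
      by_contra hcon
      push Not at hcon
      have h2 : (Finset.range (p - 1)).card • 2 ≤ ∑ j ∈ Finset.range (p - 1), (C (j + 1)).card := by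
        refine Finset.card_nsmul_le_sum _ _ _ fun j hj => ?_
        rw [Finset.mem_range] at hj
        have h3 := hCcard (j + 1)
        have h4 := hcon (j + 1) (by omega) (by omega)
        omega
      rw [Finset.card_range, smul_eq_mul] at h2
      omega
    obtain ⟨hjp, hj3⟩ := hj2
    have hC0 : (C 0).card ≤ 6 := by
      have h2 : (Finset.range (p - 1)).card • 1 ≤ ∑ j ∈ Finset.range (p - 1), (C (j + 1)).card :=
        Finset.card_nsmul_le_sum _ _ _ fun j _ => hCcard (j + 1)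
      rw [Finset.card_range, smul_eq_mul] at h2
      omega
    have hC0even : Even (C 0).card := by
      refine sym_step_even _ fun i hi => ?_
      rw [Finset.mem_filter] at hi ⊢
      refine ⟨hJsw i hi.1, ?_⟩
      have h2 := hi.2
      rw [sym_step_ex]
      simp only [Nat.cast_zero, zero_mul, sub_zero] at h2 ⊢
      exact (dvd_neg).mpr h2
    obtain ⟨i1, hi1⟩ := Finset.card_eq_one.mp hj3
    have hi1mem : i1 ∈ C j := by rw [hi1]; exact Finset.mem_singleton_self _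
    have hi1C0 : i1 ∉ C 0 := fun hin => Finset.disjoint_left.mp
      (hCdis j (Finset.mem_range.mpr hjp) 0 (Finset.mem_range.mpr hpp.pos) (by omega)) hi1mem hin
    have hζ0 : ζ ≠ 0 := hζ.ne_zero hm0
    have hζm : ζ ^ m = -1 := by
      have h1 : (ζ ^ m) ^ 2 = 1 := by
        rw [← pow_mul, mul_comm m 2]
        exact hζ.pow_eq_one
      have h2 : ζ ^ m ≠ 1 := by
        intro h3
        have := hζ.dvd_of_pow_eq_one m h3
        have := Nat.le_of_dvd hm this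
        omega
      rcases sym_step_sq (ζ ^ m) h1 with h4 | h4
      · exact absurd h4 h2
      · exact h4
    have hfin := small_even (insert i1 (C 0)) (fun i => if i = i1 then B * ex g i + m else B * ex g i)
      m hm ζ hζ (by
        rw [Finset.sum_insert hi1C0]
        have h1 : ∑ i ∈ C 0, ζ ^ (if i = i1 then B * ex g i + m else B * ex g i) = β 0 := by
          have h5 : ∑ i ∈ C 0, ζ ^ (if i = i1 then B * ex g i + m else B * ex g i) =
              ∑ i ∈ C 0, ζ ^ (B * ex g i) := by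
            refine Finset.sum_congr rfl fun i hi => ?_
            have : i ≠ i1 := by rintro rfl; exact hi1C0 hi
            rw [if_neg this]
          rw [h5]
          show ∑ i ∈ J.filter (fun i => q ∣ ex g i - ((0 : ℕ) : ℤ) * c0), ζ ^ (B * ex g i) =
            ∑ i ∈ J.filter (fun i => q ∣ ex g i - 0), ζ ^ (B * ex g i)
          simp only [Nat.cast_zero, zero_mul]
        have h2 : β ((j : ℤ) * c0) = ζ ^ (B * ex g i1) := by
          show ∑ i ∈ C j, ζ ^ (B * ex g i) = _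
          rw [hi1, Finset.sum_singleton]
        rw [h1, ← hβj j, h2, if_pos rfl, zpow_add₀ hζ0, zpow_natCast, hζm]
        ring) (by
        intro r hr
        have h1 := h11 r hr
        rw [Finset.card_insert_of_notMem hi1C0]
        omega)
    rw [Finset.card_insert_of_notMem hi1C0] at hfin
    rw [Nat.even_add_one] at hfin
    exact hfin hC0even
  · -- case (i)
    have hex : ∀ j : Fin p, ∃ i ∈ J, q ∣ ex g i - (y' + ((j : ℕ) : ℤ) * c0) := by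
      intro j
      exact hne _ (by rw [← hstep]; exact hβ')
    choose f hf1 hf2 using hex
    let F : Fin p × Bool → Fin 8 × Bool := fun x => if x.2 then f x.1 else sym_step_sw (f x.1)
    let r : Fin p × Bool → ℤ := fun x =>
      if x.2 then y' + ((x.1 : ℕ) : ℤ) * c0 else -(y' + ((x.1 : ℕ) : ℤ) * c0)
    have hFr : ∀ x, q ∣ ex g (F x) - r x := by
      rintro ⟨j, b⟩
      cases b with
      | true => exact hf2 j
      | false =>
        show q ∣ ex g (sym_step_sw (f j)) - -(y' + ((j : ℕ) : ℤ) * c0)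
        rw [sym_step_ex]
        have h1 : -ex g (f j) - -(y' + ((j : ℕ) : ℤ) * c0) =
          -(ex g (f j) - (y' + ((j : ℕ) : ℤ) * c0)) := by ring
        rw [h1, dvd_neg]
        exact hf2 j
    have hrr : ∀ x x', F x = F x' → q ∣ r x - r x' := by
      intro x x' hxx
      have h1 := dvd_sub (hFr x') (hFr x)
      rw [hxx] at h1
      have h2 : ex g (F x') - r x' - (ex g (F x') - r x) = r x - r x' := by ring
      rwa [h2] at h1
    have hmix : ∀ j j' : Fin p, ¬ q ∣ (y' + ((j : ℕ) : ℤ) * c0) - -(y' + ((j' : ℕ) : ℤ) * c0) := by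
      intro j j' hd
      apply hy
      have h1 : (p : ℤ) ^ (a - 1) ∣ (y' + ((j : ℕ) : ℤ) * c0) - -(y' + ((j' : ℕ) : ℤ) * c0) :=
        (Dvd.intro _ hqp.symm).trans hd
      have h2 : (p : ℤ) ^ (a - 1) ∣ (((j : ℕ) : ℤ) + ((j' : ℕ) : ℤ)) * c0 := by
        rw [hc0']
        exact ⟨(((j : ℕ) : ℤ) + ((j' : ℕ) : ℤ)) * N', by ring⟩
      have h3 := dvd_sub h1 h2
      have h4 : (y' + ((j : ℕ) : ℤ) * c0) - -(y' + ((j' : ℕ) : ℤ) * c0) -
        (((j : ℕ) : ℤ) + ((j' : ℕ) : ℤ)) * c0 = 2 * y' := by ring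
      rw [h4] at h3
      exact hp2.dvd_of_dvd_mul_left h3
    have hsame : ∀ j j' : Fin p, q ∣ (y' + ((j : ℕ) : ℤ) * c0) - (y' + ((j' : ℕ) : ℤ) * c0) →
        j = j' := by
      intro j j' hd
      have h1 : (y' + ((j : ℕ) : ℤ) * c0) - (y' + ((j' : ℕ) : ℤ) * c0) =
        (((j : ℕ) : ℤ) - ((j' : ℕ) : ℤ)) * c0 := by ring
      rw [h1] at hd
      exact Fin.ext (hzero_lt _ _ j.isLt j'.isLt (hdiv _ hd))
    have hinj : Function.Injective F := by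
      rintro ⟨j, b⟩ ⟨j', b'⟩ hxx
      have h1 := hrr _ _ hxx
      cases b with
      | true =>
        cases b' with
        | true => rw [hsame j j' h1]
        | false => exact absurd h1 (hmix j j')
      | false =>
        cases b' with
        | true =>
          exfalso
          have h2 : q ∣ -(y' + ((j : ℕ) : ℤ) * c0) - (y' + ((j' : ℕ) : ℤ) * c0) := h1
          rw [← dvd_neg] at h2
          have h3 : -(-(y' + ((j : ℕ) : ℤ) * c0) - (y' + ((j' : ℕ) : ℤ) * c0)) =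
            (y' + ((j' : ℕ) : ℤ) * c0) - -(y' + ((j : ℕ) : ℤ) * c0) := by ring
          rw [h3] at h2
          exact hmix j' j h2
        | false =>
          have h2 : q ∣ -(y' + ((j : ℕ) : ℤ) * c0) - -(y' + ((j' : ℕ) : ℤ) * c0) := h1
          have h3 : -(y' + ((j : ℕ) : ℤ) * c0) - -(y' + ((j' : ℕ) : ℤ) * c0) =
            (y' + ((j' : ℕ) : ℤ) * c0) - (y' + ((j : ℕ) : ℤ) * c0) := by ring
          rw [h3] at h2
          rw [hsame j' j h2]
    have hcard := Fintype.card_le_of_injective F hinj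
    simp only [Fintype.card_prod, Fintype.card_fin, Fintype.card_bool] at hcard
    omega

theorem asym_card (g : Fin 8 → ℤ) (N : ℕ) (S : Finset ℕ) (hS : S ⊆ op N)
    (y : ℤ) (hy : ¬ Cong N S 0 y) (J : Finset (Fin 8 × Bool))
    (hJ : ∀ i, i ∈ J ↔ Cong N S (ex g i) y) : J.card ≤ 8 := by
  have key : ∀ j : Fin 8, ¬ ((j, true) ∈ J ∧ (j, false) ∈ J) := by
    rintro j ⟨h1, h2⟩
    rw [hJ] at h1 h2
    apply hy
    intro p hp
    have e1 := h1 p hp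
    have e2 := h2 p hp
    simp only [ex, if_true, Bool.false_eq_true, if_false] at e1 e2
    have hpo := hS hp
    rw [op, Finset.mem_erase] at hpo
    have hpp : p.Prime := Nat.prime_of_mem_primeFactors hpo.2
    have hcop : Nat.Coprime (p ^ N.factorization p) 2 :=
      Nat.Coprime.pow_left _ ((Nat.coprime_primes hpp Nat.prime_two).2 hpo.1)
    have hcopZ : IsCoprime ((p ^ N.factorization p : ℕ) : ℤ) (2 : ℤ) := by
      have := Nat.isCoprime_iff_coprime.2 hcop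
      exact_mod_cast this
    have hsum : ((p ^ N.factorization p : ℕ) : ℤ) ∣ 2 * (0 - y) := by
      have := dvd_add e1 e2
      have e3 : g j - y + (-g j - y) = 2 * (0 - y) := by ring
      rwa [e3] at this
    exact hcopZ.dvd_of_dvd_mul_left hsum
  have hinj : Set.InjOn Prod.fst (J : Set (Fin 8 × Bool)) := by
    rintro ⟨a, s⟩ ha ⟨b, t⟩ hb hab
    simp only at hab
    subst hab
    rw [Finset.mem_coe] at ha hb
    cases s <;> cases t
    · rfl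
    · exact absurd ⟨hb, ha⟩ (key a)
    · exact absurd ⟨ha, hb⟩ (key a)
    · rfl
  calc J.card = (J.image Prod.fst).card := (Finset.card_image_of_injOn hinj).symm
    _ ≤ (Finset.univ : Finset (Fin 8)).card := Finset.card_le_card (Finset.subset_univ _)
    _ = 8 := by simp

/-- main counting statement -/
theorem sym_balanced (g : Fin 8 → ℤ) (m : ℕ) (hm : 0 < m) (ζ : ℂ)
    (hζ : IsPrimitiveRoot ζ (2 * m)) (h11 : ∀ p ∈ op (2 * m), 11 ≤ p)
    (h : ∑ i, ζ ^ ex g i = 0) (y : ℤ) :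
    (univ.filter (fun i => ((2 * m : ℕ) : ℤ) ∣ ex g i - y)).card =
      (univ.filter (fun i => ((2 * m : ℕ) : ℤ) ∣ ex g i - (y + m))).card := by
  have hN : 0 < 2 * m := by omega
  have key := balanced_of_classes (univ : Finset (Fin 8 × Bool)) (ex g) (2 * m) hN (dvd_mul_right 2 m) ζ hζ ?_ y
  · have e1 : (2 * m / 2 : ℕ) = m := by omega
    rw [e1] at key
    exact key
  · intro y J hJ
    refine classes_induct univ (ex g) (2 * m) ζ (by simpa using h) ?_ y J hJ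
    intro S hS p hp hpS y₁ J₁ hJ₁ hsum y'
    have hJ₁' : ∀ i, i ∈ J₁ ↔ Cong (2 * m) S (ex g i) y₁ := by
      intro i
      rw [hJ₁ i]
      simp
    by_cases h0 : Cong (2 * m) S 0 y₁
    · refine sym_step g m hm ζ hζ h11 S hS p hp hpS J₁ ?_ hsum y'
      intro i
      rw [hJ₁' i]
      constructor
      · intro hc q hq
        have h1 := hc q hq
        have h2 := h0 q hq
        have h3 := dvd_sub h1 h2
        have h4 : ex g i - y₁ - (0 - y₁) = ex g i - 0 := by ring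
        rwa [h4] at h3
      · intro hc q hq
        have h1 := hc q hq
        have h2 := h0 q hq
        have h3 := dvd_add h1 h2
        have h4 : ex g i - 0 + (0 - y₁) = ex g i - y₁ := by ring
        rwa [h4] at h3
    · have hcard := asym_card g (2 * m) S hS y₁ h0 J₁ hJ₁'
      have hp' := hp
      unfold op at hp'
      rw [Finset.mem_erase, Nat.mem_primeFactors] at hp'
      obtain ⟨hp2, hpp, hpd, hne⟩ := hp'
      have h11p := h11 p hp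
      refine small_class J₁ (ex g) (2 * m) p ((2 * m).factorization p) (2 * m / p ^ (2 * m).factorization p)
        (Nat.ordProj_mul_ordCompl_eq_self (2 * m) p).symm ?_ hpp ?_ (Nat.ordCompl_pos p hne) ζ hζ hsum (by omega) y'
      · exact (hpp.dvd_iff_one_le_factorization hne).mp hpd
      · exact (Nat.coprime_ordCompl hpp hne).pow_left _

def ind (m z : ℤ) : ℤ := if (2 * m ∣ z) then 1 else 0

def U (m x a : ℤ) : ℤ := ind m (a - x) + ind m (-a - x) - ind m (a - x - m) - ind m (-a - x - m)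

def W (m x s1 s2 s3 : ℤ) : ℤ :=
  U m x (s1 + s2 + s3) + U m x (s1 + s2 - s3) + U m x (s1 - s2 + s3) + U m x (-s1 + s2 + s3)

theorem wc_key (m : ℕ) (v : Fin 8 → ℤ) (y : ℤ) :
    (((univ.filter (fun i => ((2 * m : ℕ) : ℤ) ∣ ex v i - y)).card : ℕ) : ℤ) =
      ∑ j : Fin 8, (ind m (v j - y) + ind m (- v j - y)) := by
  rw [Finset.card_filter]
  push_cast
  rw [Fintype.sum_prod_type]
  refine Finset.sum_congr rfl fun j _ => ?_
  rw [Fintype.sum_bool]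
  rfl

theorem wc_shift (m : ℕ) (z w : ℤ) (h : w = z + 2 * m) : ind m w = ind m z := by
  unfold ind
  have h1 : (2 * (m : ℤ) ∣ w) ↔ (2 * (m : ℤ) ∣ z) := by
    rw [h]
    exact dvd_add_self_right
  simp only [h1]

/-- counts to the function `W` -/
theorem W_of_counts (m : ℕ) (s1 s2 s3 t1 t2 t3 : ℤ)
    (h : ∀ y : ℤ, (univ.filter (fun i => ((2 * m : ℕ) : ℤ) ∣
        ex ![s1 + s2 + s3, s1 + s2 - s3, s1 - s2 + s3, -s1 + s2 + s3,
          t1 + t2 + t3 + m, t1 + t2 - t3 + m, t1 - t2 + t3 + m, -t1 + t2 + t3 + m] i - y)).card =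
      (univ.filter (fun i => ((2 * m : ℕ) : ℤ) ∣
        ex ![s1 + s2 + s3, s1 + s2 - s3, s1 - s2 + s3, -s1 + s2 + s3,
          t1 + t2 + t3 + m, t1 + t2 - t3 + m, t1 - t2 + t3 + m, -t1 + t2 + t3 + m] i
          - (y + m))).card) (x : ℤ) :
    W m x s1 s2 s3 = W m x t1 t2 t3 := by
  have h1 : ((_ : ℕ) : ℤ) = _ := congrArg (fun n : ℕ => (n : ℤ)) (h x)
  rw [wc_key, wc_key, Fin.sum_univ_eight, Fin.sum_univ_eight] at h1
  have h2 : ∀ b : ℤ, ind m (b + m - x) = ind m (b - x - m) := fun b =>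
    wc_shift m _ _ (by ring)
  have h3 : ∀ b : ℤ, ind m (-(b + m) - x) = ind m (-b - x - m) := fun b => by
    congr 1; ring
  have h4 : ∀ b : ℤ, ind m (b + m - (x + m)) = ind m (b - x) := fun b => by
    congr 1; ring
  have h5 : ∀ b : ℤ, ind m (-(b + m) - (x + m)) = ind m (-b - x) := fun b =>
    (wc_shift m _ _ (by ring)).symm
  have h6 : ∀ b : ℤ, ind m (b - (x + m)) = ind m (b - x - m) := fun b => by
    congr 1; ring
  unfold W U
  simp only [Matrix.cons_val] at h1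
  rw [h2, h2, h2, h2, h3, h3, h3, h3, h4, h4, h4, h4, h5, h5, h5, h5, h6, h6, h6, h6, h6, h6,
    h6, h6] at h1
  linarith

/-- values of `U` -/
def V (m x a : ℤ) : ℤ :=
  if 2 * |a| < m then (if x = |a| then 1 else 0)
  else if 2 * |a| = m then 0 else (if x = |m - (|a|)| then -1 else 0)

theorem ind_eq (m z : ℤ) (hm : 0 < m) (h1 : z < 4 * m) (h2 : -(4 * m) < z) :
    ind m z = if z = 0 ∨ z = 2 * m ∨ z = -(2 * m) then 1 else 0 := by
  unfold ind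
  refine if_congr ⟨?_, ?_⟩ rfl rfl
  · rintro ⟨c, rfl⟩
    have hc1 : c < 2 := by
      by_contra h
      push Not at h
      nlinarith
    have hc2 : -2 < c := by
      by_contra h
      push Not at h
      nlinarith
    have : c = -1 ∨ c = 0 ∨ c = 1 := by omega
    rcases this with rfl | rfl | rfl
    · right; right; ring
    · left; ring
    · right; left; ring
  · rintro (rfl | rfl | rfl)
    · exact dvd_zero _
    · exact dvd_refl _
    · exact (dvd_neg).mpr (dvd_refl _)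

theorem ind_cases (m z : ℤ) (hm : 0 < m) (h1 : z < 4 * m) (h2 : -(4 * m) < z) :
    (ind m z = 1 ∧ (z = 0 ∨ z = 2 * m ∨ z = -(2 * m))) ∨
      (ind m z = 0 ∧ z ≠ 0 ∧ z ≠ 2 * m ∧ z ≠ -(2 * m)) := by
  rw [ind_eq m z hm h1 h2]
  by_cases h : z = 0 ∨ z = 2 * m ∨ z = -(2 * m)
  · left
    rw [if_pos h]
    exact ⟨rfl, h⟩
  · right
    rw [if_neg h]
    push Not at h
    exact ⟨rfl, h⟩

theorem V_cases (m x a : ℤ) :
    (2 * |a| < m ∧ x = |a| ∧ V m x a = 1) ∨ (2 * |a| < m ∧ x ≠ |a| ∧ V m x a = 0) ∨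
    (2 * |a| = m ∧ V m x a = 0) ∨ (m < 2 * |a| ∧ x = |m - (|a|)| ∧ V m x a = -1) ∨
    (m < 2 * |a| ∧ x ≠ |m - (|a|)| ∧ V m x a = 0) := by
  unfold V
  by_cases h1 : 2 * |a| < m
  · by_cases h2 : x = |a|
    · left
      exact ⟨h1, h2, by rw [if_pos h1, if_pos h2]⟩
    · right; left
      exact ⟨h1, h2, by rw [if_pos h1, if_neg h2]⟩
  · by_cases h2 : 2 * |a| = m
    · right; right; left
      exact ⟨h2, by rw [if_neg h1, if_pos h2]⟩
    · have h3 : m < 2 * |a| := by omega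
      by_cases h4 : x = |m - (|a|)|
      · right; right; right; left
        exact ⟨h3, h4, by rw [if_neg h1, if_neg h2, if_pos h4]⟩
      · right; right; right; right
        exact ⟨h3, h4, by rw [if_neg h1, if_neg h2, if_neg h4]⟩

set_option maxHeartbeats 4000000 in
theorem U_eq_V (m x a : ℤ) (hm : 0 < m) (hx : 0 ≤ x) (hx2 : 2 * x < m) (ha : 2 * |a| < 3 * m) :
    U m x a = (if x = 0 then 2 else 1) * V m x a := by
  have ha1 : 2 * a < 3 * m := by have := le_abs_self a; omega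
  have ha2 : -(3 * m) < 2 * a := by have := neg_abs_le a; omega
  unfold U
  have c1' : (ind m (a - x) = 1 ∧ a = x) ∨ (ind m (a - x) = 0 ∧ a ≠ x) := by
    rcases ind_cases m (a - x) hm (by omega) (by omega) with ⟨h1, h2⟩ | ⟨h1, h2⟩
    · left; exact ⟨h1, by omega⟩
    · right; exact ⟨h1, by omega⟩
  have c2' : (ind m (-a - x) = 1 ∧ a = -x) ∨ (ind m (-a - x) = 0 ∧ a ≠ -x) := by
    rcases ind_cases m (-a - x) hm (by omega) (by omega) with ⟨h1, h2⟩ | ⟨h1, h2⟩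
    · left; exact ⟨h1, by omega⟩
    · right; exact ⟨h1, by omega⟩
  have c3' : (ind m (a - x - m) = 1 ∧ (a = x + m ∨ a = x - m)) ∨
      (ind m (a - x - m) = 0 ∧ a ≠ x + m ∧ a ≠ x - m) := by
    rcases ind_cases m (a - x - m) hm (by omega) (by omega) with ⟨h1, h2⟩ | ⟨h1, h2⟩
    · left; exact ⟨h1, by omega⟩
    · right; exact ⟨h1, by omega⟩
  have c4' : (ind m (-a - x - m) = 1 ∧ (a = -x - m ∨ a = m - x)) ∨
      (ind m (-a - x - m) = 0 ∧ a ≠ -x - m ∧ a ≠ m - x) := by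
    rcases ind_cases m (-a - x - m) hm (by omega) (by omega) with ⟨h1, h2⟩ | ⟨h1, h2⟩
    · left; exact ⟨h1, by omega⟩
    · right; exact ⟨h1, by omega⟩
  have c5 := V_cases m x a
  generalize ind m (a - x) = i1 at *
  generalize ind m (-a - x) = i2 at *
  generalize ind m (a - x - m) = i3 at *
  generalize ind m (-a - x - m) = i4 at *
  generalize V m x a = w at *
  rcases abs_cases a with ⟨h, h'⟩ | ⟨h, h'⟩ <;> rw [h] at c5
  · rcases abs_cases (m - a) with ⟨h2, h2'⟩ | ⟨h2, h2'⟩ <;> rw [h2] at c5 <;>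
    by_cases hx0 : x = 0 <;> [rw [if_pos hx0]; rw [if_neg hx0]; rw [if_pos hx0]; rw [if_neg hx0]] <;>
    rcases c5 with ⟨d1, d2, d3⟩ | ⟨d1, d2, d3⟩ | ⟨d1, d3⟩ | ⟨d1, d2, d3⟩ | ⟨d1, d2, d3⟩ <;>
    rcases c1' with ⟨e1, e2⟩ | ⟨e1, e2⟩ <;> rcases c2' with ⟨f1, f2⟩ | ⟨f1, f2⟩ <;> omega
  · rcases abs_cases (m - -a) with ⟨h2, h2'⟩ | ⟨h2, h2'⟩ <;> rw [h2] at c5 <;>
    by_cases hx0 : x = 0 <;> [rw [if_pos hx0]; rw [if_neg hx0]; rw [if_pos hx0]; rw [if_neg hx0]] <;>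
    rcases c5 with ⟨d1, d2, d3⟩ | ⟨d1, d2, d3⟩ | ⟨d1, d3⟩ | ⟨d1, d2, d3⟩ | ⟨d1, d2, d3⟩ <;>
    rcases c1' with ⟨e1, e2⟩ | ⟨e1, e2⟩ <;> rcases c2' with ⟨f1, f2⟩ | ⟨f1, f2⟩ <;> omega

def sg (m a : ℤ) : ℤ := if 2 * |a| < m then 1 else if 2 * |a| = m then 0 else -1

theorem sum_V_aux (m a : ℤ) (hm : 0 < m) (ha : 2 * |a| < 3 * m) :
    ∑ x ∈ (Finset.Ico (0:ℤ) ((m + 1) / 2)), V m x a = sg m a := by
  unfold V sg
  split_ifs with h1 h2
  · have h0 : 0 ≤ |a| := abs_nonneg a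
    rw [Finset.sum_ite_eq']
    rw [if_pos]
    rw [Finset.mem_Ico]
    omega
  · simp
  · have h0 : 0 ≤ |m - (|a|)| := abs_nonneg _
    rw [Finset.sum_ite_eq']
    rw [if_pos]
    rw [Finset.mem_Ico]
    have h3 : 2 * |m - (|a|)| < m := by
      rcases abs_cases (m - (|a|)) with h | h <;> omega
    omega

theorem sg_sum (m a0 a1 a2 a3 b0 b1 b2 b3 : ℤ) (hm : 0 < m)
    (ha0 : 2 * |a0| < 3 * m) (ha1 : 2 * |a1| < 3 * m) (ha2 : 2 * |a2| < 3 * m)
    (ha3 : 2 * |a3| < 3 * m) (hb0 : 2 * |b0| < 3 * m) (hb1 : 2 * |b1| < 3 * m)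
    (hb2 : 2 * |b2| < 3 * m) (hb3 : 2 * |b3| < 3 * m)
    (h : ∀ x : ℤ, 0 ≤ x → 2 * x < m → V m x a0 + V m x a1 + V m x a2 + V m x a3 =
      V m x b0 + V m x b1 + V m x b2 + V m x b3) :
    sg m a0 + sg m a1 + sg m a2 + sg m a3 = sg m b0 + sg m b1 + sg m b2 + sg m b3 := by
  rw [← sum_V_aux m a0 hm ha0, ← sum_V_aux m a1 hm ha1, ← sum_V_aux m a2 hm ha2,
    ← sum_V_aux m a3 hm ha3, ← sum_V_aux m b0 hm hb0, ← sum_V_aux m b1 hm hb1,
    ← sum_V_aux m b2 hm hb2, ← sum_V_aux m b3 hm hb3]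
  simp only [← Finset.sum_add_distrib]
  apply Finset.sum_congr rfl
  intro x hx
  rw [Finset.mem_Ico] at hx
  apply h x hx.1
  omega

theorem perm2_aux (m p2 p3 q2 q3 : ℤ) (hp2 : 0 ≤ p2 ∧ 2 * p2 < m)
    (hp3 : 0 ≤ p3 ∧ 2 * p3 < m)
    (h : ∀ x : ℤ, 0 ≤ x → 2 * x < m →
      (if x = p2 then (1 : ℤ) else 0) + (if x = p3 then 1 else 0) =
      (if x = q2 then (1 : ℤ) else 0) + (if x = q3 then 1 else 0)) :
    (p2 = q2 ∧ p3 = q3) ∨ (p2 = q3 ∧ p3 = q2) := by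
  have h2 := h p2 hp2.1 hp2.2
  have h3 := h p3 hp3.1 hp3.2
  clear h
  split_ifs at h2 h3 <;> omega

theorem perm3 (m p1 p2 p3 q1 q2 q3 : ℤ) (hp1 : 0 ≤ p1 ∧ 2 * p1 < m) (hp2 : 0 ≤ p2 ∧ 2 * p2 < m)
    (hp3 : 0 ≤ p3 ∧ 2 * p3 < m) (hq1 : 0 ≤ q1 ∧ 2 * q1 < m) (hq2 : 0 ≤ q2 ∧ 2 * q2 < m)
    (hq3 : 0 ≤ q3 ∧ 2 * q3 < m)
    (h : ∀ x : ℤ, 0 ≤ x → 2 * x < m →
      (if x = p1 then (1 : ℤ) else 0) + (if x = p2 then 1 else 0) + (if x = p3 then 1 else 0) =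
      (if x = q1 then (1 : ℤ) else 0) + (if x = q2 then 1 else 0) + (if x = q3 then 1 else 0)) :
    (p1 = q1 ∧ ((p2 = q2 ∧ p3 = q3) ∨ (p2 = q3 ∧ p3 = q2))) ∨
    (p1 = q2 ∧ ((p2 = q1 ∧ p3 = q3) ∨ (p2 = q3 ∧ p3 = q1))) ∨
    (p1 = q3 ∧ ((p2 = q1 ∧ p3 = q2) ∨ (p2 = q2 ∧ p3 = q1))) := by
  have h1 : p1 = q1 ∨ p1 = q2 ∨ p1 = q3 := by
    have h1 := h p1 hp1.1 hp1.2
    rw [if_pos rfl] at h1
    by_contra hcon
    push Not at hcon
    rw [if_neg hcon.1, if_neg hcon.2.1, if_neg hcon.2.2] at h1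
    have e2 : (0:ℤ) ≤ if p1 = p2 then 1 else 0 := by split_ifs <;> norm_num
    have e3 : (0:ℤ) ≤ if p1 = p3 then 1 else 0 := by split_ifs <;> norm_num
    linarith
  rcases h1 with rfl | rfl | rfl
  · left
    exact ⟨rfl, perm2_aux m p2 p3 q2 q3 hp2 hp3 (fun x hx hx' => by
      have := h x hx hx'; linarith)⟩
  · right; left
    exact ⟨rfl, perm2_aux m p2 p3 q1 q3 hp2 hp3 (fun x hx hx' => by
      have := h x hx hx'; linarith)⟩
  · right; right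
    exact ⟨rfl, perm2_aux m p2 p3 q1 q2 hp2 hp3 (fun x hx hx' => by
      have := h x hx hx'; linarith)⟩

def P3 (p2 p3 p4 q2 q3 q4 : ℤ) : Prop :=
    (p2 = q2 ∧ ((p3 = q3 ∧ p4 = q4) ∨ (p3 = q4 ∧ p4 = q3))) ∨
    (p2 = q3 ∧ ((p3 = q2 ∧ p4 = q4) ∨ (p3 = q4 ∧ p4 = q2))) ∨
    (p2 = q4 ∧ ((p3 = q2 ∧ p4 = q3) ∨ (p3 = q3 ∧ p4 = q2)))

theorem perm4 (m p1 p2 p3 p4 q1 q2 q3 q4 : ℤ) (hp1 : 0 ≤ p1 ∧ 2 * p1 < m)
    (hp2 : 0 ≤ p2 ∧ 2 * p2 < m) (hp3 : 0 ≤ p3 ∧ 2 * p3 < m) (hp4 : 0 ≤ p4 ∧ 2 * p4 < m)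
    (hq1 : 0 ≤ q1 ∧ 2 * q1 < m) (hq2 : 0 ≤ q2 ∧ 2 * q2 < m)
    (hq3 : 0 ≤ q3 ∧ 2 * q3 < m) (hq4 : 0 ≤ q4 ∧ 2 * q4 < m)
    (h : ∀ x : ℤ, 0 ≤ x → 2 * x < m →
      (if x = p1 then (1 : ℤ) else 0) + (if x = p2 then 1 else 0) + (if x = p3 then 1 else 0) +
        (if x = p4 then 1 else 0) =
      (if x = q1 then (1 : ℤ) else 0) + (if x = q2 then 1 else 0) + (if x = q3 then 1 else 0) +
        (if x = q4 then 1 else 0)) :
    (p1 = q1 ∧ P3 p2 p3 p4 q2 q3 q4) ∨ (p1 = q2 ∧ P3 p2 p3 p4 q1 q3 q4) ∨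
    (p1 = q3 ∧ P3 p2 p3 p4 q1 q2 q4) ∨ (p1 = q4 ∧ P3 p2 p3 p4 q1 q2 q3) := by
  have key : p1 = q1 ∨ p1 = q2 ∨ p1 = q3 ∨ p1 = q4 := by
    by_contra hcon
    push Not at hcon
    obtain ⟨h1, h2, h3, h4⟩ := hcon
    have hh := h p1 hp1.1 hp1.2
    rw [if_pos rfl, if_neg h1, if_neg h2, if_neg h3, if_neg h4] at hh
    have a2 : (0:ℤ) ≤ (if p1 = p2 then (1 : ℤ) else 0) := by split_ifs <;> norm_num
    have a3 : (0:ℤ) ≤ (if p1 = p3 then (1 : ℤ) else 0) := by split_ifs <;> norm_num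
    have a4 : (0:ℤ) ≤ (if p1 = p4 then (1 : ℤ) else 0) := by split_ifs <;> norm_num
    linarith
  rcases key with e | e | e | e
  · left
    refine ⟨e, ?_⟩
    apply perm3 m p2 p3 p4 q2 q3 q4 hp2 hp3 hp4 hq2 hq3 hq4
    intro x hx0 hx1
    have hh := h x hx0 hx1
    rw [e] at hh
    linarith
  · right; left
    refine ⟨e, ?_⟩
    apply perm3 m p2 p3 p4 q1 q3 q4 hp2 hp3 hp4 hq1 hq3 hq4
    intro x hx0 hx1
    have hh := h x hx0 hx1
    rw [e] at hh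
    linarith
  · right; right; left
    refine ⟨e, ?_⟩
    apply perm3 m p2 p3 p4 q1 q2 q4 hp2 hp3 hp4 hq1 hq2 hq4
    intro x hx0 hx1
    have hh := h x hx0 hx1
    rw [e] at hh
    linarith
  · right; right; right
    refine ⟨e, ?_⟩
    apply perm3 m p2 p3 p4 q1 q2 q3 hp2 hp3 hp4 hq1 hq2 hq3
    intro x hx0 hx1
    have hh := h x hx0 hx1
    rw [e] at hh
    linarith

/-- `S = {s1,s2,s3}` (decreasing) with `si + sj = m/2`, etc. -/
def Fam (m si sj sc tk tl td : ℤ) : Prop :=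
  2 * (si + sj) = m ∧ 2 * (tk + tl) = m ∧ sc = tk - tl ∧ td = si - sj

theorem V_pos_aux (m x a : ℤ) (ha : 0 ≤ a) (h : 2 * a < m) : V m x a = if x = a then 1 else 0 := by
  unfold V
  rw [abs_of_nonneg ha, if_pos h]

theorem V_abs_aux (m x a : ℤ) (h : 2 * |a| < m) : V m x a = if x = |a| then 1 else 0 := by
  unfold V
  rw [if_pos h]

theorem V_zero_aux (m x a : ℤ) (ha : 0 ≤ a) (h : 2 * a = m) : V m x a = 0 := by
  unfold V
  rw [abs_of_nonneg ha, if_neg (by omega), if_pos h]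

theorem V_neg_aux (m x a : ℤ) (ha : 0 ≤ a) (h : m < 2 * a) :
    V m x a = -(if x = |m - a| then 1 else 0) := by
  unfold V
  rw [abs_of_nonneg ha, if_neg (by omega), if_neg (by omega)]
  split_ifs <;> rfl

theorem sg_aux (m a : ℤ) (ha : 0 ≤ a) : (2 * a < m ∧ sg m a = 1) ∨ (2 * a = m ∧ sg m a = 0) ∨
    (m < 2 * a ∧ sg m a = -1) := by
  unfold sg
  rw [abs_of_nonneg ha]
  rcases lt_trichotomy (2 * a) m with h | h | h
  · left; exact ⟨h, if_pos h⟩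
  · right; left; exact ⟨h, by rw [if_neg (by omega), if_pos h]⟩
  · right; right; exact ⟨h, by rw [if_neg (by omega), if_neg (by omega)]⟩

theorem abs_aux (a : ℤ) : (|a| = a ∧ 0 ≤ a) ∨ (|a| = -a ∧ a < 0) := abs_cases a

/-- the conclusion -/
def Concl10 (m s1 s2 s3 t1 t2 t3 : ℤ) : Prop :=
    (s1 = t1 ∧ s2 = t2 ∧ s3 = t3) ∨
    Fam m s1 s2 s3 t1 t2 t3 ∨ Fam m s1 s2 s3 t1 t3 t2 ∨ Fam m s1 s2 s3 t2 t3 t1 ∨
    Fam m s1 s3 s2 t1 t2 t3 ∨ Fam m s1 s3 s2 t1 t3 t2 ∨ Fam m s1 s3 s2 t2 t3 t1 ∨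
    Fam m s2 s3 s1 t1 t2 t3 ∨ Fam m s2 s3 s1 t1 t3 t2 ∨ Fam m s2 s3 s1 t2 t3 t1

theorem r1_aux (m s1 s2 s3 t1 t2 t3 p q : ℤ) (hs1 : 2 * s1 < m) (hs12 : s2 ≤ s1)
    (hs23 : s3 ≤ s2) (hs3 : 0 < s3) (ht1 : 2 * t1 < m) (ht12 : t2 ≤ t1) (ht23 : t3 ≤ t2)
    (ht3 : 0 < t3)
    (hp : (p = -s1 + s2 + s3 ∧ 0 ≤ -s1 + s2 + s3) ∨ (p = -(-s1 + s2 + s3) ∧ -s1 + s2 + s3 < 0))
    (hq : (q = -t1 + t2 + t3 ∧ 0 ≤ -t1 + t2 + t3) ∨ (q = -(-t1 + t2 + t3) ∧ -t1 + t2 + t3 < 0))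
    (h : ((s1 + s2 + s3) = (t1 + t2 + t3) ∧ P3 (s1 + s2 - s3) (s1 - s2 + s3) p (t1 + t2 - t3) (t1 - t2 + t3) q) ∨
      ((s1 + s2 + s3) = (t1 + t2 - t3) ∧ P3 (s1 + s2 - s3) (s1 - s2 + s3) p (t1 + t2 + t3) (t1 - t2 + t3) q) ∨
      ((s1 + s2 + s3) = (t1 - t2 + t3) ∧ P3 (s1 + s2 - s3) (s1 - s2 + s3) p (t1 + t2 + t3) (t1 + t2 - t3) q) ∨
      ((s1 + s2 + s3) = q ∧ P3 (s1 + s2 - s3) (s1 - s2 + s3) p (t1 + t2 + t3) (t1 + t2 - t3) (t1 - t2 + t3))) :
    s1 = t1 ∧ s2 = t2 ∧ s3 = t3 := by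
  unfold P3 at h
  rcases hp with ⟨hp, hp'⟩ | ⟨hp, hp'⟩ <;> rcases hq with ⟨hq, hq'⟩ | ⟨hq, hq'⟩ <;>
    rcases h with ⟨h1, h2⟩ | ⟨h1, h2⟩ | ⟨h1, h2⟩ | ⟨h1, h2⟩ <;>
    rcases h2 with ⟨h3, ⟨h4, h5⟩ | ⟨h4, h5⟩⟩ | ⟨h3, ⟨h4, h5⟩ | ⟨h4, h5⟩⟩ | ⟨h3, ⟨h4, h5⟩ | ⟨h4, h5⟩⟩ <;>
    omega

theorem r2_aux (m s1 s2 s3 t1 t2 t3 p q : ℤ) (hs1 : 2 * s1 < m) (hs12 : s2 ≤ s1)
    (hs23 : s3 ≤ s2) (hs3 : 0 < s3) (ht1 : 2 * t1 < m) (ht12 : t2 ≤ t1) (ht23 : t3 ≤ t2)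
    (ht3 : 0 < t3) (h0 : s1 + s2 + s3 = t1 + t2 + t3)
    (hp : (p = -s1 + s2 + s3 ∧ 0 ≤ -s1 + s2 + s3) ∨ (p = -(-s1 + s2 + s3) ∧ -s1 + s2 + s3 < 0))
    (hq : (q = -t1 + t2 + t3 ∧ 0 ≤ -t1 + t2 + t3) ∨ (q = -(-t1 + t2 + t3) ∧ -t1 + t2 + t3 < 0))
    (h : P3 (s1 + s2 - s3) (s1 - s2 + s3) p (t1 + t2 - t3) (t1 - t2 + t3) q) :
    s1 = t1 ∧ s2 = t2 ∧ s3 = t3 := by
  unfold P3 at h
  rcases hp with ⟨hp, hp'⟩ | ⟨hp, hp'⟩ <;> rcases hq with ⟨hq, hq'⟩ | ⟨hq, hq'⟩ <;>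
    rcases h with ⟨h3, ⟨h4, h5⟩ | ⟨h4, h5⟩⟩ | ⟨h3, ⟨h4, h5⟩ | ⟨h4, h5⟩⟩ | ⟨h3, ⟨h4, h5⟩ | ⟨h4, h5⟩⟩ <;>
    omega

set_option maxHeartbeats 4000000 in
theorem r3_aux (m s1 s2 s3 t1 t2 t3 p q A B : ℤ) (hs1 : 2 * s1 < m) (hs12 : s2 ≤ s1)
    (hs23 : s3 ≤ s2) (hs3 : 0 < s3) (ht1 : 2 * t1 < m) (ht12 : t2 ≤ t1) (ht23 : t3 ≤ t2)
    (ht3 : 0 < t3) (e0 : m < 2 * (s1 + s2 + s3)) (e1 : 2 * (s1 + s2 - s3) < m)
    (e2 : m < 2 * (t1 + t2 + t3)) (e3 : 2 * (t1 + t2 - t3) < m)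
    (hp : (p = -s1 + s2 + s3 ∧ 0 ≤ -s1 + s2 + s3) ∨ (p = -(-s1 + s2 + s3) ∧ -s1 + s2 + s3 < 0))
    (hq : (q = -t1 + t2 + t3 ∧ 0 ≤ -t1 + t2 + t3) ∨ (q = -(-t1 + t2 + t3) ∧ -t1 + t2 + t3 < 0))
    (hA : (A = m - (s1 + s2 + s3) ∧ 0 ≤ m - (s1 + s2 + s3)) ∨
      (A = -(m - (s1 + s2 + s3)) ∧ m - (s1 + s2 + s3) < 0))
    (hB : (B = m - (t1 + t2 + t3) ∧ 0 ≤ m - (t1 + t2 + t3)) ∨
      (B = -(m - (t1 + t2 + t3)) ∧ m - (t1 + t2 + t3) < 0))
    (h : ((s1 + s2 - s3) = (t1 + t2 - t3) ∧ P3 (s1 - s2 + s3) p B (t1 - t2 + t3) q A) ∨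
      ((s1 + s2 - s3) = (t1 - t2 + t3) ∧ P3 (s1 - s2 + s3) p B (t1 + t2 - t3) q A) ∨
      ((s1 + s2 - s3) = q ∧ P3 (s1 - s2 + s3) p B (t1 + t2 - t3) (t1 - t2 + t3) A) ∨
      ((s1 + s2 - s3) = A ∧ P3 (s1 - s2 + s3) p B (t1 + t2 - t3) (t1 - t2 + t3) q)) :
    Concl10 m s1 s2 s3 t1 t2 t3 := by
  unfold P3 at h
  unfold Concl10
  rcases hp with ⟨hp, hp'⟩ | ⟨hp, hp'⟩ <;> rcases hq with ⟨hq, hq'⟩ | ⟨hq, hq'⟩ <;>
    rcases hA with ⟨hA, hA'⟩ | ⟨hA, hA'⟩ <;> rcases hB with ⟨hB, hB'⟩ | ⟨hB, hB'⟩ <;>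
    rcases h with ⟨h1, h2⟩ | ⟨h1, h2⟩ | ⟨h1, h2⟩ | ⟨h1, h2⟩ <;>
    rcases h2 with ⟨h3, ⟨h4, h5⟩ | ⟨h4, h5⟩⟩ | ⟨h3, ⟨h4, h5⟩ | ⟨h4, h5⟩⟩ | ⟨h3, ⟨h4, h5⟩ | ⟨h4, h5⟩⟩ <;>
    (first | exact Or.inl (by omega) | exact Or.inr (Or.inl (by unfold Fam; omega)) | exact Or.inr (Or.inr (Or.inl (by unfold Fam; omega))) | exact Or.inr (Or.inr (Or.inr (Or.inl (by unfold Fam; omega)))) | exact Or.inr (Or.inr (Or.inr (Or.inr (Or.inl (by unfold Fam; omega))))) | exact Or.inr (Or.inr (Or.inr (Or.inr (Or.inr (Or.inl (by unfold Fam; omega)))))) | exact Or.inr (Or.inr (Or.inr (Or.inr (Or.inr (Or.inr (Or.inl (by unfold Fam; omega))))))) | exact Or.inr (Or.inr (Or.inr (Or.inr (Or.inr (Or.inr (Or.inr (Or.inl (by unfold Fam; omega)))))))) | exact Or.inr (Or.inr (Or.inr (Or.inr (Or.inr (Or.inr (Or.inr (Or.inr (Or.inl (by unfold Fam; omega))))))))) | exact Or.inr (Or.inr (Or.inr (Or.inr (Or.inr (Or.inr (Or.inr (Or.inr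 (Or.inr (by unfold Fam; omega))))))))))

set_option maxHeartbeats 4000000 in
theorem r4_aux (m s1 s2 s3 t1 t2 t3 p q A B : ℤ) (hs1 : 2 * s1 < m) (hs12 : s2 ≤ s1)
    (hs23 : s3 ≤ s2) (hs3 : 0 < s3) (ht1 : 2 * t1 < m) (ht12 : t2 ≤ t1) (ht23 : t3 ≤ t2)
    (ht3 : 0 < t3) (e0 : m < 2 * (s1 + s2 + s3)) (e1 : 2 * (s1 + s2 - s3) = m)
    (e2 : m < 2 * (t1 + t2 + t3)) (e3 : 2 * (t1 + t2 - t3) = m)
    (hp : (p = -s1 + s2 + s3 ∧ 0 ≤ -s1 + s2 + s3) ∨ (p = -(-s1 + s2 + s3) ∧ -s1 + s2 + s3 < 0))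
    (hq : (q = -t1 + t2 + t3 ∧ 0 ≤ -t1 + t2 + t3) ∨ (q = -(-t1 + t2 + t3) ∧ -t1 + t2 + t3 < 0))
    (hA : (A = m - (s1 + s2 + s3) ∧ 0 ≤ m - (s1 + s2 + s3)) ∨
      (A = -(m - (s1 + s2 + s3)) ∧ m - (s1 + s2 + s3) < 0))
    (hB : (B = m - (t1 + t2 + t3) ∧ 0 ≤ m - (t1 + t2 + t3)) ∨
      (B = -(m - (t1 + t2 + t3)) ∧ m - (t1 + t2 + t3) < 0))
    (h : P3 (s1 - s2 + s3) p B (t1 - t2 + t3) q A) :
    Concl10 m s1 s2 s3 t1 t2 t3 := by
  unfold P3 at h
  unfold Concl10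
  rcases hp with ⟨hp, hp'⟩ | ⟨hp, hp'⟩ <;> rcases hq with ⟨hq, hq'⟩ | ⟨hq, hq'⟩ <;>
    rcases hA with ⟨hA, hA'⟩ | ⟨hA, hA'⟩ <;> rcases hB with ⟨hB, hB'⟩ | ⟨hB, hB'⟩ <;>
    rcases h with ⟨h3, ⟨h4, h5⟩ | ⟨h4, h5⟩⟩ | ⟨h3, ⟨h4, h5⟩ | ⟨h4, h5⟩⟩ | ⟨h3, ⟨h4, h5⟩ | ⟨h4, h5⟩⟩ <;>
    (first | exact Or.inl (by omega) | exact Or.inr (Or.inl (by unfold Fam; omega)) | exact Or.inr (Or.inr (Or.inl (by unfold Fam; omega))) | exact Or.inr (Or.inr (Or.inr (Or.inl (by unfold Fam; omega)))) | exact Or.inr (Or.inr (Or.inr (Or.inr (Or.inl (by unfold Fam; omega))))) | exact Or.inr (Or.inr (Or.inr (Or.inr (Or.inr (Or.inl (by unfold Fam; omega)))))) | exact Or.inr (Or.inr (Or.inr (Or.inr (Or.inr (Or.inr (Or.inl (by unfold Fam; omega))))))) | exact Or.inr (Or.inr (Or.inr (Or.inr (Or.inr (Or.inr (Or.inr (Or.inl (by unfold Fam; omega)))))))) | exact Or.inr (Or.inr (Or.inr (Or.inr (Or.inr (Or.inr (Or.inr (Or.inr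 (Or.inl (by unfold Fam; omega))))))))) | exact Or.inr (Or.inr (Or.inr (Or.inr (Or.inr (Or.inr (Or.inr (Or.inr (Or.inr (by unfold Fam; omega))))))))))

set_option maxHeartbeats 4000000 in
theorem r5_aux (m s1 s2 s3 t1 t2 t3 p q A B : ℤ) (hs1 : 2 * s1 < m) (hs12 : s2 ≤ s1)
    (hs23 : s3 ≤ s2) (hs3 : 0 < s3) (ht1 : 2 * t1 < m) (ht12 : t2 ≤ t1) (ht23 : t3 ≤ t2)
    (ht3 : 0 < t3) (e0 : m < 2 * (s1 + s2 + s3)) (e1 : m < 2 * (s1 + s2 - s3))
    (e2 : m < 2 * (t1 + t2 + t3)) (e3 : m < 2 * (t1 + t2 - t3))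
    (hp : (p = -s1 + s2 + s3 ∧ 0 ≤ -s1 + s2 + s3) ∨ (p = -(-s1 + s2 + s3) ∧ -s1 + s2 + s3 < 0))
    (hq : (q = -t1 + t2 + t3 ∧ 0 ≤ -t1 + t2 + t3) ∨ (q = -(-t1 + t2 + t3) ∧ -t1 + t2 + t3 < 0))
    (hA : (A = m - (s1 + s2 + s3) ∧ 0 ≤ m - (s1 + s2 + s3)) ∨
      (A = -(m - (s1 + s2 + s3)) ∧ m - (s1 + s2 + s3) < 0))
    (hB : (B = m - (t1 + t2 + t3) ∧ 0 ≤ m - (t1 + t2 + t3)) ∨
      (B = -(m - (t1 + t2 + t3)) ∧ m - (t1 + t2 + t3) < 0))
    (h : ((s1 - s2 + s3) = (t1 - t2 + t3) ∧ P3 p B (m - (t1 + t2 - t3)) q A (m - (s1 + s2 - s3))) ∨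
      ((s1 - s2 + s3) = q ∧ P3 p B (m - (t1 + t2 - t3)) (t1 - t2 + t3) A (m - (s1 + s2 - s3))) ∨
      ((s1 - s2 + s3) = A ∧ P3 p B (m - (t1 + t2 - t3)) (t1 - t2 + t3) q (m - (s1 + s2 - s3))) ∨
      ((s1 - s2 + s3) = (m - (s1 + s2 - s3)) ∧ P3 p B (m - (t1 + t2 - t3)) (t1 - t2 + t3) q A)) :
    Concl10 m s1 s2 s3 t1 t2 t3 := by
  unfold P3 at h
  unfold Concl10
  rcases hp with ⟨hp, hp'⟩ | ⟨hp, hp'⟩ <;> rcases hq with ⟨hq, hq'⟩ | ⟨hq, hq'⟩ <;>
    rcases hA with ⟨hA, hA'⟩ | ⟨hA, hA'⟩ <;> rcases hB with ⟨hB, hB'⟩ | ⟨hB, hB'⟩ <;>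
    rcases h with ⟨h1, h2⟩ | ⟨h1, h2⟩ | ⟨h1, h2⟩ | ⟨h1, h2⟩ <;>
    rcases h2 with ⟨h3, ⟨h4, h5⟩ | ⟨h4, h5⟩⟩ | ⟨h3, ⟨h4, h5⟩ | ⟨h4, h5⟩⟩ | ⟨h3, ⟨h4, h5⟩ | ⟨h4, h5⟩⟩ <;>
    (first | exact Or.inl (by omega) | exact Or.inr (Or.inl (by unfold Fam; omega)) | exact Or.inr (Or.inr (Or.inl (by unfold Fam; omega))) | exact Or.inr (Or.inr (Or.inr (Or.inl (by unfold Fam; omega)))) | exact Or.inr (Or.inr (Or.inr (Or.inr (Or.inl (by unfold Fam; omega))))) | exact Or.inr (Or.inr (Or.inr (Or.inr (Or.inr (Or.inl (by unfold Fam; omega)))))) | exact Or.inr (Or.inr (Or.inr (Or.inr (Or.inr (Or.inr (Or.inl (by unfold Fam; omega))))))) | exact Or.inr (Or.inr (Or.inr (Or.inr (Or.inr (Or.inr (Or.inr (Or.inl (by unfold Fam; omega)))))))) | exact Or.inr (Or.inr (Or.inr (Or.inr (Or.inr (Or.inr (Or.inr (Or.inr (Or.inl (by unfold Fam; omega))))))))) | exact Or.inr (Or.inr (Or.inr (Or.inr (Or.inr (Or.inr (Or.inr (Or.inr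 (Or.inr (by unfold Fam; omega))))))))))

set_option maxHeartbeats 4000000 in

theorem classify_sorted (m s1 s2 s3 t1 t2 t3 : ℤ) (hs1 : 2 * s1 < m) (hs12 : s2 ≤ s1)
    (hs23 : s3 ≤ s2) (hs3 : 0 < s3) (ht1 : 2 * t1 < m) (ht12 : t2 ≤ t1) (ht23 : t3 ≤ t2)
    (ht3 : 0 < t3) (h : ∀ x : ℤ, W m x s1 s2 s3 = W m x t1 t2 t3) :
    (s1 = t1 ∧ s2 = t2 ∧ s3 = t3) ∨
    Fam m s1 s2 s3 t1 t2 t3 ∨ Fam m s1 s2 s3 t1 t3 t2 ∨ Fam m s1 s2 s3 t2 t3 t1 ∨
    Fam m s1 s3 s2 t1 t2 t3 ∨ Fam m s1 s3 s2 t1 t3 t2 ∨ Fam m s1 s3 s2 t2 t3 t1 ∨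
    Fam m s2 s3 s1 t1 t2 t3 ∨ Fam m s2 s3 s1 t1 t3 t2 ∨ Fam m s2 s3 s1 t2 t3 t1 := by
  have hm : 0 < m := by omega
  set a0 := s1 + s2 + s3 with ha0
  set a1 := s1 + s2 - s3 with ha1
  set a2 := s1 - s2 + s3 with ha2
  set a3 := -s1 + s2 + s3 with ha3
  set b0 := t1 + t2 + t3 with hb0
  set b1 := t1 + t2 - t3 with hb1
  set b2 := t1 - t2 + t3 with hb2
  set b3 := -t1 + t2 + t3 with hb3
  have p0 : 0 ≤ a0 := by omega
  have p1 : 0 ≤ a1 := by omega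
  have p2 : 0 ≤ a2 := by omega
  have q0 : 0 ≤ b0 := by omega
  have q1 : 0 ≤ b1 := by omega
  have q2 : 0 ≤ b2 := by omega
  have c0 : 2 * |a0| < 3 * m := by rw [abs_of_nonneg p0]; omega
  have c1 : 2 * |a1| < 3 * m := by rw [abs_of_nonneg p1]; omega
  have c2 : 2 * |a2| < m := by rw [abs_of_nonneg p2]; omega
  have c3 : 2 * |a3| < m := by rcases abs_aux a3 with ⟨h1, h2⟩ | ⟨h1, h2⟩ <;> omega
  have d0 : 2 * |b0| < 3 * m := by rw [abs_of_nonneg q0]; omega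
  have d1 : 2 * |b1| < 3 * m := by rw [abs_of_nonneg q1]; omega
  have d2 : 2 * |b2| < m := by rw [abs_of_nonneg q2]; omega
  have d3 : 2 * |b3| < m := by rcases abs_aux b3 with ⟨h1, h2⟩ | ⟨h1, h2⟩ <;> omega
  have hV : ∀ x : ℤ, 0 ≤ x → 2 * x < m → V m x a0 + V m x a1 + V m x a2 + V m x a3 =
      V m x b0 + V m x b1 + V m x b2 + V m x b3 := by
    intro x hx hx2
    have h1 := h x
    unfold W at h1
    rw [← ha0, ← ha1, ← ha2, ← ha3, ← hb0, ← hb1, ← hb2, ← hb3] at h1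
    rw [U_eq_V m x a0 hm hx hx2 c0, U_eq_V m x a1 hm hx hx2 c1,
      U_eq_V m x a2 hm hx hx2 (by omega), U_eq_V m x a3 hm hx hx2 (by omega),
      U_eq_V m x b0 hm hx hx2 d0, U_eq_V m x b1 hm hx hx2 d1,
      U_eq_V m x b2 hm hx hx2 (by omega), U_eq_V m x b3 hm hx hx2 (by omega)] at h1
    split_ifs at h1 <;> linarith
  have hsg := sg_sum m a0 a1 a2 a3 b0 b1 b2 b3 hm c0 c1 (by omega) (by omega) d0 d1 (by omega)
    (by omega) hV
  have e2 : sg m a2 = 1 := by unfold sg; rw [if_pos c2]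
  have e3 : sg m a3 = 1 := by unfold sg; rw [if_pos c3]
  have f2 : sg m b2 = 1 := by unfold sg; rw [if_pos d2]
  have f3 : sg m b3 = 1 := by unfold sg; rw [if_pos d3]
  rw [e2, e3, f2, f3] at hsg
  change Concl10 m s1 s2 s3 t1 t2 t3
  rcases sg_aux m a0 p0 with ⟨u1, v1⟩ | ⟨u1, v1⟩ | ⟨u1, v1⟩ <;>
  rcases sg_aux m a1 p1 with ⟨u2, v2⟩ | ⟨u2, v2⟩ | ⟨u2, v2⟩ <;>
  rcases sg_aux m b0 q0 with ⟨u3, v3⟩ | ⟨u3, v3⟩ | ⟨u3, v3⟩ <;>
  rcases sg_aux m b1 q1 with ⟨u4, v4⟩ | ⟨u4, v4⟩ | ⟨u4, v4⟩ <;>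
  rw [v1, v2, v3, v4] at hsg <;> clear v1 v2 v3 v4 <;> try (clear c0 c1 c2 c3 d0 d1 d2 d3 hV h; omega)
  · have hp := abs_aux a3
    have hq := abs_aux b3
    have hA := abs_aux (m - a0)
    have hB := abs_aux (m - b0)
    have hp0 : 0 ≤ |a3| := abs_nonneg _
    have hq0 : 0 ≤ |b3| := abs_nonneg _
    have hA0 : 0 ≤ |m - a0| := abs_nonneg _
    have hB0 : 0 ≤ |m - b0| := abs_nonneg _
    refine Or.inl (r1_aux m s1 s2 s3 t1 t2 t3 |a3| |b3| hs1 hs12 hs23 hs3 ht1 ht12 ht23 ht3 hp hq ?_)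
    refine perm4 m a0 a1 a2 |a3| b0 b1 b2 |b3| (by omega) (by omega) (by omega) (by omega)
      (by omega) (by omega) (by omega) (by omega) ?_
    intro x hx hx2
    have := hV x hx hx2
    rw [V_pos_aux m x a0 p0 u1, V_pos_aux m x a1 p1 u2, V_pos_aux m x a2 p2 (by omega),
      V_abs_aux m x a3 c3, V_pos_aux m x b0 q0 u3, V_pos_aux m x b1 q1 u4,
      V_pos_aux m x b2 q2 (by omega), V_abs_aux m x b3 d3] at this
    exact this
  · have hp := abs_aux a3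
    have hq := abs_aux b3
    have hA := abs_aux (m - a0)
    have hB := abs_aux (m - b0)
    have hp0 : 0 ≤ |a3| := abs_nonneg _
    have hq0 : 0 ≤ |b3| := abs_nonneg _
    have hA0 : 0 ≤ |m - a0| := abs_nonneg _
    have hB0 : 0 ≤ |m - b0| := abs_nonneg _
    refine Or.inl (r2_aux m s1 s2 s3 t1 t2 t3 |a3| |b3| hs1 hs12 hs23 hs3 ht1 ht12 ht23 ht3
      (by omega) hp hq ?_)
    refine perm3 m a1 a2 |a3| b1 b2 |b3| (by omega) (by omega) (by omega) (by omega)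
      (by omega) (by omega) ?_
    intro x hx hx2
    have := hV x hx hx2
    rw [V_zero_aux m x a0 p0 u1, V_pos_aux m x a1 p1 u2, V_pos_aux m x a2 p2 (by omega),
      V_abs_aux m x a3 c3, V_zero_aux m x b0 q0 u3, V_pos_aux m x b1 q1 u4,
      V_pos_aux m x b2 q2 (by omega), V_abs_aux m x b3 d3] at this
    linarith
  · have hp := abs_aux a3
    have hq := abs_aux b3
    have hA := abs_aux (m - a0)
    have hB := abs_aux (m - b0)
    have hp0 : 0 ≤ |a3| := abs_nonneg _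
    have hq0 : 0 ≤ |b3| := abs_nonneg _
    have hA0 : 0 ≤ |m - a0| := abs_nonneg _
    have hB0 : 0 ≤ |m - b0| := abs_nonneg _
    refine r3_aux m s1 s2 s3 t1 t2 t3 |a3| |b3| |m - a0| |m - b0| hs1 hs12 hs23 hs3 ht1 ht12 ht23 ht3
      u1 u2 u3 u4 hp hq hA hB ?_
    refine perm4 m a1 a2 |a3| |m - b0| b1 b2 |b3| |m - a0| (by omega) (by omega) (by omega) (by omega)
      (by omega) (by omega) (by omega) (by omega) ?_
    intro x hx hx2
    have := hV x hx hx2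
    rw [V_neg_aux m x a0 p0 u1, V_pos_aux m x a1 p1 u2, V_pos_aux m x a2 p2 (by omega),
      V_abs_aux m x a3 c3, V_neg_aux m x b0 q0 u3, V_pos_aux m x b1 q1 u4,
      V_pos_aux m x b2 q2 (by omega), V_abs_aux m x b3 d3] at this
    linarith
  · have hp := abs_aux a3
    have hq := abs_aux b3
    have hA := abs_aux (m - a0)
    have hB := abs_aux (m - b0)
    have hp0 : 0 ≤ |a3| := abs_nonneg _
    have hq0 : 0 ≤ |b3| := abs_nonneg _
    have hA0 : 0 ≤ |m - a0| := abs_nonneg _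
    have hB0 : 0 ≤ |m - b0| := abs_nonneg _
    refine r4_aux m s1 s2 s3 t1 t2 t3 |a3| |b3| |m - a0| |m - b0| hs1 hs12 hs23 hs3 ht1 ht12 ht23 ht3
      u1 u2 u3 u4 hp hq hA hB ?_
    refine perm3 m a2 |a3| |m - b0| b2 |b3| |m - a0| (by omega) (by omega) (by omega) (by omega)
      (by omega) (by omega) ?_
    intro x hx hx2
    have := hV x hx hx2
    rw [V_neg_aux m x a0 p0 u1, V_zero_aux m x a1 p1 u2, V_pos_aux m x a2 p2 (by omega),
      V_abs_aux m x a3 c3, V_neg_aux m x b0 q0 u3, V_zero_aux m x b1 q1 u4,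
      V_pos_aux m x b2 q2 (by omega), V_abs_aux m x b3 d3] at this
    linarith
  · have hp := abs_aux a3
    have hq := abs_aux b3
    have hA := abs_aux (m - a0)
    have hB := abs_aux (m - b0)
    have hp0 : 0 ≤ |a3| := abs_nonneg _
    have hq0 : 0 ≤ |b3| := abs_nonneg _
    have hA0 : 0 ≤ |m - a0| := abs_nonneg _
    have hB0 : 0 ≤ |m - b0| := abs_nonneg _
    refine r5_aux m s1 s2 s3 t1 t2 t3 |a3| |b3| |m - a0| |m - b0| hs1 hs12 hs23 hs3 ht1 ht12 ht23 ht3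
      u1 u2 u3 u4 hp hq hA hB ?_
    refine perm4 m a2 |a3| |m - b0| (m - b1) b2 |b3| |m - a0| (m - a1) (by omega) (by omega)
      (by omega) (by omega) (by omega) (by omega) (by omega) (by omega) ?_
    intro x hx hx2
    have := hV x hx hx2
    have w1 : |m - a1| = m - a1 := abs_of_nonneg (by omega)
    have w2 : |m - b1| = m - b1 := abs_of_nonneg (by omega)
    rw [V_neg_aux m x a0 p0 u1, V_neg_aux m x a1 p1 u2, V_pos_aux m x a2 p2 (by omega),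
      V_abs_aux m x a3 c3, V_neg_aux m x b0 q0 u3, V_neg_aux m x b1 q1 u4,
      V_pos_aux m x b2 q2 (by omega), V_abs_aux m x b3 d3, w1, w2] at this
    linarith

/-- the conclusion for unordered triples -/
def Concl (m s1 s2 s3 t1 t2 t3 : ℤ) : Prop :=
  ({s1, s2, s3} : Multiset ℤ) = {t1, t2, t3} ∨
  ∃ x1 x2 y1 y2 : ℤ, 0 < x1 ∧ 0 < y1 ∧ x1 < x2 ∧ y1 < y2 ∧ 2 * (x1 + x2) = m ∧ 2 * (y1 + y2) = m ∧
    ({s1, s2, s3} : Multiset ℤ) = {x2, x1, y2 - y1} ∧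
    ({t1, t2, t3} : Multiset ℤ) = {y2, y1, x2 - x1}

theorem classify_W12 (m x a b c : ℤ) : W m x a b c = W m x b a c := by
  unfold W
  have h1 : b + a + c = a + b + c := by ring
  have h2 : b + a - c = a + b - c := by ring
  have h3 : b - a + c = -a + b + c := by ring
  have h4 : -b + a + c = a - b + c := by ring
  rw [h1, h2, h3, h4]; ring

theorem classify_W23 (m x a b c : ℤ) : W m x a b c = W m x a c b := by
  unfold W
  have h1 : a + c + b = a + b + c := by ring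
  have h2 : a + c - b = a - b + c := by ring
  have h3 : a - c + b = a + b - c := by ring
  have h4 : -a + c + b = -a + b + c := by ring
  rw [h1, h2, h3, h4]; ring

theorem classify_M12 (a b c : ℤ) : ({a, b, c} : Multiset ℤ) = {b, a, c} :=
  Multiset.cons_swap a b {c}

theorem classify_M23 (a b c : ℤ) : ({a, b, c} : Multiset ℤ) = {a, c, b} := by
  have : ({b, c} : Multiset ℤ) = {c, b} := Multiset.cons_swap b c 0
  show a ::ₘ ({b, c} : Multiset ℤ) = a ::ₘ ({c, b} : Multiset ℤ)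
  rw [this]

theorem classify_sort (m s1 s2 s3 : ℤ) (hs1 : 0 < s1 ∧ 2 * s1 < m) (hs2 : 0 < s2 ∧ 2 * s2 < m)
    (hs3 : 0 < s3 ∧ 2 * s3 < m) :
    ∃ a b c : ℤ, c ≤ b ∧ b ≤ a ∧ 0 < c ∧ 2 * a < m ∧ ({s1, s2, s3} : Multiset ℤ) = {a, b, c} ∧
      ∀ x : ℤ, W m x s1 s2 s3 = W m x a b c := by
  rcases le_total s1 s2 with h12 | h12
  · rcases le_total s2 s3 with h23 | h23
    · -- s1 ≤ s2 ≤ s3
      refine ⟨s3, s2, s1, h12, h23, hs1.1, hs3.2, ?_, ?_⟩
      · rw [classify_M12, classify_M23, classify_M12]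
      · intro x
        rw [classify_W12, classify_W23, classify_W12]
    · rcases le_total s1 s3 with h13 | h13
      · -- s1 ≤ s3 ≤ s2
        refine ⟨s2, s3, s1, h13, h23, hs1.1, hs2.2, ?_, ?_⟩
        · rw [classify_M12, classify_M23]
        · intro x
          rw [classify_W12, classify_W23]
      · -- s3 ≤ s1 ≤ s2
        refine ⟨s2, s1, s3, h13, h12, hs3.1, hs2.2, ?_, ?_⟩
        · rw [classify_M12]
        · intro x
          rw [classify_W12]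
  · rcases le_total s1 s3 with h13 | h13
    · -- s2 ≤ s1 ≤ s3
      refine ⟨s3, s1, s2, h12, h13, hs2.1, hs3.2, ?_, ?_⟩
      · rw [classify_M23, classify_M12]
      · intro x
        rw [classify_W23, classify_W12]
    · rcases le_total s2 s3 with h23 | h23
      · -- s2 ≤ s3 ≤ s1
        refine ⟨s1, s3, s2, h23, h13, hs2.1, hs1.2, ?_, ?_⟩
        · rw [classify_M23]
        · intro x
          rw [classify_W23]
      · exact ⟨s1, s2, s3, h23, h12, hs3.1, hs1.2, rfl, fun x => rfl⟩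

theorem classify_fam (m si sj sc tk tl td : ℤ) (hj : 0 < sj) (hl : 0 < tl) (hc : 0 < sc)
    (hd : 0 < td) (h : Fam m si sj sc tk tl td) : Concl m si sj sc tk tl td := by
  obtain ⟨h1, h2, h3, h4⟩ := h
  right
  refine ⟨sj, si, tl, tk, hj, hl, by omega, by omega, by omega, by omega, ?_, ?_⟩
  · rw [h3]
  · rw [h4]

theorem classify_concl_congr (m s1 s2 s3 t1 t2 t3 a b c d e f : ℤ)
    (hs : ({s1, s2, s3} : Multiset ℤ) = {a, b, c}) (ht : ({t1, t2, t3} : Multiset ℤ) = {d, e, f})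
    (h : Concl m a b c d e f) : Concl m s1 s2 s3 t1 t2 t3 := by
  unfold Concl at *
  rw [hs, ht]; exact h

theorem classify (m s1 s2 s3 t1 t2 t3 : ℤ) (hs1 : 0 < s1 ∧ 2 * s1 < m) (hs2 : 0 < s2 ∧ 2 * s2 < m)
    (hs3 : 0 < s3 ∧ 2 * s3 < m) (ht1 : 0 < t1 ∧ 2 * t1 < m) (ht2 : 0 < t2 ∧ 2 * t2 < m)
    (ht3 : 0 < t3 ∧ 2 * t3 < m) (h : ∀ x : ℤ, W m x s1 s2 s3 = W m x t1 t2 t3) :
    Concl m s1 s2 s3 t1 t2 t3 := by
  obtain ⟨a, b, c, hcb, hba, hc, ha, hM, hW⟩ := classify_sort m s1 s2 s3 hs1 hs2 hs3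
  obtain ⟨d, e, f, hfe, hed, hf, hd, hM', hW'⟩ := classify_sort m t1 t2 t3 ht1 ht2 ht3
  have hh : ∀ x : ℤ, W m x a b c = W m x d e f := fun x => by rw [← hW x, ← hW' x]; exact h x
  apply classify_concl_congr m s1 s2 s3 t1 t2 t3 a b c d e f hM hM'
  have m1 := classify_M12
  have m2 := classify_M23
  have hb : 0 < b := by omega
  have ha0 : 0 < a := by omega
  have he : 0 < e := by omega
  have hd0 : 0 < d := by omega
  rcases classify_sorted m a b c d e f ha hba hcb hc hd hed hfe hf hh with h | h | h | h | h | h | h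
    | h | h | h
  · left; rw [h.1, h.2.1, h.2.2]
  · exact classify_fam m _ _ _ _ _ _ (by omega) (by omega) (by omega) (by omega) h
  · refine classify_concl_congr m _ _ _ _ _ _ a b c d f e ?_ ?_
      (classify_fam m _ _ _ _ _ _ (by omega) (by omega) (by omega) (by omega) h)
    · rfl
    · rw [m2]
  · refine classify_concl_congr m _ _ _ _ _ _ a b c e f d ?_ ?_
      (classify_fam m _ _ _ _ _ _ (by omega) (by omega) (by omega) (by omega) h)
    · rfl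
    · rw [m1, m2]
  · refine classify_concl_congr m _ _ _ _ _ _ a c b d e f ?_ ?_
      (classify_fam m _ _ _ _ _ _ (by omega) (by omega) (by omega) (by omega) h)
    · rw [m2]
    · rfl
  · refine classify_concl_congr m _ _ _ _ _ _ a c b d f e ?_ ?_
      (classify_fam m _ _ _ _ _ _ (by omega) (by omega) (by omega) (by omega) h)
    · rw [m2]
    · rw [m2]
  · refine classify_concl_congr m _ _ _ _ _ _ a c b e f d ?_ ?_
      (classify_fam m _ _ _ _ _ _ (by omega) (by omega) (by omega) (by omega) h)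
    · rw [m2]
    · rw [m1, m2]
  · refine classify_concl_congr m _ _ _ _ _ _ b c a d e f ?_ ?_
      (classify_fam m _ _ _ _ _ _ (by omega) (by omega) (by omega) (by omega) h)
    · rw [m1, m2]
    · rfl
  · refine classify_concl_congr m _ _ _ _ _ _ b c a d f e ?_ ?_
      (classify_fam m _ _ _ _ _ _ (by omega) (by omega) (by omega) (by omega) h)
    · rw [m1, m2]
    · rw [m2]
  · refine classify_concl_congr m _ _ _ _ _ _ b c a e f d ?_ ?_
      (classify_fam m _ _ _ _ _ _ (by omega) (by omega) (by omega) (by omega) h)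
    · rw [m1, m2]
    · rw [m1, m2]

theorem vanish_of_cos_prod (x y z : ℝ) :
    Real.cos (x + y + z) + Real.cos (x + y - z) + Real.cos (x - y + z) + Real.cos (-x + y + z) =
      4 * (Real.cos x * Real.cos y * Real.cos z) := by
  have e : -x + y + z = (y + z) - x := by ring
  rw [e, Real.cos_sub (y + z) x, Real.cos_add (x + y) z, Real.cos_sub (x + y) z,
    Real.cos_add (x - y) z, Real.cos_add x y, Real.cos_sub x y, Real.sin_add x y, Real.sin_sub x y,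
    Real.cos_add y z, Real.sin_add y z]
  ring

theorem vanish_of_cos_key (m : ℕ) (ζ : ℂ) (hζ : ζ = Complex.exp (Real.pi / m * Complex.I))
    (g : ℤ) : ζ ^ g + ζ ^ (-g) = ((2 * Real.cos (g * Real.pi / m) : ℝ) : ℂ) := by
  push_cast
  rw [Complex.two_cos, hζ, ← Complex.exp_int_mul, ← Complex.exp_int_mul]
  push_cast
  congr 1
  · congr 1
    ring
  · congr 1
    ring

theorem vanish_of_cos (m : ℕ) (hm : 0 < m) (s1 s2 s3 t1 t2 t3 : ℤ)
    (h : Real.cos (s1 * Real.pi / m) * Real.cos (s2 * Real.pi / m) * Real.cos (s3 * Real.pi / m) =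
      Real.cos (t1 * Real.pi / m) * Real.cos (t2 * Real.pi / m) * Real.cos (t3 * Real.pi / m))
    (ζ : ℂ) (hζ : ζ = Complex.exp (Real.pi / m * Complex.I)) :
    ∑ i, ζ ^ ex ![s1 + s2 + s3, s1 + s2 - s3, s1 - s2 + s3, -s1 + s2 + s3,
          t1 + t2 + t3 + m, t1 + t2 - t3 + m, t1 - t2 + t3 + m, -t1 + t2 + t3 + m] i = 0 := by
  have hs : ∀ g : Fin 8 → ℤ, ∑ i, ζ ^ ex g i = ∑ j : Fin 8, (ζ ^ g j + ζ ^ (-g j)) := by
    intro g
    rw [Fintype.sum_prod_type]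
    refine Finset.sum_congr rfl fun j _ => ?_
    rw [Fintype.sum_bool]
    simp [ex]
  rw [hs]
  simp only [vanish_of_cos_key m ζ hζ]
  rw [← Complex.ofReal_sum, Complex.ofReal_eq_zero, Fin.sum_univ_eight]
  have hm0 : (m : ℝ) ≠ 0 := Nat.cast_ne_zero.2 hm.ne'
  obtain ⟨x, hx⟩ : ∃ x : ℝ, x = s1 * Real.pi / m := ⟨_, rfl⟩
  obtain ⟨y, hy⟩ : ∃ y : ℝ, y = s2 * Real.pi / m := ⟨_, rfl⟩
  obtain ⟨z, hz⟩ : ∃ z : ℝ, z = s3 * Real.pi / m := ⟨_, rfl⟩
  obtain ⟨x', hx'⟩ : ∃ x : ℝ, x = t1 * Real.pi / m := ⟨_, rfl⟩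
  obtain ⟨y', hy'⟩ : ∃ y : ℝ, y = t2 * Real.pi / m := ⟨_, rfl⟩
  obtain ⟨z', hz'⟩ : ∃ z : ℝ, z = t3 * Real.pi / m := ⟨_, rfl⟩
  rw [← hx, ← hy, ← hz, ← hx', ← hy', ← hz'] at h
  show 2 * Real.cos (((s1 + s2 + s3 : ℤ) : ℝ) * Real.pi / m) +
    2 * Real.cos (((s1 + s2 - s3 : ℤ) : ℝ) * Real.pi / m) +
    2 * Real.cos (((s1 - s2 + s3 : ℤ) : ℝ) * Real.pi / m) +
    2 * Real.cos (((-s1 + s2 + s3 : ℤ) : ℝ) * Real.pi / m) +
    2 * Real.cos (((t1 + t2 + t3 + m : ℤ) : ℝ) * Real.pi / m) +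
    2 * Real.cos (((t1 + t2 - t3 + m : ℤ) : ℝ) * Real.pi / m) +
    2 * Real.cos (((t1 - t2 + t3 + m : ℤ) : ℝ) * Real.pi / m) +
    2 * Real.cos (((-t1 + t2 + t3 + m : ℤ) : ℝ) * Real.pi / m) = 0
  have a1 : ((s1 + s2 + s3 : ℤ) : ℝ) * Real.pi / m = x + y + z := by
    rw [hx, hy, hz]; push_cast; ring
  have a2 : ((s1 + s2 - s3 : ℤ) : ℝ) * Real.pi / m = x + y - z := by
    rw [hx, hy, hz]; push_cast; ring
  have a3 : ((s1 - s2 + s3 : ℤ) : ℝ) * Real.pi / m = x - y + z := by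
    rw [hx, hy, hz]; push_cast; ring
  have a4 : ((-s1 + s2 + s3 : ℤ) : ℝ) * Real.pi / m = -x + y + z := by
    rw [hx, hy, hz]; push_cast; ring
  have b1 : ((t1 + t2 + t3 + m : ℤ) : ℝ) * Real.pi / m = x' + y' + z' + Real.pi := by
    rw [hx', hy', hz']; push_cast; field_simp
  have b2 : ((t1 + t2 - t3 + m : ℤ) : ℝ) * Real.pi / m = x' + y' - z' + Real.pi := by
    rw [hx', hy', hz']; push_cast; field_simp
  have b3 : ((t1 - t2 + t3 + m : ℤ) : ℝ) * Real.pi / m = x' - y' + z' + Real.pi := by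
    rw [hx', hy', hz']; push_cast; field_simp
  have b4 : ((-t1 + t2 + t3 + m : ℤ) : ℝ) * Real.pi / m = -x' + y' + z' + Real.pi := by
    rw [hx', hy', hz']; push_cast; field_simp
  rw [a1, a2, a3, a4, b1, b2, b3, b4, Real.cos_add_pi, Real.cos_add_pi, Real.cos_add_pi,
    Real.cos_add_pi]
  have h1 := vanish_of_cos_prod x y z
  have h2 := vanish_of_cos_prod x' y' z'
  linarith

theorem cos_family (p q r : ℝ) (hq : q ≠ 0) :
    Real.cos ((q - p) * Real.pi / (2 * q)) * Real.cos ((q - 2 * r) * Real.pi / (2 * q)) *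
      Real.cos (p * Real.pi / (2 * q)) =
    Real.cos ((q - 2 * p) * Real.pi / (2 * q)) * Real.cos ((q - r) * Real.pi / (2 * q)) *
      Real.cos (r * Real.pi / (2 * q)) := by
  have h1 : (q - p) * Real.pi / (2 * q) = Real.pi / 2 - p * Real.pi / (2 * q) := by
    field_simp
  have h2 : (q - 2 * r) * Real.pi / (2 * q) = Real.pi / 2 - 2 * (r * Real.pi / (2 * q)) := by
    field_simp
  have h3 : (q - 2 * p) * Real.pi / (2 * q) = Real.pi / 2 - 2 * (p * Real.pi / (2 * q)) := by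
    field_simp
  have h4 : (q - r) * Real.pi / (2 * q) = Real.pi / 2 - r * Real.pi / (2 * q) := by
    field_simp
  rw [h1, h2, h3, h4, Real.cos_pi_div_two_sub, Real.cos_pi_div_two_sub, Real.cos_pi_div_two_sub,
    Real.cos_pi_div_two_sub, Real.sin_two_mul, Real.sin_two_mul]
  ring

end TC
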